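import Pool.Agent.Mg.F3792c7p.G947474

set_option linter.all false

section

/-! The forms built on the constant solution: nonvanishing and the zero estimate of order two. -/

open Finset Filter Topology PowerSeries

noncomputable section

namespace Pool.Agent.MP_3924c3_nt.BK

theorem s_F1 : StF1 := by
  intro M hM k w a ha hne h
  apply hne
  let g : ℕ → PS := fun j =>
    if hj : j < k + 1 then ((cf (-(k : ℤ)) j 0 : ℚ) * (-1) ^ j) • a ⟨j, hj⟩ else 0
  have hg : ∀ j : Fin (k + 1), g j = ((cf (-(k : ℤ)) j 0 : ℚ) * (-1) ^ (j : ℕ)) • a j :=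
    fun j => by simp only [g, j.2, dif_pos]
  have h1 : ∀ j ≤ k, g j ∈ M (w + k - 2 * j) := fun j hj => by
    have hj' : j < k + 1 := by omega
    have e := hg ⟨j, hj'⟩
    have h2 := ha ⟨j, hj'⟩
    simp only at e h2
    rw [e]
    refine (M _).smul_mem _ ?_
    rwa [show w + k - 2 * (j : ℤ) = w - (-(k : ℤ) + 2 * j) by ring]
  have h2 : ∑ j ∈ range (k + 1), g j * UU ^ j = 0 := by
    rw [← h, Finset.sum_range]
    refine sum_congr rfl fun j _ => ?_
    rw [hg, can_const, neg_pow UU, mul_smul_comm, smul_mul_assoc, mul_smul]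
    congr 1
    rcases neg_one_pow_eq_or ℚ (j : ℕ) with e | e
    all_goals
      rcases Nat.even_or_odd (j : ℕ) with hj | hj <;> simp [hj.neg_one_pow]
  have h3 := hM.tra k (w + k) g h1 h2
  funext j
  have h4 := h3 j (Nat.lt_succ_iff.1 j.2)
  rw [hg, smul_eq_zero] at h4
  refine h4.resolve_left (mul_ne_zero ?_ (pow_ne_zero _ (by norm_num)))
  exact_mod_cast cf_ne (Nat.lt_succ_iff.1 j.2)

namespace F1

theorem isSol {M : ℤ → Submodule ℚ PS} (hM : Mod M) (v : LS) (hv : thL (thL v) = 0) :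
    IsSol (fun j : Fin 2 => -1 + 2 * ((j : ℕ) : ℤ)) ![![0, 1], ![-EE, 0]]
      (fun j : Fin 2 => can thL (io UU) (-1) j v) := by
  intro l
  fin_cases l
  · simp [Fin.sum_univ_two, can_zero, can_one]
  · simp only [Fin.sum_univ_two, Fin.val_zero, Fin.val_one, can_zero, can_one, Fin.mk_one,
      Matrix.cons_val_one, Matrix.cons_val_zero, map_neg, map_zero, zero_mul, add_zero, Sr,
      map_sub, Derivation.map_smul, Derivation.leibniz, hv, hM.ramL, smul_eq_mul]
    norm_num
    ring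

theorem dL_R (a : Fin 2 → PS) (v : LS) :
    dL (∑ j : Fin 2, io (a j) * can thL (io UU) (-1) j v) =
      ∑ j : Fin 2, io (a j) * can thL (io UU) (-1) j (dL v) := by
  rw [map_sum]
  refine sum_congr rfl fun j _ => ?_
  rw [Derivation.leibniz, dL_io, can_comm dL_thL (dL_io _)]
  simp

end F1

theorem s_Z2 (hZE : StZE) : StZ2 := by
  intro M hM w a ha hne
  have h1 : ∑ j : Fin 2, a j * can th UU (-1) j 1 ≠ 0 := by
    have := s_F1 M hM 1 w a (by simpa using ha) hne
    simpa using this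
  have hR : ∑ j : Fin 2, io (a j) * can thL (io UU) (-1) j 1 ≠ 0 := by
    intro h
    apply h1
    apply io_inj
    rw [map_sum, map_zero, ← h]
    exact sum_congr rfl fun j _ => by rw [map_mul, io_can, map_one]
  have key := hZE M hM (Fin 2) (fun j : Fin 2 => -1 + 2 * ((j : ℕ) : ℤ)) ![![0, 1], ![-EE, 0]] w a
    (fun s j => can thL (io UU) (-1) j (tau ^ (s : ℕ))) (fun j => can th UU (-1) j 1) 0
    ?_ ha ?_ ?_ ?_ (can_zero _ _ _ _)
  · obtain ⟨n, hn, hb⟩ := key
    refine ⟨n, hn, ?_⟩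
    simp only [Fintype.card_fin, Fin.sum_univ_two, Fin.val_zero, Fin.val_one] at hb
    push_cast at hb
    linarith
  · intro l j
    fin_cases l <;> fin_cases j
    · simp
    · simpa using hM.one
    · simpa using hM.ee
    · simp
  · intro s
    refine F1.isSol hM _ ?_
    fin_cases s
    · simp
    · simp [thL_tau]
  · rw [Fintype.linearIndependent_iff]
    intro c hc
    simp only [Fin.sum_univ_two (f := fun s => c s • _), Fin.val_zero, Fin.val_one, pow_zero,
      pow_one] at hc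
    have hd := congrArg dL hc
    rw [map_add, Derivation.map_smul, Derivation.map_smul, F1.dL_R, F1.dL_R, dL_tau,
      Derivation.map_one_eq_zero, map_zero] at hd
    simp only [can_zero', mul_zero, sum_const_zero, smul_zero, zero_add] at hd
    have c1 : c 1 = 0 := (smul_eq_zero.1 hd).resolve_right hR
    rw [c1, zero_smul, add_zero] at hc
    have c0 : c 0 = 0 := (smul_eq_zero.1 hc).resolve_right hR
    intro i
    fin_cases i
    exacts [c0, c1]
  · have := F1.isSol hM 1 (by simp)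
    simpa only [io_can, map_one] using this

end Pool.Agent.MP_3924c3_nt.BK

end
end

section

/-! A full system of solutions stays independent under the linear form. -/

open Finset Filter Topology PowerSeries

noncomputable section

namespace Pool.Agent.MP_3924c3_nt.BK

namespace LI

/-- the linear form on pairs -/
def RR (k : ℕ) (a : JJ k → PS) : (LS × LS) →ₗ[ℚ] LS where
  toFun x := ∑ j, io (a j) * sol thL (io UU) k x.1 x.2 j
  map_add' x y := by
    rw [← sum_add_distrib]
    refine sum_congr rfl fun j _ => ?_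
    rw [← mul_add]
    congr 1
    cases j <;> exact can_add _ _ _ _ _ _
  map_smul' c x := by
    rw [RingHom.id_apply, smul_sum]
    refine sum_congr rfl fun j _ => ?_
    rw [← mul_smul_comm]
    congr 1
    cases j <;> exact can_smul _ _ _ _ _ _

theorem RR_apply (k : ℕ) (a : JJ k → PS) (u v : LS) :
    RR k a (u, v) = ∑ j, io (a j) * sol thL (io UU) k u v j := rfl

theorem dL_RR (k : ℕ) (a : JJ k → PS) (u v : LS) :
    dL (RR k a (u, v)) = RR k a (dL u, dL v) := by
  simp only [RR_apply, map_sum, Derivation.leibniz, dL_io, dL_sol, mul_zero, add_zero,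
    smul_eq_mul]

theorem RR_io (k : ℕ) (a : JJ k → PS) (u v : PS) :
    RR k a (io u, io v) = io (∑ j, a j * sol th UU k u v j) := by
  simp only [RR_apply, map_sum, map_mul, io_sol]

theorem dL_C (P : Polynomial ℚ) : dL (C P) = C (Polynomial.derivative P) := by
  ext1 n
  simp only [coeff_dL, coeff_C]
  split_ifs <;> simp

theorem C_smul (c : ℚ) (P : Polynomial ℚ) : (C (c • P) : LS) = c • C P := map_rat_smul C c P

theorem C_C (c : ℚ) : (C (Polynomial.C c) : LS) = c • 1 := by
  rw [← mul_one (Polynomial.C c), ← Polynomial.smul_eq_C_mul, C_smul, map_one]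

variable {k : ℕ} {a : JJ k → PS}

theorem poly (h1 : ∑ j : Fin (k + 1), a (.inr j) * can th UU (-(k : ℤ)) j 1 ≠ 0)
    (P : Polynomial ℚ) (h : RR k a (C P, 0) = 0) : P = 0 := by
  have base : ∀ P : Polynomial ℚ, Polynomial.derivative P = 0 → RR k a (C P, 0) = 0 → P = 0 := by
    intro P hP h
    rw [Polynomial.eq_C_of_derivative_eq_zero hP] at h ⊢
    have e : ((C (Polynomial.C (P.coeff 0)), 0) : LS × LS) = P.coeff 0 • (io 1, io 0) := by
      simp [C_C]
    rw [e, map_smul, RR_io, smul_eq_zero] at h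
    rcases h with h | h
    · rw [h, map_zero]
    · refine absurd (io_inj (h.trans (map_zero io).symm)) ?_
      simpa only [Fintype.sum_sum_type, sol, can_zero', mul_zero, sum_const_zero, zero_add]
        using h1
  induction hn : P.natDegree using Nat.strong_induction_on generalizing P with
  | _ n ih =>
    by_cases h0 : P.natDegree = 0
    · exact base P (Polynomial.derivative_of_natDegree_zero h0) h
    · refine base P (ih _ (hn ▸ Polynomial.natDegree_derivative_lt h0) _ ?_ rfl) h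
      have := congrArg dL h
      rwa [dL_RR, dL_C, map_zero] at this

theorem key (h1 : ∑ j : Fin (k + 1), a (.inr j) * can th UU (-(k : ℤ)) j 1 ≠ 0)
    (h2 : ∀ c : ℚ, ∑ j, a j * sol th UU k (YY k + C c) 1 j ≠ 0) (P : Polynomial ℚ) (al : ℚ)
    (h : RR k a (C P + al • io (YY k), al • 1) = 0) : P = 0 ∧ al = 0 := by
  by_cases hal : al = 0
  · refine ⟨poly h1 P ?_, hal⟩
    simpa only [hal, zero_smul, add_zero] using h
  · exfalso
    have h3 := congrArg dL h
    simp only [dL_RR, map_add, dL_C, Derivation.map_smul, dL_io, Derivation.map_one_eq_zero,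
      smul_zero, add_zero, map_zero] at h3
    rw [Polynomial.eq_C_of_derivative_eq_zero (poly h1 _ h3)] at h
    have e : ((C (Polynomial.C (P.coeff 0)) + al • io (YY k), al • 1) : LS × LS) =
        al • (io (YY k + C (P.coeff 0 / al)), io 1) := by
      have e1 : io (C (P.coeff 0 / al)) = (P.coeff 0 / al) • 1 := by
        rw [← C_C]
        exact PowerSeries.map_C _ _
      rw [map_add, e1, map_one, Prod.smul_mk, smul_add, smul_smul, mul_div_cancel₀ _ hal, C_C,
        add_comm]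
    rw [e, map_smul, RR_io, smul_eq_zero] at h
    exact h.elim hal fun h => h2 _ (io_inj (h.trans (map_zero io).symm))

end LI

open LI in
theorem s_LI (hOk : StOk) : StLI := by
  intro k a hk h1 h2
  obtain ⟨o1, o2, o3⟩ := hOk k hk
  set c : ℚ := coeff 0 (Gs (k + 1)) / k.factorial with hc
  refine ⟨Sum.elim ![io (YY k), tau * io (YY k) + c • tau ^ (k + 1)] fun i => tau ^ (i : ℕ),
    Sum.elim ![1, tau] fun _ => 0, ?_, ?_⟩
  · rintro (s | i)
    · fin_cases s
      · exact o2
      · exact o3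
    · exact o1 i (Nat.lt_succ_iff.1 i.2)
  · refine Fintype.linearIndependent_iff.2 fun g hg => ?_
    simp only [← RR_apply, ← map_smul] at hg
    rw [← map_sum] at hg
    set P : Polynomial ℚ := ∑ i : Fin (k + 1), g (.inr i) • Polynomial.X ^ (i : ℕ) with hP
    have e : RR k a (C (P + (g (.inl 1) * c) • Polynomial.X ^ (k + 1)) + g (.inl 0) • io (YY k) +
        g (.inl 1) • (tau * io (YY k)), g (.inl 0) • 1 + g (.inl 1) • tau) = 0 := by
      rw [← hg]
      congr 1
      ext1
      · simp only [Prod.fst_sum, Prod.smul_fst, Fintype.sum_sum_type, Fin.sum_univ_two,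
          Sum.elim_inl, Sum.elim_inr, Matrix.cons_val_zero, Matrix.cons_val_one, hP, map_add,
          map_sum, C_smul, map_pow, smul_add, smul_smul, tau, Prod.fst_add]
        abel
      · simp only [Prod.snd_sum, Prod.smul_snd, Fintype.sum_sum_type, Fin.sum_univ_two,
          Sum.elim_inl, Sum.elim_inr, Matrix.cons_val_zero, Matrix.cons_val_one, smul_zero,
          sum_const_zero, add_zero, Prod.snd_add]
    have h3 := congrArg dL e
    simp only [dL_RR, map_add (dL : Derivation ℚ LS LS), dL_C, Derivation.map_smul, dL_io,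
      Derivation.map_one_eq_zero, Derivation.leibniz, dL_tau, smul_zero, add_zero, zero_add,
      map_zero, smul_eq_mul, mul_one, mul_zero] at h3
    have hb := (key h1 h2 _ _ h3).2
    simp only [hb, zero_mul, zero_smul, add_zero] at e
    obtain ⟨h4, ha⟩ := key h1 h2 _ _ e
    rintro (s | i)
    · fin_cases s
      · exact ha
      · exact hb
    · have h5 := congrArg (fun Q : Polynomial ℚ => Q.coeff i) h4
      simpa [hP, Polynomial.finsetSum_coeff, Polynomial.coeff_X_pow, Fin.val_inj] using h5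

end Pool.Agent.MP_3924c3_nt.BK

end
end

section

/-! The `p`-adic size of the determinant, columns below and above `p`. -/

open Finset Filter Topology PowerSeries

noncomputable section

namespace Pool.Agent.MP_3924c3_nt.BK

namespace V2

theorem cast_zero {p : ℕ} [Fact p.Prime] {z : ℚ} (h : padicNorm p z < 1) :
    (z : ZMod p) = 0 := by
  have h1 : padicNorm p (z.num : ℚ) < 1 := by
    rw [← Rat.mul_den_eq_num, padicNorm.mul]
    exact mul_lt_one_of_nonneg_of_lt_one_left (padicNorm.nonneg _) h (padicNorm.of_nat _)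
  rw [padicNorm.int_lt_one_iff] at h1
  rw [Rat.cast_def, (ZMod.intCast_zmod_eq_zero_iff_dvd _ _).2 h1, zero_div]

theorem cast_eq (hRed : MP_384f6f_nt.NW.StRed) {p : ℕ} [Fact p.Prime] {x y : ℚ}
    (hy : padicNorm p y ≤ 1) (h : padicNorm p (x - y) < 1) : (x : ZMod p) = (y : ZMod p) := by
  have e := (hRed p y (x - y) hy h.le).1
  rwa [add_sub_cancel, cast_zero h, add_zero] at e

theorem span_of (hRK : StRK) {ι : Type} [Fintype ι] [DecidableEq ι] (p : ℕ) [Fact p.Prime]
    (W : Submodule ℚ PS) [Module.Finite ℚ W] (L : PS →ₗ[ℚ] (ι → ℚ)) :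
    ∃ T : Finset (ι → ZMod p), T.card ≤ Module.finrank ℚ W ∧ ∀ f ∈ W,
      (∀ s, padicNorm p (L f s) ≤ 1) →
      (fun s => ((L f s : ℚ) : ZMod p)) ∈ Submodule.span (ZMod p) (T : Set (ι → ZMod p)) := by
  obtain ⟨T, h1, h2⟩ := hRK ι p (W.map L)
  exact ⟨T, h1.trans (Submodule.finrank_map_le L W), fun f hf h =>
    h2 _ (Submodule.mem_map_of_mem hf) h⟩

theorem span_single {ι K : Type} [Fintype ι] [DecidableEq ι] [Field K] (S : Finset ι) :
    ∃ T : Finset (ι → K), T.card ≤ S.card ∧ ∀ v : ι → K, (∀ s, s ∉ S → v s = 0) →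
      v ∈ Submodule.span K (T : Set (ι → K)) := by
  classical
  refine ⟨S.image fun s => Pi.single s 1, card_image_le, fun v hv => ?_⟩
  have e : v = ∑ s ∈ S, v s • (Pi.single s 1 : ι → K) := by
    ext t
    simp only [Finset.sum_apply, Pi.smul_apply, Pi.single_apply, smul_eq_mul, mul_ite, mul_one,
      mul_zero]
    rw [sum_ite_eq]
    split_ifs with h
    · rfl
    · exact hv t h
  rw [e]
  refine Submodule.sum_mem _ fun s hs => Submodule.smul_mem _ _ (Submodule.subset_span ?_)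
  exact mem_coe.2 (mem_image_of_mem _ hs)

theorem core (hG2 : MP_384f6f_nt.NW.StG2) {ι : Type} [Fintype ι] [DecidableEq ι] (p : ℕ)
    [Fact p.Prime] (B : Matrix ι ι ℚ) (P : ι → Prop) [DecidablePred P]
    (T1 T2 : Finset (ι → ZMod p)) (hB : ∀ r s, padicNorm p (B r s) ≤ 1)
    (h1 : ∀ r, (fun s => if P s then ((B r s : ℚ) : ZMod p) else 0) ∈
      Submodule.span (ZMod p) (T1 : Set (ι → ZMod p)))
    (h2 : ∀ r, (fun s => if P s then 0 else ((B r s : ℚ) : ZMod p)) ∈
      Submodule.span (ZMod p) (T2 : Set (ι → ZMod p))) :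
    padicNorm p B.det ≤ (p : ℚ) ^ ((T1.card : ℤ) + T2.card - Fintype.card ι) := by
  classical
  have hp : (1 : ℚ) ≤ p := by exact_mod_cast (Fact.out : p.Prime).one_le
  refine (hG2 ι p B (T1 ∪ T2) hB fun r => ?_).trans (zpow_le_zpow_right₀ hp ?_)
  · have e : (fun s => ((B r s : ℚ) : ZMod p)) =
        (fun s => if P s then ((B r s : ℚ) : ZMod p) else 0) +
        (fun s => if P s then 0 else ((B r s : ℚ) : ZMod p)) := by
      ext s; simp only [Pi.add_apply]; split_ifs <;> simp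
    rw [e]
    exact Submodule.add_mem _
      (Submodule.span_mono (by rw [coe_union]; exact Set.subset_union_left) (h1 r))
      (Submodule.span_mono (by rw [coe_union]; exact Set.subset_union_right) (h2 r))
  · have := card_union_le T1 T2
    omega

theorem dim_le {k D x : ℕ} (hk : 3 ≤ k) : ((w0 k D + x) / 12 + 1).toNat ≤ rho k D x := by
  unfold w0 rho
  omega

/-- columns below `p` -/
def L1 {ι : Type} (c : ι → ℕ) (p : ℕ) : PS →ₗ[ℚ] (ι → ℚ) where
  toFun f s := if c s < p then coeff (c s) f else 0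
  map_add' f g := by ext s; simp only [Pi.add_apply]; split_ifs <;> simp
  map_smul' a f := by ext s; simp only [Pi.smul_apply]; split_ifs <;> simp

/-- columns from `p` on -/
def L2 {ι : Type} (c : ι → ℕ) (p : ℕ) (H : PS) : PS →ₗ[ℚ] (ι → ℚ) where
  toFun f s := if c s < p then 0 else coeff (c s) (f * H)
  map_add' f g := by ext s; simp only [Pi.add_apply]; split_ifs <;> simp [add_mul]
  map_smul' a f := by ext s; simp only [Pi.smul_apply]; split_ifs <;> simp

/-- the scaled matrix -/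
def BB (k D p : ℕ) (c : Ix k D → ℕ) : Matrix (Ix k D) (Ix k D) ℚ :=
  Matrix.of fun r s => (if c s < p then 1 else (p : ℚ) ^ k) * coeff (c s) (row k D r)

theorem det_BB (k D p : ℕ) (c : Ix k D → ℕ) : (BB k D p c).det =
    (p : ℚ) ^ (k * (univ.filter fun s => ¬ c s < p).card) * Det k D c := by
  have := Matrix.det_mul_row (fun s => if c s < p then 1 else (p : ℚ) ^ k)
    (Matrix.of fun r s : Ix k D => coeff (c s) (row k D r))
  rw [prod_ite, prod_const_one, one_mul, prod_const, ← pow_mul] at this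
  exact this

theorem card_le {k D : ℕ} (p : ℕ) {c : Ix k D → ℕ} (h : Adm k D c) :
    (univ.filter fun s => ¬ c s < p).card ≤ NN k D - p := by
  rw [← Nat.card_Ico]
  refine card_le_card_of_injOn c (fun s hs => ?_) h.1.injOn
  have := h.2 s
  simp only [coe_filter, mem_univ, true_and, Set.mem_ofPred_eq, not_lt] at hs
  simp only [coe_Ico, Set.mem_Ico]
  exact ⟨hs, this⟩

theorem fin {k D p : ℕ} [Fact p.Prime] {c : Ix k D → ℕ} {a b : ℤ}
    (h : padicNorm p (BB k D p c).det ≤ (p : ℚ) ^ a)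
    (e : a + k * (univ.filter fun s => ¬ c s < p).card ≤ b) :
    padicNorm p (Det k D c) ≤ (p : ℚ) ^ b := by
  have hp : (1 : ℚ) < p := by exact_mod_cast (Fact.out : p.Prime).one_lt
  have hp0 : (0 : ℚ) < p := by linarith
  rw [det_BB, padicNorm.mul] at h
  set n := k * (univ.filter fun s => ¬ c s < p).card with hn
  have h1 : padicNorm p ((p : ℚ) ^ n) = ((p : ℚ) ^ n)⁻¹ := by
    have := padicNorm.padicNorm_p_lt_one_of_prime (p := p)
    rw [IsAbsoluteValue.abv_pow (padicNorm p), padicNorm.padicNorm_p_of_prime, inv_pow]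
  rw [h1, inv_mul_le_iff₀ (pow_pos hp0 n), ← zpow_natCast, ← zpow_add₀ hp0.ne'] at h
  refine h.trans (zpow_le_zpow_right₀ hp.le ?_)
  rw [hn]; push_cast; linarith

end V2

open V2 in
theorem s_V2 (hR0 : StRow0) (hR1 : StRow1) (hR2 : StRow2) (hDim : StDim) (hRK : StRK)
    (hCY : StCY) (hG2 : MP_384f6f_nt.NW.StG2) (hRed : MP_384f6f_nt.NW.StRed) : StV2 := by
  intro M hM k D p c hk h3 hc hp hkp hN
  have : Fact p.Prime := ⟨hp⟩
  have hc2 : ∀ s, c s < p ^ 2 := fun s => (hc.2 s).trans_le hN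
  have hB1 : ∀ r s, c s < p → BB k D p c r s = coeff (c s) (row k D r) := fun r s h => by
    simp [BB, h]
  have hB2 : ∀ r s, ¬ c s < p → BB k D p c r s = coeff (c s) ((p : ℚ) ^ k • row k D r) :=
    fun r s h => by simp [BB, h]
  have hB : ∀ r s, padicNorm p (BB k D p c r s) ≤ 1 := fun r s => by
    obtain ⟨a1, a2, -⟩ := hR0 M hM k D p r hk hp hkp
    by_cases h : c s < p
    · rw [hB1 r s h]; exact a1 _ h
    · rw [hB2 r s h]; exact a2 _ (hc2 s)
  -- columns below `p`
  have hT1 : ∃ T1 : Finset (Ix k D → ZMod p), T1.card ≤ r1 k D p ∧ ∀ r,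
      (fun s => if c s < p then ((BB k D p c r s : ℚ) : ZMod p) else 0) ∈
        Submodule.span (ZMod p) (T1 : Set (Ix k D → ZMod p)) := by
    by_cases hH : Hyp k p
    · obtain ⟨d1, d2⟩ := hDim M hM (w0 k D + p)
      obtain ⟨T, t1, t2⟩ := span_of hRK p (M (w0 k D + p)) (L1 c p)
      refine ⟨T, ?_, fun r => ?_⟩
      · rw [r1, if_pos hH]; exact t1.trans (d2.trans (dim_le h3))
      · obtain ⟨f, f1, f2, f3⟩ := hR1 M hM k D p r hk hp hkp hH
        have := t2 f f1 fun s => by
          change padicNorm p (if c s < p then coeff (c s) f else 0) ≤ 1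
          split_ifs with h
          · exact f2 _ h
          · simp
        convert this using 2 with s
        change _ = (((if c s < p then coeff (c s) f else 0 : ℚ)) : ZMod p)
        split_ifs with h
        · rw [hB1 r s h]
          exact cast_eq hRed (f2 _ h) (by rw [← map_sub]; exact f3 _ h)
        · simp
    · obtain ⟨T, t1, t2⟩ := span_single (K := ZMod p) (univ : Finset (Ix k D))
      refine ⟨T, ?_, fun r => t2 _ fun s hs => absurd (mem_univ s) hs⟩
      rw [r1, if_neg hH, ← card_Ix]; exact t1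
  -- columns from `p` on
  have hT2 : ∃ T2 : Finset (Ix k D → ZMod p), T2.card ≤ rho k D (k * p) ∧ ∀ r,
      (fun s => if c s < p then 0 else ((BB k D p c r s : ℚ) : ZMod p)) ∈
        Submodule.span (ZMod p) (T2 : Set (Ix k D → ZMod p)) := by
    obtain ⟨d1, d2⟩ := hDim M hM (w0 k D + k * p)
    have hH := (hCY k p hp (by omega) hkp).2.2.1
    obtain ⟨T, t1, t2⟩ := span_of hRK p (M (w0 k D + k * p)) (L2 c p ((p : ℚ) ^ k • YY k))
    refine ⟨T, ?_, fun r => ?_⟩
    · have := dim_le (D := D) (x := k * p) h3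
      rw [Nat.cast_mul] at this
      exact t1.trans (d2.trans this)
    · obtain ⟨f, f1, f2, f3⟩ := hR2 M hM k D p r hk hp hkp
      have := t2 f f1 fun s => by
        change padicNorm p (if c s < p then 0 else coeff (c s) (f * ((p : ℚ) ^ k • YY k))) ≤ 1
        split_ifs with h
        · simp
        · exact f2.mul hH _ (hc2 s)
      convert this using 2 with s
      change _ = (((if c s < p then 0 else coeff (c s) (f * ((p : ℚ) ^ k • YY k)) : ℚ)) : ZMod p)
      split_ifs with h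
      · simp
      · rw [hB2 r s h]
        exact cast_eq hRed (f2.mul hH _ (hc2 s)) (by rw [← map_sub]; exact f3 _ (hc2 s))
  obtain ⟨T1, a1, a2⟩ := hT1
  obtain ⟨T2, b1', b2'⟩ := hT2
  obtain ⟨T3, c1, c2⟩ := span_single (K := ZMod p) (univ.filter fun s : Ix k D => ¬ c s < p)
  have hn := card_le p hc
  have hkn : (k : ℤ) * (univ.filter fun s => ¬ c s < p).card ≤ k * (NN k D - p : ℕ) :=
    mul_le_mul_of_nonneg_left (by exact_mod_cast hn) (by positivity)
  constructor
  · refine fin (core hG2 p (BB k D p c) (fun s => c s < p) T1 T2 hB a2 b2') ?_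
    rw [card_Ix, b2]; push_cast
    have a1' : (T1.card : ℤ) ≤ r1 k D p := by exact_mod_cast a1
    have b1'' : (T2.card : ℤ) ≤ rho k D (k * p) := by exact_mod_cast b1'
    linarith
  · refine fin (core hG2 p (BB k D p c) (fun s => c s < p) T1 T3 hB a2 fun r => c2 _ ?_) ?_
    · intro s hs
      have : c s < p := by simpa using hs
      simp [this]
    · rw [card_Ix, b3]; push_cast
      have a1' : (T1.card : ℤ) ≤ r1 k D p := by exact_mod_cast a1
      have c1' : (T3.card : ℤ) ≤ (NN k D - p : ℕ) := by exact_mod_cast c1.trans hn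
      linarith

end Pool.Agent.MP_3924c3_nt.BK

end
end

section

open Finset Filter Topology PowerSeries

noncomputable section

namespace Pool.Agent.MP_3924c3_nt.BK

namespace Sm

theorem log_le {x y : ℝ} (hx : 0 < x) (hy : 0 < y) (h : x ≤ y ^ 4) : Real.log x ≤ 4 * y := by
  have h1 := Real.log_le_log hx h
  rw [Real.log_pow] at h1
  have h2 := Real.log_le_sub_one_of_pos hy
  push_cast at h1
  linarith

theorem core (k D : ℕ) (t : ℝ) (ht : 1 ≤ t) (hD : t ^ 4 = D) :
    -(48 * k * ((k : ℝ) + 3) ^ 3 * t ^ 3 * D) ≤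
      ∑ p ∈ (PP k D).filter (fun p => p ^ 2 < NN k D ∨ p < k + 4),
        (b0 k D p : ℝ) * Real.log p := by
  obtain ⟨a, ha⟩ : ∃ a : ℝ, a = (k : ℝ) + 3 := ⟨_, rfl⟩
  have hk : (0 : ℝ) ≤ k := Nat.cast_nonneg k
  have ha3 : 3 ≤ a := by linarith
  have ht2 : 1 ≤ t ^ 2 := one_le_pow₀ ht
  have ht4 : 1 ≤ t ^ 4 := one_le_pow₀ ht
  have hN : (NN k D : ℝ) = a * t ^ 4 + a ^ 2 := by
    rw [NN, hD, ha]; push_cast; ring
  have hN2 : (NN k D : ℝ) ≤ (2 * a * t ^ 2) ^ 2 := by
    rw [hN]
    have h1 : a * t ^ 4 ≤ a ^ 2 * t ^ 4 := by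
      refine mul_le_mul_of_nonneg_right ?_ (by positivity)
      nlinarith
    have h2 : a ^ 2 ≤ a ^ 2 * t ^ 4 := le_mul_of_one_le_right (by positivity) ht4
    have h3 : 0 ≤ a ^ 2 * t ^ 4 := by positivity
    nlinarith
  have h1a : 1 ≤ 2 * a * t ^ 2 := by nlinarith
  have hbig : (2 * a * t ^ 2) ^ 2 ≤ (2 * a * t) ^ 4 := by
    have h1 : (2 * a * t) ^ 4 = (2 * a * t ^ 2) ^ 2 * (2 * a) ^ 2 := by ring
    rw [h1]
    exact le_mul_of_one_le_right (by positivity) (by nlinarith)
  have hNpos : 0 < NN k D := by unfold NN; positivity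
  have hlN : Real.log (NN k D) ≤ 4 * (2 * a * t) :=
    log_le (by exact_mod_cast hNpos) (by positivity) (hN2.trans hbig)
  set S := (PP k D).filter (fun p => p ^ 2 < NN k D ∨ p < k + 4) with hS
  have hp : ∀ p ∈ S, p.Prime ∧ (p : ℝ) ≤ 2 * a * t ^ 2 := by
    intro p hp
    rw [hS, mem_filter, PP, mem_filter] at hp
    refine ⟨hp.1.2, ?_⟩
    rcases hp.2 with h | h
    · have h1 : (p : ℝ) ^ 2 ≤ NN k D := by exact_mod_cast h.le
      exact (pow_le_pow_iff_left₀ (by positivity) (by positivity) two_ne_zero).1 (h1.trans hN2)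
    · have h1 : (p : ℝ) ≤ k + 3 := by exact_mod_cast Nat.lt_succ_iff.1 h
      nlinarith
  have hcard : (S.card : ℝ) ≤ 2 * a * t ^ 2 := by
    have h1 : S ⊆ Ioc 0 ⌊2 * a * t ^ 2⌋₊ := fun p h =>
      mem_Ioc.2 ⟨(hp p h).1.pos, Nat.le_floor (hp p h).2⟩
    have h2 := card_le_card h1
    rw [Nat.card_Ioc, Nat.sub_zero] at h2
    exact (Nat.cast_le.2 h2).trans (Nat.floor_le (by positivity))
  have hterm : ∀ p ∈ S, -(24 * k * a ^ 2 * t * D) ≤ (b0 k D p : ℝ) * Real.log p := by
    intro p h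
    obtain ⟨h1, h2⟩ := hp p h
    have hp0 : (0 : ℝ) < p := by exact_mod_cast h1.pos
    have h3 : Real.log p ≤ 4 * (2 * a * t) :=
      log_le hp0 (by positivity) (h2.trans ((le_self_pow₀ h1a two_ne_zero).trans hbig))
    have h4 : (Nat.log p (NN k D) : ℝ) * Real.log p ≤ 4 * (2 * a * t) := by
      rw [← Real.log_pow]
      refine (Real.log_le_log (by positivity) ?_).trans hlN
      exact_mod_cast Nat.pow_log_le_self p hNpos.ne'
    have h5 : (b0 k D p : ℝ) * Real.log p = -(a * D * k *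
        (2 * Real.log p + (Nat.log p (NN k D) : ℝ) * Real.log p)) := by
      rw [b0, ha]; push_cast; ring
    rw [h5, neg_le_neg_iff]
    have h6 : 0 ≤ a * D * k := by positivity
    calc a * D * k * (2 * Real.log p + (Nat.log p (NN k D) : ℝ) * Real.log p)
        ≤ a * D * k * (24 * a * t) := mul_le_mul_of_nonneg_left (by linarith) h6
      _ = _ := by ring
  have h7 := card_nsmul_le_sum S _ _ hterm
  rw [nsmul_eq_mul] at h7
  refine le_trans ?_ h7
  rw [← ha, mul_neg, neg_le_neg_iff]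
  calc (S.card : ℝ) * (24 * k * a ^ 2 * t * D)
      ≤ 2 * a * t ^ 2 * (24 * k * a ^ 2 * t * D) :=
        mul_le_mul_of_nonneg_right hcard (by positivity)
    _ = _ := by ring

end Sm

theorem s_Sm : StSm := by
  intro k ε hε
  obtain ⟨c, hc⟩ : ∃ c : ℝ, c = 48 * k * ((k : ℝ) + 3) ^ 3 := ⟨_, rfl⟩
  have hc0 : 0 ≤ c := by rw [hc]; positivity
  filter_upwards [eventually_ge_atTop 1, eventually_ge_atTop ⌈(c / ε) ^ 4⌉₊] with D h1 h2
  have hD0 : (0 : ℝ) ≤ D := Nat.cast_nonneg D
  have hD1 : (1 : ℝ) ≤ D := by exact_mod_cast h1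
  obtain ⟨t, ht0, ht⟩ : ∃ t : ℝ, 0 ≤ t ∧ t ^ 4 = D := by
    refine ⟨√(√D), Real.sqrt_nonneg _, ?_⟩
    rw [show (4 : ℕ) = 2 * 2 from rfl, pow_mul, Real.sq_sqrt (Real.sqrt_nonneg _),
      Real.sq_sqrt hD0]
  have ht1 : 1 ≤ t := by
    refine (pow_le_pow_iff_left₀ zero_le_one ht0 four_ne_zero).1 ?_
    rw [ht, one_pow]; exact hD1
  have ht2 : c / ε ≤ t := by
    refine (pow_le_pow_iff_left₀ (by positivity) ht0 four_ne_zero).1 ?_
    rw [ht]; exact Nat.ceil_le.1 h2
  refine le_trans ?_ (Sm.core k D t ht1 ht)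
  rw [← hc, neg_mul, neg_le_neg_iff]
  rw [div_le_iff₀ hε] at ht2
  calc c * t ^ 3 * D ≤ t * ε * t ^ 3 * D :=
        mul_le_mul_of_nonneg_right (mul_le_mul_of_nonneg_right ht2 (by positivity)) hD0
    _ = ε * (t ^ 4 * D) := by ring
    _ = _ := by rw [ht, sq]

end Pool.Agent.MP_3924c3_nt.BK

end
end

section

/-! The sum of the exponents over the primes, for general `k` and cut `x`. -/

open Finset Filter Topology PowerSeries

noncomputable section

namespace Pool.Agent.MP_3924c3_nt.BK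

namespace SumG

theorem rho_le (k D y : ℕ) : (rho k D y : ℝ) ≤ D + (y : ℝ) / 12 + k := by
  have h : ((y / 12 : ℕ) : ℝ) ≤ (y : ℝ) / 12 := by
    have := @Nat.cast_div_le ℝ _ _ _ y 12
    simpa using this
  unfold rho
  push_cast
  linarith

/-- the loss at a prime that does not divide the Bernoulli number -/
def ls (k D p : ℕ) : ℝ := if ¬ Hyp k p then (k + 3) * D else 0

theorem ls_nonneg (k D p : ℕ) : 0 ≤ ls k D p := by
  unfold ls
  split_ifs <;> positivity

theorem r1_le (k D p : ℕ) : (r1 k D p : ℝ) ≤ D + (p : ℝ) / 12 + k + ls k D p := by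
  unfold r1 ls
  by_cases h : Hyp k p
  · simp only [h, if_true, not_true, if_false, add_zero]
    exact rho_le k D p
  · simp only [h, if_false, not_false_iff, if_true]
    push_cast
    have : (0 : ℝ) ≤ D + (p : ℝ) / 12 + k := by positivity
    linarith

theorem sub_eq (k D p : ℕ) (h : p ≤ (k + 3) * D) :
    ((NN k D - p : ℕ) : ℝ) = (k + 3) * D + (k + 3) ^ 2 - p := by
  unfold NN
  rw [Nat.cast_sub (h.trans (Nat.le_add_right _ _))]
  push_cast
  rfl

theorem sub_le (k D p : ℕ) (h : (k + 3) * D ≤ p) : ((NN k D - p : ℕ) : ℝ) ≤ (k + 3) ^ 2 := by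
  have : NN k D - p ≤ (k + 3) ^ 2 := by
    unfold NN
    omega
  exact_mod_cast this

/-- piecewise linear lower bound -/
def LL (k x : ℕ) (e : ℝ) (D p : ℕ) : ℝ :=
  if p ≤ 2 * D then (-(k : ℝ) ^ 2 - e) * D + (-(k : ℝ) / 12) * p
  else if p ≤ x * D then (k + 1 - k * (k + 3) - e) * D + (k - ((k : ℝ) + 1) / 12) * p
  else if p ≤ (k + 3) * D then (k + 2 - (k + 1) * (k + 3) - e) * D + (k + 1 - (1 : ℝ) / 12) * p
  else (k + 2 - e) * D + (-(1 : ℝ) / 12) * p

theorem pt (k x : ℕ) (hx : x ≤ k + 3) (e : ℝ) (he : 0 < e) (D p : ℕ)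
    (hK : 2 * (k : ℝ) + (k + 1) * (k + 3) ^ 2 ≤ e * D) (hD : (k + 3) ^ 2 + k + 4 ≤ D) :
    (if p ^ 2 < NN k D ∨ p < k + 4 then (b0 k D p : ℝ) else 0) + LL k x e D p - ls k D p
      ≤ (bet k x D p : ℝ) := by
  have h0 := ls_nonneg k D p
  have hk : (0 : ℝ) ≤ k := Nat.cast_nonneg _
  have hp : (0 : ℝ) ≤ p := Nat.cast_nonneg _
  have hD0 : (0 : ℝ) ≤ D := Nat.cast_nonneg _
  have hs : (0 : ℝ) ≤ (k + 3) ^ 2 := by positivity
  have hks : (0 : ℝ) ≤ k * (k + 3) ^ 2 := by positivity
  unfold bet LL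
  by_cases h1 : p ^ 2 < NN k D ∨ p < k + 4
  · have h2 : p ≤ 2 * D := by
      rcases h1 with h1 | h1
      · by_contra h3
        have h4 : 2 * D ≤ p := by omega
        have h5 : (2 * D) ^ 2 ≤ p ^ 2 := Nat.pow_le_pow_left h4 2
        have h6 : (k + 3) * D ≤ D * D := Nat.mul_le_mul_right _ (by omega)
        have h7 : D ≤ D * D := Nat.le_mul_self D
        unfold NN at h1
        nlinarith
      · omega
    simp only [h1, h2, if_true]
    have h3 : 0 ≤ ((k : ℝ) ^ 2 + e) * D := by positivity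
    have h4 : 0 ≤ (k : ℝ) / 12 * p := by positivity
    linarith
  simp only [h1, if_false, zero_add]
  have e1 := rho_le k D (k * p)
  have e2 := r1_le k D p
  push_cast at e1
  by_cases h2 : p ≤ 2 * D
  · simp only [h2, if_true]
    unfold b1
    push_cast
    nlinarith
  simp only [h2, if_false]
  by_cases h3 : p ≤ x * D
  · simp only [h3, if_true]
    have e3 := sub_eq k D p (h3.trans (Nat.mul_le_mul_right _ hx))
    unfold b2
    rw [Int.cast_sub, Int.cast_mul, Int.cast_natCast, Int.cast_natCast, e3]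
    push_cast
    nlinarith
  simp only [h3, if_false]
  by_cases h4 : p ≤ (k + 3) * D
  · simp only [h4, if_true]
    have e3 := sub_eq k D p h4
    unfold b3
    rw [Int.cast_sub, Int.cast_mul, Int.cast_natCast, e3]
    push_cast
    nlinarith
  · simp only [h4, if_false]
    have e3 := sub_le k D p (by omega)
    have e4 := mul_le_mul_of_nonneg_left e3 (show (0 : ℝ) ≤ k + 1 by positivity)
    unfold b3
    rw [Int.cast_sub, Int.cast_mul, Int.cast_natCast]
    push_cast
    nlinarith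

theorem split (f : ℕ → ℝ) {a b c : ℕ} (h1 : a ≤ b) (h2 : b ≤ c) :
    ∑ p ∈ (Ioc a c).filter Nat.Prime, f p =
      ∑ p ∈ (Ioc a b).filter Nat.Prime, f p + ∑ p ∈ (Ioc b c).filter Nat.Prime, f p := by
  simp only [sum_filter]
  rw [sum_Ioc_consecutive _ h1 h2]

theorem sumLL (k x : ℕ) (hx2 : 2 ≤ x) (hx : x ≤ k + 3) (e : ℝ) (D : ℕ) :
    ∑ p ∈ PP k D, LL k x e D p * Real.log p =
      ∑ p ∈ (Ioc (0 * D) (2 * D)).filter Nat.Prime,
          ((-(k : ℝ) ^ 2 - e) * D + (-(k : ℝ) / 12) * p) * Real.log p +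
        ∑ p ∈ (Ioc (2 * D) (x * D)).filter Nat.Prime,
          ((k + 1 - k * (k + 3) - e) * D + (k - ((k : ℝ) + 1) / 12) * p) * Real.log p +
        ∑ p ∈ (Ioc (x * D) ((k + 3) * D)).filter Nat.Prime,
          ((k + 2 - (k + 1) * (k + 3) - e) * D + (k + 1 - (1 : ℝ) / 12) * p) * Real.log p +
        ∑ p ∈ (Ioc ((k + 3) * D) (12 * (k + 2) * D)).filter Nat.Prime,
          ((k + 2 - e) * D + (-(1 : ℝ) / 12) * p) * Real.log p := by
  have a1 : 2 * D ≤ x * D := Nat.mul_le_mul_right _ hx2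
  have a2 : x * D ≤ (k + 3) * D := Nat.mul_le_mul_right _ hx
  have a3 : (k + 3) * D ≤ 12 * (k + 2) * D := Nat.mul_le_mul_right _ (by omega)
  unfold PP
  rw [split _ (Nat.zero_le _) a3, split _ (Nat.zero_le _) a2, split _ (Nat.zero_le _) a1,
    zero_mul]
  congr 1
  congr 1
  congr 1
  · refine sum_congr rfl fun p hp => ?_
    have := mem_Ioc.1 (mem_filter.1 hp).1
    rw [LL, if_pos this.2]
  · refine sum_congr rfl fun p hp => ?_
    have := mem_Ioc.1 (mem_filter.1 hp).1
    rw [LL, if_neg (by omega), if_pos this.2]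
  · refine sum_congr rfl fun p hp => ?_
    have := mem_Ioc.1 (mem_filter.1 hp).1
    rw [LL, if_neg (by omega), if_neg (by omega), if_pos this.2]
  · refine sum_congr rfl fun p hp => ?_
    have := mem_Ioc.1 (mem_filter.1 hp).1
    rw [LL, if_neg (by omega), if_neg (by omega), if_neg (by omega)]

theorem gen (hPN : StPN) (hSm : StSm) (k x : ℕ) (hx2 : 2 ≤ x) (hx : x ≤ k + 3) (I e : ℝ)
    (he : 0 < e)
    (hI : I + e < ((-(k : ℝ) ^ 2 - e) * ((2 : ℕ) - (0 : ℕ)) +
          (-(k : ℝ) / 12) * ((2 : ℕ) ^ 2 - (0 : ℕ) ^ 2) / 2) +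
        ((k + 1 - k * (k + 3) - e) * (x - (2 : ℕ)) +
          (k - ((k : ℝ) + 1) / 12) * (x ^ 2 - (2 : ℕ) ^ 2) / 2) +
        ((k + 2 - (k + 1) * (k + 3) - e) * ((k + 3 : ℕ) - x) +
          (k + 1 - (1 : ℝ) / 12) * ((k + 3 : ℕ) ^ 2 - x ^ 2) / 2) +
        ((k + 2 - e) * ((12 * (k + 2) : ℕ) - (k + 3 : ℕ)) +
          (-(1 : ℝ) / 12) * ((12 * (k + 2) : ℕ) ^ 2 - (k + 3 : ℕ) ^ 2) / 2)) :
    StSum k x I := by
  have t := (((hPN 0 2 (-(k : ℝ) ^ 2 - e) (-(k : ℝ) / 12) (by omega)).add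
    (hPN 2 x (k + 1 - k * (k + 3) - e) (k - ((k : ℝ) + 1) / 12) hx2)).add
    (hPN x (k + 3) (k + 2 - (k + 1) * (k + 3) - e) (k + 1 - (1 : ℝ) / 12) hx)).add
    (hPN (k + 3) (12 * (k + 2)) (k + 2 - e) (-(1 : ℝ) / 12) (by omega))
  have t2 : Tendsto (fun D : ℕ => e * (D : ℝ)) atTop atTop :=
    tendsto_natCast_atTop_atTop.const_mul_atTop he
  filter_upwards [t.eventually (lt_mem_nhds hI), hSm k e he,
    t2.eventually_ge_atTop (2 * (k : ℝ) + (k + 1) * (k + 3) ^ 2),
    eventually_ge_atTop ((k + 3) ^ 2 + k + 4)] with D h1 h2 h3 h4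
  have hD : (0 : ℝ) < (D : ℝ) ^ 2 := by
    have : (0 : ℝ) < D := by exact_mod_cast (show 0 < D by omega)
    positivity
  rw [← add_div, ← add_div, ← add_div, ← sumLL k x hx2 hx e D, lt_div_iff₀ hD] at h1
  have h5 : ∑ p ∈ PP k D, ((if p ^ 2 < NN k D ∨ p < k + 4 then (b0 k D p : ℝ) else 0) +
      LL k x e D p - ls k D p) * Real.log p ≤ ∑ p ∈ PP k D, (bet k x D p : ℝ) * Real.log p :=
    sum_le_sum fun p _ => mul_le_mul_of_nonneg_right (pt k x hx e he D p h3 h4)
      (Real.log_natCast_nonneg p)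
  have h6 : ∑ p ∈ PP k D, ls k D p * Real.log p = (k + 3) * D * Ex k D := by
    unfold Ex
    rw [sum_filter, mul_sum]
    refine sum_congr rfl fun p _ => ?_
    unfold ls
    split_ifs <;> simp
  simp only [sub_mul, add_mul, sum_sub_distrib, sum_add_distrib, ite_mul, zero_mul] at h5
  rw [← sum_filter, h6] at h5
  linarith

end SumG

end Pool.Agent.MP_3924c3_nt.BK

end
end

section

open Finset Filter Topology PowerSeries

noncomputable section

namespace Pool.Agent.MP_3924c3_nt.BK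

theorem s_Sum3 (hPN : StPN) (hSm : StSm) : StSum 3 4 91 :=
  SumG.gen hPN hSm 3 4 (by norm_num) (by norm_num) 91 (1 / 1000) (by norm_num) (by norm_num)

end Pool.Agent.MP_3924c3_nt.BK

end
end

section

open Finset Filter Topology PowerSeries

noncomputable section

namespace Pool.Agent.MP_3924c3_nt.BK

theorem s_Sum5 (hPN : StPN) (hSm : StSm) : StSum 5 5 127 :=
  SumG.gen hPN hSm 5 5 (by norm_num) (by norm_num) 127 (1 / 1000) (by norm_num) (by norm_num)

end Pool.Agent.MP_3924c3_nt.BK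

end
end

section

/-! A majorant for the discriminant series at `q = 1/10`. -/

open Finset Filter Topology PowerSeries

noncomputable section

namespace Pool.Agent.MP_3924c3_nt.BK

namespace MD

def sg (m : ℕ) : ℚ := ∑ d ∈ m.divisors, (d : ℚ)

theorem sg_nonneg (m : ℕ) : 0 ≤ sg m := sum_nonneg fun _ _ => Nat.cast_nonneg _

theorem UU_eq (hI : StInt) : UU = (1 / 12 : ℚ) • (1 : PS) - (2 : ℚ) • PowerSeries.mk sg := by
  ext n
  rcases Nat.eq_zero_or_pos n with rfl | hn
  · rw [hI.2.2.2.2.2.2.2.2]; simp [sg]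
  · simp [UU, Gs, sg, coeff_one, hn.ne']

theorem recu (hI : StInt) (h : th Dl = (12 : ℚ) • (UU * Dl)) (n : ℕ) :
    ((n : ℚ) - 1) * coeff n Dl = -24 * ∑ x ∈ antidiagonal n, sg x.1 * coeff x.2 Dl := by
  have e := congrArg (coeff n) h
  rw [coeff_th, UU_eq hI, sub_mul, smul_mul_assoc, smul_mul_assoc, one_mul] at e
  simp only [coeff_smul, map_sub, smul_eq_mul, coeff_mul, coeff_mk] at e
  linarith

theorem sg0 : sg 0 = 0 := by simp [sg]
theorem sg1 : sg 1 = 1 := by simp [sg]
theorem sg2 : sg 2 = 3 := by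
  rw [sg, show Nat.divisors 2 = {1, 2} by decide]; norm_num
theorem sg3 : sg 3 = 4 := by
  rw [sg, show Nat.divisors 3 = {1, 3} by decide]; norm_num
theorem sg4 : sg 4 = 7 := by
  rw [sg, show Nat.divisors 4 = {1, 2, 4} by decide]; norm_num

theorem vals (hI : StInt) (h : th Dl = (12 : ℚ) • (UU * Dl)) :
    coeff 2 Dl = -24 ∧ coeff 3 Dl = 252 ∧ coeff 4 Dl = -1472 ∧ coeff 5 Dl = 4830 := by
  have h0 : coeff 0 Dl = 0 := hI.2.2.2.2.2.2.1
  have h1 : coeff 1 Dl = 1 := hI.2.2.2.2.2.2.2.1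
  have r2 := recu hI h 2
  have r3 := recu hI h 3
  have r4 := recu hI h 4
  have r5 := recu hI h 5
  simp only [Nat.antidiagonal_succ, Nat.antidiagonal_zero, sum_cons, sum_map, sum_singleton,
    Function.Embedding.coe_prodMap, Function.Embedding.coeFn_mk, Prod.map_fst, Prod.map_snd,
    Function.Embedding.refl_apply, Nat.succ_eq_add_one, Nat.reduceAdd, zero_add,
    sg0, sg1, sg2, sg3, sg4, h0, h1] at r2 r3 r4 r5
  push_cast at r2 r3 r4 r5
  refine ⟨by linarith, by linarith, by linarith, by linarith⟩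

theorem conv (u v : ℕ → ℝ) (hu : ∀ n, 0 ≤ u n) (hv : ∀ n, 0 ≤ v n) (N : ℕ) :
    ∑ n ∈ range N, ∑ x ∈ antidiagonal n, u x.1 * v x.2 ≤
      (∑ n ∈ range N, u n) * ∑ n ∈ range N, v n := by
  rw [sum_mul_sum, ← sum_product', ← sum_biUnion]
  · refine sum_le_sum_of_subset_of_nonneg (fun x hx => ?_) fun x _ _ => mul_nonneg (hu _) (hv _)
    simp only [mem_biUnion, mem_range, HasAntidiagonal.mem_antidiagonal, mem_product] at hx ⊢
    obtain ⟨a, ha, hb⟩ := hx
    omega
  · intro a _ b _ hab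
    rw [Function.onFun, disjoint_left]
    intro x hx hy
    exact hab ((mem_antidiagonal.1 hx).symm.trans (mem_antidiagonal.1 hy))

def aa (n : ℕ) : ℝ := |((coeff n Dl : ℚ) : ℝ)| / 10 ^ n

theorem aa_nonneg (n : ℕ) : 0 ≤ aa n := by unfold aa; positivity

theorem step (hI : StInt) (h : th Dl = (12 : ℚ) • (UU * Dl)) (n : ℕ) :
    ((n : ℝ) - 1) * aa n ≤
      24 * ∑ x ∈ antidiagonal n, ((sg x.1 : ℝ) / 10 ^ x.1) * aa x.2 := by
  have e : ((n : ℝ) - 1) * ((coeff n Dl : ℚ) : ℝ) =
      -24 * ∑ x ∈ antidiagonal n, (sg x.1 : ℝ) * ((coeff x.2 Dl : ℚ) : ℝ) := by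
    exact_mod_cast recu hI h n
  have e2 : ∑ x ∈ antidiagonal n, ((sg x.1 : ℝ) / 10 ^ x.1) * aa x.2 =
      (∑ x ∈ antidiagonal n, (sg x.1 : ℝ) * |((coeff x.2 Dl : ℚ) : ℝ)|) / 10 ^ n := by
    rw [sum_div]
    refine sum_congr rfl fun x hx => ?_
    rw [← mem_antidiagonal.1 hx, aa, pow_add]
    field_simp
  rw [e2, aa, ← mul_div_assoc, ← mul_div_assoc]
  refine div_le_div_of_nonneg_right ?_ (by positivity)
  calc ((n : ℝ) - 1) * |((coeff n Dl : ℚ) : ℝ)|
      ≤ |(n : ℝ) - 1| * |((coeff n Dl : ℚ) : ℝ)| :=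
        mul_le_mul_of_nonneg_right (le_abs_self _) (abs_nonneg _)
    _ = 24 * |∑ x ∈ antidiagonal n, (sg x.1 : ℝ) * ((coeff x.2 Dl : ℚ) : ℝ)| := by
        rw [← abs_mul, e, abs_mul]; norm_num
    _ ≤ _ := by
        refine mul_le_mul_of_nonneg_left ((abs_sum_le_sum_abs _ _).trans (le_of_eq ?_))
          (by norm_num)
        refine sum_congr rfl fun x _ => ?_
        rw [abs_mul, abs_of_nonneg (by exact_mod_cast sg_nonneg x.1)]

theorem tot (hI : StInt) (hME : StME) (h : th Dl = (12 : ℚ) • (UU * Dl)) (N : ℕ) :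
    ∑ n ∈ range N, ((n : ℝ) - 1) * aa n ≤ 24 * (13478 / 100000) * ∑ n ∈ range N, aa n := by
  refine (sum_le_sum fun n _ => step hI h n).trans ?_
  rw [← mul_sum, mul_assoc]
  refine mul_le_mul_of_nonneg_left ?_ (by norm_num)
  refine (conv (fun m => (sg m : ℝ) / 10 ^ m) aa (fun m => ?_) aa_nonneg N).trans ?_
  · have : (0 : ℝ) ≤ sg m := by exact_mod_cast sg_nonneg m
    positivity
  · refine mul_le_mul_of_nonneg_right ?_ (sum_nonneg fun n _ => aa_nonneg n)
    have := hME.2 N
    simpa [sg] using this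

end MD

open MD in
theorem s_MD (hI : StInt) (hME : StME) : StMD := by
  intro h
  have h0 : coeff 0 Dl = 0 := hI.2.2.2.2.2.2.1
  have h1 : coeff 1 Dl = 1 := hI.2.2.2.2.2.2.2.1
  obtain ⟨h2, h3, h4, h5⟩ := vals hI h
  have a0 : aa 0 = 0 := by rw [aa, h0]; norm_num
  have a1 : aa 1 = 1 / 10 := by rw [aa, h1]; norm_num
  have a2 : aa 2 = 24 / 100 := by rw [aa, h2]; norm_num
  have a3 : aa 3 = 252 / 1000 := by rw [aa, h3]; norm_num
  have a4 : aa 4 = 1472 / 10000 := by rw [aa, h4]; norm_num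
  have a5 : aa 5 = 4830 / 100000 := by rw [aa, h5]; norm_num
  have main : ∀ N, ∑ n ∈ range (6 + N), aa n ≤ 146 / 100 := by
    intro N
    have t := tot hI hME h (6 + N)
    rw [sum_range_add] at t
    have e : ∑ n ∈ range (6 + N), aa n = 7875 / 10000 + ∑ n ∈ range N, aa (6 + n) := by
      rw [sum_range_add]
      simp only [sum_range_succ, sum_range_zero, a0, a1, a2, a3, a4, a5]
      norm_num
    have l : 5 * ∑ n ∈ range N, aa (6 + n) ≤
        ∑ n ∈ range N, (((6 + n : ℕ) : ℝ) - 1) * aa (6 + n) := by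
      rw [mul_sum]
      refine sum_le_sum fun n _ => mul_le_mul_of_nonneg_right ?_ (aa_nonneg _)
      have : (0 : ℝ) ≤ n := Nat.cast_nonneg n
      push_cast; linarith
    rw [e] at t ⊢
    simp only [sum_range_succ, sum_range_zero, a0, a1, a2, a3, a4, a5] at t
    norm_num at t
    push_cast at l
    linarith
  intro N
  refine le_trans ?_ (main N)
  exact sum_le_sum_of_subset_of_nonneg (range_subset_range.2 (by omega))
    fun n _ _ => aa_nonneg n

end Pool.Agent.MP_3924c3_nt.BK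

end
end

section

/-! The archimedean bound for the determinant. -/

open Finset Filter Topology PowerSeries

noncomputable section

namespace Pool.Agent.MP_3924c3_nt.BK

namespace A1

theorem sum_le (S : Finset ℕ) : ∀ N : ℕ, (∀ x ∈ S, x < N) →
    2 * ∑ x ∈ S, x + S.card ^ 2 + S.card ≤ 2 * S.card * N := by
  induction S using Finset.induction_on_max with
  | empty => simp
  | insert a s ha ih =>
    intro N hN
    have h1 : a ∉ s := fun h => lt_irrefl _ (ha a h)
    have h2 := ih a ha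
    have h3 : a + 1 ≤ N := hN a (mem_insert_self _ _)
    have h4 := Nat.mul_le_mul_left (2 * (s.card + 1)) h3
    rw [sum_insert h1, card_insert_of_notMem h1]
    nlinarith

theorem adm_sum {k D : ℕ} {c : Ix k D → ℕ} (h : Adm k D c) :
    2 * ∑ s, c s ≤ ((k + 3) * D) ^ 2 + 2 * ((k + 3) * D) * (k + 3) ^ 2 := by
  have h1 := sum_le (univ.image c) (NN k D) fun x hx => by
    obtain ⟨s, -, rfl⟩ := mem_image.1 hx
    exact h.2 s
  rw [sum_image fun _ _ _ _ e => h.1 e, card_image_of_injective _ h.1, card_univ, card_Ix,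
    NN] at h1
  nlinarith

theorem small (m c ε : ℝ) (hm : 0 < m) (hε : 0 < ε) :
    ∀ᶠ D : ℕ in atTop, m * (Real.log D + c) ≤ ε * D := by
  have h1 := (Real.isLittleO_log_id_atTop.comp_tendsto tendsto_natCast_atTop_atTop).bound
    (show 0 < ε / (2 * m) by positivity)
  filter_upwards [h1, tendsto_natCast_atTop_atTop.eventually_ge_atTop (2 * (m * c) / ε)]
    with D h2 h3
  simp only [Function.comp_apply, id_eq, Real.norm_eq_abs, Nat.abs_cast] at h2
  have h4 : Real.log D ≤ ε / (2 * m) * D := (le_abs_self _).trans h2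
  have h5 : m * (ε / (2 * m) * D) = ε * D / 2 := by field_simp
  have h6 := mul_le_mul_of_nonneg_left h4 hm.le
  rw [div_le_iff₀ hε] at h3
  nlinarith

end A1

theorem s_A (hA0 : StA0) : StA := by
  intro M hM k ε hε
  obtain ⟨K, hK, h⟩ := hA0 M hM k
  have hm : (0 : ℝ) < k + 3 := by positivity
  filter_upwards [A1.small (k + 3) (Real.log (k + 3) + Real.log K + (k + 3) ^ 2 * Real.log 10) ε
    hm hε, eventually_ge_atTop 1] with D hD hD1 c hc h0
  have hD0 : (0 : ℝ) < D := by exact_mod_cast hD1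
  have hK0 : 0 < K := by linarith
  have l1 : 0 ≤ Real.log 10 := Real.log_nonneg (by norm_num)
  have l2 : 0 ≤ Real.log 250000 := Real.log_nonneg (by norm_num)
  have h1 := Real.log_le_log (abs_pos.2 (by exact_mod_cast h0)) (h D c)
  rw [Real.log_mul (by positivity) (by positivity), Real.log_mul (by positivity) (by positivity),
    Real.log_mul (by positivity) (by positivity), Real.log_pow, Real.log_pow, Real.log_pow] at h1
  have h2 : Real.log (((k + 3) * D).factorial : ℝ) ≤
      (k + 3) * D * (Real.log (k + 3) + Real.log D) := by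
    have e : (((k + 3) * D).factorial : ℝ) ≤ ((k + 3) * D : ℝ) ^ ((k + 3) * D) := by
      exact_mod_cast Nat.factorial_le_pow _
    refine (Real.log_le_log (by positivity) e).trans_eq ?_
    rw [Real.log_pow, Real.log_mul hm.ne' hD0.ne']
    push_cast
    rfl
  have h3 : (((k + 3) * (D * (D - 1) / 2) : ℕ) : ℝ) ≤ (k + 3) * (D : ℝ) ^ 2 / 2 := by
    have e : 2 * ((k + 3) * (D * (D - 1) / 2)) ≤ (k + 3) * D ^ 2 := by
      have e1 : 2 * (D * (D - 1) / 2) ≤ D ^ 2 :=
        (Nat.mul_div_le _ _).trans (by rw [sq]; exact Nat.mul_le_mul_left _ (Nat.sub_le _ _))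
      rw [mul_left_comm]
      exact Nat.mul_le_mul_left _ e1
    have e2 : 2 * (((k + 3) * (D * (D - 1) / 2) : ℕ) : ℝ) ≤ (k + 3) * (D : ℝ) ^ 2 := by
      exact_mod_cast e
    linarith
  have h4 : ((∑ s, c s : ℕ) : ℝ) ≤ ((k + 3) * D) ^ 2 / 2 + (k + 3) * D * (k + 3) ^ 2 := by
    have e : 2 * ((∑ s, c s : ℕ) : ℝ) ≤ ((k + 3) * D) ^ 2 + 2 * ((k + 3) * D) * (k + 3) ^ 2 := by
      exact_mod_cast A1.adm_sum hc
    linarith
  have h5 := mul_le_mul_of_nonneg_right h3 l2
  have h6 := mul_le_mul_of_nonneg_right h4 l1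
  have h7 := mul_le_mul_of_nonneg_right hD hD0.le
  rw [Real.log_mul (by positivity) (by norm_num), Real.log_pow]
  generalize (((k + 3) * (D * (D - 1) / 2) : ℕ) : ℝ) = u at h1 h5
  generalize ((∑ s, c s : ℕ) : ℝ) = v at h1 h6
  push_cast at h1 ⊢
  nlinarith

end Pool.Agent.MP_3924c3_nt.BK

end
end
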