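import Pool.Agent.Mg.F3792c7p.G947474
import Pool.Agent.MP_384f6f_nt.NW.Red

set_option linter.all false

section

/-! The recursion of the canonical higher derivatives. -/

open Finset Filter Topology PowerSeries

noncomputable section

namespace Pool.Agent.MP_3924c3_nt.BK

namespace CC

theorem cf_top (w : ℤ) (j : ℕ) : cf w j (j + 1) = 0 := by simp [cf]

theorem cf_zero (w : ℤ) (j : ℕ) : cf w (j + 1) 0 = (w + j) * cf w j 0 := by
  simp only [cf, Nat.choose_zero_right, prod_Ico_succ_top (Nat.zero_le j)]; ring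

theorem cf_succ (w : ℤ) {j r : ℕ} (h : r ≤ j) :
    cf w (j + 1) (r + 1) = (w + j + (r + 1 : ℕ)) * cf w j (r + 1) + cf w j r := by
  rcases h.eq_or_lt with rfl | h
  · rw [cf_self, cf_top, cf_self]; simp
  · have e : (j.choose (r + 1) : ℤ) * (r + 1) = j.choose r * (j - r) := by
      have := congrArg (Nat.cast : ℕ → ℤ) (Nat.choose_succ_right_eq j r)
      push_cast [h.le] at this
      exact this
    simp only [cf, Nat.choose_succ_succ', prod_Ico_succ_top (show r + 1 ≤ j from h),
      prod_eq_prod_Ico_succ_bot h]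
    push_cast
    linear_combination (-∏ t ∈ Ico (r + 1) j, (w + t)) * e

theorem cf_low (w : ℤ) {j r : ℕ} (h : r ≤ j) :
    ((j + 1 - r : ℕ) : ℤ) * cf w (j + 1) r = (j + 1) * (j + w) * cf w j r := by
  have e := congrArg (Nat.cast : ℕ → ℤ) (Nat.choose_mul_succ_eq j r)
  simp only [Nat.cast_mul, Nat.cast_add, Nat.cast_one] at e
  simp only [cf, prod_Ico_succ_top h]
  linear_combination (-(∏ t ∈ Ico r j, (w + t)) * (w + j)) * e

variable {R : Type} [CommRing R] [Algebra ℚ R] {d : Derivation ℚ R R} {U E : R}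

theorem term (h : d U = U ^ 2 - E) (W : ℤ) (c : ℚ) (m : ℕ) (x : R) :
    Sr d U W (c • ((-U) ^ m * x)) = (((W : ℚ) - m) * c) • ((-U) ^ (m + 1) * x) +
      c • ((-U) ^ m * d x) + ((m : ℚ) * c) • (E * ((-U) ^ (m - 1) * x)) := by
  rw [Sr, Derivation.map_smul]
  simp only [Derivation.leibniz, Derivation.leibniz_pow, map_neg, h,
    Algebra.smul_def, map_mul, map_sub, map_natCast, Algebra.algebraMap_self, RingHom.id_apply,
    eq_natCast]
  rcases m with _ | m
  · simp; ring
  · simp only [Nat.add_sub_cancel]; push_cast; ring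

end CC

open CC in
theorem s_C : StC := by
  intro R _ _ d U E h w j u
  have e1 : ∑ r ∈ range (j + 1), ((((w + 2 * j : ℤ) : ℚ) - (j - r : ℕ)) * cf w j r) •
      ((-U) ^ (j - r + 1) * (d : R → R)^[r] u) = ∑ r ∈ range (j + 1 + 1),
      (((w + j + r) * cf w j r : ℤ) : ℚ) • ((-U) ^ (j + 1 - r) * (d : R → R)^[r] u) := by
    rw [sum_range_succ _ (j + 1), cf_top, mul_zero, Int.cast_zero, zero_smul, add_zero]
    refine sum_congr rfl fun r hr => ?_
    have hr' : r ≤ j := by simpa [Nat.lt_succ_iff] using hr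
    rw [show j - r + 1 = j + 1 - r by omega]
    congr 1
    push_cast [hr']; ring
  have e2 : ∑ r ∈ range (j + 1), (((j - r : ℕ) : ℚ) * cf w j r) •
      (E * ((-U) ^ (j - r - 1) * (d : R → R)^[r] u)) =
      ((j : ℚ) * (j + w - 1)) • (E * can d U w (j - 1) u) := by
    rcases j with _ | j
    · simp
    rw [sum_range_succ, Nat.sub_self, Nat.cast_zero, zero_mul, zero_smul, add_zero,
      Nat.add_sub_cancel, can, mul_sum, smul_sum]
    refine sum_congr rfl fun r hr => ?_
    have hr' : r ≤ j := by simpa [Nat.lt_succ_iff] using hr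
    have := congrArg (Int.cast : ℤ → ℚ) (cf_low w hr')
    rw [Int.cast_mul, Int.cast_natCast] at this
    rw [show j + 1 - r - 1 = j - r by omega, mul_smul_comm, smul_smul, this]
    congr 1
    push_cast; ring
  rw [can, Sr_sum]
  simp only [term h]
  rw [sum_add_distrib, sum_add_distrib, e1, e2, add_left_inj, can, sum_range_succ' _ (j + 1),
    sum_range_succ' _ (j + 1), add_right_comm, ← sum_add_distrib, cf_zero]
  congr 1
  · refine sum_congr rfl fun r hr => ?_
    have hr' : r ≤ j := by simpa [Nat.lt_succ_iff] using hr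
    rw [cf_succ w hr', Int.cast_add, add_smul, Nat.add_sub_add_right,
      Function.iterate_succ_apply']
  · simp

end Pool.Agent.MP_3924c3_nt.BK

end
end

section

/-! Integrality of `E₄`, `E₆`, `Δ`. -/

open Finset Filter Topology PowerSeries

noncomputable section

namespace Pool.Agent.MP_3924c3_nt.BK

namespace IntL

/-- divisor sums -/
def S (a : ℕ) : PS := PowerSeries.mk fun n => ∑ d ∈ n.divisors, (d : ℚ) ^ a

theorem S_int (a : ℕ) : IntS (S a) := fun n =>
  ⟨∑ d ∈ n.divisors, (d : ℤ) ^ a, by simp [S]⟩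

theorem S_zero (a : ℕ) : coeff 0 (S a) = 0 := by simp [S]

theorem S_one (a : ℕ) : coeff 1 (S a) = 1 := by simp [S]

theorem Gs_eq (w : ℕ) : Gs w = (-bernoulli w / (2 * w)) • (1 : PS) + S (w - 1) := by
  ext n
  rcases eq_or_ne n 0 with rfl | h
  · simp [Gs, S]
  · simp [Gs, S, h, coeff_one]

theorem b4 : bernoulli 4 = -1 / 30 := by
  rw [bernoulli_eq_bernoulli'_of_ne_one (by decide), bernoulli'_four]

theorem b6 : bernoulli 6 = 1 / 42 := by
  have h5 : bernoulli' 5 = 0 := bernoulli'_eq_zero_of_odd (by decide) (by decide)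
  rw [bernoulli_eq_bernoulli'_of_ne_one (by decide), bernoulli'_def]
  simp only [sum_range_succ, sum_range_zero, bernoulli'_zero, bernoulli'_one, bernoulli'_two,
    bernoulli'_three, bernoulli'_four, h5]
  norm_num [Nat.choose]

theorem E4_eq : E4 = 1 + (240 : ℚ) • S 3 := by
  rw [E4, Gs_eq, b4, smul_add, smul_smul]
  norm_num

theorem E6_eq : E6 = 1 + (-504 : ℚ) • S 5 := by
  rw [E6, Gs_eq, b6, smul_add, smul_smul]
  norm_num

theorem UU_eq : UU = (1 / 12 : ℚ) • (1 : PS) + (-2 : ℚ) • S 1 := by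
  rw [UU, Gs_eq, bernoulli_two, smul_add, smul_smul]
  norm_num

theorem Dl_eq : Dl = (1 / 12 : ℚ) • ((5 : ℚ) • S 3 + (7 : ℚ) • S 5) +
    ((100 : ℚ) • (S 3 * S 3) + (8000 : ℚ) • (S 3 * S 3 * S 3) + (-147 : ℚ) • (S 5 * S 5)) := by
  have hu : 12 * algebraMap ℚ PS (1 / 12) = 1 := by
    rw [← map_ofNat (algebraMap ℚ PS) 12, ← map_mul]
    norm_num
  have h3 : algebraMap ℚ PS (1 / 1728) = algebraMap ℚ PS (1 / 12) ^ 3 := by
    rw [← map_pow]
    norm_num
  rw [Dl, E4_eq, E6_eq]
  simp only [Algebra.smul_def, h3, map_neg, map_ofNat]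
  generalize algebraMap ℚ PS (1 / 12) = u at hu
  linear_combination (u * (5 * S 3 + 7 * S 5) * (12 * u + 1) +
    (100 * S 3 ^ 2 + 8000 * S 3 ^ 3 - 147 * S 5 ^ 2) * (144 * u ^ 2 + 12 * u + 1)) * hu

theorem dvd12 (d : ℤ) : (12 : ℤ) ∣ 5 * d ^ 3 + 7 * d ^ 5 := by
  have h : ∀ x : ZMod 12, 5 * x ^ 3 + 7 * x ^ 5 = 0 := by decide
  have := (ZMod.intCast_zmod_eq_zero_iff_dvd (5 * d ^ 3 + 7 * d ^ 5) 12).1 (by
    push_cast
    exact h _)
  exact_mod_cast this

theorem T_int : IntS ((1 / 12 : ℚ) • ((5 : ℚ) • S 3 + (7 : ℚ) • S 5)) := fun n => by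
  choose z hz using dvd12
  refine ⟨∑ d ∈ n.divisors, z d, ?_⟩
  simp only [S, coeff_smul, map_add, coeff_mk, smul_eq_mul, mul_sum, ← sum_add_distrib,
    Int.cast_sum]
  refine sum_congr rfl fun d _ => ?_
  have h : (5 : ℚ) * (d : ℚ) ^ 3 + 7 * (d : ℚ) ^ 5 = 12 * z d := by exact_mod_cast hz d
  rw [h]
  ring

theorem sm {f : PS} (h : IntS f) (c : ℤ) {q : ℚ} (e : q = c) : IntS (q • f) := e ▸ h.zsmul c

theorem c0 {f : PS} (g : PS) (h : coeff 0 f = 0) : coeff 0 (f * g) = 0 := by
  rw [coeff_mul]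
  simp only [Nat.antidiagonal_zero, sum_singleton, h, zero_mul]

theorem c1 {f g : PS} (h : coeff 0 f = 0) (h' : coeff 0 g = 0) : coeff 1 (f * g) = 0 := by
  rw [coeff_mul, Nat.antidiagonal_succ]
  simp only [Nat.antidiagonal_zero, sum_cons, map_singleton, sum_singleton, h, zero_mul,
    Function.Embedding.prodMap, Function.Embedding.coeFn_mk, Prod.map,
    Function.Embedding.refl_apply, h', mul_zero, add_zero]

end IntL

open IntL in
theorem s_Int : StInt := by
  refine ⟨?_, ?_, ?_, ?_, ?_, ?_, ?_, ?_, ?_⟩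
  · rw [E4_eq]
    exact IntS.one.add (sm (S_int 3) 240 (by norm_num))
  · rw [E6_eq]
    exact IntS.one.add (sm (S_int 5) (-504) (by norm_num))
  · rw [Dl_eq]
    exact T_int.add (((sm ((S_int 3).mul (S_int 3)) 100 (by norm_num)).add
      (sm (((S_int 3).mul (S_int 3)).mul (S_int 3)) 8000 (by norm_num))).add
      (sm ((S_int 5).mul (S_int 5)) (-147) (by norm_num)))
  · rw [UU_eq, smul_add, smul_smul, smul_smul]
    exact (sm IntS.one 1 (by norm_num)).add (sm (S_int 1) (-24) (by norm_num))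
  · rw [E4_eq, map_add, coeff_smul, S_zero, smul_zero, add_zero, coeff_zero_one]
  · rw [E6_eq, map_add, coeff_smul, S_zero, smul_zero, add_zero, coeff_zero_one]
  · rw [Dl_eq]
    simp only [map_add, coeff_smul, S_zero, c0 _ (S_zero _), c0 _ (c0 _ (S_zero _)), smul_zero,
      add_zero]
  · rw [Dl_eq]
    simp only [map_add, coeff_smul, S_one, c1 (S_zero _) (S_zero _),
      c1 (c0 _ (S_zero _)) (S_zero _), smul_zero, add_zero, smul_eq_mul]
    norm_num
  · rw [UU_eq, map_add, coeff_smul, coeff_smul, S_zero, smul_zero, add_zero, coeff_zero_one,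
      smul_eq_mul, mul_one]

end Pool.Agent.MP_3924c3_nt.BK

end
end

section

/-! The multipliers. -/

open Finset Filter Topology PowerSeries

noncomputable section

namespace Pool.Agent.MP_3924c3_nt.BK

namespace Mu

theorem gw_mem {M : ℤ → Submodule ℚ PS} (h : Mod M) {w : ℕ} (h4 : 4 ≤ w) (he : w % 2 = 0) :
    gw w ∈ M w :=
  h.mul' (h.pow h.e4 _) (h.pow h.e6 _) (by omega)

theorem bs_mem {M : ℤ → Submodule ℚ PS} (h : Mod M) {D i : ℕ} (hi : i < D) :
    bs D i ∈ M (12 * ((D : ℤ) - 1)) :=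
  h.mul' (h.pow h.dl _) (h.pow h.e4 _) (by omega)

theorem gw_ne (hI : StInt) (w : ℕ) : gw w ≠ 0 := fun h => by
  have h4 := hI.2.2.2.2.1
  have h6 := hI.2.2.2.2.2.1
  rw [coeff_zero_eq_constantCoeff] at h4 h6
  have := congrArg constantCoeff h
  rw [gw, map_mul, map_pow, map_pow, h4, h6, map_zero] at this
  simp at this

theorem bs_eq (hI : StInt) (D i : ℕ) : ∃ g : PS, coeff 0 g = 1 ∧ bs D i = X ^ i * g := by
  obtain ⟨-, -, -, -, h4, -, h0, h1, -⟩ := hI
  rw [coeff_zero_eq_constantCoeff] at h0 h4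
  obtain ⟨g, hg⟩ := X_dvd_iff.2 h0
  rw [hg, coeff_succ_X_mul, coeff_zero_eq_constantCoeff] at h1
  refine ⟨g ^ i * E4 ^ (3 * (D - 1 - i)), ?_, by rw [bs, hg, mul_pow, mul_assoc]⟩
  rw [coeff_zero_eq_constantCoeff, map_mul, map_pow, map_pow, h1, h4, one_pow, one_pow, one_mul]

theorem bs_self (hI : StInt) (D i : ℕ) : coeff i (bs D i) = 1 := by
  obtain ⟨g, h1, h2⟩ := bs_eq hI D i
  rw [h2, coeff_X_pow_mul', if_pos le_rfl, Nat.sub_self, h1]

theorem bs_lt (hI : StInt) (D : ℕ) {i n : ℕ} (h : n < i) : coeff n (bs D i) = 0 := by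
  obtain ⟨g, -, h2⟩ := bs_eq hI D i
  rw [h2, coeff_X_pow_mul', if_neg (by omega)]

end Mu

theorem s_Mu (hI : StInt) : StMu := by
  intro M h k D hk r
  obtain ⟨i4, i6, iD, -⟩ := hI
  refine ⟨?_, ((iD.pow _).mul (i4.pow _)).mul ((i4.pow _).mul (i6.pow _))⟩
  obtain ⟨j, i⟩ := r
  have hk' := Nat.odd_iff.1 hk
  rcases j with j | j
  · have := j.2
    exact h.mul' (Mu.bs_mem h i.2) (Mu.gw_mem h (w := k + 5 - 2 * j) (by omega) (by omega))
      (by simp only [w0, wt]; omega)
  · have := j.2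
    exact h.mul' (Mu.bs_mem h i.2) (Mu.gw_mem h (w := 2 * k + 4 - 2 * j) (by omega) (by omega))
      (by simp only [w0, wt]; omega)

theorem s_Bs (hI : StInt) : StBs := by
  intro D w c h
  have h1 : ∑ i, c i • bs D i = 0 := by
    refine (mul_eq_zero.1 ?_).resolve_right (Mu.gw_ne hI w)
    rw [← h, sum_mul]
    exact sum_congr rfl fun i _ => smul_mul_assoc _ _ _
  have h2 : ∀ n : ℕ, ∀ i : Fin D, i.1 = n → c i = 0 := by
    intro n
    induction n using Nat.strong_induction_on with
    | _ n ih =>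
      intro i hi
      have h3 := congrArg (coeff i.1) h1
      rw [map_sum, map_zero, sum_eq_single i, coeff_smul, Mu.bs_self hI, smul_eq_mul,
        mul_one] at h3
      · exact h3
      · intro j _ hj
        rcases lt_or_gt_of_ne (Fin.val_ne_of_ne hj) with h4 | h4
        · rw [ih j (hi ▸ h4) j rfl, zero_smul, map_zero]
        · rw [coeff_smul, Mu.bs_lt hI D h4, smul_zero]
      · exact fun h4 => absurd (mem_univ i) h4
  funext i
  exact h2 i i rfl

theorem s_TD (hI : StInt) : StTD := by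
  intro M h
  obtain ⟨-, -, -, -, -, -, h0, h1, hU⟩ := hI
  have h2 := h.sturm _ _ (h.ser 12 Dl h.dl) fun n hn => by
    obtain rfl | rfl : n = 0 ∨ n = 1 := by omega
    · rw [Sr, map_sub, coeff_th, coeff_smul, coeff_mul]
      simp [h0]
    · rw [Sr, map_sub, coeff_th, coeff_smul, coeff_mul, Nat.antidiagonal_succ]
      simp [h0, h1, hU]
  rw [Sr, sub_eq_zero] at h2
  exact_mod_cast h2

end Pool.Agent.MP_3924c3_nt.BK

end
end

section

/-! An operator of order `< m` does not kill `m` independent elements. -/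

open Finset Filter Topology PowerSeries

noncomputable section

namespace Pool.Agent.MP_3924c3_nt.BK

namespace Ind

/-- the operator `ν + d/dτ` -/
def TT (ν : ℚ) : Module.End ℚ (Polynomial ℚ) := ν • 1 + Polynomial.derivative

theorem TT_apply (ν : ℚ) (c : Polynomial ℚ) : TT ν c = ν • c + Polynomial.derivative c := rfl

theorem lead {A : Type} [CommRing A] {f g : A⟦X⟧} {a b : ℕ} (hf : ∀ n < a, coeff n f = 0)
    (hg : ∀ n < b, coeff n g = 0) :
    (∀ n < a + b, coeff n (f * g) = 0) ∧ coeff (a + b) (f * g) = coeff a f * coeff b g := by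
  obtain ⟨f', rfl⟩ := X_pow_dvd_iff.2 hf
  obtain ⟨g', rfl⟩ := X_pow_dvd_iff.2 hg
  have e : X ^ a * f' * (X ^ b * g') = X ^ (a + b) * (f' * g') := by ring
  rw [e]
  refine ⟨X_pow_dvd_iff.1 (dvd_mul_right _ _), ?_⟩
  simp only [coeff_X_pow_mul', le_refl, if_true, Nat.sub_self, coeff_zero_eq_constantCoeff,
    map_mul]

/-- the monic polynomial attached to the `i`-th iterate -/
def pp (U : PS) (w : ℤ) (i : ℕ) : Polynomial ℚ :=
  ∏ l ∈ range i, (Polynomial.X - Polynomial.C (((w + 2 * l : ℤ) : ℚ) * coeff 0 U))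

theorem pp_monic (U : PS) (w : ℤ) (i : ℕ) : (pp U w i).Monic :=
  Polynomial.monic_prod_of_monic _ _ fun _ _ => Polynomial.monic_X_sub_C _

theorem pp_deg (U : PS) (w : ℤ) (i : ℕ) : (pp U w i).natDegree = i := by
  rw [pp, Polynomial.natDegree_prod_of_monic _ _ fun _ _ => Polynomial.monic_X_sub_C _]
  simp only [Polynomial.natDegree_X_sub_C, sum_const, card_range, smul_eq_mul, mul_one]

theorem sit_lead (U : PS) (w : ℤ) {u : LS} {ν : ℕ} (hu : ∀ n < ν, coeff n u = 0) (i : ℕ) :
    (∀ n < ν, coeff n (Sit thL (io U) w u i) = 0) ∧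
      coeff ν (Sit thL (io U) w u i) = Polynomial.aeval (TT ν) (pp U w i) (coeff ν u) := by
  induction i with
  | zero => exact ⟨hu, by simp [Sit, pp]⟩
  | succ i ih =>
    have h := lead (f := io U) (a := 0) (fun n hn => absurd hn (Nat.not_lt_zero n)) ih.1
    rw [zero_add] at h
    refine ⟨fun n hn => ?_, ?_⟩
    · simp only [Sit, Sr, map_sub, PowerSeries.coeff_smul, coeff_thL, ih.1 n hn, h.1 n hn,
        smul_zero, map_zero, add_zero, sub_zero]
    · have e : pp U w (i + 1) =
          (Polynomial.X - Polynomial.C (((w + 2 * i : ℤ) : ℚ) * coeff 0 U)) * pp U w i := by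
        rw [pp, prod_range_succ, mul_comm]; rfl
      rw [e, map_mul, Module.End.mul_apply, ← ih.2, map_sub, Polynomial.aeval_X,
        Polynomial.aeval_C, LinearMap.sub_apply, TT_apply, Module.algebraMap_end_apply]
      simp only [Sit, Sr, map_sub, PowerSeries.coeff_smul, coeff_thL, h.2, coeff_io]
      rw [← Polynomial.smul_eq_C_mul, smul_smul]

theorem TT_pow (ν : ℚ) (n k : ℕ) (e : Polynomial ℚ) (he : e.natDegree ≤ n) :
    ((TT ν ^ k) e).natDegree ≤ n ∧ ((TT ν ^ k) e).coeff n = ν ^ k * e.coeff n := by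
  induction k with
  | zero => simpa using he
  | succ k ih =>
    rw [pow_succ', Module.End.mul_apply, TT_apply]
    refine ⟨(Polynomial.natDegree_add_le _ _).trans (max_le
      ((Polynomial.natDegree_smul_le _ _).trans ih.1)
      ((Polynomial.natDegree_derivative_le _).trans ((Nat.sub_le _ _).trans ih.1))), ?_⟩
    rw [Polynomial.coeff_add, Polynomial.coeff_smul, Polynomial.coeff_derivative, ih.2,
      Polynomial.coeff_eq_zero_of_natDegree_lt (Nat.lt_succ_of_le ih.1), smul_eq_mul]
    ring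

theorem aeval_lead (ν : ℚ) (q e : Polynomial ℚ) :
    (Polynomial.aeval (TT ν) q e).coeff e.natDegree = q.eval ν * e.leadingCoeff := by
  induction q using Polynomial.induction_on' with
  | add p q hp hq => rw [map_add, LinearMap.add_apply, Polynomial.coeff_add, hp, hq,
      Polynomial.eval_add, add_mul]
  | monomial k a =>
    rw [Polynomial.aeval_monomial, Module.End.mul_apply, Module.algebraMap_end_apply,
      Polynomial.coeff_smul, (TT_pow ν _ k e le_rfl).2, Polynomial.eval_monomial, smul_eq_mul,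
      mul_assoc]
    rfl

theorem deg_lt {ν : ℚ} {I c : Polynomial ℚ} (hI : I ≠ 0) (hc : c ≠ 0)
    (h : Polynomial.aeval (TT ν) I c = 0) : c.natDegree < I.rootMultiplicity ν := by
  obtain ⟨q, hq, hn⟩ := Polynomial.exists_eq_pow_rootMultiplicity_mul_and_not_dvd I hI ν
  generalize I.rootMultiplicity ν = s at hq ⊢
  have e : Polynomial.aeval (TT ν) (Polynomial.X - Polynomial.C ν) = Polynomial.derivative := by
    rw [map_sub, Polynomial.aeval_X, Polynomial.aeval_C, Algebra.algebraMap_eq_smul_one, TT,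
      add_sub_cancel_left]
  rw [hq, mul_comm, map_mul, Module.End.mul_apply, map_pow, e, Module.End.pow_apply] at h
  have h1 := aeval_lead ν q (Polynomial.derivative^[s] c)
  rw [h, Polynomial.coeff_zero] at h1
  have h2 : Polynomial.derivative^[s] c = 0 := Polynomial.leadingCoeff_eq_zero.1
    ((mul_eq_zero.1 h1.symm).resolve_left fun h3 => hn (Polynomial.dvd_iff_isRoot.2 h3))
  by_contra h3
  have h4 := Polynomial.coeff_iterate_derivative (k := s) c (c.natDegree - s)
  rw [h2, Polynomial.coeff_zero, Nat.sub_add_cancel (not_lt.1 h3), nsmul_eq_mul] at h4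
  rcases mul_eq_zero.1 h4.symm with h5 | h5
  · exact h3 (Nat.descFactorial_eq_zero_iff_lt.1 (by exact_mod_cast h5))
  · exact hc (Polynomial.leadingCoeff_eq_zero.1 h5)

theorem sit_sum {J : Type} [Fintype J] (U : LS) (w : ℤ) (a : J → ℚ) (u : J → LS) (i : ℕ) :
    Sit thL U w (∑ s, a s • u s) i = ∑ s, a s • Sit thL U w (u s) i := by
  induction i with
  | zero => rfl
  | succ i ih =>
    simp only [Sit, ih, Sr_sum]
    refine sum_congr rfl fun s _ => ?_
    simp only [Sr, Derivation.map_smul, smul_sub, mul_smul_comm]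
    rw [smul_comm]

theorem comb {m : ℕ} (β : Fin m → ℚ) (hβ : ∃ i, β i ≠ 0) (p : ℕ → Polynomial ℚ)
    (h1 : ∀ i, (p i).Monic) (h2 : ∀ i, (p i).natDegree = i) :
    ∑ i, β i • p i ≠ 0 ∧ (∑ i, β i • p i).natDegree < m := by
  obtain ⟨i0, hi0, hm⟩ := exists_max_image (univ.filter fun i => β i ≠ 0) id
    (hβ.imp fun i hi => mem_filter.2 ⟨mem_univ _, hi⟩)
  refine ⟨fun h => (mem_filter.1 hi0).2 ?_, ?_⟩
  · have h3 := congrArg (fun r => Polynomial.coeff r i0) h
    simp only [Polynomial.finsetSum_coeff, Polynomial.coeff_smul, Polynomial.coeff_zero] at h3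
    rw [sum_eq_single i0 (fun i _ hi => ?_) (fun h => absurd (mem_univ _) h)] at h3
    · have h4 := (h1 i0).coeff_natDegree
      rw [h2] at h4
      rwa [h4, smul_eq_mul, mul_one] at h3
    · by_cases h5 : β i = 0
      · rw [h5, zero_smul]
      · have h6 : i < i0 := lt_of_le_of_ne (hm i (mem_filter.2 ⟨mem_univ _, h5⟩)) hi
        rw [Polynomial.coeff_eq_zero_of_natDegree_lt (by rw [h2]; exact h6), smul_zero]
  · have h3 : (∑ i, β i • p i).natDegree ≤ m - 1 :=
      Polynomial.natDegree_sum_le_of_forall_le _ _ fun i _ =>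
        (Polynomial.natDegree_smul_le _ _).trans (by rw [h2]; omega)
    have := i0.2
    omega

end Ind

open Ind in
theorem s_Ind : StInd := by
  intro J _ U w b u hb hu h
  classical
  have h0 : ∃ n, ∃ i, coeff n (b i) ≠ 0 := by
    by_contra h1
    push Not at h1
    exact hb (funext fun i => PowerSeries.ext fun n => by simpa using h1 n i)
  have hμ : ∀ i, ∀ n < Nat.find h0, coeff n (io (b i)) = 0 := fun i n hn => by
    have h1 := Nat.find_min h0 hn
    push Not at h1
    rw [coeff_io, h1 i, map_zero]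
  obtain ⟨hI, hd⟩ := comb (fun i => coeff (Nat.find h0) (b i)) (Nat.find_spec h0) (pp U w)
    (pp_monic U w) (pp_deg U w)
  set I := ∑ i : Fin (Fintype.card J), coeff (Nat.find h0) (b i) • pp U w i with hIe
  have hli : LinearIndependent ℚ
      (fun s (x : I.roots.ToType) => (coeff ⌊x.1⌋₊ (u s)).coeff x.2) := by
    refine Fintype.linearIndependent_iff.2 fun a ha => Fintype.linearIndependent_iff.1 hu a ?_
    by_contra hv
    have h1 : ∃ n, coeff n (∑ s, a s • u s) ≠ 0 := by
      by_contra h1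
      push Not at h1
      exact hv (PowerSeries.ext fun n => by simpa using h1 n)
    have hν : ∀ n < Nat.find h1, coeff n (∑ s, a s • u s) = 0 := fun n hn =>
      not_not.1 (Nat.find_min h1 hn)
    have h2 : ∑ i, io (b i) * Sit thL (io U) w (∑ s, a s • u s) i = 0 := by
      simp only [sit_sum, mul_sum, mul_smul_comm]
      rw [sum_comm]
      simp only [← smul_sum, h, smul_zero, sum_const_zero]
    have h3 := congrArg (coeff (Nat.find h0 + Nat.find h1)) h2
    rw [map_sum, map_zero] at h3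
    have h4 : Polynomial.aeval (TT (Nat.find h1 : ℕ)) I
        (coeff (Nat.find h1) (∑ s, a s • u s)) = 0 := by
      refine Eq.trans ?_ h3
      rw [hIe, map_sum, LinearMap.sum_apply]
      refine sum_congr rfl fun i _ => ?_
      rw [(lead (hμ i) (sit_lead U w hν i).1).2, (sit_lead U w hν i).2, coeff_io, map_smul,
        LinearMap.smul_apply, Polynomial.smul_eq_C_mul]
    have h5 := deg_lt hI (Nat.find_spec h1) h4
    rw [← Polynomial.count_roots] at h5
    have h6 : ∀ x : I.roots.ToType, (coeff ⌊x.1⌋₊ (∑ s, a s • u s)).coeff x.2 = 0 := fun x => by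
      have h7 := congrFun ha x
      rw [Finset.sum_apply] at h7
      simp only [map_sum, PowerSeries.coeff_smul, Polynomial.finsetSum_coeff,
        Polynomial.coeff_smul]
      exact h7
    have h7 : (coeff ⌊((Nat.find h1 : ℕ) : ℚ)⌋₊ (∑ s, a s • u s)).coeff
      (coeff (Nat.find h1) (∑ s, a s • u s)).natDegree = 0 := h6 ⟨(Nat.find h1 : ℕ), ⟨_, h5⟩⟩
    rw [Nat.floor_natCast] at h7
    exact Nat.find_spec h1 (Polynomial.leadingCoeff_eq_zero.1 h7)
  have h7 := hli.fintype_card_le_finrank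
  rw [Module.finrank_fintype_fun_eq_card, Multiset.card_coe] at h7
  have h8 := Polynomial.card_roots' I
  omega

end Pool.Agent.MP_3924c3_nt.BK

end
end

section

/-! The zero estimate for a first order system. -/

open Finset Filter Topology PowerSeries

noncomputable section

namespace Pool.Agent.MP_3924c3_nt.BK

namespace ZE

variable {J : Type} [Fintype J]

/-- coefficients of the iterated Serre derivatives -/
def AA (t : J → ℤ) (C : J → J → PS) (w : ℤ) (a : J → PS) : ℕ → J → PS
  | 0 => a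
  | i + 1 => fun j => Sr th UU (w + 2 * i - t j) (AA t C w a i j) + ∑ l, AA t C w a i l * C l j

variable {t : J → ℤ} {C : J → J → PS} {w : ℤ} {a : J → PS}

theorem mem {M : ℤ → Submodule ℚ PS} (h : Mod M) (hC : ∀ l j, C l j ∈ M (t l + 2 - t j))
    (ha : ∀ j, a j ∈ M (w - t j)) (i : ℕ) : ∀ j, AA t C w a i j ∈ M (w + 2 * i - t j) := by
  induction i with
  | zero => simpa [AA] using ha
  | succ i ih =>
    intro j
    refine (M _).add_mem ?_ ((M _).sum_mem fun l _ => h.mul' (ih l) (hC l j) (by push_cast; ring))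
    have := h.ser _ _ (ih j)
    rwa [show w + 2 * (i : ℤ) - t j + 2 = w + 2 * ((i + 1 : ℕ) : ℤ) - t j by push_cast; ring] at this

theorem sit {y : J → LS} (hy : IsSol t C y) (i : ℕ) :
    Sit thL (io UU) w (∑ j, io (a j) * y j) i = ∑ j, io (AA t C w a i j) * y j := by
  induction i with
  | zero => rfl
  | succ i ih =>
    rw [Sit, ih, Sr_sum]
    have h1 : ∀ j, Sr thL (io UU) (w + 2 * i) (io (AA t C w a i j) * y j) =
        io (Sr th UU (w + 2 * i - t j) (AA t C w a i j)) * y j +
          ∑ l, io (AA t C w a i j * C j l) * y l := by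
      intro j
      have h2 := Sr_mul (d := thL) (U := io UU) (w + 2 * i - t j) (t j) (io (AA t C w a i j)) (y j)
      rw [sub_add_cancel] at h2
      rw [h2, hy j, Sr_map io io_th, mul_sum]
      simp only [map_mul, mul_assoc]
    simp only [h1, AA, map_add, map_sum, add_mul, sum_mul, sum_add_distrib]
    rw [sum_comm]

theorem dvd_sit (n : ℕ) (U f : LS) (h : X ^ n ∣ f) (i : ℕ) : X ^ n ∣ Sit thL U w f i := by
  induction i with
  | zero => exact h
  | succ i ih =>
    rw [Sit, Sr]
    refine dvd_sub ?_ ?_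
    · rw [X_pow_dvd_iff] at ih ⊢
      intro m hm
      simp [coeff_thL, ih m hm]
    · rw [← smul_mul_assoc]
      exact ih.mul_left _

theorem dvd_io {n : ℕ} {f : PS} : X ^ n ∣ io f ↔ X ^ n ∣ f := by
  simp only [X_pow_dvd_iff, coeff_io, Polynomial.C_eq_zero]

theorem sum_fin (m : ℕ) : ∑ i : Fin m, 2 * ((i : ℕ) : ℤ) = m * (m - 1) := by
  induction m with
  | zero => simp
  | succ m ih =>
    rw [Fin.sum_univ_castSucc]
    simp only [Fin.val_castSucc, Fin.val_last, ih]
    push_cast
    ring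

end ZE

open ZE in
theorem s_ZE (hInd : StInd) : StZE := by
  intro M h J _ _ t C w a y e j0 hC ha hy hli he h0
  let σ := Fintype.equivFin J
  let A : Matrix J J PS := Matrix.of fun i j => AA t C w a (σ i) j
  have hW : A.det ∈
      M (Fintype.card J * w + Fintype.card J * (Fintype.card J - 1) - ∑ j, t j) := by
    rw [Matrix.det_apply]
    refine (M _).sum_mem fun π _ => ?_
    have h1 := h.prod univ (fun i => w + 2 * ((σ (π i) : ℕ) : ℤ) - t i) (fun i => A (π i) i)
      fun i _ => mem h hC ha _ i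
    have h2 : ∑ i, 2 * ((σ (π i) : ℕ) : ℤ) = Fintype.card J * (Fintype.card J - 1) := by
      rw [← sum_fin]
      exact Equiv.sum_comp (π.trans σ) fun i => 2 * ((i : ℕ) : ℤ)
    rw [sum_sub_distrib, sum_add_distrib, h2, sum_const, card_univ, nsmul_eq_mul] at h1
    rw [Units.smul_def]
    exact zsmul_mem h1 _
  have hW0 : A.det ≠ 0 := by
    intro hd
    obtain ⟨b, hb, hbA⟩ := Matrix.exists_vecMul_eq_zero_iff.2 hd
    refine hInd J UU w (fun i => b (σ.symm i)) _ (fun hb' => hb ?_) hli fun s => ?_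
    · funext j
      simpa using congrFun hb' (σ j)
    · rw [← Equiv.sum_comp σ]
      simp only [sit (hy s), Equiv.symm_apply_apply, mul_sum, ← mul_assoc, ← map_mul]
      rw [sum_comm]
      refine sum_eq_zero fun j _ => ?_
      have h1 : ∑ i, b i * AA t C w a (σ i) j = 0 := congrFun hbA j
      rw [← sum_mul, ← map_sum, h1, map_zero, zero_mul]
  by_contra hcon
  push Not at hcon
  refine hW0 (h.sturm _ _ hW fun n hn => ?_)
  have h1 : X ^ (n + 1) ∣ ∑ j, a j * e j := by
    rw [X_pow_dvd_iff]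
    intro m hm
    by_contra hne
    have := hcon m hne
    omega
  have h2 : ∀ i, X ^ (n + 1) ∣ A.mulVec e i := by
    intro i
    have h3 := dvd_sit (w := w) _ (io UU) _ (dvd_io.2 h1) (σ i)
    simp only [map_sum, map_mul] at h3
    rw [sit he] at h3
    simp only [← map_mul, ← map_sum] at h3
    exact dvd_io.1 h3
  have h3 : A.det = ∑ i, A.adjugate j0 i * A.mulVec e i := by
    have h4 := congrFun (Matrix.mulVec_mulVec e A.adjugate A) j0
    rw [Matrix.adjugate_mul, Matrix.smul_mulVec, Matrix.one_mulVec, Pi.smul_apply, h0,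
      smul_eq_mul, mul_one] at h4
    exact h4.symm
  have h4 : X ^ (n + 1) ∣ A.det := h3 ▸ dvd_sum fun i _ => (h2 i).mul_left _
  exact X_pow_dvd_iff.1 h4 n (Nat.lt_succ_self n)

end Pool.Agent.MP_3924c3_nt.BK

end
end

section

/-! The first order system satisfied by the canonical derivatives. -/

open Finset Filter Topology PowerSeries

noncomputable section

namespace Pool.Agent.MP_3924c3_nt.BK

namespace Sys

def CC (k : ℕ) : JJ k → JJ k → PS
  | .inl i, .inl j => if (i : ℕ) = 0 then (if (j : ℕ) = 1 then 1 else 0)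
      else (if (j : ℕ) = 0 then -EE else 0)
  | .inl _, .inr _ => 0
  | .inr i, .inl j => if (i : ℕ) = k then
      (if (j : ℕ) = 0 then Sr th UU ((k : ℤ) + 1) (Gs (k + 1)) else ((k : ℚ) + 1) • Gs (k + 1))
      else 0
  | .inr i, .inr j => (if (j : ℕ) = i + 1 then 1 else 0) +
      (if (j : ℕ) + 1 = i then (((i : ℕ) : ℚ) * (((i : ℕ) : ℚ) - k - 1)) • EE else 0)

theorem mem {M : ℤ → Submodule ℚ PS} (h : Mod M) {k : ℕ} (hk : Odd k) (h3 : 3 ≤ k)
    (l j : JJ k) : CC k l j ∈ M (wt k l + 2 - wt k j) := by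
  have hG : Gs (k + 1) ∈ M ((k : ℤ) + 1) := by
    simpa using h.eis (k + 1) (by omega) hk.add_one
  rcases l with i | i <;> rcases j with j | j <;> simp only [CC, wt]
  · split_ifs with h1 h2 h2
    · rw [show (-1 + 2 * ((i : ℕ) : ℤ) + 2 - (-1 + 2 * ((j : ℕ) : ℤ))) = 0 by omega]
      exact h.one
    · exact zero_mem _
    · have := i.2
      rw [show (-1 + 2 * ((i : ℕ) : ℤ) + 2 - (-1 + 2 * ((j : ℕ) : ℤ))) = 4 by omega]
      exact neg_mem h.ee
    · exact zero_mem _
  · exact zero_mem _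
  · split_ifs with h1 h2
    · rw [show (-(k : ℤ) + 2 * ((i : ℕ) : ℤ) + 2 - (-1 + 2 * ((j : ℕ) : ℤ))) = k + 1 + 2 by omega]
      exact h.ser _ _ hG
    · have := j.2
      rw [show (-(k : ℤ) + 2 * ((i : ℕ) : ℤ) + 2 - (-1 + 2 * ((j : ℕ) : ℤ))) = k + 1 by omega]
      exact Submodule.smul_mem _ _ hG
    · exact zero_mem _
  · refine add_mem ?_ ?_
    · split_ifs with h1
      · rw [show (-(k : ℤ) + 2 * ((i : ℕ) : ℤ) + 2 - (-(k : ℤ) + 2 * ((j : ℕ) : ℤ))) = 0 by omega]
        exact h.one
      · exact zero_mem _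
    · split_ifs with h1
      · rw [show (-(k : ℤ) + 2 * ((i : ℕ) : ℤ) + 2 - (-(k : ℤ) + 2 * ((j : ℕ) : ℤ))) = 4 by omega]
        exact Submodule.smul_mem _ _ h.ee
      · exact zero_mem _

theorem sum_up (k i : ℕ) (f : ℕ → LS) :
    ∑ j : Fin (k + 1), io (if (j : ℕ) = i + 1 then 1 else 0) * f j =
      if i < k then f (i + 1) else 0 := by
  rw [Fin.sum_univ_eq_sum_range (fun j => io (if j = i + 1 then 1 else 0) * f j) (k + 1)]
  simp only [apply_ite io, map_one, map_zero, ite_mul, one_mul, zero_mul, sum_ite_eq',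
    mem_range, Nat.add_lt_add_iff_right]

theorem sum_down (k i : ℕ) (hi : i ≤ k) (c : ℚ) (f : ℕ → LS) :
    ∑ j : Fin (k + 1), io (if (j : ℕ) + 1 = i then ((i : ℚ) * c) • EE else 0) * f j =
      ((i : ℚ) * c) • (io EE * f (i - 1)) := by
  rw [Fin.sum_univ_eq_sum_range
    (fun j => io (if j + 1 = i then ((i : ℚ) * c) • EE else 0) * f j) (k + 1)]
  rcases i with _ | i
  · simp
  · simp only [Nat.add_right_cancel_iff, apply_ite io, map_zero, ite_mul, zero_mul, sum_ite_eq',
      mem_range, Nat.add_sub_cancel]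
    rw [if_pos (by omega), io_smul, smul_mul_assoc]

end Sys

open Sys

theorem s_Sys (hC : StC) : StSys := by
  intro M h k hk h3
  refine ⟨CC k, mem h hk h3, fun u v hok l => ?_⟩
  have hc := hC LS thL (io UU) (io EE) h.ramL
  rw [Fintype.sum_sum_type, Fin.sum_univ_two]
  rcases l with i | i
  · have e := hc (-1) i v
    simp only [wt, sol, CC, map_zero, zero_mul, sum_const_zero, add_zero]
    rw [e]
    fin_cases i
    · simp
    · have b := can_bol thL (io UU) 1 v
      simp only [Nat.cast_one, Function.iterate_succ_apply', Function.iterate_zero, id] at b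
      rw [hok.1] at b
      simp [b]
  · have e := hc (-(k : ℤ)) i u
    simp only [wt, sol, CC, map_add, add_mul, sum_add_distrib]
    rw [e, sum_up k i (fun j => can thL (io UU) (-(k : ℤ)) j u),
      sum_down k i (by omega) _ (fun j => can thL (io UU) (-(k : ℤ)) j u), ← add_assoc]
    congr 1
    · by_cases hi : (i : ℕ) = k
      · simp only [hi, Fin.val_zero, Fin.val_one, if_true, one_ne_zero, if_false, can_zero,
          can_one, add_zero, io_smul, Sr_map io io_th, lt_irrefl]
        rw [can_bol, hok.2]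
        simp only [Sr, Algebra.smul_def]
        push_cast
        ring
      · have := i.2
        rw [if_neg hi, if_neg hi, if_pos (by omega)]
        simp
    · congr 1
      push_cast
      ring

end Pool.Agent.MP_3924c3_nt.BK

end
end

section

open Finset Filter Topology PowerSeries

noncomputable section

namespace Pool.Agent.MP_3924c3_nt.BK

namespace RK

theorem red_sum (p : ℕ) [Fact p.Prime] {κ : Type} (s : Finset κ) (f : κ → ℚ)
    (h : ∀ i, padicNorm p (f i) ≤ 1) :
    ((∑ i ∈ s, f i : ℚ) : ZMod p) = ∑ i ∈ s, (f i : ZMod p) := by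
  classical
  induction s using Finset.induction_on with
  | empty => simp
  | insert a s ha ih =>
    rw [sum_insert ha, sum_insert ha, (MP_384f6f_nt.NW.stRed p _ _ (h a)
      (padicNorm.sum_le' (fun i _ => h i) zero_le_one)).1, ih]

theorem lift_li (p : ℕ) [Fact p.Prime] {ι κ : Type} [Fintype κ] (v : κ → ι → ℚ)
    (hv : ∀ i s, padicNorm p (v i s) ≤ 1)
    (h : LinearIndependent (ZMod p) fun i s => ((v i s : ℚ) : ZMod p)) :
    LinearIndependent ℚ v := by
  rw [Fintype.linearIndependent_iff] at h ⊢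
  intro c hc
  by_contra hne
  obtain ⟨j, hj⟩ := not_forall.1 hne
  obtain ⟨i₀, -, hm⟩ := exists_max_image univ (fun i => padicNorm p (c i)) ⟨j, mem_univ j⟩
  have h0 : 0 < padicNorm p (c i₀) :=
    lt_of_lt_of_le (lt_of_le_of_ne (padicNorm.nonneg _) (padicNorm.nonzero hj).symm)
      (hm j (mem_univ j))
  have c0 : c i₀ ≠ 0 := fun e => by simp [e] at h0
  have h1 : ∀ i, padicNorm p (c i / c i₀) ≤ 1 := fun i => by
    rw [padicNorm.div, div_le_one h0]
    exact hm i (mem_univ i)
  have h2 := h (fun i => ((c i / c i₀ : ℚ) : ZMod p)) (funext fun s => by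
    have e : ∑ i, c i / c i₀ * v i s = 0 := by
      have := congrFun hc s
      simp only [Finset.sum_apply, Pi.smul_apply, smul_eq_mul, Pi.zero_apply] at this
      simp only [div_mul_eq_mul_div, ← sum_div, this, zero_div]
    have e2 := red_sum p univ (fun i => c i / c i₀ * v i s) fun i => by
      rw [padicNorm.mul]
      exact mul_le_one₀ (h1 i) (padicNorm.nonneg _) (hv i s)
    rw [e, Rat.cast_zero] at e2
    simp only [Finset.sum_apply, Pi.smul_apply, smul_eq_mul, Pi.zero_apply]
    rw [e2]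
    exact sum_congr rfl fun i _ => ((MP_384f6f_nt.NW.stRed p _ _ (h1 i) (hv i s)).2.1).symm) i₀
  simp only [div_self c0, Rat.cast_one] at h2
  exact one_ne_zero h2

end RK

theorem s_Dim : StDim := by
  intro M hM w
  let φ : M w →ₗ[ℚ] (Fin (w / 12 + 1).toNat → ℚ) :=
    LinearMap.pi fun n => (coeff (n : ℕ)).comp (M w).subtype
  have hφ : Function.Injective φ := by
    rw [injective_iff_map_eq_zero]
    intro f hf
    refine Subtype.ext (hM.sturm w f f.2 fun n hn => ?_)
    exact congrFun hf ⟨n, by omega⟩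
  refine ⟨Module.Finite.of_injective φ hφ, ?_⟩
  simpa using LinearMap.finrank_le_finrank_of_injective hφ

theorem s_RK : StRK := by
  intro ι _ _ p _ V
  obtain ⟨b, hb, hs, hl⟩ := exists_linearIndependent (ZMod p)
    {x : ι → ZMod p | ∃ v ∈ V, (∀ s, padicNorm p (v s) ≤ 1) ∧ x = fun s => ((v s : ℚ) : ZMod p)}
  have hf : b.Finite := Set.toFinite b
  have : Fintype b := hf.fintype
  choose v h1 h2 h3 using fun x : b => hb x.2
  have h4 : LinearIndependent ℚ v := RK.lift_li p v h2 (by
    have e : (fun (i : b) s => ((v i s : ℚ) : ZMod p)) = ((↑) : b → ι → ZMod p) :=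
      funext fun i => (h3 i).symm
    rw [e]
    exact hl)
  have h5 : LinearIndependent ℚ fun i : b => (⟨v i, h1 i⟩ : V) :=
    LinearIndependent.of_comp V.subtype h4
  refine ⟨b.toFinset, ?_, fun u hu hu' => ?_⟩
  · rw [Set.toFinset_card]
    exact h5.fintype_card_le_finrank
  · rw [Set.coe_toFinset, hs]
    exact Submodule.subset_span ⟨u, hu, hu', rfl⟩

end Pool.Agent.MP_3924c3_nt.BK

end
end
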