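import Pool.Agent.Mg.F3792c7p.G947474
import Pool.Agent.Mg.F3792c7p.G7b3e93
import Pool.Agent.Mg.F3792c7p.G4955d1
import Pool.Agent.MP_384f6f_nt.NW.Theta
import Pool.Agent.MP_384f6f_nt.NW.PSum
import Pool.Agent.MP_384f6f_nt.NW.Red
import Pool.Agent.MP_384f6f_nt.NW.DetRank

set_option linter.all false

section

open Finset Filter Topology PowerSeries

noncomputable section

namespace Pool.Agent.MP_3924c3_nt.BK

open scoped MatrixGroups ModularForm

theorem s_R5 (hB : StB) : StR5 := by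
  intro w hw he
  have hk : 3 ≤ w := by omega
  have hb : ((bernoulli w : ℚ) : ℂ) ≠ 0 := by exact_mod_cast hB.1 w he
  have hw0 : (w : ℂ) ≠ 0 := by exact_mod_cast (by omega : w ≠ 0)
  refine ⟨(-(bernoulli w : ℚ) / (2 * w) : ℂ) • ⇑(ModularForm.E hk), fun τ => ?_, fun γ => ?_⟩
  · have h := (ModularForm.hasSum_qExpansion (ModularForm.E hk) one_pos
      one_mem_strictPeriods_SL τ).mul_left (-(bernoulli w : ℚ) / (2 * w) : ℂ)
    refine (congrArg (HasSum · _) (funext fun n => ?_)).mp h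
    rw [EisensteinSeries.E_qExpansion_coeff hk he, Gs, coeff_mk, smul_eq_mul, ← mul_assoc]
    congr 1
    split_ifs
    · push_cast
      rw [mul_one]
    · rw [ArithmeticFunction.sigma_apply]
      push_cast
      field_simp
  · rw [ModularForm.SL_smul_slash, ModularForm.SL_slash]
    exact congrArg _ (SlashInvariantForm.slash_action_eqn (Γ := 𝒮ℒ) (ModularForm.E hk) _
      (MonoidHom.mem_range.2 ⟨γ, rfl⟩))

end Pool.Agent.MP_3924c3_nt.BK

end
end

section

/-! The analytic model satisfies `Mod`. -/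

open Finset Filter Topology PowerSeries

noncomputable section

namespace Pool.Agent.MP_3924c3_nt.BK

open UpperHalfPlane hiding I
open scoped MatrixGroups ModularForm Manifold

namespace RF

/-- the correction term of the weight two series -/
def ph (γ : SL(2, ℤ)) (z : ℍ) : ℂ :=
  (2 * (Real.pi : ℂ) * Complex.I)⁻¹ * (((γ 1 0 : ℤ) : ℂ) / denom γ z)

theorem ph_deriv (γ : SL(2, ℤ)) (z : ℍ) :
    HasDerivAt (ph γ ∘ ofComplex)
      (-((2 * (Real.pi : ℂ) * Complex.I)⁻¹ * (((γ 1 0 : ℤ) : ℂ) / denom γ z) ^ 2)) (z : ℂ) := by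
  have h1 := (hasDerivAt_denom_zpow (γ : GL (Fin 2) ℝ) (-1) z).const_mul
    ((2 * (Real.pi : ℂ) * Complex.I)⁻¹ * ((γ 1 0 : ℤ) : ℂ))
  have hz := denom_ne_zero (γ : GL (Fin 2) ℝ) z
  have e : ((((γ : GL (Fin 2) ℝ) : Matrix (Fin 2) (Fin 2) ℝ) 1 0 : ℝ) : ℂ) = ((γ 1 0 : ℤ) : ℂ) := by
    simp
  have h2 : (ph γ ∘ ofComplex) =ᶠ[𝓝 (z : ℂ)] fun w =>
      (2 * (Real.pi : ℂ) * Complex.I)⁻¹ * ((γ 1 0 : ℤ) : ℂ) *
        denom (γ : GL (Fin 2) ℝ) w ^ (-1 : ℤ) := by
    filter_upwards [isOpen_upperHalfPlaneSet.mem_nhds z.im_pos] with w hw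
    simp only [Function.comp_apply, ph, ofComplex_apply_of_im_pos hw, zpow_neg_one]
    rw [div_eq_mul_inv, ← mul_assoc]
  refine (h1.congr_of_eventuallyEq h2).congr_deriv ?_
  rw [e, show (-1 : ℤ) - 1 = -2 by norm_num, zpow_neg]
  push_cast
  field_simp

theorem ph_mdiff (γ : SL(2, ℤ)) : MDifferentiable 𝓘(ℂ) 𝓘(ℂ) (ph γ) := fun z =>
  UpperHalfPlane.mdifferentiableAt_iff.2 (ph_deriv γ z).differentiableAt

theorem D_ph (γ : SL(2, ℤ)) (z : ℍ) :
    Derivative.normalizedDerivOfComplex (ph γ) z = -(ph γ z) ^ 2 := by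
  rw [Derivative.normalizedDerivOfComplex, (ph_deriv γ z).deriv, ph]
  ring

/-- the weight two series divided by twelve -/
def U : ℍ → ℂ := fun z => (12 : ℂ)⁻¹ * EisensteinSeries.E2 z

theorem U_slash (γ : SL(2, ℤ)) : U ∣[(2 : ℤ)] γ = U + ph γ := by
  have h : U = (12 : ℂ)⁻¹ • EisensteinSeries.E2 := rfl
  rw [h, ModularForm.SL_smul_slash, EisensteinSeries.E2_slash_action]
  funext z
  have hz := denom_ne_zero (γ : GL (Fin 2) ℝ) z
  have hp : (Real.pi : ℂ) ≠ 0 := Complex.ofReal_ne_zero.2 Real.pi_ne_zero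
  have hI := Complex.I_ne_zero
  simp only [Pi.smul_apply, Pi.sub_apply, Pi.add_apply, smul_eq_mul, ph, EisensteinSeries.D2,
    riemannZeta_two]
  field_simp
  linear_combination (-12 * ((γ 1 0 : ℤ) : ℂ)) * Complex.I_sq

theorem rep_sub {f g : PS} {F G : ℍ → ℂ} (h : Rep f F) (h' : Rep g G) : Rep (f - g) (F - G) :=
  fun τ => by simpa [sub_smul, sub_mul] using (h τ).sub (h' τ)

theorem rep_one : Rep 1 1 := fun τ => by
  have := hasSum_single (f := fun n : ℕ =>
    ((coeff n (1 : PS) : ℚ) : ℂ) • Function.Periodic.qParam 1 (τ : ℂ) ^ n) 0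
    (fun n hn => by simp [coeff_one, hn])
  simpa using this

theorem coeff_zero_mul (f g : PS) : coeff 0 (f * g) = coeff 0 f * coeff 0 g := by simp

end RF

theorem s_R8 (h1 : StR1) (h2 : StR2) (h6 : StR6) : StR8 := by
  have h6' : Rep UU RF.U := h6
  obtain ⟨hU, hD⟩ := h2 UU RF.U h6'
  refine ⟨Derivative.normalizedDerivOfComplex RF.U - RF.U * RF.U, ?_, fun γ => ?_⟩
  · rw [sq]; exact RF.rep_sub hD (h1 _ _ _ _ h6' h6')
  · have e1 := Derivative.normalizedDerivOfComplex_SL_slash (k := 2) (γ := γ) hU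
    have e2 := ModularForm.mul_slash_SL2 2 2 γ RF.U RF.U
    rw [RF.U_slash] at e1 e2
    rw [Derivative.normalizedDerivOfComplex_add _ _ hU (RF.ph_mdiff γ)] at e1
    rw [show (2 : ℤ) + 2 = 4 by norm_num] at e1 e2
    rw [sub_eq_add_neg, SlashAction.add_slash, SlashAction.neg_slash, e2]
    funext z
    have e3 := congrFun e1 z
    simp only [Pi.add_apply, Pi.sub_apply, RF.D_ph] at e3
    simp only [Pi.add_apply, Pi.neg_apply, Pi.mul_apply]
    have e4 : ((2 : ℤ) : ℂ) * (2 * (Real.pi : ℂ) * Complex.I)⁻¹ *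
        (((γ 1 0 : ℤ) : ℂ) / denom γ z) = 2 * RF.ph γ z := by
      rw [RF.ph]; push_cast; ring
    rw [e4] at e3
    linear_combination -e3

theorem s_Mod (h1 : StR1) (h2 : StR2) (h4 : StR4) (h5 : StR5) (h6 : StR6) (h7 : StR7)
    (h8 : StR8) (hI : StInt) : StMod where
  one := ⟨1, RF.rep_one, ModularForm.is_invariant_one⟩
  mul := by
    rintro a b f g ⟨F, hF, iF⟩ ⟨G, hG, iG⟩
    exact ⟨F * G, h1 _ _ _ _ hF hG, fun γ => by rw [ModularForm.mul_slash_SL2, iF γ, iG γ]⟩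
  ser := by
    rintro w f ⟨F, hF, iF⟩
    obtain ⟨hm, hD⟩ := h2 f F hF
    have h6' : Rep UU RF.U := h6
    refine ⟨Derivative.serreDerivative w F, ?_,
      fun γ => Derivative.serreDerivative_slash_invariant hm (iF γ)⟩
    have h := RF.rep_sub hD ((h1 _ _ _ _ h6' hF).smul (w : ℚ))
    have e : Derivative.serreDerivative w F =
        Derivative.normalizedDerivOfComplex F - (((w : ℚ) : ℂ)) • (RF.U * F) := by
      funext z
      simp only [Derivative.serreDerivative_apply, Pi.sub_apply, Pi.smul_apply, Pi.mul_apply,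
        smul_eq_mul, RF.U]
      push_cast; ring
    rw [e]; exact h
  eis := h5
  sturm := h4
  tra := h7
  ram := by
    have hE : EE ∈ MF 4 := (MF 4).smul_mem _ ((MF 4).smul_mem _ (h5 4 le_rfl (by decide)))
    have h := h4 4 _ ((MF 4).add_mem h8 hE) fun n hn => by
      have : n = 0 := by omega
      subst this
      obtain ⟨-, -, -, -, a, -, -, -, b⟩ := hI
      rw [map_add, map_sub, coeff_th, EE, coeff_smul, a, sq, RF.coeff_zero_mul, b]
      norm_num
    linear_combination h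

end Pool.Agent.MP_3924c3_nt.BK

end
end

section

/-! The basic solutions of the differential system. -/

open Finset Filter Topology PowerSeries

noncomputable section

namespace Pool.Agent.MP_3924c3_nt.BK

namespace Ok

theorem iter_tau_mul (r : ℕ) (f : LS) : (thL : LS → LS)^[r + 1] (tau * f) =
    tau * (thL : LS → LS)^[r + 1] f + ((r : ℚ) + 1) • (thL : LS → LS)^[r] f := by
  induction r with
  | zero =>
    simp only [zero_add, Function.iterate_one, Function.iterate_zero_apply, Nat.cast_zero,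
      one_smul, Derivation.leibniz, thL_tau, smul_eq_mul, mul_one]
  | succ r ih =>
    rw [Function.iterate_succ_apply', ih, map_add, Derivation.map_smul, Derivation.leibniz,
      thL_tau, smul_eq_mul, smul_eq_mul, mul_one, ← Function.iterate_succ_apply' thL (r + 1),
      ← Function.iterate_succ_apply' thL r, add_smul ((r + 1 : ℕ) : ℚ), one_smul]
    push_cast
    abel

theorem iter_tau_pow (i : ℕ) : (thL : LS → LS)^[i] (tau ^ i) = (i.factorial : ℚ) • (1 : LS) := by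
  induction i with
  | zero => simp
  | succ i ih =>
    rw [pow_succ', iter_tau_mul, Function.iterate_succ_apply', ih, Derivation.map_smul,
      Derivation.map_one_eq_zero, smul_zero, mul_zero, zero_add, smul_smul, Nat.factorial_succ]
    push_cast
    rfl

theorem iter_tau_lt {i k : ℕ} (h : i ≤ k) : (thL : LS → LS)^[k + 1] (tau ^ i) = 0 := by
  obtain ⟨j, rfl⟩ := Nat.exists_eq_add_of_le h
  rw [show i + j + 1 = j + 1 + i by omega, Function.iterate_add_apply, iter_tau_pow, iter_smul,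
    iter_one, smul_zero]

theorem iter_YY {k : ℕ} (hk : 1 ≤ k) :
    (th : PS → PS)^[k] (YY k) = Gs (k + 1) - coeff 0 (Gs (k + 1)) • (1 : PS) := by
  ext n
  rw [coeff_iter_th, map_sub, coeff_smul, coeff_one]
  rcases Nat.eq_zero_or_pos n with rfl | hn
  · simp [YY]
  · simp only [YY, Gs, coeff_mk, if_neg hn.ne', smul_zero, sub_zero, Nat.add_sub_cancel]
    rw [← Nat.sum_div_divisors n fun d => (d : ℚ) ^ k, mul_sum]
    refine sum_congr rfl fun d hd => ?_
    have h1 : (d : ℚ) ≠ 0 := Nat.cast_ne_zero.2 (Nat.pos_of_mem_divisors hd).ne'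
    rw [Nat.cast_div (Nat.dvd_of_mem_divisors hd) h1, div_pow, div_eq_mul_inv]

theorem iter_io_YY {k : ℕ} (hk : 1 ≤ k) : (thL : LS → LS)^[k] (io (YY k)) =
    io (Gs (k + 1)) - coeff 0 (Gs (k + 1)) • (1 : LS) := by
  rw [← iter_map io io_th, iter_YY hk, map_sub, io_smul, map_one]

theorem iter_io_YY' {k : ℕ} (hk : 1 ≤ k) :
    (thL : LS → LS)^[k + 1] (io (YY k)) = thL (io (Gs (k + 1))) := by
  rw [Function.iterate_succ_apply', iter_io_YY hk, map_sub, Derivation.map_smul,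
    Derivation.map_one_eq_zero, smul_zero, sub_zero]

end Ok

theorem s_Ok : StOk := by
  intro k hk
  refine ⟨fun i hi => ⟨by simp, ?_⟩, ⟨by simp, ?_⟩, ⟨by simp [thL_tau], ?_⟩⟩
  · rw [Ok.iter_tau_lt hi]
    simp
  · rw [Ok.iter_io_YY' hk]
    simp
  · have h1 : (k.factorial : ℚ) ≠ 0 := Nat.cast_ne_zero.2 k.factorial_ne_zero
    have h2 : coeff 0 (Gs (k + 1)) / k.factorial * ((k + 1).factorial : ℚ) =
        ((k : ℚ) + 1) * coeff 0 (Gs (k + 1)) := by
      rw [Nat.factorial_succ]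
      push_cast
      field_simp
    rw [iter_add, iter_smul, Ok.iter_tau_mul, Ok.iter_tau_pow, Ok.iter_io_YY' hk,
      Ok.iter_io_YY hk, thL_tau, mul_one, smul_smul, h2, smul_sub, smul_smul]
    abel

end Pool.Agent.MP_3924c3_nt.BK

end
end

section

/-! Unbounded denominators: the Eichler integral is not killed. -/

open Finset Filter Topology PowerSeries

noncomputable section

namespace Pool.Agent.MP_3924c3_nt.BK

namespace F2

variable {p : ℕ} [hp : Fact p.Prime]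

theorem inv_le {K : ℕ} (h : ¬ p ∣ K) : padicNorm p (K : ℚ)⁻¹ ≤ 1 := by
  rw [← one_div, padicNorm.div, padicNorm.one, (padicNorm.nat_eq_one_iff K).2 h, div_one]

theorem rat_le (x : ℚ) (h : x.den < p) : padicNorm p x ≤ 1 := by
  rw [← Rat.num_div_den x, div_eq_mul_inv, padicNorm.mul]
  exact mul_le_one₀ (padicNorm.of_int _) (padicNorm.nonneg _)
    (inv_le (Nat.not_dvd_of_pos_of_lt x.den_pos h))

omit hp in
theorem bd_it {f : PS} (h : BD f) : ∃ K : ℕ, ∀ (p : ℕ) [Fact p.Prime], K < p → ∀ N, It p N f := by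
  obtain ⟨K, h0, hK⟩ := h
  refine ⟨K, fun p _ hp N => ?_⟩
  have := (hK.it p N).smul (inv_le (Nat.not_dvd_of_pos_of_lt (Nat.pos_of_ne_zero h0) hp))
  rwa [smul_smul, inv_mul_cancel₀ (Nat.cast_ne_zero.2 h0), one_smul] at this

theorem zt_th (N : ℕ) : Zt p N (th (X ^ p)) := fun n _ => by
  rw [coeff_th, coeff_X_pow]
  split_ifs with h
  · rw [mul_one, h]
    exact padicNorm.padicNorm_p_lt_one_of_prime
  · simp

theorem zt_can {N : ℕ} {U : PS} (hU : It p N U) (w : ℤ) (j : ℕ) :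
    Zt p N (can th U w j (X ^ p) - can th U w j 1 * X ^ p) := by
  rw [can_const, can, sum_range_succ', Nat.sub_zero, Function.iterate_zero_apply, smul_mul_assoc,
    add_sub_cancel_right]
  refine Zt.sum _ _ fun r _ => ((hU.neg.pow _).mul_zt ?_).smul (padicNorm.of_int _)
  rw [Function.iterate_succ_apply]
  exact (zt_th N).iter r

theorem it_Y (k : ℕ) : It p (2 * p) (YY k - ((p : ℚ) ^ k)⁻¹ • X ^ p) := fun n hn => by
  rw [map_sub, coeff_smul, coeff_X_pow, YY, coeff_mk, smul_eq_mul]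
  split_ifs with h
  · rw [h, hp.out.sum_divisors]
    simp
  · rw [mul_zero, sub_zero]
    refine padicNorm.sum_le' (fun d hd => ?_) zero_le_one
    rw [← Nat.cast_pow]
    refine inv_le fun h1 => ?_
    obtain ⟨h2, h3⟩ := Nat.mem_divisors.1 hd
    obtain ⟨m, rfl⟩ := (hp.out.dvd_of_dvd_pow h1).trans h2
    have h4 : m < 2 := lt_of_mul_lt_mul_left (a := p) (by omega) (Nat.zero_le _)
    interval_cases m <;> simp at h h3

omit hp in
theorem it_C (N : ℕ) {c : ℚ} (h : padicNorm p c ≤ 1) : It p N (C c) := fun n _ => by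
  rw [coeff_C]
  split_ifs
  · exact h
  · simp

end F2

open F2 in
theorem s_F2 (hI : StInt) : StF2 := by
  intro k a c hk ha hN h0
  obtain ⟨n, hn⟩ : ∃ n, coeff n (∑ j : Fin (k + 1), a (.inr j) * can th UU (-(k : ℤ)) j 1) ≠ 0 := by
    by_contra h
    push Not at h
    exact hN (PowerSeries.ext fun n => by rw [h n, map_zero])
  set x := coeff n (∑ j : Fin (k + 1), a (.inr j) * can th UU (-(k : ℤ)) j 1) with hx
  choose K hK using fun j => bd_it (ha j)
  obtain ⟨p, hp1, hp⟩ := Nat.exists_infinite_primes (∑ j, K j + n + c.den + x⁻¹.den + 5)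
  have := Fact.mk hp
  have hp0 : (p : ℚ) ≠ 0 := Nat.cast_ne_zero.2 hp.ne_zero
  have hA : ∀ j, It p (2 * p) (a j) := fun j => hK j p (by
    have := single_le_sum (f := K) (fun _ _ => Nat.zero_le _) (mem_univ j)
    omega) _
  have hU : It p (2 * p) UU := it_UU hI (by omega)
  have hW : It p (2 * p) (YY k - ((p : ℚ) ^ k)⁻¹ • X ^ p + C c) :=
    (it_Y k).add (it_C _ (rat_le c (by omega)))
  have hpk : padicNorm p ((p : ℚ) ^ k) < 1 := by
    rw [← Nat.cast_pow, padicNorm.nat_lt_one_iff]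
    exact dvd_pow_self p (by omega)
  have e1 : YY k + C c = YY k - ((p : ℚ) ^ k)⁻¹ • X ^ p + C c + ((p : ℚ) ^ k)⁻¹ • X ^ p := by
    abel
  rw [Fintype.sum_sum_type, e1] at h0
  generalize YY k - ((p : ℚ) ^ k)⁻¹ • X ^ p + C c = W at h0 hW
  simp only [sol, can_add, can_smul, mul_add, sum_add_distrib, mul_smul_comm, ← smul_sum] at h0
  have h1 : Zt p (2 * p) ((p : ℚ) ^ k • (∑ j : Fin 2, a (.inl j) * can th UU (-1) j 1 +
      ∑ j : Fin (k + 1), a (.inr j) * can th UU (-(k : ℤ)) j W)) :=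
    ((It.sum _ _ fun j _ => (hA _).mul (It.can hU It.one _ _)).add
      (It.sum _ _ fun j _ => (hA _).mul (It.can hU hW _ _))).smul_zt hpk
  have h2 : Zt p (2 * p) (∑ j : Fin (k + 1), a (.inr j) *
      (can th UU (-(k : ℤ)) j (X ^ p) - can th UU (-(k : ℤ)) j 1 * X ^ p)) :=
    Zt.sum _ _ fun j _ => (hA _).mul_zt (zt_can hU _ _)
  have h3 := (h1.add h2).neg (n + p) (by omega)
  have h4 := congrArg (fun f => (p : ℚ) ^ k • f) h0
  simp only [smul_add, smul_smul, mul_inv_cancel₀ (pow_ne_zero k hp0), one_smul, smul_zero] at h4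
  have h5 : -((p : ℚ) ^ k • (∑ j : Fin 2, a (.inl j) * can th UU (-1) j 1 +
      ∑ j : Fin (k + 1), a (.inr j) * can th UU (-(k : ℤ)) j W) + ∑ j : Fin (k + 1), a (.inr j) *
      (can th UU (-(k : ℤ)) j (X ^ p) - can th UU (-(k : ℤ)) j 1 * X ^ p)) =
      (∑ j : Fin (k + 1), a (.inr j) * can th UU (-(k : ℤ)) j 1) * X ^ p := by
    simp only [mul_sub, sum_sub_distrib, sum_mul, mul_assoc, smul_add]
    linear_combination -h4
  rw [h5, coeff_mul_X_pow, ← hx] at h3
  have h6 := rat_le (p := p) x⁻¹ (by omega)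
  have h7 := mul_lt_one_of_nonneg_of_lt_one_left (padicNorm.nonneg _) h3 h6
  rw [← padicNorm.mul, mul_inv_cancel₀ hn, padicNorm.one] at h7
  exact lt_irrefl _ h7

end Pool.Agent.MP_3924c3_nt.BK

end
end

section

open Finset Filter Topology PowerSeries

noncomputable section

namespace Pool.Agent.MP_3924c3_nt.BK

namespace V1

theorem cast_eq (hRed : MP_384f6f_nt.NW.StRed) {p : ℕ} [Fact p.Prime] {x y : ℚ}
    (hy : padicNorm p y ≤ 1) (h : padicNorm p (x - y) < 1) : (x : ZMod p) = (y : ZMod p) := by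
  obtain ⟨z, rfl⟩ : ∃ z, x = y + z := ⟨x - y, by ring⟩
  rw [add_sub_cancel_left] at h
  have h1 : padicNorm p (z.num : ℚ) < 1 := by
    rw [← Rat.mul_den_eq_num, padicNorm.mul]
    exact mul_lt_one_of_nonneg_of_lt_one_left (padicNorm.nonneg _) h (padicNorm.of_nat _)
  have h2 : ((z.num : ℤ) : ZMod p) = 0 :=
    (ZMod.intCast_zmod_eq_zero_iff_dvd _ _).2 ((padicNorm.int_lt_one_iff _).1 h1)
  rw [(hRed p y z hy h.le).1, Rat.cast_def z, h2, zero_div, add_zero]

/-- row multipliers -/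
def gm (k p : ℕ) : JJ k → ℚ := Sum.elim (fun _ => 1) fun _ => (p : ℚ) ^ k

theorem prod_gm (k D p : ℕ) : ∏ r : Ix k D, gm k p r.1 = (p : ℚ) ^ (k * (k + 1) * D) := by
  rw [Fintype.prod_prod_type, Fintype.prod_sum_type]
  simp only [gm, Sum.elim_inl, Sum.elim_inr, prod_const, one_pow, one_mul, card_univ,
    Fintype.card_fin, ← pow_mul]
  congr 1
  ring

/-- chosen coefficients of a product -/
def ph {ι : Type} (c : ι → ℕ) (H : PS) : PS →ₗ[ℚ] (ι → ℚ) where
  toFun f := fun s => coeff (c s) (f * H)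
  map_add' f g := by funext s; simp [add_mul]
  map_smul' a f := by funext s; simp

end V1

open V1

theorem s_V1 (hR0 : StRow0) (hR2 : StRow2) (hDim : StDim) (hRK : StRK) (hCY : StCY)
    (hG2 : MP_384f6f_nt.NW.StG2) (hRed : MP_384f6f_nt.NW.StRed) : StV1 := by
  intro M hM k D p c hk h3 hc hp hkp hN
  classical
  haveI := Fact.mk hp
  have hcs : ∀ s, c s < p ^ 2 := fun s => (hc.2 s).trans_le hN
  have hH := (hCY k p hp (by omega) hkp).2.2.1
  obtain ⟨hfin, hdim⟩ := hDim M hM (w0 k D + k * p)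
  obtain ⟨T, hT1, hT2⟩ := hRK (Ix k D) p ((M (w0 k D + k * p)).map (ph c ((p : ℚ) ^ k • YY k)))
  have hT3 : T.card ≤ rho k D (k * p) := by
    refine hT1.trans ((Submodule.finrank_map_le _ _).trans (hdim.trans ?_))
    rw [rho, w0, ← Nat.cast_mul]
    generalize k * p = x
    omega
  set B : Matrix (Ix k D) (Ix k D) ℚ :=
    Matrix.of fun r s => gm k p r.1 * coeff (c s) (row k D r) with hB
  set T1 : Finset (Ix k D → ZMod p) := (univ : Finset (Fin 2 × Fin D)).image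
    fun x s => ((B (.inl x.1, x.2) s : ℚ) : ZMod p) with hT1def
  have hT4 : T1.card ≤ 2 * D := card_image_le.trans (by simp)
  have hB1 : ∀ r s, padicNorm p (B r s) ≤ 1 := by
    rintro ⟨j | j, i⟩ s
    · have := (hR0 M hM k D p (.inl j, i) hk hp hkp).2.2 rfl _ _ (hcs s)
      simpa [hB, gm] using this
    · have := (hR0 M hM k D p (.inr j, i) hk hp hkp).2.1 _ (hcs s)
      simpa [hB, gm] using this
  have hB2 : ∀ r, (fun s => ((B r s : ℚ) : ZMod p)) ∈
      Submodule.span (ZMod p) ((T ∪ T1 : Finset _) : Set (Ix k D → ZMod p)) := by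
    rintro ⟨j | j, i⟩
    · exact Submodule.subset_span (mem_coe.2 (mem_union_right _
        (mem_image.2 ⟨(j, i), mem_univ _, rfl⟩)))
    · obtain ⟨f, hf, hf1, hf2⟩ := hR2 M hM k D p (.inr j, i) hk hp hkp
      have h1 : ∀ s, padicNorm p (ph c ((p : ℚ) ^ k • YY k) f s) ≤ 1 :=
        fun s => hf1.mul hH _ (hcs s)
      have h2 := hT2 _ (Submodule.mem_map_of_mem hf) h1
      have e : (fun s => ((B (.inr j, i) s : ℚ) : ZMod p)) =
          fun s => ((ph c ((p : ℚ) ^ k • YY k) f s : ℚ) : ZMod p) := by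
        funext s
        refine cast_eq hRed (h1 s) ?_
        have := hf2 _ (hcs s)
        rw [map_sub, coeff_smul, smul_eq_mul] at this
        exact this
      rw [e]
      exact Submodule.span_mono (coe_subset.2 subset_union_left) h2
  have h5 := hG2 (Ix k D) p B (T ∪ T1) hB1 hB2
  have h6 : B.det = (p : ℚ) ^ (k * (k + 1) * D) * Det k D c := by
    rw [← prod_gm, Det]
    exact Matrix.det_mul_column _ _
  have hp1 : (1 : ℚ) ≤ p := by exact_mod_cast hp.one_lt.le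
  have hp0 : (0 : ℚ) < p := by linarith
  have h7 : padicNorm p ((p : ℚ) ^ (k * (k + 1) * D)) =
      (p : ℚ) ^ (-((k * (k + 1) * D : ℕ) : ℤ)) := by
    rw [IsAbsoluteValue.abv_pow (padicNorm p), padicNorm.padicNorm_p_of_prime, zpow_neg,
      zpow_natCast, inv_pow]
  rw [h6, padicNorm.mul, h7, ← le_div_iff₀' (zpow_pos hp0 _), ← zpow_sub₀ hp0.ne'] at h5
  refine h5.trans (zpow_le_zpow_right₀ hp1 ?_)
  have h8 := card_union_le T T1
  have h9 : ((T ∪ T1).card : ℤ) ≤ rho k D (k * p) + 2 * D := by omega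
  rw [card_Ix, b1]
  push_cast
  linarith

end Pool.Agent.MP_3924c3_nt.BK

end
end

section

/-! Majorant norms of `E₄` and of the divisor sum series. -/

open Finset Filter Topology PowerSeries

noncomputable section

namespace Pool.Agent.MP_3924c3_nt.BK

namespace ME

theorem pow_four_le (n : ℕ) (h : 12 ≤ n) : n ^ 4 ≤ 8 * 2 ^ n := by
  induction n, h using Nat.le_induction with
  | base => norm_num
  | succ n hn ih =>
    have h1 : 12 * n ^ 3 ≤ n ^ 4 := by rw [pow_succ' n 3]; exact Nat.mul_le_mul_right _ hn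
    have h2 : n ^ 2 ≤ n ^ 3 := Nat.pow_le_pow_right (by omega) (by omega)
    have h3 : n ^ 1 ≤ n ^ 3 := Nat.pow_le_pow_right (by omega) (by omega)
    have h4 : n ^ 0 ≤ n ^ 3 := Nat.pow_le_pow_right (by omega) (by omega)
    have h5 : (n + 1) ^ 4 = n ^ 4 + 4 * n ^ 3 + 6 * n ^ 2 + 4 * n ^ 1 + n ^ 0 := by ring
    have h6 : 12 * n ^ 2 ≤ n ^ 3 := by rw [pow_succ' n 2]; exact Nat.mul_le_mul_right _ hn
    rw [pow_succ 2 n]
    omega

/-- divisor sums -/
def sg (a n : ℕ) : ℕ := ∑ d ∈ n.divisors, d ^ a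

theorem sg_le {a n : ℕ} (ha : a ≤ 3) (h : 12 ≤ n) : sg a n ≤ 8 * 2 ^ n := by
  refine le_trans ?_ (pow_four_le n h)
  have h1 : sg a n ≤ n.divisors.card • n ^ 3 :=
    sum_le_card_nsmul _ _ _ fun d hd =>
      (Nat.pow_le_pow_left (Nat.divisor_le hd) a).trans (Nat.pow_le_pow_right (by omega) ha)
  rw [smul_eq_mul] at h1
  rw [pow_succ' n 3]
  exact h1.trans (Nat.mul_le_mul_right _ (Nat.card_divisors_le_self n))

theorem tail {a : ℕ} (ha : a ≤ 3) (N : ℕ) :
    ∑ n ∈ range N, (sg a n : ℝ) / 10 ^ n ≤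
      ∑ n ∈ range 12, (sg a n : ℝ) / 10 ^ n + 10 / 5 ^ 12 := by
  rcases le_total N 12 with h | h
  · refine le_trans (sum_le_sum_of_subset_of_nonneg (range_mono h) fun n _ _ => by positivity) ?_
    exact le_add_of_nonneg_right (by positivity)
  · have key : ∑ n ∈ range N, (sg a n : ℝ) / 10 ^ n + 10 / 5 ^ N ≤
        ∑ n ∈ range 12, (sg a n : ℝ) / 10 ^ n + 10 / 5 ^ 12 := by
      induction N, h using Nat.le_induction with
      | base => exact le_rfl
      | succ n hn ih =>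
        have h1 : (sg a n : ℝ) ≤ 8 * 2 ^ n := by exact_mod_cast sg_le ha hn
        have h2 : (sg a n : ℝ) / 10 ^ n ≤ 8 / 5 ^ n := by
          rw [div_le_div_iff₀ (by positivity) (by positivity),
            show (10 : ℝ) = 2 * 5 by norm_num, mul_pow, ← mul_assoc]
          exact mul_le_mul_of_nonneg_right h1 (by positivity)
        have h3 : (10 : ℝ) / 5 ^ (n + 1) + 8 / 5 ^ n = 10 / 5 ^ n := by
          rw [pow_succ]; field_simp; norm_num
        rw [sum_range_succ]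
        linarith
    exact le_trans (le_add_of_nonneg_right (by positivity)) key

theorem val3 : ∀ n < 12, sg 3 n = [0, 1, 9, 28, 73, 126, 252, 344, 585, 757, 1134, 1332].getD n 0 := by
  decide

theorem val1 : ∀ n < 12, sg 1 n = [0, 1, 3, 4, 7, 6, 12, 8, 15, 13, 18, 12].getD n 0 := by
  decide

theorem sum3 : ∑ n ∈ range 12, (sg 3 n : ℝ) / 10 ^ n ≤ 22686 / 100000 := by
  rw [sum_congr rfl fun n hn => by rw [val3 n (mem_range.1 hn)]]
  simp only [sum_range_succ, range_zero, sum_empty, List.getD_cons_succ, List.getD_cons_zero]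
  norm_num

theorem sum1 : ∑ n ∈ range 12, (sg 1 n : ℝ) / 10 ^ n ≤ 134775 / 1000000 := by
  rw [sum_congr rfl fun n hn => by rw [val1 n (mem_range.1 hn)]]
  simp only [sum_range_succ, range_zero, sum_empty, List.getD_cons_succ, List.getD_cons_zero]
  norm_num

theorem ber4 : bernoulli 4 = -1 / 30 := by
  rw [bernoulli_eq_bernoulli'_of_ne_one (by decide), bernoulli'_four]

theorem coeff_E4 (n : ℕ) :
    |((coeff n E4 : ℚ) : ℝ)| / 10 ^ n = (if n = 0 then 1 else 0) + 240 * ((sg 3 n : ℝ) / 10 ^ n) := by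
  rw [E4, coeff_smul, Gs, coeff_mk, smul_eq_mul]
  split_ifs with h
  · subst h
    rw [ber4]
    norm_num [sg]
  · have : (((240 * ∑ d ∈ n.divisors, (d : ℚ) ^ (4 - 1) : ℚ)) : ℝ) = 240 * (sg 3 n : ℝ) := by
      simp [sg]
    rw [this, abs_of_nonneg (by positivity), zero_add, mul_div_assoc]

end ME

open ME in
theorem s_ME : StME := by
  refine ⟨fun N => ?_, fun N => ?_⟩
  · simp only [coeff_E4]
    rw [sum_add_distrib, ← mul_sum, sum_ite_eq']
    have h1 := tail (a := 3) le_rfl N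
    have h2 := sum3
    have h3 : (if 0 ∈ range N then (1 : ℝ) else 0) ≤ 1 := by split_ifs <;> norm_num
    have h4 : (10 : ℝ) / 5 ^ 12 ≤ 1 / 1000000 := by norm_num
    linarith
  · have h1 := tail (a := 1) (by norm_num) N
    have h2 := sum1
    have h4 : (10 : ℝ) / 5 ^ 12 ≤ 1 / 1000000 := by norm_num
    have h5 : ∑ n ∈ range N, (∑ d ∈ n.divisors, (d : ℝ)) / 10 ^ n =
        ∑ n ∈ range N, (sg 1 n : ℝ) / 10 ^ n := by simp [sg]
    linarith

end Pool.Agent.MP_3924c3_nt.BK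

end
end

section

/-! Assembly. -/

noncomputable section

namespace Pool.Agent.MP_3924c3_nt.BK

open MP_384f6f_nt

theorem a_Mod : StMod := s_Mod s_R1 s_R2 (s_R4 s_R2) (s_R5 s_B) s_R6 (s_R7 s_R1 s_R3 s_R6)
  (s_R8 s_R1 s_R2 s_R6) s_Int

theorem a_Z : StZ :=
  s_Z (s_Z1 (s_ZE s_Ind) (s_Sys s_C) s_Ok s_F1 (s_F2 s_Int) (s_LI s_Ok)) (s_Z2 (s_ZE s_Ind))
    (s_Mu s_Int) (s_Bs s_Int)

theorem a_R0 : StRow0 := s_Row0 s_Int (s_Mu s_Int) s_CY

theorem a_R1 : StRow1 := s_Row1 s_C s_Int (s_Mu s_Int) (s_CA s_B) s_CY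

theorem a_R2 : StRow2 := s_Row2 s_C s_Int (s_Mu s_Int) (s_CA s_B) s_CY

theorem a_V0 : StV0 := s_V0 s_Int (s_Mu s_Int) a_R0 NW.stG1

theorem a_V1 : StV1 := s_V1 a_R0 a_R2 s_Dim s_RK s_CY (NW.stG2 NW.stRed) NW.stRed

theorem a_V2 : StV2 := s_V2 a_R0 a_R1 a_R2 s_Dim s_RK s_CY (NW.stG2 NW.stRed) NW.stRed

theorem a_A : StA := s_A (s_A0 s_Mj s_ME (s_TD s_Int) (s_MD s_Int s_ME) (s_MR s_Mj))

theorem a_PN : StPN := s_PN NW.stT (NW.stT1 NW.stT)

theorem den3 : StDen 3 (1 / 61) :=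
  s_Den3 (s_Fin3 a_Mod a_Z s_Min a_V0 a_V1 a_V2 a_A NW.stPF (s_Sum3 a_PN s_Sm))

theorem den5 : StDen 5 (1 / 337) :=
  s_Den5 (s_Fin5 a_Mod a_Z s_Min a_V0 a_V1 a_V2 a_A NW.stPF (s_Sum5 a_PN s_Sm))

open Filter in
theorem inf_of_den {k : ℕ} {c : ℝ} (hc : 0 < c) (h : StDen k c) (N : ℕ) :
    ∃ p > N, p.Prime ∧ ¬ Hyp k p := by
  by_contra hn
  push Not at hn
  have h1 : Tendsto (fun x : ℕ => c * x / Real.log x) atTop atTop := by
    have h2 : Tendsto (fun x : ℝ => Real.log x / x) atTop (nhds 0) := by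
      simpa using Real.tendsto_pow_log_div_mul_add_atTop 1 0 1 one_ne_zero
    have h3 : Tendsto (fun x : ℝ => Real.log x / x) atTop (nhdsWithin 0 (Set.Ioi 0)) :=
      tendsto_nhdsWithin_iff.2 ⟨h2, by
        filter_upwards [eventually_gt_atTop 1] with x hx
        exact div_pos (Real.log_pos hx) (by linarith)⟩
    have h4 := ((tendsto_inv_nhdsGT_zero.comp h3).const_mul_atTop hc).comp
      tendsto_natCast_atTop_atTop
    refine h4.congr fun x => ?_
    simp [mul_div_assoc]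
  obtain ⟨x, hx, hx'⟩ := (h.and (h1.eventually_gt_atTop N)).exists
  have : ((Finset.Ioc 0 x).filter fun p => p.Prime ∧ ¬ Hyp k p).card ≤ N := by
    refine (Finset.card_le_card (t := Finset.Ioc 0 N) fun p hp => ?_).trans (by simp)
    obtain ⟨a, b, d⟩ := Finset.mem_filter.1 hp
    refine Finset.mem_Ioc.2 ⟨b.pos, ?_⟩
    by_contra e
    exact d (hn p (by omega) b)
  have h5 : ((((Finset.Ioc 0 x).filter fun p => p.Prime ∧ ¬ Hyp k p).card : ℕ) : ℝ) ≤ N := by
    exact_mod_cast this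
  linarith

theorem inf3 (N : ℕ) : ∃ p > N, p.Prime ∧ ¬ Hyp 3 p := inf_of_den (by norm_num) den3 N

theorem inf5 (N : ℕ) : ∃ p > N, p.Prime ∧ ¬ Hyp 5 p := inf_of_den (by norm_num) den5 N

end Pool.Agent.MP_3924c3_nt.BK

end
end

section

/-! The series with a constant term added: definitions, valuations, zero estimate. -/

open Finset Filter Topology PowerSeries

noncomputable section

namespace Pool.Agent.MP_3924c3_nt.BK.I

/-- the rational number that is excluded -/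
class Cst where
  c : ℚ

variable [Cst]

/-- its denominator -/
def dn : ℕ := Cst.c.den

/-- the constant term -/
def ka (k : ℕ) : ℚ := Cst.c / (2 * k)

def YY (k : ℕ) : PS := BK.YY k + C (ka k)

def ee (k : ℕ) : JJ k → PS := sol th UU k (YY k) 1

def row (k D : ℕ) (r : Ix k D) : PS := mu k D r * ee k r.1

def Det (k D : ℕ) (c : Ix k D → ℕ) : ℚ :=
  (Matrix.of fun r s : Ix k D => coeff (c s) (row k D r)).det

def StZ1 : Prop := ∀ M, Mod M → ∀ (k : ℕ) (w : ℤ) (a : JJ k → PS), Odd k → 3 ≤ k →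
  (∀ j, a j ∈ M (w - wt k j)) → (∀ j, BD (a j)) → (fun j => a (.inr j)) ≠ 0 →
  ∃ n : ℕ, coeff n (∑ j, a j * ee k j) ≠ 0 ∧ 12 * (n : ℤ) ≤ (k + 3) * w + (k + 3) * (k + 2)

def StZ : Prop := ∀ M, Mod M → ∀ (k D : ℕ) (c : Ix k D → ℚ), Odd k → 3 ≤ k →
  (∀ n < NN k D, ∑ r, c r * coeff n (row k D r) = 0) → c = 0

/-- `p` divides `B_(p-k) - c` -/
def Hyp (k p : ℕ) : Prop := (p : ℤ) ∣ (bernoulli (p - k) - Cst.c).num

instance (k p : ℕ) : Decidable (Hyp k p) := by unfold Hyp; infer_instance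

def StCY : Prop := ∀ k p : ℕ, p.Prime → 1 ≤ k → k + 4 + dn ≤ p →
  It p p (YY k) ∧ (Hyp k p → It p p (Gs (p - k)) ∧ Zt p p (YY k - Gs (p - k))) ∧
  It p (p ^ 2) ((p : ℚ) ^ k • YY k) ∧ Zt p (p ^ 2) (th ((p : ℚ) ^ k • YY k))

def StRow0 : Prop := ∀ M, Mod M → ∀ (k D p : ℕ) (r : Ix k D), Odd k → p.Prime → k + 4 + dn ≤ p →
  It p p (row k D r) ∧ It p (p ^ 2) ((p : ℚ) ^ k • row k D r) ∧
  (r.1.isLeft → ∀ N, It p N (row k D r))

def StRow1 : Prop := ∀ M, Mod M → ∀ (k D p : ℕ) (r : Ix k D), Odd k → p.Prime → k + 4 + dn ≤ p →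
  Hyp k p → ∃ f ∈ M (w0 k D + p), It p p f ∧ Zt p p (row k D r - f)

def StRow2 : Prop := ∀ M, Mod M → ∀ (k D p : ℕ) (r : Ix k D), Odd k → p.Prime → k + 4 + dn ≤ p →
  ∃ f ∈ M (w0 k D + k * p), It p (p ^ 2) f ∧
    Zt p (p ^ 2) ((p : ℚ) ^ k • row k D r - f * ((p : ℚ) ^ k • YY k))

def r1 (k D p : ℕ) : ℕ := if Hyp k p then rho k D p else (k + 3) * D

def b2 (k D p : ℕ) : ℤ := (k + 3) * D - r1 k D p - rho k D (k * p) - k * (NN k D - p : ℕ)

def b3 (k D p : ℕ) : ℤ := (k + 3) * D - r1 k D p - (k + 1) * (NN k D - p : ℕ)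

def StV0 : Prop := ∀ M, Mod M → ∀ (k D p : ℕ) (c : Ix k D → ℕ), Odd k → Adm k D c → p.Prime →
  (2 * k * dn ≤ NN k D → padicNorm p (Det k D c) ≤ (p : ℚ) ^ (-b0 k D p)) ∧
  (k + 4 + dn ≤ p → NN k D ≤ p → padicNorm p (Det k D c) ≤ 1)

def StV1 : Prop := ∀ M, Mod M → ∀ (k D p : ℕ) (c : Ix k D → ℕ), Odd k → 3 ≤ k → Adm k D c →
  p.Prime → k + 4 + dn ≤ p → NN k D ≤ p ^ 2 → padicNorm p (Det k D c) ≤ (p : ℚ) ^ (-b1 k D p)

def StV2 : Prop := ∀ M, Mod M → ∀ (k D p : ℕ) (c : Ix k D → ℕ), Odd k → 3 ≤ k → Adm k D c →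
  p.Prime → k + 4 + dn ≤ p → NN k D ≤ p ^ 2 → padicNorm p (Det k D c) ≤ (p : ℚ) ^ (-b2 k D p) ∧
    padicNorm p (Det k D c) ≤ (p : ℚ) ^ (-b3 k D p)

/-- the exponent used at `p`, with the cut `x` -/
def bet (k x D p : ℕ) : ℤ := if p ^ 2 < NN k D ∨ p < k + 4 then b0 k D p
  else if p ≤ 2 * D then b1 k D p else if p ≤ x * D then b2 k D p else b3 k D p

/-- `Σ log p` over the primes not dividing `B_(p-k)` -/
def Ex (k D : ℕ) : ℝ := ∑ p ∈ (PP k D).filter (fun p => ¬ Hyp k p), Real.log p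

def StSum (k x : ℕ) (I : ℝ) : Prop := ∀ᶠ D : ℕ in atTop,
  I * (D : ℝ) ^ 2 - (k + 3) * D * Ex k D ≤ ∑ p ∈ PP k D, (bet k x D p : ℝ) * Real.log p

def StMR : Prop := ∀ k : ℕ, ∃ K : ℝ, 1 ≤ K ∧ ∀ j : JJ k, Maj (gw (gwt k j) * ee k j) K

def StA0 : Prop := ∀ M, Mod M → ∀ k : ℕ, ∃ K : ℝ, 1 ≤ K ∧ ∀ (D : ℕ) (c : Ix k D → ℕ),
  |(Det k D c : ℝ)| ≤ (((k + 3) * D).factorial : ℝ) * K ^ ((k + 3) * D) *
    250000 ^ ((k + 3) * (D * (D - 1) / 2)) * 10 ^ (∑ s, c s)

def StA : Prop := ∀ M, Mod M → ∀ (k : ℕ) (ε : ℝ), 0 < ε → ∀ᶠ D : ℕ in atTop,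
  ∀ c : Ix k D → ℕ, Adm k D c → Det k D c ≠ 0 → Real.log |(Det k D c : ℝ)| ≤
    ((k + 3) / 2 * Real.log (10 ^ (k + 3) * 250000) + ε) * (D : ℝ) ^ 2

def StFin (k : ℕ) (δ : ℝ) : Prop := ∀ᶠ D : ℕ in atTop, δ * D ≤ Ex k D

def StDen (k : ℕ) (c : ℝ) : Prop := ∀ᶠ x : ℕ in atTop,
  c * x / Real.log x ≤ (((Ioc 0 x).filter fun p => p.Prime ∧ ¬ Hyp k p).card : ℝ)

theorem ka_den {k : ℕ} (hk : 1 ≤ k) : (ka k).den ∣ 2 * k * dn := by
  have h := Rat.mul_den_dvd Cst.c (((2 * k : ℕ) : ℚ)⁻¹)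
  rw [Rat.inv_natCast_den_of_pos (by omega), mul_comm Cst.c.den] at h
  have e : ka k = Cst.c * (((2 * k : ℕ) : ℚ)⁻¹) := by
    rw [ka, div_eq_mul_inv]
    push_cast
    rfl
  rwa [e]

theorem dn_pos : 0 < dn := Cst.c.den_pos

theorem th_C (a : ℚ) : th (C a) = 0 := by
  ext n
  rw [coeff_th, coeff_C]
  split_ifs with h <;> simp [h]

theorem s_CY : StCY := by
  intro k p hp hk hkp
  have : Fact p.Prime := ⟨hp⟩
  have hd := dn_pos
  obtain ⟨h1, -, h3, h4⟩ := BK.s_CY k p hp hk (by omega)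
  have hc : padicNorm p Cst.c ≤ 1 := F2.rat_le _ (by unfold dn at hkp; omega)
  have hn : ∀ m : ℕ, 0 < m → m < p → padicNorm p ((2 : ℚ) * m) = 1 := fun m m0 mp => by
    have h1 : ¬ p ∣ 2 * m := fun h' => by
      rcases (Nat.Prime.dvd_mul hp).1 h' with h' | h' <;>
        have := Nat.le_of_dvd (by omega) h' <;> omega
    exact_mod_cast (padicNorm.nat_eq_one_iff (p := p) _).2 h1
  have hka : padicNorm p (ka k) ≤ 1 := by
    rw [ka, padicNorm.div, hn k hk (by omega), div_one]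
    exact hc
  have hpk : padicNorm p ((p : ℚ) ^ k) ≤ 1 := Row.nrm p k
  refine ⟨h1.add (F2.it_C _ hka), fun h => ?_, ?_, ?_⟩
  · have h2 : ¬ p ∣ (bernoulli (p - k) - Cst.c).den := fun h' => by
      have h3 := Nat.dvd_gcd (Int.natCast_dvd.1 h) h'
      rw [(bernoulli (p - k) - Cst.c).reduced.gcd_eq_one] at h3
      exact hp.one_lt.ne' (Nat.dvd_one.1 h3)
    have h5 : padicNorm p (bernoulli (p - k) - Cst.c) < 1 := by
      rw [← Rat.num_div_den (bernoulli (p - k) - Cst.c), padicNorm.div,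
        (padicNorm.nat_eq_one_iff _).2 h2, div_one, padicNorm.int_lt_one_iff]
      exact h
    have h6 : padicNorm p (bernoulli (p - k)) ≤ 1 := by
      rw [← sub_add_cancel (bernoulli (p - k)) Cst.c]
      exact padicNorm.nonarchimedean.trans (max_le h5.le hc)
    have h7 := hn (p - k) (by omega) (by omega)
    refine ⟨fun n _ => ?_, fun n hn' => ?_⟩
    · rw [Gs, coeff_mk]
      split_ifs
      · rw [padicNorm.div, padicNorm.neg, h7, div_one]
        exact h6
      · refine padicNorm.sum_le' (fun d _ => ?_) zero_le_one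
        exact_mod_cast padicNorm.of_nat (p := p) (d ^ (p - k - 1))
    · rw [map_sub, YY, map_add, BK.YY, Gs, coeff_mk, coeff_mk, coeff_C]
      split_ifs with h0
      · have k0 : (k : ℚ) ≠ 0 := by positivity
        have k1 : ((p - k : ℕ) : ℚ) ≠ 0 := Nat.cast_ne_zero.2 (by omega)
        have e : ka k - -bernoulli (p - k) / (2 * ((p - k : ℕ) : ℚ)) =
            (bernoulli (p - k) - Cst.c) / (2 * ((p - k : ℕ) : ℚ)) +
              (p : ℚ) * (2 * ka k / (2 * ((p - k : ℕ) : ℚ))) := by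
          have e1 : (p : ℚ) = ((p - k : ℕ) : ℚ) + k := by
            rw [Nat.cast_sub (by omega)]
            ring
          generalize bernoulli (p - k) = b
          rw [e1, ka]
          generalize ((p - k : ℕ) : ℚ) = x at k1 ⊢
          field_simp
          ring
        rw [h0, Nat.divisors_zero, sum_empty, zero_add, e]
        refine padicNorm.nonarchimedean.trans_lt (max_lt ?_ ?_)
        · rwa [padicNorm.div, h7, div_one]
        · rw [padicNorm.mul, padicNorm.div, h7, div_one, padicNorm.mul]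
          exact mul_lt_one_of_nonneg_of_lt_one_left (padicNorm.nonneg _)
            padicNorm.padicNorm_p_lt_one_of_prime
            (mul_le_one₀ (by exact_mod_cast padicNorm.of_nat (p := p) 2) (padicNorm.nonneg _) hka)
      · rw [add_zero, ← sum_sub_distrib]
        exact padicNorm.sum_lt' (fun d hd =>
          CY.fermat (Nat.pos_of_mem_divisors hd) (CY.small hn' hd) (by omega)) zero_lt_one
  · rw [YY, smul_add]
    exact h3.add ((F2.it_C _ hka).smul hpk)
  · rw [YY, smul_add, map_add, Derivation.map_smul th _ (C _), th_C, smul_zero, add_zero]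
    exact h4


theorem s_Row0 (hI : StInt) (hMu : StMu) (hCY : StCY) : StRow0 := by
  intro M hM k D p r hk hp hkp
  haveI : Fact p.Prime := ⟨hp⟩
  have hk1 : 1 ≤ k := hk.pos
  have h5 : 5 ≤ p := by omega
  have hmu := (hMu M hM k D hk r).2
  obtain ⟨hY, -, hH, -⟩ := hCY k p hp hk1 hkp
  obtain ⟨j | j, i⟩ := r
  · have h : ∀ N, It p N (row k D (.inl j, i)) := fun N =>
      (hmu.it p N).mul (It.can (it_UU hI h5) It.one _ _)
    exact ⟨h _, (h _).smul (Row.nrm p k), fun _ => h⟩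
  · refine ⟨(hmu.it p _).mul (It.can (it_UU hI h5) hY _ _), ?_, fun h => by simp at h⟩
    have e : (p : ℚ) ^ k • row k D (.inr j, i) =
        mu k D (.inr j, i) * can th UU (-(k : ℤ)) j ((p : ℚ) ^ k • YY k) := by
      rw [can_smul, mul_smul_comm]; rfl
    rw [e]
    exact (hmu.it p _).mul (It.can (it_UU hI h5) hH _ _)

theorem s_Row1 (hC : StC) (hI : StInt) (hMu : StMu) (hCA : StCA) (hCY : StCY) : StRow1 := by
  intro M hM k D p r hk hp hkp hyp
  haveI : Fact p.Prime := ⟨hp⟩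
  have hk1 : 1 ≤ k := hk.pos
  have h5 : 5 ≤ p := by omega
  obtain ⟨hmM, hmu⟩ := hMu M hM k D hk r
  obtain ⟨-, hG, -, -⟩ := hCY k p hp hk1 hkp
  obtain ⟨hG1, hG2⟩ := hG hyp
  obtain ⟨A, hAM, hA1, hA2⟩ := hCA M hM p p hp h5
  have hU : It p p UU := it_UU hI h5
  obtain ⟨j | j, i⟩ := r
  · refine ⟨mu k D (.inl j, i) * can th UU ((p : ℤ) - 1) j A,
      hM.mul' hmM (hM.can hC hAM j) (by simp only [wt]; ring),
      (hmu.it p _).mul (It.can hU hA1 _ _), ?_⟩
    have e : row k D (.inl j, i) - mu k D (.inl j, i) * can th UU ((p : ℤ) - 1) j A =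
        mu k D (.inl j, i) * (can th UU (-1) j 1 - can th UU ((p : ℤ) - 1) j A) := by
      rw [mul_sub]; rfl
    rw [e]
    refine (hmu.it p _).mul_zt (Zt.can_sub hU hA1 ?_ ⟨-1, by ring⟩ _)
    simpa using hA2.neg
  · have hodd : Odd p := hp.odd_of_ne_two (by omega)
    have hev : Even (p - k) := Nat.Odd.sub_odd hodd hk
    have hGM := hM.eis (p - k) (by omega) hev
    have hc : ((p - k : ℕ) : ℤ) = (p : ℤ) - k := by omega
    refine ⟨mu k D (.inr j, i) * can th UU ((p - k : ℕ) : ℤ) j (Gs (p - k)),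
      hM.mul' hmM (hM.can hC hGM j) (by simp only [wt, hc]; ring),
      (hmu.it p _).mul (It.can hU hG1 _ _), ?_⟩
    have e : row k D (.inr j, i) -
        mu k D (.inr j, i) * can th UU ((p - k : ℕ) : ℤ) j (Gs (p - k)) =
        mu k D (.inr j, i) * (can th UU (-(k : ℤ)) j (YY k) -
          can th UU ((p - k : ℕ) : ℤ) j (Gs (p - k))) := by
      rw [mul_sub]; rfl
    rw [e]
    exact (hmu.it p _).mul_zt (Zt.can_sub hU hG1 hG2 ⟨-1, by rw [hc]; ring⟩ _)

theorem s_Row2 (hC : StC) (hI : StInt) (hMu : StMu) (hCA : StCA) (hCY : StCY) : StRow2 := by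
  intro M hM k D p r hk hp hkp
  haveI : Fact p.Prime := ⟨hp⟩
  have hk1 : 1 ≤ k := hk.pos
  have h5 : 5 ≤ p := by omega
  obtain ⟨hmM, hmu⟩ := hMu M hM k D hk r
  obtain ⟨-, -, hH, hH'⟩ := hCY k p hp hk1 hkp
  obtain ⟨A, hAM, hA1, hA2⟩ := hCA M hM p (p ^ 2) hp h5
  have hU : It p (p ^ 2) UU := it_UU hI h5
  obtain ⟨j | j, i⟩ := r
  · refine ⟨0, zero_mem _, Zt.zero.it, ?_⟩
    rw [zero_mul, sub_zero]
    exact It.smul_zt (Row.nrm_lt p k hk1) ((hmu.it p _).mul (It.can hU It.one _ _))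
  · refine ⟨mu k D (.inr j, i) * can th UU ((k : ℤ) * ((p : ℤ) - 1)) j (A ^ k),
      hM.mul' hmM (hM.can hC (hM.pow hAM k) j) (by simp only [wt]; ring),
      (hmu.it p _).mul (It.can hU (hA1.pow k) _ _), ?_⟩
    have e0 : (p : ℚ) ^ k • row k D (.inr j, i) =
        mu k D (.inr j, i) * can th UU (-(k : ℤ)) j ((p : ℚ) ^ k • YY k) := by
      rw [can_smul, mul_smul_comm]; rfl
    rw [e0]
    set H : PS := (p : ℚ) ^ k • YY k
    have e : mu k D (.inr j, i) * can th UU (-(k : ℤ)) j H -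
        mu k D (.inr j, i) * can th UU ((k : ℤ) * ((p : ℤ) - 1)) j (A ^ k) * H =
        mu k D (.inr j, i) * ((can th UU (-(k : ℤ)) j H - can th UU (-(k : ℤ)) j 1 * H) +
          (can th UU (-(k : ℤ)) j 1 - can th UU ((k : ℤ) * ((p : ℤ) - 1)) j (A ^ k)) * H) := by
      ring
    rw [e]
    refine (hmu.it p _).mul_zt ((Row.can_diff hU hH' _ _).add (Zt.mul_it ?_ hH))
    refine Zt.can_sub hU (hA1.pow k) ?_ ⟨-k, by ring⟩ _
    simpa using (Zt.pow_sub_one hA1 hA2 k).neg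

theorem it_Y {p N k : ℕ} [hp : Fact p.Prime] (hk : 1 ≤ k) (hN : 2 * k * dn ≤ N) :
    It p N (((p : ℚ) ^ Nat.log p N) ^ k • YY k) := by
  rw [YY, smul_add]
  refine (V0.it_Y k).add fun n _ => ?_
  have hd := dn_pos
  have h1 : padicValNat p (ka k).den ≤ Nat.log p N * k :=
    ((padicValNat_le_nat_log _).trans (Nat.log_mono_right
      ((Nat.le_of_dvd (by positivity) (ka_den hk)).trans hN))).trans
      (Nat.le_mul_of_pos_right _ hk)
  rw [coeff_smul, coeff_C]
  split_ifs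
  · rw [smul_eq_mul, ← pow_mul, ← Rat.num_div_den (ka k), ← mul_div_assoc, mul_div_right_comm,
      padicNorm.mul]
    exact mul_le_one₀ (V0.div_le (ka k).den_nz h1) (padicNorm.nonneg _) (padicNorm.of_int _)
  · simp

theorem s_V0 (hI : StInt) (hMu : StMu) (hR0 : StRow0) (hG1 : MP_384f6f_nt.NW.StG1) : StV0 := by
  intro M hM k D p c hk hc hp
  have := Fact.mk hp
  refine ⟨fun hN => ?_, fun h1 h2 => ?_⟩
  · have hpw : ∀ e : ℕ, padicNorm p ((p : ℚ) ^ e) ≤ 1 := fun e => by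
      exact_mod_cast padicNorm.of_nat (p := p) (p ^ e)
    have he : ∀ j : JJ k, It p (NN k D)
        ((((p : ℚ) ^ 2) ^ k * ((p : ℚ) ^ Nat.log p (NN k D)) ^ k) • ee k j) := fun j => by
      rcases j with j | j
      · refine V0.it_can (hpw 2) (V0.it_U hI) (It.one.smul ?_) _ ?_
        · rw [← pow_mul]
          exact hpw _
        · have := hk.pos
          omega
      · exact V0.it_can (hpw 2) (V0.it_U hI) (it_Y hk.pos hN) _ (by omega)
    refine (hG1 (Ix k D) p _ (fun _ => (p : ℚ) ^ (2 * k + k * Nat.log p (NN k D))) (fun _ => 1) hp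
      fun r s => ?_).trans_eq ?_
    · rw [mul_one, Matrix.of_apply]
      refine V0.le_pow ?_ (hc.2 s)
      rw [row, ← mul_smul_comm, pow_add, pow_mul, mul_comm k, pow_mul]
      exact ((hMu M hM k D hk r).2.it p _).mul (he r.1)
    · rw [prod_const_one, mul_one, prod_const, card_univ, card_Ix, b0, neg_neg, zpow_natCast,
        ← pow_mul, mul_comm]
  · refine (hG1 (Ix k D) p _ (fun _ => 1) (fun _ => 1) hp fun r s => ?_).trans_eq (by simp)
    rw [mul_one, Matrix.of_apply]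
    exact (hR0 M hM k D p r hk hp h1).1 _ ((hc.2 s).trans_le h2)

open V1 in
theorem s_V1 (hR0 : StRow0) (hR2 : StRow2) (hDim : StDim) (hRK : StRK) (hCY : StCY)
    (hG2 : MP_384f6f_nt.NW.StG2) (hRed : MP_384f6f_nt.NW.StRed) : StV1 := by
  intro M hM k D p c hk h3 hc hp hkp hN
  classical
  haveI := Fact.mk hp
  have hcs : ∀ s, c s < p ^ 2 := fun s => (hc.2 s).trans_le hN
  have hH := (hCY k p hp (by omega) hkp).2.2.1
  obtain ⟨hfin, hdim⟩ := hDim M hM (w0 k D + k * p)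
  obtain ⟨T, hT1, hT2⟩ := hRK (Ix k D) p ((M (w0 k D + k * p)).map (ph c ((p : ℚ) ^ k • YY k)))
  have hT3 : T.card ≤ rho k D (k * p) := by
    refine hT1.trans ((Submodule.finrank_map_le _ _).trans (hdim.trans ?_))
    rw [rho, w0, ← Nat.cast_mul]
    generalize k * p = x
    omega
  set B : Matrix (Ix k D) (Ix k D) ℚ :=
    Matrix.of fun r s => gm k p r.1 * coeff (c s) (row k D r) with hB
  set T1 : Finset (Ix k D → ZMod p) := (univ : Finset (Fin 2 × Fin D)).image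
    fun x s => ((B (.inl x.1, x.2) s : ℚ) : ZMod p) with hT1def
  have hT4 : T1.card ≤ 2 * D := card_image_le.trans (by simp)
  have hB1 : ∀ r s, padicNorm p (B r s) ≤ 1 := by
    rintro ⟨j | j, i⟩ s
    · have := (hR0 M hM k D p (.inl j, i) hk hp hkp).2.2 rfl _ _ (hcs s)
      simpa [hB, gm] using this
    · have := (hR0 M hM k D p (.inr j, i) hk hp hkp).2.1 _ (hcs s)
      simpa [hB, gm] using this
  have hB2 : ∀ r, (fun s => ((B r s : ℚ) : ZMod p)) ∈
      Submodule.span (ZMod p) ((T ∪ T1 : Finset _) : Set (Ix k D → ZMod p)) := by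
    rintro ⟨j | j, i⟩
    · exact Submodule.subset_span (mem_coe.2 (mem_union_right _
        (mem_image.2 ⟨(j, i), mem_univ _, rfl⟩)))
    · obtain ⟨f, hf, hf1, hf2⟩ := hR2 M hM k D p (.inr j, i) hk hp hkp
      have h1 : ∀ s, padicNorm p (ph c ((p : ℚ) ^ k • YY k) f s) ≤ 1 :=
        fun s => hf1.mul hH _ (hcs s)
      have h2 := hT2 _ (Submodule.mem_map_of_mem hf) h1
      have e : (fun s => ((B (.inr j, i) s : ℚ) : ZMod p)) =
          fun s => ((ph c ((p : ℚ) ^ k • YY k) f s : ℚ) : ZMod p) := by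
        funext s
        refine cast_eq hRed (h1 s) ?_
        have := hf2 _ (hcs s)
        rw [map_sub, coeff_smul, smul_eq_mul] at this
        exact this
      rw [e]
      exact Submodule.span_mono (coe_subset.2 subset_union_left) h2
  have h5 := hG2 (Ix k D) p B (T ∪ T1) hB1 hB2
  have h6 : B.det = (p : ℚ) ^ (k * (k + 1) * D) * Det k D c := by
    rw [← prod_gm, Det]
    exact Matrix.det_mul_column _ _
  have hp1 : (1 : ℚ) ≤ p := by exact_mod_cast hp.one_lt.le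
  have hp0 : (0 : ℚ) < p := by linarith
  have h7 : padicNorm p ((p : ℚ) ^ (k * (k + 1) * D)) =
      (p : ℚ) ^ (-((k * (k + 1) * D : ℕ) : ℤ)) := by
    rw [IsAbsoluteValue.abv_pow (padicNorm p), padicNorm.padicNorm_p_of_prime, zpow_neg,
      zpow_natCast, inv_pow]
  rw [h6, padicNorm.mul, h7, ← le_div_iff₀' (zpow_pos hp0 _), ← zpow_sub₀ hp0.ne'] at h5
  refine h5.trans (zpow_le_zpow_right₀ hp1 ?_)
  have h8 := card_union_le T T1
  have h9 : ((T ∪ T1).card : ℤ) ≤ rho k D (k * p) + 2 * D := by omega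
  rw [card_Ix, b1]
  push_cast
  linarith

namespace W2

/-- the scaled matrix -/
def BB (k D p : ℕ) (c : Ix k D → ℕ) : Matrix (Ix k D) (Ix k D) ℚ :=
  Matrix.of fun r s => (if c s < p then 1 else (p : ℚ) ^ k) * coeff (c s) (row k D r)

theorem det_BB (k D p : ℕ) (c : Ix k D → ℕ) : (BB k D p c).det =
    (p : ℚ) ^ (k * (univ.filter fun s => ¬ c s < p).card) * Det k D c := by
  have := Matrix.det_mul_row (fun s => if c s < p then 1 else (p : ℚ) ^ k)
    (Matrix.of fun r s : Ix k D => coeff (c s) (row k D r))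
  rw [prod_ite, prod_const_one, one_mul, prod_const, ← pow_mul] at this
  exact this

theorem card_le {k D : ℕ} (p : ℕ) {c : Ix k D → ℕ} (h : Adm k D c) :
    (univ.filter fun s => ¬ c s < p).card ≤ NN k D - p := by
  rw [← Nat.card_Ico]
  refine card_le_card_of_injOn c (fun s hs => ?_) h.1.injOn
  have := h.2 s
  simp only [coe_filter, mem_univ, true_and, Set.mem_ofPred_eq, not_lt] at hs
  simp only [coe_Ico, Set.mem_Ico]
  exact ⟨hs, this⟩

theorem fin {k D p : ℕ} [Fact p.Prime] {c : Ix k D → ℕ} {a b : ℤ}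
    (h : padicNorm p (BB k D p c).det ≤ (p : ℚ) ^ a)
    (e : a + k * (univ.filter fun s => ¬ c s < p).card ≤ b) :
    padicNorm p (Det k D c) ≤ (p : ℚ) ^ b := by
  have hp : (1 : ℚ) < p := by exact_mod_cast (Fact.out : p.Prime).one_lt
  have hp0 : (0 : ℚ) < p := by linarith
  rw [det_BB, padicNorm.mul] at h
  set n := k * (univ.filter fun s => ¬ c s < p).card with hn
  have h1 : padicNorm p ((p : ℚ) ^ n) = ((p : ℚ) ^ n)⁻¹ := by
    have := padicNorm.padicNorm_p_lt_one_of_prime (p := p)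
    rw [IsAbsoluteValue.abv_pow (padicNorm p), padicNorm.padicNorm_p_of_prime, inv_pow]
  rw [h1, inv_mul_le_iff₀ (pow_pos hp0 n), ← zpow_natCast, ← zpow_add₀ hp0.ne'] at h
  refine h.trans (zpow_le_zpow_right₀ hp.le ?_)
  rw [hn]; push_cast; linarith

end W2

open V2 hiding BB det_BB card_le fin in
open W2 in
theorem s_V2 (hR0 : StRow0) (hR1 : StRow1) (hR2 : StRow2) (hDim : StDim) (hRK : StRK)
    (hCY : StCY) (hG2 : MP_384f6f_nt.NW.StG2) (hRed : MP_384f6f_nt.NW.StRed) : StV2 := by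
  intro M hM k D p c hk h3 hc hp hkp hN
  have : Fact p.Prime := ⟨hp⟩
  have hc2 : ∀ s, c s < p ^ 2 := fun s => (hc.2 s).trans_le hN
  have hB1 : ∀ r s, c s < p → BB k D p c r s = coeff (c s) (row k D r) := fun r s h => by
    simp [BB, h]
  have hB2 : ∀ r s, ¬ c s < p → BB k D p c r s = coeff (c s) ((p : ℚ) ^ k • row k D r) :=
    fun r s h => by simp [BB, h]
  have hB : ∀ r s, padicNorm p (BB k D p c r s) ≤ 1 := fun r s => by
    obtain ⟨a1, a2, -⟩ := hR0 M hM k D p r hk hp hkp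
    by_cases h : c s < p
    · rw [hB1 r s h]; exact a1 _ h
    · rw [hB2 r s h]; exact a2 _ (hc2 s)
  -- columns below `p`
  have hT1 : ∃ T1 : Finset (Ix k D → ZMod p), T1.card ≤ r1 k D p ∧ ∀ r,
      (fun s => if c s < p then ((BB k D p c r s : ℚ) : ZMod p) else 0) ∈
        Submodule.span (ZMod p) (T1 : Set (Ix k D → ZMod p)) := by
    by_cases hH : Hyp k p
    · obtain ⟨d1, d2⟩ := hDim M hM (w0 k D + p)
      obtain ⟨T, t1, t2⟩ := span_of hRK p (M (w0 k D + p)) (L1 c p)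
      refine ⟨T, ?_, fun r => ?_⟩
      · rw [r1, if_pos hH]; exact t1.trans (d2.trans (dim_le h3))
      · obtain ⟨f, f1, f2, f3⟩ := hR1 M hM k D p r hk hp hkp hH
        have := t2 f f1 fun s => by
          change padicNorm p (if c s < p then coeff (c s) f else 0) ≤ 1
          split_ifs with h
          · exact f2 _ h
          · simp
        convert this using 2 with s
        change _ = (((if c s < p then coeff (c s) f else 0 : ℚ)) : ZMod p)
        split_ifs with h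
        · rw [hB1 r s h]
          exact cast_eq hRed (f2 _ h) (by rw [← map_sub]; exact f3 _ h)
        · simp
    · obtain ⟨T, t1, t2⟩ := span_single (K := ZMod p) (univ : Finset (Ix k D))
      refine ⟨T, ?_, fun r => t2 _ fun s hs => absurd (mem_univ s) hs⟩
      rw [r1, if_neg hH, ← card_Ix]; exact t1
  -- columns from `p` on
  have hT2 : ∃ T2 : Finset (Ix k D → ZMod p), T2.card ≤ rho k D (k * p) ∧ ∀ r,
      (fun s => if c s < p then 0 else ((BB k D p c r s : ℚ) : ZMod p)) ∈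
        Submodule.span (ZMod p) (T2 : Set (Ix k D → ZMod p)) := by
    obtain ⟨d1, d2⟩ := hDim M hM (w0 k D + k * p)
    have hH := (hCY k p hp (by omega) hkp).2.2.1
    obtain ⟨T, t1, t2⟩ := span_of hRK p (M (w0 k D + k * p)) (L2 c p ((p : ℚ) ^ k • YY k))
    refine ⟨T, ?_, fun r => ?_⟩
    · have := dim_le (D := D) (x := k * p) h3
      rw [Nat.cast_mul] at this
      exact t1.trans (d2.trans this)
    · obtain ⟨f, f1, f2, f3⟩ := hR2 M hM k D p r hk hp hkp
      have := t2 f f1 fun s => by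
        change padicNorm p (if c s < p then 0 else coeff (c s) (f * ((p : ℚ) ^ k • YY k))) ≤ 1
        split_ifs with h
        · simp
        · exact f2.mul hH _ (hc2 s)
      convert this using 2 with s
      change _ = (((if c s < p then 0 else coeff (c s) (f * ((p : ℚ) ^ k • YY k)) : ℚ)) : ZMod p)
      split_ifs with h
      · simp
      · rw [hB2 r s h]
        exact cast_eq hRed (f2.mul hH _ (hc2 s)) (by rw [← map_sub]; exact f3 _ (hc2 s))
  obtain ⟨T1, a1, a2⟩ := hT1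
  obtain ⟨T2, b1', b2'⟩ := hT2
  obtain ⟨T3, c1, c2⟩ := span_single (K := ZMod p) (univ.filter fun s : Ix k D => ¬ c s < p)
  have hn := card_le p hc
  have hkn : (k : ℤ) * (univ.filter fun s => ¬ c s < p).card ≤ k * (NN k D - p : ℕ) :=
    mul_le_mul_of_nonneg_left (by exact_mod_cast hn) (by positivity)
  constructor
  · refine fin (core hG2 p (BB k D p c) (fun s => c s < p) T1 T2 hB a2 b2') ?_
    rw [card_Ix, b2]; push_cast
    have a1' : (T1.card : ℤ) ≤ r1 k D p := by exact_mod_cast a1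
    have b1'' : (T2.card : ℤ) ≤ rho k D (k * p) := by exact_mod_cast b1'
    linarith
  · refine fin (core hG2 p (BB k D p c) (fun s => c s < p) T1 T3 hB a2 fun r => c2 _ ?_) ?_
    · intro s hs
      have : c s < p := by simpa using hs
      simp [this]
    · rw [card_Ix, b3]; push_cast
      have a1' : (T1.card : ℤ) ≤ r1 k D p := by exact_mod_cast a1
      have c1' : (T3.card : ℤ) ≤ (NN k D - p : ℕ) := by exact_mod_cast c1.trans hn
      linarith

theorem s_Z1 (hZE : StZE) (hSys : StSys) (hOk : StOk) (hF1 : StF1) (hF2 : StF2) (hLI : StLI) :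
    StZ1 := by
  intro M hM k w a hk h3 ha hb hne
  obtain ⟨C, c1, c2⟩ := hSys M hM k hk h3
  have f1 := hF1 M hM k w (fun j => a (.inr j)) (fun j => ha (.inr j)) hne
  obtain ⟨u, v, h1, h2⟩ := hLI k a (by omega) f1 fun c => hF2 k a c (by omega) hb f1
  have h4 : IsSol (wt k) C fun j => io (ee k j) := by
    have h5 : Ok k (io (YY k)) 1 := by
      obtain ⟨o1, o2⟩ := (hOk k (by omega)).2.1
      refine ⟨o1, ?_⟩
      rw [YY, map_add, iter_add, o2, ← iter_map io io_th, Function.iterate_succ_apply, th_C,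
        iter_zero, map_zero, add_zero]
    have := c2 _ _ h5
    have e : (fun j => io (ee k j)) = sol thL (io UU) k (io (YY k)) 1 := funext fun j => by
      rw [ee, io_sol, map_one]
    rwa [e]
  obtain ⟨n, n1, n2⟩ := hZE M hM (JJ k) (wt k) C w a (fun s => sol thL (io UU) k (u s) (v s))
    (ee k) (.inl 0) c1 ha (fun s => c2 _ _ (h1 s)) h2 h4 (can_zero _ _ _ _)
  refine ⟨n, n1, n2.trans (le_of_eq ?_)⟩
  rw [Z1.sum_wt, card_JJ]
  push_cast
  ring

theorem s_Z (hZ1 : StZ1) (hZ2 : StZ2) (hMu : StMu) (hBs : StBs) : StZ := by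
  intro M hM k D c hk h3 hc
  set a : JJ k → PS := fun j => ∑ i, c (j, i) • mu k D (j, i) with ha
  have a1 : ∀ j, a j ∈ M (w0 k D - wt k j) := fun j =>
    Submodule.sum_mem _ fun i _ => Submodule.smul_mem _ _ (hMu M hM k D hk (j, i)).1
  have a2 : ∀ j, BD (a j) := fun j => BD.sum _ _ fun i _ => (hMu M hM k D hk (j, i)).2.bd.smul _
  have a3 : ∀ n < NN k D, coeff n (∑ j, a j * ee k j) = 0 := fun n hn => by
    rw [← hc n hn, Fintype.sum_prod_type, map_sum]
    refine sum_congr rfl fun j _ => ?_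
    rw [ha, sum_mul, map_sum]
    exact sum_congr rfl fun i _ => by rw [smul_mul_assoc, coeff_smul, smul_eq_mul, row]
  have h3' : (3 : ℤ) ≤ k := by exact_mod_cast h3
  have hD : (0 : ℤ) ≤ D := by positivity
  have r0 : (fun j => a (.inr j)) = 0 := by
    by_contra hne
    obtain ⟨n, n1, n2⟩ := hZ1 M hM k _ a hk h3 a1 a2 hne
    refine n1 (a3 n ?_)
    rw [w0] at n2
    zify [NN]
    nlinarith
  have l0 : (fun j => a (.inl j)) = 0 := by
    by_contra hne
    obtain ⟨n, n1, n2⟩ := hZ2 M hM _ (fun j => a (.inl j)) (fun j => a1 (.inl j)) hne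
    have e : ∑ j, a j * ee k j = ∑ j : Fin 2, a (.inl j) * can th UU (-1) j 1 := by
      rw [Fintype.sum_sum_type, sum_eq_zero (s := (univ : Finset (Fin (k + 1)))) fun j _ => by
        rw [show a (.inr j) = 0 from congrFun r0 j, zero_mul], add_zero]
      rfl
    refine n1 (e ▸ a3 n ?_)
    rw [w0] at n2
    zify [NN]
    nlinarith
  funext ⟨j, i⟩
  have h0 : a j = 0 := by
    rcases j with j | j
    exacts [congrFun l0 j, congrFun r0 j]
  exact congrFun (hBs D (gwt k j) (fun i => c (j, i)) h0) i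


end Pool.Agent.MP_3924c3_nt.BK.I

end
end

section

/-! The series with a constant term added: sizes and the final comparison. -/

open Finset Filter Topology PowerSeries

noncomputable section

namespace Pool.Agent.MP_3924c3_nt.BK.I

variable [Cst]

theorem pg_YY (k : ℕ) : MR.PG (YY k) := by
  obtain ⟨K, a, h⟩ := MR.pg_YY k
  refine ⟨K + |ka k|, a, fun n => ?_⟩
  have h1 : (1 : ℚ) ≤ ((n : ℚ) + 1) ^ a := one_le_pow₀ (by simp)
  have h2 : |coeff n (C (ka k) : PS)| ≤ |ka k| := by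
    rw [coeff_C]
    split_ifs <;> simp
  rw [YY, map_add, add_mul]
  exact (abs_add_le _ _).trans (add_le_add (h n)
    (h2.trans (le_mul_of_one_le_right (abs_nonneg _) h1)))

open MR hiding pg_YY in
theorem s_MR (hMj : StMj) : StMR := by
  intro k
  have h : ∀ j : JJ k, HM (gw (gwt k j) * ee k j) := fun j => by
    refine HM.mul hMj (HM.mul hMj (HM.pow hMj (HM.smul hMj _ ((pg_Gs 4).hm hMj)) _)
      (HM.pow hMj (HM.smul hMj _ ((pg_Gs 6).hm hMj)) _)) ?_
    cases j with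
    | inl j => exact hm_can hMj pg_one _ _
    | inr j => exact hm_can hMj (pg_YY k) _ _
  choose K hK using h
  have h0 : ∀ j, 0 ≤ K j := fun j => by simpa using hK j 0
  have h1 : 0 ≤ ∑ j, K j := sum_nonneg fun j _ => h0 j
  refine ⟨1 + ∑ j, K j, by linarith, fun j N => (hK j N).trans ?_⟩
  have := single_le_sum (fun j _ => h0 j) (mem_univ j)
  linarith

theorem s_A0 (hMj : StMj) (hME : StME) (hTD : StTD) (hMD : StMD) (hMR : StMR) : StA0 := by
  intro M hM k
  obtain ⟨K, hK1, hK⟩ := hMR k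
  refine ⟨K, hK1, fun D c => ?_⟩
  obtain ⟨hmul, -, -, hpow, hco, -⟩ := hMj
  have hrow : ∀ r : Ix k D, Maj (row k D r)
      ((146 / 100 : ℝ) ^ (r.2 : ℕ) * (5545 / 100 : ℝ) ^ (3 * (D - 1 - r.2)) * K) := fun r => by
    unfold row mu bs
    rw [mul_assoc (Dl ^ _ * _)]
    exact hmul _ _ _ _ (hmul _ _ _ _ (hpow _ _ _ (hMD (hTD M hM))) (hpow _ _ _ hME.1)) (hK r.1)
  have h1 := A0.det_le (Matrix.of fun r s : Ix k D => coeff (c s) (row k D r))
    (fun r => (146 / 100 : ℝ) ^ (r.2 : ℕ) * (5545 / 100 : ℝ) ^ (3 * (D - 1 - r.2)) * K)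
    (fun s => 10 ^ c s) (fun r s => hco _ _ _ (hrow r))
  refine h1.trans ?_
  rw [card_Ix, Finset.prod_pow_eq_pow_sum, Finset.prod_mul_distrib, Finset.prod_const,
    Finset.card_univ, card_Ix, Fintype.prod_prod_type]
  simp only [Finset.prod_const, Finset.card_univ, card_JJ]
  have h2 := pow_le_pow_left₀ (Finset.prod_nonneg fun i _ => by positivity) (A0.prod_le D) (k + 3)
  rw [← pow_mul, mul_comm (D * (D - 1) / 2)] at h2
  have hK0 : 0 ≤ K := by linarith
  calc _ ≤ (((k + 3) * D).factorial : ℝ) *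
        (250000 ^ ((k + 3) * (D * (D - 1) / 2)) * K ^ ((k + 3) * D) * 10 ^ (∑ s, c s)) := by
        gcongr
    _ = _ := by ring

theorem s_A (hA0 : StA0) : StA := by
  intro M hM k ε hε
  obtain ⟨K, hK, h⟩ := hA0 M hM k
  have hm : (0 : ℝ) < k + 3 := by positivity
  filter_upwards [A1.small (k + 3) (Real.log (k + 3) + Real.log K + (k + 3) ^ 2 * Real.log 10) ε
    hm hε, eventually_ge_atTop 1] with D hD hD1 c hc h0
  have hD0 : (0 : ℝ) < D := by exact_mod_cast hD1
  have hK0 : 0 < K := by linarith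
  have l1 : 0 ≤ Real.log 10 := Real.log_nonneg (by norm_num)
  have l2 : 0 ≤ Real.log 250000 := Real.log_nonneg (by norm_num)
  have h1 := Real.log_le_log (abs_pos.2 (by exact_mod_cast h0)) (h D c)
  rw [Real.log_mul (by positivity) (by positivity), Real.log_mul (by positivity) (by positivity),
    Real.log_mul (by positivity) (by positivity), Real.log_pow, Real.log_pow, Real.log_pow] at h1
  have h2 : Real.log (((k + 3) * D).factorial : ℝ) ≤
      (k + 3) * D * (Real.log (k + 3) + Real.log D) := by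
    have e : (((k + 3) * D).factorial : ℝ) ≤ ((k + 3) * D : ℝ) ^ ((k + 3) * D) := by
      exact_mod_cast Nat.factorial_le_pow _
    refine (Real.log_le_log (by positivity) e).trans_eq ?_
    rw [Real.log_pow, Real.log_mul hm.ne' hD0.ne']
    push_cast
    rfl
  have h3 : (((k + 3) * (D * (D - 1) / 2) : ℕ) : ℝ) ≤ (k + 3) * (D : ℝ) ^ 2 / 2 := by
    have e : 2 * ((k + 3) * (D * (D - 1) / 2)) ≤ (k + 3) * D ^ 2 := by
      have e1 : 2 * (D * (D - 1) / 2) ≤ D ^ 2 :=
        (Nat.mul_div_le _ _).trans (by rw [sq]; exact Nat.mul_le_mul_left _ (Nat.sub_le _ _))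
      rw [mul_left_comm]
      exact Nat.mul_le_mul_left _ e1
    have e2 : 2 * (((k + 3) * (D * (D - 1) / 2) : ℕ) : ℝ) ≤ (k + 3) * (D : ℝ) ^ 2 := by
      exact_mod_cast e
    linarith
  have h4 : ((∑ s, c s : ℕ) : ℝ) ≤ ((k + 3) * D) ^ 2 / 2 + (k + 3) * D * (k + 3) ^ 2 := by
    have e : 2 * ((∑ s, c s : ℕ) : ℝ) ≤ ((k + 3) * D) ^ 2 + 2 * ((k + 3) * D) * (k + 3) ^ 2 := by
      exact_mod_cast A1.adm_sum hc
    linarith
  have h5 := mul_le_mul_of_nonneg_right h3 l2
  have h6 := mul_le_mul_of_nonneg_right h4 l1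
  have h7 := mul_le_mul_of_nonneg_right hD hD0.le
  rw [Real.log_mul (by positivity) (by norm_num), Real.log_pow]
  generalize (((k + 3) * (D * (D - 1) / 2) : ℕ) : ℝ) = u at h1 h5
  generalize ((∑ s, c s : ℕ) : ℝ) = v at h1 h6
  push_cast at h1 ⊢
  nlinarith

namespace SumH

theorem rho_le (k D y : ℕ) : (rho k D y : ℝ) ≤ D + (y : ℝ) / 12 + k := by
  have h : ((y / 12 : ℕ) : ℝ) ≤ (y : ℝ) / 12 := by
    have := @Nat.cast_div_le ℝ _ _ _ y 12
    simpa using this
  unfold rho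
  push_cast
  linarith

/-- the loss at a prime that does not divide the Bernoulli number -/
def ls (k D p : ℕ) : ℝ := if ¬ Hyp k p then (k + 3) * D else 0

theorem ls_nonneg (k D p : ℕ) : 0 ≤ ls k D p := by
  unfold ls
  split_ifs <;> positivity

theorem r1_le (k D p : ℕ) : (r1 k D p : ℝ) ≤ D + (p : ℝ) / 12 + k + ls k D p := by
  unfold r1 ls
  by_cases h : Hyp k p
  · simp only [h, if_true, not_true, if_false, add_zero]
    exact rho_le k D p
  · simp only [h, if_false, not_false_iff, if_true]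
    push_cast
    have : (0 : ℝ) ≤ D + (p : ℝ) / 12 + k := by positivity
    linarith

theorem sub_eq (k D p : ℕ) (h : p ≤ (k + 3) * D) :
    ((NN k D - p : ℕ) : ℝ) = (k + 3) * D + (k + 3) ^ 2 - p := by
  unfold NN
  rw [Nat.cast_sub (h.trans (Nat.le_add_right _ _))]
  push_cast
  rfl

theorem sub_le (k D p : ℕ) (h : (k + 3) * D ≤ p) : ((NN k D - p : ℕ) : ℝ) ≤ (k + 3) ^ 2 := by
  have : NN k D - p ≤ (k + 3) ^ 2 := by
    unfold NN
    omega
  exact_mod_cast this

/-- piecewise linear lower bound -/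
def LL (k x : ℕ) (e : ℝ) (D p : ℕ) : ℝ :=
  if p ≤ 2 * D then (-(k : ℝ) ^ 2 - e) * D + (-(k : ℝ) / 12) * p
  else if p ≤ x * D then (k + 1 - k * (k + 3) - e) * D + (k - ((k : ℝ) + 1) / 12) * p
  else if p ≤ (k + 3) * D then (k + 2 - (k + 1) * (k + 3) - e) * D + (k + 1 - (1 : ℝ) / 12) * p
  else (k + 2 - e) * D + (-(1 : ℝ) / 12) * p

theorem pt (k x : ℕ) (hx : x ≤ k + 3) (e : ℝ) (he : 0 < e) (D p : ℕ)
    (hK : 2 * (k : ℝ) + (k + 1) * (k + 3) ^ 2 ≤ e * D) (hD : (k + 3) ^ 2 + k + 4 ≤ D) :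
    (if p ^ 2 < NN k D ∨ p < k + 4 then (b0 k D p : ℝ) else 0) + LL k x e D p - ls k D p
      ≤ (bet k x D p : ℝ) := by
  have h0 := ls_nonneg k D p
  have hk : (0 : ℝ) ≤ k := Nat.cast_nonneg _
  have hp : (0 : ℝ) ≤ p := Nat.cast_nonneg _
  have hD0 : (0 : ℝ) ≤ D := Nat.cast_nonneg _
  have hs : (0 : ℝ) ≤ (k + 3) ^ 2 := by positivity
  have hks : (0 : ℝ) ≤ k * (k + 3) ^ 2 := by positivity
  unfold bet LL
  by_cases h1 : p ^ 2 < NN k D ∨ p < k + 4
  · have h2 : p ≤ 2 * D := by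
      rcases h1 with h1 | h1
      · by_contra h3
        have h4 : 2 * D ≤ p := by omega
        have h5 : (2 * D) ^ 2 ≤ p ^ 2 := Nat.pow_le_pow_left h4 2
        have h6 : (k + 3) * D ≤ D * D := Nat.mul_le_mul_right _ (by omega)
        have h7 : D ≤ D * D := Nat.le_mul_self D
        unfold NN at h1
        nlinarith
      · omega
    simp only [h1, h2, if_true]
    have h3 : 0 ≤ ((k : ℝ) ^ 2 + e) * D := by positivity
    have h4 : 0 ≤ (k : ℝ) / 12 * p := by positivity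
    linarith
  simp only [h1, if_false, zero_add]
  have e1 := rho_le k D (k * p)
  have e2 := r1_le k D p
  push_cast at e1
  by_cases h2 : p ≤ 2 * D
  · simp only [h2, if_true]
    unfold b1
    push_cast
    nlinarith
  simp only [h2, if_false]
  by_cases h3 : p ≤ x * D
  · simp only [h3, if_true]
    have e3 := sub_eq k D p (h3.trans (Nat.mul_le_mul_right _ hx))
    unfold b2
    rw [Int.cast_sub, Int.cast_mul, Int.cast_natCast, Int.cast_natCast, e3]
    push_cast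
    nlinarith
  simp only [h3, if_false]
  by_cases h4 : p ≤ (k + 3) * D
  · simp only [h4, if_true]
    have e3 := sub_eq k D p h4
    unfold b3
    rw [Int.cast_sub, Int.cast_mul, Int.cast_natCast, e3]
    push_cast
    nlinarith
  · simp only [h4, if_false]
    have e3 := sub_le k D p (by omega)
    have e4 := mul_le_mul_of_nonneg_left e3 (show (0 : ℝ) ≤ k + 1 by positivity)
    unfold b3
    rw [Int.cast_sub, Int.cast_mul, Int.cast_natCast]
    push_cast
    nlinarith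

theorem split (f : ℕ → ℝ) {a b c : ℕ} (h1 : a ≤ b) (h2 : b ≤ c) :
    ∑ p ∈ (Ioc a c).filter Nat.Prime, f p =
      ∑ p ∈ (Ioc a b).filter Nat.Prime, f p + ∑ p ∈ (Ioc b c).filter Nat.Prime, f p := by
  simp only [sum_filter]
  rw [sum_Ioc_consecutive _ h1 h2]

theorem sumLL (k x : ℕ) (hx2 : 2 ≤ x) (hx : x ≤ k + 3) (e : ℝ) (D : ℕ) :
    ∑ p ∈ PP k D, LL k x e D p * Real.log p =
      ∑ p ∈ (Ioc (0 * D) (2 * D)).filter Nat.Prime,
          ((-(k : ℝ) ^ 2 - e) * D + (-(k : ℝ) / 12) * p) * Real.log p +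
        ∑ p ∈ (Ioc (2 * D) (x * D)).filter Nat.Prime,
          ((k + 1 - k * (k + 3) - e) * D + (k - ((k : ℝ) + 1) / 12) * p) * Real.log p +
        ∑ p ∈ (Ioc (x * D) ((k + 3) * D)).filter Nat.Prime,
          ((k + 2 - (k + 1) * (k + 3) - e) * D + (k + 1 - (1 : ℝ) / 12) * p) * Real.log p +
        ∑ p ∈ (Ioc ((k + 3) * D) (12 * (k + 2) * D)).filter Nat.Prime,
          ((k + 2 - e) * D + (-(1 : ℝ) / 12) * p) * Real.log p := by
  have a1 : 2 * D ≤ x * D := Nat.mul_le_mul_right _ hx2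
  have a2 : x * D ≤ (k + 3) * D := Nat.mul_le_mul_right _ hx
  have a3 : (k + 3) * D ≤ 12 * (k + 2) * D := Nat.mul_le_mul_right _ (by omega)
  unfold PP
  rw [split _ (Nat.zero_le _) a3, split _ (Nat.zero_le _) a2, split _ (Nat.zero_le _) a1,
    zero_mul]
  congr 1
  congr 1
  congr 1
  · refine sum_congr rfl fun p hp => ?_
    have := mem_Ioc.1 (mem_filter.1 hp).1
    rw [LL, if_pos this.2]
  · refine sum_congr rfl fun p hp => ?_
    have := mem_Ioc.1 (mem_filter.1 hp).1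
    rw [LL, if_neg (by omega), if_pos this.2]
  · refine sum_congr rfl fun p hp => ?_
    have := mem_Ioc.1 (mem_filter.1 hp).1
    rw [LL, if_neg (by omega), if_neg (by omega), if_pos this.2]
  · refine sum_congr rfl fun p hp => ?_
    have := mem_Ioc.1 (mem_filter.1 hp).1
    rw [LL, if_neg (by omega), if_neg (by omega), if_neg (by omega)]

theorem gen (hPN : StPN) (hSm : StSm) (k x : ℕ) (hx2 : 2 ≤ x) (hx : x ≤ k + 3) (I e : ℝ)
    (he : 0 < e)
    (hI : I + e < ((-(k : ℝ) ^ 2 - e) * ((2 : ℕ) - (0 : ℕ)) +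
          (-(k : ℝ) / 12) * ((2 : ℕ) ^ 2 - (0 : ℕ) ^ 2) / 2) +
        ((k + 1 - k * (k + 3) - e) * (x - (2 : ℕ)) +
          (k - ((k : ℝ) + 1) / 12) * (x ^ 2 - (2 : ℕ) ^ 2) / 2) +
        ((k + 2 - (k + 1) * (k + 3) - e) * ((k + 3 : ℕ) - x) +
          (k + 1 - (1 : ℝ) / 12) * ((k + 3 : ℕ) ^ 2 - x ^ 2) / 2) +
        ((k + 2 - e) * ((12 * (k + 2) : ℕ) - (k + 3 : ℕ)) +
          (-(1 : ℝ) / 12) * ((12 * (k + 2) : ℕ) ^ 2 - (k + 3 : ℕ) ^ 2) / 2)) :
    StSum k x I := by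
  have t := (((hPN 0 2 (-(k : ℝ) ^ 2 - e) (-(k : ℝ) / 12) (by omega)).add
    (hPN 2 x (k + 1 - k * (k + 3) - e) (k - ((k : ℝ) + 1) / 12) hx2)).add
    (hPN x (k + 3) (k + 2 - (k + 1) * (k + 3) - e) (k + 1 - (1 : ℝ) / 12) hx)).add
    (hPN (k + 3) (12 * (k + 2)) (k + 2 - e) (-(1 : ℝ) / 12) (by omega))
  have t2 : Tendsto (fun D : ℕ => e * (D : ℝ)) atTop atTop :=
    tendsto_natCast_atTop_atTop.const_mul_atTop he
  filter_upwards [t.eventually (lt_mem_nhds hI), hSm k e he,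
    t2.eventually_ge_atTop (2 * (k : ℝ) + (k + 1) * (k + 3) ^ 2),
    eventually_ge_atTop ((k + 3) ^ 2 + k + 4)] with D h1 h2 h3 h4
  have hD : (0 : ℝ) < (D : ℝ) ^ 2 := by
    have : (0 : ℝ) < D := by exact_mod_cast (show 0 < D by omega)
    positivity
  rw [← add_div, ← add_div, ← add_div, ← sumLL k x hx2 hx e D, lt_div_iff₀ hD] at h1
  have h5 : ∑ p ∈ PP k D, ((if p ^ 2 < NN k D ∨ p < k + 4 then (b0 k D p : ℝ) else 0) +
      LL k x e D p - ls k D p) * Real.log p ≤ ∑ p ∈ PP k D, (bet k x D p : ℝ) * Real.log p :=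
    sum_le_sum fun p _ => mul_le_mul_of_nonneg_right (pt k x hx e he D p h3 h4)
      (Real.log_natCast_nonneg p)
  have h6 : ∑ p ∈ PP k D, ls k D p * Real.log p = (k + 3) * D * Ex k D := by
    unfold Ex
    rw [sum_filter, mul_sum]
    refine sum_congr rfl fun p _ => ?_
    unfold ls
    split_ifs <;> simp
  simp only [sub_mul, add_mul, sum_sub_distrib, sum_add_distrib, ite_mul, zero_mul] at h5
  rw [← sum_filter, h6] at h5
  linarith

end SumH

theorem s_Sum3 (hPN : StPN) (hSm : StSm) : StSum 3 4 91 :=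
  SumH.gen hPN hSm 3 4 (by norm_num) (by norm_num) 91 (1 / 1000) (by norm_num) (by norm_num)

theorem s_Sum5 (hPN : StPN) (hSm : StSm) : StSum 5 5 127 :=
  SumH.gen hPN hSm 5 5 (by norm_num) (by norm_num) 127 (1 / 1000) (by norm_num) (by norm_num)

namespace Dem

theorem ex_le (k x : ℕ) : Ex k (x / (12 * (k + 2))) ≤
    (((Ioc 0 x).filter fun p => p.Prime ∧ ¬ Hyp k p).card : ℝ) * Real.log x := by
  have hs : (PP k (x / (12 * (k + 2)))).filter (fun p => ¬ Hyp k p) ⊆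
      (Ioc 0 x).filter fun p => p.Prime ∧ ¬ Hyp k p := by
    intro p hp
    simp only [PP, mem_filter, mem_Ioc] at hp ⊢
    exact ⟨⟨hp.1.1.1, hp.1.1.2.trans (Nat.mul_div_le x _)⟩, hp.1.2, hp.2⟩
  calc Ex k (x / (12 * (k + 2)))
      ≤ ∑ p ∈ (Ioc 0 x).filter fun p => p.Prime ∧ ¬ Hyp k p, Real.log p :=
        sum_le_sum_of_subset_of_nonneg hs fun p _ _ => Real.log_natCast_nonneg p
    _ ≤ ∑ _p ∈ (Ioc 0 x).filter fun p => p.Prime ∧ ¬ Hyp k p, Real.log x := by
        refine sum_le_sum fun p hp => ?_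
        simp only [mem_filter, mem_Ioc] at hp
        exact Real.log_le_log (by exact_mod_cast hp.1.1) (by exact_mod_cast hp.1.2)
    _ = _ := by rw [sum_const, nsmul_eq_mul]

theorem den (k : ℕ) (δ c : ℝ) (hδ : 0 < δ) (hc : c * (12 * (k + 2)) < δ) (h : StFin k δ) :
    StDen k c := by
  have hm : 0 < 12 * (k + 2) := by omega
  have ht : Tendsto (fun x : ℕ => x / (12 * (k + 2))) atTop atTop :=
    Nat.tendsto_div_const_atTop hm.ne'
  have hmR : (0 : ℝ) < 12 * (k + 2) := by positivity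
  have h1 : ∀ᶠ x : ℕ in atTop, δ * (12 * (k + 2)) / (δ - c * (12 * (k + 2))) ≤ (x : ℝ) :=
    tendsto_natCast_atTop_atTop.eventually_ge_atTop _
  filter_upwards [ht.eventually h, h1, eventually_ge_atTop 2] with x hx h1 h2
  have hl : 0 < Real.log x := Real.log_pos (by exact_mod_cast h2)
  rw [div_le_iff₀ hl]
  refine le_trans ?_ (hx.trans (ex_le k x))
  have h3 : (x : ℝ) < (12 * (k + 2)) * (((x / (12 * (k + 2)) : ℕ) : ℝ) + 1) := by
    exact_mod_cast Nat.lt_mul_div_succ x hm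
  rw [div_le_iff₀ (sub_pos.2 hc)] at h1
  have h4 : c * x * (12 * (k + 2)) ≤ δ * ((x / (12 * (k + 2)) : ℕ) : ℝ) * (12 * (k + 2)) := by
    nlinarith
  exact le_of_mul_le_mul_right h4 hmR

end Dem

theorem s_Den3 (h : StFin 3 1) : StDen 3 (1 / 61) := Dem.den 3 1 _ one_pos (by norm_num) h

theorem s_Den5 (h : StFin 5 (1 / 4)) : StDen 5 (1 / 337) :=
  Dem.den 5 (1 / 4) _ (by norm_num) (by norm_num) h

theorem fin_gen (hM : StMod) (hZ : StZ) (hMin : StMin) (hV0 : StV0) (hV1 : StV1) (hV2 : StV2)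
    (hA : StA) (hPF : MP_384f6f_nt.NW.StPF) {k x : ℕ} {I δ : ℝ} (hk : Odd k) (h3 : 3 ≤ k)
    (hS : StSum k x I)
    (hI : (k + 3) / 2 * Real.log (10 ^ (k + 3) * 250000) + (k + 3) * δ < I) : StFin k δ := by
  filter_upwards [hS, hA _ hM k _ (sub_pos.2 hI), eventually_ge_atTop (k + 3),
    eventually_ge_atTop ((k + 4 + dn) ^ 2), eventually_ge_atTop (2 * k * dn)] with D h1 h2 hD hD2 hD3
  have hN : D ≤ NN k D := by
    unfold NN
    nlinarith
  have hbig : ∀ p : ℕ, NN k D ≤ p ^ 2 → k + 4 + dn ≤ p := fun p hp =>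
    Nat.le_of_not_lt fun h => by nlinarith [Nat.pow_lt_pow_left h (n := 2) (by omega)]
  obtain ⟨c, c1, c2, c3⟩ := hMin (Ix k D) (fun r n => coeff n (row k D r)) (NN k D)
    (fun c hc => hZ _ hM k D c hk h3 hc)
  have ha : Adm k D c := ⟨c1, c2⟩
  have h4 := hPF (Det k D c) (PP k D) (bet k x D) c3 (fun p hp => (mem_filter.1 hp).2)
    (fun p hp => by
      have pp := (mem_filter.1 hp).2
      unfold bet
      split_ifs with g1 g2 g3
      · exact (hV0 _ hM k D p c hk ha pp).1 (by omega)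
      · exact hV1 _ hM k D p c hk h3 ha pp (hbig p (by omega)) (by omega)
      · exact (hV2 _ hM k D p c hk h3 ha pp (hbig p (by omega)) (by omega)).1
      · exact (hV2 _ hM k D p c hk h3 ha pp (hbig p (by omega)) (by omega)).2)
    (fun p pp hp => by
      have h5 : 12 * (k + 2) * D < p := by
        by_contra h
        exact hp (mem_filter.2 ⟨mem_Ioc.2 ⟨pp.pos, by omega⟩, pp⟩)
      refine (hV0 _ hM k D p c hk ha pp).2 (by nlinarith [sq_nonneg (k + 4 + dn : ℤ)]) ?_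
      unfold NN
      nlinarith)
  have h6 := h2 c ha c3
  have D0 : (0 : ℝ) < D := by exact_mod_cast (by omega : 0 < D)
  have k0 : (0 : ℝ) < (k + 3) * D := by positivity
  refine le_of_mul_le_mul_left ?_ k0
  nlinarith

theorem s_Fin3 (hM : StMod) (hZ : StZ) (hMin : StMin) (hV0 : StV0) (hV1 : StV1) (hV2 : StV2)
    (hA : StA) (hPF : MP_384f6f_nt.NW.StPF) (hS : StSum 3 4 91) : StFin 3 1 := by
  refine fin_gen hM hZ hMin hV0 hV1 hV2 hA hPF (by decide) le_rfl hS ?_
  have := log_le_of (y := 10 ^ (3 + 3) * 250000) (n := 27) (by norm_num) (by norm_num)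
  push_cast at this ⊢
  generalize Real.log _ = L at this ⊢
  norm_num
  linarith

theorem s_Fin5 (hM : StMod) (hZ : StZ) (hMin : StMin) (hV0 : StV0) (hV1 : StV1) (hV2 : StV2)
    (hA : StA) (hPF : MP_384f6f_nt.NW.StPF) (hS : StSum 5 5 127) : StFin 5 (1 / 4) := by
  refine fin_gen hM hZ hMin hV0 hV1 hV2 hA hPF (by decide) (by norm_num) hS ?_
  have := log_le_of (y := 10 ^ (5 + 3) * 250000) (n := 31) (by norm_num) (by norm_num)
  push_cast at this ⊢
  generalize Real.log _ = L at this ⊢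
  norm_num
  linarith

open MP_384f6f_nt

theorem a_Z : StZ :=
  s_Z (s_Z1 (s_ZE s_Ind) (s_Sys s_C) s_Ok s_F1 (s_F2 s_Int) (s_LI s_Ok)) (s_Z2 (s_ZE s_Ind))
    (s_Mu s_Int) (s_Bs s_Int)

theorem a_R0 : StRow0 := s_Row0 s_Int (s_Mu s_Int) s_CY

theorem a_R1 : StRow1 := s_Row1 s_C s_Int (s_Mu s_Int) (s_CA s_B) s_CY

theorem a_R2 : StRow2 := s_Row2 s_C s_Int (s_Mu s_Int) (s_CA s_B) s_CY

theorem a_V0 : StV0 := s_V0 s_Int (s_Mu s_Int) a_R0 NW.stG1

theorem a_V1 : StV1 := s_V1 a_R0 a_R2 s_Dim s_RK s_CY (NW.stG2 NW.stRed) NW.stRed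

theorem a_V2 : StV2 := s_V2 a_R0 a_R1 a_R2 s_Dim s_RK s_CY (NW.stG2 NW.stRed) NW.stRed

theorem a_A : StA := s_A (s_A0 s_Mj s_ME (s_TD s_Int) (s_MD s_Int s_ME) (s_MR s_Mj))

theorem den3 : StDen 3 (1 / 61) :=
  s_Den3 (s_Fin3 a_Mod a_Z s_Min a_V0 a_V1 a_V2 a_A NW.stPF (s_Sum3 a_PN s_Sm))

theorem den5 : StDen 5 (1 / 337) :=
  s_Den5 (s_Fin5 a_Mod a_Z s_Min a_V0 a_V1 a_V2 a_A NW.stPF (s_Sum5 a_PN s_Sm))


end Pool.Agent.MP_3924c3_nt.BK.I

end
end
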