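import Pool.Agent.Mg.F3792c7p.Gdb7bcf

set_option linter.all false

/-! The zero estimate. -/

set_option autoImplicit false

open Finset Filter PowerSeries

noncomputable section

namespace Pool.Agent.MP_3924c3_nt.BR

section

theorem ev_GRID (z w : Fin 2 → ℂ) (f : AA) :
    MvPolynomial.aeval z (tr w f) = MvPolynomial.aeval (z + w) f := by
  rw [tr, ← AlgHom.comp_apply, MvPolynomial.comp_aeval]
  simp [Pi.add_def]

theorem step_GRID {f : AA} {w : Fin 2 → ℂ} (h : f ∣ tr w f) (a : ℕ) {z : Fin 2 → ℂ}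
    (hz : MvPolynomial.aeval z f = 0) : MvPolynomial.aeval (z + a • w) f = 0 := by
  induction a with
  | zero => simpa using hz
  | succ a ih =>
    rw [succ_nsmul, ← add_assoc, ← ev_GRID]
    exact zero_dvd_iff.1 (ih ▸ map_dvd (MvPolynomial.aeval (z + a • w)) h)

theorem GRID_pf : GRID_st := by
  intro f u v hf hu hv h0 h1
  by_cases hU : IsUnit f
  · obtain ⟨c, -, hc⟩ := MvPolynomial.isUnit_iff_eq_C_of_isReduced.1 hU
    exact ⟨c, hc⟩
  obtain ⟨I, hI, hfI⟩ := exists_max_ideal_of_mem_nonunits hU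
  obtain ⟨z, rfl⟩ := MvPolynomial.isMaximal_iff_eq_vanishingIdeal_singleton.1 hI
  have hz := (MvPolynomial.mem_vanishingIdeal_singleton_iff z f).1 hfI
  refine absurd (MvPolynomial.funext_set
    (fun i => Set.range fun a : ℕ => z i + a * (![u, v] i : ℕ)) (fun i => ?_) fun x hx => ?_) hf
  · refine Set.infinite_range_of_injective fun a b e => ?_
    have : ((![u, v] i : ℕ) : ℂ) ≠ 0 := by
      fin_cases i
      exacts [Nat.cast_ne_zero.2 hu.ne', Nat.cast_ne_zero.2 hv.ne']
    exact_mod_cast mul_right_cancel₀ this (add_left_cancel e)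
  · obtain ⟨a, ha⟩ := hx 0 trivial
    obtain ⟨b, hb⟩ := hx 1 trivial
    have e : x = z + a • Pi.single 0 (u : ℂ) + b • Pi.single 1 (v : ℂ) := by
      funext i
      fin_cases i
      · simpa using ha.symm
      · simpa using hb.symm
    rw [map_zero, e]
    exact step_GRID h1 b (step_GRID h0 a hz)

end

section

theorem tr_neg_INV (w : Fin 2 → ℂ) (f : AA) : tr (-w) (tr w f) = f := by
  have : (tr (-w)).comp (tr w) = AlgHom.id ℂ AA := by
    apply MvPolynomial.algHom_ext
    intro k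
    simp [tr]
  exact AlgHom.congr_fun this f

theorem tr_ne_INV (w : Fin 2 → ℂ) {f : AA} (hf : f ≠ 0) : tr w f ≠ 0 := fun h =>
  hf (by rw [← tr_neg_INV w f, h, map_zero])

theorem grid_INV (hGRID : GRID_st) {f : AA} (hf : f ≠ 0) (h : ∀ i, f ∣ sg i f) :
    ∃ c, f = MvPolynomial.C c :=
  hGRID f 1 1 hf one_pos one_pos (by rw [Nat.cast_one]; exact h 0)
    (by rw [Nat.cast_one]; exact h 1)

theorem INV_pf (hGRID : GRID_st) : INV_st := by
  intro f g hf h
  obtain ⟨f', g', d, hr, rfl, rfl⟩ := UniqueFactorizationMonoid.exists_reduced_factors f hf g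
  have hd : d ≠ 0 := left_ne_zero_of_mul hf
  have hf' : f' ≠ 0 := right_ne_zero_of_mul hf
  have k : ∀ i, sg i f' * g' = f' * sg i g' := fun i => by
    have h1 := h i
    rw [map_mul, map_mul] at h1
    refine mul_left_cancel₀ (mul_ne_zero hd (tr_ne_INV (Pi.single i 1) hd)) ?_
    change d * sg i d * _ = d * sg i d * _
    linear_combination h1
  obtain ⟨a, rfl⟩ := grid_INV hGRID hf' fun i => hr.dvd_of_dvd_mul_right ⟨_, k i⟩
  by_cases hg : g' = 0
  · exact ⟨0, by simp [hg]⟩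
  obtain ⟨b, rfl⟩ := grid_INV hGRID hg fun i =>
    hr.symm.dvd_of_dvd_mul_left ⟨_, (k i).symm.trans (mul_comm _ _)⟩
  have ha : a ≠ 0 := fun c => hf' (by rw [c, map_zero])
  refine ⟨b / a, ?_⟩
  rw [mul_left_comm, ← map_mul, div_mul_cancel₀ _ ha]

end

section

theorem PW_pf : PW_st := by
  intro P Δ g hP hd
  induction g generalizing Δ with
  | zero => exact fun h => by simpa using h 0 le_rfl
  | succ g ih =>
    intro h
    obtain ⟨Q, rfl⟩ := ih Δ fun k hk => h k (by omega)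
    have h1 := ih (dd (P ^ (g + 1) * Q)) fun k hk => by
      rw [← Function.iterate_succ_apply]
      exact h (k + 1) (by omega)
    have h2 : dd (P ^ (g + 1) * Q) =
        P ^ (g + 1) * dd Q + P ^ g * (((g + 1 : ℕ) : AA) * (dd P * Q)) := by
      rw [Derivation.leibniz, Derivation.leibniz_pow, smul_eq_mul, smul_eq_mul, smul_eq_mul,
        nsmul_eq_mul, Nat.add_sub_cancel]
      ring
    rw [h2, dvd_add_right (dvd_mul_right _ _), pow_succ,
      mul_dvd_mul_iff_left (pow_ne_zero _ hP.ne_zero)] at h1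
    have hu : IsUnit ((g + 1 : ℕ) : AA) := by
      rw [← map_natCast (MvPolynomial.C : ℂ →+* AA)]
      exact (IsUnit.mk0 _ (Nat.cast_ne_zero.mpr (Nat.succ_ne_zero g))).map _
    rw [hu.dvd_mul_left] at h1
    rw [pow_succ _ (g + 1)]
    exact mul_dvd_mul_left _ ((hP.dvd_or_dvd h1).resolve_left hd)

end

section

theorem res_BEZ {R : Type} [CommRing R] [IsDomain R] [DecompositionMonoid (Polynomial R)]
    {f g : Polynomial R} {n : ℕ} (hf : f ≠ 0) (h : IsRelPrime f g) (hg : g.natDegree ≤ n) :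
    f.resultant g f.natDegree n ≠ 0 := fun h0 => by
  rw [Polynomial.resultant, ← Polynomial.toMatrix_sylvesterMap' f g le_rfl hg] at h0
  obtain ⟨v, hv, h1⟩ := Matrix.exists_mulVec_eq_zero_iff.2 h0
  obtain ⟨x, rfl⟩ := (((Polynomial.degreeLT.basis R f.natDegree).prod
    (Polynomial.degreeLT.basis R n)).reindex finSumFinEquiv).equivFun.surjective v
  rw [Module.Basis.equivFun_apply, LinearMap.toMatrix_mulVec_repr, Finsupp.coe_eq_zero,
    map_eq_zero_iff _ (LinearEquiv.injective _)] at h1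
  have h2 : f * x.2 + g * x.1 = 0 := congrArg Subtype.val h1
  have h3 : (x.1 : Polynomial R) = 0 := Polynomial.eq_zero_of_dvd_of_degree_lt
    (h.dvd_of_dvd_mul_left ⟨-x.2, by linear_combination h2⟩) (by
      rw [Polynomial.degree_eq_natDegree hf]
      exact Polynomial.mem_degreeLT.1 x.1.2)
  rw [h3, mul_zero, add_zero, mul_eq_zero] at h2
  refine hv ?_
  rw [show x = 0 from Prod.ext (Subtype.ext h3) (Subtype.ext (h2.resolve_left hf)), map_zero]

/-- both degrees are at most `n` -/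
def Bd_BEZ (n : ℕ) (p : Polynomial (Polynomial ℂ)) : Prop :=
  p.natDegree ≤ n ∧ ∀ i, (p.coeff i).natDegree ≤ n

theorem mul_BEZ {a b : ℕ} {p q : Polynomial (Polynomial ℂ)} (hp : Bd_BEZ a p) (hq : Bd_BEZ b q) :
    Bd_BEZ (a + b) (p * q) :=
  ⟨Polynomial.natDegree_mul_le_of_le hp.1 hq.1, fun i => by
    rw [Polynomial.coeff_mul]
    exact Polynomial.natDegree_sum_le_of_forall_le _ _ fun x _ =>
      Polynomial.natDegree_mul_le_of_le (hp.2 _) (hq.2 _)⟩

theorem C_BEZ {a : ℕ} {c : Polynomial ℂ} (h : c.natDegree ≤ a) : Bd_BEZ a (Polynomial.C c) :=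
  ⟨by simp, fun i => by
    rw [Polynomial.coeff_C]
    split_ifs
    exacts [h, by simp]⟩

theorem pow_BEZ {p : Polynomial (Polynomial ℂ)} (hp : Bd_BEZ 1 p) (k : ℕ) : Bd_BEZ k (p ^ k) := by
  induction k with
  | zero => simpa using C_BEZ (a := 0) (c := 1) (by simp)
  | succ k ih => exact pow_succ p k ▸ mul_BEZ ih hp

theorem sum_BEZ {ι : Type} {a : ℕ} (s : Finset ι) (F : ι → Polynomial (Polynomial ℂ))
    (h : ∀ i ∈ s, Bd_BEZ a (F i)) : Bd_BEZ a (∑ i ∈ s, F i) :=
  ⟨Polynomial.natDegree_sum_le_of_forall_le _ _ fun i hi => (h i hi).1, fun j => by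
    rw [Polynomial.finsetSum_coeff]
    exact Polynomial.natDegree_sum_le_of_forall_le _ _ fun i hi => (h i hi).2 j⟩

theorem X_BEZ : Bd_BEZ 1 Polynomial.X :=
  ⟨by simp, fun i => by
    rw [Polynomial.coeff_X]
    split_ifs <;> simp⟩

/-- the change of variables -/
def Ph_BEZ : AA →ₐ[ℂ] Polynomial (Polynomial ℂ) := MvPolynomial.aeval
  ![Polynomial.X, Polynomial.C Polynomial.X + Polynomial.C (Polynomial.C (-om)) * Polynomial.X]

/-- its inverse -/
def Ps_BEZ : Polynomial (Polynomial ℂ) →+* AA := Polynomial.eval₂RingHom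
  (Polynomial.aeval (MvPolynomial.X 1 + MvPolynomial.C om * MvPolynomial.X 0 : AA)).toRingHom
  (MvPolynomial.X 0)

theorem left_BEZ (f : AA) : Ps_BEZ (Ph_BEZ f) = f := by
  have h : Ps_BEZ.comp Ph_BEZ.toRingHom = RingHom.id _ := by
    refine MvPolynomial.ringHom_ext (fun c => ?_) fun i => ?_
    · simp [Ps_BEZ, Ph_BEZ]
    · fin_cases i <;> simp [Ps_BEZ, Ph_BEZ]
  exact congrArg (· f) h

theorem right_BEZ (p : Polynomial (Polynomial ℂ)) : Ph_BEZ (Ps_BEZ p) = p := by
  have h : Ph_BEZ.toRingHom.comp Ps_BEZ = RingHom.id _ := by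
    refine Polynomial.ringHom_ext' (Polynomial.ringHom_ext (fun c => ?_) ?_) ?_
    · simp [Ps_BEZ, Ph_BEZ]
    · simp [Ps_BEZ, Ph_BEZ]
      ring
    · simp [Ps_BEZ, Ph_BEZ]
  exact congrArg (· p) h

theorem deg_BEZ {f : AA} {D : ℕ} (h : f.totalDegree ≤ D) : Bd_BEZ D (Ph_BEZ f) := by
  have h1 : Bd_BEZ 1 (Polynomial.C Polynomial.X +
      Polynomial.C (Polynomial.C (-om)) * Polynomial.X) := by
    have := sum_BEZ (a := 1) univ ![Polynomial.C Polynomial.X,
      Polynomial.C (Polynomial.C (-om)) * Polynomial.X] fun i _ => by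
        fin_cases i
        exacts [C_BEZ (by simp), mul_BEZ (C_BEZ (a := 0) (by simp)) X_BEZ]
    rwa [Fin.sum_univ_two] at this
  rw [f.as_sum, map_sum]
  refine sum_BEZ _ _ fun m hm => ?_
  have h2 := (MvPolynomial.le_totalDegree hm).trans h
  rw [Finsupp.sum_fintype _ _ fun _ => rfl, Fin.sum_univ_two] at h2
  rw [Ph_BEZ, MvPolynomial.aeval_monomial, Finsupp.prod_fintype _ _ fun _ => pow_zero _,
    Fin.prod_univ_two]
  have h3 := mul_BEZ (C_BEZ (a := 0) (c := Polynomial.C (MvPolynomial.coeff m f)) (by simp))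
    (mul_BEZ (pow_BEZ X_BEZ (m 0)) (pow_BEZ h1 (m 1)))
  rw [zero_add] at h3
  exact ⟨h3.1.trans h2, fun i => (h3.2 i).trans h2⟩

theorem BEZ_pf : BEZ_st := by
  intro f g D hf h h1 h2
  have d1 := deg_BEZ h1
  have d2 := deg_BEZ h2
  have hF : Ph_BEZ f ≠ 0 := fun h0 => hf (by rw [← left_BEZ f, h0, map_zero])
  have hR : IsRelPrime (Ph_BEZ f) (Ph_BEZ g) := fun d k1 k2 => by
    rw [← right_BEZ d]
    exact (h (left_BEZ f ▸ map_dvd Ps_BEZ k1) (left_BEZ g ▸ map_dvd Ps_BEZ k2)).map Ph_BEZ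
  have hg := d2.1.trans (le_max_left D 1)
  obtain ⟨p, q, -, -, e⟩ := Polynomial.exists_mul_add_mul_eq_C_resultant (Ph_BEZ f) _ le_rfl hg
    (Or.inr (by omega))
  refine ⟨_, res_BEZ hF hR hg, ?_, Ideal.mem_span_pair.2 ⟨Ps_BEZ p, Ps_BEZ q, ?_⟩⟩
  · rw [Polynomial.resultant, Matrix.det_apply']
    refine Polynomial.natDegree_sum_le_of_forall_le _ _ fun s _ => ?_
    refine (Polynomial.natDegree_mul_le_of_le (Polynomial.natDegree_intCast _).le
      ((Polynomial.natDegree_prod_le _ _).trans (sum_le_card_nsmul _ _ D fun j _ => ?_))).trans ?_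
    · rw [Polynomial.sylvester, Matrix.of_apply]
      refine j.addCases (fun j => ?_) fun j => ?_
      · rw [Fin.addCases_left]
        split_ifs
        exacts [d2.2 _, by simp]
      · rw [Fin.addCases_right]
        split_ifs
        exacts [d1.2 _, by simp]
    · rw [zero_add, card_univ, Fintype.card_fin, smul_eq_mul]
      rcases D with _ | D
      · simp
      · rw [max_eq_left (by omega)]
        nlinarith [d1.1]
  · have e2 := congrArg Ps_BEZ e
    rw [map_add, map_mul, map_mul, left_BEZ, left_BEZ] at e2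
    rw [mul_comm _ f, mul_comm _ g, e2, Ps_BEZ, Polynomial.coe_eval₂RingHom, Polynomial.eval₂_C]
    rfl

end

section

theorem tr_tr_FAC (w w' : Fin 2 → ℂ) (f : AA) : tr w (tr w' f) = tr (w + w') f := by
  have : (tr w).comp (tr w') = tr (w + w') := by
    refine MvPolynomial.algHom_ext fun k => ?_
    simp [tr, add_assoc]
  exact AlgHom.congr_fun this f

theorem tr_zero_FAC (f : AA) : tr 0 f = f := by
  have : tr 0 = AlgHom.id ℂ AA := by
    refine MvPolynomial.algHom_ext fun k => ?_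
    simp [tr]
  rw [this]; rfl

theorem prime_tr_FAC (w : Fin 2 → ℂ) {P : AA} (hP : Prime P) : Prime (tr w P) :=
  (MulEquiv.prime_iff (AlgEquiv.ofAlgHom (tr w) (tr (-w))
    (AlgHom.ext fun f => by simp [tr_tr_FAC, tr_zero_FAC])
    (AlgHom.ext fun f => by simp [tr_tr_FAC, tr_zero_FAC]))).2 hP

theorem aeval_tr_FAC (z w : Fin 2 → ℂ) (f : AA) :
    MvPolynomial.aeval z (tr w f) = MvPolynomial.aeval (z + w) f := by
  have : (MvPolynomial.aeval z).comp (tr w) = MvPolynomial.aeval (z + w) := by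
    refine MvPolynomial.algHom_ext fun k => ?_
    simp [tr]
  exact AlgHom.congr_fun this f

theorem dd_X_FAC (k : Fin 2) : dd (MvPolynomial.X k) = MvPolynomial.C (![1, om] k) := by
  fin_cases k <;> simp [dd, MvPolynomial.smul_eq_C_mul]

theorem dd_C_FAC (a : ℂ) : dd (MvPolynomial.C a) = 0 := dd.map_algebraMap a

theorem dd_tr_FAC (w : Fin 2 → ℂ) (f : AA) : dd (tr w f) = tr w (dd f) := by
  have hC : ∀ a : ℂ, tr w (MvPolynomial.C a) = MvPolynomial.C a := fun a => (tr w).commutes a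
  induction f using MvPolynomial.induction_on with
  | C a => rw [hC, dd_C_FAC, map_zero]
  | add p q hp hq => simp only [map_add, hp, hq]
  | mul_X p k hp =>
    have hX : tr w (MvPolynomial.X k) = MvPolynomial.X k + MvPolynomial.C (w k) := by simp [tr]
    simp only [map_mul, Derivation.leibniz, smul_eq_mul, map_add, hp, hX, dd_X_FAC, dd_C_FAC, hC,
      add_zero]

theorem it_tr_FAC (w : Fin 2 → ℂ) (k : ℕ) (f : AA) : dd^[k] (tr w f) = tr w (dd^[k] f) := by
  induction k with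
  | zero => rfl
  | succ k ih => rw [Function.iterate_succ_apply', Function.iterate_succ_apply', ih, dd_tr_FAC]

/-- restriction to a line -/
def li_FAC (z θ : Fin 2 → ℂ) : AA →ₐ[ℂ] Polynomial ℂ :=
  MvPolynomial.aeval fun k => Polynomial.C (θ k) * Polynomial.X + Polynomial.C (z k)

theorem eval_li_FAC (z θ : Fin 2 → ℂ) (t : ℂ) (f : AA) :
    (li_FAC z θ f).eval t = MvPolynomial.aeval (fun k => θ k * t + z k) f := by
  have : (Polynomial.aeval t).comp (li_FAC z θ) = MvPolynomial.aeval fun k => θ k * t + z k := by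
    refine MvPolynomial.algHom_ext fun k => ?_
    simp [li_FAC]
  rw [← Polynomial.coe_aeval_eq_eval]
  exact AlgHom.congr_fun this f

theorem der_li_FAC (z : Fin 2 → ℂ) (f : AA) :
    Polynomial.derivative (li_FAC z ![1, om] f) = li_FAC z ![1, om] (dd f) := by
  have hC : ∀ a : ℂ, li_FAC z ![1, om] (MvPolynomial.C a) = Polynomial.C a :=
    fun a => (li_FAC z ![1, om]).commutes a
  induction f using MvPolynomial.induction_on with
  | C a => rw [hC, dd_C_FAC, map_zero, Polynomial.derivative_C]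
  | add p q hp hq => simp only [map_add, hp, hq]
  | mul_X p k hp =>
    have hX : li_FAC z ![1, om] (MvPolynomial.X k) =
      Polynomial.C (![1, om] k) * Polynomial.X + Polynomial.C (z k) := by simp [li_FAC]
    simp only [map_mul, Derivation.leibniz, smul_eq_mul, map_add, hX, dd_X_FAC, hC,
      Polynomial.derivative_mul, hp, Polynomial.derivative_C, Polynomial.derivative_X]
    ring

theorem line_FAC {P : AA} (hP : ¬ IsUnit P) (h : P ∣ dd P) :
    ∃ z : Fin 2 → ℂ, ∀ t : ℂ, MvPolynomial.aeval (fun k => ![1, om] k * t + z k) P = 0 := by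
  obtain ⟨I, hI, hPI⟩ := Ideal.exists_le_maximal (Ideal.span {P})
    (mt Ideal.span_singleton_eq_top.1 hP)
  obtain ⟨z, rfl⟩ := MvPolynomial.isMaximal_iff_eq_vanishingIdeal_singleton.1 hI
  have hz := (MvPolynomial.mem_vanishingIdeal_singleton_iff z P).1
    (hPI (Ideal.mem_span_singleton_self P))
  have h0 : li_FAC z ![1, om] P = 0 := by
    by_contra hne
    have h1 := map_dvd (li_FAC z ![1, om]) h
    rw [← der_li_FAC] at h1
    have h2 := Polynomial.eq_C_of_derivative_eq_zero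
      (Polynomial.eq_zero_of_dvd_of_degree_lt h1 (Polynomial.degree_derivative_lt hne))
    rw [Polynomial.coeff_zero_eq_eval_zero, eval_li_FAC] at h2
    simp only [mul_zero, zero_add, hz, map_zero] at h2
    exact hne h2
  exact ⟨z, fun t => by rw [← eval_li_FAC, h0, Polynomial.eval_zero]⟩

theorem cnt_FAC {Δ : AA} {D n : ℕ} (h0 : Δ ≠ 0) (hD : Δ.totalDegree ≤ D) (z : Fin 2 → ℂ)
    (h : ∀ w : Fin 2 → Fin (n + 1), ∀ t : ℂ,
      MvPolynomial.aeval ((fun k => ![1, om] k * t + z k) + fun k => ((w k : ℕ) : ℂ)) Δ = 0) :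
    (n + 1) ^ 2 ≤ D := by
  by_contra hlt
  refine h0 (MvPolynomial.funext fun q => ?_)
  have h1 : (li_FAC ![q 0, 0] ![0, 1] Δ).natDegree ≤ D * 1 :=
    MvPolynomial.aeval_natDegree_le Δ hD _ fun _ => Polynomial.natDegree_linear_le
  have h2 : li_FAC ![q 0, 0] ![0, 1] Δ = 0 := by
    refine Polynomial.eq_zero_of_natDegree_lt_card_of_eval_eq_zero _
      (f := fun w : Fin 2 → Fin (n + 1) => om * (q 0 - z 0 - (w 0 : ℕ)) + z 1 + (w 1 : ℕ))
      (fun w w' e => ?_) (fun w => ?_) (by simp; omega)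
    · have h3 := om_ind (a := ((w 1 : ℕ) : ℝ) - (w' 1 : ℕ)) (b := ((w' 0 : ℕ) : ℝ) - (w 0 : ℕ))
        (by push_cast; linear_combination e)
      funext k
      fin_cases k
      · exact Fin.ext (Nat.cast_injective (R := ℝ) (sub_eq_zero.1 h3.2).symm)
      · exact Fin.ext (Nat.cast_injective (R := ℝ) (sub_eq_zero.1 h3.1))
    · rw [eval_li_FAC]
      refine Eq.trans ?_ (h w (q 0 - z 0 - (w 0 : ℕ)))
      refine congrArg (fun x => MvPolynomial.aeval x Δ) (funext fun k => ?_)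
      fin_cases k
      · simp only [Fin.zero_eta, Matrix.cons_val_zero, Pi.add_apply]
        ring
      · simp
  have h3 := eval_li_FAC ![q 0, 0] ![0, 1] (q 1) Δ
  rw [h2, Polynomial.eval_zero] at h3
  rw [map_zero, ← MvPolynomial.coe_aeval_eq_eval]
  refine Eq.trans ?_ h3.symm
  change MvPolynomial.aeval q Δ = _
  congr 2
  funext k
  fin_cases k <;> simp

theorem deg_FAC {P : AA} (hP : Prime P) (m : ℕ) : m ≤ (P ^ m).totalDegree := by
  have h1 : 1 ≤ P.totalDegree := by
    by_contra h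
    have h2 := MvPolynomial.totalDegree_eq_zero_iff_eq_C.1 (by omega : P.totalDegree = 0)
    refine hP.not_isUnit (h2 ▸ (IsUnit.mk0 _ fun h3 => hP.ne_zero ?_).map MvPolynomial.C)
    rw [h2, h3, map_zero]
  induction m with
  | zero => exact Nat.zero_le _
  | succ m ih =>
    rw [pow_succ, MvPolynomial.totalDegree_mul_of_isDomain (pow_ne_zero _ hP.ne_zero) hP.ne_zero]
    omega

theorem prod_FAC (Q : ℕ → AA) (hQ : ∀ j, Prime (Q j)) (m N : ℕ) :
    N * m ≤ (∏ j ∈ range N, Q j ^ m).totalDegree := by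
  induction N with
  | zero => simp
  | succ N ih =>
    rw [prod_range_succ, MvPolynomial.totalDegree_mul_of_isDomain
      (prod_ne_zero_iff.2 fun j _ => pow_ne_zero _ (hQ j).ne_zero) (pow_ne_zero _ (hQ N).ne_zero),
      Nat.succ_mul]
    exact Nat.add_le_add ih (deg_FAC (hQ N) m)

theorem FAC_pf (hGRID : GRID_st) (hPW : PW_st) : FAC_st := by
  intro Δ P D n g h0 hD hP h
  by_cases hd : P ∣ dd P
  · obtain ⟨z, hz⟩ := line_FAC hP.not_isUnit hd
    refine Or.inl (cnt_FAC h0 hD z fun w t => ?_)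
    obtain ⟨c, hc⟩ := h (fun i => w i) (fun i => Nat.le_of_lt_succ (w i).2) 0 (Nat.zero_le _)
    rw [Function.iterate_zero_apply] at hc
    rw [← aeval_tr_FAC, hc, map_mul, hz, zero_mul]
  right
  obtain ⟨i, hi⟩ : ∃ i : Fin 2, ∀ u : ℕ, 0 < u → ¬ P ∣ tr (Pi.single i (u : ℂ)) P := by
    by_contra hn
    simp only [not_exists, not_forall, not_not] at hn
    obtain ⟨u, hu, h1⟩ := hn 0
    obtain ⟨v, hv, h2⟩ := hn 1
    obtain ⟨c, rfl⟩ := hGRID P u v hP.ne_zero hu hv h1 h2
    exact hd (by rw [dd_C_FAC]; exact dvd_zero _)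
  obtain ⟨Q, hQ⟩ : ∃ Q : ℕ → AA, ∀ j, Q j = tr (-Pi.single i (j : ℂ)) P := ⟨_, fun _ => rfl⟩
  have hQp : ∀ j, Prime (Q j) := fun j => hQ j ▸ prime_tr_FAC _ hP.prime
  have hlt : ∀ j j', j < j' → IsRelPrime (Q j') (Q j) := fun j j' hj =>
    (hQp j').irreducible.isRelPrime_iff_not_dvd.2 fun h1 => hi (j' - j) (by omega) (by
      have h2 := map_dvd (tr (Pi.single i (j' : ℂ))) h1
      rwa [hQ, hQ, tr_tr_FAC, tr_tr_FAC, add_neg_cancel, tr_zero_FAC, ← sub_eq_add_neg,
        ← Pi.single_sub, ← Nat.cast_sub hj.le] at h2)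
  have hdv : ∏ j ∈ range (n + 1), Q j ^ (g + 1) ∣ Δ := by
    refine Finset.prod_dvd_of_isRelPrime (fun j _ j' _ hne => ?_) fun j hj => ?_
    · rcases lt_or_gt_of_ne hne with h1 | h1
      · exact (hlt j j' h1).symm.pow
      · exact (hlt j' j h1).pow
    · refine hPW _ _ g (hQp j) (fun h1 => hd ?_) fun k hk => ?_
      · have h2 := map_dvd (tr (Pi.single i (j : ℂ))) h1
        rwa [hQ, dd_tr_FAC, tr_tr_FAC, tr_tr_FAC, add_neg_cancel, tr_zero_FAC, tr_zero_FAC] at h2
      · have e : (fun l => ((Pi.single i j : Fin 2 → ℕ) l : ℂ)) = Pi.single i (j : ℂ) := by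
          funext l
          by_cases hl : l = i <;> simp [hl]
        have h1 := h (Pi.single i j) (fun l => by
          have := mem_range.1 hj
          by_cases hl : l = i <;> simp [hl]
          omega) k hk
        have h2 := map_dvd (tr (-Pi.single i (j : ℂ))) h1
        rwa [e, it_tr_FAC, tr_tr_FAC, neg_add_cancel, tr_zero_FAC, ← hQ] at h2
  exact (prod_FAC Q hQp _ _).trans
    ((MvPolynomial.totalDegree_le_of_dvd_of_isDomain hdv h0).trans hD)

end

section

theorem dln_SZ (j : ℕ) (θ : ℂ) : PowerSeries.derivative ℂ (ln j θ) = C θ := by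
  rw [ln, map_add, derivative_C, zero_add, Derivation.leibniz, derivative_C, derivative_X]
  simp

theorem ev_X0_SZ (j : Fin 2 → ℕ) : ev j (MvPolynomial.X 0) = ln (j 0) 1 := by
  simp [ev]

theorem ev_X1_SZ (j : Fin 2 → ℕ) : ev j (MvPolynomial.X 1) = ln (j 1) om := by
  simp [ev]

theorem ev_C_SZ (j : Fin 2 → ℕ) (c : ℂ) : ev j (MvPolynomial.C c) = C c := by
  rw [ev, MvPolynomial.aeval_C]
  rfl

theorem ddX_SZ (j : Fin 2 → ℕ) (i : Fin 2) :
    ev j (dd (MvPolynomial.X i)) = PowerSeries.derivative ℂ (ev j (MvPolynomial.X i)) := by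
  fin_cases i
  · have h : dd (MvPolynomial.X 0) = 1 := by simp [dd]
    simp only [Fin.zero_eta, h, ev_X0_SZ, dln_SZ, map_one]
  · have h : dd (MvPolynomial.X 1) = MvPolynomial.C om := by
      simp [dd, MvPolynomial.smul_eq_C_mul]
    simp only [Fin.mk_one, h, ev_X1_SZ, dln_SZ, ev_C_SZ]

theorem ev_dd_SZ (j : Fin 2 → ℕ) (f : AA) :
    ev j (dd f) = PowerSeries.derivative ℂ (ev j f) := by
  induction f using MvPolynomial.induction_on with
  | C a =>
    have h : dd (MvPolynomial.C a) = 0 := dd.map_algebraMap a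
    rw [h, map_zero, ev_C_SZ, derivative_C]
  | add p q hp hq => simp only [map_add, hp, hq]
  | mul_X p i hp =>
    rw [Derivation.leibniz, map_mul, Derivation.leibniz, map_add, smul_eq_mul, smul_eq_mul,
      map_mul, map_mul, hp, ddX_SZ, smul_eq_mul, smul_eq_mul]

theorem ev_tr_SZ (j w : Fin 2 → ℕ) (f : AA) :
    ev j (tr (fun i => (w i : ℂ)) f) = ev (j + w) f := by
  have h : (ev j).comp (tr fun i => (w i : ℂ)) = ev (j + w) := by
    refine MvPolynomial.algHom_ext fun i => ?_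
    rw [AlgHom.comp_apply, tr, MvPolynomial.aeval_X, map_add, ev_C_SZ]
    fin_cases i
    · simp only [Fin.zero_eta, ev_X0_SZ, ln, Pi.add_apply, Nat.cast_add, map_add]
      ring
    · simp only [Fin.mk_one, ev_X1_SZ, ln, Pi.add_apply, Nat.cast_add, map_add]
      ring
  exact DFunLike.congr_fun h f

theorem dvd_der_SZ (e : ℕ) (F : ℂ⟦X⟧) (h : (X : ℂ⟦X⟧) ^ (e + 1) ∣ F) :
    (X : ℂ⟦X⟧) ^ e ∣ PowerSeries.derivative ℂ F := by
  rw [X_pow_dvd_iff] at h ⊢
  intro m hm
  rw [coeff_derivative, h (m + 1) (by omega), zero_mul]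

theorem dvd_iter_SZ (j : Fin 2 → ℕ) (k : ℕ) : ∀ (e : ℕ) (f : AA),
    (X : ℂ⟦X⟧) ^ (e + k) ∣ ev j f → (X : ℂ⟦X⟧) ^ e ∣ ev j (dd^[k] f) := by
  induction k with
  | zero => exact fun e f h => h
  | succ k ih =>
    intro e f h
    rw [Function.iterate_succ_apply]
    refine ih e _ ?_
    rw [ev_dd_SZ]
    exact dvd_der_SZ _ _ h

theorem deg_tr_SZ (w : Fin 2 → ℂ) (f : AA) : (tr w f).totalDegree ≤ f.totalDegree := by
  conv_lhs => rw [f.as_sum, map_sum]
  refine MvPolynomial.totalDegree_finsetSum_le fun s hs => ?_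
  refine le_trans ?_ (MvPolynomial.le_totalDegree hs)
  rw [tr, MvPolynomial.aeval_monomial]
  refine (MvPolynomial.totalDegree_mul _ _).trans ?_
  have h0 : (algebraMap ℂ AA (MvPolynomial.coeff s f)).totalDegree = 0 :=
    MvPolynomial.totalDegree_C _
  rw [h0, zero_add, Finsupp.prod, Finsupp.sum]
  refine (MvPolynomial.totalDegree_finsetProd _ _).trans (sum_le_sum fun i _ => ?_)
  refine (MvPolynomial.totalDegree_pow _ _).trans ?_
  have h1 : (MvPolynomial.X i + MvPolynomial.C (w i) : AA).totalDegree ≤ 1 := by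
    refine (MvPolynomial.totalDegree_add _ _).trans ?_
    simp
  exact (Nat.mul_le_mul_left _ h1).trans (by simp)

theorem deg_pd_SZ (i : Fin 2) (f : AA) :
    (MvPolynomial.pderiv i f).totalDegree ≤ f.totalDegree := by
  conv_lhs => rw [f.as_sum, map_sum]
  refine MvPolynomial.totalDegree_finsetSum_le fun s hs => ?_
  refine le_trans ?_ (MvPolynomial.le_totalDegree hs)
  rw [MvPolynomial.pderiv_monomial]
  refine (MvPolynomial.totalDegree_monomial_le _ _).trans ?_
  rw [Finsupp.sum_fintype _ _ (fun _ => rfl), Finsupp.sum_fintype _ _ (fun _ => rfl)]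
  exact sum_le_sum fun k _ => by simp

theorem deg_dd_SZ (k : ℕ) (f : AA) : (dd^[k] f).totalDegree ≤ f.totalDegree := by
  induction k with
  | zero => exact le_rfl
  | succ k ih =>
    rw [Function.iterate_succ_apply']
    refine le_trans ?_ ih
    rw [dd, Derivation.add_apply, Derivation.smul_apply]
    exact (MvPolynomial.totalDegree_add _ _).trans (max_le (deg_pd_SZ _ _)
      ((MvPolynomial.totalDegree_smul_le _ _).trans (deg_pd_SZ _ _)))

theorem cc_SZ (l c : ℂ) (q : Polynomial ℂ) :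
    constantCoeff (Polynomial.aeval (C l + C c * X : ℂ⟦X⟧) q) = q.eval l := by
  induction q using Polynomial.induction_on' with
  | add p q hp hq => rw [map_add, map_add, hp, hq, Polynomial.eval_add]
  | monomial n a => simp [Polynomial.aeval_monomial]

theorem root_SZ (ρ : Polynomial ℂ) (hρ : ρ ≠ 0) (l c : ℂ) (hc : c ≠ 0) (g : ℕ)
    (h : (X : ℂ⟦X⟧) ^ g ∣ Polynomial.aeval (C l + C c * X : ℂ⟦X⟧) ρ) :
    (Polynomial.X - Polynomial.C l) ^ g ∣ ρ := by
  obtain ⟨q, hq, hq'⟩ := ρ.exists_eq_pow_rootMultiplicity_mul_and_not_dvd hρ l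
  generalize ρ.rootMultiplicity l = m at hq
  by_cases hm : g ≤ m
  · rw [hq]
    exact (pow_dvd_pow _ hm).mul_right _
  exfalso
  have h1 : (X : ℂ⟦X⟧) ^ (m + 1) ∣ Polynomial.aeval (C l + C c * X : ℂ⟦X⟧) ρ :=
    (pow_dvd_pow _ (by omega)).trans h
  have h2 : Polynomial.aeval (C l + C c * X : ℂ⟦X⟧) ρ =
      X ^ m * (C (c ^ m) * Polynomial.aeval (C l + C c * X : ℂ⟦X⟧) q) := by
    have h3 : algebraMap ℂ ℂ⟦X⟧ l = C l := rfl
    rw [hq, map_mul, map_pow, map_sub, Polynomial.aeval_X, Polynomial.aeval_C, h3, map_pow]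
    ring
  rw [h2, pow_succ, mul_dvd_mul_iff_left (pow_ne_zero _ X_ne_zero), X_dvd_iff, map_mul,
    constantCoeff_C] at h1
  rw [cc_SZ] at h1
  exact hq' (Polynomial.dvd_iff_isRoot.mpr
    ((mul_eq_zero.mp h1).resolve_left (pow_ne_zero _ hc)))

theorem ev_lin_SZ (j : Fin 2 → ℕ) :
    ev j (MvPolynomial.X 1 + MvPolynomial.C om * MvPolynomial.X 0) =
      C ((j 1 : ℂ) + (j 0 : ℂ) * om) + C (2 * om) * X := by
  rw [map_add, map_mul, ev_X0_SZ, ev_X1_SZ, ev_C_SZ, ln, ln, map_add, map_mul, map_mul, map_one,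
    map_ofNat]
  ring

theorem cnt_SZ (ρ : Polynomial ℂ) (hρ : ρ ≠ 0) (n g : ℕ)
    (h : ∀ j : Fin 2 → ℕ, (∀ i, j i ≤ n) →
      (Polynomial.X - Polynomial.C ((j 1 : ℂ) + (j 0 : ℂ) * om)) ^ g ∣ ρ) :
    (n + 1) ^ 2 * g ≤ ρ.natDegree := by
  let s : (Fin 2 → Fin (n + 1)) → ℂ := fun j => ((j 1 : ℕ) : ℂ) + ((j 0 : ℕ) : ℂ) * om
  have hs : Function.Injective s := by
    intro a b hab
    have h1 : ((((a 1 : ℕ) : ℝ) - ((b 1 : ℕ) : ℝ) : ℝ) : ℂ) +
        ((((a 0 : ℕ) : ℝ) - ((b 0 : ℕ) : ℝ) : ℝ) : ℂ) * om = 0 := by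
      push_cast
      simp only [s] at hab
      linear_combination hab
    obtain ⟨h2, h3⟩ := om_ind h1
    have h4 : (a 1 : ℕ) = b 1 := by exact_mod_cast sub_eq_zero.mp h2
    have h5 : (a 0 : ℕ) = b 0 := by exact_mod_cast sub_eq_zero.mp h3
    funext i
    fin_cases i
    exacts [Fin.ext h5, Fin.ext h4]
  have hd : ∏ j : Fin 2 → Fin (n + 1), (Polynomial.X - Polynomial.C (s j)) ^ g ∣ ρ :=
    Finset.prod_dvd_of_coprime
      (fun a _ b _ hab => (Polynomial.pairwise_coprime_X_sub_C hs hab).pow)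
      fun j _ => h (fun i => j i) fun i => Nat.lt_succ_iff.mp (j i).2
  have hn := Polynomial.natDegree_le_of_dvd hd hρ
  rw [Polynomial.natDegree_prod_of_monic _ _
    fun j _ => (Polynomial.monic_X_sub_C _).pow _] at hn
  simpa [Polynomial.natDegree_pow] using hn

/-- the polynomials of small degree that vanish to a high order on the grid -/
def W_SZ (D n g : ℕ) : Submodule ℂ AA where
  carrier := {f | f.totalDegree ≤ D ∧ ∀ j : Fin 2 → ℕ, (∀ i, j i ≤ n) → (X : ℂ⟦X⟧) ^ g ∣ ev j f}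
  add_mem' := fun ha hb => ⟨(MvPolynomial.totalDegree_add _ _).trans (max_le ha.1 hb.1),
    fun j hj => by
      rw [map_add]
      exact dvd_add (ha.2 j hj) (hb.2 j hj)⟩
  zero_mem' := ⟨by simp, fun j _ => by simp⟩
  smul_mem' := fun c f hf => ⟨(MvPolynomial.totalDegree_smul_le _ _).trans hf.1,
    fun j hj => by
      rw [map_smul]
      exact dvd_smul_of_dvd c (hf.2 j hj)⟩

theorem SZ_pf (hBEZ : BEZ_st) (hFAC : FAC_st) : SZ_st := by
  classical
  intro Δ D n g hΔ hD hv
  by_cases hP : ∃ P : AA, Irreducible P ∧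
      ∀ w : Fin 2 → ℕ, (∀ i, w i ≤ n) → ∀ k ≤ g, P ∣ dd^[k] (tr (fun i => w i) Δ)
  · obtain ⟨P, hP, h⟩ := hP
    exact Or.inr (hFAC Δ P D n g hΔ hD hP h)
  left
  have hF : ∀ w : Fin 2 → ℕ, (∀ i, w i ≤ n) → ∀ k ≤ g,
      dd^[k] (tr (fun i => w i) Δ) ∈ W_SZ D n g := by
    intro w hw k hk
    refine ⟨(deg_dd_SZ _ _).trans ((deg_tr_SZ _ _).trans hD), fun j hj => dvd_iter_SZ j k g _ ?_⟩
    rw [ev_tr_SZ]
    refine (pow_dvd_pow _ (by omega)).trans (hv (j + w) fun i => ?_)
    have := hw i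
    have := hj i
    rw [Pi.add_apply]
    omega
  let p : {P // P ∈ (UniqueFactorizationMonoid.factors Δ).toFinset} → Submodule ℂ (W_SZ D n g) :=
    fun P => ((Ideal.span {P.1}).restrictScalars ℂ).comap (W_SZ D n g).subtype
  have hp : ∀ P (x : W_SZ D n g), x ∈ p P ↔ P.1 ∣ x.1 := fun P x => Ideal.mem_span_singleton
  obtain ⟨Γ, hΓ⟩ := Submodule.exists_forall_notMem_of_forall_ne_top p fun P h => hP
    ⟨P.1, UniqueFactorizationMonoid.irreducible_of_factor _ (Multiset.mem_toFinset.mp P.2),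
      fun w hw k hk => (hp P ⟨_, hF w hw k hk⟩).mp (h ▸ Submodule.mem_top)⟩
  have hrel : IsRelPrime Δ Γ.1 := by
    refine WfDvdMonoid.isRelPrime_of_no_irreducible_factors (fun h => hΔ h.1) fun z hz h1 h2 => ?_
    obtain ⟨q, hq, hzq⟩ := UniqueFactorizationMonoid.exists_mem_factors_of_dvd hΔ hz h1
    exact hΓ ⟨q, Multiset.mem_toFinset.mpr hq⟩ ((hp _ _).mpr (hzq.symm.dvd.trans h2))
  obtain ⟨ρ, hρ, hdeg, hmem⟩ := hBEZ Δ Γ.1 D hΔ hrel hD Γ.2.1
  refine (cnt_SZ ρ hρ n g fun j hj =>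
    root_SZ ρ hρ _ (2 * om) (mul_ne_zero two_ne_zero om_ne) g ?_).trans hdeg
  obtain ⟨a, b, hab⟩ := Ideal.mem_span_pair.mp hmem
  rw [← ev_lin_SZ, Polynomial.aeval_algHom_apply, ← hab, map_add, map_mul, map_mul]
  refine dvd_add (Dvd.dvd.mul_left ?_ _) ((Γ.2.2 j hj).mul_left _)
  exact (pow_dvd_pow _ (by omega)).trans (hv j fun i => (hj i).trans (by omega))

end

section

/-- the increment as a function -/
def psi_RES1 (N : ℕ) (t : ℂ) : ℂ :=
  N * (((1 : ℕ) : ℂ) * t + (1 : ℕ))⁻¹ - ∑ v ∈ Icc 1 N, (N : ℂ) * (N * t + v)⁻¹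

theorem ev_RES1 {f : Polynomial ℂ} (hf : f ≠ 0) (a : ℂ) :
    ∀ᶠ e in nhdsWithin (0 : ℂ) {0}ᶜ, f.eval (a + e) ≠ 0 :=
  nhdsNE_le_cofinite 0 ((Polynomial.finite_setOfPred_isRoot hf).preimage
    (add_right_injective a).injOn).compl_mem_cofinite

theorem bb_RES1 (r : ℕ) : bb r ≠ 0 := by
  refine prod_ne_zero_iff.2 fun q hq h => ?_
  have h1 := congrArg (Polynomial.eval 0) h
  have h2 := (mem_Icc.1 (mem_product.1 hq).2).1
  simp [lf] at h1
  omega

theorem co_RES1 {r N v : ℕ} (hN : N ∈ Icc 1 (r + 1)) (hv : v ∈ Icc 1 (r + 1)) {t : ℂ}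
    (ht : (bb r).eval t ≠ 0) : (co r (N, v)).eval t = (bb r).eval t * ((N : ℂ) * t + v)⁻¹ := by
  have h : lf (N, v) * co r (N, v) = bb r := mul_prod_erase _ _ (mk_mem_product hN hv)
  have h1 : (lf (N, v)).eval t = N * t + v := by simp [lf]
  rw [← h, Polynomial.eval_mul, h1] at ht ⊢
  rw [mul_comm (_ + _), mul_inv_cancel_right₀ (left_ne_zero_of_mul ht)]

theorem ee_RES1 {r N : ℕ} (hN : N ∈ Icc 1 (r + 1)) {t : ℂ} (ht : (bb r).eval t ≠ 0) :
    (ee r N).eval t = (bb r).eval t * psi_RES1 N t := by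
  have h1 : 1 ∈ Icc 1 (r + 1) := by simp
  rw [ee, psi_RES1, Polynomial.eval_sub, Polynomial.eval_finsetSum, Polynomial.eval_C_mul,
    co_RES1 h1 h1 ht, mul_sub, mul_sum, mul_left_comm]
  congr 1
  refine sum_congr rfl fun v hv => ?_
  rw [mem_Icc] at hv hN
  rw [Polynomial.eval_C_mul, co_RES1 (mem_Icc.2 hN) (mem_Icc.2 ⟨hv.1, hv.2.trans hN.2⟩) ht,
    mul_left_comm]

theorem lim0_RES1 {h : ℂ → ℂ} {a : ℂ} (hh : ContinuousAt h a) :
    Tendsto (fun e => e * h (a + e)) (nhdsWithin 0 {0}ᶜ) (nhds 0) := by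
  have h1 : ContinuousAt (fun e => e * h (a + e)) 0 :=
    continuousAt_id.mul (hh.comp_of_eq (by fun_prop) (add_zero a))
  simpa using h1.tendsto.mono_left nhdsWithin_le_nhds

theorem lim1_RES1 (N : ℂ) {M w a : ℂ} (hM : M ≠ 0) :
    Tendsto (fun e => e * (N * (M * (a + e) + w)⁻¹)) (nhdsWithin 0 {0}ᶜ)
      (nhds (if M * a + w = 0 then N / M else 0)) := by
  split_ifs with h
  · refine tendsto_const_nhds.congr' ?_
    filter_upwards [self_mem_nhdsWithin] with e he
    have he' : e ≠ 0 := he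
    rw [show M * (a + e) + w = M * e by linear_combination h]
    field_simp
  · exact lim0_RES1 (h := fun t => N * (M * t + w)⁻¹)
      (continuousAt_const.mul (ContinuousAt.inv₀ (by fun_prop) h))

theorem int_RES1 {N M v : ℕ} {k : ℤ} (hN : 2 ≤ N) (h1 : 1 ≤ M) (hM : M ≤ N) (h2 : 1 ≤ v)
    (hv : v ≤ M) (h : (M : ℂ) * (-(N : ℂ)⁻¹ + k) + v = 0) : M = N ∧ k = 0 ∧ v = 1 := by
  have h0 : (N : ℂ) ≠ 0 := by exact_mod_cast (show N ≠ 0 by omega)
  have h3 : (M : ℤ) = N * (M * k + v) := by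
    have : (M : ℂ) = N * (M * k + v) := by
      field_simp at h
      linear_combination -h
    exact_mod_cast this
  have h4 : M = N := le_antisymm hM (Nat.le_of_dvd h1 (Int.natCast_dvd_natCast.1 ⟨_, h3⟩))
  subst h4
  have h5 : (M : ℤ) * k + v = 1 := mul_left_cancel₀ (a := (M : ℤ)) (by omega) (by linarith)
  have h6 : k = 0 := by
    rcases lt_trichotomy k 0 with h | h | h
    · nlinarith
    · exact h
    · nlinarith
  subst h6
  exact ⟨rfl, rfl, by omega⟩

theorem lim2_RES1 {N M : ℕ} (k : ℤ) (hN : 2 ≤ N) (h1 : 1 ≤ M) (hM : M ≤ N) :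
    Tendsto (fun e => e * psi_RES1 M (-(N : ℂ)⁻¹ + k + e)) (nhdsWithin 0 {0}ᶜ)
      (nhds (if M = N ∧ k = 0 then -1 else 0)) := by
  have h0 : (M : ℂ) ≠ 0 := by exact_mod_cast (show M ≠ 0 by omega)
  have h := (lim1_RES1 M (M := (1 : ℕ)) (w := (1 : ℕ)) (a := -(N : ℂ)⁻¹ + k) (by simp)).sub
    (tendsto_finsetSum (Icc 1 M) fun v _ =>
      lim1_RES1 M (M := M) (w := v) (a := -(N : ℂ)⁻¹ + k) h0)
  rw [if_neg fun h => by have := int_RES1 hN le_rfl (by omega) le_rfl le_rfl h; omega] at h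
  have e : (0 : ℂ) - ∑ v ∈ Icc 1 M, (if (M : ℂ) * (-(N : ℂ)⁻¹ + k) + v = 0 then (M : ℂ) / M else 0) =
      if M = N ∧ k = 0 then -1 else 0 := by
    split_ifs with h2
    · obtain ⟨rfl, rfl⟩ := h2
      rw [sum_eq_single_of_mem 1 (mem_Icc.2 ⟨le_rfl, h1⟩) fun v hv h3 => if_neg fun h4 =>
        h3 (int_RES1 hN h1 hM (mem_Icc.1 hv).1 (mem_Icc.1 hv).2 h4).2.2, if_pos (by simp [h0]),
        div_self h0, zero_sub]
    · rw [sum_eq_zero fun v hv => if_neg fun h4 => h2 ?_, sub_zero]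
      have := int_RES1 hN h1 hM (mem_Icc.1 hv).1 (mem_Icc.1 hv).2 h4
      exact ⟨this.1, this.2.1⟩
  rw [e] at h
  simpa only [psi_RES1, mul_sub, mul_sum] using h

theorem RES1_pf : RES1_st := by
  intro r c f g hf h
  by_contra hc
  obtain ⟨l, hl, hmax⟩ := exists_max_image (univ.filter fun l => c l ≠ 0) id (by
    obtain ⟨l, hl⟩ := Function.ne_iff.1 hc
    exact ⟨l, mem_filter.2 ⟨mem_univ _, hl⟩⟩)
  replace hl := (mem_filter.1 hl).2
  obtain ⟨β, hβ⟩ : ∃ β : ℂ, β = -((l + 2 : ℕ) : ℂ)⁻¹ := ⟨_, rfl⟩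
  let φ : ℂ → ℂ := fun t => g.eval t / f.eval t
  let T : ℤ → ℂ → ℂ := fun k e => e * φ (β + k + e)
  have key : ∀ k : ℤ, Tendsto (fun e => T k e - T (k + 1) e) (nhdsWithin 0 {0}ᶜ)
      (nhds (if k = 0 then -c l else 0)) := by
    intro k
    have h1 : Tendsto (fun e => ∑ j, c j * (e * psi_RES1 (j + 2) (β + k + e)))
        (nhdsWithin 0 {0}ᶜ) (nhds (∑ j, if j = l then (if k = 0 then -c l else 0) else 0)) := by
      refine tendsto_finsetSum _ fun j _ => ?_
      by_cases hj : c j = 0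
      · rw [if_neg fun e : j = l => hl (e ▸ hj)]
        simp [hj]
      have h2 : (j : ℕ) ≤ l := hmax j (mem_filter.2 ⟨mem_univ _, hj⟩)
      have h3 := (lim2_RES1 (N := l + 2) (M := j + 2) k (by omega) (by omega)
        (by omega)).const_mul (c j)
      rw [← hβ] at h3
      refine h3.trans (le_of_eq (congrArg nhds ?_))
      by_cases h4 : j = l
      · subst h4
        by_cases h5 : k = 0 <;> simp [h5]
      · rw [if_neg h4, if_neg fun h5 => h4 (Fin.ext (by omega)), mul_zero]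
    rw [sum_ite_eq' univ l, if_pos (mem_univ l)] at h1
    refine h1.congr' ?_
    filter_upwards [ev_RES1 hf (β + k), ev_RES1 hf (β + k + 1), ev_RES1 (bb_RES1 r) (β + k)]
      with e a1 a2 a3
    have h2 := congrArg (Polynomial.eval (β + k + e)) h
    have h3 : β + k + 1 + e = β + k + e + 1 := add_right_comm _ _ _
    have h4 : ∑ j, c j * (e * psi_RES1 (j + 2) (β + k + e)) =
        e * ∑ j, c j * psi_RES1 (j + 2) (β + k + e) := by
      rw [mul_sum]
      exact sum_congr rfl fun j _ => mul_left_comm _ _ _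
    have h5 : ∑ j : Fin r, c j * (ee r (j + 2)).eval (β + k + e) =
        (bb r).eval (β + k + e) * ∑ j, c j * psi_RES1 (j + 2) (β + k + e) := by
      rw [mul_sum]
      refine sum_congr rfl fun j _ => ?_
      rw [ee_RES1 (mem_Icc.2 ⟨by omega, by omega⟩) a3, mul_left_comm]
    simp only [Polynomial.eval_mul, Polynomial.eval_sub, Polynomial.eval_comp, Polynomial.eval_add,
      Polynomial.eval_X, Polynomial.eval_one, Polynomial.eval_finsetSum, Polynomial.eval_C,
      h5] at h2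
    simp only [T, φ, Int.cast_add, Int.cast_one, ← add_assoc, h3, h4] at a2 ⊢
    rw [← mul_sub, div_sub_div _ _ a1 a2]
    congr 1
    rw [eq_div_iff (mul_ne_zero a1 a2)]
    refine mul_left_cancel₀ a3 ?_
    linear_combination -h2
  let P : ℤ → Prop := fun k => Tendsto (T k) (nhdsWithin 0 {0}ᶜ) (nhds 0)
  have far : ∀ s : ℕ → ℤ, Function.Injective s → ∃ n, P (s n) := fun s hs => by
    obtain ⟨n, hn⟩ := ((Polynomial.finite_setOfPred_isRoot hf).preimage (f := fun n => β + (s n : ℂ))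
      (((add_right_injective β).comp (Int.cast_injective.comp hs)).injOn)).exists_notMem
    exact ⟨n, lim0_RES1 (h := φ) (g.continuousAt.div f.continuousAt hn)⟩
  have up : ∀ n : ℕ, P (-n) → P 0 := fun n => by
    induction n with
    | zero => exact id
    | succ n ih =>
      refine fun h1 => ih ?_
      have h2 := h1.sub (key (-((n + 1 : ℕ) : ℤ)))
      rw [if_neg (by omega), sub_zero, show -((n + 1 : ℕ) : ℤ) + 1 = -n by omega] at h2
      simpa only [sub_sub_cancel] using h2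
  have dn : ∀ n : ℕ, P (n + 1) → P (0 + 1) := fun n => by
    induction n with
    | zero => exact id
    | succ n ih =>
      refine fun h1 => ih ?_
      have h2 := (key ((n + 1 : ℕ) : ℤ)).add h1
      rw [if_neg (by omega), add_zero] at h2
      simp only [sub_add_cancel] at h2
      exact h2
  obtain ⟨n, hn⟩ := far (fun n => -n) fun a b h => by simpa using h
  obtain ⟨m, hm⟩ := far (fun n => n + 1) fun a b h => by simpa using h
  have := tendsto_nhds_unique (key 0) ((up n hn).sub (dn m hm))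
  simp [hl] at this

end

section

/-- restriction to a horizontal line -/
def rs_RES (y : ℂ) : AA →ₐ[ℂ] Polynomial ℂ := MvPolynomial.aeval ![Polynomial.X, Polynomial.C y]

theorem sg_RES (y : ℂ) (f : AA) : rs_RES y (sg 0 f) = (rs_RES y f).comp (Polynomial.X + 1) := by
  have h : (rs_RES y).comp (sg 0) =
      (Polynomial.aeval (Polynomial.X + 1 : Polynomial ℂ)).comp (rs_RES y) :=
    MvPolynomial.algHom_ext fun i => by fin_cases i <;> simp [rs_RES, sg, tr]
  rw [Polynomial.comp_eq_aeval]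
  exact DFunLike.congr_fun h f

theorem pv_RES (y : ℂ) (q : Polynomial ℂ) : rs_RES y (pv 0 q) = q := by
  rw [pv, ← Polynomial.aeval_algHom_apply]
  simp [rs_RES]

theorem ev_RES (x : Fin 2 → ℂ) (f : AA) : (rs_RES (x 1) f).eval (x 0) = MvPolynomial.eval x f := by
  have h : (Polynomial.aeval (x 0)).comp (rs_RES (x 1)) = MvPolynomial.aeval x :=
    MvPolynomial.algHom_ext fun i => by fin_cases i <;> simp [rs_RES]
  exact DFunLike.congr_fun h f

theorem RES_pf (hRES1 : RES1_st) : RES_st := by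
  intro r c f g hf h
  obtain ⟨x, hx⟩ : ∃ x, MvPolynomial.eval x f ≠ 0 := by
    by_contra h1
    refine hf (MvPolynomial.funext fun x => ?_)
    by_contra h2
    exact h1 ⟨x, by simpa using h2⟩
  refine hRES1 r c (rs_RES (x 1) f) (rs_RES (x 1) g) (fun h1 => hx ?_) ?_
  · rw [← ev_RES, h1, Polynomial.eval_zero]
  · have h1 := congrArg (rs_RES (x 1)) h
    simpa only [map_mul, map_sub, map_sum, sg_RES, pv_RES, MvPolynomial.algHom_C,
      Polynomial.algebraMap_eq] using h1

end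

section

theorem bb_ne_Z1 (r : ℕ) (i : Fin 2) : pv i (bb r) ≠ 0 := by
  have h : bb r ≠ 0 := by
    refine prod_ne_zero_iff.2 fun q hq h => ?_
    have h1 := congrArg (Polynomial.eval 0) h
    have h2 := (mem_Icc.1 (mem_product.1 hq).2).1
    simp [lf] at h1
    omega
  intro h0
  exact h (Polynomial.toMvPolynomial_injective i (by rw [map_zero]; exact h0))

theorem min_Z1 {ι κ : Type} [Fintype κ] (e : κ → ι) (P : (ι → AA) → Prop) (h : ∃ v, P v) :
    ∃ v, P v ∧ ∀ w k, P w → v (e k) ≠ 0 → w (e k) = 0 → (∀ l, v (e l) = 0 → w (e l) = 0) → False := by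
  classical
  obtain ⟨v, hv, hm⟩ := (measure fun v : ι → AA => (univ.filter fun l => v (e l) ≠ 0).card).wf.has_min
    {v | P v} h
  refine ⟨v, hv, fun w k hw h1 h2 h3 => hm w hw ?_⟩
  refine card_lt_card ⟨fun l hl => ?_, fun hs => ?_⟩
  · simp only [mem_filter, mem_univ, true_and] at hl ⊢
    exact fun h0 => hl (h3 l h0)
  · have := hs (mem_filter.2 ⟨mem_univ k, h1⟩)
    simp [h2] at this

theorem Z1_pf (hINV : INV_st) (hRES : RES_st) : Z1_st := by
  intro r s γ V hV hS hγ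
  have hW : ∀ v ∈ V, ∀ (f : AA) (i : Fin 2), (pv i (bb r) * sg i f) • v - f • Sh r γ i v ∈ V :=
    fun v hv f i => V.sub_mem (V.smul_mem _ hv) (V.smul_mem _ (hS i v hv))
  have step1 : ∃ v, v ∈ V ∧ v ≠ 0 ∧ ∀ l, v (Sum.inl l) = 0 := by
    by_contra H
    obtain ⟨v, ⟨hv, hv0⟩, hm⟩ := min_Z1 (Sum.inl : Fin r → Fin r ⊕ Fin s) (fun v => v ∈ V ∧ v ≠ 0)
      ((Submodule.ne_bot_iff V).1 hV)
    obtain ⟨l, hl⟩ : ∃ l, v (Sum.inl l) ≠ 0 := by
      by_contra h
      exact H ⟨v, hv, hv0, by simpa using h⟩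
    have hw : ∀ i, (pv i (bb r) * sg i (v (Sum.inl l))) • v - v (Sum.inl l) • Sh r γ i v = 0 := by
      intro i
      by_contra h
      refine hm _ l ⟨hW v hv _ i, h⟩ hl ?_ fun l' h' => ?_
      · simp only [Pi.sub_apply, Pi.smul_apply, smul_eq_mul, Sh, Sum.elim_inl]; ring
      · simp [Sh, h']
    have hc : ∀ l', ∃ c, v (Sum.inl l') = MvPolynomial.C c * v (Sum.inl l) := by
      intro l'
      refine hINV _ _ hl fun i => mul_left_cancel₀ (bb_ne_Z1 r i) ?_
      have := congrFun (hw i) (Sum.inl l')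
      simp only [Pi.sub_apply, Pi.smul_apply, smul_eq_mul, Sh, Sum.elim_inl, Pi.zero_apply] at this
      linear_combination this
    choose c hc using hc
    obtain ⟨h, hh⟩ := Function.ne_iff.1 hγ
    have h1 := congrFun (hw 0) (Sum.inr h)
    simp only [Pi.sub_apply, Pi.smul_apply, smul_eq_mul, Sh, Sum.elim_inr, Pi.zero_apply,
      Matrix.cons_val_zero, one_mul] at h1
    have h2 : MvPolynomial.C (γ h) * ∑ l' : Fin r, sg 0 (v (Sum.inl l')) * pv 0 (ee r (l' + 2)) =
        sg 0 (v (Sum.inl l)) * ∑ l' : Fin r, MvPolynomial.C (γ h * c l') * pv 0 (ee r (l' + 2)) := by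
      rw [mul_sum, mul_sum]
      refine sum_congr rfl fun l' _ => ?_
      rw [hc l', map_mul, map_mul, MvPolynomial.algHom_C, MvPolynomial.algebraMap_eq]
      ring
    rw [h2] at h1
    have h3 := hRES r (fun l' => γ h * c l') _ (v (Sum.inr h)) hl (by linear_combination h1)
    have h4 : c l = 0 := (mul_eq_zero.1 (congrFun h3 l)).resolve_left hh
    exact hl (by rw [hc l, h4]; simp)
  obtain ⟨v, ⟨hv, hv0, hv1⟩, hm⟩ := min_Z1 (Sum.inr : Fin s → Fin r ⊕ Fin s) _ step1
  obtain ⟨l, hl⟩ : ∃ l, v (Sum.inr l) ≠ 0 := by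
    by_contra h
    refine hv0 (funext fun a => ?_)
    cases a with
    | inl a => exact hv1 a
    | inr a => simpa using not_exists.1 h a
  have hw : ∀ i, (pv i (bb r) * sg i (v (Sum.inr l))) • v - v (Sum.inr l) • Sh r γ i v = 0 := by
    intro i
    by_contra h
    refine hm _ l ⟨hW v hv _ i, h, fun l' => ?_⟩ hl ?_ fun l' h' => ?_
    · simp [Sh, hv1]
    · simp only [Pi.sub_apply, Pi.smul_apply, smul_eq_mul, Sh, Sum.elim_inr, hv1, map_zero,
        zero_mul, sum_const_zero]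
      ring
    · simp [Sh, h', hv1]
  have hc : ∀ l', ∃ c, v (Sum.inr l') = MvPolynomial.C c * v (Sum.inr l) := by
    intro l'
    refine hINV _ _ hl fun i => mul_left_cancel₀ (bb_ne_Z1 r i) ?_
    have := congrFun (hw i) (Sum.inr l')
    simp only [Pi.sub_apply, Pi.smul_apply, smul_eq_mul, Sh, Sum.elim_inr, Pi.zero_apply, hv1,
      map_zero, zero_mul, sum_const_zero] at this
    linear_combination this
  choose c hc using hc
  refine ⟨v (Sum.inr l), c, hl, fun h0 => hl (by rw [hc l, h0]; simp), ?_⟩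
  have : v (Sum.inr l) • (Sum.elim 0 fun h => MvPolynomial.C (c h) : Fin r ⊕ Fin s → AA) = v := by
    funext a
    cases a with
    | inl a => simp [hv1]
    | inr a => rw [hc a]; simp [mul_comm]
  rw [this]; exact hv

end

section

theorem CH_pf : CH_st := by
  intro ι _ N hN
  by_contra hc
  have h1 : ∀ k ≤ Fintype.card ι, ∃ v ∈ N (k + 1), ∀ f : AA, f • v ∈ N k → f = 0 := by
    intro k hk
    by_contra h
    refine hc ⟨k, hk, fun v hv => ?_⟩
    by_contra h2
    exact h ⟨v, hv, fun f hf => by_contra fun h3 => h2 ⟨f, h3, hf⟩⟩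
  have h2 : ∀ k ≤ Fintype.card ι + 1, ∃ w : Fin k → (ι → AA),
      LinearIndependent AA w ∧ ∀ i, w i ∈ N k := by
    intro k
    induction k with
    | zero => exact fun _ => ⟨Fin.elim0, linearIndependent_empty_type, fun i => i.elim0⟩
    | succ k ih =>
      intro hk
      obtain ⟨w, hw, hw'⟩ := ih (by omega)
      obtain ⟨v, hv, hv'⟩ := h1 k (by omega)
      refine ⟨Fin.cons v w, hw.finCons' v w fun c y hy h => hv' c ?_, fun i => ?_⟩
      · rw [eq_neg_of_add_eq_zero_left h]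
        exact (N k).neg_mem ((Submodule.span_le.2 (by rintro _ ⟨i, rfl⟩; exact hw' i)) hy)
      · refine Fin.cases hv (fun j => hN (Nat.le_succ k) (hw' j)) i
  obtain ⟨w, hw, -⟩ := h2 _ le_rfl
  have := hw.fintype_card_le_finrank
  rw [Module.finrank_fintype_fun_eq_card, Fintype.card_fin] at this
  omega

end

section

theorem det_deg_CR {ι : Type} [Fintype ι] [DecidableEq ι] (M : Matrix ι ι AA) (d : ℕ)
    (h : ∀ i l, (M i l).totalDegree ≤ d) : M.det.totalDegree ≤ Fintype.card ι * d := by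
  rw [Matrix.det_apply]
  refine (MvPolynomial.totalDegree_finsetSum _ _).trans (Finset.sup_le fun σ _ => ?_)
  have h1 : (∏ i, M (σ i) i).totalDegree ≤ Fintype.card ι * d := by
    refine (MvPolynomial.totalDegree_finsetProd _ _).trans ?_
    refine (Finset.sum_le_sum fun i _ => h (σ i) i).trans (le_of_eq ?_)
    rw [Finset.sum_const, Finset.card_univ, smul_eq_mul]
  rcases Int.units_eq_one_or (Equiv.Perm.sign σ) with e | e
  · rwa [e, one_smul]
  · rwa [e, Units.neg_smul, one_smul, MvPolynomial.totalDegree_neg]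

theorem abs_CR {R K ι : Type} [CommRing R] [Field K] [Algebra R K] [Fintype ι] [DecidableEq ι]
    (hi : Function.Injective (algebraMap R K)) (G : Set (ι → R)) (v : ι → R) (f : R)
    (hf : f ≠ 0) (hv : f • v ∈ Submodule.span R G) :
    ∃ M : Matrix ι ι R, (∀ i, M i ∈ G ∨ ∃ l, M i = Pi.single l 1) ∧ M.det ≠ 0 ∧
      M.det • v ∈ Submodule.span R G := by
  let j : (ι → R) → ι → K := fun w l => algebraMap R K (w l)
  have jadd : ∀ w w', j (w + w') = j w + j w' := fun w w' => funext fun l => map_add _ _ _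
  have jsmul : ∀ (c : R) w, j (c • w) = algebraMap R K c • j w :=
    fun c w => funext fun l => map_mul _ _ _
  have jsing : ∀ l, j (Pi.single l 1) = Pi.single l 1 := fun l => funext fun l' => by
    by_cases h : l' = l
    · subst h; simp [j]
    · simp [j, Pi.single_eq_of_ne h]
  obtain ⟨b₁, h1, -, h2, h3⟩ :=
    exists_linearIndepOn_extension (linearIndepOn_empty K j) (Set.empty_subset G)
  obtain ⟨b, h4, h5, h6, h7⟩ := exists_linearIndepOn_extension h3
    (Set.subset_union_left (t := Set.range fun l : ι => (Pi.single l 1 : ι → R)))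
  have htop : ⊤ ≤ Submodule.span K (Set.range fun x : b => j x) := by
    rw [← Set.image_eq_range, ← (Pi.basisFun K ι).span_eq, Submodule.span_le]
    rintro _ ⟨l, rfl⟩
    rw [Pi.basisFun_apply, ← jsing]
    exact h6 ⟨_, Or.inr ⟨l, rfl⟩, rfl⟩
  let B₀ : Module.Basis b K (ι → K) := Module.Basis.mk h7 htop
  let e : b ≃ ι := B₀.indexEquiv (Pi.basisFun K ι)
  let B : Module.Basis ι K (ι → K) := B₀.reindex e
  let M : Matrix ι ι R := Matrix.of fun i => (e.symm i).1
  have hB : ∀ i, B i = j (M i) := fun i => by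
    rw [Module.Basis.reindex_apply, Module.Basis.mk_apply]; rfl
  have hdet : M.det ≠ 0 := by
    have h8 : LinearIndependent K ((algebraMap R K).mapMatrix M).row := by
      have : ((algebraMap R K).mapMatrix M).row = B := funext fun i => (hB i).symm
      rw [this]
      exact B.linearIndependent
    have h9 := (Matrix.isUnit_iff_isUnit_det _).1 (Matrix.linearIndependent_rows_iff_isUnit.1 h8)
    rw [← RingHom.map_det] at h9
    intro h
    rw [h, map_zero] at h9
    exact not_isUnit_zero h9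
  refine ⟨M, fun i => (h4 (e.symm i).2).imp (fun h => h1 h) fun ⟨l, hl⟩ => ⟨l, hl.symm⟩, hdet, ?_⟩
  let c : ι → R := Matrix.vecMul v M.adjugate
  have hc : M.det • v = ∑ i, c i • M i := by
    have : Matrix.vecMul c M = M.det • v := by
      rw [Matrix.vecMul_vecMul, Matrix.adjugate_mul, Matrix.vecMul_smul, Matrix.vecMul_one]
    rw [← this, Matrix.vecMul_eq_sum]
  have hj : ∀ w ∈ Submodule.span R G, j w ∈ Submodule.span K (j '' b₁) := by
    intro w hw
    induction hw using Submodule.span_induction with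
    | mem w hw => exact h2 ⟨w, hw, rfl⟩
    | zero =>
      have : j 0 = 0 := funext fun l => map_zero _
      rw [this]; exact Submodule.zero_mem _
    | add w w' _ _ ih ih' => rw [jadd]; exact Submodule.add_mem _ ih ih'
    | smul a w _ ih => rw [jsmul]; exact Submodule.smul_mem _ _ ih
  have hjv : j v ∈ Submodule.span K (j '' b₁) := by
    have h8 := hj _ hv
    rw [jsmul] at h8
    exact (Submodule.smul_mem_iff _ fun h => hf (hi (h.trans (map_zero _).symm))).1 h8
  have hjs : j (M.det • v) = ∑ i, algebraMap R K (c i) • B i := by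
    rw [hc]
    funext l
    simp only [j, hB, Finset.sum_apply, Pi.smul_apply, smul_eq_mul, map_sum, map_mul]
  have h8 : j (M.det • v) ∈ Submodule.span K (B '' {i | M i ∈ b₁}) := by
    rw [jsmul]
    refine Submodule.smul_mem _ _ (Submodule.span_mono ?_ hjv)
    rintro _ ⟨w, hw, rfl⟩
    have hM : M (e ⟨w, h5 hw⟩) = w := congrArg Subtype.val (e.symm_apply_apply ⟨w, h5 hw⟩)
    exact ⟨e ⟨w, h5 hw⟩, by rwa [Set.mem_ofPred_eq, hM], by rw [hB, hM]⟩
  rw [Module.Basis.mem_span_image, hjs] at h8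
  rw [hc]
  refine Submodule.sum_mem _ fun i _ => ?_
  by_cases h9 : c i = 0
  · rw [h9, zero_smul]; exact Submodule.zero_mem _
  · refine Submodule.smul_mem _ _ (Submodule.subset_span (h1 (h8 ?_)))
    rw [Finset.mem_coe, Finsupp.mem_support_iff, Module.Basis.repr_sum_self]
    exact fun h => h9 (hi (h.trans (map_zero _).symm))

theorem CR_pf : CR_st := by
  intro ι _ G d v f hG hf hv
  classical
  obtain ⟨M, h1, h2, h3⟩ :=
    abs_CR (K := FractionRing AA) (IsFractionRing.injective AA _) G v f hf hv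
  refine ⟨M.det, h2, det_deg_CR M d fun i l => ?_, h3⟩
  rcases h1 i with h | ⟨l', h⟩
  · exact hG _ h l
  · rw [h]
    by_cases e : l = l'
    · subst e; simp
    · simp [Pi.single_eq_of_ne e]

end

section

theorem key_EPS (r N v j : ℕ) (θ : ℂ) (h1 : 1 ≤ N) (h2 : N ≤ r + 1) (h3 : 1 ≤ v) (h4 : v ≤ r + 1) :
    Polynomial.aeval (ln j θ) (bb r) * Jv ((N * j + v : ℕ) : ℂ) (N * θ) =
      Polynomial.aeval (ln j θ) (co r (N, v)) := by
  have a1 : bb r = lf (N, v) * co r (N, v) :=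
    (mul_prod_erase _ _ (mem_product.2 ⟨mem_Icc.2 ⟨h1, h2⟩, mem_Icc.2 ⟨h3, h4⟩⟩)).symm
  have a2 : Polynomial.aeval (ln j θ) (lf (N, v)) = C ((N * j + v : ℕ) : ℂ) + C (N * θ) * X := by
    simp only [lf, ln, map_add, map_mul, Polynomial.aeval_X, map_natCast, Nat.cast_add,
      Nat.cast_mul]
    ring
  have a3 := Jv_mul (c := ((N * j + v : ℕ) : ℂ)) (Nat.cast_ne_zero.2 (by omega)) (N * θ)
  rw [a1, map_mul, a2, mul_right_comm, a3, one_mul]

theorem hs_EPS (a k : ℕ) (θ : ℂ) :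
    hs (a + k) θ = hs a θ + ∑ v ∈ Icc 1 k, Jv ((a + v : ℕ) : ℂ) θ := by
  induction k with
  | zero => simp
  | succ k ih =>
    rw [sum_Icc_succ_top (by omega), ← add_assoc, ← add_assoc, ← ih, hs, hs,
      sum_Icc_succ_top (by omega)]

theorem EPS_pf : EPS_st := by
  intro r N j θ h1 h2
  have a1 := key_EPS r 1 1 j θ le_rfl (by omega) le_rfl (by omega)
  rw [one_mul, Nat.cast_one, one_mul] at a1
  have a2 : ∑ v ∈ Icc 1 N, Polynomial.aeval (ln j θ) (bb r) * Jv ((N * j + v : ℕ) : ℂ) (N * θ) =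
      ∑ v ∈ Icc 1 N, Polynomial.aeval (ln j θ) (co r (N, v)) :=
    sum_congr rfl fun v hv => key_EPS r N v j θ h1 h2 (mem_Icc.1 hv).1 ((mem_Icc.1 hv).2.trans h2)
  rw [← mul_sum] at a2
  rw [yN, yN, mul_add, mul_one, hs_EPS, hs_EPS, Icc_self, sum_singleton, ee]
  simp only [map_sub, map_sum, map_mul, map_natCast, ← mul_sum]
  rw [← a1, ← a2]
  ring

end

section

theorem sg_SHA (j : Fin 2 → ℕ) (i : Fin 2) (f : AA) :
    ev j (sg i f) = ev (j + Pi.single i 1) f := by
  have h : (ev j).comp (sg i) = ev (j + Pi.single i 1) := by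
    refine MvPolynomial.algHom_ext fun k => ?_
    fin_cases i <;> fin_cases k <;> simp [ev, sg, tr, ln] <;> ring
  exact congrArg (· f) h

theorem pv_SHA (j : Fin 2 → ℕ) (i : Fin 2) (q : Polynomial ℂ) :
    ev j (pv i q) = Polynomial.aeval (ln (j i) (![1, om] i)) q := by
  rw [pv, ← Polynomial.aeval_algHom_apply]
  fin_cases i <;> simp [ev]

theorem inc_SHA (hEPS : EPS_st) (r N : ℕ) (h1 : 1 ≤ N) (h2 : N ≤ r + 1) (j : Fin 2 → ℕ)
    (i : Fin 2) : ev j (pv i (bb r)) * YY N (j + Pi.single i 1) =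
      ev j (pv i (bb r)) * YY N j + C (![1, -om] i) * ev j (pv i (ee r N)) := by
  rw [pv_SHA, pv_SHA, ← hEPS r N _ _ h1 h2]
  fin_cases i <;> simp [YY] <;> ring

theorem SHA_pf (hEPS : EPS_st) : SHA_st := by
  intro r s a η γ i j v h1 h2
  have hC : ∀ c : ℂ, ev j (MvPolynomial.C c) = C c := fun c => (ev j).commutes c
  have e : ∑ l, ev j (Sh r γ i v l) * Ph r η l j =
      ev j (pv i (bb r)) * (∑ l, ev (j + Pi.single i 1) (v l) * Ph r η l (j + Pi.single i 1)) -
        (C (![1, -om] i) * ∑ l : Fin r, ev (j + Pi.single i 1) (v (Sum.inl l)) *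
          ev j (pv i (ee r (l + 2)))) * (1 - ∑ h, C (γ h) * η h) := by
    simp only [Fintype.sum_sum_type, Sh, Ph, Sum.elim_inl, Sum.elim_inr, map_mul, map_add, map_sum,
      sg_SHA, hC]
    obtain ⟨S, hS⟩ : ∃ S, S = ∑ l : Fin r, ev (j + Pi.single i 1) (v (Sum.inl l)) *
      ev j (pv i (ee r (l + 2))) := ⟨_, rfl⟩
    have e1 : ev j (pv i (bb r)) * ∑ l : Fin r, ev (j + Pi.single i 1) (v (Sum.inl l)) *
        YY (l + 2) (j + Pi.single i 1) = ∑ l : Fin r, ev j (pv i (bb r)) *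
          ev (j + Pi.single i 1) (v (Sum.inl l)) * YY (l + 2) j + C (![1, -om] i) * S := by
      rw [hS, mul_sum, mul_sum, ← sum_add_distrib]
      refine sum_congr rfl fun l _ => ?_
      linear_combination ev (j + Pi.single i 1) (v (Sum.inl l)) *
        inc_SHA hEPS r (l + 2) (by omega) (by omega) j i
    rw [← hS, mul_add, e1, mul_sub, mul_sum, mul_sum, mul_one, add_assoc, add_sub_assoc,
      add_sub_assoc, add_right_inj, ← sub_add, ← add_assoc, add_sub_cancel, ← sum_add_distrib]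
    exact sum_congr rfl fun h _ => by ring
  rw [Rel, e]
  exact (h2.mul_left _).sub (h1.mul_left _)

end

section

theorem deg_tr_SHB (w : Fin 2 → ℂ) (f : AA) : (tr w f).totalDegree ≤ f.totalDegree := by
  conv_lhs => rw [f.as_sum, map_sum]
  refine MvPolynomial.totalDegree_finsetSum_le fun s hs => ?_
  refine le_trans ?_ (MvPolynomial.le_totalDegree hs)
  rw [tr, MvPolynomial.aeval_monomial]
  refine (MvPolynomial.totalDegree_mul _ _).trans ?_
  have h0 : (algebraMap ℂ AA (MvPolynomial.coeff s f)).totalDegree = 0 :=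
    MvPolynomial.totalDegree_C _
  rw [h0, zero_add, Finsupp.prod, Finsupp.sum]
  refine (MvPolynomial.totalDegree_finsetProd _ _).trans (sum_le_sum fun i _ => ?_)
  refine (MvPolynomial.totalDegree_pow _ _).trans ?_
  have h1 : (MvPolynomial.X i + MvPolynomial.C (w i) : AA).totalDegree ≤ 1 := by
    refine (MvPolynomial.totalDegree_add _ _).trans ?_
    simp
  exact (Nat.mul_le_mul_left _ h1).trans (by simp)

theorem deg_pv_SHB (i : Fin 2) (q : Polynomial ℂ) : (pv i q).totalDegree ≤ q.natDegree := by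
  rw [pv, Polynomial.aeval_eq_sum_range]
  refine MvPolynomial.totalDegree_finsetSum_le fun k hk => ?_
  refine (MvPolynomial.totalDegree_smul_le _ _).trans ?_
  rw [MvPolynomial.totalDegree_X_pow]
  exact Nat.lt_succ_iff.mp (mem_range.mp hk)

theorem deg_lf_SHB (r : ℕ) (S : Finset (ℕ × ℕ)) (hS : S ⊆ Icc 1 (r + 1) ×ˢ Icc 1 (r + 1)) :
    (∏ q ∈ S, lf q).natDegree ≤ (r + 1) ^ 2 := by
  refine (Polynomial.natDegree_prod_le _ _).trans ?_
  refine (sum_le_sum fun q _ => (Polynomial.natDegree_linear_le : (lf q).natDegree ≤ 1)).trans ?_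
  have h := card_le_card hS
  rw [card_product, Nat.card_Icc, Nat.add_sub_cancel] at h
  simpa [pow_two] using h

theorem deg_co_SHB (r : ℕ) (c : ℂ) (q : ℕ × ℕ) :
    (Polynomial.C c * co r q).natDegree ≤ (r + 1) ^ 2 :=
  (Polynomial.natDegree_C_mul_le _ _).trans (deg_lf_SHB r _ (erase_subset _ _))

theorem deg_ee_SHB (r N : ℕ) : (ee r N).natDegree ≤ (r + 1) ^ 2 :=
  (Polynomial.natDegree_sub_le _ _).trans (max_le (deg_co_SHB r _ _)
    (Polynomial.natDegree_sum_le_of_forall_le _ _ fun _ _ => deg_co_SHB r _ _))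

theorem inv_tr_SHB (w : Fin 2 → ℂ) (f : AA) : tr (-w) (tr w f) = f := by
  have h : (tr (-w)).comp (tr w) = AlgHom.id ℂ AA := by
    refine MvPolynomial.algHom_ext fun i => ?_
    simp [tr]
  exact DFunLike.congr_fun h f

theorem SHB_pf : SHB_st := by
  intro r s γ i v
  refine ⟨fun d hd => ?_, fun w => ?_, fun f => ?_, fun f hf h => hf ?_⟩
  · have h1 : ∀ l, (pv i (bb r) * sg i (v l)).totalDegree ≤ d + (r + 1) ^ 2 := fun l =>
      (MvPolynomial.totalDegree_mul _ _).trans ((add_comm _ _).trans_le (add_le_add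
        ((deg_tr_SHB _ _).trans (hd l)) ((deg_pv_SHB _ _).trans (deg_lf_SHB r _ subset_rfl))))
    rintro (l | h)
    · exact h1 _
    · refine (MvPolynomial.totalDegree_add _ _).trans (max_le (h1 _) ?_)
      refine (MvPolynomial.totalDegree_mul _ _).trans ?_
      rw [MvPolynomial.totalDegree_C, zero_add]
      exact MvPolynomial.totalDegree_finsetSum_le fun l _ =>
        (MvPolynomial.totalDegree_mul _ _).trans (add_le_add ((deg_tr_SHB _ _).trans (hd _))
          ((deg_pv_SHB _ _).trans (deg_ee_SHB _ _)))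
  · funext l
    rcases l with l | h
    · simp only [Sh, Sum.elim_inl, Pi.add_apply, map_add, mul_add]
    · simp only [Sh, Sum.elim_inr, Pi.add_apply, map_add, mul_add, add_mul, sum_add_distrib]
      ring
  · funext l
    rcases l with l | h
    · simp only [Sh, Sum.elim_inl, Pi.smul_apply, smul_eq_mul, map_mul]
      ring
    · simp only [Sh, Sum.elim_inr, Pi.smul_apply, smul_eq_mul, map_mul, mul_assoc, ← mul_sum]
      ring
  · rw [← inv_tr_SHB (Pi.single i 1) f]
    exact (congrArg _ h).trans (map_zero _)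

end

section

theorem dvd_ZE {A S : ℂ⟦X⟧} {a b k : ℕ} (h : (X : ℂ⟦X⟧) ^ a ∣ A * S) (hk : coeff k S ≠ 0)
    (hb : k < a - b) : (X : ℂ⟦X⟧) ^ b ∣ A := by
  rw [X_pow_dvd_iff] at h ⊢
  intro i hi
  by_contra hA
  have h1 := nat_le_order _ _ h
  rw [order_mul] at h1
  have h2 := h1.trans (add_le_add (order_le i hA) (order_le k hk))
  norm_cast at h2
  omega

theorem rel_ZE {r s a : ℕ} {η : Fin s → ℂ⟦X⟧} {j : Fin 2 → ℕ} {G : Set (Fin r ⊕ Fin s → AA)}
    (hG : ∀ w ∈ G, Rel r η a j w) {w : Fin r ⊕ Fin s → AA} (hw : w ∈ Submodule.span AA G) :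
    Rel r η a j w := by
  induction hw using Submodule.span_induction with
  | mem w hw => exact hG w hw
  | zero => simp [Rel]
  | add u w _ _ hu hw =>
    unfold Rel at *
    simpa only [Pi.add_apply, map_add, add_mul, sum_add_distrib] using dvd_add hu hw
  | smul f w _ hw =>
    unfold Rel at *
    simpa only [Pi.smul_apply, smul_eq_mul, map_mul, mul_assoc, mul_sum] using
      dvd_mul_of_dvd_right hw (ev j f)

/-- the saturation of a module -/
def sat_ZE {ι : Type} (N : Submodule AA (ι → AA)) : Submodule AA (ι → AA) where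
  carrier := {w | ∃ f : AA, f ≠ 0 ∧ f • w ∈ N}
  add_mem' := by
    rintro u w ⟨f, hf, hu⟩ ⟨g, hg, hw⟩
    refine ⟨f * g, mul_ne_zero hf hg, ?_⟩
    rw [smul_add, mul_smul f g w, mul_comm f g, mul_smul g f u, smul_comm f g w, smul_comm g f w]
    exact N.add_mem (N.smul_mem g hu) (N.smul_mem f hw)
  zero_mem' := ⟨1, one_ne_zero, by simp⟩
  smul_mem' := by
    rintro g w ⟨f, hf, hw⟩
    exact ⟨f, hf, smul_comm g f w ▸ N.smul_mem g hw⟩

theorem ZE_pf (hSZ : SZ_st) (hZ1 : Z1_st) (hCH : CH_st) (hCR : CR_st) (hSHA : SHA_st)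
    (hSHB : SHB_st) : ZE_st := by
  rintro r s η a g m n n₂ D U v ⟨⟨γ, hγ⟩, hind, ha, -, hU, hn, hD, e1, e2, e3⟩ hdeg hrel
  by_contra hv
  obtain ⟨G, hG⟩ : ∃ G : ℕ → Set (Fin r ⊕ Fin s → AA), ∀ k w, w ∈ G k ↔
      (∀ l, (w l).totalDegree ≤ m + k * (r + 1) ^ 2) ∧
        ∀ j : Fin 2 → ℕ, (∀ i, j i + k ≤ n) → Rel r η a j w := ⟨fun k => {w | _}, fun _ _ => Iff.rfl⟩
  have mono : Monotone fun k => Submodule.span AA (G k) := fun k k' hk =>
    Submodule.span_mono fun w hw => by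
      obtain ⟨h1, h2⟩ := (hG k w).1 hw
      exact (hG k' w).2 ⟨fun l => (h1 l).trans (by gcongr),
        fun j hj => h2 j fun i => le_trans (by gcongr) (hj i)⟩
  have sh : ∀ k i, ∀ w ∈ Submodule.span AA (G k), Sh r γ i w ∈ Submodule.span AA (G (k + 1)) := by
    intro k i w hw
    induction hw using Submodule.span_induction with
    | mem w hw =>
      obtain ⟨h1, h2⟩ := (hG k w).1 hw
      refine Submodule.subset_span ((hG _ _).2 ⟨fun l => ?_, fun j hj =>
        hSHA r s a η γ i j w hγ (h2 _ fun i' => ?_)⟩)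
      · rw [add_mul, one_mul, ← add_assoc]
        exact (hSHB r s γ i w).1 _ h1 l
      · have h3 := hj i'
        have h4 : (Pi.single i 1 : Fin 2 → ℕ) i' ≤ 1 := by
          rw [Pi.single_apply]
          split_ifs <;> omega
        rw [Pi.add_apply]
        omega
    | zero =>
      have := (hSHB r s γ i 0).2.2.1 0
      rw [zero_smul, map_zero, zero_smul] at this
      rw [this]
      exact zero_mem _
    | add u w _ _ hu hw =>
      rw [(hSHB r s γ i u).2.1]
      exact add_mem hu hw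
    | smul f w _ hw =>
      rw [(hSHB r s γ i w).2.2.1]
      exact Submodule.smul_mem _ _ hw
  obtain ⟨k, hk, hst⟩ := hCH _ _ mono
  have hkU : k ≤ U := by
    rw [Fintype.card_sum, Fintype.card_fin, Fintype.card_fin] at hk
    omega
  obtain ⟨f, c, hf, hc, f', hf', hm⟩ := hZ1 r s γ (sat_ZE (Submodule.span AA (G k)))
    ((Submodule.ne_bot_iff _).2 ⟨v, ⟨1, one_ne_zero, by
      rw [one_smul]
      exact mono k.zero_le (Submodule.subset_span ((hG 0 v).2
        ⟨by simpa using hdeg, by simpa using hrel⟩))⟩, hv⟩)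
    (by
      rintro i w ⟨f, hf, hw⟩
      have h1 := sh k i _ hw
      rw [(hSHB r s γ i w).2.2.1] at h1
      obtain ⟨f', hf', h2⟩ := hst _ h1
      exact ⟨f' * sg i f, mul_ne_zero hf' ((hSHB r s γ i w).2.2.2 f hf), by rwa [mul_smul]⟩)
    (by
      rintro rfl
      simpa using X_pow_dvd_iff.1 hγ 0 ha)
  rw [← mul_smul] at hm
  obtain ⟨Δ, hΔ, hd, hm⟩ := hCR _ (G k) _ _ _ (fun w hw => ((hG k w).1 hw).1)
    (mul_ne_zero hf' hf) hm
  obtain ⟨k0, hk0, hc0⟩ : ∃ k0 < a - 2 * g, coeff k0 (∑ h, C (c h) * η h) ≠ 0 := by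
    by_contra h
    push Not at h
    exact hc (hind c h)
  have := hSZ Δ D n₂ g hΔ (hd.trans (le_trans (by
    rw [Fintype.card_sum, Fintype.card_fin, Fintype.card_fin]
    gcongr) hD)) fun j hj => dvd_ZE (by
      have h1 := rel_ZE (fun w hw => ((hG k w).1 hw).2 j fun i => by
        have := hj i
        omega) hm
      simpa [Rel, Ph, mul_sum, mul_assoc] using h1) hc0 hk0
  omega

end

section

theorem MIN_pf : MIN_st := by
  intro ρ κ _ _ _ M h
  set v : κ → ρ → ℂ := fun n r => M r n with hv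
  have hspan : Submodule.span ℂ (Set.range v) = ⊤ := by
    by_contra hne
    obtain ⟨φ, hφ0, hφ⟩ := Submodule.exists_le_ker_of_lt_top _ (lt_top_iff_ne_top.2 hne)
    apply hφ0
    have hc := h (fun r => φ fun j => if r = j then 1 else 0) fun n => by
      have h1 : φ (v n) = 0 := hφ (Submodule.subset_span ⟨n, rfl⟩)
      rw [LinearMap.pi_apply_eq_sum_univ] at h1
      refine Eq.trans (Finset.sum_congr rfl fun r _ => ?_) h1
      simp [hv, mul_comm]
    ext x
    rw [LinearMap.comp_apply, LinearMap.pi_apply_eq_sum_univ]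
    have h2 : ∀ r, (φ fun j => if r = j then 1 else 0) = 0 := fun r => congrFun hc r
    simp [h2]
  obtain ⟨τ, a, ha, hsp, hli⟩ := exists_linearIndependent' ℂ v
  have : Finite τ := Finite.of_injective a ha
  have : Fintype τ := Fintype.ofFinite τ
  let b : Module.Basis τ ℂ (ρ → ℂ) := Module.Basis.mk hli (by rw [hsp, hspan])
  have hcard : Fintype.card ρ = Fintype.card τ := by
    rw [← Module.finrank_eq_card_basis b, Module.finrank_fintype_fun_eq_card]
  let e : ρ ≃ τ := Fintype.equivOfCardEq hcard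
  refine ⟨fun s => a (e s), ?_⟩
  have h3 : LinearIndependent ℂ (Matrix.of fun r s => M r (a (e s)) : Matrix ρ ρ ℂ).col :=
    hli.comp e e.injective
  have h4 := Matrix.linearIndependent_cols_iff_isUnit.1 h3
  exact ((Matrix.isUnit_iff_isUnit_det _).1 h4).ne_zero

end

section

/-- the exponent vector of a monomial -/
def ex_IND {m : ℕ} (d : Mi m) : Fin 2 →₀ ℕ :=
  Finsupp.single 0 (d.1.1 : ℕ) + Finsupp.single 1 (d.1.2 : ℕ)

theorem ex_inj_IND {m : ℕ} : Function.Injective (ex_IND (m := m)) := by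
  intro d d' h
  have h0 := DFunLike.congr_fun h 0
  have h1 := DFunLike.congr_fun h 1
  simp [ex_IND] at h0 h1
  exact Subtype.ext (Prod.ext (Fin.ext h0) (Fin.ext h1))

theorem mono_IND {m : ℕ} (d : Mi m) (c : ℂ) :
    (MvPolynomial.monomial (ex_IND d) c : AA) =
      MvPolynomial.C c * (MvPolynomial.X 0 ^ (d.1.1 : ℕ) * MvPolynomial.X 1 ^ (d.1.2 : ℕ)) := by
  rw [MvPolynomial.X_pow_eq_monomial, MvPolynomial.X_pow_eq_monomial, MvPolynomial.monomial_mul,
    MvPolynomial.C_mul_monomial]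
  simp [ex_IND]

theorem ev_IND {m : ℕ} (j : Fin 2 → ℕ) (d : Mi m) (c : ℂ) :
    ev j (MvPolynomial.monomial (ex_IND d) c) =
      C c * (ln (j 0) 1 ^ (d.1.1 : ℕ) * ln (j 1) om ^ (d.1.2 : ℕ)) := by
  rw [mono_IND]
  simp [ev, PowerSeries.algebraMap_eq]

theorem deg_IND {m : ℕ} (c : Mi m → ℂ) :
    (∑ d : Mi m, (MvPolynomial.monomial (ex_IND d) (c d) : AA)).totalDegree ≤ m := by
  apply MvPolynomial.totalDegree_finsetSum_le
  intro d _
  refine le_trans (MvPolynomial.totalDegree_monomial_le _ _) ?_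
  have h := d.2
  rw [Finsupp.sum_fintype _ _ (fun _ => rfl)]
  simp [ex_IND, Fin.sum_univ_two]
  omega

theorem coeff_IND {m : ℕ} (c : Mi m → ℂ) (d : Mi m) :
    MvPolynomial.coeff (ex_IND d)
      (∑ d : Mi m, (MvPolynomial.monomial (ex_IND d) (c d) : AA)) = c d := by
  classical
  rw [MvPolynomial.coeff_sum, Finset.sum_eq_single d]
  · simp
  · intro d' _ hd
    rw [MvPolynomial.coeff_monomial, if_neg (fun h => hd (ex_inj_IND h))]
  · intro h
    exact absurd (mem_univ d) h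

theorem IND_pf (hZE : ZE_st) (hMIN : MIN_st) : IND_st := by
  intro r s η a g m n n₂ D U hZ
  apply hMIN ((Fin r ⊕ Fin s) × Mi m) (Pt n × Fin a)
    (fun t c => coeff (c.2 : ℕ) (Rw r η m n t c.1))
  intro v hv
  have h0 := hZE r s η a g m n n₂ D U
    (fun l => ∑ d : Mi m, (MvPolynomial.monomial (ex_IND d) (v (l, d)) : AA)) hZ
    (fun l => deg_IND _) (by
      intro j hj
      unfold Rel
      rw [X_pow_dvd_iff]
      intro k hk
      have h1 := hv (fun i => ⟨j i, Nat.lt_succ_of_le (hj i)⟩, ⟨k, hk⟩)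
      rw [Fintype.sum_prod_type] at h1
      rw [map_sum, ← h1]
      refine Finset.sum_congr rfl fun l _ => ?_
      rw [map_sum, Finset.sum_mul, map_sum]
      refine Finset.sum_congr rfl fun d _ => ?_
      rw [ev_IND, mul_assoc, coeff_C_mul]
      rfl)
  funext t
  have h2 := coeff_IND (fun d => v (t.1, d)) t.2
  have h3 := congrFun h0 t.1
  simp only [Pi.zero_apply] at h3
  rw [h3] at h2
  simpa using h2.symm

end

end Pool.Agent.MP_3924c3_nt.BR
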