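import Pool.Agent.Mg.F3792c7p.Gdb7bcf

set_option linter.all false

/-! The parameters and the assembly. -/

set_option autoImplicit false

open Finset Filter PowerSeries

noncomputable section

namespace Pool.Agent.MP_3924c3_nt.BR

section

theorem sl_NUM2 {ε : ℝ} (h : 0 < ε) : ∀ᶠ t : ℝ in atTop, Real.sqrt t * Real.log t ≤ ε * t := by
  filter_upwards [(isLittleO_log_rpow_atTop (r := 1 / 2) (by norm_num)).bound h,
    eventually_ge_atTop 0] with t h1 h2
  rw [← Real.sqrt_eq_rpow, Real.norm_of_nonneg (Real.sqrt_nonneg t)] at h1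
  have h3 : Real.log t ≤ ε * Real.sqrt t := (le_abs_self _).trans h1
  calc Real.sqrt t * Real.log t ≤ Real.sqrt t * (ε * Real.sqrt t) :=
        mul_le_mul_of_nonneg_left h3 (Real.sqrt_nonneg t)
    _ = ε * (Real.sqrt t * Real.sqrt t) := by ring
    _ = ε * t := by rw [Real.mul_self_sqrt h2]

theorem lg_NUM2 (K : ℝ) {ε : ℝ} (h : 0 < ε) : ∀ᶠ t : ℝ in atTop, K + 3 * Real.log t ≤ ε * t := by
  filter_upwards [Real.isLittleO_log_id_atTop.bound (show 0 < ε / 6 by positivity),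
    eventually_ge_atTop 0, eventually_ge_atTop (2 * K / ε)] with t h1 h2 h3
  rw [id, Real.norm_of_nonneg h2] at h1
  have h4 : Real.log t ≤ ε / 6 * t := (le_abs_self _).trans h1
  rw [div_le_iff₀ h] at h3
  linarith

theorem main_NUM2 (c Hη K R u A B z : ℝ) (hc : 0 ≤ c) (hH : 0 ≤ Hη) (hK : 1 ≤ K) (hR : 0 ≤ R)
    (hu : 1 ≤ u) (hB : 1 ≤ B) (hA : B ≤ A) (hz : 1 ≤ z)
    (h1 : Real.log (u * (A * B) ^ 2 * (K * (10 * u * A + 1) + Hη)) + 3 * Real.log z ≤
      1 / (2 * u) * z)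
    (h2 : Real.sqrt ((R + 1) * (10 * u * A) * z) * Real.log ((R + 1) * (10 * u * A) * z) ≤
      1 / (2 * u * A * ((R + 1) * (10 * u * A))) * ((R + 1) * (10 * u * A) * z)) :
    u * (A * B * z) ^ 3 / 3 * (Real.log ((10 * u * A * z + 1) / (B * z)) + c) +
      3 * u * (A * B * z) ^ 2 * (B * z) +
      u * (A * B * z) ^ 2 * Real.log (u * (A * B * z) ^ 2 * (K * (10 * u * A * z + 1) + Hη)) +
      u * (A * B * z) ^ 2 * A * (4 * (B * z) + Real.sqrt ((R + 1) * (10 * u * A * z)) *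
        Real.log ((R + 1) * (10 * u * A * z))) +
      2 * A * (10 * u * A * z + 1) ^ 2 * (R + 1) * ((R + 1) * (10 * u * A * z)) *
        (Real.log ((R + 1) * (10 * u * A * z) / (B * z)) + 2 * c) ≤
    (u / 3 * (Real.log (11 * u * A / B) + c) + 3 * u / A + 4 * u +
      2420 * u ^ 3 * (R + 1) ^ 2 * (A / B ^ 3) * (Real.log (10 * (R + 1) * u * A / B) + 2 * c) +
      1) * (A * B * z) ^ 3 := by
  have hA1 : 1 ≤ A := hB.trans hA
  have u0 : 0 < u := by linarith
  have A0 : 0 < A := by linarith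
  have B0 : 0 < B := by linarith
  have z0 : 0 < z := by linarith
  have K0 : 0 < K := by linarith
  have uA : 1 ≤ u * A := one_le_mul_of_one_le_of_one_le hu hA1
  have uAz : 1 ≤ u * A * z := one_le_mul_of_one_le_of_one_le uA hz
  have n1 : 10 * u * A * z + 1 ≤ 11 * u * A * z := by linarith
  have t1 : Real.log ((10 * u * A * z + 1) / (B * z)) ≤ Real.log (11 * u * A / B) := by
    refine Real.log_le_log (by positivity) ?_
    rw [← mul_div_mul_right (11 * u * A) B z0.ne']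
    exact div_le_div_of_nonneg_right n1 (by positivity)
  have t3 : Real.log (u * (A * B * z) ^ 2 * (K * (10 * u * A * z + 1) + Hη)) ≤ 1 / (2 * u) * z := by
    refine le_trans ?_ h1
    have e : (3 : ℝ) * Real.log z = Real.log (z ^ 3) := by
      rw [Real.log_pow]
      norm_num
    rw [e, ← Real.log_mul (by positivity) (by positivity)]
    refine Real.log_le_log (by positivity) ?_
    have k : K * (10 * u * A * z + 1) + Hη ≤ (K * (10 * u * A + 1) + Hη) * z := by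
      have k1 : K * 1 ≤ K * z := mul_le_mul_of_nonneg_left hz K0.le
      have k2 : Hη * 1 ≤ Hη * z := mul_le_mul_of_nonneg_left hz hH
      linarith
    calc u * (A * B * z) ^ 2 * (K * (10 * u * A * z + 1) + Hη)
        ≤ u * (A * B * z) ^ 2 * ((K * (10 * u * A + 1) + Hη) * z) :=
          mul_le_mul_of_nonneg_left k (by positivity)
      _ = _ := by ring
  have t4 : Real.sqrt ((R + 1) * (10 * u * A * z)) * Real.log ((R + 1) * (10 * u * A * z)) ≤
      1 / (2 * u * A) * z := by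
    rw [← mul_assoc (R + 1)]
    refine h2.trans_eq ?_
    field_simp
  have e5 : (R + 1) * (10 * u * A * z) / (B * z) = 10 * (R + 1) * u * A / B := by
    field_simp
  have L0 : 0 ≤ Real.log (10 * (R + 1) * u * A / B) + 2 * c := by
    refine add_nonneg (Real.log_nonneg ?_) (by positivity)
    rw [le_div_iff₀ B0]
    have k1 : 1 * A ≤ u * A := mul_le_mul_of_nonneg_right hu A0.le
    have k2 : 0 ≤ R * (u * A) := by positivity
    linarith
  rw [e5]
  generalize Real.log (10 * (R + 1) * u * A / B) + 2 * c = L at L0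
  generalize Real.log ((10 * u * A * z + 1) / (B * z)) = l1 at t1
  generalize Real.log (11 * u * A / B) = l2 at t1
  generalize Real.log (u * (A * B * z) ^ 2 * (K * (10 * u * A * z + 1) + Hη)) = l3 at t3
  generalize Real.sqrt ((R + 1) * (10 * u * A * z)) * Real.log ((R + 1) * (10 * u * A * z)) = l4
    at t4
  have s1 : u * (A * B * z) ^ 3 / 3 * (l1 + c) ≤ u / 3 * (l2 + c) * (A * B * z) ^ 3 := by
    calc u * (A * B * z) ^ 3 / 3 * (l1 + c) ≤ u * (A * B * z) ^ 3 / 3 * (l2 + c) :=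
          mul_le_mul_of_nonneg_left (by linarith) (by positivity)
      _ = _ := by ring
  have s2 : 3 * u * (A * B * z) ^ 2 * (B * z) = 3 * u / A * (A * B * z) ^ 3 := by
    field_simp
  have s3 : u * (A * B * z) ^ 2 * l3 ≤ (A * B * z) ^ 2 * z / 2 := by
    calc u * (A * B * z) ^ 2 * l3 ≤ u * (A * B * z) ^ 2 * (1 / (2 * u) * z) :=
          mul_le_mul_of_nonneg_left t3 (by positivity)
      _ = _ := by field_simp
  have s4 : u * (A * B * z) ^ 2 * A * l4 ≤ (A * B * z) ^ 2 * z / 2 := by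
    calc u * (A * B * z) ^ 2 * A * l4 ≤ u * (A * B * z) ^ 2 * A * (1 / (2 * u * A) * z) :=
          mul_le_mul_of_nonneg_left t4 (by positivity)
      _ = _ := by field_simp
  have s5 : 2 * A * (10 * u * A * z + 1) ^ 2 * (R + 1) * ((R + 1) * (10 * u * A * z)) * L ≤
      2420 * u ^ 3 * (R + 1) ^ 2 * (A / B ^ 3) * L * (A * B * z) ^ 3 := by
    calc 2 * A * (10 * u * A * z + 1) ^ 2 * (R + 1) * ((R + 1) * (10 * u * A * z)) * L
        ≤ 2 * A * (11 * u * A * z) ^ 2 * (R + 1) * ((R + 1) * (10 * u * A * z)) * L := by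
          gcongr
      _ = _ := by
          field_simp
          ring
  have s6 : (A * B * z) ^ 2 * z ≤ (A * B * z) ^ 3 := by
    have k : 1 * z ≤ A * B * z :=
      mul_le_mul_of_nonneg_right (one_le_mul_of_one_le_of_one_le hA1 hB) z0.le
    rw [one_mul] at k
    calc (A * B * z) ^ 2 * z ≤ (A * B * z) ^ 2 * (A * B * z) :=
          mul_le_mul_of_nonneg_left k (by positivity)
      _ = _ := by ring
  have s7 : u * (A * B * z) ^ 2 * A * (4 * (B * z) + l4) =
      4 * u * (A * B * z) ^ 3 + u * (A * B * z) ^ 2 * A * l4 := by ring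
  rw [s7, s2]
  linarith

theorem NUM2_pf : NUM2_st := by
  intro c Hη r U a b hc hH hU hb ha
  have hu : (1 : ℝ) ≤ U := by exact_mod_cast hU
  have hB : (1 : ℝ) ≤ b := by exact_mod_cast hb
  have hA : (b : ℝ) ≤ a := by exact_mod_cast ha
  have hR : (0 : ℝ) ≤ r := Nat.cast_nonneg r
  have u0 : (0 : ℝ) < U := by linarith
  have A0 : (0 : ℝ) < a := by linarith
  have hK : (1 : ℝ) ≤ 4 * (r + 1 : ℝ) ^ (a + 2) := by
    have : (1 : ℝ) ≤ (r + 1 : ℝ) ^ (a + 2) := one_le_pow₀ (by linarith)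
    linarith
  have e1 := tendsto_natCast_atTop_atTop.eventually (lg_NUM2 (Real.log (U * ((a : ℝ) * b) ^ 2 *
    (4 * (r + 1 : ℝ) ^ (a + 2) * (10 * U * a + 1) + Hη))) (show (0 : ℝ) < 1 / (2 * U) by positivity))
  have e2 := (Tendsto.const_mul_atTop (show (0 : ℝ) < (r + 1) * (10 * U * a) by positivity)
    tendsto_natCast_atTop_atTop).eventually
    (sl_NUM2 (show (0 : ℝ) < 1 / (2 * U * a * ((r + 1) * (10 * U * a))) by positivity))
  filter_upwards [e1, e2, eventually_ge_atTop 1] with z h1 h2 hz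
  have := main_NUM2 c Hη _ r U a b z hc hH hK hR hu hB hA (by exact_mod_cast hz) h1 h2
  unfold cost lead
  push_cast
  exact this

end

section

theorem ev_NUM1 (c κ : ℝ) (hκ : 0 < κ) : ∃ y₀ : ℝ, ∀ y, y₀ ≤ y →
    35 * Real.log y + 3 * c + 8 < κ * y / 1024 := by
  have h1 := Real.isLittleO_log_id_atTop.bound (c := κ / 71680) (by positivity)
  have h2 := (tendsto_id.const_mul_atTop (r := κ / 2048) (by positivity)).eventually_gt_atTop
    (3 * c + 8)
  refine eventually_atTop.1 ?_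
  filter_upwards [h1, h2, eventually_ge_atTop 0] with y a1 a2 a3
  rw [id, Real.norm_of_nonneg a3] at a1
  have := (Real.le_norm_self _).trans a1
  rw [id] at a2
  linarith

theorem real_NUM1 (c A y r U a b : ℝ) (hc : 0 ≤ c) (hA : 17000 ≤ A) (hy : A ≤ y) (hr : 0 ≤ r)
    (h1 : r + 1 ≤ U) (h2 : U ≤ 2 * y ^ 3) (hb : b = A * U ^ 5) (h3 : b ^ 2 ≤ a)
    (h4 : a ≤ 2 * (U + 2) * b ^ 2) :
    U / 3 * (Real.log (11 * U * a / b) + c) + 3 * U / a + 4 * U +
      2420 * U ^ 3 * (r + 1) ^ 2 * (a / b ^ 3) * (Real.log (10 * (r + 1) * U * a / b) + 2 * c) + 1 ≤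
      U * (35 * Real.log y + 3 * c + 8) := by
  have hU : 1 ≤ U := by linarith
  have hb1 : 1 ≤ b := by
    rw [hb]; exact one_le_mul_of_one_le_of_one_le (by linarith) (one_le_pow₀ hU)
  have ha1 : 1 ≤ a := (one_le_pow₀ hb1).trans h3
  have hU0 : 0 < U := by linarith
  have hb0 : 0 < b := by linarith
  have ha0 : 0 < a := by linarith
  have hy0 : 0 < y := by linarith
  have hL : 0 ≤ Real.log y := Real.log_nonneg (by linarith)
  have h5 : a ≤ 6 * U * b ^ 2 := h4.trans (mul_le_mul_of_nonneg_right (by linarith) (by positivity))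
  have key : ∀ s : ℝ, 0 < s → s ≤ 11 * U → Real.log (s * U * a / b) ≤ 26 * Real.log y := by
    intro s s0 s1
    have e : 26 * Real.log y = Real.log (y ^ 26) := by rw [Real.log_pow]; norm_num
    rw [e]
    refine Real.log_le_log (by positivity) ?_
    rw [div_le_iff₀ hb0]
    calc s * U * a ≤ 11 * U * U * (6 * U * b ^ 2) := by gcongr
      _ = 66 * A * U ^ 8 * b := by rw [hb]; ring
      _ ≤ 66 * y * (2 * y ^ 3) ^ 8 * b := by gcongr
      _ = 16896 * y ^ 25 * b := by ring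
      _ ≤ y * y ^ 25 * b := by gcongr; linarith
      _ = y ^ 26 * b := by ring
  have k1 := key 11 (by norm_num) (by linarith)
  have k2 := key (10 * (r + 1)) (by positivity) (by linarith)
  have k3 : 3 * U / a ≤ 3 * U := div_le_self (by positivity) ha1
  have k4 : 2420 * U ^ 3 * (r + 1) ^ 2 * (a / b ^ 3) ≤ U := by
    rw [← mul_div_assoc, div_le_iff₀ (by positivity)]
    calc 2420 * U ^ 3 * (r + 1) ^ 2 * a ≤ 2420 * U ^ 3 * U ^ 2 * (6 * U * b ^ 2) := by gcongr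
      _ = U * (14520 * U ^ 5 * b ^ 2) := by ring
      _ ≤ U * (A * U ^ 5 * b ^ 2) := by gcongr; linarith
      _ = U * b ^ 3 := by rw [← hb]; ring
  have k5 : 2420 * U ^ 3 * (r + 1) ^ 2 * (a / b ^ 3) *
      (Real.log (10 * (r + 1) * U * a / b) + 2 * c) ≤ U * (26 * Real.log y + 2 * c) :=
    (mul_le_mul_of_nonneg_left (by linarith) (by positivity)).trans
      (mul_le_mul_of_nonneg_right k4 (by positivity))
  have k6 : U / 3 * (Real.log (11 * U * a / b) + c) ≤ U / 3 * (27 * Real.log y + 3 * c) :=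
    mul_le_mul_of_nonneg_left (by linarith) (by positivity)
  linarith

theorem NUM1_pf : NUM1_st := by
  intro c κ hc hκ
  obtain ⟨y₀, hy₀⟩ := ev_NUM1 c κ hκ
  obtain ⟨A, hA⟩ := exists_nat_ge (max (max y₀ 17000) (10240 / κ))
  have a1 : y₀ ≤ A := ((le_max_left _ _).trans (le_max_left _ _)).trans hA
  have a2 : (17000 : ℝ) ≤ A := ((le_max_right _ _).trans (le_max_left _ _)).trans hA
  have a3 : 10240 / κ ≤ A := (le_max_right _ _).trans hA
  refine ⟨A, by exact_mod_cast (by linarith : (4 : ℝ) ≤ A), ?_,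
    fun δ r U b a hr hU hb h3 h4 => ?_⟩
  · rwa [div_le_iff₀' hκ] at a3
  have d0 : (0 : ℝ) ≤ δ := Nat.cast_nonneg δ
  have er : (r : ℝ) = A * (δ + 1) ^ 2 := by exact_mod_cast hr
  have eU : (U : ℝ) = r + 2 * r * δ + 1 := by exact_mod_cast hU
  have hy : (A : ℝ) ≤ A * (δ + 1) := le_mul_of_one_le_right (by linarith) (by linarith)
  have hd : (δ + 1 : ℝ) ≤ A * (δ + 1) := le_mul_of_one_le_left (by linarith) (by linarith)
  have r1 : (1 : ℝ) ≤ r := by
    rw [er]; exact one_le_mul_of_one_le_of_one_le (by linarith) (one_le_pow₀ (by linarith))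
  have u1 : (U : ℝ) ≤ 2 * r * (δ + 1) := by rw [eU]; linarith
  have u2 : (U : ℝ) ≤ 2 * (A * (δ + 1)) ^ 3 := by
    calc (U : ℝ) ≤ 2 * r * (δ + 1) := u1
      _ = 2 * (A * (δ + 1) * (δ + 1) ^ 2) := by rw [er]; ring
      _ ≤ 2 * (A * (δ + 1) * (A * (δ + 1)) ^ 2) := by gcongr
      _ = 2 * (A * (δ + 1)) ^ 3 := by ring
  have u3 : (r : ℝ) + 1 ≤ U := by
    rw [eU]; have : (0 : ℝ) ≤ 2 * r * δ := by positivity
    linarith
  refine (real_NUM1 c A (A * (δ + 1)) r U a b hc a2 hy (by linarith) u3 u2 (by exact_mod_cast hb)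
    (by exact_mod_cast h3) (by exact_mod_cast h4)).trans_lt ?_
  calc (U : ℝ) * (35 * Real.log (A * (δ + 1)) + 3 * c + 8) < U * (κ * (A * (δ + 1)) / 1024) :=
        mul_lt_mul_of_pos_left (hy₀ _ (a1.trans hy)) (by linarith)
    _ ≤ 2 * r * (δ + 1) * (κ * (A * (δ + 1)) / 1024) := by gcongr
    _ = κ * r ^ 2 / 512 := by rw [er]; ring

end

section

theorem zd_FIN {r s U a b z i d : ℕ} {e : Fin s → ℕ → ℤ} {μ : Fin s → ℤ} (hd : 0 < d)
    (ha : a = (i + 1) * (2 * b ^ 2)) (hb : 1 ≤ b) (hU : r + s ≤ U) (hz : U * (r + 1) ^ 2 + 1 ≤ z)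
    (hind : ∀ c : Fin s → ℂ, (∀ k < i * (2 * b ^ 2), ∑ h, c h * e h k = 0) → c = 0)
    (hone : ∀ k < a, (d : ℚ) * (if k = 0 then 1 else 0) = ∑ h, (μ h : ℚ) * e h k) :
    Zd r (fun h => iz (e h)) a (b ^ 2) (a * b * z) (10 * U * a * z) (4 * U * a * z)
      (2 * U * (a * b * z)) U := by
  have hb2 : b ≤ b ^ 2 := by nlinarith
  have hab : 2 * b ^ 2 ≤ a := by rw [ha]; nlinarith
  have ha1 : 1 ≤ a := by omega
  have hz1 : 1 ≤ z := by omega
  have haz : 1 ≤ a * z := Nat.mul_pos ha1 hz1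
  refine ⟨⟨fun h => (μ h : ℂ) / d, ?_⟩, fun c hc => hind c fun k hk => ?_, ha1, hab, hU, ?_, ?_,
    ?_, ?_, ?_⟩
  · rw [X_pow_dvd_iff]
    intro k hk
    have h1 := congrArg (Rat.cast : ℚ → ℂ) (hone k hk)
    have hd' : (d : ℂ) ≠ 0 := by exact_mod_cast hd.ne'
    rw [map_sub, map_sum, coeff_one]
    simp only [coeff_C_mul, iz, coeff_mk]
    push_cast at h1
    have h2 : ∑ h, (μ h : ℂ) / d * e h k = (∑ h, (μ h : ℂ) * e h k) / d := by
      rw [sum_div]
      exact sum_congr rfl fun h _ => by ring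
    rw [h2, ← h1]
    split_ifs <;> simp [hd']
  · have h1 := hc k (by rw [ha, add_mul, one_mul, Nat.add_sub_cancel]; exact hk)
    rw [map_sum] at h1
    simpa only [coeff_C_mul, iz, coeff_mk] using h1
  · have : U ≤ U * (a * z) := Nat.le_mul_of_pos_right _ haz
    nlinarith
  · have h1 : z ≤ a * b * z := Nat.le_mul_of_pos_left _ (Nat.mul_pos ha1 hb)
    have h2 : a * b * z + U * (r + 1) ^ 2 ≤ 2 * (a * b * z) := by omega
    calc U * (a * b * z + U * (r + 1) ^ 2) ≤ U * (2 * (a * b * z)) := Nat.mul_le_mul_left _ h2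
      _ = 2 * U * (a * b * z) := by ring
  · have h1 : 8 * (U * a * z) ^ 2 < (4 * U * a * z + 1) ^ 2 := by nlinarith
    calc 2 * (2 * U * (a * b * z)) ^ 2 = 8 * (U * a * z) ^ 2 * b ^ 2 := by ring
      _ < _ := Nat.mul_lt_mul_of_pos_right h1 (by positivity)
  · have h1 : U * a * z * b ≤ U * a * z * (U * a * z) := by
      rcases Nat.eq_zero_or_pos U with rfl | hU0
      · simp
      · refine Nat.mul_le_mul_left _ ?_
        have : a ≤ U * a * z := by
          rw [mul_right_comm]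
          exact Nat.le_mul_of_pos_left _ (Nat.mul_pos hU0 hz1)
        omega
    nlinarith
  · have h1 : U * a * z * b ≤ U * a * z * b ^ 2 := Nat.mul_le_mul_left _ hb2
    nlinarith [Nat.zero_le (U * a * z), Nat.zero_le (U * a * z * b), Nat.zero_le (b ^ 2)]

theorem gain_FIN {r s M m p : ℕ} (hM : 2 * M = m * (m + 1)) (hr : 4 ≤ r) (hp : 16 * p ≤ r * m) :
    r * m ^ 2 ≤ 4 * ((r + s) * M - ((s + 1) * M + 2 * p * m)) := by
  obtain ⟨t, rfl⟩ : ∃ t, r = t + 4 := ⟨r - 4, by omega⟩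
  have h1 : 16 * p * m ≤ (t + 4) * m * m := Nat.mul_le_mul_right _ hp
  have h2 : (t + 3) * (2 * M) = (t + 3) * (m * (m + 1)) := by rw [hM]
  have h3 : (t + 4) * m ^ 2 + 4 * ((s + 1) * M + 2 * p * m) ≤ 4 * ((t + 4 + s) * M) := by
    nlinarith [Nat.zero_le (t * m), Nat.zero_le (t * m * m)]
  omega

/-- the theorem, uniform in the set of primes -/
def UNI_st : Prop := ∀ κ : ℝ, 0 < κ → ∃ c : ℕ, ∀ Q : Set ℕ, (∃ᶠ x : ℕ in atTop,
    κ * x / Real.log x ≤ {p | p ≤ x ∧ p.Prime ∧ p ∈ Q}.ncard) → ∀ δ : ℕ, ∃ k : Fin δ → ℕ,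
    (∀ i, Odd (k i) ∧ ¬ 3 ∣ k i ∧ 5 ≤ k i ∧ k i ≤ c * (δ + 1) ^ 33) ∧ Ind Q k

theorem MAIN_pf (h : UNI_st) : MAIN_st := fun Q ⟨κ, hκ, hQ⟩ =>
  (h κ hκ).imp fun _ hc => hc Q hQ

theorem UNI_pf (hIND : IND_st) (hLA : LA_st) (hRA : RA_st) (hRB : RB_st) (hRC : RC_st)
    (hHY : HY_st) (hCNT : CNT_st) (hRE : RE_st) (hPIG : PIG_st) (hMAXI : MAXI_st) (hPS : PS_st)
    (hINEQ : INEQ_st) (hNUM2 : NUM2_st) (hNUM1 : NUM1_st) (hTH : TH_st) : UNI_st := by
  classical
  intro κ hκ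
  obtain ⟨c, hc⟩ := hPS.1
  obtain ⟨A, hA4, hAκ, hA⟩ := hNUM1 c κ hc.1 hκ
  refine ⟨6 * A ^ 2 * (3 * A) ^ 11, fun Q hfr δ => ?_⟩
  by_contra hno
  obtain ⟨kk, cc, B, hkk, hB⟩ := hMAXI Q _ δ hno
  obtain ⟨r, hr⟩ : ∃ r, r = A * (δ + 1) ^ 2 := ⟨_, rfl⟩
  obtain ⟨U, hU⟩ : ∃ U, U = r + 2 * r * δ + 1 := ⟨_, rfl⟩
  obtain ⟨b, hb⟩ : ∃ b, b = A * U ^ 5 := ⟨_, rfl⟩
  obtain ⟨i, s, d, e, μ, hi1, hi2, hs, hd, hind, hspan⟩ :=
    hPIG (Option (Fin r × Fin δ × Fin 2)) (ph r δ cc) (2 * b ^ 2)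
  have hcard : Fintype.card (Option (Fin r × Fin δ × Fin 2)) = 2 * r * δ + 1 := by
    simp only [Fintype.card_option, Fintype.card_prod, Fintype.card_fin]
    ring
  rw [hcard] at hi2 hs
  obtain ⟨a, ha⟩ : ∃ a, a = (i + 1) * (2 * b ^ 2) := ⟨_, rfl⟩
  rw [← ha] at hspan
  have hr4 : 4 ≤ r := by
    rw [hr]
    exact hA4.trans (Nat.le_mul_of_pos_right _ (by positivity))
  have hU1 : 1 ≤ U := by omega
  have hb1 : 1 ≤ b := by
    rw [hb]
    exact Nat.mul_pos (by omega) (by positivity)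
  have hbb : b ≤ b ^ 2 := by nlinarith
  have ha1 : b ^ 2 ≤ a := by rw [ha]; nlinarith
  have ha2 : a ≤ 2 * (U + 2) * b ^ 2 := by
    rw [ha]
    calc (i + 1) * (2 * b ^ 2) ≤ (U + 2) * (2 * b ^ 2) := Nat.mul_le_mul_right _ (by omega)
      _ = _ := by ring
  have haK : a ≤ 6 * A ^ 2 * (3 * A) ^ 11 * (δ + 1) ^ 33 := by
    have h1 : U ≤ 3 * A * (δ + 1) ^ 3 := by
      have : U ≤ 3 * r * (δ + 1) := by rw [hU]; nlinarith
      calc U ≤ 3 * r * (δ + 1) := this
        _ = _ := by rw [hr]; ring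
    calc a ≤ 2 * (U + 2) * b ^ 2 := ha2
      _ ≤ 6 * U * b ^ 2 := Nat.mul_le_mul_right _ (by omega)
      _ = 6 * A ^ 2 * U ^ 11 := by rw [hb]; ring
      _ ≤ 6 * A ^ 2 * (3 * A * (δ + 1) ^ 3) ^ 11 :=
        Nat.mul_le_mul_left _ (Nat.pow_le_pow_left h1 _)
      _ = _ := by rw [mul_pow (3 * A), ← pow_mul, ← mul_assoc]
  clear hno
  generalize 6 * A ^ 2 * (3 * A) ^ 11 * (δ + 1) ^ 33 = K at hB haK
  have ha0 : 1 ≤ a := by omega
  have hrab : 0 < r * a * b := Nat.mul_pos (Nat.mul_pos (by omega) ha0) hb1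
  obtain ⟨Hη, hHη⟩ : ∃ H : ℝ, H = ∑ h, ∑ k ∈ range a, ‖(e h k : ℂ)‖ := ⟨_, rfl⟩
  have hH0 : 0 ≤ Hη := by rw [hHη]; positivity
  have hHb : ∀ h, ∀ k < a, ‖coeff k (iz (e h))‖ ≤ Hη := fun h k hk => by
    rw [iz, coeff_mk, hHη]
    exact (single_le_sum (f := fun k => ‖(e h k : ℂ)‖) (fun _ _ => norm_nonneg _)
      (mem_range.mpr hk)).trans (single_le_sum (f := fun h => ∑ k ∈ range a, ‖(e h k : ℂ)‖)
        (fun _ _ => by positivity) (mem_univ h))
  have htend : Tendsto (fun x : ℕ => 16 * x / (r * a * b) + 1) atTop atTop := by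
    refine tendsto_atTop_atTop.mpr fun y => ⟨y * (r * a * b), fun x hx => ?_⟩
    have : y ≤ 16 * x / (r * a * b) := (Nat.le_div_iff_mul_le hrab).mpr (by omega)
    omega
  obtain ⟨x, hx1, hx2, hx3, hx4⟩ := (hfr.and_eventually ((hTH κ hκ).and
    ((htend.eventually (hNUM2 c Hη r U a b hc.1 hH0 hU1 hb1 (by omega))).and
    (htend.eventually (eventually_ge_atTop
      (10 * (r + 1) * U * a + U * (r + 1) ^ 2 + B + d + a + r + 3)))))).exists
  obtain ⟨z, hz⟩ : ∃ z, z = 16 * x / (r * a * b) + 1 := ⟨_, rfl⟩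
  rw [← hz] at hx3 hx4
  have hz1 : 16 * x ≤ r * (a * b * z) := by
    have := Nat.lt_div_mul_add (a := 16 * x) hrab
    rw [hz]
    nlinarith
  have hz2 : r * (a * b * z) ≤ 32 * x := by
    have h1 := Nat.div_mul_le_self (16 * x) (r * a * b)
    have h2 : 1 ≤ 16 * x / (r * a * b) := by omega
    have h3 : r * a * b ≤ 16 * x / (r * a * b) * (r * a * b) := Nat.le_mul_of_pos_left _ h2
    rw [hz]
    nlinarith
  obtain ⟨m, hm⟩ : ∃ m, m = a * b * z := ⟨_, rfl⟩
  obtain ⟨n, hn⟩ : ∃ n, n = 10 * U * a * z := ⟨_, rfl⟩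
  have hzd := zd_FIN (r := r) (U := U) (z := z) hd ha hb1 (by omega) (by omega) hind (hspan none)
  rw [← hm, ← hn] at hzd hx3
  rw [← hm] at hz1 hz2
  obtain ⟨col, hcol⟩ := hIND r s _ a _ m n _ _ U hzd
  obtain ⟨S, hS1, hS2⟩ := hRE a r s m n _ Hη col hH0 hHb
  have hzP : z ≤ b * z := Nat.le_mul_of_pos_left _ hb1
  have hPm : b * z ≤ m := by
    rw [hm, mul_assoc]
    exact Nat.le_mul_of_pos_left _ ha0
  have hPn : b * z ≤ n := by
    rw [hn]
    refine Nat.mul_le_mul_right _ ?_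
    have : a ≤ 10 * U * a := Nat.le_mul_of_pos_left _ (by omega)
    omega
  have hnY : n ≤ (r + 1) * n := Nat.le_mul_of_pos_left _ (by omega)
  have hcT : Fintype.card ((Fin r ⊕ Fin s) × Mi m) = (r + s) * Fintype.card (Mi m) := by
    rw [Fintype.card_prod, Fintype.card_sum, Fintype.card_fin, Fintype.card_fin]
  have hcL : Fintype.card (Fin r ⊕ Fin s) = r + s := by
    rw [Fintype.card_sum, Fintype.card_fin, Fintype.card_fin]
  set Q₀ : Finset ℕ := (range (x + 1)).filter fun p => p.Prime ∧ p ∈ Q with hQ₀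
  have hQ : ∀ p ∈ Q₀, p.Prime ∧ p ≤ x ∧ p ∈ Q := fun p hp => by
    have := mem_filter.mp hp
    exact ⟨this.2.1, by have := mem_range.mp this.1; omega, this.2.2⟩
  have hQc : {p | p ≤ x ∧ p.Prime ∧ p ∈ Q}.ncard = Q₀.card := by
    rw [← Set.ncard_coe_finset]
    congr 1
    ext p
    simp [hQ₀]
  rw [hQc] at hx1
  have hYx : 16 * (((r + 1) * n : ℕ) : ℝ) ≤ κ * x := by
    have h1 : (r : ℝ) * m ≤ 32 * x := by exact_mod_cast hz2
    have h2 : (16 * ((r + 1) * n) : ℕ) ≤ 320 * (r * U * a * z) := by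
      rw [hn]
      have : r + 1 ≤ 2 * r := by omega
      calc 16 * ((r + 1) * (10 * U * a * z)) ≤ 16 * (2 * r * (10 * U * a * z)) :=
          Nat.mul_le_mul_left _ (Nat.mul_le_mul_right _ this)
        _ = _ := by ring
    have h3 : A * U ≤ b := by
      rw [hb]
      exact Nat.mul_le_mul_left _ (Nat.le_self_pow (by norm_num) _)
    have h4 : A * (r * U * a * z) ≤ r * m := by
      rw [hm]
      calc A * (r * U * a * z) = A * U * (r * a * z) := by ring
        _ ≤ b * (r * a * z) := Nat.mul_le_mul_right _ h3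
        _ = _ := by ring
    have h2' : 16 * (((r + 1) * n : ℕ) : ℝ) ≤ 320 * ((r * U * a * z : ℕ) : ℝ) := by
      exact_mod_cast h2
    have h4' : (A : ℝ) * ((r * U * a * z : ℕ) : ℝ) ≤ r * m := by exact_mod_cast h4
    have h5 : (0 : ℝ) ≤ ((r * U * a * z : ℕ) : ℝ) := Nat.cast_nonneg _
    have h6 := mul_le_mul_of_nonneg_right hAκ h5
    have h7 := mul_le_mul_of_nonneg_left (h4'.trans h1) hκ.le
    nlinarith
  have hth := hx2 Q₀ ((r + 1) * n) (fun p hp => ⟨(hQ p hp).1, (hQ p hp).2.1⟩) hx1 hYx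
  have hH1 : (1 : ℝ) ≤ 4 * (r + 1 : ℝ) ^ (a + 2) * (n + 1) + Hη := by
    have h1 : (1 : ℝ) ≤ (r + 1 : ℝ) ^ (a + 2) := one_le_pow₀ (by linarith [Nat.cast_nonneg (α := ℝ) r])
    have h2 : (1 : ℝ) ≤ (n + 1 : ℝ) := by linarith [Nat.cast_nonneg (α := ℝ) n]
    nlinarith
  have hmain := hINEQ (Dt (Rw r (fun h => iz (e h)) m n) col) c _ r (r + s) U (Fintype.card (Mi m))
    m n a (b * z) ((r + 1) * n) S (Q₀.filter ((r + 1) * n < ·)) hc hcol (hCNT m).1 (by omega)
    (by omega) hPm (by omega) (by omega) hH1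
    (fun p hp => by
      have hp' := (mem_filter.mp hp).2
      have h1 := hLA (Fin r ⊕ Fin s) p a (a * Nat.log p ((r + 1) * n)) m n (m / p)
        (fun l j => Ph r (fun h => iz (e h)) l fun i => j i) col hp'.pos fun l j =>
          hRA p a r s n _ l _ hp' (fun h => iz_Op p a _) fun i => Nat.lt_succ_iff.mp (j i).2
      rwa [hcT, hcL] at h1)
    (fun p hp hP => hRB p a r s m n _ col hp (by omega) (by
      have h1 : (r + 1) * n ≤ z * z := by
        rw [hn]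
        calc (r + 1) * (10 * U * a * z) = 10 * (r + 1) * U * a * z := by ring
          _ ≤ z * z := Nat.mul_le_mul_right _ (by omega)
      have h2 : z < p := by omega
      nlinarith) fun h => iz_Op p a _)
    (fun p hp => by
      obtain ⟨hp1, hp2⟩ := mem_filter.mp hp
      obtain ⟨hp3, hp4, hp5⟩ := hQ p hp1
      have hzp : z < p := by omega
      refine ⟨hp3, hp2, _, gain_FIN (s := s) (p := p) (hCNT m).1 hr4 (by omega),
        hRC p a r s m n _ col hp3 (by omega) hp2 (fun h => iz_Op p a _)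
          (hHY p r δ s a d kk cc e μ hp3 (by omega) (by omega) hkk
            (fun k h1 h2 h3 => hB p hp5 hp3 (by omega) k h1 (h2.trans haK) h3)
            (Nat.coprime_of_lt_prime hd.ne' (by omega) hp3).symm hspan)⟩)
    hS1 hS2
  have hlead := hA δ r U b a hr hU hb ha1 ha2
  have hm0 : (0 : ℝ) < m := by exact_mod_cast (show 0 < m by omega)
  have h1 : (r : ℝ) * m ≤ 32 * x := by exact_mod_cast hz2
  have h2 := mul_lt_mul_of_pos_right hlead (pow_pos hm0 3)
  have h3 : κ * (r * m) / 128 ≤ ∑ p ∈ Q₀.filter ((r + 1) * n < ·), Real.log p := by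
    have := mul_le_mul_of_nonneg_left h1 hκ.le
    linarith
  have h4 := mul_le_mul_of_nonneg_left h3 (show (0 : ℝ) ≤ r * m ^ 2 / 4 by positivity)
  have h5 := hmain.trans hx3
  nlinarith

end

end Pool.Agent.MP_3924c3_nt.BR
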