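import Pool.Agent.Mg.F3792c7p.Gdb7bcf
import Pool.Agent.Mg.F3792c7p.G2de6d8
import Pool.Agent.Mg.F3792c7p.Ge73b53

set_option linter.all false

section

/-! Sums over primes and linear algebra. -/

set_option autoImplicit false

open Finset Filter PowerSeries

noncomputable section

namespace Pool.Agent.MP_3924c3_nt.BR

section

theorem den_PIG {τ : Type} [Fintype τ] (f : τ → ℚ) :
    ∃ (d : ℕ) (g : τ → ℤ), 0 < d ∧ ∀ t, (d : ℚ) * f t = g t := by
  classical
  refine ⟨∏ t, (f t).den, fun t => (∏ u ∈ univ.erase t, (f u).den : ℕ) * (f t).num,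
    prod_pos fun t _ => (f t).den_pos, fun t => ?_⟩
  rw [← prod_erase_mul univ _ (mem_univ t)]
  push_cast
  rw [mul_assoc, Rat.den_mul_eq_num]

theorem step_PIG (D : ℕ → ℕ) (N : ℕ) (h1 : D 1 ≤ N) (h : ∀ i, D (i + 1) ≤ D i) :
    ∃ i, 1 ≤ i ∧ i ≤ N + 1 ∧ D (i + 1) = D i := by
  by_contra hn
  push Not at hn
  have : ∀ i, i ≤ N + 1 → D (i + 1) + i ≤ N := by
    intro i
    induction i with
    | zero => exact fun _ => h1
    | succ i ih =>
      intro hi
      have a := ih (by omega)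
      have b := h (i + 1)
      have c := hn (i + 1) (by omega) hi
      omega
  have := this (N + 1) le_rfl
  omega

/-- the relations between the first `n` entries -/
def ker_PIG {ι : Type} [Fintype ι] (φ : ι → ℕ → ℚ) (n : ℕ) : Submodule ℚ (ι → ℚ) where
  carrier := {c | ∀ k < n, ∑ o, c o * φ o k = 0}
  add_mem' := fun {a b} ha hb k hk => by
    simp only [Pi.add_apply, add_mul, sum_add_distrib, ha k hk, hb k hk, add_zero]
  zero_mem' := fun k _ => by simp
  smul_mem' := fun a b hb k hk => by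
    simp only [Pi.smul_apply, smul_eq_mul, mul_assoc, ← mul_sum, hb k hk, mul_zero]

theorem PIG_pf : PIG_st := by
  classical
  intro ι _ φ G
  have hle : ∀ i, ker_PIG φ ((i + 1) * G) ≤ ker_PIG φ (i * G) := fun i c hc k hk =>
    hc k (by rw [add_mul]; omega)
  obtain ⟨i, i1, i2, hD⟩ := step_PIG (fun i => Module.finrank ℚ (ker_PIG φ (i * G)))
    (Fintype.card ι) ((Submodule.finrank_le _).trans (Module.finrank_fintype_fun_eq_card ℚ).le)
    fun i => Submodule.finrank_mono (hle i)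
  have hK := Submodule.eq_of_le_of_finrank_eq (hle i) hD
  obtain ⟨κ, a', ha', hsp', hli'⟩ :=
    exists_linearIndependent' ℚ fun o (k : Fin ((i + 1) * G)) => φ o k
  have : Finite κ := Finite.of_injective a' ha'
  obtain ⟨s, ⟨eq⟩⟩ := Finite.exists_equiv_fin κ
  set a : Fin s → ι := a' ∘ eq.symm with ha
  have hinj : Function.Injective a := ha'.comp eq.symm.injective
  have hli : LinearIndependent ℚ fun h (k : Fin ((i + 1) * G)) => φ (a h) k :=
    hli'.comp _ eq.symm.injective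
  have hsp : ∀ o, ∃ l : Fin s → ℚ, ∀ k : Fin ((i + 1) * G), φ o k = ∑ h, l h * φ (a h) k := by
    intro o
    have h1 : (fun k : Fin ((i + 1) * G) => φ o k) ∈ Submodule.span ℚ
        (Set.range fun h (k : Fin ((i + 1) * G)) => φ (a h) k) := by
      have e := eq.symm.surjective.range_comp
        ((fun o (k : Fin ((i + 1) * G)) => φ o k) ∘ a')
      have h2 : (fun k : Fin ((i + 1) * G) => φ o k) ∈ Submodule.span ℚ
          (Set.range ((fun o (k : Fin ((i + 1) * G)) => φ o k) ∘ a')) := by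
        rw [hsp']
        exact Submodule.subset_span ⟨o, rfl⟩
      rw [← e] at h2
      exact h2
    obtain ⟨l, hl⟩ := (Submodule.mem_span_range_iff_exists_fun ℚ).1 h1
    refine ⟨l, fun k => ?_⟩
    rw [← congrFun hl k, Finset.sum_apply]
    rfl
  choose l hl using hsp
  obtain ⟨d0, g0, p0, h0⟩ := den_PIG fun t : Fin s × Fin ((i + 1) * G) => φ (a t.1) t.2
  obtain ⟨d1, g1, p1, h1⟩ := den_PIG fun t : ι × Fin s => l t.1 t.2
  obtain ⟨e, he⟩ : ∃ e : Fin s → ℕ → ℤ, ∀ h, ∀ k < (i + 1) * G, (d0 : ℚ) * φ (a h) k = e h k :=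
    ⟨fun h k => if hk : k < (i + 1) * G then g0 (h, ⟨k, hk⟩) else 0, fun h k hk => by
      beta_reduce
      rw [dif_pos hk]
      exact h0 (h, ⟨k, hk⟩)⟩
  have lt : ∀ k < i * G, k < (i + 1) * G := fun k hk => by rw [add_mul]; omega
  refine ⟨i, s, d1 * d0, e, fun o h => g1 (o, h), i1, i2,
    by simpa using Fintype.card_le_of_injective a hinj, Nat.mul_pos p1 p0, ?_, ?_⟩
  · have hq : LinearIndependent ℚ fun h (k : Fin (i * G)) => (e h k : ℚ) := by
      rw [Fintype.linearIndependent_iff]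
      intro c hc
      have key : ∀ k, ∑ o, (∑ h, Pi.single (M := fun _ => ℚ) (a h) (c h)) o * φ o k =
          ∑ h, c h * φ (a h) k := by
        intro k
        simp only [Finset.sum_apply, sum_mul]
        rw [sum_comm]
        refine sum_congr rfl fun h _ => ?_
        simp [Pi.single_apply]
      have m : (∑ h, Pi.single (M := fun _ => ℚ) (a h) (c h)) ∈ ker_PIG φ (i * G) := by
        intro k hk
        rw [key]
        have h2 := congrFun hc ⟨k, hk⟩
        rw [Finset.sum_apply] at h2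
        have h3 : (d0 : ℚ) ≠ 0 := by exact_mod_cast p0.ne'
        refine mul_left_cancel₀ h3 ?_
        rw [mul_zero, mul_sum]
        refine Eq.trans (sum_congr rfl fun h _ => ?_) h2
        rw [mul_left_comm, he h k (lt k hk)]
        rfl
      rw [← hK] at m
      refine Fintype.linearIndependent_iff.1 hli c (funext fun k => ?_)
      have h2 := m k k.2
      rw [key] at h2
      rw [Finset.sum_apply]
      exact h2
    intro c hc
    have hC := (linearIndependent_algebraMap_comp_iff (S := ℂ)).2 hq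
    funext h
    refine Fintype.linearIndependent_iff.1 hC c (funext fun k => ?_) h
    rw [Finset.sum_apply]
    simpa using hc k k.2
  · intro o k hk
    rw [hl o ⟨k, hk⟩, mul_sum]
    refine sum_congr rfl fun h _ => ?_
    rw [← he h k hk, ← h1 (o, h)]
    push_cast
    ring

end

section

theorem step_MAXI (P : ℕ → Prop) (h0 : P 0) : ∀ δ, ¬ P δ → ∃ t < δ, P t ∧ ¬ P (t + 1) := by
  intro δ
  induction δ with
  | zero => exact fun h => absurd h0 h
  | succ n ih =>
    intro h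
    by_cases hn : P n
    · exact ⟨n, by omega, hn, h⟩
    · obtain ⟨t, ht, h1⟩ := ih hn
      exact ⟨t, by omega, h1⟩

theorem num_MAXI {p : ℕ} (hp : p.Prime) (u S : ℚ) (hu : u.den < p) (hS : (p : ℤ) ∣ S.num) :
    (p : ℤ) ∣ (u * S).num := by
  have hp' : Prime (p : ℤ) := Nat.prime_iff_prime_int.mp hp
  have h1 : (u * S).num * ((u.den : ℤ) * S.den) = u.num * S.num * (u * S).den := by
    have a1 := Rat.mul_den_eq_num u
    have a2 := Rat.mul_den_eq_num S
    have a3 := Rat.mul_den_eq_num (u * S)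
    have : (((u * S).num * ((u.den : ℤ) * S.den) : ℤ) : ℚ) =
        ((u.num * S.num * (u * S).den : ℤ) : ℚ) := by
      push_cast
      rw [← a1, ← a2, ← a3]
      ring
    exact_mod_cast this
  have h2 : (p : ℤ) ∣ (u * S).num * ((u.den : ℤ) * S.den) :=
    h1 ▸ (hS.mul_left _).mul_right _
  rcases hp'.dvd_or_dvd h2 with h | h
  · exact h
  · exfalso
    rcases hp'.dvd_or_dvd h with h | h
    · have := Nat.le_of_dvd u.den_pos (Int.natCast_dvd_natCast.mp h)
      omega
    · have h3 : p ∣ S.num.natAbs := Int.natCast_dvd.mp hS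
      have h4 : p ∣ S.den := Int.natCast_dvd_natCast.mp h
      have h5 := Nat.dvd_gcd h3 h4
      rw [S.reduced] at h5
      exact hp.one_lt.ne' (Nat.dvd_one.mp h5)

theorem cop_MAXI {p : ℕ} (hp : p.Prime) (u : ℚ) (hu : u.den < p) : u.den.Coprime p :=
  ((Nat.coprime_of_lt_prime u.den_nz hu hp)).symm

theorem one_MAXI (Q : Set ℕ) (K t : ℕ) (k0 : Fin t → ℕ)
    (ha : ∀ i, Odd (k0 i) ∧ ¬ 3 ∣ k0 i ∧ 5 ≤ k0 i ∧ k0 i ≤ K) (hi : Ind Q k0)
    (hn : ¬ ∃ k : Fin (t + 1) → ℕ, (∀ i, Odd (k i) ∧ ¬ 3 ∣ k i ∧ 5 ≤ k i ∧ k i ≤ K) ∧ Ind Q k)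
    (k : ℕ) : ∃ (d : Fin t → ℚ) (B : ℕ), 2 ≤ k → k ≤ K → ¬ 3 ∣ k → ∀ p ∈ Q, p.Prime → B < p →
      (∀ h, (d h).den.Coprime p) ∧
        (p : ℤ) ∣ (bernoulli (p - k) - ∑ h, d h * bernoulli (p - k0 h)).num := by
  by_cases hk : 2 ≤ k ∧ k ≤ K ∧ ¬ 3 ∣ k
  swap
  · exact ⟨0, 0, fun a b c => absurd ⟨a, b, c⟩ hk⟩
  obtain ⟨h2, hK, h3⟩ := hk
  rcases Nat.even_or_odd k with he | ho
  · refine ⟨0, k + 3, fun _ _ _ p _ hp hB => ⟨fun h => by simp, ?_⟩⟩
    have hpo : Odd p := hp.odd_of_ne_two (by omega)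
    have h4 : Odd (p - k) := Nat.Odd.sub_even (by omega) hpo he
    have h5 : bernoulli (p - k) = 0 := by
      rw [bernoulli_eq_bernoulli'_of_ne_one (by omega)]
      exact bernoulli'_eq_zero_of_odd h4 (by omega)
    simp [h5]
  · have h5 : 5 ≤ k := by
      obtain ⟨j, rfl⟩ := ho
      omega
    have hd : ¬ Ind Q (Fin.cons k k0 : Fin (t + 1) → ℕ) := fun h =>
      hn ⟨Fin.cons k k0, fun i => Fin.cases ⟨ho, h3, h5, hK⟩ (fun j => ha j) i, h⟩
    unfold Ind at hd
    push Not at hd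
    obtain ⟨c, hc, hf⟩ := hd
    simp only [Fin.sum_univ_succ, Fin.cons_zero, Fin.cons_succ] at hf
    have hc0 : c 0 ≠ 0 := by
      intro h0
      have ht : (fun j : Fin t => c j.succ) ≠ 0 := by
        intro h1
        apply hc
        funext i
        exact Fin.cases h0 (fun j => congrFun h1 j) i
      have := hi _ ht
      simp only [h0, zero_mul, zero_add] at hf
      exact this hf
    obtain ⟨B, hB⟩ := hf.bddAbove
    refine ⟨fun j => -c j.succ / c 0,
      B + (c 0)⁻¹.den + ∑ j : Fin t, (-c j.succ / c 0).den, fun _ _ _ p hQ hp hp2 => ⟨?_, ?_⟩⟩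
    · intro h
      apply cop_MAXI hp
      have := single_le_sum (f := fun j : Fin t => (-c j.succ / c 0).den)
        (fun _ _ => Nat.zero_le _) (mem_univ h)
      show (-c h.succ / c 0).den < p
      omega
    · have h6 : (p : ℤ) ∣ (c 0 * bernoulli (p - k) +
          ∑ j : Fin t, c j.succ * bernoulli (p - k0 j)).num := by
        by_contra h7
        have := hB (show p ∈ _ from ⟨hQ, hp, h7⟩)
        omega
      have h8 := num_MAXI hp (c 0)⁻¹ _ (by omega) h6
      convert h8 using 2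
      rw [mul_add, mul_sum, ← mul_assoc, inv_mul_cancel₀ hc0, one_mul, sub_eq_add_neg,
        ← sum_neg_distrib]
      congr 1
      refine sum_congr rfl fun j _ => ?_
      ring

theorem MAXI_pf : MAXI_st := by
  intro Q K δ hn
  obtain ⟨t, ht, ⟨k0, ha, hi⟩, h1⟩ := step_MAXI (fun t => ∃ k : Fin t → ℕ,
    (∀ i, Odd (k i) ∧ ¬ 3 ∣ k i ∧ 5 ≤ k i ∧ k i ≤ K) ∧ Ind Q k)
    ⟨Fin.elim0, fun i => i.elim0, fun c hc => absurd (Subsingleton.elim _ _) hc⟩ δ hn
  choose d B hd using one_MAXI Q K t k0 ha hi h1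
  obtain ⟨u, rfl⟩ := Nat.exists_eq_add_of_le ht.le
  refine ⟨Fin.append k0 fun _ => 5, fun k => Fin.append (d k) fun _ => 0,
    ∑ k ∈ range (K + 1), B k, ?_, ?_⟩
  · intro h
    refine Fin.addCases (fun i => ?_) (fun i => ?_) h
    · rw [Fin.append_left]
      have := (ha i).2.2.1
      omega
    · rw [Fin.append_right]
      norm_num
  · intro p hQ hp hB k h2 hK h3
    have h4 := single_le_sum (f := B) (fun _ _ => Nat.zero_le _)
      (mem_range.mpr (show k < K + 1 by omega))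
    obtain ⟨h5, h6⟩ := hd k h2 hK h3 p hQ hp (by omega)
    refine ⟨fun h => ?_, ?_⟩
    · refine Fin.addCases (fun i => ?_) (fun i => ?_) h
      · simpa only [Fin.append_left] using h5 i
      · simp only [Fin.append_right]
        simp
    · simpa only [Fin.sum_univ_add, Fin.append_left, Fin.append_right, zero_mul, sum_const_zero,
        add_zero] using h6

end

section

open ArithmeticFunction in
theorem log_eq_PS (N : ℕ) : ∑ n ∈ Icc 1 N, Real.log n =
    ∑ d ∈ Icc 1 N, vonMangoldt d * ((N / d : ℕ) : ℝ) := by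
  induction N with
  | zero => simp
  | succ N ih =>
    rw [sum_Icc_succ_top (by omega), ih]
    have h1 : ∑ d ∈ Icc 1 (N + 1), vonMangoldt d * (((N + 1) / d : ℕ) : ℝ) =
        ∑ d ∈ Icc 1 (N + 1), vonMangoldt d * ((N / d : ℕ) : ℝ) +
          ∑ d ∈ Icc 1 (N + 1), if d ∣ N + 1 then vonMangoldt d else 0 := by
      rw [← sum_add_distrib]
      refine sum_congr rfl fun d _ => ?_
      rw [Nat.succ_div]
      split_ifs <;> push_cast <;> ring
    rw [h1, sum_Icc_succ_top (by omega) (fun d => vonMangoldt d * ((N / d : ℕ) : ℝ)),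
      Nat.div_eq_of_lt (Nat.lt_succ_self N), ← sum_filter, ← vonMangoldt_sum]
    simp only [Nat.cast_zero, mul_zero, add_zero]
    congr 1

open ArithmeticFunction in
theorem log_bounds_PS (N : ℕ) : N * Real.log N - N ≤ ∑ n ∈ Icc 1 N, Real.log n ∧
    ∑ n ∈ Icc 1 N, Real.log n ≤ N * Real.log N := by
  constructor
  · induction N with
    | zero => simp
    | succ N ih =>
      rw [sum_Icc_succ_top (by omega)]
      rcases Nat.eq_zero_or_pos N with rfl | hN
      · simp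
      have hN' : (0 : ℝ) < N := by exact_mod_cast hN
      have h1 : Real.log ((N + 1) / N) ≤ (N + 1) / N - 1 :=
        Real.log_le_sub_one_of_pos (by positivity)
      rw [Real.log_div (by positivity) hN'.ne'] at h1
      have h2 : (N : ℝ) * (Real.log (N + 1) - Real.log N) ≤ 1 := by
        calc (N : ℝ) * (Real.log (N + 1) - Real.log N) ≤ N * ((N + 1) / N - 1) := by gcongr
          _ = 1 := by field_simp; ring
      push_cast
      nlinarith
  · calc ∑ n ∈ Icc 1 N, Real.log n ≤ ∑ n ∈ Icc 1 N, Real.log N := by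
          refine sum_le_sum fun n hn => ?_
          rw [mem_Icc] at hn
          exact Real.log_le_log (by exact_mod_cast hn.1) (by exact_mod_cast hn.2)
      _ = N * Real.log N := by simp

open ArithmeticFunction in
theorem vm_PS {N : ℕ} (hN : 1 ≤ N) :
    Real.log N - 1 ≤ ∑ n ∈ Icc 1 N, vonMangoldt n / n ∧
      ∑ n ∈ Icc 1 N, vonMangoldt n / n ≤ Real.log N + (Real.log 4 + 4) := by
  have hN' : (0 : ℝ) < N := by exact_mod_cast hN
  obtain ⟨h1, h2⟩ := log_bounds_PS N
  rw [log_eq_PS] at h1 h2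
  have h3 : ∑ d ∈ Icc 1 N, vonMangoldt d * ((N / d : ℕ) : ℝ) ≤
      N * ∑ n ∈ Icc 1 N, vonMangoldt n / n := by
    rw [mul_sum]
    refine sum_le_sum fun d _ => ?_
    have := (Nat.cast_div_le (α := ℝ) (m := N) (n := d))
    calc vonMangoldt d * ((N / d : ℕ) : ℝ) ≤ vonMangoldt d * (N / d) := by
          gcongr
      _ = _ := by ring
  have h4 : N * ∑ n ∈ Icc 1 N, vonMangoldt n / n ≤
      ∑ d ∈ Icc 1 N, vonMangoldt d * ((N / d : ℕ) : ℝ) + ∑ d ∈ Icc 1 N, vonMangoldt d := by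
    rw [mul_sum, ← sum_add_distrib]
    refine sum_le_sum fun d hd => ?_
    have h5 : (N : ℝ) / d ≤ ((N / d : ℕ) : ℝ) + 1 := by
      rw [← Nat.floor_div_eq_div (K := ℝ)]
      exact (Nat.lt_floor_add_one _).le
    calc (N : ℝ) * (vonMangoldt d / d) = vonMangoldt d * (N / d) := by ring
      _ ≤ vonMangoldt d * (((N / d : ℕ) : ℝ) + 1) := by gcongr
      _ = _ := by ring
  have h6 : ∑ d ∈ Icc 1 N, vonMangoldt d ≤ (Real.log 4 + 4) * N := by
    have := Chebyshev.psi_le_const_mul_self hN'.le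
    rw [Chebyshev.psi_eq_sum_Icc, Nat.floor_natCast] at this
    refine le_trans (sum_le_sum_of_subset_of_nonneg ?_ fun _ _ _ => vonMangoldt_nonneg) this
    exact Icc_subset_Icc (by omega) le_rfl
  constructor
  · exact le_of_mul_le_mul_left (by nlinarith) hN'
  · exact le_of_mul_le_mul_left (by nlinarith) hN'

open ArithmeticFunction in
theorem nonprime_PS : Summable fun n : ℕ => (if n.Prime then 0 else vonMangoldt n) / (n : ℝ) := by
  refine (vonMangoldt.summable_residueClass_non_primes_div (0 : ZMod 1)).congr fun n => ?_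
  rw [vonMangoldt.residueClass, Set.indicator_of_mem]
  exact Subsingleton.elim (α := ZMod 1) _ _

open ArithmeticFunction in
theorem mer_PS : ∃ c, Mer c := by
  have hn : ∀ n : ℕ, 0 ≤ (if n.Prime then 0 else vonMangoldt n) / (n : ℝ) := fun n => by
    refine div_nonneg ?_ n.cast_nonneg
    split_ifs
    · exact le_rfl
    · exact vonMangoldt_nonneg
  have hB : 0 ≤ ∑' n : ℕ, (if n.Prime then 0 else vonMangoldt n) / (n : ℝ) := tsum_nonneg hn
  refine ⟨∑' n : ℕ, (if n.Prime then 0 else vonMangoldt n) / (n : ℝ) + 10, by linarith,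
    fun y hy => ?_⟩
  obtain ⟨h2, h3⟩ := vm_PS hy
  have h7 : Real.log 4 ≤ 3 := by
    linarith [Real.log_le_sub_one_of_pos (show (0 : ℝ) < 4 by norm_num)]
  have e : ∑ n ∈ Icc 1 y, vonMangoldt n / n = ∑ p ∈ PP y, Real.log p / p +
      ∑ n ∈ Icc 1 y, (if n.Prime then 0 else vonMangoldt n) / (n : ℝ) := by
    have e1 : PP y = (Icc 1 y).filter Nat.Prime := by
      ext p
      rw [PP, mem_filter, mem_filter, mem_range, mem_Icc]
      exact and_congr_left fun hp => ⟨fun h => ⟨hp.pos, by omega⟩, fun h => by omega⟩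
    rw [e1, sum_filter, ← sum_add_distrib]
    refine sum_congr rfl fun n _ => ?_
    split_ifs with h
    · rw [vonMangoldt_apply_prime h, zero_div, add_zero]
    · rw [zero_add]
  have h8 := nonprime_PS.sum_le_tsum (Icc 1 y) fun n _ => hn n
  have h9 := sum_nonneg (s := Icc 1 y) fun n _ => hn n
  rw [abs_le]
  constructor <;> linarith

theorem theta_PS (y : ℕ) : ∑ p ∈ PP y, Real.log p ≤ 2 * y := by
  have h := Chebyshev.theta_le_log4_mul_x (x := y) y.cast_nonneg
  rw [Chebyshev.theta_eq_sum_Icc, Nat.floor_natCast, ← Nat.range_succ_eq_Icc_zero] at h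
  have h4 : Real.log 4 ≤ 2 := by
    rw [show (4 : ℝ) = 2 ^ 2 by norm_num, Real.log_pow]
    push_cast
    linarith [Real.log_le_sub_one_of_pos (show (0 : ℝ) < 2 by norm_num)]
  exact h.trans (mul_le_mul_of_nonneg_right h4 y.cast_nonneg)

theorem PS_pf : PS_st := by
  refine ⟨mer_PS, theta_PS, fun y Y hY => ?_⟩
  have hL : 0 ≤ Real.log Y := Real.log_natCast_nonneg Y
  have h1 : ∀ p ∈ PP y, (Nat.log p Y : ℝ) * Real.log p ≤
      Real.log p + if p ∈ Icc 1 (Nat.sqrt Y) then Real.log Y else 0 := fun p hp => by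
    have pp : p.Prime := (mem_filter.1 hp).2
    have l0 : 0 ≤ Real.log p := Real.log_natCast_nonneg p
    split_ifs with h
    · have a : (p : ℝ) ^ Nat.log p Y ≤ Y := by exact_mod_cast Nat.pow_log_le_self p (by omega)
      have b := Real.log_le_log (pow_pos (by exact_mod_cast pp.pos) _) a
      rw [Real.log_pow] at b
      linarith
    · have a : Y < p ^ 2 := by
        rw [mem_Icc, not_and, not_le] at h
        exact Nat.sqrt_lt'.1 (h pp.pos)
      have b : Nat.log p Y < 2 := Nat.log_lt_of_lt_pow (by omega) a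
      have c : (Nat.log p Y : ℝ) ≤ 1 := by exact_mod_cast Nat.lt_succ_iff.1 b
      nlinarith
  refine (sum_le_sum h1).trans ?_
  rw [sum_add_distrib, ← sum_filter, sum_const, nsmul_eq_mul]
  refine add_le_add (theta_PS y) (mul_le_mul_of_nonneg_right ?_ hL)
  refine le_trans ?_ Real.nat_sqrt_le_real_sqrt
  have := card_le_card (show (PP y).filter (fun p => p ∈ Icc 1 (Nat.sqrt Y)) ⊆
    Icc 1 (Nat.sqrt Y) from fun p hp => (mem_filter.1 hp).2)
  rw [Nat.card_Icc] at this
  exact_mod_cast this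

end

section

theorem sum_ALF (a b : ℝ) (H : ℕ) : ∑ σ ∈ Icc 1 H, (a - b * ((σ : ℝ) * (σ + 1) / 2)) =
    H * a - b * (H * (H + 1) * (H + 2) / 6) := by
  induction H with
  | zero => simp
  | succ H ih =>
    rw [sum_Icc_succ_top (by omega), ih]
    push_cast
    ring

theorem ALF_pf : ALF_st := by
  intro R M m p hM h1 hp
  have e1 : ∀ σ : ℕ, (R : ℝ) * M - R * p ^ 2 * ((σ : ℝ) * (σ + 1) / 2) ≤
      (R * M - R * p ^ 2 * (σ * (σ + 1) / 2) : ℕ) := fun σ => by
    have a1 : ((σ * (σ + 1) / 2 : ℕ) : ℝ) ≤ (σ : ℝ) * (σ + 1) / 2 := by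
      simpa using Nat.cast_div_le (α := ℝ) (m := σ * (σ + 1)) (n := 2)
    have a2 : ((R * M : ℕ) : ℝ) ≤ (R * M - R * p ^ 2 * (σ * (σ + 1) / 2) : ℕ) +
        (R * p ^ 2 * (σ * (σ + 1) / 2) : ℕ) := by exact_mod_cast le_tsub_add
    rw [Nat.cast_mul, Nat.cast_mul, Nat.cast_mul, Nat.cast_pow] at a2
    linarith [mul_le_mul_of_nonneg_left a1 (show (0 : ℝ) ≤ R * p ^ 2 by positivity)]
  rw [Nat.cast_sum]
  refine le_trans ?_ (sum_le_sum fun σ _ => e1 σ)
  rw [sum_ALF]
  have b1 : (p : ℝ) * (m / p : ℕ) ≤ m := by exact_mod_cast Nat.mul_div_le m p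
  have b2 : (m : ℝ) ≤ p * (m / p : ℕ) + p := by
    exact_mod_cast (Nat.lt_mul_div_succ m h1).le
  have b3 : (2 : ℝ) * M = m * (m + 1) := by exact_mod_cast hM
  have b4 : (1 : ℝ) ≤ p := by exact_mod_cast h1
  have b5 : (p : ℝ) ≤ m := by exact_mod_cast hp
  have b6 : (0 : ℝ) ≤ (m / p : ℕ) := Nat.cast_nonneg _
  generalize ((m / p : ℕ) : ℝ) = H at *
  have c1 : (p * H) * (p * H + p) * (p * H + 2 * p) ≤ (m : ℝ) * (m + p) * (m + 2 * p) := by gcongr
  have c2 : ((m : ℝ) - p) * (m * (m + 1)) ≤ p * H * (m * (m + 1)) :=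
    mul_le_mul_of_nonneg_right (by linarith) (by positivity)
  have c3 : (p : ℝ) * m ≤ m * m := by gcongr
  have c4 : (p : ℝ) * (p * m) ≤ p * (m * m) := by gcongr
  have c5 : (0 : ℝ) ≤ p * (p * m) := by positivity
  have c6 : (m : ℝ) ^ 3 / (3 * p) ≤ 3 / 2 * m ^ 2 + H * M - p ^ 2 * (H * (H + 1) * (H + 2) / 6) := by
    rw [div_le_iff₀ (by positivity), show (M : ℝ) = m * (m + 1) / 2 by linarith]
    linarith
  have := mul_le_mul_of_nonneg_left c6 (Nat.cast_nonneg R)
  rw [mul_div_assoc]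
  linarith

end

section

theorem mem_INEQ {p y : ℕ} : p ∈ PP y ↔ p.Prime ∧ p ≤ y := by
  rw [PP, mem_filter, mem_range, Nat.lt_succ_iff, and_comm]

theorem xlog_INEQ {T V : ℕ} {H : ℝ} (h : T ≤ V) (hH : 1 ≤ H) :
    T * Real.log (T * H) ≤ V * Real.log (V * H) := by
  have l0 : ∀ W : ℕ, 1 ≤ W → 0 ≤ Real.log (W * H) := fun W hW =>
    Real.log_nonneg (one_le_mul_of_one_le_of_one_le (by exact_mod_cast hW) hH)
  rcases Nat.eq_zero_or_pos T with rfl | hT
  · rcases Nat.eq_zero_or_pos V with rfl | hV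
    · exact le_rfl
    · rw [Nat.cast_zero, zero_mul]
      exact mul_nonneg (Nat.cast_nonneg _) (l0 V hV)
  · have t0 : (0 : ℝ) < T := by exact_mod_cast hT
    have h' : (T : ℝ) ≤ V := by exact_mod_cast h
    have := l0 T hT
    gcongr

theorem size_INEQ {z : ℂ} {T S n : ℕ} {H : ℝ} (hz : z ≠ 0) (hH : 1 ≤ H)
    (h : ‖z‖ ≤ (T * H) ^ T * (n + 1 : ℝ) ^ S) :
    Real.log ‖z‖ ≤ T * Real.log (T * H) + S * Real.log (n + 1) := by
  have p0 : ((T : ℝ) * H) ^ T ≠ 0 := by
    rcases Nat.eq_zero_or_pos T with rfl | hT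
    · simp
    · have t0 : (0 : ℝ) < T := by exact_mod_cast hT
      positivity
  rw [← Real.log_pow, ← Real.log_pow, ← Real.log_mul p0 (by positivity)]
  exact Real.log_le_log (norm_pos_iff.2 hz) h

theorem INEQ_pf (hPF : PF_st) (hPS : PS_st) (hALF : ALF_st) : INEQ_st := by
  intro z c H r R U M m n a P Y S Q hc hz hM hRU hP hPm hPn hPY hH h1 h2 h3 hS hN
  classical
  choose! k hk using fun p hp => (h3 p hp).2.2
  have dj : Disjoint (PP Y) Q := disjoint_left.2 fun p hp hq =>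
    absurd (mem_INEQ.1 hp).2 (not_le.2 (h3 p hq).2.1)
  have sb : PP P ⊆ PP Y := fun p hp =>
    mem_INEQ.2 ⟨(mem_INEQ.1 hp).1, (mem_INEQ.1 hp).2.trans hPY⟩
  have qP : ∀ p ∈ Q, ¬ p ≤ P := fun p hp => by have := (h3 p hp).2.1; omega
  have mP : ∀ p ∈ PP Y \ PP P, p.Prime ∧ ¬ p ≤ P ∧ p ∉ Q := fun p hp => by
    obtain ⟨e1, e2⟩ := mem_sdiff.1 hp
    exact ⟨(mem_INEQ.1 e1).1, fun h => e2 (mem_INEQ.2 ⟨(mem_INEQ.1 e1).1, h⟩),
      disjoint_left.1 dj e1⟩
  have key := hPF z (PP Y ∪ Q)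
    (fun p => if p ≤ P then ∑ σ ∈ Icc 1 (m / p), (R * M - R * p ^ 2 * (σ * (σ + 1) / 2))
      else if p ∈ Q then k p else 0)
    (fun p => if p ≤ P then R * M * (a * Nat.log p Y + a)
      else a * ((n + 1) ^ 2 * (2 * (r + 1) * (Y / p)))) hz
    (fun p hp => (mem_union.1 hp).elim (fun h => (mem_INEQ.1 h).1) fun h => (h3 p h).1)
    (fun p hp => by
      have pp : p.Prime := (mem_union.1 hp).elim (fun h => (mem_INEQ.1 h).1) fun h => (h3 p h).1
      by_cases e : p ≤ P
      · simp only [if_pos e]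
        exact h1 p (mem_INEQ.2 ⟨pp, e⟩)
      · simp only [if_neg e]
        by_cases e' : p ∈ Q
        · obtain ⟨w, hw, ew⟩ := (hk p e').2
          refine ⟨w, hw, ?_⟩
          rw [if_pos e', Nat.div_eq_of_lt (h3 p e').2.1, ← ew]
          simp
        · exact ⟨_, h2 p pp (not_le.1 e), by rw [if_neg e', pow_zero, one_mul]⟩)
    (fun p pp hp => by
      have e : Y < p := not_le.1 fun h => hp (mem_union_left _ (mem_INEQ.2 ⟨pp, h⟩))
      have := h2 p pp (by omega)
      rw [Nat.div_eq_of_lt e] at this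
      simpa using this)
  rw [sum_union dj, sum_union dj, ← sum_sdiff sb, ← sum_sdiff sb] at key
  have l0 : ∀ p : ℕ, 0 ≤ Real.log p := fun p => Real.log_natCast_nonneg p
  have P0 : (0 : ℝ) < P := by exact_mod_cast hP
  have Y0 : (0 : ℝ) < Y := by exact_mod_cast hP.trans hPY
  have th := hPS.2.1 P
  have m1 := abs_le.1 (hc.2 P hP)
  have m2 := abs_le.1 (hc.2 Y (hP.trans hPY))
  have hT : R * M ≤ U * m ^ 2 := Nat.mul_le_mul hRU (by nlinarith)
  have hT' : ((R * M : ℕ) : ℝ) ≤ U * m ^ 2 := by exact_mod_cast hT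
  have hR : (R : ℝ) ≤ U := by exact_mod_cast hRU
  -- lower bounds
  have a1 : (0 : ℝ) ≤ ∑ p ∈ PP Y \ PP P, ((if p ≤ P then
      ∑ σ ∈ Icc 1 (m / p), (R * M - R * p ^ 2 * (σ * (σ + 1) / 2))
      else if p ∈ Q then k p else 0 : ℕ) : ℝ) * Real.log p :=
    sum_nonneg fun p _ => mul_nonneg (Nat.cast_nonneg _) (l0 p)
  have a2 : (R : ℝ) * m ^ 3 / 3 * (Real.log P - c) - 3 * R * m ^ 2 * P ≤
      ∑ p ∈ PP P, ((if p ≤ P then
      ∑ σ ∈ Icc 1 (m / p), (R * M - R * p ^ 2 * (σ * (σ + 1) / 2))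
      else if p ∈ Q then k p else 0 : ℕ) : ℝ) * Real.log p := by
    refine le_trans ?_ (sum_le_sum (f := fun p : ℕ => (R : ℝ) * m ^ 3 / 3 * (Real.log p / p) -
      3 / 2 * R * m ^ 2 * Real.log p) fun p hp => ?_)
    · rw [sum_sub_distrib, ← mul_sum, ← mul_sum]
      have b1 := mul_le_mul_of_nonneg_left (show Real.log P - c ≤ ∑ p ∈ PP P, Real.log p / p by
        linarith [m1.1]) (show (0 : ℝ) ≤ R * m ^ 3 / 3 by positivity)
      have b2 := mul_le_mul_of_nonneg_left th (show (0 : ℝ) ≤ 3 / 2 * R * m ^ 2 by positivity)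
      linarith
    · obtain ⟨pp, e⟩ := mem_INEQ.1 hp
      rw [if_pos e]
      refine le_trans (le_of_eq ?_)
        (mul_le_mul_of_nonneg_right (hALF R M m p hM pp.pos (e.trans hPm)) (l0 p))
      ring
  have a3 : (r : ℝ) * m ^ 2 / 4 * ∑ p ∈ Q, Real.log p ≤ ∑ p ∈ Q, ((if p ≤ P then
      ∑ σ ∈ Icc 1 (m / p), (R * M - R * p ^ 2 * (σ * (σ + 1) / 2))
      else if p ∈ Q then k p else 0 : ℕ) : ℝ) * Real.log p := by
    rw [mul_sum]
    refine sum_le_sum fun p hp => mul_le_mul_of_nonneg_right ?_ (l0 p)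
    rw [if_neg (qP p hp), if_pos hp]
    have : (r : ℝ) * m ^ 2 ≤ 4 * k p := by exact_mod_cast (hk p hp).1
    linarith
  -- upper bounds
  have b1 : ∑ p ∈ PP Y \ PP P, ((if p ≤ P then R * M * (a * Nat.log p Y + a)
      else a * ((n + 1) ^ 2 * (2 * (r + 1) * (Y / p))) : ℕ) : ℝ) * Real.log p ≤
      2 * a * (n + 1) ^ 2 * (r + 1) * Y * (Real.log (Y / P) + 2 * c) := by
    refine le_trans (sum_le_sum (g := fun p : ℕ => (2 * a * (n + 1) ^ 2 * (r + 1) * Y : ℝ) *
      (Real.log p / p)) fun p hp => ?_) ?_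
    · rw [if_neg (mP p hp).2.1]
      have d : ((Y / p : ℕ) : ℝ) ≤ Y / p := Nat.cast_div_le
      have := l0 p
      push_cast
      calc _ ≤ (a : ℝ) * ((n + 1) ^ 2 * (2 * (r + 1) * (Y / p))) * Real.log p := by gcongr
        _ = _ := by ring
    · rw [← mul_sum]
      refine mul_le_mul_of_nonneg_left ?_ (by positivity)
      rw [sum_sdiff_eq_sub sb, Real.log_div Y0.ne' P0.ne']
      linarith [m1.1, m2.2]
  have b2 : ∑ p ∈ PP P, ((if p ≤ P then R * M * (a * Nat.log p Y + a)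
      else a * ((n + 1) ^ 2 * (2 * (r + 1) * (Y / p))) : ℕ) : ℝ) * Real.log p ≤
      U * m ^ 2 * a * (4 * P + Real.sqrt Y * Real.log Y) := by
    refine le_trans (sum_le_sum (g := fun p : ℕ => (U * m ^ 2 * a : ℝ) *
      ((Nat.log p Y : ℝ) * Real.log p + Real.log p)) fun p hp => ?_) ?_
    · rw [if_pos (mem_INEQ.1 hp).2, Nat.cast_mul (R * M)]
      have := l0 p
      calc _ ≤ (U * m ^ 2 : ℝ) * ((a * Nat.log p Y + a : ℕ) : ℝ) * Real.log p := by gcongr
        _ = _ := by push_cast; ring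
    · rw [← mul_sum, sum_add_distrib]
      refine mul_le_mul_of_nonneg_left ?_ (by positivity)
      linarith [hPS.2.2 P Y (hP.trans hPY)]
  have b3 : ∑ p ∈ Q, ((if p ≤ P then R * M * (a * Nat.log p Y + a)
      else a * ((n + 1) ^ 2 * (2 * (r + 1) * (Y / p))) : ℕ) : ℝ) * Real.log p = 0 :=
    sum_eq_zero fun p hp => by
      rw [if_neg (qP p hp), Nat.div_eq_of_lt (h3 p hp).2.1]
      simp
  have b4 := size_INEQ hz hH hN
  have b5 := xlog_INEQ hT hH
  have n1 : (P : ℝ) ≤ n + 1 := by exact_mod_cast hPn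
  have b6 : (S : ℝ) * Real.log (n + 1) ≤ R * m ^ 3 / 3 * Real.log (n + 1) := by
    refine mul_le_mul_of_nonneg_right ?_ (Real.log_nonneg (by linarith [n.cast_nonneg (α := ℝ)]))
    have : (3 : ℝ) * S ≤ R * m ^ 3 := by exact_mod_cast hS
    linarith
  have b7 : (R : ℝ) * m ^ 3 / 3 * (Real.log (n + 1) - Real.log P + c) ≤
      U * m ^ 3 / 3 * (Real.log (n + 1) - Real.log P + c) := by
    have : 0 ≤ Real.log (n + 1) - Real.log P + c := by linarith [Real.log_le_log P0 n1, hc.1]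
    gcongr
  have b8 : (3 : ℝ) * R * m ^ 2 * P ≤ 3 * U * m ^ 2 * P := by gcongr
  rw [Nat.cast_mul U, Nat.cast_pow] at b5
  rw [cost, Real.log_div (by positivity) P0.ne']
  linarith

end

section

theorem ev_TH {κ : ℝ} (hκ : 0 < κ) :
    ∀ᶠ x : ℕ in atTop, Real.log x ≤ κ / 8 * Real.sqrt x := by
  have h := (isLittleO_log_rpow_atTop (r := 1 / 2) (by norm_num)).bound (c := κ / 8) (by positivity)
  refine (tendsto_natCast_atTop_atTop.eventually h).mono fun x hx => ?_
  rw [← Real.sqrt_eq_rpow, Real.norm_eq_abs, Real.norm_eq_abs,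
    abs_of_nonneg (Real.sqrt_nonneg _)] at hx
  exact (le_abs_self _).trans hx

theorem TH_pf (hPS : PS_st) : TH_st := by
  intro κ hκ
  filter_upwards [ev_TH hκ, eventually_ge_atTop 2] with x hx h2 Q Y hQ hc hY
  have hx2 : (2 : ℝ) ≤ x := by exact_mod_cast h2
  have hl : 0 < Real.log x := Real.log_pos (by linarith)
  have hlp : ∀ p : ℕ, 0 ≤ Real.log p := fun p => Real.log_natCast_nonneg p
  have h1 : ∑ p ∈ Q.filter (fun p => ¬ Y < p), Real.log p ≤ 2 * Y := by
    refine le_trans (sum_le_sum_of_subset_of_nonneg (fun p hp => ?_) fun p _ _ => hlp p)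
      (hPS.2.1 Y)
    obtain ⟨h3, h4⟩ := mem_filter.1 hp
    exact mem_filter.2 ⟨mem_range.2 (by omega), (hQ p h3).1⟩
  have h3 : ∑ p ∈ Q.filter (fun p => x.sqrt < p), Real.log x / 2 ≤ ∑ p ∈ Q, Real.log p := by
    refine le_trans (sum_le_sum fun p hp => ?_)
      (sum_le_sum_of_subset_of_nonneg (filter_subset _ _) fun p _ _ => hlp p)
    have h4 : x < p * p := Nat.sqrt_lt.1 (mem_filter.1 hp).2
    have h5 : (x : ℝ) ≤ (p : ℝ) ^ 2 := by
      rw [pow_two]; exact_mod_cast h4.le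
    have h6 := Real.log_le_log (by linarith) h5
    rw [Real.log_pow, Nat.cast_ofNat] at h6
    linarith
  have h4 : (Q.filter (fun p => ¬ x.sqrt < p)).card ≤ x.sqrt + 1 := by
    refine le_trans (card_le_card fun p hp => ?_) (card_range (x.sqrt + 1)).le
    have := (mem_filter.1 hp).2
    exact mem_range.2 (by omega)
  have h5 : (Q.card : ℝ) ≤ (Q.filter (fun p => x.sqrt < p)).card + (x.sqrt + 1) := by
    have := card_filter_add_card_filter_not (s := Q) (fun p => x.sqrt < p)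
    exact_mod_cast (by omega : Q.card ≤ (Q.filter (fun p => x.sqrt < p)).card + (x.sqrt + 1))
  have h6 : (x.sqrt : ℝ) ≤ Real.sqrt x := Real.nat_sqrt_le_real_sqrt
  have h7 : 1 ≤ Real.sqrt x := Real.one_le_sqrt.2 (by linarith)
  have h8 : Real.sqrt x * Real.sqrt x = x := Real.mul_self_sqrt (by linarith)
  rw [sum_const, nsmul_eq_mul, ← sum_filter_add_sum_filter_not Q (Y < ·)] at h3
  have h9 := (div_le_iff₀ hl).1 hc
  have h10 := mul_le_mul_of_nonneg_right h5 hl.le
  have h11 : ((x.sqrt : ℝ) + 1) * Real.log x ≤ 2 * Real.sqrt x * (κ / 8 * Real.sqrt x) :=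
    mul_le_mul (by linarith) hx hl.le (by positivity)
  have h12 : 2 * Real.sqrt x * (κ / 8 * Real.sqrt x) = κ * x / 4 := by
    linear_combination κ / 4 * h8
  linarith

end

end Pool.Agent.MP_3924c3_nt.BR

end
end

section

/-! The finite analogue of the theorem of Ball and Rivoal. -/

set_option autoImplicit false

namespace Pool.Agent.MP_3924c3_nt.BR

theorem zeroEstimate : ZE_st :=
  ZE_pf (SZ_pf BEZ_pf (FAC_pf GRID_pf PW_pf)) (Z1_pf (INV_pf GRID_pf) (RES_pf RES1_pf)) CH_pf CR_pf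
    (SHA_pf EPS_pf) SHB_pf

theorem uniform : UNI_st :=
  UNI_pf (IND_pf zeroEstimate MIN_pf) (LA_pf CB_pf) RA_pf (RB_pf (LB_pf CB_pf))
    (RC_pf (LR_pf CB_pf) SH_pf) (HY_pf VOR_pf) CNT_pf (RE_pf CNT_pf) PIG_pf MAXI_pf PS_pf
    (INEQ_pf PF_pf PS_pf ALF_pf) NUM2_pf NUM1_pf (TH_pf PS_pf)

end Pool.Agent.MP_3924c3_nt.BR

end
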