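import Pool.Agent.MP_3924c3_nt.FZ.Lin

set_option linter.all false

section

/-!
The general linear shuffle relation.
-/

open Finset

namespace Pool.Agent.MP_3924c3_nt.FZ

variable {p : ℕ}

/-- coefficients of the polylogarithm of a word -/
def cw (p : ℕ) : List Bool → ℕ → ZMod p
  | [], n => if n = 0 then 1 else 0
  | false :: w, n => y p 1 n * cw p w n
  | true :: w, n => y p 1 n * ∑ m ∈ range n, cw p w m

/-- the word is empty or ends with the letter `true` -/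
def Ok : List Bool → Prop
  | [] => True
  | false :: w => w ≠ [] ∧ Ok w
  | true :: w => Ok w

/-- inner recursion of the shuffle product -/
def shAux (a : Bool) (u : List Bool) (f : List Bool → List (List Bool)) :
    List Bool → List (List Bool)
  | [] => [a :: u]
  | b :: v => (f (b :: v)).map (a :: ·) ++ (shAux a u f v).map (b :: ·)

/-- shuffle product of words -/
def shw : List Bool → List Bool → List (List Bool)
  | [] => fun v => [v]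
  | a :: u => shAux a u (shw u)

/-- the word of an index -/
def toW : List ℕ → List Bool
  | [] => []
  | a :: s => List.replicate (a - 1) false ++ true :: toW s

/-- the index of a word -/
def frW : List Bool → List ℕ
  | [] => []
  | true :: w => 1 :: frW w
  | false :: w => match frW w with
    | [] => []
    | a :: s => (a + 1) :: s

theorem cw_zero {w : List Bool} (h : w ≠ []) : cw p w 0 = 0 := by
  rcases w with _ | ⟨_ | _, w⟩
  · exact absurd rfl h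
  · simp [cw, y_zero]
  · simp [cw, y_zero]

theorem frW_ne {w : List Bool} (h : Ok w) (h0 : w ≠ []) : frW w ≠ [] := by
  induction w with
  | nil => exact absurd rfl h0
  | cons a w ih =>
    cases a
    · have := ih h.2 h.1
      simp only [frW]
      split
      · contradiction
      · simp
    · simp [frW]

theorem cw_eq {w : List Bool} (h : Ok w) (n : ℕ) : cw p w n = c p (frW w) n := by
  induction w generalizing n with
  | nil => rfl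
  | cons a w ih =>
    cases a
    · have h1 := frW_ne h.2 h.1
      have h2 := ih h.2 n
      simp only [cw, frW]
      rw [h2]
      rcases e : frW w with _ | ⟨a, s⟩
      · exact absurd e h1
      · simp only [c, y_add]
        ring
    · simp only [cw, frW, c]
      rw [sum_congr rfl fun m _ => ih h m, y_sum_c]

theorem ok_toW (s : List ℕ) : Ok (toW s) := by
  induction s with
  | nil => trivial
  | cons a s ih =>
    simp only [toW]
    induction a - 1 with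
    | zero => exact ih
    | succ b ihb => exact ⟨by simp, ihb⟩

theorem frW_toW {s : List ℕ} (h : ∀ i ∈ s, 0 < i) : frW (toW s) = s := by
  induction s with
  | nil => rfl
  | cons a s ih =>
    have ha := h a (by simp)
    have hs := ih fun i hi => h i (by simp [hi])
    have : ∀ b, frW (List.replicate b false ++ true :: toW s) = (b + 1) :: s := fun b => by
      induction b with
      | zero => simp [frW, hs]
      | succ b ihb => simp only [List.replicate_succ, List.cons_append, frW, ihb]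
    rw [toW, this, Nat.sub_add_cancel ha]

/-- one step of the differential equation -/
def dw (p : ℕ) (a : Bool) (f : ℕ → ZMod p) (n : ℕ) : ZMod p :=
  if a then ∑ m ∈ range n, f m else f n

theorem cw_cons (a : Bool) (w : List Bool) (n : ℕ) :
    cw p (a :: w) n = y p 1 n * dw p a (cw p w) n := by
  cases a <;> rfl

theorem mul_y [Fact p.Prime] {n : ℕ} (h0 : 0 < n) (hn : n < p) : (n : ZMod p) * y p 1 n = 1 := by
  have : (n : ZMod p) ≠ 0 := fun h =>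
    absurd (Nat.le_of_dvd h0 ((ZMod.natCast_eq_zero_iff n p).1 h)) (by omega)
  unfold y
  rw [if_neg h0.ne', pow_one, mul_inv_cancel₀ this]

theorem mul_cw [Fact p.Prime] {a : Bool} {w : List Bool} (h : Ok (a :: w)) {n : ℕ} (hn : n < p) :
    (n : ZMod p) * cw p (a :: w) n = dw p a (cw p w) n := by
  rcases Nat.eq_zero_or_pos n with rfl | h0
  · cases a
    · simp [dw, cw_zero h.1]
    · simp [dw]
  · rw [cw_cons, ← mul_assoc, mul_y h0 hn, one_mul]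

/-- convolution -/
def cv (f g : ℕ → ZMod p) (n : ℕ) : ZMod p := ∑ i ∈ range (n + 1), f i * g (n - i)

theorem cv_comm (f g : ℕ → ZMod p) (n : ℕ) : cv f g n = cv g f n := by
  unfold cv
  rw [← sum_range_reflect]
  refine sum_congr rfl fun i hi => ?_
  have := mem_range.1 hi
  rw [mul_comm, show n + 1 - 1 - i = n - i by omega, show n - (n - i) = i by omega]

theorem cv_dw (a : Bool) (f g : ℕ → ZMod p) (n : ℕ) :
    cv (dw p a f) g n = dw p a (cv f g) n := by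
  cases a
  · rfl
  · rw [cv_comm]
    change cv g (fun n => ∑ m ∈ range n, f m) n = ∑ m ∈ range n, cv f g m
    induction n with
    | zero => simp [cv]
    | succ n ih =>
      rw [sum_range_succ, ← ih, cv_comm f g]
      unfold cv
      rw [sum_range_succ, ← sum_add_distrib]
      simp only [Nat.sub_self, range_zero, sum_empty, mul_zero, add_zero]
      refine sum_congr rfl fun i hi => ?_
      have := mem_range.1 hi
      rw [show n + 1 - i = n - i + 1 by omega, sum_range_succ, mul_add]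

theorem dw_congr (a : Bool) {f g : ℕ → ZMod p} {n : ℕ} (h : ∀ m ≤ n, f m = g m) :
    dw p a f n = dw p a g n := by
  cases a
  · exact h n le_rfl
  · exact sum_congr rfl fun m hm => h m (mem_range.1 hm).le

theorem sum_cons_map (a : Bool) (L : List (List Bool)) (n : ℕ) :
    ((L.map (a :: ·)).map fun t => cw p t n).sum =
      y p 1 n * dw p a (fun m => (L.map fun t => cw p t m).sum) n := by
  induction L with
  | nil => cases a <;> simp [dw]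
  | cons t L ih =>
    simp only [List.map_cons, List.sum_cons, ih, cw_cons]
    cases a <;> simp [dw, sum_add_distrib, mul_add]

theorem ok_tail {a : Bool} {w : List Bool} (h : Ok (a :: w)) : Ok w := by
  cases a
  exacts [h.2, h]

theorem shw_eq [Fact p.Prime] {u : List Bool} (hu : Ok u) {v : List Bool} (hv : Ok v) {n : ℕ}
    (hn : n < p) : ((shw u v).map fun t => cw p t n).sum = cv (cw p u) (cw p v) n := by
  induction u generalizing v n with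
  | nil => simp [shw, cv, cw]
  | cons a u ihu =>
    induction v generalizing n with
    | nil =>
      rw [cv_comm]
      simp [shw, shAux, cv, cw]
    | cons b v ihv =>
      have e : shw (a :: u) (b :: v) =
          (shw u (b :: v)).map (a :: ·) ++ (shw (a :: u) v).map (b :: ·) := rfl
      rw [e, List.map_append, List.sum_append, sum_cons_map, sum_cons_map,
        dw_congr a fun m hm => ihu (ok_tail hu) hv (hm.trans_lt hn),
        dw_congr b fun m hm => ihv (ok_tail hv) (hm.trans_lt hn)]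
      rcases Nat.eq_zero_or_pos n with rfl | h0
      · simp [y_zero, cv, cw_zero]
      · have h1 : (n : ZMod p) * cv (cw p (a :: u)) (cw p (b :: v)) n =
            cv (dw p a (cw p u)) (cw p (b :: v)) n + cv (cw p (a :: u)) (dw p b (cw p v)) n := by
          unfold cv
          rw [mul_sum, ← sum_add_distrib]
          refine sum_congr rfl fun i hi => ?_
          have := mem_range.1 hi
          rw [← mul_cw hu (show i < p by omega), ← mul_cw hv (show n - i < p by omega),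
            Nat.cast_sub (by omega)]
          ring
        rw [cv_dw, cv_comm _ (dw p b _), cv_dw,
          dw_congr b fun m _ => cv_comm (cw p v) (cw p (a :: u)) m] at h1
        linear_combination -y p 1 n * h1 + cv (cw p (a :: u)) (cw p (b :: v)) n * mul_y h0 hn

theorem shw_ok {u : List Bool} (hu : Ok u) {v : List Bool} (hv : Ok v) :
    ∀ t ∈ shw u v, Ok t ∧ (u ≠ [] ∨ v ≠ [] → t ≠ []) := by
  induction u generalizing v with
  | nil => simp [shw, hv]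
  | cons a u ihu =>
    induction v with
    | nil => simp [shw, shAux, hu]
    | cons b v ihv =>
      have e : shw (a :: u) (b :: v) =
          (shw u (b :: v)).map (a :: ·) ++ (shw (a :: u) v).map (b :: ·) := rfl
      intro t ht
      rw [e, List.mem_append, List.mem_map, List.mem_map] at ht
      rcases ht with ⟨s, hs, rfl⟩ | ⟨s, hs, rfl⟩
      · have := ihu (ok_tail hu) hv s hs
        cases a
        exacts [⟨⟨this.2 (by simp), this.1⟩, by simp⟩, ⟨this.1, by simp⟩]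
      · have := ihv (ok_tail hv) s hs
        cases b
        exacts [⟨⟨this.2 (by simp), this.1⟩, by simp⟩, ⟨this.1, by simp⟩]

theorem shw_rel [Fact p.Prime] (u : List ℕ) (b : ℕ) (v : List ℕ) (hu : ∀ i ∈ u, 0 < i)
    (hv : ∀ i ∈ b :: v, 0 < i) :
    ((shw (toW u) (toW (b :: v))).map fun t => H p (frW t) p).sum =
      (-1) ^ (b :: v).sum * H p ((b :: v).reverse ++ u) p := by
  have hne : toW (b :: v) ≠ [] := by simp [toW]
  have h1 := shw_ok (ok_toW u) (ok_toW (b :: v))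
  rw [List.map_congr_left fun t ht => (H_eq_sum_c (frW_ne (h1 t ht).1 ((h1 t ht).2 (.inr hne))) p).trans
      (sum_congr rfl fun n _ => (cw_eq (h1 t ht).1 n).symm), list_sum_swap,
    sum_congr rfl fun n hn => shw_eq (ok_toW u) (ok_toW (b :: v)) (mem_range.1 hn), ← c_H]
  unfold cv
  rw [sum_comm' (t' := range p) (s' := fun i => Ico i p)
    (by intro a l; simp only [mem_range, mem_Ico]; omega)]
  refine sum_congr rfl fun i _ => ?_
  rw [← mul_sum, cw_eq (ok_toW u), frW_toW hu, H_eq_sum_c (by simp), sum_Ico_eq_sum_range]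
  congr 1
  refine sum_congr rfl fun m _ => ?_
  rw [cw_eq (ok_toW _), frW_toW hv, Nat.add_sub_cancel_left]

end Pool.Agent.MP_3924c3_nt.FZ

end

section

/-!
The linear relations in weight 7.
-/

namespace Pool.Agent.MP_3924c3_nt.FZ

section

variable {p : ℕ} [Fact p.Prime]

theorem e7_31 : ((1 : ℤ) : ZMod p) * H p [6, 1] p = ((1 : ℤ) : ZMod p) * H p [6, 1] p := by
  ring

theorem e7_63 (hp : 9 < p) : ((1 : ℤ) : ZMod p) * H p [7] p = ((0 : ℤ) : ZMod p) * H p [6, 1] p := by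
  have r63 : H p [7] p + 0 = 0 :=
    st_rel (a := 7) (by omega) (by omega) []
  linear_combination (1) * r63

theorem e7_0 (hp : 9 < p) : ((2 : ℤ) : ZMod p) * H p [1, 1, 1, 1, 1, 1, 1] p = ((0 : ℤ) : ZMod p) * H p [6, 1] p := by
  have r64 : H p [1, 1, 1, 1, 1, 1, 1] p = (-1) ^ 7 * H p [1, 1, 1, 1, 1, 1, 1] p :=
    rev_rel [1, 1, 1, 1, 1, 1, 1]
  linear_combination (1) * r64

theorem e7_12 (hp : 9 < p) : ((2 : ℤ) : ZMod p) * H p [1, 1, 3, 1, 1] p = ((0 : ℤ) : ZMod p) * H p [6, 1] p := by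
  have r76 : H p [1, 1, 3, 1, 1] p = (-1) ^ 7 * H p [1, 1, 3, 1, 1] p :=
    rev_rel [1, 1, 3, 1, 1]
  linear_combination (1) * r76

theorem e7_18 (hp : 9 < p) : ((2 : ℤ) : ZMod p) * H p [1, 2, 1, 2, 1] p = ((0 : ℤ) : ZMod p) * H p [6, 1] p := by
  have r82 : H p [1, 2, 1, 2, 1] p = (-1) ^ 7 * H p [1, 2, 1, 2, 1] p :=
    rev_rel [1, 2, 1, 2, 1]
  linear_combination (1) * r82

theorem e7_30 (hp : 9 < p) : ((2 : ℤ) : ZMod p) * H p [1, 5, 1] p = ((0 : ℤ) : ZMod p) * H p [6, 1] p := by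
  have r94 : H p [1, 5, 1] p = (-1) ^ 7 * H p [1, 5, 1] p :=
    rev_rel [1, 5, 1]
  linear_combination (1) * r94

theorem e7_62 (hp : 9 < p) : ((1 : ℤ) : ZMod p) * H p [1, 6] p = ((-1 : ℤ) : ZMod p) * H p [6, 1] p := by
  have r95 : H p [6, 1] p = (-1) ^ 7 * H p [1, 6] p :=
    rev_rel [6, 1]
  linear_combination (1) * r95

theorem e7_33 (hp : 9 < p) : ((2 : ℤ) : ZMod p) * H p [2, 1, 1, 1, 2] p = ((0 : ℤ) : ZMod p) * H p [6, 1] p := by
  have r97 : H p [2, 1, 1, 1, 2] p = (-1) ^ 7 * H p [2, 1, 1, 1, 2] p :=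
    rev_rel [2, 1, 1, 1, 2]
  linear_combination (1) * r97

theorem e7_45 (hp : 9 < p) : ((2 : ℤ) : ZMod p) * H p [2, 3, 2] p = ((0 : ℤ) : ZMod p) * H p [6, 1] p := by
  have r109 : H p [2, 3, 2] p = (-1) ^ 7 * H p [2, 3, 2] p :=
    rev_rel [2, 3, 2]
  linear_combination (1) * r109

theorem e7_51 (hp : 9 < p) : ((2 : ℤ) : ZMod p) * H p [3, 1, 3] p = ((0 : ℤ) : ZMod p) * H p [6, 1] p := by
  have r115 : H p [3, 1, 3] p = (-1) ^ 7 * H p [3, 1, 3] p :=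
    rev_rel [3, 1, 3]
  linear_combination (1) * r115

theorem e7_15 (hp : 9 < p) : ((8 : ℤ) : ZMod p) * H p [5, 1, 1] p = ((8 : ℤ) : ZMod p) * H p [6, 1] p := by
  have r15 : H p [1, 5, 1] p + (H p [6, 1] p + (H p [5, 1, 1] p + (H p [5, 2] p + (H p [5, 1, 1] p + 0)))) = 0 :=
    st_rel (a := 1) (by omega) (by omega) [5, 1]
  have r39 : H p [2, 4, 1] p + (H p [6, 1] p + (H p [4, 2, 1] p + (H p [4, 3] p + (H p [4, 1, 2] p + 0)))) = 0 :=
    st_rel (a := 2) (by omega) (by omega) [4, 1]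
  have r51 : H p [3, 3, 1] p + (H p [6, 1] p + (H p [3, 3, 1] p + (H p [3, 4] p + (H p [3, 1, 3] p + 0)))) = 0 :=
    st_rel (a := 3) (by omega) (by omega) [3, 1]
  have r57 : H p [4, 2, 1] p + (H p [6, 1] p + (H p [2, 4, 1] p + (H p [2, 5] p + (H p [2, 1, 4] p + 0)))) = 0 :=
    st_rel (a := 4) (by omega) (by omega) [2, 1]
  have r103 : H p [4, 1, 2] p = (-1) ^ 7 * H p [2, 1, 4] p :=
    rev_rel [4, 1, 2]
  have r111 : H p [5, 2] p = (-1) ^ 7 * H p [2, 5] p :=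
    rev_rel [5, 2]
  have r119 : H p [4, 3] p = (-1) ^ 7 * H p [3, 4] p :=
    rev_rel [4, 3]
  have r143 : H p [1, 5, 1] p + (H p [2, 4, 1] p + (H p [3, 3, 1] p + (H p [4, 2, 1] p + (H p [5, 1, 1] p + (H p [5, 1, 1] p + (H p [5, 1, 1] p + 0)))))) = -H p [1, 5, 1] p :=
    sh_rel [5, 1]
  linear_combination (-2) * r15 + (2) * r111 + (4) * r143 + (-2) * r51 + (2) * r119 + (-2) * r39 + (2) * r103 + (-2) * r57 + (-3) * e7_30 hp + (1) * e7_51 hp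

theorem e7_60 (hp : 9 < p) : ((8 : ℤ) : ZMod p) * H p [1, 1, 5] p = ((-8 : ℤ) : ZMod p) * H p [6, 1] p := by
  have r79 : H p [5, 1, 1] p = (-1) ^ 7 * H p [1, 1, 5] p :=
    rev_rel [5, 1, 1]
  linear_combination (8) * r79 + (-1) * e7_15 hp

theorem e7_47 (hp : 9 < p) : ((4 : ℤ) : ZMod p) * H p [5, 2] p = ((-12 : ℤ) : ZMod p) * H p [6, 1] p := by
  have r15 : H p [1, 5, 1] p + (H p [6, 1] p + (H p [5, 1, 1] p + (H p [5, 2] p + (H p [5, 1, 1] p + 0)))) = 0 :=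
    st_rel (a := 1) (by omega) (by omega) [5, 1]
  linear_combination (4) * r15 + (-2) * e7_30 hp + (-1) * e7_15 hp

theorem e7_61 (hp : 9 < p) : ((4 : ℤ) : ZMod p) * H p [2, 5] p = ((12 : ℤ) : ZMod p) * H p [6, 1] p := by
  have r111 : H p [5, 2] p = (-1) ^ 7 * H p [2, 5] p :=
    rev_rel [5, 2]
  linear_combination (4) * r111 + (-1) * e7_47 hp

theorem e7_55 (hp : 9 < p) : ((4 : ℤ) : ZMod p) * H p [4, 3] p = ((20 : ℤ) : ZMod p) * H p [6, 1] p := by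
  have r119 : H p [4, 3] p = (-1) ^ 7 * H p [3, 4] p :=
    rev_rel [4, 3]
  have r191 : H p [5, 2] p + (H p [6, 1] p + (H p [6, 1] p + (H p [6, 1] p + (H p [6, 1] p + (H p [5, 2] p + (H p [6, 1] p + (H p [6, 1] p + (H p [5, 2] p + (H p [4, 3] p + (H p [6, 1] p + (H p [6, 1] p + (H p [5, 2] p + (H p [4, 3] p + (H p [3, 4] p + (H p [6, 1] p + (H p [6, 1] p + (H p [5, 2] p + (H p [4, 3] p + (H p [3, 4] p + (H p [2, 5] p + 0)))))))))))))))))))) = (-1) ^ 2 * H p [2, 5] p :=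
    shw_rel [5] 2 [] (by decide) (by decide)
  linear_combination (-8) * r119 + (4) * r191 + (-5) * e7_47 hp

theorem e7_59 (hp : 9 < p) : ((4 : ℤ) : ZMod p) * H p [3, 4] p = ((-20 : ℤ) : ZMod p) * H p [6, 1] p := by
  have r119 : H p [4, 3] p = (-1) ^ 7 * H p [3, 4] p :=
    rev_rel [4, 3]
  linear_combination (4) * r119 + (-1) * e7_55 hp

theorem e7_43 (hp : 9 < p) : ((8 : ℤ) : ZMod p) * H p [3, 2, 2] p = ((32 : ℤ) : ZMod p) * H p [6, 1] p := by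
  have r43 : H p [2, 3, 2] p + (H p [5, 2] p + (H p [3, 2, 2] p + (H p [3, 4] p + (H p [3, 2, 2] p + 0)))) = 0 :=
    st_rel (a := 2) (by omega) (by omega) [3, 2]
  linear_combination (4) * r43 + (-2) * e7_45 hp + (-1) * e7_47 hp + (-1) * e7_59 hp

theorem e7_53 (hp : 9 < p) : ((8 : ℤ) : ZMod p) * H p [2, 2, 3] p = ((-32 : ℤ) : ZMod p) * H p [6, 1] p := by
  have r107 : H p [3, 2, 2] p = (-1) ^ 7 * H p [2, 2, 3] p :=
    rev_rel [3, 2, 2]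
  linear_combination (8) * r107 + (-1) * e7_43 hp

theorem e7_27 (hp : 9 < p) : ((8 : ℤ) : ZMod p) * H p [3, 3, 1] p = ((16 : ℤ) : ZMod p) * H p [6, 1] p := by
  have r51 : H p [3, 3, 1] p + (H p [6, 1] p + (H p [3, 3, 1] p + (H p [3, 4] p + (H p [3, 1, 3] p + 0)))) = 0 :=
    st_rel (a := 3) (by omega) (by omega) [3, 1]
  linear_combination (4) * r51 + (-1) * e7_59 hp + (-2) * e7_51 hp

theorem e7_54 (hp : 9 < p) : ((8 : ℤ) : ZMod p) * H p [1, 3, 3] p = ((-16 : ℤ) : ZMod p) * H p [6, 1] p := by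
  have r91 : H p [3, 3, 1] p = (-1) ^ 7 * H p [1, 3, 3] p :=
    rev_rel [3, 3, 1]
  linear_combination (8) * r91 + (-1) * e7_27 hp

theorem e7_29 (hp : 9 < p) : ((48 : ℤ) : ZMod p) * H p [2, 4, 1] p = ((-96 : ℤ) : ZMod p) * H p [6, 1] p := by
  have r189 : H p [2, 3, 2] p + (H p [2, 4, 1] p + (H p [2, 4, 1] p + (H p [2, 4, 1] p + (H p [2, 4, 1] p + (H p [2, 3, 2] p + (H p [2, 4, 1] p + (H p [2, 4, 1] p + (H p [2, 3, 2] p + (H p [2, 2, 3] p + (H p [3, 3, 1] p + (H p [3, 3, 1] p + (H p [3, 2, 2] p + (H p [3, 1, 3] p + (H p [3, 1, 3] p + (H p [3, 3, 1] p + (H p [3, 3, 1] p + (H p [3, 2, 2] p + (H p [3, 1, 3] p + (H p [3, 1, 3] p + (H p [2, 2, 3] p + 0)))))))))))))))))))) = (-1) ^ 2 * H p [2, 2, 3] p :=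
    shw_rel [2, 3] 2 [] (by decide) (by decide)
  linear_combination (8) * r189 + (-12) * e7_45 hp + (-1) * e7_53 hp + (-4) * e7_27 hp + (-2) * e7_43 hp + (-16) * e7_51 hp

theorem e7_46 (hp : 9 < p) : ((48 : ℤ) : ZMod p) * H p [1, 4, 2] p = ((96 : ℤ) : ZMod p) * H p [6, 1] p := by
  have r93 : H p [2, 4, 1] p = (-1) ^ 7 * H p [1, 4, 2] p :=
    rev_rel [2, 4, 1]
  linear_combination (48) * r93 + (-1) * e7_29 hp

theorem e7_23 (hp : 9 < p) : ((48 : ℤ) : ZMod p) * H p [4, 2, 1] p = ((-144 : ℤ) : ZMod p) * H p [6, 1] p := by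
  have r143 : H p [1, 5, 1] p + (H p [2, 4, 1] p + (H p [3, 3, 1] p + (H p [4, 2, 1] p + (H p [5, 1, 1] p + (H p [5, 1, 1] p + (H p [5, 1, 1] p + 0)))))) = -H p [1, 5, 1] p :=
    sh_rel [5, 1]
  linear_combination (48) * r143 + (-48) * e7_30 hp + (-1) * e7_29 hp + (-6) * e7_27 hp + (-18) * e7_15 hp

theorem e7_58 (hp : 9 < p) : ((48 : ℤ) : ZMod p) * H p [1, 2, 4] p = ((144 : ℤ) : ZMod p) * H p [6, 1] p := by
  have r87 : H p [4, 2, 1] p = (-1) ^ 7 * H p [1, 2, 4] p :=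
    rev_rel [4, 2, 1]
  linear_combination (48) * r87 + (-1) * e7_23 hp

theorem e7_39 (hp : 9 < p) : ((48 : ℤ) : ZMod p) * H p [4, 1, 2] p = ((-48 : ℤ) : ZMod p) * H p [6, 1] p := by
  have r23 : H p [1, 4, 2] p + (H p [5, 2] p + (H p [4, 1, 2] p + (H p [4, 3] p + (H p [4, 2, 1] p + 0)))) = 0 :=
    st_rel (a := 1) (by omega) (by omega) [4, 2]
  linear_combination (48) * r23 + (-1) * e7_46 hp + (-12) * e7_47 hp + (-12) * e7_55 hp + (-1) * e7_23 hp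

theorem e7_57 (hp : 9 < p) : ((48 : ℤ) : ZMod p) * H p [2, 1, 4] p = ((48 : ℤ) : ZMod p) * H p [6, 1] p := by
  have r103 : H p [4, 1, 2] p = (-1) ^ 7 * H p [2, 1, 4] p :=
    rev_rel [4, 1, 2]
  linear_combination (48) * r103 + (-1) * e7_39 hp

theorem e7_7 (hp : 9 < p) : ((768 : ℤ) : ZMod p) * H p [4, 1, 1, 1] p = ((1296 : ℤ) : ZMod p) * H p [6, 1] p := by
  have r7 : H p [1, 4, 1, 1] p + (H p [5, 1, 1] p + (H p [4, 1, 1, 1] p + (H p [4, 2, 1] p + (H p [4, 1, 1, 1] p + (H p [4, 1, 2] p + (H p [4, 1, 1, 1] p + 0)))))) = 0 :=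
    st_rel (a := 1) (by omega) (by omega) [4, 1, 1]
  have r11 : H p [1, 3, 2, 1] p + (H p [4, 2, 1] p + (H p [3, 1, 2, 1] p + (H p [3, 3, 1] p + (H p [3, 2, 1, 1] p + (H p [3, 2, 2] p + (H p [3, 2, 1, 1] p + 0)))))) = 0 :=
    st_rel (a := 1) (by omega) (by omega) [3, 2, 1]
  have r13 : H p [1, 2, 3, 1] p + (H p [3, 3, 1] p + (H p [2, 1, 3, 1] p + (H p [2, 4, 1] p + (H p [2, 3, 1, 1] p + (H p [2, 3, 2] p + (H p [2, 3, 1, 1] p + 0)))))) = 0 :=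
    st_rel (a := 1) (by omega) (by omega) [2, 3, 1]
  have r19 : H p [1, 3, 1, 2] p + (H p [4, 1, 2] p + (H p [3, 1, 1, 2] p + (H p [3, 2, 2] p + (H p [3, 1, 1, 2] p + (H p [3, 1, 3] p + (H p [3, 1, 2, 1] p + 0)))))) = 0 :=
    st_rel (a := 1) (by omega) (by omega) [3, 1, 2]
  have r37 : H p [2, 2, 2, 1] p + (H p [4, 2, 1] p + (H p [2, 2, 2, 1] p + (H p [2, 4, 1] p + (H p [2, 2, 2, 1] p + (H p [2, 2, 3] p + (H p [2, 2, 1, 2] p + 0)))))) = 0 :=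
    st_rel (a := 2) (by omega) (by omega) [2, 2, 1]
  have r86 : H p [1, 3, 2, 1] p = (-1) ^ 7 * H p [1, 2, 3, 1] p :=
    rev_rel [1, 3, 2, 1]
  have r89 : H p [2, 1, 3, 1] p = (-1) ^ 7 * H p [1, 3, 1, 2] p :=
    rev_rel [2, 1, 3, 1]
  have r135 : H p [1, 4, 1, 1] p + (H p [2, 3, 1, 1] p + (H p [3, 2, 1, 1] p + (H p [4, 1, 1, 1] p + (H p [4, 1, 1, 1] p + (H p [4, 1, 1, 1] p + (H p [4, 1, 1, 1] p + 0)))))) = -H p [1, 4, 1, 1] p :=
    sh_rel [4, 1, 1]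
  have r139 : H p [1, 3, 2, 1] p + (H p [2, 2, 2, 1] p + (H p [3, 1, 2, 1] p + (H p [3, 1, 2, 1] p + (H p [3, 2, 1, 1] p + (H p [3, 2, 1, 1] p + (H p [3, 2, 1, 1] p + 0)))))) = -H p [1, 3, 2, 1] p :=
    sh_rel [3, 2, 1]
  have r141 : H p [1, 2, 3, 1] p + (H p [2, 1, 3, 1] p + (H p [2, 1, 3, 1] p + (H p [2, 2, 2, 1] p + (H p [2, 3, 1, 1] p + (H p [2, 3, 1, 1] p + (H p [2, 3, 1, 1] p + 0)))))) = -H p [1, 2, 3, 1] p :=
    sh_rel [2, 3, 1]
  have r147 : H p [1, 3, 1, 2] p + (H p [2, 2, 1, 2] p + (H p [3, 1, 1, 2] p + (H p [3, 1, 1, 2] p + (H p [3, 1, 1, 2] p + (H p [3, 1, 2, 1] p + (H p [3, 1, 2, 1] p + 0)))))) = -H p [1, 3, 1, 2] p :=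
    sh_rel [3, 1, 2]
  have r179 : H p [3, 1, 1, 2] p + (H p [3, 1, 2, 1] p + (H p [3, 1, 2, 1] p + (H p [3, 2, 1, 1] p + (H p [3, 2, 1, 1] p + (H p [3, 2, 1, 1] p + (H p [4, 1, 1, 1] p + (H p [4, 1, 1, 1] p + (H p [4, 1, 1, 1] p + (H p [4, 1, 1, 1] p + (H p [4, 1, 1, 1] p + (H p [4, 1, 1, 1] p + (H p [4, 1, 1, 1] p + (H p [4, 1, 1, 1] p + (H p [3, 2, 1, 1] p + (H p [4, 1, 1, 1] p + (H p [4, 1, 1, 1] p + (H p [4, 1, 1, 1] p + (H p [4, 1, 1, 1] p + (H p [3, 2, 1, 1] p + (H p [2, 3, 1, 1] p + 0)))))))))))))))))))) = (-1) ^ 2 * H p [2, 3, 1, 1] p :=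
    shw_rel [3, 1, 1] 2 [] (by decide) (by decide)
  linear_combination (48) * r179 + (-192) * r141 + (-96) * r135 + (192) * r7 + (48) * r139 + (336) * r13 + (-48) * r147 + (48) * r19 + (48) * r89 + (48) * r86 + (48) * r37 + (-144) * r11 + (-24) * e7_15 hp + (-2) * e7_23 hp + (-5) * e7_39 hp + (-24) * e7_27 hp + (-8) * e7_29 hp + (-168) * e7_45 hp + (12) * e7_43 hp + (-24) * e7_51 hp + (-6) * e7_53 hp

theorem e7_56 (hp : 9 < p) : ((768 : ℤ) : ZMod p) * H p [1, 1, 1, 4] p = ((-1296 : ℤ) : ZMod p) * H p [6, 1] p := by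
  have r71 : H p [4, 1, 1, 1] p = (-1) ^ 7 * H p [1, 1, 1, 4] p :=
    rev_rel [4, 1, 1, 1]
  linear_combination (768) * r71 + (-1) * e7_7 hp

theorem e7_14 (hp : 9 < p) : ((768 : ℤ) : ZMod p) * H p [1, 4, 1, 1] p = ((-1584 : ℤ) : ZMod p) * H p [6, 1] p := by
  have r7 : H p [1, 4, 1, 1] p + (H p [5, 1, 1] p + (H p [4, 1, 1, 1] p + (H p [4, 2, 1] p + (H p [4, 1, 1, 1] p + (H p [4, 1, 2] p + (H p [4, 1, 1, 1] p + 0)))))) = 0 :=
    st_rel (a := 1) (by omega) (by omega) [4, 1, 1]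
  linear_combination (768) * r7 + (-96) * e7_15 hp + (-3) * e7_7 hp + (-16) * e7_23 hp + (-16) * e7_39 hp

theorem e7_28 (hp : 9 < p) : ((768 : ℤ) : ZMod p) * H p [1, 1, 4, 1] p = ((1584 : ℤ) : ZMod p) * H p [6, 1] p := by
  have r78 : H p [1, 4, 1, 1] p = (-1) ^ 7 * H p [1, 1, 4, 1] p :=
    rev_rel [1, 4, 1, 1]
  linear_combination (768) * r78 + (-1) * e7_14 hp

theorem e7_11 (hp : 9 < p) : ((768 : ℤ) : ZMod p) * H p [3, 2, 1, 1] p = ((-3312 : ℤ) : ZMod p) * H p [6, 1] p := by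
  have r11 : H p [1, 3, 2, 1] p + (H p [4, 2, 1] p + (H p [3, 1, 2, 1] p + (H p [3, 3, 1] p + (H p [3, 2, 1, 1] p + (H p [3, 2, 2] p + (H p [3, 2, 1, 1] p + 0)))))) = 0 :=
    st_rel (a := 1) (by omega) (by omega) [3, 2, 1]
  have r13 : H p [1, 2, 3, 1] p + (H p [3, 3, 1] p + (H p [2, 1, 3, 1] p + (H p [2, 4, 1] p + (H p [2, 3, 1, 1] p + (H p [2, 3, 2] p + (H p [2, 3, 1, 1] p + 0)))))) = 0 :=
    st_rel (a := 1) (by omega) (by omega) [2, 3, 1]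
  have r135 : H p [1, 4, 1, 1] p + (H p [2, 3, 1, 1] p + (H p [3, 2, 1, 1] p + (H p [4, 1, 1, 1] p + (H p [4, 1, 1, 1] p + (H p [4, 1, 1, 1] p + (H p [4, 1, 1, 1] p + 0)))))) = -H p [1, 4, 1, 1] p :=
    sh_rel [4, 1, 1]
  have r139 : H p [1, 3, 2, 1] p + (H p [2, 2, 2, 1] p + (H p [3, 1, 2, 1] p + (H p [3, 1, 2, 1] p + (H p [3, 2, 1, 1] p + (H p [3, 2, 1, 1] p + (H p [3, 2, 1, 1] p + 0)))))) = -H p [1, 3, 2, 1] p :=
    sh_rel [3, 2, 1]
  have r141 : H p [1, 2, 3, 1] p + (H p [2, 1, 3, 1] p + (H p [2, 1, 3, 1] p + (H p [2, 2, 2, 1] p + (H p [2, 3, 1, 1] p + (H p [2, 3, 1, 1] p + (H p [2, 3, 1, 1] p + 0)))))) = -H p [1, 2, 3, 1] p :=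
    sh_rel [2, 3, 1]
  linear_combination (384) * r141 + (384) * r135 + (-384) * r139 + (768) * r11 + (-768) * r13 + (-1) * e7_14 hp + (-2) * e7_7 hp + (-16) * e7_23 hp + (-96) * e7_43 hp + (16) * e7_29 hp + (384) * e7_45 hp

theorem e7_52 (hp : 9 < p) : ((768 : ℤ) : ZMod p) * H p [1, 1, 2, 3] p = ((3312 : ℤ) : ZMod p) * H p [6, 1] p := by
  have r75 : H p [3, 2, 1, 1] p = (-1) ^ 7 * H p [1, 1, 2, 3] p :=
    rev_rel [3, 2, 1, 1]
  linear_combination (768) * r75 + (-1) * e7_11 hp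

theorem e7_13 (hp : 9 < p) : ((768 : ℤ) : ZMod p) * H p [2, 3, 1, 1] p = ((1296 : ℤ) : ZMod p) * H p [6, 1] p := by
  have r135 : H p [1, 4, 1, 1] p + (H p [2, 3, 1, 1] p + (H p [3, 2, 1, 1] p + (H p [4, 1, 1, 1] p + (H p [4, 1, 1, 1] p + (H p [4, 1, 1, 1] p + (H p [4, 1, 1, 1] p + 0)))))) = -H p [1, 4, 1, 1] p :=
    sh_rel [4, 1, 1]
  linear_combination (768) * r135 + (-2) * e7_14 hp + (-1) * e7_11 hp + (-4) * e7_7 hp

theorem e7_44 (hp : 9 < p) : ((768 : ℤ) : ZMod p) * H p [1, 1, 3, 2] p = ((-1296 : ℤ) : ZMod p) * H p [6, 1] p := by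
  have r77 : H p [2, 3, 1, 1] p = (-1) ^ 7 * H p [1, 1, 3, 2] p :=
    rev_rel [2, 3, 1, 1]
  linear_combination (768) * r77 + (-1) * e7_13 hp

theorem e7_19 (hp : 9 < p) : ((768 : ℤ) : ZMod p) * H p [3, 1, 2, 1] p = ((1296 : ℤ) : ZMod p) * H p [6, 1] p := by
  have r35 : H p [2, 3, 1, 1] p + (H p [5, 1, 1] p + (H p [3, 2, 1, 1] p + (H p [3, 3, 1] p + (H p [3, 1, 2, 1] p + (H p [3, 1, 3] p + (H p [3, 1, 1, 2] p + 0)))))) = 0 :=
    st_rel (a := 2) (by omega) (by omega) [3, 1, 1]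
  have r179 : H p [3, 1, 1, 2] p + (H p [3, 1, 2, 1] p + (H p [3, 1, 2, 1] p + (H p [3, 2, 1, 1] p + (H p [3, 2, 1, 1] p + (H p [3, 2, 1, 1] p + (H p [4, 1, 1, 1] p + (H p [4, 1, 1, 1] p + (H p [4, 1, 1, 1] p + (H p [4, 1, 1, 1] p + (H p [4, 1, 1, 1] p + (H p [4, 1, 1, 1] p + (H p [4, 1, 1, 1] p + (H p [4, 1, 1, 1] p + (H p [3, 2, 1, 1] p + (H p [4, 1, 1, 1] p + (H p [4, 1, 1, 1] p + (H p [4, 1, 1, 1] p + (H p [4, 1, 1, 1] p + (H p [3, 2, 1, 1] p + (H p [2, 3, 1, 1] p + 0)))))))))))))))))))) = (-1) ^ 2 * H p [2, 3, 1, 1] p :=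
    shw_rel [3, 1, 1] 2 [] (by decide) (by decide)
  linear_combination (768) * r179 + (-768) * r35 + (-4) * e7_11 hp + (-12) * e7_7 hp + (1) * e7_13 hp + (96) * e7_15 hp + (96) * e7_27 hp + (384) * e7_51 hp

theorem e7_50 (hp : 9 < p) : ((768 : ℤ) : ZMod p) * H p [1, 2, 1, 3] p = ((-1296 : ℤ) : ZMod p) * H p [6, 1] p := by
  have r83 : H p [3, 1, 2, 1] p = (-1) ^ 7 * H p [1, 2, 1, 3] p :=
    rev_rel [3, 1, 2, 1]
  linear_combination (768) * r83 + (-1) * e7_19 hp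

theorem e7_22 (hp : 9 < p) : ((768 : ℤ) : ZMod p) * H p [1, 3, 2, 1] p = ((3024 : ℤ) : ZMod p) * H p [6, 1] p := by
  have r11 : H p [1, 3, 2, 1] p + (H p [4, 2, 1] p + (H p [3, 1, 2, 1] p + (H p [3, 3, 1] p + (H p [3, 2, 1, 1] p + (H p [3, 2, 2] p + (H p [3, 2, 1, 1] p + 0)))))) = 0 :=
    st_rel (a := 1) (by omega) (by omega) [3, 2, 1]
  linear_combination (768) * r11 + (-16) * e7_23 hp + (-1) * e7_19 hp + (-96) * e7_27 hp + (-2) * e7_11 hp + (-96) * e7_43 hp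

theorem e7_26 (hp : 9 < p) : ((768 : ℤ) : ZMod p) * H p [1, 2, 3, 1] p = ((-3024 : ℤ) : ZMod p) * H p [6, 1] p := by
  have r86 : H p [1, 3, 2, 1] p = (-1) ^ 7 * H p [1, 2, 3, 1] p :=
    rev_rel [1, 3, 2, 1]
  linear_combination (768) * r86 + (-1) * e7_22 hp

theorem e7_25 (hp : 9 < p) : ((768 : ℤ) : ZMod p) * H p [2, 1, 3, 1] p = ((432 : ℤ) : ZMod p) * H p [6, 1] p := by
  have r13 : H p [1, 2, 3, 1] p + (H p [3, 3, 1] p + (H p [2, 1, 3, 1] p + (H p [2, 4, 1] p + (H p [2, 3, 1, 1] p + (H p [2, 3, 2] p + (H p [2, 3, 1, 1] p + 0)))))) = 0 :=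
    st_rel (a := 1) (by omega) (by omega) [2, 3, 1]
  linear_combination (768) * r13 + (-1) * e7_26 hp + (-96) * e7_27 hp + (-16) * e7_29 hp + (-2) * e7_13 hp + (-384) * e7_45 hp

theorem e7_38 (hp : 9 < p) : ((768 : ℤ) : ZMod p) * H p [1, 3, 1, 2] p = ((-432 : ℤ) : ZMod p) * H p [6, 1] p := by
  have r89 : H p [2, 1, 3, 1] p = (-1) ^ 7 * H p [1, 3, 1, 2] p :=
    rev_rel [2, 1, 3, 1]
  linear_combination (768) * r89 + (-1) * e7_25 hp

theorem e7_35 (hp : 9 < p) : ((1536 : ℤ) : ZMod p) * H p [3, 1, 1, 2] p = ((-3168 : ℤ) : ZMod p) * H p [6, 1] p := by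
  have r19 : H p [1, 3, 1, 2] p + (H p [4, 1, 2] p + (H p [3, 1, 1, 2] p + (H p [3, 2, 2] p + (H p [3, 1, 1, 2] p + (H p [3, 1, 3] p + (H p [3, 1, 2, 1] p + 0)))))) = 0 :=
    st_rel (a := 1) (by omega) (by omega) [3, 1, 2]
  linear_combination (768) * r19 + (-1) * e7_38 hp + (-16) * e7_39 hp + (-96) * e7_43 hp + (-384) * e7_51 hp + (-1) * e7_19 hp

theorem e7_49 (hp : 9 < p) : ((1536 : ℤ) : ZMod p) * H p [2, 1, 1, 3] p = ((3168 : ℤ) : ZMod p) * H p [6, 1] p := by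
  have r99 : H p [3, 1, 1, 2] p = (-1) ^ 7 * H p [2, 1, 1, 3] p :=
    rev_rel [3, 1, 1, 2]
  linear_combination (1536) * r99 + (-1) * e7_35 hp

theorem e7_21 (hp : 9 < p) : ((768 : ℤ) : ZMod p) * H p [2, 2, 2, 1] p = ((1296 : ℤ) : ZMod p) * H p [6, 1] p := by
  have r139 : H p [1, 3, 2, 1] p + (H p [2, 2, 2, 1] p + (H p [3, 1, 2, 1] p + (H p [3, 1, 2, 1] p + (H p [3, 2, 1, 1] p + (H p [3, 2, 1, 1] p + (H p [3, 2, 1, 1] p + 0)))))) = -H p [1, 3, 2, 1] p :=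
    sh_rel [3, 2, 1]
  linear_combination (768) * r139 + (-2) * e7_22 hp + (-2) * e7_19 hp + (-3) * e7_11 hp

theorem e7_42 (hp : 9 < p) : ((768 : ℤ) : ZMod p) * H p [1, 2, 2, 2] p = ((-1296 : ℤ) : ZMod p) * H p [6, 1] p := by
  have r85 : H p [2, 2, 2, 1] p = (-1) ^ 7 * H p [1, 2, 2, 2] p :=
    rev_rel [2, 2, 2, 1]
  linear_combination (768) * r85 + (-1) * e7_21 hp

theorem e7_37 (hp : 9 < p) : ((768 : ℤ) : ZMod p) * H p [2, 2, 1, 2] p = ((3024 : ℤ) : ZMod p) * H p [6, 1] p := by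
  have r37 : H p [2, 2, 2, 1] p + (H p [4, 2, 1] p + (H p [2, 2, 2, 1] p + (H p [2, 4, 1] p + (H p [2, 2, 2, 1] p + (H p [2, 2, 3] p + (H p [2, 2, 1, 2] p + 0)))))) = 0 :=
    st_rel (a := 2) (by omega) (by omega) [2, 2, 1]
  linear_combination (768) * r37 + (-3) * e7_21 hp + (-16) * e7_23 hp + (-16) * e7_29 hp + (-96) * e7_53 hp

theorem e7_41 (hp : 9 < p) : ((768 : ℤ) : ZMod p) * H p [2, 1, 2, 2] p = ((-3024 : ℤ) : ZMod p) * H p [6, 1] p := by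
  have r101 : H p [2, 2, 1, 2] p = (-1) ^ 7 * H p [2, 1, 2, 2] p :=
    rev_rel [2, 2, 1, 2]
  linear_combination (768) * r101 + (-1) * e7_37 hp

theorem e7_6 (hp : 9 < p) : ((2304 : ℤ) : ZMod p) * H p [1, 3, 1, 1, 1] p = ((-2304 : ℤ) : ZMod p) * H p [6, 1] p := by
  have r6 : H p [1, 1, 3, 1, 1] p + (H p [2, 3, 1, 1] p + (H p [1, 1, 3, 1, 1] p + (H p [1, 4, 1, 1] p + (H p [1, 3, 1, 1, 1] p + (H p [1, 3, 2, 1] p + (H p [1, 3, 1, 1, 1] p + (H p [1, 3, 1, 2] p + (H p [1, 3, 1, 1, 1] p + 0)))))))) = 0 :=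
    st_rel (a := 1) (by omega) (by omega) [1, 3, 1, 1]
  linear_combination (768) * r6 + (-768) * e7_12 hp + (-1) * e7_13 hp + (-1) * e7_14 hp + (-1) * e7_22 hp + (-1) * e7_38 hp

theorem e7_24 (hp : 9 < p) : ((2304 : ℤ) : ZMod p) * H p [1, 1, 1, 3, 1] p = ((2304 : ℤ) : ZMod p) * H p [6, 1] p := by
  have r70 : H p [1, 3, 1, 1, 1] p = (-1) ^ 7 * H p [1, 1, 1, 3, 1] p :=
    rev_rel [1, 3, 1, 1, 1]
  linear_combination (2304) * r70 + (-1) * e7_6 hp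

theorem e7_10 (hp : 9 < p) : ((576 : ℤ) : ZMod p) * H p [1, 2, 2, 1, 1] p = ((2304 : ℤ) : ZMod p) * H p [6, 1] p := by
  have r134 : H p [1, 1, 3, 1, 1] p + (H p [1, 1, 3, 1, 1] p + (H p [1, 2, 2, 1, 1] p + (H p [1, 3, 1, 1, 1] p + (H p [1, 3, 1, 1, 1] p + (H p [1, 3, 1, 1, 1] p + (H p [1, 3, 1, 1, 1] p + 0)))))) = -H p [1, 1, 3, 1, 1] p :=
    sh_rel [1, 3, 1, 1]
  linear_combination (576) * r134 + (-864) * e7_12 hp + (-1) * e7_6 hp

theorem e7_20 (hp : 9 < p) : ((576 : ℤ) : ZMod p) * H p [1, 1, 2, 2, 1] p = ((-2304 : ℤ) : ZMod p) * H p [6, 1] p := by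
  have r74 : H p [1, 2, 2, 1, 1] p = (-1) ^ 7 * H p [1, 1, 2, 2, 1] p :=
    rev_rel [1, 2, 2, 1, 1]
  linear_combination (576) * r74 + (-1) * e7_10 hp

theorem e7_3 (hp : 9 < p) : ((18432 : ℤ) : ZMod p) * H p [3, 1, 1, 1, 1] p = ((18432 : ℤ) : ZMod p) * H p [6, 1] p := by
  have r3 : H p [1, 3, 1, 1, 1] p + (H p [4, 1, 1, 1] p + (H p [3, 1, 1, 1, 1] p + (H p [3, 2, 1, 1] p + (H p [3, 1, 1, 1, 1] p + (H p [3, 1, 2, 1] p + (H p [3, 1, 1, 1, 1] p + (H p [3, 1, 1, 2] p + (H p [3, 1, 1, 1, 1] p + 0)))))))) = 0 :=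
    st_rel (a := 1) (by omega) (by omega) [3, 1, 1, 1]
  linear_combination (4608) * r3 + (-2) * e7_6 hp + (-6) * e7_7 hp + (-6) * e7_11 hp + (-6) * e7_19 hp + (-3) * e7_35 hp

theorem e7_48 (hp : 9 < p) : ((18432 : ℤ) : ZMod p) * H p [1, 1, 1, 1, 3] p = ((-18432 : ℤ) : ZMod p) * H p [6, 1] p := by
  have r67 : H p [3, 1, 1, 1, 1] p = (-1) ^ 7 * H p [1, 1, 1, 1, 3] p :=
    rev_rel [3, 1, 1, 1, 1]
  linear_combination (18432) * r67 + (-1) * e7_3 hp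

theorem e7_5 (hp : 9 < p) : ((18432 : ℤ) : ZMod p) * H p [2, 2, 1, 1, 1] p = ((-55296 : ℤ) : ZMod p) * H p [6, 1] p := by
  have r131 : H p [1, 3, 1, 1, 1] p + (H p [2, 2, 1, 1, 1] p + (H p [3, 1, 1, 1, 1] p + (H p [3, 1, 1, 1, 1] p + (H p [3, 1, 1, 1, 1] p + (H p [3, 1, 1, 1, 1] p + (H p [3, 1, 1, 1, 1] p + 0)))))) = -H p [1, 3, 1, 1, 1] p :=
    sh_rel [3, 1, 1, 1]
  linear_combination (18432) * r131 + (-16) * e7_6 hp + (-5) * e7_3 hp

theorem e7_40 (hp : 9 < p) : ((18432 : ℤ) : ZMod p) * H p [1, 1, 1, 2, 2] p = ((55296 : ℤ) : ZMod p) * H p [6, 1] p := by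
  have r69 : H p [2, 2, 1, 1, 1] p = (-1) ^ 7 * H p [1, 1, 1, 2, 2] p :=
    rev_rel [2, 2, 1, 1, 1]
  linear_combination (18432) * r69 + (-1) * e7_5 hp

theorem e7_9 (hp : 9 < p) : ((9216 : ℤ) : ZMod p) * H p [2, 1, 2, 1, 1] p = ((18432 : ℤ) : ZMod p) * H p [6, 1] p := by
  have r133 : H p [1, 2, 2, 1, 1] p + (H p [2, 1, 2, 1, 1] p + (H p [2, 1, 2, 1, 1] p + (H p [2, 2, 1, 1, 1] p + (H p [2, 2, 1, 1, 1] p + (H p [2, 2, 1, 1, 1] p + (H p [2, 2, 1, 1, 1] p + 0)))))) = -H p [1, 2, 2, 1, 1] p :=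
    sh_rel [2, 2, 1, 1]
  linear_combination (4608) * r133 + (-16) * e7_10 hp + (-1) * e7_5 hp

theorem e7_36 (hp : 9 < p) : ((9216 : ℤ) : ZMod p) * H p [1, 1, 2, 1, 2] p = ((-18432 : ℤ) : ZMod p) * H p [6, 1] p := by
  have r73 : H p [2, 1, 2, 1, 1] p = (-1) ^ 7 * H p [1, 1, 2, 1, 2] p :=
    rev_rel [2, 1, 2, 1, 1]
  linear_combination (9216) * r73 + (-1) * e7_9 hp

theorem e7_17 (hp : 9 < p) : ((9216 : ℤ) : ZMod p) * H p [2, 1, 1, 2, 1] p = ((-18432 : ℤ) : ZMod p) * H p [6, 1] p := by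
  have r137 : H p [1, 2, 1, 2, 1] p + (H p [2, 1, 1, 2, 1] p + (H p [2, 1, 1, 2, 1] p + (H p [2, 1, 1, 2, 1] p + (H p [2, 1, 2, 1, 1] p + (H p [2, 1, 2, 1, 1] p + (H p [2, 1, 2, 1, 1] p + 0)))))) = -H p [1, 2, 1, 2, 1] p :=
    sh_rel [2, 1, 2, 1]
  linear_combination (3072) * r137 + (-3072) * e7_18 hp + (-1) * e7_9 hp

theorem e7_34 (hp : 9 < p) : ((9216 : ℤ) : ZMod p) * H p [1, 2, 1, 1, 2] p = ((18432 : ℤ) : ZMod p) * H p [6, 1] p := by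
  have r81 : H p [2, 1, 1, 2, 1] p = (-1) ^ 7 * H p [1, 2, 1, 1, 2] p :=
    rev_rel [2, 1, 1, 2, 1]
  linear_combination (9216) * r81 + (-1) * e7_17 hp

theorem e7_1 (hp : 9 < p) : ((36864 : ℤ) : ZMod p) * H p [2, 1, 1, 1, 1, 1] p = ((36864 : ℤ) : ZMod p) * H p [6, 1] p := by
  have r1 : H p [1, 2, 1, 1, 1, 1] p + (H p [3, 1, 1, 1, 1] p + (H p [2, 1, 1, 1, 1, 1] p + (H p [2, 2, 1, 1, 1] p + (H p [2, 1, 1, 1, 1, 1] p + (H p [2, 1, 2, 1, 1] p + (H p [2, 1, 1, 1, 1, 1] p + (H p [2, 1, 1, 2, 1] p + (H p [2, 1, 1, 1, 1, 1] p + (H p [2, 1, 1, 1, 2] p + (H p [2, 1, 1, 1, 1, 1] p + 0)))))))))) = 0 :=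
    st_rel (a := 1) (by omega) (by omega) [2, 1, 1, 1, 1]
  have r129 : H p [1, 2, 1, 1, 1, 1] p + (H p [2, 1, 1, 1, 1, 1] p + (H p [2, 1, 1, 1, 1, 1] p + (H p [2, 1, 1, 1, 1, 1] p + (H p [2, 1, 1, 1, 1, 1] p + (H p [2, 1, 1, 1, 1, 1] p + (H p [2, 1, 1, 1, 1, 1] p + 0)))))) = -H p [1, 2, 1, 1, 1, 1] p :=
    sh_rel [2, 1, 1, 1, 1]
  linear_combination (18432) * r1 + (-9216) * r129 + (-1) * e7_3 hp + (-1) * e7_5 hp + (-2) * e7_9 hp + (-2) * e7_17 hp + (-9216) * e7_33 hp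

theorem e7_32 (hp : 9 < p) : ((36864 : ℤ) : ZMod p) * H p [1, 1, 1, 1, 1, 2] p = ((-36864 : ℤ) : ZMod p) * H p [6, 1] p := by
  have r65 : H p [2, 1, 1, 1, 1, 1] p = (-1) ^ 7 * H p [1, 1, 1, 1, 1, 2] p :=
    rev_rel [2, 1, 1, 1, 1, 1]
  linear_combination (36864) * r65 + (-1) * e7_1 hp

theorem e7_2 (hp : 9 < p) : ((12288 : ℤ) : ZMod p) * H p [1, 2, 1, 1, 1, 1] p = ((-36864 : ℤ) : ZMod p) * H p [6, 1] p := by
  have r129 : H p [1, 2, 1, 1, 1, 1] p + (H p [2, 1, 1, 1, 1, 1] p + (H p [2, 1, 1, 1, 1, 1] p + (H p [2, 1, 1, 1, 1, 1] p + (H p [2, 1, 1, 1, 1, 1] p + (H p [2, 1, 1, 1, 1, 1] p + (H p [2, 1, 1, 1, 1, 1] p + 0)))))) = -H p [1, 2, 1, 1, 1, 1] p :=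
    sh_rel [2, 1, 1, 1, 1]
  linear_combination (6144) * r129 + (-1) * e7_1 hp

theorem e7_16 (hp : 9 < p) : ((12288 : ℤ) : ZMod p) * H p [1, 1, 1, 1, 2, 1] p = ((36864 : ℤ) : ZMod p) * H p [6, 1] p := by
  have r66 : H p [1, 2, 1, 1, 1, 1] p = (-1) ^ 7 * H p [1, 1, 1, 1, 2, 1] p :=
    rev_rel [1, 2, 1, 1, 1, 1]
  linear_combination (12288) * r66 + (-1) * e7_2 hp

theorem e7_4 (hp : 9 < p) : ((36864 : ℤ) : ZMod p) * H p [1, 1, 2, 1, 1, 1] p = ((184320 : ℤ) : ZMod p) * H p [6, 1] p := by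
  have r130 : H p [1, 1, 2, 1, 1, 1] p + (H p [1, 1, 2, 1, 1, 1] p + (H p [1, 2, 1, 1, 1, 1] p + (H p [1, 2, 1, 1, 1, 1] p + (H p [1, 2, 1, 1, 1, 1] p + (H p [1, 2, 1, 1, 1, 1] p + (H p [1, 2, 1, 1, 1, 1] p + 0)))))) = -H p [1, 1, 2, 1, 1, 1] p :=
    sh_rel [1, 2, 1, 1, 1]
  linear_combination (12288) * r130 + (-5) * e7_2 hp

theorem e7_8 (hp : 9 < p) : ((36864 : ℤ) : ZMod p) * H p [1, 1, 1, 2, 1, 1] p = ((-184320 : ℤ) : ZMod p) * H p [6, 1] p := by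
  have r68 : H p [1, 1, 2, 1, 1, 1] p = (-1) ^ 7 * H p [1, 1, 1, 2, 1, 1] p :=
    rev_rel [1, 1, 2, 1, 1, 1]
  linear_combination (36864) * r68 + (-1) * e7_4 hp

end

theorem up7 : ∀ l ∈ comps 7, ∃ N : ℤ, N ≠ 0 ∧ ∃ c0 : ℤ, ∀ (p : ℕ) [Fact p.Prime], 9 < p →
    (N : ZMod p) * H p l p = c0 * H p [6, 1] p := by
  have e : comps 7 = [[1, 1, 1, 1, 1, 1, 1], [2, 1, 1, 1, 1, 1], [1, 2, 1, 1, 1, 1], [3, 1, 1, 1, 1], [1, 1, 2, 1, 1, 1], [2, 2, 1, 1, 1], [1, 3, 1, 1, 1], [4, 1, 1, 1], [1, 1, 1, 2, 1, 1], [2, 1, 2, 1, 1], [1, 2, 2, 1, 1], [3, 2, 1, 1], [1, 1, 3, 1, 1], [2, 3, 1, 1], [1, 4, 1, 1], [5, 1, 1], [1, 1, 1, 1, 2, 1], [2, 1, 1, 2, 1], [1, 2, 1, 2, 1], [3, 1, 2, 1], [1, 1, 2, 2, 1], [2, 2, 2, 1], [1, 3, 2, 1], [4, 2, 1], [1, 1, 1, 3, 1], [2, 1, 3, 1], [1, 2, 3, 1], [3, 3, 1], [1, 1, 4, 1], [2, 4, 1], [1, 5, 1], [6, 1], [1, 1, 1, 1, 1, 2], [2, 1, 1, 1, 2], [1, 2, 1, 1, 2], [3,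 1, 1, 2], [1, 1, 2, 1, 2], [2, 2, 1, 2], [1, 3, 1, 2], [4, 1, 2], [1, 1, 1, 2, 2], [2, 1, 2, 2], [1, 2, 2, 2], [3, 2, 2], [1, 1, 3, 2], [2, 3, 2], [1, 4, 2], [5, 2], [1, 1, 1, 1, 3], [2, 1, 1, 3], [1, 2, 1, 3], [3, 1, 3], [1, 1, 2, 3], [2, 2, 3], [1, 3, 3], [4, 3], [1, 1, 1, 4], [2, 1, 4], [1, 2, 4], [3, 4], [1, 1, 5], [2, 5], [1, 6], [7]] := by decide
  rw [e]
  simp only [List.forall_mem_cons, List.not_mem_nil, IsEmpty.forall_iff, implies_true, and_true]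
  exact ⟨⟨_, by decide, _, fun p _ hp => e7_0 hp⟩,
    ⟨_, by decide, _, fun p _ hp => e7_1 hp⟩,
    ⟨_, by decide, _, fun p _ hp => e7_2 hp⟩,
    ⟨_, by decide, _, fun p _ hp => e7_3 hp⟩,
    ⟨_, by decide, _, fun p _ hp => e7_4 hp⟩,
    ⟨_, by decide, _, fun p _ hp => e7_5 hp⟩,
    ⟨_, by decide, _, fun p _ hp => e7_6 hp⟩,
    ⟨_, by decide, _, fun p _ hp => e7_7 hp⟩,
    ⟨_, by decide, _, fun p _ hp => e7_8 hp⟩,
    ⟨_, by decide, _, fun p _ hp => e7_9 hp⟩,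
    ⟨_, by decide, _, fun p _ hp => e7_10 hp⟩,
    ⟨_, by decide, _, fun p _ hp => e7_11 hp⟩,
    ⟨_, by decide, _, fun p _ hp => e7_12 hp⟩,
    ⟨_, by decide, _, fun p _ hp => e7_13 hp⟩,
    ⟨_, by decide, _, fun p _ hp => e7_14 hp⟩,
    ⟨_, by decide, _, fun p _ hp => e7_15 hp⟩,
    ⟨_, by decide, _, fun p _ hp => e7_16 hp⟩,
    ⟨_, by decide, _, fun p _ hp => e7_17 hp⟩,
    ⟨_, by decide, _, fun p _ hp => e7_18 hp⟩,
    ⟨_, by decide, _, fun p _ hp => e7_19 hp⟩,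
    ⟨_, by decide, _, fun p _ hp => e7_20 hp⟩,
    ⟨_, by decide, _, fun p _ hp => e7_21 hp⟩,
    ⟨_, by decide, _, fun p _ hp => e7_22 hp⟩,
    ⟨_, by decide, _, fun p _ hp => e7_23 hp⟩,
    ⟨_, by decide, _, fun p _ hp => e7_24 hp⟩,
    ⟨_, by decide, _, fun p _ hp => e7_25 hp⟩,
    ⟨_, by decide, _, fun p _ hp => e7_26 hp⟩,
    ⟨_, by decide, _, fun p _ hp => e7_27 hp⟩,
    ⟨_, by decide, _, fun p _ hp => e7_28 hp⟩,
    ⟨_, by decide, _, fun p _ hp => e7_29 hp⟩,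
    ⟨_, by decide, _, fun p _ hp => e7_30 hp⟩,
    ⟨_, by decide, _, fun p _ _ => e7_31⟩,
    ⟨_, by decide, _, fun p _ hp => e7_32 hp⟩,
    ⟨_, by decide, _, fun p _ hp => e7_33 hp⟩,
    ⟨_, by decide, _, fun p _ hp => e7_34 hp⟩,
    ⟨_, by decide, _, fun p _ hp => e7_35 hp⟩,
    ⟨_, by decide, _, fun p _ hp => e7_36 hp⟩,
    ⟨_, by decide, _, fun p _ hp => e7_37 hp⟩,
    ⟨_, by decide, _, fun p _ hp => e7_38 hp⟩,
    ⟨_, by decide, _, fun p _ hp => e7_39 hp⟩,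
    ⟨_, by decide, _, fun p _ hp => e7_40 hp⟩,
    ⟨_, by decide, _, fun p _ hp => e7_41 hp⟩,
    ⟨_, by decide, _, fun p _ hp => e7_42 hp⟩,
    ⟨_, by decide, _, fun p _ hp => e7_43 hp⟩,
    ⟨_, by decide, _, fun p _ hp => e7_44 hp⟩,
    ⟨_, by decide, _, fun p _ hp => e7_45 hp⟩,
    ⟨_, by decide, _, fun p _ hp => e7_46 hp⟩,
    ⟨_, by decide, _, fun p _ hp => e7_47 hp⟩,
    ⟨_, by decide, _, fun p _ hp => e7_48 hp⟩,
    ⟨_, by decide, _, fun p _ hp => e7_49 hp⟩,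
    ⟨_, by decide, _, fun p _ hp => e7_50 hp⟩,
    ⟨_, by decide, _, fun p _ hp => e7_51 hp⟩,
    ⟨_, by decide, _, fun p _ hp => e7_52 hp⟩,
    ⟨_, by decide, _, fun p _ hp => e7_53 hp⟩,
    ⟨_, by decide, _, fun p _ hp => e7_54 hp⟩,
    ⟨_, by decide, _, fun p _ hp => e7_55 hp⟩,
    ⟨_, by decide, _, fun p _ hp => e7_56 hp⟩,
    ⟨_, by decide, _, fun p _ hp => e7_57 hp⟩,
    ⟨_, by decide, _, fun p _ hp => e7_58 hp⟩,
    ⟨_, by decide, _, fun p _ hp => e7_59 hp⟩,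
    ⟨_, by decide, _, fun p _ hp => e7_60 hp⟩,
    ⟨_, by decide, _, fun p _ hp => e7_61 hp⟩,
    ⟨_, by decide, _, fun p _ hp => e7_62 hp⟩,
    ⟨_, by decide, _, fun p _ hp => e7_63 hp⟩⟩

end Pool.Agent.MP_3924c3_nt.FZ

end
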