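import Pool.Agent.Mg.F3792c7p.G225a4f
import Pool.Agent.MP_3924c3_nt.FZ.Final

set_option linter.all false

section

/-!
The linear relations in weight 8.
-/

namespace Pool.Agent.MP_3924c3_nt.FZ

section

variable {p : ℕ} [Fact p.Prime]

theorem e8_31 : ((1 : ℤ) : ZMod p) * H p [6, 1, 1] p = ((1 : ℤ) : ZMod p) * H p [6, 1, 1] p + ((0 : ℤ) : ZMod p) * H p [5, 2, 1] p := by
  ring

theorem e8_47 : ((1 : ℤ) : ZMod p) * H p [5, 2, 1] p = ((0 : ℤ) : ZMod p) * H p [6, 1, 1] p + ((1 : ℤ) : ZMod p) * H p [5, 2, 1] p := by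
  ring

theorem e8_127 (hp : 9 < p) : ((1 : ℤ) : ZMod p) * H p [8] p = ((0 : ℤ) : ZMod p) * H p [6, 1, 1] p + ((0 : ℤ) : ZMod p) * H p [5, 2, 1] p := by
  have r127 : H p [8] p + 0 = 0 :=
    st_rel (a := 8) (by omega) (by omega) []
  linear_combination (1) * r127

theorem e8_124 (hp : 9 < p) : ((1 : ℤ) : ZMod p) * H p [1, 1, 6] p = ((1 : ℤ) : ZMod p) * H p [6, 1, 1] p + ((0 : ℤ) : ZMod p) * H p [5, 2, 1] p := by
  have r155 : H p [6, 1, 1] p = (-1) ^ 8 * H p [1, 1, 6] p :=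
    rev_rel [6, 1, 1]
  linear_combination (-1) * r155

theorem e8_122 (hp : 9 < p) : ((1 : ℤ) : ZMod p) * H p [1, 2, 5] p = ((0 : ℤ) : ZMod p) * H p [6, 1, 1] p + ((1 : ℤ) : ZMod p) * H p [5, 2, 1] p := by
  have r169 : H p [5, 2, 1] p = (-1) ^ 8 * H p [1, 2, 5] p :=
    rev_rel [5, 2, 1]
  linear_combination (-1) * r169

theorem e8_119 (hp : 9 < p) : ((2 : ℤ) : ZMod p) * H p [4, 4] p = ((0 : ℤ) : ZMod p) * H p [6, 1, 1] p + ((0 : ℤ) : ZMod p) * H p [5, 2, 1] p := by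
  have r119 : H p [4, 4] p + (H p [8] p + (H p [4, 4] p + 0)) = 0 :=
    st_rel (a := 4) (by omega) (by omega) [4]
  linear_combination (1) * r119 + (-1) * e8_127 hp

theorem e8_0 (hp : 9 < p) : ((9 : ℤ) : ZMod p) * H p [1, 1, 1, 1, 1, 1, 1, 1] p = ((0 : ℤ) : ZMod p) * H p [6, 1, 1] p + ((0 : ℤ) : ZMod p) * H p [5, 2, 1] p := by
  have r240 : H p [1, 1, 1, 1, 1, 1, 1, 1] p + (H p [1, 1, 1, 1, 1, 1, 1, 1] p + (H p [1, 1, 1, 1, 1, 1, 1, 1] p + (H p [1, 1, 1, 1, 1, 1, 1, 1] p + (H p [1, 1, 1, 1, 1, 1, 1, 1] p + (H p [1, 1, 1, 1, 1, 1, 1, 1] p + (H p [1, 1, 1, 1, 1, 1, 1, 1] p + (H p [1, 1, 1, 1, 1, 1, 1, 1] p + 0))))))) = -H p [1, 1, 1, 1, 1, 1, 1, 1] p :=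
    sh_rel [1, 1, 1, 1, 1, 1, 1]
  linear_combination (1) * r240

theorem e8_63 (hp : 9 < p) : ((2 : ℤ) : ZMod p) * H p [7, 1] p = ((0 : ℤ) : ZMod p) * H p [6, 1, 1] p + ((0 : ℤ) : ZMod p) * H p [5, 2, 1] p := by
  have r63 : H p [1, 7] p + (H p [8] p + (H p [7, 1] p + 0)) = 0 :=
    st_rel (a := 1) (by omega) (by omega) [7]
  have r183 : H p [7, 1] p = (-1) ^ 8 * H p [1, 7] p :=
    rev_rel [7, 1]
  linear_combination (1) * r183 + (1) * r63 + (-1) * e8_127 hp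

theorem e8_126 (hp : 9 < p) : ((2 : ℤ) : ZMod p) * H p [1, 7] p = ((0 : ℤ) : ZMod p) * H p [6, 1, 1] p + ((0 : ℤ) : ZMod p) * H p [5, 2, 1] p := by
  have r183 : H p [7, 1] p = (-1) ^ 8 * H p [1, 7] p :=
    rev_rel [7, 1]
  linear_combination (-2) * r183 + (1) * e8_63 hp

theorem e8_62 (hp : 9 < p) : ((2 : ℤ) : ZMod p) * H p [1, 6, 1] p = ((-4 : ℤ) : ZMod p) * H p [6, 1, 1] p + ((0 : ℤ) : ZMod p) * H p [5, 2, 1] p := by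
  have r124 : H p [6, 1, 1] p + (H p [7, 1] p + (H p [1, 6, 1] p + (H p [1, 7] p + (H p [1, 1, 6] p + 0)))) = 0 :=
    st_rel (a := 6) (by omega) (by omega) [1, 1]
  linear_combination (2) * r124 + (-1) * e8_63 hp + (-1) * e8_126 hp + (-2) * e8_124 hp

theorem e8_95 (hp : 9 < p) : ((2 : ℤ) : ZMod p) * H p [6, 2] p = ((0 : ℤ) : ZMod p) * H p [6, 1, 1] p + ((0 : ℤ) : ZMod p) * H p [5, 2, 1] p := by
  have r31 : H p [1, 6, 1] p + (H p [7, 1] p + (H p [6, 1, 1] p + (H p [6, 2] p + (H p [6, 1, 1] p + 0)))) = 0 :=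
    st_rel (a := 1) (by omega) (by omega) [6, 1]
  linear_combination (2) * r31 + (-1) * e8_62 hp + (-1) * e8_63 hp

theorem e8_125 (hp : 9 < p) : ((2 : ℤ) : ZMod p) * H p [2, 6] p = ((0 : ℤ) : ZMod p) * H p [6, 1, 1] p + ((0 : ℤ) : ZMod p) * H p [5, 2, 1] p := by
  have r211 : H p [6, 2] p = (-1) ^ 8 * H p [2, 6] p :=
    rev_rel [6, 2]
  linear_combination (-2) * r211 + (1) * e8_95 hp

theorem e8_111 (hp : 9 < p) : ((2 : ℤ) : ZMod p) * H p [5, 3] p = ((0 : ℤ) : ZMod p) * H p [6, 1, 1] p + ((0 : ℤ) : ZMod p) * H p [5, 2, 1] p := by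
  have r111 : H p [3, 5] p + (H p [8] p + (H p [5, 3] p + 0)) = 0 :=
    st_rel (a := 3) (by omega) (by omega) [5]
  have r225 : H p [5, 3] p = (-1) ^ 8 * H p [3, 5] p :=
    rev_rel [5, 3]
  linear_combination (1) * r225 + (1) * r111 + (-1) * e8_127 hp

theorem e8_123 (hp : 9 < p) : ((2 : ℤ) : ZMod p) * H p [3, 5] p = ((0 : ℤ) : ZMod p) * H p [6, 1, 1] p + ((0 : ℤ) : ZMod p) * H p [5, 2, 1] p := by
  have r225 : H p [5, 3] p = (-1) ^ 8 * H p [3, 5] p :=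
    rev_rel [5, 3]
  linear_combination (-2) * r225 + (1) * e8_111 hp

theorem e8_85 (hp : 9 < p) : ((8 : ℤ) : ZMod p) * H p [2, 2, 2, 2] p = ((0 : ℤ) : ZMod p) * H p [6, 1, 1] p + ((0 : ℤ) : ZMod p) * H p [5, 2, 1] p := by
  have r85 : H p [2, 2, 2, 2] p + (H p [4, 2, 2] p + (H p [2, 2, 2, 2] p + (H p [2, 4, 2] p + (H p [2, 2, 2, 2] p + (H p [2, 2, 4] p + (H p [2, 2, 2, 2] p + 0)))))) = 0 :=
    st_rel (a := 2) (by omega) (by omega) [2, 2, 2]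
  have r87 : H p [2, 4, 2] p + (H p [6, 2] p + (H p [4, 2, 2] p + (H p [4, 4] p + (H p [4, 2, 2] p + 0)))) = 0 :=
    st_rel (a := 2) (by omega) (by omega) [4, 2]
  have r204 : H p [4, 2, 2] p = (-1) ^ 8 * H p [2, 2, 4] p :=
    rev_rel [4, 2, 2]
  linear_combination (2) * r85 + (2) * r204 + (-2) * r87 + (1) * e8_95 hp + (1) * e8_119 hp

theorem e8_15 (hp : 9 < p) : ((4224 : ℤ) : ZMod p) * H p [5, 1, 1, 1] p = ((4224 : ℤ) : ZMod p) * H p [6, 1, 1] p + ((-1056 : ℤ) : ZMod p) * H p [5, 2, 1] p := by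
  have r15 : H p [1, 5, 1, 1] p + (H p [6, 1, 1] p + (H p [5, 1, 1, 1] p + (H p [5, 2, 1] p + (H p [5, 1, 1, 1] p + (H p [5, 1, 2] p + (H p [5, 1, 1, 1] p + 0)))))) = 0 :=
    st_rel (a := 1) (by omega) (by omega) [5, 1, 1]
  have r30 : H p [1, 1, 5, 1] p + (H p [2, 5, 1] p + (H p [1, 1, 5, 1] p + (H p [1, 6, 1] p + (H p [1, 5, 1, 1] p + (H p [1, 5, 2] p + (H p [1, 5, 1, 1] p + 0)))))) = 0 :=
    st_rel (a := 1) (by omega) (by omega) [1, 5, 1]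
  have r47 : H p [1, 5, 2] p + (H p [6, 2] p + (H p [5, 1, 2] p + (H p [5, 3] p + (H p [5, 2, 1] p + 0)))) = 0 :=
    st_rel (a := 1) (by omega) (by omega) [5, 2]
  have r55 : H p [1, 4, 3] p + (H p [5, 3] p + (H p [4, 1, 3] p + (H p [4, 4] p + (H p [4, 3, 1] p + 0)))) = 0 :=
    st_rel (a := 1) (by omega) (by omega) [4, 3]
  have r75 : H p [2, 3, 2, 1] p + (H p [5, 2, 1] p + (H p [3, 2, 2, 1] p + (H p [3, 4, 1] p + (H p [3, 2, 2, 1] p + (H p [3, 2, 3] p + (H p [3, 2, 1, 2] p + 0)))))) = 0 :=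
    st_rel (a := 2) (by omega) (by omega) [3, 2, 1]
  have r87 : H p [2, 4, 2] p + (H p [6, 2] p + (H p [4, 2, 2] p + (H p [4, 4] p + (H p [4, 2, 2] p + 0)))) = 0 :=
    st_rel (a := 2) (by omega) (by omega) [4, 2]
  have r99 : H p [3, 3, 1, 1] p + (H p [6, 1, 1] p + (H p [3, 3, 1, 1] p + (H p [3, 4, 1] p + (H p [3, 1, 3, 1] p + (H p [3, 1, 4] p + (H p [3, 1, 1, 3] p + 0)))))) = 0 :=
    st_rel (a := 3) (by omega) (by omega) [3, 1, 1]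
  have r102 : H p [3, 1, 3, 1] p + (H p [4, 3, 1] p + (H p [1, 3, 3, 1] p + (H p [1, 6, 1] p + (H p [1, 3, 3, 1] p + (H p [1, 3, 4] p + (H p [1, 3, 1, 3] p + 0)))))) = 0 :=
    st_rel (a := 3) (by omega) (by omega) [1, 3, 1]
  have r107 : H p [3, 3, 2] p + (H p [6, 2] p + (H p [3, 3, 2] p + (H p [3, 5] p + (H p [3, 2, 3] p + 0)))) = 0 :=
    st_rel (a := 3) (by omega) (by omega) [3, 2]
  have r114 : H p [4, 1, 2, 1] p + (H p [5, 2, 1] p + (H p [1, 4, 2, 1] p + (H p [1, 6, 1] p + (H p [1, 2, 4, 1] p + (H p [1, 2, 5] p + (H p [1, 2, 1, 4] p + 0)))))) = 0 :=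
    st_rel (a := 4) (by omega) (by omega) [1, 2, 1]
  have r154 : H p [1, 5, 1, 1] p = (-1) ^ 8 * H p [1, 1, 5, 1] p :=
    rev_rel [1, 5, 1, 1]
  have r162 : H p [4, 1, 2, 1] p = (-1) ^ 8 * H p [1, 2, 1, 4] p :=
    rev_rel [4, 1, 2, 1]
  have r167 : H p [2, 3, 2, 1] p = (-1) ^ 8 * H p [1, 2, 3, 2] p :=
    rev_rel [2, 3, 2, 1]
  have r168 : H p [1, 4, 2, 1] p = (-1) ^ 8 * H p [1, 2, 4, 1] p :=
    rev_rel [1, 4, 2, 1]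
  have r173 : H p [3, 1, 3, 1] p = (-1) ^ 8 * H p [1, 3, 1, 3] p :=
    rev_rel [3, 1, 3, 1]
  have r175 : H p [2, 2, 3, 1] p = (-1) ^ 8 * H p [1, 3, 2, 2] p :=
    rev_rel [2, 2, 3, 1]
  have r176 : H p [4, 3, 1] p = (-1) ^ 8 * H p [1, 3, 4] p :=
    rev_rel [4, 3, 1]
  have r178 : H p [2, 1, 4, 1] p = (-1) ^ 8 * H p [1, 4, 1, 2] p :=
    rev_rel [2, 1, 4, 1]
  have r180 : H p [3, 4, 1] p = (-1) ^ 8 * H p [1, 4, 3] p :=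
    rev_rel [3, 4, 1]
  have r182 : H p [2, 5, 1] p = (-1) ^ 8 * H p [1, 5, 2] p :=
    rev_rel [2, 5, 1]
  have r195 : H p [2, 3, 1, 2] p = (-1) ^ 8 * H p [2, 1, 3, 2] p :=
    rev_rel [2, 3, 1, 2]
  have r201 : H p [3, 1, 2, 2] p = (-1) ^ 8 * H p [2, 2, 1, 3] p :=
    rev_rel [3, 1, 2, 2]
  have r218 : H p [4, 1, 3] p = (-1) ^ 8 * H p [3, 1, 4] p :=
    rev_rel [4, 1, 3]
  have r255 : H p [1, 5, 1, 1] p + (H p [2, 4, 1, 1] p + (H p [3, 3, 1, 1] p + (H p [4, 2, 1, 1] p + (H p [5, 1, 1, 1] p + (H p [5, 1, 1, 1] p + (H p [5, 1, 1, 1] p + (H p [5, 1, 1, 1] p + 0))))))) = -H p [1, 5, 1, 1] p :=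
    sh_rel [5, 1, 1]
  have r263 : H p [1, 4, 2, 1] p + (H p [2, 3, 2, 1] p + (H p [3, 2, 2, 1] p + (H p [4, 1, 2, 1] p + (H p [4, 1, 2, 1] p + (H p [4, 2, 1, 1] p + (H p [4, 2, 1, 1] p + (H p [4, 2, 1, 1] p + 0))))))) = -H p [1, 4, 2, 1] p :=
    sh_rel [4, 2, 1]
  have r267 : H p [1, 3, 3, 1] p + (H p [2, 2, 3, 1] p + (H p [3, 1, 3, 1] p + (H p [3, 1, 3, 1] p + (H p [3, 2, 2, 1] p + (H p [3, 3, 1, 1] p + (H p [3, 3, 1, 1] p + (H p [3, 3, 1, 1] p + 0))))))) = -H p [1, 3, 3, 1] p :=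
    sh_rel [3, 3, 1]
  have r269 : H p [1, 2, 4, 1] p + (H p [2, 1, 4, 1] p + (H p [2, 1, 4, 1] p + (H p [2, 2, 3, 1] p + (H p [2, 3, 2, 1] p + (H p [2, 4, 1, 1] p + (H p [2, 4, 1, 1] p + (H p [2, 4, 1, 1] p + 0))))))) = -H p [1, 2, 4, 1] p :=
    sh_rel [2, 4, 1]
  have r270 : H p [1, 1, 5, 1] p + (H p [1, 1, 5, 1] p + (H p [1, 2, 4, 1] p + (H p [1, 3, 3, 1] p + (H p [1, 4, 2, 1] p + (H p [1, 5, 1, 1] p + (H p [1, 5, 1, 1] p + (H p [1, 5, 1, 1] p + 0))))))) = -H p [1, 1, 5, 1] p :=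
    sh_rel [1, 5, 1]
  have r271 : H p [1, 6, 1] p + (H p [2, 5, 1] p + (H p [3, 4, 1] p + (H p [4, 3, 1] p + (H p [5, 2, 1] p + (H p [6, 1, 1] p + (H p [6, 1, 1] p + (H p [6, 1, 1] p + 0))))))) = -H p [1, 6, 1] p :=
    sh_rel [6, 1]
  have r279 : H p [1, 4, 1, 2] p + (H p [2, 3, 1, 2] p + (H p [3, 2, 1, 2] p + (H p [4, 1, 1, 2] p + (H p [4, 1, 1, 2] p + (H p [4, 1, 1, 2] p + (H p [4, 1, 2, 1] p + (H p [4, 1, 2, 1] p + 0))))))) = -H p [1, 4, 1, 2] p :=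
    sh_rel [4, 1, 2]
  have r283 : H p [1, 3, 2, 2] p + (H p [2, 2, 2, 2] p + (H p [3, 1, 2, 2] p + (H p [3, 1, 2, 2] p + (H p [3, 2, 1, 2] p + (H p [3, 2, 1, 2] p + (H p [3, 2, 2, 1] p + (H p [3, 2, 2, 1] p + 0))))))) = -H p [1, 3, 2, 2] p :=
    sh_rel [3, 2, 2]
  have r285 : H p [1, 2, 3, 2] p + (H p [2, 1, 3, 2] p + (H p [2, 1, 3, 2] p + (H p [2, 2, 2, 2] p + (H p [2, 3, 1, 2] p + (H p [2, 3, 1, 2] p + (H p [2, 3, 2, 1] p + (H p [2, 3, 2, 1] p + 0))))))) = -H p [1, 2, 3, 2] p :=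
    sh_rel [2, 3, 2]
  have r287 : H p [1, 5, 2] p + (H p [2, 4, 2] p + (H p [3, 3, 2] p + (H p [4, 2, 2] p + (H p [5, 1, 2] p + (H p [5, 1, 2] p + (H p [5, 2, 1] p + (H p [5, 2, 1] p + 0))))))) = -H p [1, 5, 2] p :=
    sh_rel [5, 2]
  have r291 : H p [1, 3, 1, 3] p + (H p [2, 2, 1, 3] p + (H p [3, 1, 1, 3] p + (H p [3, 1, 1, 3] p + (H p [3, 1, 1, 3] p + (H p [3, 1, 2, 2] p + (H p [3, 1, 3, 1] p + (H p [3, 1, 3, 1] p + 0))))))) = -H p [1, 3, 1, 3] p :=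
    sh_rel [3, 1, 3]
  have r343 : H p [4, 1, 1, 2] p + (H p [4, 1, 2, 1] p + (H p [4, 1, 2, 1] p + (H p [4, 2, 1, 1] p + (H p [4, 2, 1, 1] p + (H p [4, 2, 1, 1] p + (H p [5, 1, 1, 1] p + (H p [5, 1, 1, 1] p + (H p [5, 1, 1, 1] p + (H p [5, 1, 1, 1] p + (H p [5, 1, 1, 1] p + (H p [5, 1, 1, 1] p + (H p [5, 1, 1, 1] p + (H p [5, 1, 1, 1] p + (H p [4, 2, 1, 1] p + (H p [5, 1, 1, 1] p + (H p [5, 1, 1, 1] p + (H p [5, 1, 1, 1] p + (H p [5, 1, 1, 1] p + (H p [4, 2, 1, 1] p + (H p [3, 3, 1, 1] p + (H p [5, 1, 1, 1] p + (H p [5, 1, 1, 1] p + (H p [5, 1, 1, 1] p + (H p [5, 1, 1, 1] p + (H p [4, 2, 1, 1] p + (H p [3, 3, 1, 1] p + (H p [2, 4, 1, 1] p + 0))))))))))))))))))))))))))) = (-1) ^ 2 * H p [2, 4, 1, 1] p :=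
    shw_rel [4, 1, 1] 2 [] (by decide) (by decide)
  have r351 : H p [5, 1, 2] p + (H p [5, 2, 1] p + (H p [5, 2, 1] p + (H p [6, 1, 1] p + (H p [6, 1, 1] p + (H p [6, 1, 1] p + (H p [6, 1, 1] p + (H p [6, 1, 1] p + (H p [6, 1, 1] p + (H p [5, 2, 1] p + (H p [6, 1, 1] p + (H p [6, 1, 1] p + (H p [6, 1, 1] p + (H p [5, 2, 1] p + (H p [4, 3, 1] p + (H p [6, 1, 1] p + (H p [6, 1, 1] p + (H p [6, 1, 1] p + (H p [5, 2, 1] p + (H p [4, 3, 1] p + (H p [3, 4, 1] p + (H p [6, 1, 1] p + (H p [6, 1, 1] p + (H p [6, 1, 1] p + (H p [5, 2, 1] p + (H p [4, 3, 1] p + (H p [3, 4, 1] p + (H p [2, 5, 1] p + 0))))))))))))))))))))))))))) = (-1) ^ 2 * H p [2, 5, 1] p :=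
    shw_rel [5, 1] 2 [] (by decide) (by decide)
  have r359 : H p [4, 2, 2] p + (H p [4, 3, 1] p + (H p [4, 3, 1] p + (H p [4, 3, 1] p + (H p [4, 3, 1] p + (H p [4, 2, 2] p + (H p [5, 2, 1] p + (H p [5, 2, 1] p + (H p [5, 1, 2] p + (H p [5, 1, 2] p + (H p [5, 2, 1] p + (H p [5, 2, 1] p + (H p [5, 1, 2] p + (H p [5, 1, 2] p + (H p [4, 2, 2] p + (H p [5, 2, 1] p + (H p [5, 2, 1] p + (H p [5, 1, 2] p + (H p [5, 1, 2] p + (H p [4, 2, 2] p + (H p [3, 3, 2] p + (H p [5, 2, 1] p + (H p [5, 2, 1] p + (H p [5, 1, 2] p + (H p [5, 1, 2] p + (H p [4, 2, 2] p + (H p [3, 3, 2] p + (H p [2, 4, 2] p + 0))))))))))))))))))))))))))) = (-1) ^ 2 * H p [2, 4, 2] p :=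
    shw_rel [4, 2] 2 [] (by decide) (by decide)
  linear_combination (320) * r30 + (-1280) * r15 + (160) * r182 + (-2080) * r47 + (1312) * r154 + (672) * r343 + (672) * r162 + (1344) * r168 + (672) * r114 + (-96) * r351 + (-480) * r271 + (960) * r287 + (192) * r359 + (-960) * r87 + (224) * r291 + (224) * r270 + (224) * r267 + (-448) * r175 + (-224) * r283 + (-1120) * r263 + (672) * r75 + (-672) * r107 + (-224) * r279 + (112) * r195 + (56) * r285 + (112) * r167 + (224) * r269 + (-672) * r255 + (-448) * r178 + (-672) * r99 + (672) * r180 + (672) * r55 + (-672) * r218 + (112) * r173 + (224) * r201 + (-336) * r102 + (-336) * r176 + (152) * e8_62 hp + (1856) * e8_95 hp + (704) * e8_111 hp + (-672) * e8_122 hp + (144) * e8_119 hp + (21) * e8_85 hp + (336) * e8_123 hp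

theorem e8_120 (hp : 9 < p) : ((4224 : ℤ) : ZMod p) * H p [1, 1, 1, 5] p = ((4224 : ℤ) : ZMod p) * H p [6, 1, 1] p + ((-1056 : ℤ) : ZMod p) * H p [5, 2, 1] p := by
  have r141 : H p [5, 1, 1, 1] p = (-1) ^ 8 * H p [1, 1, 1, 5] p :=
    rev_rel [5, 1, 1, 1]
  linear_combination (-4224) * r141 + (1) * e8_15 hp

theorem e8_30 (hp : 9 < p) : ((8448 : ℤ) : ZMod p) * H p [1, 5, 1, 1] p = ((-8448 : ℤ) : ZMod p) * H p [6, 1, 1] p + ((2112 : ℤ) : ZMod p) * H p [5, 2, 1] p := by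
  have r120 : H p [5, 1, 1, 1] p + (H p [6, 1, 1] p + (H p [1, 5, 1, 1] p + (H p [1, 6, 1] p + (H p [1, 1, 5, 1] p + (H p [1, 1, 6] p + (H p [1, 1, 1, 5] p + 0)))))) = 0 :=
    st_rel (a := 5) (by omega) (by omega) [1, 1, 1]
  have r154 : H p [1, 5, 1, 1] p = (-1) ^ 8 * H p [1, 1, 5, 1] p :=
    rev_rel [1, 5, 1, 1]
  linear_combination (4224) * r120 + (4224) * r154 + (-1) * e8_15 hp + (-2112) * e8_62 hp + (-4224) * e8_124 hp + (-1) * e8_120 hp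

theorem e8_60 (hp : 9 < p) : ((8448 : ℤ) : ZMod p) * H p [1, 1, 5, 1] p = ((-8448 : ℤ) : ZMod p) * H p [6, 1, 1] p + ((2112 : ℤ) : ZMod p) * H p [5, 2, 1] p := by
  have r154 : H p [1, 5, 1, 1] p = (-1) ^ 8 * H p [1, 1, 5, 1] p :=
    rev_rel [1, 5, 1, 1]
  linear_combination (-8448) * r154 + (1) * e8_30 hp

theorem e8_79 (hp : 9 < p) : ((8448 : ℤ) : ZMod p) * H p [5, 1, 2] p = ((-25344 : ℤ) : ZMod p) * H p [6, 1, 1] p + ((-4224 : ℤ) : ZMod p) * H p [5, 2, 1] p := by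
  have r15 : H p [1, 5, 1, 1] p + (H p [6, 1, 1] p + (H p [5, 1, 1, 1] p + (H p [5, 2, 1] p + (H p [5, 1, 1, 1] p + (H p [5, 1, 2] p + (H p [5, 1, 1, 1] p + 0)))))) = 0 :=
    st_rel (a := 1) (by omega) (by omega) [5, 1, 1]
  linear_combination (8448) * r15 + (-1) * e8_30 hp + (-6) * e8_15 hp

theorem e8_121 (hp : 9 < p) : ((8448 : ℤ) : ZMod p) * H p [2, 1, 5] p = ((-25344 : ℤ) : ZMod p) * H p [6, 1, 1] p + ((-4224 : ℤ) : ZMod p) * H p [5, 2, 1] p := by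
  have r197 : H p [5, 1, 2] p = (-1) ^ 8 * H p [2, 1, 5] p :=
    rev_rel [5, 1, 2]
  linear_combination (-8448) * r197 + (1) * e8_79 hp

theorem e8_94 (hp : 9 < p) : ((8448 : ℤ) : ZMod p) * H p [1, 5, 2] p = ((25344 : ℤ) : ZMod p) * H p [6, 1, 1] p + ((-4224 : ℤ) : ZMod p) * H p [5, 2, 1] p := by
  have r47 : H p [1, 5, 2] p + (H p [6, 2] p + (H p [5, 1, 2] p + (H p [5, 3] p + (H p [5, 2, 1] p + 0)))) = 0 :=
    st_rel (a := 1) (by omega) (by omega) [5, 2]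
  linear_combination (8448) * r47 + (-4224) * e8_95 hp + (-1) * e8_79 hp + (-4224) * e8_111 hp

theorem e8_61 (hp : 9 < p) : ((8448 : ℤ) : ZMod p) * H p [2, 5, 1] p = ((25344 : ℤ) : ZMod p) * H p [6, 1, 1] p + ((-4224 : ℤ) : ZMod p) * H p [5, 2, 1] p := by
  have r182 : H p [2, 5, 1] p = (-1) ^ 8 * H p [1, 5, 2] p :=
    rev_rel [2, 5, 1]
  linear_combination (8448) * r182 + (1) * e8_94 hp

theorem e8_55 (hp : 9 < p) : ((8448 : ℤ) : ZMod p) * H p [4, 3, 1] p = ((-67584 : ℤ) : ZMod p) * H p [6, 1, 1] p + ((-38016 : ℤ) : ZMod p) * H p [5, 2, 1] p := by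
  have r271 : H p [1, 6, 1] p + (H p [2, 5, 1] p + (H p [3, 4, 1] p + (H p [4, 3, 1] p + (H p [5, 2, 1] p + (H p [6, 1, 1] p + (H p [6, 1, 1] p + (H p [6, 1, 1] p + 0))))))) = -H p [1, 6, 1] p :=
    sh_rel [6, 1]
  have r351 : H p [5, 1, 2] p + (H p [5, 2, 1] p + (H p [5, 2, 1] p + (H p [6, 1, 1] p + (H p [6, 1, 1] p + (H p [6, 1, 1] p + (H p [6, 1, 1] p + (H p [6, 1, 1] p + (H p [6, 1, 1] p + (H p [5, 2, 1] p + (H p [6, 1, 1] p + (H p [6, 1, 1] p + (H p [6, 1, 1] p + (H p [5, 2, 1] p + (H p [4, 3, 1] p + (H p [6, 1, 1] p + (H p [6, 1, 1] p + (H p [6, 1, 1] p + (H p [5, 2, 1] p + (H p [4, 3, 1] p + (H p [3, 4, 1] p + (H p [6, 1, 1] p + (H p [6, 1, 1] p + (H p [6, 1, 1] p + (H p [5, 2, 1] p + (H p [4, 3, 1] p + (H p [3, 4, 1] p + (H p [2, 5, 1] p + 0))))))))))))))))))))))))))) = (-1) ^ 2 * H p [2, 5, 1] p :=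
    shw_rel [5, 1] 2 [] (by decide) (by decide)
  linear_combination (8448) * r351 + (-16896) * r271 + (-1) * e8_79 hp + (16896) * e8_62 hp + (2) * e8_61 hp

theorem e8_118 (hp : 9 < p) : ((8448 : ℤ) : ZMod p) * H p [1, 3, 4] p = ((-67584 : ℤ) : ZMod p) * H p [6, 1, 1] p + ((-38016 : ℤ) : ZMod p) * H p [5, 2, 1] p := by
  have r176 : H p [4, 3, 1] p = (-1) ^ 8 * H p [1, 3, 4] p :=
    rev_rel [4, 3, 1]
  linear_combination (-8448) * r176 + (1) * e8_55 hp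

theorem e8_59 (hp : 9 < p) : ((8448 : ℤ) : ZMod p) * H p [3, 4, 1] p = ((50688 : ℤ) : ZMod p) * H p [6, 1, 1] p + ((33792 : ℤ) : ZMod p) * H p [5, 2, 1] p := by
  have r271 : H p [1, 6, 1] p + (H p [2, 5, 1] p + (H p [3, 4, 1] p + (H p [4, 3, 1] p + (H p [5, 2, 1] p + (H p [6, 1, 1] p + (H p [6, 1, 1] p + (H p [6, 1, 1] p + 0))))))) = -H p [1, 6, 1] p :=
    sh_rel [6, 1]
  linear_combination (8448) * r271 + (-8448) * e8_62 hp + (-1) * e8_61 hp + (-1) * e8_55 hp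

theorem e8_110 (hp : 9 < p) : ((8448 : ℤ) : ZMod p) * H p [1, 4, 3] p = ((50688 : ℤ) : ZMod p) * H p [6, 1, 1] p + ((33792 : ℤ) : ZMod p) * H p [5, 2, 1] p := by
  have r180 : H p [3, 4, 1] p = (-1) ^ 8 * H p [1, 4, 3] p :=
    rev_rel [3, 4, 1]
  linear_combination (-8448) * r180 + (1) * e8_59 hp

theorem e8_103 (hp : 9 < p) : ((8448 : ℤ) : ZMod p) * H p [4, 1, 3] p = ((16896 : ℤ) : ZMod p) * H p [6, 1, 1] p + ((4224 : ℤ) : ZMod p) * H p [5, 2, 1] p := by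
  have r55 : H p [1, 4, 3] p + (H p [5, 3] p + (H p [4, 1, 3] p + (H p [4, 4] p + (H p [4, 3, 1] p + 0)))) = 0 :=
    st_rel (a := 1) (by omega) (by omega) [4, 3]
  linear_combination (8448) * r55 + (-1) * e8_110 hp + (-4224) * e8_111 hp + (-4224) * e8_119 hp + (-1) * e8_55 hp

theorem e8_115 (hp : 9 < p) : ((8448 : ℤ) : ZMod p) * H p [3, 1, 4] p = ((16896 : ℤ) : ZMod p) * H p [6, 1, 1] p + ((4224 : ℤ) : ZMod p) * H p [5, 2, 1] p := by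
  have r218 : H p [4, 1, 3] p = (-1) ^ 8 * H p [3, 1, 4] p :=
    rev_rel [4, 1, 3]
  linear_combination (-8448) * r218 + (1) * e8_103 hp

theorem e8_87 (hp : 9 < p) : ((14784 : ℤ) : ZMod p) * H p [4, 2, 2] p = ((118272 : ℤ) : ZMod p) * H p [6, 1, 1] p + ((29568 : ℤ) : ZMod p) * H p [5, 2, 1] p := by
  have r87 : H p [2, 4, 2] p + (H p [6, 2] p + (H p [4, 2, 2] p + (H p [4, 4] p + (H p [4, 2, 2] p + 0)))) = 0 :=
    st_rel (a := 2) (by omega) (by omega) [4, 2]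
  have r287 : H p [1, 5, 2] p + (H p [2, 4, 2] p + (H p [3, 3, 2] p + (H p [4, 2, 2] p + (H p [5, 1, 2] p + (H p [5, 1, 2] p + (H p [5, 2, 1] p + (H p [5, 2, 1] p + 0))))))) = -H p [1, 5, 2] p :=
    sh_rel [5, 2]
  have r359 : H p [4, 2, 2] p + (H p [4, 3, 1] p + (H p [4, 3, 1] p + (H p [4, 3, 1] p + (H p [4, 3, 1] p + (H p [4, 2, 2] p + (H p [5, 2, 1] p + (H p [5, 2, 1] p + (H p [5, 1, 2] p + (H p [5, 1, 2] p + (H p [5, 2, 1] p + (H p [5, 2, 1] p + (H p [5, 1, 2] p + (H p [5, 1, 2] p + (H p [4, 2, 2] p + (H p [5, 2, 1] p + (H p [5, 2, 1] p + (H p [5, 1, 2] p + (H p [5, 1, 2] p + (H p [4, 2, 2] p + (H p [3, 3, 2] p + (H p [5, 2, 1] p + (H p [5, 2, 1] p + (H p [5, 1, 2] p + (H p [5, 1, 2] p + (H p [4, 2, 2] p + (H p [3, 3, 2] p + (H p [2, 4, 2] p + 0))))))))))))))))))))))))))) = (-1) ^ 2 * H p [2, 4, 2] p :=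
    shw_rel [4, 2] 2 [] (by decide) (by decide)
  linear_combination (-4224) * r287 + (2112) * r359 + (4224) * r87 + (1) * e8_94 hp + (-1) * e8_79 hp + (-1) * e8_55 hp + (-2112) * e8_95 hp + (-2112) * e8_119 hp

theorem e8_117 (hp : 9 < p) : ((14784 : ℤ) : ZMod p) * H p [2, 2, 4] p = ((118272 : ℤ) : ZMod p) * H p [6, 1, 1] p + ((29568 : ℤ) : ZMod p) * H p [5, 2, 1] p := by
  have r204 : H p [4, 2, 2] p = (-1) ^ 8 * H p [2, 2, 4] p :=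
    rev_rel [4, 2, 2]
  linear_combination (-14784) * r204 + (1) * e8_87 hp

theorem e8_93 (hp : 9 < p) : ((7392 : ℤ) : ZMod p) * H p [2, 4, 2] p = ((-118272 : ℤ) : ZMod p) * H p [6, 1, 1] p + ((-29568 : ℤ) : ZMod p) * H p [5, 2, 1] p := by
  have r87 : H p [2, 4, 2] p + (H p [6, 2] p + (H p [4, 2, 2] p + (H p [4, 4] p + (H p [4, 2, 2] p + 0)))) = 0 :=
    st_rel (a := 2) (by omega) (by omega) [4, 2]
  linear_combination (7392) * r87 + (-3696) * e8_95 hp + (-1) * e8_87 hp + (-3696) * e8_119 hp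

theorem e8_91 (hp : 9 < p) : ((29568 : ℤ) : ZMod p) * H p [3, 3, 2] p = ((236544 : ℤ) : ZMod p) * H p [6, 1, 1] p + ((59136 : ℤ) : ZMod p) * H p [5, 2, 1] p := by
  have r287 : H p [1, 5, 2] p + (H p [2, 4, 2] p + (H p [3, 3, 2] p + (H p [4, 2, 2] p + (H p [5, 1, 2] p + (H p [5, 1, 2] p + (H p [5, 2, 1] p + (H p [5, 2, 1] p + 0))))))) = -H p [1, 5, 2] p :=
    sh_rel [5, 2]
  linear_combination (29568) * r287 + (-7) * e8_94 hp + (-4) * e8_93 hp + (-2) * e8_87 hp + (-7) * e8_79 hp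

theorem e8_109 (hp : 9 < p) : ((29568 : ℤ) : ZMod p) * H p [2, 3, 3] p = ((236544 : ℤ) : ZMod p) * H p [6, 1, 1] p + ((59136 : ℤ) : ZMod p) * H p [5, 2, 1] p := by
  have r208 : H p [3, 3, 2] p = (-1) ^ 8 * H p [2, 3, 3] p :=
    rev_rel [3, 3, 2]
  linear_combination (-29568) * r208 + (1) * e8_91 hp

theorem e8_107 (hp : 9 < p) : ((29568 : ℤ) : ZMod p) * H p [3, 2, 3] p = ((-473088 : ℤ) : ZMod p) * H p [6, 1, 1] p + ((-118272 : ℤ) : ZMod p) * H p [5, 2, 1] p := by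
  have r91 : H p [2, 3, 3] p + (H p [5, 3] p + (H p [3, 2, 3] p + (H p [3, 5] p + (H p [3, 3, 2] p + 0)))) = 0 :=
    st_rel (a := 2) (by omega) (by omega) [3, 3]
  linear_combination (29568) * r91 + (-1) * e8_109 hp + (-14784) * e8_111 hp + (-14784) * e8_123 hp + (-1) * e8_91 hp

theorem e8_27 (hp : 9 < p) : ((236544 : ℤ) : ZMod p) * H p [3, 3, 1, 1] p = ((-1774080 : ℤ) : ZMod p) * H p [6, 1, 1] p + ((-709632 : ℤ) : ZMod p) * H p [5, 2, 1] p := by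
  have r51 : H p [1, 3, 1, 3] p + (H p [4, 1, 3] p + (H p [3, 1, 1, 3] p + (H p [3, 2, 3] p + (H p [3, 1, 1, 3] p + (H p [3, 1, 4] p + (H p [3, 1, 3, 1] p + 0)))))) = 0 :=
    st_rel (a := 1) (by omega) (by omega) [3, 1, 3]
  have r99 : H p [3, 3, 1, 1] p + (H p [6, 1, 1] p + (H p [3, 3, 1, 1] p + (H p [3, 4, 1] p + (H p [3, 1, 3, 1] p + (H p [3, 1, 4] p + (H p [3, 1, 1, 3] p + 0)))))) = 0 :=
    st_rel (a := 3) (by omega) (by omega) [3, 1, 1]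
  have r173 : H p [3, 1, 3, 1] p = (-1) ^ 8 * H p [1, 3, 1, 3] p :=
    rev_rel [3, 1, 3, 1]
  linear_combination (118272) * r99 + (-59136) * r173 + (-59136) * r51 + (-14) * e8_59 hp + (-7) * e8_115 hp + (7) * e8_103 hp + (2) * e8_107 hp

theorem e8_108 (hp : 9 < p) : ((236544 : ℤ) : ZMod p) * H p [1, 1, 3, 3] p = ((-1774080 : ℤ) : ZMod p) * H p [6, 1, 1] p + ((-709632 : ℤ) : ZMod p) * H p [5, 2, 1] p := by
  have r152 : H p [3, 3, 1, 1] p = (-1) ^ 8 * H p [1, 1, 3, 3] p :=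
    rev_rel [3, 3, 1, 1]
  linear_combination (-236544) * r152 + (1) * e8_27 hp

theorem e8_57 (hp : 9 < p) : ((236544 : ℤ) : ZMod p) * H p [2, 1, 4, 1] p = ((-827904 : ℤ) : ZMod p) * H p [6, 1, 1] p + ((-236544 : ℤ) : ZMod p) * H p [5, 2, 1] p := by
  have r23 : H p [1, 4, 2, 1] p + (H p [5, 2, 1] p + (H p [4, 1, 2, 1] p + (H p [4, 3, 1] p + (H p [4, 2, 1, 1] p + (H p [4, 2, 2] p + (H p [4, 2, 1, 1] p + 0)))))) = 0 :=
    st_rel (a := 1) (by omega) (by omega) [4, 2, 1]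
  have r29 : H p [1, 2, 4, 1] p + (H p [3, 4, 1] p + (H p [2, 1, 4, 1] p + (H p [2, 5, 1] p + (H p [2, 4, 1, 1] p + (H p [2, 4, 2] p + (H p [2, 4, 1, 1] p + 0)))))) = 0 :=
    st_rel (a := 1) (by omega) (by omega) [2, 4, 1]
  have r39 : H p [1, 4, 1, 2] p + (H p [5, 1, 2] p + (H p [4, 1, 1, 2] p + (H p [4, 2, 2] p + (H p [4, 1, 1, 2] p + (H p [4, 1, 3] p + (H p [4, 1, 2, 1] p + 0)))))) = 0 :=
    st_rel (a := 1) (by omega) (by omega) [4, 1, 2]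
  have r168 : H p [1, 4, 2, 1] p = (-1) ^ 8 * H p [1, 2, 4, 1] p :=
    rev_rel [1, 4, 2, 1]
  have r178 : H p [2, 1, 4, 1] p = (-1) ^ 8 * H p [1, 4, 1, 2] p :=
    rev_rel [2, 1, 4, 1]
  have r255 : H p [1, 5, 1, 1] p + (H p [2, 4, 1, 1] p + (H p [3, 3, 1, 1] p + (H p [4, 2, 1, 1] p + (H p [5, 1, 1, 1] p + (H p [5, 1, 1, 1] p + (H p [5, 1, 1, 1] p + (H p [5, 1, 1, 1] p + 0))))))) = -H p [1, 5, 1, 1] p :=
    sh_rel [5, 1, 1]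
  have r343 : H p [4, 1, 1, 2] p + (H p [4, 1, 2, 1] p + (H p [4, 1, 2, 1] p + (H p [4, 2, 1, 1] p + (H p [4, 2, 1, 1] p + (H p [4, 2, 1, 1] p + (H p [5, 1, 1, 1] p + (H p [5, 1, 1, 1] p + (H p [5, 1, 1, 1] p + (H p [5, 1, 1, 1] p + (H p [5, 1, 1, 1] p + (H p [5, 1, 1, 1] p + (H p [5, 1, 1, 1] p + (H p [5, 1, 1, 1] p + (H p [4, 2, 1, 1] p + (H p [5, 1, 1, 1] p + (H p [5, 1, 1, 1] p + (H p [5, 1, 1, 1] p + (H p [5, 1, 1, 1] p + (H p [4, 2, 1, 1] p + (H p [3, 3, 1, 1] p + (H p [5, 1, 1, 1] p + (H p [5, 1, 1, 1] p + (H p [5, 1, 1, 1] p + (H p [5, 1, 1, 1] p + (H p [4, 2, 1, 1] p + (H p [3, 3, 1, 1] p + (H p [2, 4, 1, 1] p + 0))))))))))))))))))))))))))) = (-1) ^ 2 * H p [2, 4, 1, 1] p :=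
    shw_rel [4, 1, 1] 2 [] (by decide) (by decide)
  linear_combination (354816) * r29 + (-709632) * r255 + (-354816) * r23 + (354816) * r168 + (236544) * r343 + (-118272) * r39 + (-118272) * r178 + (-42) * e8_59 hp + (-42) * e8_61 hp + (-48) * e8_93 hp + (168) * e8_30 hp + (1) * e8_27 hp + (-224) * e8_15 hp + (42) * e8_55 hp + (32) * e8_87 hp + (14) * e8_79 hp + (14) * e8_103 hp

theorem e8_78 (hp : 9 < p) : ((236544 : ℤ) : ZMod p) * H p [1, 4, 1, 2] p = ((-827904 : ℤ) : ZMod p) * H p [6, 1, 1] p + ((-236544 : ℤ) : ZMod p) * H p [5, 2, 1] p := by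
  have r178 : H p [2, 1, 4, 1] p = (-1) ^ 8 * H p [1, 4, 1, 2] p :=
    rev_rel [2, 1, 4, 1]
  linear_combination (-236544) * r178 + (1) * e8_57 hp

theorem e8_46 (hp : 9 < p) : ((473088 : ℤ) : ZMod p) * H p [1, 4, 2, 1] p = ((-709632 : ℤ) : ZMod p) * H p [6, 1, 1] p + ((-1419264 : ℤ) : ZMod p) * H p [5, 2, 1] p := by
  have r78 : H p [2, 1, 4, 1] p + (H p [3, 4, 1] p + (H p [1, 2, 4, 1] p + (H p [1, 6, 1] p + (H p [1, 4, 2, 1] p + (H p [1, 4, 3] p + (H p [1, 4, 1, 2] p + 0)))))) = 0 :=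
    st_rel (a := 2) (by omega) (by omega) [1, 4, 1]
  have r168 : H p [1, 4, 2, 1] p = (-1) ^ 8 * H p [1, 2, 4, 1] p :=
    rev_rel [1, 4, 2, 1]
  linear_combination (236544) * r168 + (236544) * r78 + (-1) * e8_57 hp + (-28) * e8_59 hp + (-118272) * e8_62 hp + (-28) * e8_110 hp + (-1) * e8_78 hp

theorem e8_58 (hp : 9 < p) : ((473088 : ℤ) : ZMod p) * H p [1, 2, 4, 1] p = ((-709632 : ℤ) : ZMod p) * H p [6, 1, 1] p + ((-1419264 : ℤ) : ZMod p) * H p [5, 2, 1] p := by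
  have r168 : H p [1, 4, 2, 1] p = (-1) ^ 8 * H p [1, 2, 4, 1] p :=
    rev_rel [1, 4, 2, 1]
  linear_combination (-473088) * r168 + (1) * e8_46 hp

theorem e8_29 (hp : 9 < p) : ((946176 : ℤ) : ZMod p) * H p [2, 4, 1, 1] p = ((5677056 : ℤ) : ZMod p) * H p [6, 1, 1] p + ((2128896 : ℤ) : ZMod p) * H p [5, 2, 1] p := by
  have r29 : H p [1, 2, 4, 1] p + (H p [3, 4, 1] p + (H p [2, 1, 4, 1] p + (H p [2, 5, 1] p + (H p [2, 4, 1, 1] p + (H p [2, 4, 2] p + (H p [2, 4, 1, 1] p + 0)))))) = 0 :=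
    st_rel (a := 1) (by omega) (by omega) [2, 4, 1]
  linear_combination (473088) * r29 + (-1) * e8_58 hp + (-56) * e8_59 hp + (-2) * e8_57 hp + (-56) * e8_61 hp + (-64) * e8_93 hp

theorem e8_92 (hp : 9 < p) : ((946176 : ℤ) : ZMod p) * H p [1, 1, 4, 2] p = ((5677056 : ℤ) : ZMod p) * H p [6, 1, 1] p + ((2128896 : ℤ) : ZMod p) * H p [5, 2, 1] p := by
  have r153 : H p [2, 4, 1, 1] p = (-1) ^ 8 * H p [1, 1, 4, 2] p :=
    rev_rel [2, 4, 1, 1]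
  linear_combination (-946176) * r153 + (1) * e8_29 hp

theorem e8_23 (hp : 9 < p) : ((946176 : ℤ) : ZMod p) * H p [4, 2, 1, 1] p = ((-473088 : ℤ) : ZMod p) * H p [6, 1, 1] p + ((1182720 : ℤ) : ZMod p) * H p [5, 2, 1] p := by
  have r255 : H p [1, 5, 1, 1] p + (H p [2, 4, 1, 1] p + (H p [3, 3, 1, 1] p + (H p [4, 2, 1, 1] p + (H p [5, 1, 1, 1] p + (H p [5, 1, 1, 1] p + (H p [5, 1, 1, 1] p + (H p [5, 1, 1, 1] p + 0))))))) = -H p [1, 5, 1, 1] p :=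
    sh_rel [5, 1, 1]
  linear_combination (946176) * r255 + (-224) * e8_30 hp + (-1) * e8_29 hp + (-4) * e8_27 hp + (-896) * e8_15 hp

theorem e8_116 (hp : 9 < p) : ((946176 : ℤ) : ZMod p) * H p [1, 1, 2, 4] p = ((-473088 : ℤ) : ZMod p) * H p [6, 1, 1] p + ((1182720 : ℤ) : ZMod p) * H p [5, 2, 1] p := by
  have r148 : H p [4, 2, 1, 1] p = (-1) ^ 8 * H p [1, 1, 2, 4] p :=
    rev_rel [4, 2, 1, 1]
  linear_combination (-946176) * r148 + (1) * e8_23 hp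

theorem e8_39 (hp : 9 < p) : ((473088 : ℤ) : ZMod p) * H p [4, 1, 2, 1] p = ((1182720 : ℤ) : ZMod p) * H p [6, 1, 1] p + ((946176 : ℤ) : ZMod p) * H p [5, 2, 1] p := by
  have r23 : H p [1, 4, 2, 1] p + (H p [5, 2, 1] p + (H p [4, 1, 2, 1] p + (H p [4, 3, 1] p + (H p [4, 2, 1, 1] p + (H p [4, 2, 2] p + (H p [4, 2, 1, 1] p + 0)))))) = 0 :=
    st_rel (a := 1) (by omega) (by omega) [4, 2, 1]
  linear_combination (473088) * r23 + (-1) * e8_46 hp + (-56) * e8_55 hp + (-1) * e8_23 hp + (-32) * e8_87 hp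

theorem e8_114 (hp : 9 < p) : ((473088 : ℤ) : ZMod p) * H p [1, 2, 1, 4] p = ((1182720 : ℤ) : ZMod p) * H p [6, 1, 1] p + ((946176 : ℤ) : ZMod p) * H p [5, 2, 1] p := by
  have r162 : H p [4, 1, 2, 1] p = (-1) ^ 8 * H p [1, 2, 1, 4] p :=
    rev_rel [4, 1, 2, 1]
  linear_combination (-473088) * r162 + (1) * e8_39 hp

theorem e8_71 (hp : 9 < p) : ((946176 : ℤ) : ZMod p) * H p [4, 1, 1, 2] p = ((-2838528 : ℤ) : ZMod p) * H p [6, 1, 1] p + ((-1419264 : ℤ) : ZMod p) * H p [5, 2, 1] p := by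
  have r39 : H p [1, 4, 1, 2] p + (H p [5, 1, 2] p + (H p [4, 1, 1, 2] p + (H p [4, 2, 2] p + (H p [4, 1, 1, 2] p + (H p [4, 1, 3] p + (H p [4, 1, 2, 1] p + 0)))))) = 0 :=
    st_rel (a := 1) (by omega) (by omega) [4, 1, 2]
  linear_combination (473088) * r39 + (-2) * e8_78 hp + (-56) * e8_79 hp + (-32) * e8_87 hp + (-56) * e8_103 hp + (-1) * e8_39 hp

theorem e8_113 (hp : 9 < p) : ((946176 : ℤ) : ZMod p) * H p [2, 1, 1, 4] p = ((-2838528 : ℤ) : ZMod p) * H p [6, 1, 1] p + ((-1419264 : ℤ) : ZMod p) * H p [5, 2, 1] p := by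
  have r190 : H p [4, 1, 1, 2] p = (-1) ^ 8 * H p [2, 1, 1, 4] p :=
    rev_rel [4, 1, 1, 2]
  linear_combination (-946176) * r190 + (1) * e8_71 hp

theorem e8_54 (hp : 9 < p) : ((473088 : ℤ) : ZMod p) * H p [1, 3, 3, 1] p = ((4257792 : ℤ) : ZMod p) * H p [6, 1, 1] p + ((2128896 : ℤ) : ZMod p) * H p [5, 2, 1] p := by
  have r270 : H p [1, 1, 5, 1] p + (H p [1, 1, 5, 1] p + (H p [1, 2, 4, 1] p + (H p [1, 3, 3, 1] p + (H p [1, 4, 2, 1] p + (H p [1, 5, 1, 1] p + (H p [1, 5, 1, 1] p + (H p [1, 5, 1, 1] p + 0))))))) = -H p [1, 1, 5, 1] p :=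
    sh_rel [1, 5, 1]
  linear_combination (473088) * r270 + (-168) * e8_60 hp + (-1) * e8_58 hp + (-1) * e8_46 hp + (-168) * e8_30 hp

theorem e8_51 (hp : 9 < p) : ((473088 : ℤ) : ZMod p) * H p [3, 1, 3, 1] p = ((0 : ℤ) : ZMod p) * H p [6, 1, 1] p + ((0 : ℤ) : ZMod p) * H p [5, 2, 1] p := by
  have r27 : H p [1, 3, 3, 1] p + (H p [4, 3, 1] p + (H p [3, 1, 3, 1] p + (H p [3, 4, 1] p + (H p [3, 3, 1, 1] p + (H p [3, 3, 2] p + (H p [3, 3, 1, 1] p + 0)))))) = 0 :=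
    st_rel (a := 1) (by omega) (by omega) [3, 3, 1]
  linear_combination (473088) * r27 + (-1) * e8_54 hp + (-56) * e8_55 hp + (-56) * e8_59 hp + (-4) * e8_27 hp + (-16) * e8_91 hp

theorem e8_102 (hp : 9 < p) : ((473088 : ℤ) : ZMod p) * H p [1, 3, 1, 3] p = ((0 : ℤ) : ZMod p) * H p [6, 1, 1] p + ((0 : ℤ) : ZMod p) * H p [5, 2, 1] p := by
  have r173 : H p [3, 1, 3, 1] p = (-1) ^ 8 * H p [1, 3, 1, 3] p :=
    rev_rel [3, 1, 3, 1]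
  linear_combination (-473088) * r173 + (1) * e8_51 hp

theorem e8_99 (hp : 9 < p) : ((946176 : ℤ) : ZMod p) * H p [3, 1, 1, 3] p = ((5677056 : ℤ) : ZMod p) * H p [6, 1, 1] p + ((1419264 : ℤ) : ZMod p) * H p [5, 2, 1] p := by
  have r51 : H p [1, 3, 1, 3] p + (H p [4, 1, 3] p + (H p [3, 1, 1, 3] p + (H p [3, 2, 3] p + (H p [3, 1, 1, 3] p + (H p [3, 1, 4] p + (H p [3, 1, 3, 1] p + 0)))))) = 0 :=
    st_rel (a := 1) (by omega) (by omega) [3, 1, 3]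
  linear_combination (473088) * r51 + (-1) * e8_102 hp + (-56) * e8_103 hp + (-16) * e8_107 hp + (-56) * e8_115 hp + (-1) * e8_51 hp

theorem e8_43 (hp : 9 < p) : ((1892352 : ℤ) : ZMod p) * H p [3, 2, 2, 1] p = ((11354112 : ℤ) : ZMod p) * H p [6, 1, 1] p + ((-2838528 : ℤ) : ZMod p) * H p [5, 2, 1] p := by
  have r263 : H p [1, 4, 2, 1] p + (H p [2, 3, 2, 1] p + (H p [3, 2, 2, 1] p + (H p [4, 1, 2, 1] p + (H p [4, 1, 2, 1] p + (H p [4, 2, 1, 1] p + (H p [4, 2, 1, 1] p + (H p [4, 2, 1, 1] p + 0))))))) = -H p [1, 4, 2, 1] p :=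
    sh_rel [4, 2, 1]
  have r267 : H p [1, 3, 3, 1] p + (H p [2, 2, 3, 1] p + (H p [3, 1, 3, 1] p + (H p [3, 1, 3, 1] p + (H p [3, 2, 2, 1] p + (H p [3, 3, 1, 1] p + (H p [3, 3, 1, 1] p + (H p [3, 3, 1, 1] p + 0))))))) = -H p [1, 3, 3, 1] p :=
    sh_rel [3, 3, 1]
  have r269 : H p [1, 2, 4, 1] p + (H p [2, 1, 4, 1] p + (H p [2, 1, 4, 1] p + (H p [2, 2, 3, 1] p + (H p [2, 3, 2, 1] p + (H p [2, 4, 1, 1] p + (H p [2, 4, 1, 1] p + (H p [2, 4, 1, 1] p + 0))))))) = -H p [1, 2, 4, 1] p :=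
    sh_rel [2, 4, 1]
  linear_combination (-946176) * r269 + (946176) * r263 + (946176) * r267 + (4) * e8_58 hp + (8) * e8_57 hp + (3) * e8_29 hp + (-4) * e8_46 hp + (-4) * e8_39 hp + (-3) * e8_23 hp + (-4) * e8_54 hp + (-4) * e8_51 hp + (-12) * e8_27 hp

theorem e8_106 (hp : 9 < p) : ((1892352 : ℤ) : ZMod p) * H p [1, 2, 2, 3] p = ((11354112 : ℤ) : ZMod p) * H p [6, 1, 1] p + ((-2838528 : ℤ) : ZMod p) * H p [5, 2, 1] p := by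
  have r165 : H p [3, 2, 2, 1] p = (-1) ^ 8 * H p [1, 2, 2, 3] p :=
    rev_rel [3, 2, 2, 1]
  linear_combination (-1892352) * r165 + (1) * e8_43 hp

theorem e8_45 (hp : 9 < p) : ((1892352 : ℤ) : ZMod p) * H p [2, 3, 2, 1] p = ((-12300288 : ℤ) : ZMod p) * H p [6, 1, 1] p + ((-473088 : ℤ) : ZMod p) * H p [5, 2, 1] p := by
  have r263 : H p [1, 4, 2, 1] p + (H p [2, 3, 2, 1] p + (H p [3, 2, 2, 1] p + (H p [4, 1, 2, 1] p + (H p [4, 1, 2, 1] p + (H p [4, 2, 1, 1] p + (H p [4, 2, 1, 1] p + (H p [4, 2, 1, 1] p + 0))))))) = -H p [1, 4, 2, 1] p :=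
    sh_rel [4, 2, 1]
  linear_combination (1892352) * r263 + (-8) * e8_46 hp + (-1) * e8_43 hp + (-8) * e8_39 hp + (-6) * e8_23 hp

theorem e8_90 (hp : 9 < p) : ((1892352 : ℤ) : ZMod p) * H p [1, 2, 3, 2] p = ((-12300288 : ℤ) : ZMod p) * H p [6, 1, 1] p + ((-473088 : ℤ) : ZMod p) * H p [5, 2, 1] p := by
  have r167 : H p [2, 3, 2, 1] p = (-1) ^ 8 * H p [1, 2, 3, 2] p :=
    rev_rel [2, 3, 2, 1]
  linear_combination (-1892352) * r167 + (1) * e8_45 hp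

theorem e8_75 (hp : 9 < p) : ((1892352 : ℤ) : ZMod p) * H p [3, 2, 1, 2] p = ((8515584 : ℤ) : ZMod p) * H p [6, 1, 1] p + ((4257792 : ℤ) : ZMod p) * H p [5, 2, 1] p := by
  have r75 : H p [2, 3, 2, 1] p + (H p [5, 2, 1] p + (H p [3, 2, 2, 1] p + (H p [3, 4, 1] p + (H p [3, 2, 2, 1] p + (H p [3, 2, 3] p + (H p [3, 2, 1, 2] p + 0)))))) = 0 :=
    st_rel (a := 2) (by omega) (by omega) [3, 2, 1]
  linear_combination (1892352) * r75 + (-1) * e8_45 hp + (-2) * e8_43 hp + (-224) * e8_59 hp + (-64) * e8_107 hp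

theorem e8_105 (hp : 9 < p) : ((1892352 : ℤ) : ZMod p) * H p [2, 1, 2, 3] p = ((8515584 : ℤ) : ZMod p) * H p [6, 1, 1] p + ((4257792 : ℤ) : ZMod p) * H p [5, 2, 1] p := by
  have r193 : H p [3, 2, 1, 2] p = (-1) ^ 8 * H p [2, 1, 2, 3] p :=
    rev_rel [3, 2, 1, 2]
  linear_combination (-1892352) * r193 + (1) * e8_75 hp

theorem e8_53 (hp : 9 < p) : ((1892352 : ℤ) : ZMod p) * H p [2, 2, 3, 1] p = ((-2838528 : ℤ) : ZMod p) * H p [6, 1, 1] p + ((2838528 : ℤ) : ZMod p) * H p [5, 2, 1] p := by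
  have r267 : H p [1, 3, 3, 1] p + (H p [2, 2, 3, 1] p + (H p [3, 1, 3, 1] p + (H p [3, 1, 3, 1] p + (H p [3, 2, 2, 1] p + (H p [3, 3, 1, 1] p + (H p [3, 3, 1, 1] p + (H p [3, 3, 1, 1] p + 0))))))) = -H p [1, 3, 3, 1] p :=
    sh_rel [3, 3, 1]
  linear_combination (1892352) * r267 + (-8) * e8_54 hp + (-8) * e8_51 hp + (-1) * e8_43 hp + (-24) * e8_27 hp

theorem e8_86 (hp : 9 < p) : ((1892352 : ℤ) : ZMod p) * H p [1, 3, 2, 2] p = ((-2838528 : ℤ) : ZMod p) * H p [6, 1, 1] p + ((2838528 : ℤ) : ZMod p) * H p [5, 2, 1] p := by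
  have r175 : H p [2, 2, 3, 1] p = (-1) ^ 8 * H p [1, 3, 2, 2] p :=
    rev_rel [2, 2, 3, 1]
  linear_combination (-1892352) * r175 + (1) * e8_53 hp

theorem e8_83 (hp : 9 < p) : ((1892352 : ℤ) : ZMod p) * H p [3, 1, 2, 2] p = ((-17031168 : ℤ) : ZMod p) * H p [6, 1, 1] p + ((-4257792 : ℤ) : ZMod p) * H p [5, 2, 1] p := by
  have r43 : H p [1, 3, 2, 2] p + (H p [4, 2, 2] p + (H p [3, 1, 2, 2] p + (H p [3, 3, 2] p + (H p [3, 2, 1, 2] p + (H p [3, 2, 3] p + (H p [3, 2, 2, 1] p + 0)))))) = 0 :=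
    st_rel (a := 1) (by omega) (by omega) [3, 2, 2]
  linear_combination (1892352) * r43 + (-1) * e8_86 hp + (-128) * e8_87 hp + (-64) * e8_91 hp + (-1) * e8_75 hp + (-64) * e8_107 hp + (-1) * e8_43 hp

theorem e8_101 (hp : 9 < p) : ((1892352 : ℤ) : ZMod p) * H p [2, 2, 1, 3] p = ((-17031168 : ℤ) : ZMod p) * H p [6, 1, 1] p + ((-4257792 : ℤ) : ZMod p) * H p [5, 2, 1] p := by
  have r201 : H p [3, 1, 2, 2] p = (-1) ^ 8 * H p [2, 2, 1, 3] p :=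
    rev_rel [3, 1, 2, 2]
  linear_combination (-1892352) * r201 + (1) * e8_83 hp

theorem e8_77 (hp : 9 < p) : ((1892352 : ℤ) : ZMod p) * H p [2, 3, 1, 2] p = ((12300288 : ℤ) : ZMod p) * H p [6, 1, 1] p + ((473088 : ℤ) : ZMod p) * H p [5, 2, 1] p := by
  have r77 : H p [2, 2, 3, 1] p + (H p [4, 3, 1] p + (H p [2, 2, 3, 1] p + (H p [2, 5, 1] p + (H p [2, 3, 2, 1] p + (H p [2, 3, 3] p + (H p [2, 3, 1, 2] p + 0)))))) = 0 :=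
    st_rel (a := 2) (by omega) (by omega) [2, 3, 1]
  linear_combination (1892352) * r77 + (-2) * e8_53 hp + (-224) * e8_55 hp + (-224) * e8_61 hp + (-1) * e8_45 hp + (-64) * e8_109 hp

theorem e8_89 (hp : 9 < p) : ((1892352 : ℤ) : ZMod p) * H p [2, 1, 3, 2] p = ((12300288 : ℤ) : ZMod p) * H p [6, 1, 1] p + ((473088 : ℤ) : ZMod p) * H p [5, 2, 1] p := by
  have r195 : H p [2, 3, 1, 2] p = (-1) ^ 8 * H p [2, 1, 3, 2] p :=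
    rev_rel [2, 3, 1, 2]
  linear_combination (-1892352) * r195 + (1) * e8_77 hp

theorem e8_21 (hp : 9 < p) : ((5677056 : ℤ) : ZMod p) * H p [2, 2, 2, 1, 1] p = ((22708224 : ℤ) : ZMod p) * H p [6, 1, 1] p + ((2838528 : ℤ) : ZMod p) * H p [5, 2, 1] p := by
  have r69 : H p [2, 2, 2, 1, 1] p + (H p [4, 2, 1, 1] p + (H p [2, 2, 2, 1, 1] p + (H p [2, 4, 1, 1] p + (H p [2, 2, 2, 1, 1] p + (H p [2, 2, 3, 1] p + (H p [2, 2, 1, 2, 1] p + (H p [2, 2, 1, 3] p + (H p [2, 2, 1, 1, 2] p + 0)))))))) = 0 :=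
    st_rel (a := 2) (by omega) (by omega) [2, 2, 1, 1]
  have r73 : H p [2, 2, 1, 2, 1] p + (H p [4, 1, 2, 1] p + (H p [2, 2, 1, 2, 1] p + (H p [2, 3, 2, 1] p + (H p [2, 1, 2, 2, 1] p + (H p [2, 1, 4, 1] p + (H p [2, 1, 2, 2, 1] p + (H p [2, 1, 2, 3] p + (H p [2, 1, 2, 1, 2] p + 0)))))))) = 0 :=
    st_rel (a := 2) (by omega) (by omega) [2, 1, 2, 1]
  have r74 : H p [2, 1, 2, 2, 1] p + (H p [3, 2, 2, 1] p + (H p [1, 2, 2, 2, 1] p + (H p [1, 4, 2, 1] p + (H p [1, 2, 2, 2, 1] p + (H p [1, 2, 4, 1] p + (H p [1, 2, 2, 2, 1] p + (H p [1, 2, 2, 3] p + (H p [1, 2, 2, 1, 2] p + 0)))))))) = 0 :=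
    st_rel (a := 2) (by omega) (by omega) [1, 2, 2, 1]
  have r81 : H p [2, 2, 1, 1, 2] p + (H p [4, 1, 1, 2] p + (H p [2, 2, 1, 1, 2] p + (H p [2, 3, 1, 2] p + (H p [2, 1, 2, 1, 2] p + (H p [2, 1, 3, 2] p + (H p [2, 1, 1, 2, 2] p + (H p [2, 1, 1, 4] p + (H p [2, 1, 1, 2, 2] p + 0)))))))) = 0 :=
    st_rel (a := 2) (by omega) (by omega) [2, 1, 1, 2]
  have r164 : H p [2, 1, 2, 2, 1] p = (-1) ^ 8 * H p [1, 2, 2, 1, 2] p :=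
    rev_rel [2, 1, 2, 2, 1]
  have r188 : H p [2, 2, 1, 1, 2] p = (-1) ^ 8 * H p [2, 1, 1, 2, 2] p :=
    rev_rel [2, 2, 1, 1, 2]
  have r261 : H p [1, 2, 2, 2, 1] p + (H p [2, 1, 2, 2, 1] p + (H p [2, 1, 2, 2, 1] p + (H p [2, 2, 1, 2, 1] p + (H p [2, 2, 1, 2, 1] p + (H p [2, 2, 2, 1, 1] p + (H p [2, 2, 2, 1, 1] p + (H p [2, 2, 2, 1, 1] p + 0))))))) = -H p [1, 2, 2, 2, 1] p :=
    sh_rel [2, 2, 2, 1]
  linear_combination (-5677056) * r261 + (-1892352) * r81 + (7569408) * r69 + (-3784704) * r188 + (1892352) * r73 + (3784704) * r74 + (3784704) * r164 + (2) * e8_71 hp + (1) * e8_77 hp + (1) * e8_89 hp + (2) * e8_113 hp + (-8) * e8_23 hp + (-8) * e8_29 hp + (-4) * e8_53 hp + (-4) * e8_101 hp + (-4) * e8_39 hp + (-1) * e8_45 hp + (-8) * e8_57 hp + (-1) * e8_105 hp + (-2) * e8_43 hp + (-8) * e8_46 hp + (-8) * e8_58 hp + (-2) * e8_106 hp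

theorem e8_84 (hp : 9 < p) : ((5677056 : ℤ) : ZMod p) * H p [1, 1, 2, 2, 2] p = ((22708224 : ℤ) : ZMod p) * H p [6, 1, 1] p + ((2838528 : ℤ) : ZMod p) * H p [5, 2, 1] p := by
  have r146 : H p [2, 2, 2, 1, 1] p = (-1) ^ 8 * H p [1, 1, 2, 2, 2] p :=
    rev_rel [2, 2, 2, 1, 1]
  linear_combination (-5677056) * r146 + (1) * e8_21 hp

theorem e8_11 (hp : 9 < p) : ((11354112 : ℤ) : ZMod p) * H p [3, 2, 1, 1, 1] p = ((-5677056 : ℤ) : ZMod p) * H p [6, 1, 1] p + ((14192640 : ℤ) : ZMod p) * H p [5, 2, 1] p := by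
  have r11 : H p [1, 3, 2, 1, 1] p + (H p [4, 2, 1, 1] p + (H p [3, 1, 2, 1, 1] p + (H p [3, 3, 1, 1] p + (H p [3, 2, 1, 1, 1] p + (H p [3, 2, 2, 1] p + (H p [3, 2, 1, 1, 1] p + (H p [3, 2, 1, 2] p + (H p [3, 2, 1, 1, 1] p + 0)))))))) = 0 :=
    st_rel (a := 1) (by omega) (by omega) [3, 2, 1, 1]
  have r251 : H p [1, 3, 2, 1, 1] p + (H p [2, 2, 2, 1, 1] p + (H p [3, 1, 2, 1, 1] p + (H p [3, 1, 2, 1, 1] p + (H p [3, 2, 1, 1, 1] p + (H p [3, 2, 1, 1, 1] p + (H p [3, 2, 1, 1, 1] p + (H p [3, 2, 1, 1, 1] p + 0))))))) = -H p [1, 3, 2, 1, 1] p :=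
    sh_rel [3, 2, 1, 1]
  linear_combination (-5677056) * r251 + (11354112) * r11 + (1) * e8_21 hp + (-12) * e8_23 hp + (-48) * e8_27 hp + (-6) * e8_43 hp + (-6) * e8_75 hp

theorem e8_104 (hp : 9 < p) : ((11354112 : ℤ) : ZMod p) * H p [1, 1, 1, 2, 3] p = ((-5677056 : ℤ) : ZMod p) * H p [6, 1, 1] p + ((14192640 : ℤ) : ZMod p) * H p [5, 2, 1] p := by
  have r137 : H p [3, 2, 1, 1, 1] p = (-1) ^ 8 * H p [1, 1, 1, 2, 3] p :=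
    rev_rel [3, 2, 1, 1, 1]
  linear_combination (-11354112) * r137 + (1) * e8_11 hp

theorem e8_13 (hp : 9 < p) : ((11354112 : ℤ) : ZMod p) * H p [2, 3, 1, 1, 1] p = ((39739392 : ℤ) : ZMod p) * H p [6, 1, 1] p + ((11354112 : ℤ) : ZMod p) * H p [5, 2, 1] p := by
  have r13 : H p [1, 2, 3, 1, 1] p + (H p [3, 3, 1, 1] p + (H p [2, 1, 3, 1, 1] p + (H p [2, 4, 1, 1] p + (H p [2, 3, 1, 1, 1] p + (H p [2, 3, 2, 1] p + (H p [2, 3, 1, 1, 1] p + (H p [2, 3, 1, 2] p + (H p [2, 3, 1, 1, 1] p + 0)))))))) = 0 :=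
    st_rel (a := 1) (by omega) (by omega) [2, 3, 1, 1]
  have r253 : H p [1, 2, 3, 1, 1] p + (H p [2, 1, 3, 1, 1] p + (H p [2, 1, 3, 1, 1] p + (H p [2, 2, 2, 1, 1] p + (H p [2, 3, 1, 1, 1] p + (H p [2, 3, 1, 1, 1] p + (H p [2, 3, 1, 1, 1] p + (H p [2, 3, 1, 1, 1] p + 0))))))) = -H p [1, 2, 3, 1, 1] p :=
    sh_rel [2, 3, 1, 1]
  linear_combination (-5677056) * r253 + (11354112) * r13 + (1) * e8_21 hp + (-48) * e8_27 hp + (-12) * e8_29 hp + (-6) * e8_45 hp + (-6) * e8_77 hp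

theorem e8_88 (hp : 9 < p) : ((11354112 : ℤ) : ZMod p) * H p [1, 1, 1, 3, 2] p = ((39739392 : ℤ) : ZMod p) * H p [6, 1, 1] p + ((11354112 : ℤ) : ZMod p) * H p [5, 2, 1] p := by
  have r139 : H p [2, 3, 1, 1, 1] p = (-1) ^ 8 * H p [1, 1, 1, 3, 2] p :=
    rev_rel [2, 3, 1, 1, 1]
  linear_combination (-11354112) * r139 + (1) * e8_13 hp

theorem e8_7 (hp : 9 < p) : ((34062336 : ℤ) : ZMod p) * H p [4, 1, 1, 1, 1] p = ((34062336 : ℤ) : ZMod p) * H p [6, 1, 1] p + ((-8515584 : ℤ) : ZMod p) * H p [5, 2, 1] p := by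
  have r7 : H p [1, 4, 1, 1, 1] p + (H p [5, 1, 1, 1] p + (H p [4, 1, 1, 1, 1] p + (H p [4, 2, 1, 1] p + (H p [4, 1, 1, 1, 1] p + (H p [4, 1, 2, 1] p + (H p [4, 1, 1, 1, 1] p + (H p [4, 1, 1, 2] p + (H p [4, 1, 1, 1, 1] p + 0)))))))) = 0 :=
    st_rel (a := 1) (by omega) (by omega) [4, 1, 1, 1]
  have r247 : H p [1, 4, 1, 1, 1] p + (H p [2, 3, 1, 1, 1] p + (H p [3, 2, 1, 1, 1] p + (H p [4, 1, 1, 1, 1] p + (H p [4, 1, 1, 1, 1] p + (H p [4, 1, 1, 1, 1] p + (H p [4, 1, 1, 1, 1] p + (H p [4, 1, 1, 1, 1] p + 0))))))) = -H p [1, 4, 1, 1, 1] p :=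
    sh_rel [4, 1, 1, 1]
  linear_combination (-11354112) * r247 + (22708224) * r7 + (1) * e8_13 hp + (1) * e8_11 hp + (-5376) * e8_15 hp + (-24) * e8_23 hp + (-48) * e8_39 hp + (-24) * e8_71 hp

theorem e8_112 (hp : 9 < p) : ((34062336 : ℤ) : ZMod p) * H p [1, 1, 1, 1, 4] p = ((34062336 : ℤ) : ZMod p) * H p [6, 1, 1] p + ((-8515584 : ℤ) : ZMod p) * H p [5, 2, 1] p := by
  have r134 : H p [4, 1, 1, 1, 1] p = (-1) ^ 8 * H p [1, 1, 1, 1, 4] p :=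
    rev_rel [4, 1, 1, 1, 1]
  linear_combination (-34062336) * r134 + (1) * e8_7 hp

theorem e8_14 (hp : 9 < p) : ((8515584 : ℤ) : ZMod p) * H p [1, 4, 1, 1, 1] p = ((-34062336 : ℤ) : ZMod p) * H p [6, 1, 1] p + ((-4257792 : ℤ) : ZMod p) * H p [5, 2, 1] p := by
  have r7 : H p [1, 4, 1, 1, 1] p + (H p [5, 1, 1, 1] p + (H p [4, 1, 1, 1, 1] p + (H p [4, 2, 1, 1] p + (H p [4, 1, 1, 1, 1] p + (H p [4, 1, 2, 1] p + (H p [4, 1, 1, 1, 1] p + (H p [4, 1, 1, 2] p + (H p [4, 1, 1, 1, 1] p + 0)))))))) = 0 :=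
    st_rel (a := 1) (by omega) (by omega) [4, 1, 1, 1]
  linear_combination (8515584) * r7 + (-2016) * e8_15 hp + (-1) * e8_7 hp + (-9) * e8_23 hp + (-18) * e8_39 hp + (-9) * e8_71 hp

theorem e8_56 (hp : 9 < p) : ((8515584 : ℤ) : ZMod p) * H p [1, 1, 1, 4, 1] p = ((-34062336 : ℤ) : ZMod p) * H p [6, 1, 1] p + ((-4257792 : ℤ) : ZMod p) * H p [5, 2, 1] p := by
  have r140 : H p [1, 4, 1, 1, 1] p = (-1) ^ 8 * H p [1, 1, 1, 4, 1] p :=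
    rev_rel [1, 4, 1, 1, 1]
  linear_combination (-8515584) * r140 + (1) * e8_14 hp

theorem e8_28 (hp : 9 < p) : ((5677056 : ℤ) : ZMod p) * H p [1, 1, 4, 1, 1] p = ((34062336 : ℤ) : ZMod p) * H p [6, 1, 1] p + ((8515584 : ℤ) : ZMod p) * H p [5, 2, 1] p := by
  have r14 : H p [1, 1, 4, 1, 1] p + (H p [2, 4, 1, 1] p + (H p [1, 1, 4, 1, 1] p + (H p [1, 5, 1, 1] p + (H p [1, 4, 1, 1, 1] p + (H p [1, 4, 2, 1] p + (H p [1, 4, 1, 1, 1] p + (H p [1, 4, 1, 2] p + (H p [1, 4, 1, 1, 1] p + 0)))))))) = 0 :=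
    st_rel (a := 1) (by omega) (by omega) [1, 4, 1, 1]
  linear_combination (2838528) * r14 + (-3) * e8_29 hp + (-336) * e8_30 hp + (-1) * e8_14 hp + (-6) * e8_46 hp + (-12) * e8_78 hp

theorem e8_38 (hp : 9 < p) : ((17031168 : ℤ) : ZMod p) * H p [1, 3, 1, 2, 1] p = ((76640256 : ℤ) : ZMod p) * H p [6, 1, 1] p + ((38320128 : ℤ) : ZMod p) * H p [5, 2, 1] p := by
  have r22 : H p [1, 1, 3, 2, 1] p + (H p [2, 3, 2, 1] p + (H p [1, 1, 3, 2, 1] p + (H p [1, 4, 2, 1] p + (H p [1, 3, 1, 2, 1] p + (H p [1, 3, 3, 1] p + (H p [1, 3, 2, 1, 1] p + (H p [1, 3, 2, 2] p + (H p [1, 3, 2, 1, 1] p + 0)))))))) = 0 :=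
    st_rel (a := 1) (by omega) (by omega) [1, 3, 2, 1]
  have r151 : H p [1, 2, 3, 1, 1] p = (-1) ^ 8 * H p [1, 1, 3, 2, 1] p :=
    rev_rel [1, 2, 3, 1, 1]
  have r254 : H p [1, 1, 4, 1, 1] p + (H p [1, 1, 4, 1, 1] p + (H p [1, 2, 3, 1, 1] p + (H p [1, 3, 2, 1, 1] p + (H p [1, 4, 1, 1, 1] p + (H p [1, 4, 1, 1, 1] p + (H p [1, 4, 1, 1, 1] p + (H p [1, 4, 1, 1, 1] p + 0))))))) = -H p [1, 1, 4, 1, 1] p :=
    sh_rel [1, 4, 1, 1]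
  linear_combination (17031168) * r22 + (34062336) * r151 + (-34062336) * r254 + (-9) * e8_45 hp + (-36) * e8_46 hp + (-36) * e8_54 hp + (-9) * e8_86 hp + (18) * e8_28 hp + (16) * e8_14 hp

theorem e8_50 (hp : 9 < p) : ((17031168 : ℤ) : ZMod p) * H p [1, 2, 1, 3, 1] p = ((76640256 : ℤ) : ZMod p) * H p [6, 1, 1] p + ((38320128 : ℤ) : ZMod p) * H p [5, 2, 1] p := by
  have r161 : H p [1, 3, 1, 2, 1] p = (-1) ^ 8 * H p [1, 2, 1, 3, 1] p :=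
    rev_rel [1, 3, 1, 2, 1]
  linear_combination (-17031168) * r161 + (1) * e8_38 hp

theorem e8_67 (hp : 9 < p) : ((102187008 : ℤ) : ZMod p) * H p [3, 1, 1, 1, 2] p = ((-51093504 : ℤ) : ZMod p) * H p [6, 1, 1] p + ((-25546752 : ℤ) : ZMod p) * H p [5, 2, 1] p := by
  have r11 : H p [1, 3, 2, 1, 1] p + (H p [4, 2, 1, 1] p + (H p [3, 1, 2, 1, 1] p + (H p [3, 3, 1, 1] p + (H p [3, 2, 1, 1, 1] p + (H p [3, 2, 2, 1] p + (H p [3, 2, 1, 1, 1] p + (H p [3, 2, 1, 2] p + (H p [3, 2, 1, 1, 1] p + 0)))))))) = 0 :=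
    st_rel (a := 1) (by omega) (by omega) [3, 2, 1, 1]
  have r13 : H p [1, 2, 3, 1, 1] p + (H p [3, 3, 1, 1] p + (H p [2, 1, 3, 1, 1] p + (H p [2, 4, 1, 1] p + (H p [2, 3, 1, 1, 1] p + (H p [2, 3, 2, 1] p + (H p [2, 3, 1, 1, 1] p + (H p [2, 3, 1, 2] p + (H p [2, 3, 1, 1, 1] p + 0)))))))) = 0 :=
    st_rel (a := 1) (by omega) (by omega) [2, 3, 1, 1]
  have r19 : H p [1, 3, 1, 2, 1] p + (H p [4, 1, 2, 1] p + (H p [3, 1, 1, 2, 1] p + (H p [3, 2, 2, 1] p + (H p [3, 1, 1, 2, 1] p + (H p [3, 1, 3, 1] p + (H p [3, 1, 2, 1, 1] p + (H p [3, 1, 2, 2] p + (H p [3, 1, 2, 1, 1] p + 0)))))))) = 0 :=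
    st_rel (a := 1) (by omega) (by omega) [3, 1, 2, 1]
  have r22 : H p [1, 1, 3, 2, 1] p + (H p [2, 3, 2, 1] p + (H p [1, 1, 3, 2, 1] p + (H p [1, 4, 2, 1] p + (H p [1, 3, 1, 2, 1] p + (H p [1, 3, 3, 1] p + (H p [1, 3, 2, 1, 1] p + (H p [1, 3, 2, 2] p + (H p [1, 3, 2, 1, 1] p + 0)))))))) = 0 :=
    st_rel (a := 1) (by omega) (by omega) [1, 3, 2, 1]
  have r25 : H p [1, 2, 1, 3, 1] p + (H p [3, 1, 3, 1] p + (H p [2, 1, 1, 3, 1] p + (H p [2, 2, 3, 1] p + (H p [2, 1, 1, 3, 1] p + (H p [2, 1, 4, 1] p + (H p [2, 1, 3, 1, 1] p + (H p [2, 1, 3, 2] p + (H p [2, 1, 3, 1, 1] p + 0)))))))) = 0 :=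
    st_rel (a := 1) (by omega) (by omega) [2, 1, 3, 1]
  have r35 : H p [1, 3, 1, 1, 2] p + (H p [4, 1, 1, 2] p + (H p [3, 1, 1, 1, 2] p + (H p [3, 2, 1, 2] p + (H p [3, 1, 1, 1, 2] p + (H p [3, 1, 2, 2] p + (H p [3, 1, 1, 1, 2] p + (H p [3, 1, 1, 3] p + (H p [3, 1, 1, 2, 1] p + 0)))))))) = 0 :=
    st_rel (a := 1) (by omega) (by omega) [3, 1, 1, 2]
  have r151 : H p [1, 2, 3, 1, 1] p = (-1) ^ 8 * H p [1, 1, 3, 2, 1] p :=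
    rev_rel [1, 2, 3, 1, 1]
  have r171 : H p [2, 1, 1, 3, 1] p = (-1) ^ 8 * H p [1, 3, 1, 1, 2] p :=
    rev_rel [2, 1, 1, 3, 1]
  linear_combination (34062336) * r35 + (-17031168) * r19 + (-17031168) * r25 + (-17031168) * r22 + (34062336) * r11 + (34062336) * r13 + (-34062336) * r151 + (34062336) * r171 + (-36) * e8_71 hp + (-36) * e8_75 hp + (-9) * e8_83 hp + (-36) * e8_99 hp + (2) * e8_38 hp + (36) * e8_39 hp + (-9) * e8_43 hp + (72) * e8_51 hp + (1) * e8_50 hp + (9) * e8_53 hp + (72) * e8_57 hp + (9) * e8_89 hp + (-9) * e8_45 hp + (36) * e8_46 hp + (36) * e8_54 hp + (9) * e8_86 hp + (-36) * e8_23 hp + (-288) * e8_27 hp + (-9) * e8_11 hp + (-36) * e8_29 hp + (-9) * e8_13 hp + (-18) * e8_77 hp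

theorem e8_97 (hp : 9 < p) : ((102187008 : ℤ) : ZMod p) * H p [2, 1, 1, 1, 3] p = ((-51093504 : ℤ) : ZMod p) * H p [6, 1, 1] p + ((-25546752 : ℤ) : ZMod p) * H p [5, 2, 1] p := by
  have r186 : H p [3, 1, 1, 1, 2] p = (-1) ^ 8 * H p [2, 1, 1, 1, 3] p :=
    rev_rel [3, 1, 1, 1, 2]
  linear_combination (-102187008) * r186 + (1) * e8_67 hp

theorem e8_19 (hp : 9 < p) : ((102187008 : ℤ) : ZMod p) * H p [3, 1, 2, 1, 1] p = ((-766402560 : ℤ) : ZMod p) * H p [6, 1, 1] p + ((-306561024 : ℤ) : ZMod p) * H p [5, 2, 1] p := by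
  have r19 : H p [1, 3, 1, 2, 1] p + (H p [4, 1, 2, 1] p + (H p [3, 1, 1, 2, 1] p + (H p [3, 2, 2, 1] p + (H p [3, 1, 1, 2, 1] p + (H p [3, 1, 3, 1] p + (H p [3, 1, 2, 1, 1] p + (H p [3, 1, 2, 2] p + (H p [3, 1, 2, 1, 1] p + 0)))))))) = 0 :=
    st_rel (a := 1) (by omega) (by omega) [3, 1, 2, 1]
  have r339 : H p [3, 1, 1, 1, 2] p + (H p [3, 1, 1, 2, 1] p + (H p [3, 1, 1, 2, 1] p + (H p [3, 1, 2, 1, 1] p + (H p [3, 1, 2, 1, 1] p + (H p [3, 1, 2, 1, 1] p + (H p [3, 2, 1, 1, 1] p + (H p [3, 2, 1, 1, 1] p + (H p [3, 2, 1, 1, 1] p + (H p [3, 2, 1, 1, 1] p + (H p [4, 1, 1, 1, 1] p + (H p [4, 1, 1, 1, 1] p + (H p [4, 1, 1, 1, 1] p + (H p [4, 1, 1, 1, 1] p + (H p [4, 1, 1, 1, 1] p + (H p [4, 1, 1, 1, 1] p + (H p [4, 1, 1, 1, 1] p + (H p [4, 1, 1, 1, 1] p + (H p [4, 1, 1, 1, 1] p + (H p [4, 1, 1, 1, 1] p + (H p [3, 2, 1, 1, 1] p + (H p [4, 1, 1,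 1, 1] p + (H p [4, 1, 1, 1, 1] p + (H p [4, 1, 1, 1, 1] p + (H p [4, 1, 1, 1, 1] p + (H p [4, 1, 1, 1, 1] p + (H p [3, 2, 1, 1, 1] p + (H p [2, 3, 1, 1, 1] p + 0))))))))))))))))))))))))))) = (-1) ^ 2 * H p [2, 3, 1, 1, 1] p :=
    shw_rel [3, 1, 1, 1] 2 [] (by decide) (by decide)
  linear_combination (102187008) * r339 + (-102187008) * r19 + (-1) * e8_67 hp + (-54) * e8_11 hp + (-45) * e8_7 hp + (6) * e8_38 hp + (216) * e8_39 hp + (54) * e8_43 hp + (216) * e8_51 hp + (54) * e8_83 hp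

theorem e8_100 (hp : 9 < p) : ((102187008 : ℤ) : ZMod p) * H p [1, 1, 2, 1, 3] p = ((-766402560 : ℤ) : ZMod p) * H p [6, 1, 1] p + ((-306561024 : ℤ) : ZMod p) * H p [5, 2, 1] p := by
  have r145 : H p [3, 1, 2, 1, 1] p = (-1) ^ 8 * H p [1, 1, 2, 1, 3] p :=
    rev_rel [3, 1, 2, 1, 1]
  linear_combination (-102187008) * r145 + (1) * e8_19 hp

theorem e8_22 (hp : 9 < p) : ((102187008 : ℤ) : ZMod p) * H p [1, 3, 2, 1, 1] p = ((664215552 : ℤ) : ZMod p) * H p [6, 1, 1] p + ((25546752 : ℤ) : ZMod p) * H p [5, 2, 1] p := by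
  have r11 : H p [1, 3, 2, 1, 1] p + (H p [4, 2, 1, 1] p + (H p [3, 1, 2, 1, 1] p + (H p [3, 3, 1, 1] p + (H p [3, 2, 1, 1, 1] p + (H p [3, 2, 2, 1] p + (H p [3, 2, 1, 1, 1] p + (H p [3, 2, 1, 2] p + (H p [3, 2, 1, 1, 1] p + 0)))))))) = 0 :=
    st_rel (a := 1) (by omega) (by omega) [3, 2, 1, 1]
  linear_combination (102187008) * r11 + (-108) * e8_23 hp + (-1) * e8_19 hp + (-432) * e8_27 hp + (-27) * e8_11 hp + (-54) * e8_43 hp + (-54) * e8_75 hp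

theorem e8_52 (hp : 9 < p) : ((102187008 : ℤ) : ZMod p) * H p [1, 1, 2, 3, 1] p = ((664215552 : ℤ) : ZMod p) * H p [6, 1, 1] p + ((25546752 : ℤ) : ZMod p) * H p [5, 2, 1] p := by
  have r147 : H p [1, 3, 2, 1, 1] p = (-1) ^ 8 * H p [1, 1, 2, 3, 1] p :=
    rev_rel [1, 3, 2, 1, 1]
  linear_combination (-102187008) * r147 + (1) * e8_22 hp

theorem e8_35 (hp : 9 < p) : ((102187008 : ℤ) : ZMod p) * H p [3, 1, 1, 2, 1] p = ((562028544 : ℤ) : ZMod p) * H p [6, 1, 1] p + ((281014272 : ℤ) : ZMod p) * H p [5, 2, 1] p := by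
  have r19 : H p [1, 3, 1, 2, 1] p + (H p [4, 1, 2, 1] p + (H p [3, 1, 1, 2, 1] p + (H p [3, 2, 2, 1] p + (H p [3, 1, 1, 2, 1] p + (H p [3, 1, 3, 1] p + (H p [3, 1, 2, 1, 1] p + (H p [3, 1, 2, 2] p + (H p [3, 1, 2, 1, 1] p + 0)))))))) = 0 :=
    st_rel (a := 1) (by omega) (by omega) [3, 1, 2, 1]
  linear_combination (51093504) * r19 + (-3) * e8_38 hp + (-108) * e8_39 hp + (-27) * e8_43 hp + (-108) * e8_51 hp + (-1) * e8_19 hp + (-27) * e8_83 hp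

theorem e8_98 (hp : 9 < p) : ((102187008 : ℤ) : ZMod p) * H p [1, 2, 1, 1, 3] p = ((562028544 : ℤ) : ZMod p) * H p [6, 1, 1] p + ((281014272 : ℤ) : ZMod p) * H p [5, 2, 1] p := by
  have r158 : H p [3, 1, 1, 2, 1] p = (-1) ^ 8 * H p [1, 2, 1, 1, 3] p :=
    rev_rel [3, 1, 1, 2, 1]
  linear_combination (-102187008) * r158 + (1) * e8_35 hp

theorem e8_44 (hp : 9 < p) : ((102187008 : ℤ) : ZMod p) * H p [1, 1, 3, 2, 1] p = ((-868589568 : ℤ) : ZMod p) * H p [6, 1, 1] p + ((-281014272 : ℤ) : ZMod p) * H p [5, 2, 1] p := by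
  have r22 : H p [1, 1, 3, 2, 1] p + (H p [2, 3, 2, 1] p + (H p [1, 1, 3, 2, 1] p + (H p [1, 4, 2, 1] p + (H p [1, 3, 1, 2, 1] p + (H p [1, 3, 3, 1] p + (H p [1, 3, 2, 1, 1] p + (H p [1, 3, 2, 2] p + (H p [1, 3, 2, 1, 1] p + 0)))))))) = 0 :=
    st_rel (a := 1) (by omega) (by omega) [1, 3, 2, 1]
  linear_combination (51093504) * r22 + (-27) * e8_45 hp + (-108) * e8_46 hp + (-3) * e8_38 hp + (-108) * e8_54 hp + (-1) * e8_22 hp + (-27) * e8_86 hp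

theorem e8_26 (hp : 9 < p) : ((102187008 : ℤ) : ZMod p) * H p [1, 2, 3, 1, 1] p = ((-868589568 : ℤ) : ZMod p) * H p [6, 1, 1] p + ((-281014272 : ℤ) : ZMod p) * H p [5, 2, 1] p := by
  have r151 : H p [1, 2, 3, 1, 1] p = (-1) ^ 8 * H p [1, 1, 3, 2, 1] p :=
    rev_rel [1, 2, 3, 1, 1]
  linear_combination (102187008) * r151 + (1) * e8_44 hp

theorem e8_25 (hp : 9 < p) : ((102187008 : ℤ) : ZMod p) * H p [2, 1, 3, 1, 1] p = ((-51093504 : ℤ) : ZMod p) * H p [6, 1, 1] p + ((51093504 : ℤ) : ZMod p) * H p [5, 2, 1] p := by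
  have r13 : H p [1, 2, 3, 1, 1] p + (H p [3, 3, 1, 1] p + (H p [2, 1, 3, 1, 1] p + (H p [2, 4, 1, 1] p + (H p [2, 3, 1, 1, 1] p + (H p [2, 3, 2, 1] p + (H p [2, 3, 1, 1, 1] p + (H p [2, 3, 1, 2] p + (H p [2, 3, 1, 1, 1] p + 0)))))))) = 0 :=
    st_rel (a := 1) (by omega) (by omega) [2, 3, 1, 1]
  linear_combination (102187008) * r13 + (-1) * e8_26 hp + (-432) * e8_27 hp + (-108) * e8_29 hp + (-27) * e8_13 hp + (-54) * e8_45 hp + (-54) * e8_77 hp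

theorem e8_76 (hp : 9 < p) : ((102187008 : ℤ) : ZMod p) * H p [1, 1, 3, 1, 2] p = ((-51093504 : ℤ) : ZMod p) * H p [6, 1, 1] p + ((51093504 : ℤ) : ZMod p) * H p [5, 2, 1] p := by
  have r150 : H p [2, 1, 3, 1, 1] p = (-1) ^ 8 * H p [1, 1, 3, 1, 2] p :=
    rev_rel [2, 1, 3, 1, 1]
  linear_combination (-102187008) * r150 + (1) * e8_25 hp

theorem e8_49 (hp : 9 < p) : ((102187008 : ℤ) : ZMod p) * H p [2, 1, 1, 3, 1] p = ((-255467520 : ℤ) : ZMod p) * H p [6, 1, 1] p + ((-204374016 : ℤ) : ZMod p) * H p [5, 2, 1] p := by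
  have r25 : H p [1, 2, 1, 3, 1] p + (H p [3, 1, 3, 1] p + (H p [2, 1, 1, 3, 1] p + (H p [2, 2, 3, 1] p + (H p [2, 1, 1, 3, 1] p + (H p [2, 1, 4, 1] p + (H p [2, 1, 3, 1, 1] p + (H p [2, 1, 3, 2] p + (H p [2, 1, 3, 1, 1] p + 0)))))))) = 0 :=
    st_rel (a := 1) (by omega) (by omega) [2, 1, 3, 1]
  linear_combination (51093504) * r25 + (-3) * e8_50 hp + (-108) * e8_51 hp + (-27) * e8_53 hp + (-216) * e8_57 hp + (-1) * e8_25 hp + (-27) * e8_89 hp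

theorem e8_70 (hp : 9 < p) : ((102187008 : ℤ) : ZMod p) * H p [1, 3, 1, 1, 2] p = ((-255467520 : ℤ) : ZMod p) * H p [6, 1, 1] p + ((-204374016 : ℤ) : ZMod p) * H p [5, 2, 1] p := by
  have r171 : H p [2, 1, 1, 3, 1] p = (-1) ^ 8 * H p [1, 3, 1, 1, 2] p :=
    rev_rel [2, 1, 1, 3, 1]
  linear_combination (-102187008) * r171 + (1) * e8_49 hp

theorem e8_37 (hp : 9 < p) : ((34062336 : ℤ) : ZMod p) * H p [2, 2, 1, 2, 1] p = ((-102187008 : ℤ) : ZMod p) * H p [6, 1, 1] p + ((-127733760 : ℤ) : ZMod p) * H p [5, 2, 1] p := by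
  have r259 : H p [1, 3, 1, 2, 1] p + (H p [2, 2, 1, 2, 1] p + (H p [3, 1, 1, 2, 1] p + (H p [3, 1, 1, 2, 1] p + (H p [3, 1, 1, 2, 1] p + (H p [3, 1, 2, 1, 1] p + (H p [3, 1, 2, 1, 1] p + (H p [3, 1, 2, 1, 1] p + 0))))))) = -H p [1, 3, 1, 2, 1] p :=
    sh_rel [3, 1, 2, 1]
  linear_combination (34062336) * r259 + (-4) * e8_38 hp + (-1) * e8_35 hp + (-1) * e8_19 hp

theorem e8_82 (hp : 9 < p) : ((34062336 : ℤ) : ZMod p) * H p [1, 2, 1, 2, 2] p = ((-102187008 : ℤ) : ZMod p) * H p [6, 1, 1] p + ((-127733760 : ℤ) : ZMod p) * H p [5, 2, 1] p := by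
  have r160 : H p [2, 2, 1, 2, 1] p = (-1) ^ 8 * H p [1, 2, 1, 2, 2] p :=
    rev_rel [2, 2, 1, 2, 1]
  linear_combination (-34062336) * r160 + (1) * e8_37 hp

theorem e8_69 (hp : 9 < p) : ((34062336 : ℤ) : ZMod p) * H p [2, 2, 1, 1, 2] p = ((-136249344 : ℤ) : ZMod p) * H p [6, 1, 1] p + ((-17031168 : ℤ) : ZMod p) * H p [5, 2, 1] p := by
  have r69 : H p [2, 2, 2, 1, 1] p + (H p [4, 2, 1, 1] p + (H p [2, 2, 2, 1, 1] p + (H p [2, 4, 1, 1] p + (H p [2, 2, 2, 1, 1] p + (H p [2, 2, 3, 1] p + (H p [2, 2, 1, 2, 1] p + (H p [2, 2, 1, 3] p + (H p [2, 2, 1, 1, 2] p + 0)))))))) = 0 :=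
    st_rel (a := 2) (by omega) (by omega) [2, 2, 1, 1]
  linear_combination (34062336) * r69 + (-18) * e8_21 hp + (-36) * e8_23 hp + (-36) * e8_29 hp + (-18) * e8_53 hp + (-1) * e8_37 hp + (-18) * e8_101 hp

theorem e8_81 (hp : 9 < p) : ((34062336 : ℤ) : ZMod p) * H p [2, 1, 1, 2, 2] p = ((-136249344 : ℤ) : ZMod p) * H p [6, 1, 1] p + ((-17031168 : ℤ) : ZMod p) * H p [5, 2, 1] p := by
  have r188 : H p [2, 2, 1, 1, 2] p = (-1) ^ 8 * H p [2, 1, 1, 2, 2] p :=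
    rev_rel [2, 2, 1, 1, 2]
  linear_combination (-34062336) * r188 + (1) * e8_69 hp

theorem e8_73 (hp : 9 < p) : ((17031168 : ℤ) : ZMod p) * H p [2, 1, 2, 1, 2] p = ((153280512 : ℤ) : ZMod p) * H p [6, 1, 1] p + ((76640256 : ℤ) : ZMod p) * H p [5, 2, 1] p := by
  have r81 : H p [2, 2, 1, 1, 2] p + (H p [4, 1, 1, 2] p + (H p [2, 2, 1, 1, 2] p + (H p [2, 3, 1, 2] p + (H p [2, 1, 2, 1, 2] p + (H p [2, 1, 3, 2] p + (H p [2, 1, 1, 2, 2] p + (H p [2, 1, 1, 4] p + (H p [2, 1, 1, 2, 2] p + 0)))))))) = 0 :=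
    st_rel (a := 2) (by omega) (by omega) [2, 1, 1, 2]
  linear_combination (17031168) * r81 + (-1) * e8_69 hp + (-18) * e8_71 hp + (-9) * e8_77 hp + (-9) * e8_89 hp + (-1) * e8_81 hp + (-18) * e8_113 hp

theorem e8_74 (hp : 9 < p) : ((34062336 : ℤ) : ZMod p) * H p [1, 2, 2, 1, 2] p = ((0 : ℤ) : ZMod p) * H p [6, 1, 1] p + ((0 : ℤ) : ZMod p) * H p [5, 2, 1] p := by
  have r37 : H p [1, 2, 2, 1, 2] p + (H p [3, 2, 1, 2] p + (H p [2, 1, 2, 1, 2] p + (H p [2, 3, 1, 2] p + (H p [2, 2, 1, 1, 2] p + (H p [2, 2, 2, 2] p + (H p [2, 2, 1, 1, 2] p + (H p [2, 2, 1, 3] p + (H p [2, 2, 1, 2, 1] p + 0)))))))) = 0 :=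
    st_rel (a := 1) (by omega) (by omega) [2, 2, 1, 2]
  linear_combination (34062336) * r37 + (-18) * e8_75 hp + (-2) * e8_73 hp + (-18) * e8_77 hp + (-2) * e8_69 hp + (-4257792) * e8_85 hp + (-18) * e8_101 hp + (-1) * e8_37 hp

theorem e8_41 (hp : 9 < p) : ((34062336 : ℤ) : ZMod p) * H p [2, 1, 2, 2, 1] p = ((0 : ℤ) : ZMod p) * H p [6, 1, 1] p + ((0 : ℤ) : ZMod p) * H p [5, 2, 1] p := by
  have r164 : H p [2, 1, 2, 2, 1] p = (-1) ^ 8 * H p [1, 2, 2, 1, 2] p :=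
    rev_rel [2, 1, 2, 2, 1]
  linear_combination (34062336) * r164 + (1) * e8_74 hp

theorem e8_42 (hp : 9 < p) : ((34062336 : ℤ) : ZMod p) * H p [1, 2, 2, 2, 1] p = ((-102187008 : ℤ) : ZMod p) * H p [6, 1, 1] p + ((102187008 : ℤ) : ZMod p) * H p [5, 2, 1] p := by
  have r21 : H p [1, 2, 2, 2, 1] p + (H p [3, 2, 2, 1] p + (H p [2, 1, 2, 2, 1] p + (H p [2, 3, 2, 1] p + (H p [2, 2, 1, 2, 1] p + (H p [2, 2, 3, 1] p + (H p [2, 2, 2, 1, 1] p + (H p [2, 2, 2, 2] p + (H p [2, 2, 2, 1, 1] p + 0)))))))) = 0 :=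
    st_rel (a := 1) (by omega) (by omega) [2, 2, 2, 1]
  linear_combination (34062336) * r21 + (-18) * e8_43 hp + (-1) * e8_41 hp + (-18) * e8_45 hp + (-1) * e8_37 hp + (-18) * e8_53 hp + (-12) * e8_21 hp + (-4257792) * e8_85 hp

theorem e8_12 (hp : 9 < p) : ((613122048 : ℤ) : ZMod p) * H p [1, 1, 3, 1, 1, 1] p = ((1226244096 : ℤ) : ZMod p) * H p [6, 1, 1] p + ((306561024 : ℤ) : ZMod p) * H p [5, 2, 1] p := by
  have r12 : H p [1, 1, 1, 3, 1, 1] p + (H p [2, 1, 3, 1, 1] p + (H p [1, 1, 1, 3, 1, 1] p + (H p [1, 2, 3, 1, 1] p + (H p [1, 1, 1, 3, 1, 1] p + (H p [1, 1, 4, 1, 1] p + (H p [1, 1, 3, 1, 1, 1] p + (H p [1, 1, 3, 2, 1] p + (H p [1, 1, 3, 1, 1, 1] p + (H p [1, 1, 3, 1, 2] p + (H p [1, 1, 3, 1, 1, 1] p + 0)))))))))) = 0 :=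
    st_rel (a := 1) (by omega) (by omega) [1, 1, 3, 1, 1]
  have r138 : H p [1, 1, 3, 1, 1, 1] p = (-1) ^ 8 * H p [1, 1, 1, 3, 1, 1] p :=
    rev_rel [1, 1, 3, 1, 1, 1]
  linear_combination (102187008) * r12 + (306561024) * r138 + (-1) * e8_25 hp + (-1) * e8_26 hp + (-18) * e8_28 hp + (-1) * e8_44 hp + (-1) * e8_76 hp

theorem e8_24 (hp : 9 < p) : ((613122048 : ℤ) : ZMod p) * H p [1, 1, 1, 3, 1, 1] p = ((1226244096 : ℤ) : ZMod p) * H p [6, 1, 1] p + ((306561024 : ℤ) : ZMod p) * H p [5, 2, 1] p := by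
  have r138 : H p [1, 1, 3, 1, 1, 1] p = (-1) ^ 8 * H p [1, 1, 1, 3, 1, 1] p :=
    rev_rel [1, 1, 3, 1, 1, 1]
  linear_combination (-613122048) * r138 + (1) * e8_12 hp

theorem e8_20 (hp : 9 < p) : ((153280512 : ℤ) : ZMod p) * H p [1, 1, 2, 2, 1, 1] p = ((-2452488192 : ℤ) : ZMod p) * H p [6, 1, 1] p + ((-613122048 : ℤ) : ZMod p) * H p [5, 2, 1] p := by
  have r252 : H p [1, 1, 1, 3, 1, 1] p + (H p [1, 1, 1, 3, 1, 1] p + (H p [1, 1, 1, 3, 1, 1] p + (H p [1, 1, 2, 2, 1, 1] p + (H p [1, 1, 3, 1, 1, 1] p + (H p [1, 1, 3, 1, 1, 1] p + (H p [1, 1, 3, 1, 1, 1] p + (H p [1, 1, 3, 1, 1, 1] p + 0))))))) = -H p [1, 1, 1, 3, 1, 1] p :=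
    sh_rel [1, 1, 3, 1, 1]
  linear_combination (153280512) * r252 + (-1) * e8_24 hp + (-1) * e8_12 hp

theorem e8_6 (hp : 9 < p) : ((1226244096 : ℤ) : ZMod p) * H p [1, 3, 1, 1, 1, 1] p = ((-3678732288 : ℤ) : ZMod p) * H p [6, 1, 1] p + ((-613122048 : ℤ) : ZMod p) * H p [5, 2, 1] p := by
  have r6 : H p [1, 1, 3, 1, 1, 1] p + (H p [2, 3, 1, 1, 1] p + (H p [1, 1, 3, 1, 1, 1] p + (H p [1, 4, 1, 1, 1] p + (H p [1, 3, 1, 1, 1, 1] p + (H p [1, 3, 2, 1, 1] p + (H p [1, 3, 1, 1, 1, 1] p + (H p [1, 3, 1, 2, 1] p + (H p [1, 3, 1, 1, 1, 1] p + (H p [1, 3, 1, 1, 2] p + (H p [1, 3, 1, 1, 1, 1] p + 0)))))))))) = 0 :=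
    st_rel (a := 1) (by omega) (by omega) [1, 3, 1, 1, 1]
  linear_combination (306561024) * r6 + (-1) * e8_12 hp + (-27) * e8_13 hp + (-36) * e8_14 hp + (-3) * e8_22 hp + (-18) * e8_38 hp + (-3) * e8_70 hp

theorem e8_48 (hp : 9 < p) : ((1226244096 : ℤ) : ZMod p) * H p [1, 1, 1, 1, 3, 1] p = ((-3678732288 : ℤ) : ZMod p) * H p [6, 1, 1] p + ((-613122048 : ℤ) : ZMod p) * H p [5, 2, 1] p := by
  have r133 : H p [1, 3, 1, 1, 1, 1] p = (-1) ^ 8 * H p [1, 1, 1, 1, 3, 1] p :=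
    rev_rel [1, 3, 1, 1, 1, 1]
  linear_combination (-1226244096) * r133 + (1) * e8_6 hp

theorem e8_10 (hp : 9 < p) : ((1226244096 : ℤ) : ZMod p) * H p [1, 2, 2, 1, 1, 1] p = ((11036196864 : ℤ) : ZMod p) * H p [6, 1, 1] p + ((1226244096 : ℤ) : ZMod p) * H p [5, 2, 1] p := by
  have r246 : H p [1, 1, 3, 1, 1, 1] p + (H p [1, 1, 3, 1, 1, 1] p + (H p [1, 2, 2, 1, 1, 1] p + (H p [1, 3, 1, 1, 1, 1] p + (H p [1, 3, 1, 1, 1, 1] p + (H p [1, 3, 1, 1, 1, 1] p + (H p [1, 3, 1, 1, 1, 1] p + (H p [1, 3, 1, 1, 1, 1] p + 0))))))) = -H p [1, 1, 3, 1, 1, 1] p :=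
    sh_rel [1, 3, 1, 1, 1]
  linear_combination (1226244096) * r246 + (-6) * e8_12 hp + (-5) * e8_6 hp

theorem e8_40 (hp : 9 < p) : ((1226244096 : ℤ) : ZMod p) * H p [1, 1, 1, 2, 2, 1] p = ((11036196864 : ℤ) : ZMod p) * H p [6, 1, 1] p + ((1226244096 : ℤ) : ZMod p) * H p [5, 2, 1] p := by
  have r136 : H p [1, 2, 2, 1, 1, 1] p = (-1) ^ 8 * H p [1, 1, 1, 2, 2, 1] p :=
    rev_rel [1, 2, 2, 1, 1, 1]
  linear_combination (-1226244096) * r136 + (1) * e8_10 hp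

theorem e8_18 (hp : 9 < p) : ((613122048 : ℤ) : ZMod p) * H p [1, 2, 1, 2, 1, 1] p = ((3678732288 : ℤ) : ZMod p) * H p [6, 1, 1] p + ((2452488192 : ℤ) : ZMod p) * H p [5, 2, 1] p := by
  have r250 : H p [1, 1, 2, 2, 1, 1] p + (H p [1, 1, 2, 2, 1, 1] p + (H p [1, 2, 1, 2, 1, 1] p + (H p [1, 2, 1, 2, 1, 1] p + (H p [1, 2, 2, 1, 1, 1] p + (H p [1, 2, 2, 1, 1, 1] p + (H p [1, 2, 2, 1, 1, 1] p + (H p [1, 2, 2, 1, 1, 1] p + 0))))))) = -H p [1, 1, 2, 2, 1, 1] p :=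
    sh_rel [1, 2, 2, 1, 1]
  linear_combination (306561024) * r250 + (-6) * e8_20 hp + (-1) * e8_10 hp

theorem e8_36 (hp : 9 < p) : ((613122048 : ℤ) : ZMod p) * H p [1, 1, 2, 1, 2, 1] p = ((3678732288 : ℤ) : ZMod p) * H p [6, 1, 1] p + ((2452488192 : ℤ) : ZMod p) * H p [5, 2, 1] p := by
  have r144 : H p [1, 2, 1, 2, 1, 1] p = (-1) ^ 8 * H p [1, 1, 2, 1, 2, 1] p :=
    rev_rel [1, 2, 1, 2, 1, 1]
  linear_combination (-613122048) * r144 + (1) * e8_18 hp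

theorem e8_34 (hp : 9 < p) : ((613122048 : ℤ) : ZMod p) * H p [1, 2, 1, 1, 2, 1] p = ((-7357464576 : ℤ) : ZMod p) * H p [6, 1, 1] p + ((-4904976384 : ℤ) : ZMod p) * H p [5, 2, 1] p := by
  have r258 : H p [1, 1, 2, 1, 2, 1] p + (H p [1, 1, 2, 1, 2, 1] p + (H p [1, 2, 1, 1, 2, 1] p + (H p [1, 2, 1, 1, 2, 1] p + (H p [1, 2, 1, 1, 2, 1] p + (H p [1, 2, 1, 2, 1, 1] p + (H p [1, 2, 1, 2, 1, 1] p + (H p [1, 2, 1, 2, 1, 1] p + 0))))))) = -H p [1, 1, 2, 1, 2, 1] p :=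
    sh_rel [1, 2, 1, 2, 1]
  linear_combination (204374016) * r258 + (-1) * e8_36 hp + (-1) * e8_18 hp

theorem e8_3 (hp : 9 < p) : ((6131220480 : ℤ) : ZMod p) * H p [3, 1, 1, 1, 1, 1] p = ((6131220480 : ℤ) : ZMod p) * H p [6, 1, 1] p + ((0 : ℤ) : ZMod p) * H p [5, 2, 1] p := by
  have r3 : H p [1, 3, 1, 1, 1, 1] p + (H p [4, 1, 1, 1, 1] p + (H p [3, 1, 1, 1, 1, 1] p + (H p [3, 2, 1, 1, 1] p + (H p [3, 1, 1, 1, 1, 1] p + (H p [3, 1, 2, 1, 1] p + (H p [3, 1, 1, 1, 1, 1] p + (H p [3, 1, 1, 2, 1] p + (H p [3, 1, 1, 1, 1, 1] p + (H p [3, 1, 1, 1, 2] p + (H p [3, 1, 1, 1, 1, 1] p + 0)))))))))) = 0 :=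
    st_rel (a := 1) (by omega) (by omega) [3, 1, 1, 1, 1]
  linear_combination (1226244096) * r3 + (-1) * e8_6 hp + (-36) * e8_7 hp + (-108) * e8_11 hp + (-12) * e8_19 hp + (-12) * e8_35 hp + (-12) * e8_67 hp

theorem e8_96 (hp : 9 < p) : ((6131220480 : ℤ) : ZMod p) * H p [1, 1, 1, 1, 1, 3] p = ((6131220480 : ℤ) : ZMod p) * H p [6, 1, 1] p + ((0 : ℤ) : ZMod p) * H p [5, 2, 1] p := by
  have r130 : H p [3, 1, 1, 1, 1, 1] p = (-1) ^ 8 * H p [1, 1, 1, 1, 1, 3] p :=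
    rev_rel [3, 1, 1, 1, 1, 1]
  linear_combination (-6131220480) * r130 + (1) * e8_3 hp

theorem e8_5 (hp : 9 < p) : ((3065610240 : ℤ) : ZMod p) * H p [2, 2, 1, 1, 1, 1] p = ((0 : ℤ) : ZMod p) * H p [6, 1, 1] p + ((3065610240 : ℤ) : ZMod p) * H p [5, 2, 1] p := by
  have r243 : H p [1, 3, 1, 1, 1, 1] p + (H p [2, 2, 1, 1, 1, 1] p + (H p [3, 1, 1, 1, 1, 1] p + (H p [3, 1, 1, 1, 1, 1] p + (H p [3, 1, 1, 1, 1, 1] p + (H p [3, 1, 1, 1, 1, 1] p + (H p [3, 1, 1, 1, 1, 1] p + (H p [3, 1, 1, 1, 1, 1] p + 0))))))) = -H p [1, 3, 1, 1, 1, 1] p :=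
    sh_rel [3, 1, 1, 1, 1]
  linear_combination (3065610240) * r243 + (-5) * e8_6 hp + (-3) * e8_3 hp

theorem e8_80 (hp : 9 < p) : ((3065610240 : ℤ) : ZMod p) * H p [1, 1, 1, 1, 2, 2] p = ((0 : ℤ) : ZMod p) * H p [6, 1, 1] p + ((3065610240 : ℤ) : ZMod p) * H p [5, 2, 1] p := by
  have r132 : H p [2, 2, 1, 1, 1, 1] p = (-1) ^ 8 * H p [1, 1, 1, 1, 2, 2] p :=
    rev_rel [2, 2, 1, 1, 1, 1]
  linear_combination (-3065610240) * r132 + (1) * e8_5 hp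

theorem e8_9 (hp : 9 < p) : ((1226244096 : ℤ) : ZMod p) * H p [2, 1, 2, 1, 1, 1] p = ((-11036196864 : ℤ) : ZMod p) * H p [6, 1, 1] p + ((-4291854336 : ℤ) : ZMod p) * H p [5, 2, 1] p := by
  have r245 : H p [1, 2, 2, 1, 1, 1] p + (H p [2, 1, 2, 1, 1, 1] p + (H p [2, 1, 2, 1, 1, 1] p + (H p [2, 2, 1, 1, 1, 1] p + (H p [2, 2, 1, 1, 1, 1] p + (H p [2, 2, 1, 1, 1, 1] p + (H p [2, 2, 1, 1, 1, 1] p + (H p [2, 2, 1, 1, 1, 1] p + 0))))))) = -H p [1, 2, 2, 1, 1, 1] p :=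
    sh_rel [2, 2, 1, 1, 1]
  linear_combination (613122048) * r245 + (-1) * e8_10 hp + (-1) * e8_5 hp

theorem e8_72 (hp : 9 < p) : ((1226244096 : ℤ) : ZMod p) * H p [1, 1, 1, 2, 1, 2] p = ((-11036196864 : ℤ) : ZMod p) * H p [6, 1, 1] p + ((-4291854336 : ℤ) : ZMod p) * H p [5, 2, 1] p := by
  have r135 : H p [2, 1, 2, 1, 1, 1] p = (-1) ^ 8 * H p [1, 1, 1, 2, 1, 2] p :=
    rev_rel [2, 1, 2, 1, 1, 1]
  linear_combination (-1226244096) * r135 + (1) * e8_9 hp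

theorem e8_17 (hp : 9 < p) : ((919683072 : ℤ) : ZMod p) * H p [2, 1, 1, 2, 1, 1] p = ((7357464576 : ℤ) : ZMod p) * H p [6, 1, 1] p + ((1839366144 : ℤ) : ZMod p) * H p [5, 2, 1] p := by
  have r249 : H p [1, 2, 1, 2, 1, 1] p + (H p [2, 1, 1, 2, 1, 1] p + (H p [2, 1, 1, 2, 1, 1] p + (H p [2, 1, 1, 2, 1, 1] p + (H p [2, 1, 2, 1, 1, 1] p + (H p [2, 1, 2, 1, 1, 1] p + (H p [2, 1, 2, 1, 1, 1] p + (H p [2, 1, 2, 1, 1, 1] p + 0))))))) = -H p [1, 2, 1, 2, 1, 1] p :=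
    sh_rel [2, 1, 2, 1, 1]
  linear_combination (306561024) * r249 + (-1) * e8_18 hp + (-1) * e8_9 hp

theorem e8_68 (hp : 9 < p) : ((919683072 : ℤ) : ZMod p) * H p [1, 1, 2, 1, 1, 2] p = ((7357464576 : ℤ) : ZMod p) * H p [6, 1, 1] p + ((1839366144 : ℤ) : ZMod p) * H p [5, 2, 1] p := by
  have r143 : H p [2, 1, 1, 2, 1, 1] p = (-1) ^ 8 * H p [1, 1, 2, 1, 1, 2] p :=
    rev_rel [2, 1, 1, 2, 1, 1]
  linear_combination (-919683072) * r143 + (1) * e8_17 hp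

theorem e8_33 (hp : 9 < p) : ((1226244096 : ℤ) : ZMod p) * H p [2, 1, 1, 1, 2, 1] p = ((0 : ℤ) : ZMod p) * H p [6, 1, 1] p + ((3065610240 : ℤ) : ZMod p) * H p [5, 2, 1] p := by
  have r257 : H p [1, 2, 1, 1, 2, 1] p + (H p [2, 1, 1, 1, 2, 1] p + (H p [2, 1, 1, 1, 2, 1] p + (H p [2, 1, 1, 1, 2, 1] p + (H p [2, 1, 1, 1, 2, 1] p + (H p [2, 1, 1, 2, 1, 1] p + (H p [2, 1, 1, 2, 1, 1] p + (H p [2, 1, 1, 2, 1, 1] p + 0))))))) = -H p [1, 2, 1, 1, 2, 1] p :=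
    sh_rel [2, 1, 1, 2, 1]
  linear_combination (306561024) * r257 + (-1) * e8_34 hp + (-1) * e8_17 hp

theorem e8_66 (hp : 9 < p) : ((1226244096 : ℤ) : ZMod p) * H p [1, 2, 1, 1, 1, 2] p = ((0 : ℤ) : ZMod p) * H p [6, 1, 1] p + ((3065610240 : ℤ) : ZMod p) * H p [5, 2, 1] p := by
  have r157 : H p [2, 1, 1, 1, 2, 1] p = (-1) ^ 8 * H p [1, 2, 1, 1, 1, 2] p :=
    rev_rel [2, 1, 1, 1, 2, 1]
  linear_combination (-1226244096) * r157 + (1) * e8_33 hp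

theorem e8_65 (hp : 9 < p) : ((3065610240 : ℤ) : ZMod p) * H p [2, 1, 1, 1, 1, 2] p = ((0 : ℤ) : ZMod p) * H p [6, 1, 1] p + ((-6131220480 : ℤ) : ZMod p) * H p [5, 2, 1] p := by
  have r273 : H p [1, 2, 1, 1, 1, 2] p + (H p [2, 1, 1, 1, 1, 2] p + (H p [2, 1, 1, 1, 1, 2] p + (H p [2, 1, 1, 1, 1, 2] p + (H p [2, 1, 1, 1, 1, 2] p + (H p [2, 1, 1, 1, 1, 2] p + (H p [2, 1, 1, 1, 2, 1] p + (H p [2, 1, 1, 1, 2, 1] p + 0))))))) = -H p [1, 2, 1, 1, 1, 2] p :=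
    sh_rel [2, 1, 1, 1, 2]
  linear_combination (613122048) * r273 + (-1) * e8_66 hp + (-1) * e8_33 hp

theorem e8_1 (hp : 9 < p) : ((45984153600 : ℤ) : ZMod p) * H p [2, 1, 1, 1, 1, 1, 1] p = ((0 : ℤ) : ZMod p) * H p [6, 1, 1] p + ((0 : ℤ) : ZMod p) * H p [5, 2, 1] p := by
  have r1 : H p [1, 2, 1, 1, 1, 1, 1] p + (H p [3, 1, 1, 1, 1, 1] p + (H p [2, 1, 1, 1, 1, 1, 1] p + (H p [2, 2, 1, 1, 1, 1] p + (H p [2, 1, 1, 1, 1, 1, 1] p + (H p [2, 1, 2, 1, 1, 1] p + (H p [2, 1, 1, 1, 1, 1, 1] p + (H p [2, 1, 1, 2, 1, 1] p + (H p [2, 1, 1, 1, 1, 1, 1] p + (H p [2, 1, 1, 1, 2, 1] p + (H p [2, 1, 1, 1, 1, 1, 1] p + (H p [2, 1, 1, 1, 1, 2] p + (H p [2, 1, 1, 1, 1, 1, 1] p + 0)))))))))))) = 0 :=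
    st_rel (a := 1) (by omega) (by omega) [2, 1, 1, 1, 1, 1]
  have r241 : H p [1, 2, 1, 1, 1, 1, 1] p + (H p [2, 1, 1, 1, 1, 1, 1] p + (H p [2, 1, 1, 1, 1, 1, 1] p + (H p [2, 1, 1, 1, 1, 1, 1] p + (H p [2, 1, 1, 1, 1, 1, 1] p + (H p [2, 1, 1, 1, 1, 1, 1] p + (H p [2, 1, 1, 1, 1, 1, 1] p + (H p [2, 1, 1, 1, 1, 1, 1] p + 0))))))) = -H p [1, 2, 1, 1, 1, 1, 1] p :=
    sh_rel [2, 1, 1, 1, 1, 1]
  linear_combination (18393661440) * r1 + (-9196830720) * r241 + (-3) * e8_3 hp + (-6) * e8_5 hp + (-15) * e8_9 hp + (-20) * e8_17 hp + (-15) * e8_33 hp + (-6) * e8_65 hp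

theorem e8_64 (hp : 9 < p) : ((45984153600 : ℤ) : ZMod p) * H p [1, 1, 1, 1, 1, 1, 2] p = ((0 : ℤ) : ZMod p) * H p [6, 1, 1] p + ((0 : ℤ) : ZMod p) * H p [5, 2, 1] p := by
  have r128 : H p [2, 1, 1, 1, 1, 1, 1] p = (-1) ^ 8 * H p [1, 1, 1, 1, 1, 1, 2] p :=
    rev_rel [2, 1, 1, 1, 1, 1, 1]
  linear_combination (-45984153600) * r128 + (1) * e8_1 hp

theorem e8_2 (hp : 9 < p) : ((13138329600 : ℤ) : ZMod p) * H p [1, 2, 1, 1, 1, 1, 1] p = ((0 : ℤ) : ZMod p) * H p [6, 1, 1] p + ((0 : ℤ) : ZMod p) * H p [5, 2, 1] p := by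
  have r241 : H p [1, 2, 1, 1, 1, 1, 1] p + (H p [2, 1, 1, 1, 1, 1, 1] p + (H p [2, 1, 1, 1, 1, 1, 1] p + (H p [2, 1, 1, 1, 1, 1, 1] p + (H p [2, 1, 1, 1, 1, 1, 1] p + (H p [2, 1, 1, 1, 1, 1, 1] p + (H p [2, 1, 1, 1, 1, 1, 1] p + (H p [2, 1, 1, 1, 1, 1, 1] p + 0))))))) = -H p [1, 2, 1, 1, 1, 1, 1] p :=
    sh_rel [2, 1, 1, 1, 1, 1]
  linear_combination (6569164800) * r241 + (-1) * e8_1 hp

theorem e8_32 (hp : 9 < p) : ((13138329600 : ℤ) : ZMod p) * H p [1, 1, 1, 1, 1, 2, 1] p = ((0 : ℤ) : ZMod p) * H p [6, 1, 1] p + ((0 : ℤ) : ZMod p) * H p [5, 2, 1] p := by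
  have r129 : H p [1, 2, 1, 1, 1, 1, 1] p = (-1) ^ 8 * H p [1, 1, 1, 1, 1, 2, 1] p :=
    rev_rel [1, 2, 1, 1, 1, 1, 1]
  linear_combination (-13138329600) * r129 + (1) * e8_2 hp

theorem e8_4 (hp : 9 < p) : ((6569164800 : ℤ) : ZMod p) * H p [1, 1, 2, 1, 1, 1, 1] p = ((0 : ℤ) : ZMod p) * H p [6, 1, 1] p + ((0 : ℤ) : ZMod p) * H p [5, 2, 1] p := by
  have r242 : H p [1, 1, 2, 1, 1, 1, 1] p + (H p [1, 1, 2, 1, 1, 1, 1] p + (H p [1, 2, 1, 1, 1, 1, 1] p + (H p [1, 2, 1, 1, 1, 1, 1] p + (H p [1, 2, 1, 1, 1, 1, 1] p + (H p [1, 2, 1, 1, 1, 1, 1] p + (H p [1, 2, 1, 1, 1, 1, 1] p + (H p [1, 2, 1, 1, 1, 1, 1] p + 0))))))) = -H p [1, 1, 2, 1, 1, 1, 1] p :=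
    sh_rel [1, 2, 1, 1, 1, 1]
  linear_combination (2189721600) * r242 + (-1) * e8_2 hp

theorem e8_16 (hp : 9 < p) : ((6569164800 : ℤ) : ZMod p) * H p [1, 1, 1, 1, 2, 1, 1] p = ((0 : ℤ) : ZMod p) * H p [6, 1, 1] p + ((0 : ℤ) : ZMod p) * H p [5, 2, 1] p := by
  have r131 : H p [1, 1, 2, 1, 1, 1, 1] p = (-1) ^ 8 * H p [1, 1, 1, 1, 2, 1, 1] p :=
    rev_rel [1, 1, 2, 1, 1, 1, 1]
  linear_combination (-6569164800) * r131 + (1) * e8_4 hp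

theorem e8_8 (hp : 9 < p) : ((5255331840 : ℤ) : ZMod p) * H p [1, 1, 1, 2, 1, 1, 1] p = ((0 : ℤ) : ZMod p) * H p [6, 1, 1] p + ((0 : ℤ) : ZMod p) * H p [5, 2, 1] p := by
  have r244 : H p [1, 1, 1, 2, 1, 1, 1] p + (H p [1, 1, 1, 2, 1, 1, 1] p + (H p [1, 1, 1, 2, 1, 1, 1] p + (H p [1, 1, 2, 1, 1, 1, 1] p + (H p [1, 1, 2, 1, 1, 1, 1] p + (H p [1, 1, 2, 1, 1, 1, 1] p + (H p [1, 1, 2, 1, 1, 1, 1] p + (H p [1, 1, 2, 1, 1, 1, 1] p + 0))))))) = -H p [1, 1, 1, 2, 1, 1, 1] p :=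
    sh_rel [1, 1, 2, 1, 1, 1]
  linear_combination (1313832960) * r244 + (-1) * e8_4 hp

end

theorem up8 : ∀ l ∈ comps 8, ∃ N : ℤ, N ≠ 0 ∧ ∃ c0 c1 : ℤ, ∀ (p : ℕ) [Fact p.Prime], 9 < p →
    (N : ZMod p) * H p l p = c0 * H p [6, 1, 1] p + c1 * H p [5, 2, 1] p := by
  have e : comps 8 = [[1, 1, 1, 1, 1, 1, 1, 1], [2, 1, 1, 1, 1, 1, 1], [1, 2, 1, 1, 1, 1, 1], [3, 1, 1, 1, 1, 1], [1, 1, 2, 1, 1, 1, 1], [2, 2, 1, 1, 1, 1], [1, 3, 1, 1, 1, 1], [4, 1, 1, 1, 1], [1, 1, 1, 2, 1, 1, 1], [2, 1, 2, 1, 1, 1], [1, 2, 2, 1, 1, 1], [3, 2, 1, 1, 1], [1, 1, 3, 1, 1, 1], [2, 3, 1, 1, 1], [1, 4, 1, 1, 1], [5, 1, 1, 1], [1, 1, 1, 1, 2, 1, 1], [2, 1, 1, 2, 1, 1], [1, 2, 1, 2, 1, 1], [3, 1, 2, 1, 1], [1, 1, 2, 2, 1, 1], [2, 2, 2, 1, 1], [1, 3, 2, 1, 1], [4, 2, 1, 1], [1, 1, 1, 3, 1, 1], [2, 1, 3, 1, 1], [1, 2, 3, 1, 1], [3, 3, 1, 1], [1, 1, 4, 1, 1], [2, 4,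 1, 1], [1, 5, 1, 1], [6, 1, 1], [1, 1, 1, 1, 1, 2, 1], [2, 1, 1, 1, 2, 1], [1, 2, 1, 1, 2, 1], [3, 1, 1, 2, 1], [1, 1, 2, 1, 2, 1], [2, 2, 1, 2, 1], [1, 3, 1, 2, 1], [4, 1, 2, 1], [1, 1, 1, 2, 2, 1], [2, 1, 2, 2, 1], [1, 2, 2, 2, 1], [3, 2, 2, 1], [1, 1, 3, 2, 1], [2, 3, 2, 1], [1, 4, 2, 1], [5, 2, 1], [1, 1, 1, 1, 3, 1], [2, 1, 1, 3, 1], [1, 2, 1, 3, 1], [3, 1, 3, 1], [1, 1, 2, 3, 1], [2, 2, 3, 1], [1, 3, 3, 1], [4, 3, 1], [1, 1, 1, 4, 1], [2, 1, 4, 1], [1, 2, 4, 1], [3, 4, 1], [1, 1, 5, 1], [2, 5, 1], [1, 6, 1], [7, 1], [1, 1, 1, 1, 1, 1, 2], [2, 1, 1, 1, 1, 2], [1, 2, 1, 1, 1, 2], [3, 1, 1, 1, 2], [1, 1, 2, 1, 1, 2], [2, 2, 1, 1, 2], [1, 3, 1, 1, 2], [4, 1, 1, 2], [1, 1, 1, 2, 1, 2], [2, 1, 2, 1, 2], [1, 2, 2, 1, 2], [3, 2, 1, 2], [1, 1, 3, 1, 2], [2, 3, 1, 2], [1, 4, 1, 2], [5, 1, 2], [1, 1, 1, 1, 2, 2], [2, 1, 1, 2, 2], [1, 2, 1, 2,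 2], [3, 1, 2, 2], [1, 1, 2, 2, 2], [2, 2, 2, 2], [1, 3, 2, 2], [4, 2, 2], [1, 1, 1, 3, 2], [2, 1, 3, 2], [1, 2, 3, 2], [3, 3, 2], [1, 1, 4, 2], [2, 4, 2], [1, 5, 2], [6, 2], [1, 1, 1, 1, 1, 3], [2, 1, 1, 1, 3], [1, 2, 1, 1, 3], [3, 1, 1, 3], [1, 1, 2, 1, 3], [2, 2, 1, 3], [1, 3, 1, 3], [4, 1, 3], [1, 1, 1, 2, 3], [2, 1, 2, 3], [1, 2, 2, 3], [3, 2, 3], [1, 1, 3, 3], [2, 3, 3], [1, 4, 3], [5, 3], [1, 1, 1, 1, 4], [2, 1, 1, 4], [1, 2, 1, 4], [3, 1, 4], [1, 1, 2, 4], [2, 2, 4], [1, 3, 4], [4, 4], [1, 1, 1, 5], [2, 1, 5], [1, 2, 5], [3, 5], [1, 1, 6], [2, 6], [1, 7], [8]] := by decide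
  rw [e]
  simp only [List.forall_mem_cons, List.not_mem_nil, IsEmpty.forall_iff, implies_true, and_true]
  exact ⟨⟨_, by decide, _, _, fun p _ hp => e8_0 hp⟩,
    ⟨_, by decide, _, _, fun p _ hp => e8_1 hp⟩,
    ⟨_, by decide, _, _, fun p _ hp => e8_2 hp⟩,
    ⟨_, by decide, _, _, fun p _ hp => e8_3 hp⟩,
    ⟨_, by decide, _, _, fun p _ hp => e8_4 hp⟩,
    ⟨_, by decide, _, _, fun p _ hp => e8_5 hp⟩,
    ⟨_, by decide, _, _, fun p _ hp => e8_6 hp⟩,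
    ⟨_, by decide, _, _, fun p _ hp => e8_7 hp⟩,
    ⟨_, by decide, _, _, fun p _ hp => e8_8 hp⟩,
    ⟨_, by decide, _, _, fun p _ hp => e8_9 hp⟩,
    ⟨_, by decide, _, _, fun p _ hp => e8_10 hp⟩,
    ⟨_, by decide, _, _, fun p _ hp => e8_11 hp⟩,
    ⟨_, by decide, _, _, fun p _ hp => e8_12 hp⟩,
    ⟨_, by decide, _, _, fun p _ hp => e8_13 hp⟩,
    ⟨_, by decide, _, _, fun p _ hp => e8_14 hp⟩,
    ⟨_, by decide, _, _, fun p _ hp => e8_15 hp⟩,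
    ⟨_, by decide, _, _, fun p _ hp => e8_16 hp⟩,
    ⟨_, by decide, _, _, fun p _ hp => e8_17 hp⟩,
    ⟨_, by decide, _, _, fun p _ hp => e8_18 hp⟩,
    ⟨_, by decide, _, _, fun p _ hp => e8_19 hp⟩,
    ⟨_, by decide, _, _, fun p _ hp => e8_20 hp⟩,
    ⟨_, by decide, _, _, fun p _ hp => e8_21 hp⟩,
    ⟨_, by decide, _, _, fun p _ hp => e8_22 hp⟩,
    ⟨_, by decide, _, _, fun p _ hp => e8_23 hp⟩,
    ⟨_, by decide, _, _, fun p _ hp => e8_24 hp⟩,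
    ⟨_, by decide, _, _, fun p _ hp => e8_25 hp⟩,
    ⟨_, by decide, _, _, fun p _ hp => e8_26 hp⟩,
    ⟨_, by decide, _, _, fun p _ hp => e8_27 hp⟩,
    ⟨_, by decide, _, _, fun p _ hp => e8_28 hp⟩,
    ⟨_, by decide, _, _, fun p _ hp => e8_29 hp⟩,
    ⟨_, by decide, _, _, fun p _ hp => e8_30 hp⟩,
    ⟨_, by decide, _, _, fun p _ _ => e8_31⟩,
    ⟨_, by decide, _, _, fun p _ hp => e8_32 hp⟩,
    ⟨_, by decide, _, _, fun p _ hp => e8_33 hp⟩,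
    ⟨_, by decide, _, _, fun p _ hp => e8_34 hp⟩,
    ⟨_, by decide, _, _, fun p _ hp => e8_35 hp⟩,
    ⟨_, by decide, _, _, fun p _ hp => e8_36 hp⟩,
    ⟨_, by decide, _, _, fun p _ hp => e8_37 hp⟩,
    ⟨_, by decide, _, _, fun p _ hp => e8_38 hp⟩,
    ⟨_, by decide, _, _, fun p _ hp => e8_39 hp⟩,
    ⟨_, by decide, _, _, fun p _ hp => e8_40 hp⟩,
    ⟨_, by decide, _, _, fun p _ hp => e8_41 hp⟩,
    ⟨_, by decide, _, _, fun p _ hp => e8_42 hp⟩,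
    ⟨_, by decide, _, _, fun p _ hp => e8_43 hp⟩,
    ⟨_, by decide, _, _, fun p _ hp => e8_44 hp⟩,
    ⟨_, by decide, _, _, fun p _ hp => e8_45 hp⟩,
    ⟨_, by decide, _, _, fun p _ hp => e8_46 hp⟩,
    ⟨_, by decide, _, _, fun p _ _ => e8_47⟩,
    ⟨_, by decide, _, _, fun p _ hp => e8_48 hp⟩,
    ⟨_, by decide, _, _, fun p _ hp => e8_49 hp⟩,
    ⟨_, by decide, _, _, fun p _ hp => e8_50 hp⟩,
    ⟨_, by decide, _, _, fun p _ hp => e8_51 hp⟩,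
    ⟨_, by decide, _, _, fun p _ hp => e8_52 hp⟩,
    ⟨_, by decide, _, _, fun p _ hp => e8_53 hp⟩,
    ⟨_, by decide, _, _, fun p _ hp => e8_54 hp⟩,
    ⟨_, by decide, _, _, fun p _ hp => e8_55 hp⟩,
    ⟨_, by decide, _, _, fun p _ hp => e8_56 hp⟩,
    ⟨_, by decide, _, _, fun p _ hp => e8_57 hp⟩,
    ⟨_, by decide, _, _, fun p _ hp => e8_58 hp⟩,
    ⟨_, by decide, _, _, fun p _ hp => e8_59 hp⟩,
    ⟨_, by decide, _, _, fun p _ hp => e8_60 hp⟩,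
    ⟨_, by decide, _, _, fun p _ hp => e8_61 hp⟩,
    ⟨_, by decide, _, _, fun p _ hp => e8_62 hp⟩,
    ⟨_, by decide, _, _, fun p _ hp => e8_63 hp⟩,
    ⟨_, by decide, _, _, fun p _ hp => e8_64 hp⟩,
    ⟨_, by decide, _, _, fun p _ hp => e8_65 hp⟩,
    ⟨_, by decide, _, _, fun p _ hp => e8_66 hp⟩,
    ⟨_, by decide, _, _, fun p _ hp => e8_67 hp⟩,
    ⟨_, by decide, _, _, fun p _ hp => e8_68 hp⟩,
    ⟨_, by decide, _, _, fun p _ hp => e8_69 hp⟩,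
    ⟨_, by decide, _, _, fun p _ hp => e8_70 hp⟩,
    ⟨_, by decide, _, _, fun p _ hp => e8_71 hp⟩,
    ⟨_, by decide, _, _, fun p _ hp => e8_72 hp⟩,
    ⟨_, by decide, _, _, fun p _ hp => e8_73 hp⟩,
    ⟨_, by decide, _, _, fun p _ hp => e8_74 hp⟩,
    ⟨_, by decide, _, _, fun p _ hp => e8_75 hp⟩,
    ⟨_, by decide, _, _, fun p _ hp => e8_76 hp⟩,
    ⟨_, by decide, _, _, fun p _ hp => e8_77 hp⟩,
    ⟨_, by decide, _, _, fun p _ hp => e8_78 hp⟩,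
    ⟨_, by decide, _, _, fun p _ hp => e8_79 hp⟩,
    ⟨_, by decide, _, _, fun p _ hp => e8_80 hp⟩,
    ⟨_, by decide, _, _, fun p _ hp => e8_81 hp⟩,
    ⟨_, by decide, _, _, fun p _ hp => e8_82 hp⟩,
    ⟨_, by decide, _, _, fun p _ hp => e8_83 hp⟩,
    ⟨_, by decide, _, _, fun p _ hp => e8_84 hp⟩,
    ⟨_, by decide, _, _, fun p _ hp => e8_85 hp⟩,
    ⟨_, by decide, _, _, fun p _ hp => e8_86 hp⟩,
    ⟨_, by decide, _, _, fun p _ hp => e8_87 hp⟩,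
    ⟨_, by decide, _, _, fun p _ hp => e8_88 hp⟩,
    ⟨_, by decide, _, _, fun p _ hp => e8_89 hp⟩,
    ⟨_, by decide, _, _, fun p _ hp => e8_90 hp⟩,
    ⟨_, by decide, _, _, fun p _ hp => e8_91 hp⟩,
    ⟨_, by decide, _, _, fun p _ hp => e8_92 hp⟩,
    ⟨_, by decide, _, _, fun p _ hp => e8_93 hp⟩,
    ⟨_, by decide, _, _, fun p _ hp => e8_94 hp⟩,
    ⟨_, by decide, _, _, fun p _ hp => e8_95 hp⟩,
    ⟨_, by decide, _, _, fun p _ hp => e8_96 hp⟩,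
    ⟨_, by decide, _, _, fun p _ hp => e8_97 hp⟩,
    ⟨_, by decide, _, _, fun p _ hp => e8_98 hp⟩,
    ⟨_, by decide, _, _, fun p _ hp => e8_99 hp⟩,
    ⟨_, by decide, _, _, fun p _ hp => e8_100 hp⟩,
    ⟨_, by decide, _, _, fun p _ hp => e8_101 hp⟩,
    ⟨_, by decide, _, _, fun p _ hp => e8_102 hp⟩,
    ⟨_, by decide, _, _, fun p _ hp => e8_103 hp⟩,
    ⟨_, by decide, _, _, fun p _ hp => e8_104 hp⟩,
    ⟨_, by decide, _, _, fun p _ hp => e8_105 hp⟩,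
    ⟨_, by decide, _, _, fun p _ hp => e8_106 hp⟩,
    ⟨_, by decide, _, _, fun p _ hp => e8_107 hp⟩,
    ⟨_, by decide, _, _, fun p _ hp => e8_108 hp⟩,
    ⟨_, by decide, _, _, fun p _ hp => e8_109 hp⟩,
    ⟨_, by decide, _, _, fun p _ hp => e8_110 hp⟩,
    ⟨_, by decide, _, _, fun p _ hp => e8_111 hp⟩,
    ⟨_, by decide, _, _, fun p _ hp => e8_112 hp⟩,
    ⟨_, by decide, _, _, fun p _ hp => e8_113 hp⟩,
    ⟨_, by decide, _, _, fun p _ hp => e8_114 hp⟩,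
    ⟨_, by decide, _, _, fun p _ hp => e8_115 hp⟩,
    ⟨_, by decide, _, _, fun p _ hp => e8_116 hp⟩,
    ⟨_, by decide, _, _, fun p _ hp => e8_117 hp⟩,
    ⟨_, by decide, _, _, fun p _ hp => e8_118 hp⟩,
    ⟨_, by decide, _, _, fun p _ hp => e8_119 hp⟩,
    ⟨_, by decide, _, _, fun p _ hp => e8_120 hp⟩,
    ⟨_, by decide, _, _, fun p _ hp => e8_121 hp⟩,
    ⟨_, by decide, _, _, fun p _ hp => e8_122 hp⟩,
    ⟨_, by decide, _, _, fun p _ hp => e8_123 hp⟩,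
    ⟨_, by decide, _, _, fun p _ hp => e8_124 hp⟩,
    ⟨_, by decide, _, _, fun p _ hp => e8_125 hp⟩,
    ⟨_, by decide, _, _, fun p _ hp => e8_126 hp⟩,
    ⟨_, by decide, _, _, fun p _ hp => e8_127 hp⟩⟩

end Pool.Agent.MP_3924c3_nt.FZ

end

section

/-!
The dimension in weight seven and the upper bound in weight eight.
-/

open Finset

namespace Pool.Agent.MP_3924c3_nt.FZ

theorem evB (B : ℕ) {P : ℕ → Prop} (h : ∀ (p : ℕ) [Fact p.Prime], B < p → P p) :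
    ∀ᶠ p in (Filter.cofinite : Filter ℕ), Nat.Prime p → P p := by
  rw [Nat.cofinite_eq_atTop]
  filter_upwards [Filter.eventually_gt_atTop B] with p h7 hp
  have : Fact p.Prime := ⟨hp⟩
  exact h p h7

theorem card_le {w d B : ℕ} (g : Fin d → List ℕ)
    (h : ∀ l ∈ comps w, ∃ N : ℤ, N ≠ 0 ∧ ∃ c : Fin d → ℤ, ∀ (p : ℕ) [Fact p.Prime], B < p →
      (N : ZMod p) * H p l p = ∑ i, (c i : ZMod p) * H p (g i) p)
    (S : Finset (Composition w)) (hS : Ind w S) : S.card ≤ d := by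
  classical
  choose N hN c hc using fun k : Composition w => h _ (blocks_mem k)
  by_contra hlt
  have hl : ¬ LinearIndependent ℤ fun k : S => c k := fun hl => by
    have := hl.fintype_card_le_finrank
    simp only [Fintype.card_coe, Module.finrank_fin_fun] at this
    exact hlt this
  obtain ⟨b, hb, k0, hk0⟩ := Fintype.not_linearIndependent_iff.1 hl
  have := hS (fun k => if hk : k ∈ S then b ⟨k, hk⟩ * N k else 0) (fun k hk => dif_neg hk)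
    (evB B fun p _ hp => by
      rw [← sum_subset (subset_univ S) (fun k _ hk => by simp [hk]), ← sum_coe_sort S]
      have e : ∀ k : S, (((if hk : k.1 ∈ S then b ⟨k, hk⟩ * N k else 0 : ℤ)) : ZMod p) *
          zeta p k.1 = ∑ i, ((b k * c k i : ℤ) : ZMod p) * H p (g i) p := fun k => by
        rw [dif_pos k.2, zeta_eq, Int.cast_mul, mul_assoc, hc k p hp, mul_sum]
        exact sum_congr rfl fun i _ => by push_cast; ring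
      rw [sum_congr rfl fun k _ => e k, sum_comm]
      refine sum_eq_zero fun i _ => ?_
      have h0 : ∑ k : S, b k * c k i = 0 := by simpa using congrFun hb i
      rw [← sum_mul, ← Int.cast_sum, h0, Int.cast_zero, zero_mul]) k0
  simp [hk0, hN] at this

theorem ind_one {w : ℕ} (k0 : Composition w)
    (hz : ∀ M : ℕ, ∃ p : ℕ, M < p ∧ p.Prime ∧ H p k0.blocks p ≠ 0) : Ind w {k0} := by
  intro a ha he k
  by_cases hk : k = k0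
  · subst hk
    rw [Nat.cofinite_eq_atTop] at he
    obtain ⟨M, hM⟩ := Filter.eventually_atTop.1 he
    obtain ⟨p, h1, h2, h3⟩ := hz (M + (a k).natAbs)
    have : Fact p.Prime := ⟨h2⟩
    have h4 := hM p (by omega) h2
    rw [sum_eq_single k (fun j _ hj => by simp [ha j (by simpa using hj)]) (by simp),
      zeta_eq] at h4
    have h5 := (ZMod.intCast_zmod_eq_zero_iff_dvd _ p).1 ((mul_eq_zero.1 h4).resolve_right h3)
    exact Int.eq_zero_of_dvd_of_natAbs_lt_natAbs h5 (by simp only [Int.natAbs_natCast]; omega)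
  · exact ha k (by simpa using hk)

theorem le7 (S : Finset (Composition 7)) (hS : Ind 7 S) : S.card ≤ 1 :=
  card_le (B := 9) ![[6, 1]] (fun l hl => by
    obtain ⟨N, hN, c, h⟩ := up7 l hl
    exact ⟨N, hN, ![c], fun p _ hp => by simpa using h p hp⟩) S hS

theorem le8 (S : Finset (Composition 8)) (hS : Ind 8 S) : S.card ≤ 2 :=
  card_le (B := 9) ![[6, 1, 1], [5, 2, 1]] (fun l hl => by
    obtain ⟨N, hN, c, e, h⟩ := up8 l hl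
    exact ⟨N, hN, ![c, e], fun p _ hp => by simpa using h p hp⟩) S hS

theorem dim7 (h7 : NB 7) : Dim 7 1 :=
  ⟨⟨{⟨[6, 1], by simp, rfl⟩}, rfl, ind_one _ (nz (by omega) h7)⟩, le7⟩

theorem final7 (h3 : NB 3) (h5 : NB 5) (h7 : NB 7) :
    ∃ d : ℕ → ℕ, d 0 = 1 ∧ d 1 = 0 ∧ d 2 = 0 ∧
      (∀ w : ℕ, 3 ≤ w → d w = d (w - 2) + d (w - 3)) ∧
      ∀ w : ℕ, 1 ≤ w → w ≤ 7 →
        (∃ S : Finset (Composition w), S.card = d w ∧
          ∀ a : Composition w → ℤ, (∀ k, k ∉ S → a k = 0) →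
            (∀ᶠ p in (Filter.cofinite : Filter ℕ), Nat.Prime p →
              (∑ k : Composition w, (a k : ZMod p) *
                ∑ m : Fin k.length → Fin p,
                  if (∀ i j : Fin k.length, i < j → m j < m i) ∧ (∀ i, 0 < (m i : ℕ))
                  then ∏ i : Fin k.length, (((m i : ℕ) : ZMod p)⁻¹) ^ k.blocksFun i
                  else 0) = 0) →
            ∀ k, a k = 0) ∧
        ∀ S : Finset (Composition w),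
          (∀ a : Composition w → ℤ, (∀ k, k ∉ S → a k = 0) →
            (∀ᶠ p in (Filter.cofinite : Filter ℕ), Nat.Prime p →
              (∑ k : Composition w, (a k : ZMod p) *
                ∑ m : Fin k.length → Fin p,
                  if (∀ i j : Fin k.length, i < j → m j < m i) ∧ (∀ i, 0 < (m i : ℕ))
                  then ∏ i : Fin k.length, (((m i : ℕ) : ZMod p)⁻¹) ^ k.blocksFun i
                  else 0) = 0) →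
            ∀ k, a k = 0) →
          S.card ≤ d w := by
  refine ⟨dd, rfl, rfl, rfl, fun w hw => ?_, fun w h1 h6 => ?_⟩
  · obtain ⟨v, rfl⟩ : ∃ v, w = v + 3 := ⟨w - 3, by omega⟩
    rfl
  · change Dim w (dd w)
    interval_cases w
    exacts [dim1, dim2, dim3 h3, dim4, dim5 h5, dim6 h3, dim7 h7]

end Pool.Agent.MP_3924c3_nt.FZ

end
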