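import Pool.Agent.MP_384f6f_nt.NW.Defs

set_option linter.all false

section

/-!
Primes not dividing `B_(p-k)`: definitions and the statements of the lemmas.
Page: team-store `3924c3_h23_PROOF.md`.
-/

open Finset Filter Topology PowerSeries

noncomputable section

namespace Pool.Agent.MP_3924c3_nt.BK

/-! ### derivations and canonical higher derivatives -/

section Gen

variable {R : Type} [CommRing R] [Algebra ℚ R]

/-- coefficient `n` goes to `t n cₙ + δ cₙ` -/
def cw (t : ℚ) (δ : Derivation ℚ R R) : Derivation ℚ R⟦X⟧ R⟦X⟧ :=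
  Derivation.mk'
    { toFun := fun f => PowerSeries.mk fun n => (t * n) • coeff n f + δ (coeff n f)
      map_add' := fun f g => by
        ext n; simp only [coeff_mk, map_add, smul_add]; abel
      map_smul' := fun c f => by
        ext n
        simp only [coeff_mk, PowerSeries.coeff_smul, RingHom.id_apply, Derivation.map_smul,
          smul_add]
        rw [smul_comm] }
    (fun f g => by
      ext n
      simp only [LinearMap.coe_mk, AddHom.coe_mk, coeff_mk, smul_eq_mul, map_add]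
      rw [mul_comm g, coeff_mul, coeff_mul, coeff_mul, map_sum, smul_sum, ← sum_add_distrib,
        ← sum_add_distrib]
      refine sum_congr rfl fun x hx => ?_
      have h : (n : ℚ) = x.1 + x.2 := by rw [← mem_antidiagonal.1 hx]; push_cast; rfl
      simp only [coeff_mk, Derivation.leibniz, smul_eq_mul, h, mul_add, add_mul, add_smul,
        mul_smul_comm, smul_mul_assoc]
      rw [mul_comm (coeff x.2 g)]
      abel)

theorem coeff_cw (t : ℚ) (δ : Derivation ℚ R R) (f : R⟦X⟧) (n : ℕ) :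
    coeff n (cw t δ f) = (t * n) • coeff n f + δ (coeff n f) := by
  simp [cw]

/-- Serre derivative of formal weight `w` -/
def Sr (d : Derivation ℚ R R) (U : R) (w : ℤ) (f : R) : R := d f - (w : ℚ) • (U * f)

/-- coefficient `C(j,r) (w+r)_(j-r)` -/
def cf (w : ℤ) (j r : ℕ) : ℤ := (j.choose r : ℤ) * ∏ t ∈ Ico r j, (w + t)

/-- canonical `j`-th derivative of formal weight `w` -/
def can (d : Derivation ℚ R R) (U : R) (w : ℤ) (j : ℕ) (u : R) : R :=
  ∑ r ∈ range (j + 1), (cf w j r : ℚ) • ((-U) ^ (j - r) * (d : R → R)^[r] u)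

/-- iterated Serre derivative, from weight `w` -/
def Sit (d : Derivation ℚ R R) (U : R) (w : ℤ) (f : R) : ℕ → R
  | 0 => f
  | i + 1 => Sr d U (w + 2 * i) (Sit d U w f i)

end Gen

abbrev PS : Type := ℚ⟦X⟧

/-- series in `q` with coefficients polynomials in `τ = log q` -/
abbrev LS : Type := (Polynomial ℚ)⟦X⟧

def th : Derivation ℚ PS PS := cw 1 0

def thL : Derivation ℚ LS LS := cw 1 Polynomial.derivative'

def dL : Derivation ℚ LS LS := cw 0 Polynomial.derivative'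

def io : PS →+* LS := PowerSeries.map Polynomial.C

def tau : LS := PowerSeries.C Polynomial.X

theorem coeff_th (f : PS) (n : ℕ) : coeff n (th f) = n * coeff n f := by
  simp [th, coeff_cw]

theorem coeff_thL (f : LS) (n : ℕ) :
    coeff n (thL f) = (n : ℚ) • coeff n f + Polynomial.derivative (coeff n f) := by
  simp [thL, coeff_cw]

theorem coeff_dL (f : LS) (n : ℕ) : coeff n (dL f) = Polynomial.derivative (coeff n f) := by
  simp [dL, coeff_cw]

theorem coeff_io (f : PS) (n : ℕ) : coeff n (io f) = Polynomial.C (coeff n f) := by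
  simp [io]

/-! ### the series -/

/-- Eisenstein series `G_w` -/
def Gs (w : ℕ) : PS := PowerSeries.mk fun n =>
  if n = 0 then -bernoulli w / (2 * w) else ∑ d ∈ n.divisors, (d : ℚ) ^ (w - 1)

/-- `E₂ / 12` -/
def UU : PS := (-2 : ℚ) • Gs 2

def E4 : PS := (240 : ℚ) • Gs 4

def E6 : PS := (-504 : ℚ) • Gs 6

/-- `E₄ / 144` -/
def EE : PS := (1 / 144 : ℚ) • E4

def Dl : PS := (1 / 1728 : ℚ) • (E4 ^ 3 - E6 ^ 2)

/-- an integral form of even weight `w ≥ 4` with constant term `1` -/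
def gw (w : ℕ) : PS := E4 ^ ((w - 6 * (w / 2 % 2)) / 4) * E6 ^ (w / 2 % 2)

/-- `Σ σ_(-k)(n) qⁿ` -/
def YY (k : ℕ) : PS := PowerSeries.mk fun n => ∑ d ∈ n.divisors, ((d : ℚ) ^ k)⁻¹

/-- what is used about modular forms of level one -/
structure Mod (M : ℤ → Submodule ℚ PS) : Prop where
  one : (1 : PS) ∈ M 0
  mul : ∀ (a b : ℤ) (f g : PS), f ∈ M a → g ∈ M b → f * g ∈ M (a + b)
  ser : ∀ (w : ℤ) (f : PS), f ∈ M w → Sr th UU w f ∈ M (w + 2)
  eis : ∀ w : ℕ, 4 ≤ w → Even w → Gs w ∈ M w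
  sturm : ∀ (w : ℤ) (f : PS), f ∈ M w → (∀ n : ℕ, 12 * (n : ℤ) ≤ w → coeff n f = 0) → f = 0
  tra : ∀ (k : ℕ) (w : ℤ) (g : ℕ → PS), (∀ j ≤ k, g j ∈ M (w - 2 * j)) →
    ∑ j ∈ range (k + 1), g j * UU ^ j = 0 → ∀ j ≤ k, g j = 0
  ram : th UU = UU ^ 2 - EE

/-! ### the analytic model -/

section An

open UpperHalfPlane
open scoped MatrixGroups ModularForm Manifold

/-- `F` is the sum of the series `f` on the upper half plane -/
def Rep (f : PS) (F : ℍ → ℂ) : Prop := ∀ τ : ℍ,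
  HasSum (fun n : ℕ => ((coeff n f : ℚ) : ℂ) • Function.Periodic.qParam 1 (τ : ℂ) ^ n) (F τ)

def Inv (w : ℤ) (F : ℍ → ℂ) : Prop := ∀ γ : SL(2, ℤ), F ∣[w] γ = F

theorem Rep.add {f g : PS} {F G : ℍ → ℂ} (h : Rep f F) (h' : Rep g G) : Rep (f + g) (F + G) :=
  fun τ => by simpa [add_smul, add_mul] using (h τ).add (h' τ)

theorem Rep.smul {f : PS} {F : ℍ → ℂ} (c : ℚ) (h : Rep f F) : Rep (c • f) ((c : ℂ) • F) :=
  fun τ => by simpa [mul_assoc] using (h τ).mul_left (c : ℂ)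

theorem Rep.zero : Rep 0 0 := fun τ => by simp

/-- rational `q`-expansions of level one forms -/
def MF (w : ℤ) : Submodule ℚ PS where
  carrier := {f | ∃ F, Rep f F ∧ Inv w F}
  add_mem' := by
    rintro f g ⟨F, h1, h2⟩ ⟨G, h3, h4⟩
    exact ⟨F + G, h1.add h3, fun γ => by rw [SlashAction.add_slash, h2 γ, h4 γ]⟩
  zero_mem' := ⟨0, Rep.zero, fun γ => SlashAction.zero_slash w γ⟩
  smul_mem' := by
    rintro c f ⟨F, h1, h2⟩
    exact ⟨(c : ℂ) • F, h1.smul c, fun γ => by rw [ModularForm.SL_smul_slash, h2 γ]⟩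

def StR1 : Prop := ∀ (f g : PS) (F G : ℍ → ℂ), Rep f F → Rep g G → Rep (f * g) (F * G)

def StR2 : Prop := ∀ (f : PS) (F : ℍ → ℂ), Rep f F →
  MDifferentiable 𝓘(ℂ) 𝓘(ℂ) F ∧ Rep (th f) (Derivative.normalizedDerivOfComplex F)

def StR3 : Prop := ∀ f : PS, Rep f 0 → f = 0

def StR4 : Prop := ∀ (w : ℤ) (f : PS), f ∈ MF w →
  (∀ n : ℕ, 12 * (n : ℤ) ≤ w → coeff n f = 0) → f = 0

def StR5 : Prop := ∀ w : ℕ, 4 ≤ w → Even w → Gs w ∈ MF w

def StR6 : Prop := Rep UU (fun z => (12 : ℂ)⁻¹ * EisensteinSeries.E2 z)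

def StR7 : Prop := ∀ (k : ℕ) (w : ℤ) (g : ℕ → PS), (∀ j ≤ k, g j ∈ MF (w - 2 * j)) →
  ∑ j ∈ range (k + 1), g j * UU ^ j = 0 → ∀ j ≤ k, g j = 0

def StR8 : Prop := th UU - UU ^ 2 ∈ MF 4

def StMod : Prop := Mod MF

end An

def StB : Prop := (∀ w : ℕ, Even w → bernoulli w ≠ 0) ∧
  ∀ p : ℕ, p.Prime → 3 ≤ p → padicNorm p (bernoulli (p - 1))⁻¹ < 1

/-! ### the system -/

def StC : Prop := ∀ (R : Type) [CommRing R] [Algebra ℚ R] (d : Derivation ℚ R R) (U E : R),
  d U = U ^ 2 - E → ∀ (w : ℤ) (j : ℕ) (u : R),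
  Sr d U (w + 2 * j) (can d U w j u) =
    can d U w (j + 1) u + ((j : ℚ) * (j + w - 1)) • (E * can d U w (j - 1) u)

abbrev JJ (k : ℕ) : Type := Fin 2 ⊕ Fin (k + 1)

def wt (k : ℕ) : JJ k → ℤ
  | .inl j => -1 + 2 * (j : ℕ)
  | .inr j => -(k : ℤ) + 2 * (j : ℕ)

def sol {R : Type} [CommRing R] [Algebra ℚ R] (d : Derivation ℚ R R) (U : R) (k : ℕ) (u v : R) :
    JJ k → R
  | .inl j => can d U (-1) j v
  | .inr j => can d U (-(k : ℤ)) j u

def ee (k : ℕ) : JJ k → PS := sol th UU k (YY k) 1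

def gwt (k : ℕ) : JJ k → ℕ
  | .inl j => k + 5 - 2 * j
  | .inr j => 2 * k + 4 - 2 * j

def w0 (k D : ℕ) : ℤ := 12 * ((D : ℤ) - 1) + k + 4

def bs (D i : ℕ) : PS := Dl ^ i * E4 ^ (3 * (D - 1 - i))

abbrev Ix (k D : ℕ) : Type := JJ k × Fin D

def mu (k D : ℕ) (r : Ix k D) : PS := bs D r.2 * gw (gwt k r.1)

def row (k D : ℕ) (r : Ix k D) : PS := mu k D r * ee k r.1

def Det (k D : ℕ) (c : Ix k D → ℕ) : ℚ :=
  (Matrix.of fun r s : Ix k D => coeff (c s) (row k D r)).det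

/-- number of columns allowed -/
def NN (k D : ℕ) : ℕ := (k + 3) * D + (k + 3) ^ 2

def Adm (k D : ℕ) (c : Ix k D → ℕ) : Prop := Function.Injective c ∧ ∀ s, c s < NN k D

/-- integer coefficients -/
def IntS (f : PS) : Prop := ∀ n, ∃ z : ℤ, coeff n f = z

/-- bounded denominators -/
def BD (f : PS) : Prop := ∃ K : ℕ, K ≠ 0 ∧ IntS ((K : ℚ) • f)

def StInt : Prop := IntS E4 ∧ IntS E6 ∧ IntS Dl ∧ IntS ((12 : ℚ) • UU) ∧ coeff 0 E4 = 1 ∧
  coeff 0 E6 = 1 ∧ coeff 0 Dl = 0 ∧ coeff 1 Dl = 1 ∧ coeff 0 UU = 1 / 12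

def StMu : Prop := ∀ M, Mod M → ∀ k D : ℕ, Odd k → ∀ r : Ix k D,
  mu k D r ∈ M (w0 k D - wt k r.1) ∧ IntS (mu k D r)

def StBs : Prop := ∀ (D w : ℕ) (c : Fin D → ℚ), ∑ i, c i • (bs D i * gw w) = 0 → c = 0

/-! ### the zero estimate -/

def IsSol {J : Type} [Fintype J] (t : J → ℤ) (C : J → J → PS) (y : J → LS) : Prop :=
  ∀ l, Sr thL (io UU) (t l) (y l) = ∑ j, io (C l j) * y j

/-- an operator of order `< m` does not kill `m` independent elements -/
def StInd : Prop := ∀ (J : Type) [Fintype J] (U : PS) (w : ℤ) (b : Fin (Fintype.card J) → PS)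
  (u : J → LS), b ≠ 0 → LinearIndependent ℚ u →
  ¬ ∀ s, ∑ i, io (b i) * Sit thL (io U) w (u s) i = 0

def StZE : Prop := ∀ M, Mod M → ∀ (J : Type) [Fintype J] [DecidableEq J] (t : J → ℤ)
  (C : J → J → PS) (w : ℤ) (a : J → PS) (y : J → J → LS) (e : J → PS) (j0 : J),
  (∀ l j, C l j ∈ M (t l + 2 - t j)) → (∀ j, a j ∈ M (w - t j)) → (∀ s, IsSol t C (y s)) →
  LinearIndependent ℚ (fun s => ∑ j, io (a j) * y s j) → IsSol t C (fun j => io (e j)) →
  e j0 = 1 → ∃ n : ℕ, coeff n (∑ j, a j * e j) ≠ 0 ∧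
    12 * (n : ℤ) ≤ Fintype.card J * w + Fintype.card J * (Fintype.card J - 1) - ∑ j, t j

/-- the pair `(u, v)` solves the differential equations -/
def Ok (k : ℕ) (u v : LS) : Prop := thL (thL v) = 0 ∧ (thL : LS → LS)^[k + 1] u =
  v * thL (io (Gs (k + 1))) + ((k : ℚ) + 1) • (io (Gs (k + 1)) * thL v)

def StSys : Prop := ∀ M, Mod M → ∀ k : ℕ, Odd k → 3 ≤ k → ∃ C : JJ k → JJ k → PS,
  (∀ l j, C l j ∈ M (wt k l + 2 - wt k j)) ∧
  ∀ u v, Ok k u v → IsSol (wt k) C (sol thL (io UU) k u v)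

def StOk : Prop := ∀ k : ℕ, 1 ≤ k →
  (∀ i ≤ k, Ok k (tau ^ i) 0) ∧ Ok k (io (YY k)) 1 ∧
  Ok k (tau * io (YY k) + (coeff 0 (Gs (k + 1)) / k.factorial : ℚ) • tau ^ (k + 1)) tau

def StF1 : Prop := ∀ M, Mod M → ∀ (k : ℕ) (w : ℤ) (a : Fin (k + 1) → PS),
  (∀ j : Fin (k + 1), a j ∈ M (w - (-(k : ℤ) + 2 * (j : ℕ)))) → a ≠ 0 →
  ∑ j : Fin (k + 1), a j * can th UU (-(k : ℤ)) j 1 ≠ 0

def StF2 : Prop := ∀ (k : ℕ) (a : JJ k → PS) (c : ℚ), 1 ≤ k → (∀ j, BD (a j)) →
  ∑ j : Fin (k + 1), a (.inr j) * can th UU (-(k : ℤ)) j 1 ≠ 0 →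
  ∑ j, a j * sol th UU k (YY k + C c) 1 j ≠ 0

def StLI : Prop := ∀ (k : ℕ) (a : JJ k → PS), 1 ≤ k →
  ∑ j : Fin (k + 1), a (.inr j) * can th UU (-(k : ℤ)) j 1 ≠ 0 →
  (∀ c : ℚ, ∑ j, a j * sol th UU k (YY k + C c) 1 j ≠ 0) →
  ∃ u v : JJ k → LS, (∀ s, Ok k (u s) (v s)) ∧
    LinearIndependent ℚ fun s => ∑ j, io (a j) * sol thL (io UU) k (u s) (v s) j

def StZ1 : Prop := ∀ M, Mod M → ∀ (k : ℕ) (w : ℤ) (a : JJ k → PS), Odd k → 3 ≤ k →
  (∀ j, a j ∈ M (w - wt k j)) → (∀ j, BD (a j)) → (fun j => a (.inr j)) ≠ 0 →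
  ∃ n : ℕ, coeff n (∑ j, a j * ee k j) ≠ 0 ∧ 12 * (n : ℤ) ≤ (k + 3) * w + (k + 3) * (k + 2)

def StZ2 : Prop := ∀ M, Mod M → ∀ (w : ℤ) (a : Fin 2 → PS),
  (∀ j : Fin 2, a j ∈ M (w - (-1 + 2 * (j : ℕ)))) → a ≠ 0 →
  ∃ n : ℕ, coeff n (∑ j : Fin 2, a j * can th UU (-1) j 1) ≠ 0 ∧ 12 * (n : ℤ) ≤ 2 * w + 2

def StZ : Prop := ∀ M, Mod M → ∀ (k D : ℕ) (c : Ix k D → ℚ), Odd k → 3 ≤ k →
  (∀ n < NN k D, ∑ r, c r * coeff n (row k D r) = 0) → c = 0

def StMin : Prop := ∀ (ι : Type) [Fintype ι] [DecidableEq ι] (f : ι → ℕ → ℚ) (N : ℕ),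
  (∀ c : ι → ℚ, (∀ n < N, ∑ r, c r * f r n = 0) → c = 0) →
  ∃ c : ι → ℕ, Function.Injective c ∧ (∀ s, c s < N) ∧
    (Matrix.of fun r s => f r (c s)).det ≠ 0

/-! ### `p`-adic size -/

/-- `p`-integral below `q^N` -/
def It (p N : ℕ) (f : PS) : Prop := ∀ n < N, padicNorm p (coeff n f) ≤ 1

/-- zero mod `p` below `q^N` -/
def Zt (p N : ℕ) (f : PS) : Prop := ∀ n < N, padicNorm p (coeff n f) < 1

/-- `p` divides `B_(p-k)` -/
def Hyp (k p : ℕ) : Prop := (p : ℤ) ∣ (bernoulli (p - k)).num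

instance (k p : ℕ) : Decidable (Hyp k p) := by unfold Hyp; infer_instance

def StCA : Prop := ∀ M, Mod M → ∀ p N : ℕ, p.Prime → 5 ≤ p →
  ∃ A ∈ M ((p : ℤ) - 1), It p N A ∧ Zt p N (A - 1)

def StCY : Prop := ∀ k p : ℕ, p.Prime → 1 ≤ k → k + 4 ≤ p →
  It p p (YY k) ∧ (Hyp k p → It p p (Gs (p - k)) ∧ Zt p p (YY k - Gs (p - k))) ∧
  It p (p ^ 2) ((p : ℚ) ^ k • YY k) ∧ Zt p (p ^ 2) (th ((p : ℚ) ^ k • YY k))

def StRow0 : Prop := ∀ M, Mod M → ∀ (k D p : ℕ) (r : Ix k D), Odd k → p.Prime → k + 4 ≤ p →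
  It p p (row k D r) ∧ It p (p ^ 2) ((p : ℚ) ^ k • row k D r) ∧
  (r.1.isLeft → ∀ N, It p N (row k D r))

def StRow1 : Prop := ∀ M, Mod M → ∀ (k D p : ℕ) (r : Ix k D), Odd k → p.Prime → k + 4 ≤ p →
  Hyp k p → ∃ f ∈ M (w0 k D + p), It p p f ∧ Zt p p (row k D r - f)

def StRow2 : Prop := ∀ M, Mod M → ∀ (k D p : ℕ) (r : Ix k D), Odd k → p.Prime → k + 4 ≤ p →
  ∃ f ∈ M (w0 k D + k * p), It p (p ^ 2) f ∧
    Zt p (p ^ 2) ((p : ℚ) ^ k • row k D r - f * ((p : ℚ) ^ k • YY k))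

def StDim : Prop := ∀ M, Mod M → ∀ w : ℤ,
  Module.Finite ℚ (M w) ∧ Module.finrank ℚ (M w) ≤ (w / 12 + 1).toNat

def StRK : Prop := ∀ (ι : Type) [Fintype ι] [DecidableEq ι] (p : ℕ) [Fact p.Prime]
  (V : Submodule ℚ (ι → ℚ)), ∃ T : Finset (ι → ZMod p), T.card ≤ Module.finrank ℚ V ∧
  ∀ v ∈ V, (∀ s, padicNorm p (v s) ≤ 1) →
    (fun s => ((v s : ℚ) : ZMod p)) ∈ Submodule.span (ZMod p) (T : Set (ι → ZMod p))

def rho (k D x : ℕ) : ℕ := D + x / 12 + k

def r1 (k D p : ℕ) : ℕ := if Hyp k p then rho k D p else (k + 3) * D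

def b0 (k D p : ℕ) : ℤ := -(((k + 3) * D * (2 * k + k * Nat.log p (NN k D)) : ℕ) : ℤ)

def b1 (k D p : ℕ) : ℤ := (k + 3) * D - 2 * D - rho k D (k * p) - k * (k + 1) * D

def b2 (k D p : ℕ) : ℤ := (k + 3) * D - r1 k D p - rho k D (k * p) - k * (NN k D - p : ℕ)

def b3 (k D p : ℕ) : ℤ := (k + 3) * D - r1 k D p - (k + 1) * (NN k D - p : ℕ)

def StV0 : Prop := ∀ M, Mod M → ∀ (k D p : ℕ) (c : Ix k D → ℕ), Odd k → Adm k D c → p.Prime →
  padicNorm p (Det k D c) ≤ (p : ℚ) ^ (-b0 k D p) ∧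
  (k + 4 ≤ p → NN k D ≤ p → padicNorm p (Det k D c) ≤ 1)

def StV1 : Prop := ∀ M, Mod M → ∀ (k D p : ℕ) (c : Ix k D → ℕ), Odd k → 3 ≤ k → Adm k D c →
  p.Prime → k + 4 ≤ p → NN k D ≤ p ^ 2 → padicNorm p (Det k D c) ≤ (p : ℚ) ^ (-b1 k D p)

def StV2 : Prop := ∀ M, Mod M → ∀ (k D p : ℕ) (c : Ix k D → ℕ), Odd k → 3 ≤ k → Adm k D c →
  p.Prime → k + 4 ≤ p → NN k D ≤ p ^ 2 → padicNorm p (Det k D c) ≤ (p : ℚ) ^ (-b2 k D p) ∧
    padicNorm p (Det k D c) ≤ (p : ℚ) ^ (-b3 k D p)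

/-- the exponent used at `p`, with the cut `x` -/
def bet (k x D p : ℕ) : ℤ := if p ^ 2 < NN k D ∨ p < k + 4 then b0 k D p
  else if p ≤ 2 * D then b1 k D p else if p ≤ x * D then b2 k D p else b3 k D p

def PP (k D : ℕ) : Finset ℕ := (Ioc 0 (12 * (k + 2) * D)).filter Nat.Prime

/-- `Σ log p` over the primes not dividing `B_(p-k)` -/
def Ex (k D : ℕ) : ℝ := ∑ p ∈ (PP k D).filter (fun p => ¬ Hyp k p), Real.log p

def StPN : Prop := ∀ (a b : ℕ) (α β : ℝ), a ≤ b → Tendsto (fun D : ℕ =>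
  (∑ p ∈ (Ioc (a * D) (b * D)).filter Nat.Prime, (α * D + β * p) * Real.log p) / (D : ℝ) ^ 2)
  atTop (𝓝 (α * (b - a) + β * (b ^ 2 - a ^ 2) / 2))

def StSm : Prop := ∀ (k : ℕ) (ε : ℝ), 0 < ε → ∀ᶠ D : ℕ in atTop, -ε * (D : ℝ) ^ 2 ≤
  ∑ p ∈ (PP k D).filter (fun p => p ^ 2 < NN k D ∨ p < k + 4), (b0 k D p : ℝ) * Real.log p

def StSum (k x : ℕ) (I : ℝ) : Prop := ∀ᶠ D : ℕ in atTop,
  I * (D : ℝ) ^ 2 - (k + 3) * D * Ex k D ≤ ∑ p ∈ PP k D, (bet k x D p : ℝ) * Real.log p

/-! ### archimedean size -/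

def Maj (f : PS) (K : ℝ) : Prop := ∀ N, ∑ n ∈ range N, |((coeff n f : ℚ) : ℝ)| / 10 ^ n ≤ K

def StMj : Prop := (∀ f g K L, Maj f K → Maj g L → Maj (f * g) (K * L)) ∧
  (∀ f g K L, Maj f K → Maj g L → Maj (f + g) (K + L)) ∧
  (∀ (c : ℚ) f K, Maj f K → Maj (c • f) (|(c : ℝ)| * K)) ∧
  (∀ f K n, Maj f K → Maj (f ^ n) (K ^ n)) ∧
  (∀ f K n, Maj f K → |((coeff n f : ℚ) : ℝ)| ≤ K * 10 ^ n) ∧
  ∀ (f : PS) (C : ℝ) (a : ℕ), (∀ n, |((coeff n f : ℚ) : ℝ)| ≤ C * (n + 1) ^ a) → ∃ K, Maj f K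

def StME : Prop := Maj E4 (5545 / 100) ∧
  ∀ N, ∑ n ∈ range N, (∑ d ∈ n.divisors, (d : ℝ)) / 10 ^ n ≤ 13478 / 100000

def StTD : Prop := ∀ M, Mod M → th Dl = (12 : ℚ) • (UU * Dl)

def StMD : Prop := th Dl = (12 : ℚ) • (UU * Dl) → Maj Dl (146 / 100)

def StMR : Prop := ∀ k : ℕ, ∃ K : ℝ, 1 ≤ K ∧ ∀ j : JJ k, Maj (gw (gwt k j) * ee k j) K

def StA0 : Prop := ∀ M, Mod M → ∀ k : ℕ, ∃ K : ℝ, 1 ≤ K ∧ ∀ (D : ℕ) (c : Ix k D → ℕ),
  |(Det k D c : ℝ)| ≤ (((k + 3) * D).factorial : ℝ) * K ^ ((k + 3) * D) *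
    250000 ^ ((k + 3) * (D * (D - 1) / 2)) * 10 ^ (∑ s, c s)

def StA : Prop := ∀ M, Mod M → ∀ (k : ℕ) (ε : ℝ), 0 < ε → ∀ᶠ D : ℕ in atTop,
  ∀ c : Ix k D → ℕ, Adm k D c → Det k D c ≠ 0 → Real.log |(Det k D c : ℝ)| ≤
    ((k + 3) / 2 * Real.log (10 ^ (k + 3) * 250000) + ε) * (D : ℝ) ^ 2

def StFin (k : ℕ) (δ : ℝ) : Prop := ∀ᶠ D : ℕ in atTop, δ * D ≤ Ex k D

def StDen (k : ℕ) (c : ℝ) : Prop := ∀ᶠ x : ℕ in atTop,
  c * x / Real.log x ≤ (((Ioc 0 x).filter fun p => p.Prime ∧ ¬ Hyp k p).card : ℝ)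

end Pool.Agent.MP_3924c3_nt.BK

end
end

section

/-! Basic lemmas. -/

open Finset Filter Topology PowerSeries

set_option linter.unusedSectionVars false

noncomputable section

namespace Pool.Agent.MP_3924c3_nt.BK

section Gen

variable {R R' : Type} [CommRing R] [Algebra ℚ R] [CommRing R'] [Algebra ℚ R']
  (d : Derivation ℚ R R) (U : R)

theorem iter_add (r : ℕ) (u v : R) :
    (d : R → R)^[r] (u + v) = (d : R → R)^[r] u + (d : R → R)^[r] v := by
  induction r with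
  | zero => rfl
  | succ r ih => simp only [Function.iterate_succ_apply', ih, map_add]

theorem iter_smul (r : ℕ) (c : ℚ) (u : R) :
    (d : R → R)^[r] (c • u) = c • (d : R → R)^[r] u := by
  induction r with
  | zero => rfl
  | succ r ih => simp only [Function.iterate_succ_apply', ih, Derivation.map_smul]

theorem iter_zero (r : ℕ) : (d : R → R)^[r] 0 = 0 := by
  simp

theorem iter_sub (r : ℕ) (u v : R) :
    (d : R → R)^[r] (u - v) = (d : R → R)^[r] u - (d : R → R)^[r] v := by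
  rw [eq_sub_iff_add_eq, ← iter_add, sub_add_cancel]

theorem iter_one (r : ℕ) : (d : R → R)^[r + 1] 1 = 0 := by
  rw [Function.iterate_succ_apply, Derivation.map_one_eq_zero, iter_zero]

theorem cf_self (w : ℤ) (j : ℕ) : cf w j j = 1 := by simp [cf]

theorem can_zero (w : ℤ) (u : R) : can d U w 0 u = u := by simp [can, cf]

theorem can_one (w : ℤ) (u : R) : can d U w 1 u = Sr d U w u := by
  simp [can, cf, Sr, sum_range_succ]; abel

theorem can_add (w : ℤ) (j : ℕ) (u v : R) :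
    can d U w j (u + v) = can d U w j u + can d U w j v := by
  simp only [can, iter_add, mul_add, smul_add, sum_add_distrib]

theorem can_smul (w : ℤ) (j : ℕ) (c : ℚ) (u : R) :
    can d U w j (c • u) = c • can d U w j u := by
  simp only [can, iter_smul, smul_sum, mul_smul_comm]
  exact sum_congr rfl fun r _ => smul_comm _ _ _

theorem can_zero' (w : ℤ) (j : ℕ) : can d U w j 0 = 0 := by
  simpa using can_smul d U w j 0 0

theorem can_sub (w : ℤ) (j : ℕ) (u v : R) :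
    can d U w j (u - v) = can d U w j u - can d U w j v := by
  rw [eq_sub_iff_add_eq, ← can_add, sub_add_cancel]

theorem can_bol (k : ℕ) (u : R) : can d U (-(k : ℤ)) (k + 1) u = (d : R → R)^[k + 1] u := by
  rw [can, sum_range_succ, cf_self, sum_eq_zero]
  · simp
  · intro r hr
    have : cf (-(k : ℤ)) (k + 1) r = 0 := by
      rw [cf, prod_eq_zero (i := k) (by simp at hr ⊢; omega) (by simp), mul_zero]
    simp [this]

theorem can_const (w : ℤ) (j : ℕ) : can d U w j 1 = (cf w j 0 : ℚ) • (-U) ^ j := by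
  rw [can, sum_range_succ', sum_eq_zero]
  · simp
  · intro r _
    rw [iter_one]; simp

theorem cf_ne {k j : ℕ} (h : j ≤ k) : cf (-(k : ℤ)) j 0 ≠ 0 := by
  simp only [cf, Nat.choose_zero_right, Nat.cast_one, one_mul]
  exact prod_ne_zero_iff.2 fun t ht => by simp at ht; omega

variable {d U}

theorem iter_map (φ : R →+* R') {d' : Derivation ℚ R' R'} (h : ∀ x, φ (d x) = d' (φ x)) (r : ℕ)
    (u : R) : φ ((d : R → R)^[r] u) = (d' : R' → R')^[r] (φ u) := by
  induction r with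
  | zero => rfl
  | succ r ih => simp only [Function.iterate_succ_apply', h, ih]

theorem can_map (φ : R →+* R') {d' : Derivation ℚ R' R'} (h : ∀ x, φ (d x) = d' (φ x)) (w : ℤ)
    (j : ℕ) (u : R) : φ (can d U w j u) = can d' (φ U) w j (φ u) := by
  simp only [can, map_sum, map_rat_smul, map_mul, map_pow, map_neg, iter_map φ h]

theorem Sr_map (φ : R →+* R') {d' : Derivation ℚ R' R'} (h : ∀ x, φ (d x) = d' (φ x)) (w : ℤ)
    (u : R) : φ (Sr d U w u) = Sr d' (φ U) w (φ u) := by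
  simp only [Sr, map_sub, map_rat_smul, map_mul, h]

theorem iter_comm {δ : Derivation ℚ R R} (h : ∀ x, δ (d x) = d (δ x)) (r : ℕ) (u : R) :
    δ ((d : R → R)^[r] u) = (d : R → R)^[r] (δ u) := by
  induction r with
  | zero => rfl
  | succ r ih => simp only [Function.iterate_succ_apply', h, ih]

theorem can_comm {δ : Derivation ℚ R R} (h : ∀ x, δ (d x) = d (δ x)) (hU : δ U = 0) (w : ℤ)
    (j : ℕ) (u : R) : δ (can d U w j u) = can d U w j (δ u) := by
  simp only [can, map_sum, Derivation.map_smul, Derivation.leibniz, Derivation.leibniz_pow,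
    map_neg, hU, iter_comm h, neg_zero, smul_zero, add_zero, smul_eq_mul, mul_zero]

theorem Sr_add (w : ℤ) (u v : R) : Sr d U w (u + v) = Sr d U w u + Sr d U w v := by
  simp only [Sr, map_add, mul_add, smul_add]; abel

theorem Sr_mul (a b : ℤ) (u v : R) : Sr d U (a + b) (u * v) = Sr d U a u * v + u * Sr d U b v := by
  simp only [Sr, Derivation.leibniz, smul_eq_mul, Int.cast_add, add_smul, sub_mul, mul_sub,
    smul_mul_assoc, mul_smul_comm]
  rw [mul_assoc U u v, mul_left_comm u U v, mul_comm v]; abel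

theorem Sr_sum {ι : Type} (s : Finset ι) (w : ℤ) (u : ι → R) :
    Sr d U w (∑ i ∈ s, u i) = ∑ i ∈ s, Sr d U w (u i) := by
  simp only [Sr, map_sum, mul_sum, smul_sum, sum_sub_distrib]

end Gen

theorem io_th (f : PS) : io (th f) = thL (io f) := by
  ext1 n; simp [coeff_io, coeff_th, coeff_thL, Polynomial.smul_C]

theorem dL_io (f : PS) : dL (io f) = 0 := by
  ext1 n; simp [coeff_io, coeff_dL]

theorem dL_thL (f : LS) : dL (thL f) = thL (dL f) := by
  ext1 n; simp [coeff_dL, coeff_thL]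

theorem dL_tau : dL tau = 1 := by
  ext1 n; simp only [coeff_dL, tau, coeff_C, coeff_one]; split_ifs <;> simp

theorem thL_tau : thL tau = 1 := by
  ext1 n; simp only [coeff_thL, tau, coeff_C, coeff_one]; split_ifs with h <;> simp [h]

theorem io_inj : Function.Injective io := fun f g h => by
  ext n; simpa [coeff_io] using congrArg (coeff n) h

theorem io_smul (c : ℚ) (f : PS) : io (c • f) = c • io f := map_rat_smul io c f

theorem io_can (w : ℤ) (j : ℕ) (u : PS) : io (can th UU w j u) = can thL (io UU) w j (io u) :=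
  can_map io io_th w j u

theorem io_sol (k : ℕ) (u v : PS) (j : JJ k) :
    io (sol th UU k u v j) = sol thL (io UU) k (io u) (io v) j := by
  cases j <;> exact io_can _ _ _

theorem dL_sol (k : ℕ) (u v : LS) (j : JJ k) :
    dL (sol thL (io UU) k u v j) = sol thL (io UU) k (dL u) (dL v) j := by
  cases j <;> exact can_comm dL_thL (dL_io _) _ _ _

theorem coeff_iter_th (r : ℕ) (f : PS) (n : ℕ) :
    coeff n ((th : PS → PS)^[r] f) = (n : ℚ) ^ r * coeff n f := by
  induction r with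
  | zero => simp
  | succ r ih => rw [Function.iterate_succ_apply', coeff_th, ih]; ring

theorem card_JJ (k : ℕ) : Fintype.card (JJ k) = k + 3 := by simp; omega

theorem card_Ix (k D : ℕ) : Fintype.card (Ix k D) = (k + 3) * D := by
  rw [Fintype.card_prod, card_JJ, Fintype.card_fin]

namespace Mod

variable {M : ℤ → Submodule ℚ PS} (h : Mod M)
include h

theorem mul' {a b c : ℤ} {f g : PS} (hf : f ∈ M a) (hg : g ∈ M b) (e : c = a + b) :
    f * g ∈ M c := e ▸ h.mul a b f g hf hg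

theorem pow {a : ℤ} {f : PS} (hf : f ∈ M a) (n : ℕ) : f ^ n ∈ M (n * a) := by
  induction n with
  | zero => simpa using h.one
  | succ n ih => rw [pow_succ]; exact h.mul' ih hf (by push_cast; ring)

theorem prod {ι : Type} (s : Finset ι) (a : ι → ℤ) (f : ι → PS) (hf : ∀ i ∈ s, f i ∈ M (a i)) :
    ∏ i ∈ s, f i ∈ M (∑ i ∈ s, a i) := by
  classical
  induction s using Finset.induction_on with
  | empty => simpa using h.one
  | insert i s hi ih =>
    rw [prod_insert hi, sum_insert hi]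
    exact h.mul _ _ _ _ (hf i (by simp)) (ih fun j hj => hf j (by simp [hj]))

theorem e4 : E4 ∈ M 4 := (M 4).smul_mem _ (h.eis 4 le_rfl (by decide))

theorem e6 : E6 ∈ M 6 := (M 6).smul_mem _ (h.eis 6 (by decide) (by decide))

theorem ee : EE ∈ M 4 := (M 4).smul_mem _ h.e4

theorem dl : Dl ∈ M 12 := (M 12).smul_mem _ ((M 12).sub_mem (h.pow h.e4 3) (h.pow h.e6 2))

theorem ramL : thL (io UU) = io UU ^ 2 - io EE := by rw [← io_th, h.ram, map_sub, map_pow]

theorem can (hC : StC) {w : ℤ} {u : PS} (hu : u ∈ M w) (j : ℕ) :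
    can th UU w j u ∈ M (w + 2 * j) := by
  induction j using Nat.strong_induction_on with
  | _ j ih =>
    rcases j with _ | j
    · simpa [can_zero] using hu
    · have e := hC PS th UU EE h.ram w j u
      rw [← sub_eq_iff_eq_add] at e
      rw [← e]
      refine (M _).sub_mem ?_ ?_
      · have := h.ser _ _ (ih j (by omega))
        rwa [show w + 2 * (j : ℤ) + 2 = w + 2 * ((j + 1 : ℕ) : ℤ) by push_cast; ring] at this
      · rcases j with _ | j
        · simp
        · exact (M _).smul_mem _ (h.mul' h.ee (ih j (by omega)) (by push_cast; ring))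

end Mod

/-! ### integrality -/

namespace IntS

variable {f g : PS}

theorem add (h : IntS f) (h' : IntS g) : IntS (f + g) := fun n => by
  obtain ⟨a, ha⟩ := h n; obtain ⟨b, hb⟩ := h' n
  exact ⟨a + b, by simp [ha, hb]⟩

theorem zsmul (c : ℤ) (h : IntS f) : IntS ((c : ℚ) • f) := fun n => by
  obtain ⟨a, ha⟩ := h n
  exact ⟨c * a, by simp [ha]⟩

theorem neg (h : IntS f) : IntS (-f) := by simpa using h.zsmul (-1)

theorem mul (h : IntS f) (h' : IntS g) : IntS (f * g) := fun n => by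
  choose a ha using h; choose b hb using h'
  exact ⟨∑ x ∈ antidiagonal n, a x.1 * b x.2, by simp [coeff_mul, ha, hb]⟩

theorem one : IntS 1 := fun n => ⟨if n = 0 then 1 else 0, by simp [coeff_one]⟩

theorem zero : IntS 0 := fun _ => ⟨0, by simp⟩

theorem pow (h : IntS f) (n : ℕ) : IntS (f ^ n) := by
  induction n with
  | zero => simpa using one
  | succ n ih => rw [pow_succ]; exact ih.mul h

theorem bd (h : IntS f) : BD f := ⟨1, one_ne_zero, by simpa using h⟩

theorem it (h : IntS f) (p N : ℕ) [Fact p.Prime] : It p N f := fun n _ => by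
  obtain ⟨a, ha⟩ := h n
  rw [ha]; exact padicNorm.of_int a

end IntS

namespace BD

variable {f g : PS}

theorem add (h : BD f) (h' : BD g) : BD (f + g) := by
  obtain ⟨a, a0, ha⟩ := h; obtain ⟨b, b0, hb⟩ := h'
  refine ⟨a * b, mul_ne_zero a0 b0, ?_⟩
  have := (ha.zsmul b).add (hb.zsmul a)
  simpa [smul_smul, mul_comm] using this

theorem mul (h : BD f) (h' : BD g) : BD (f * g) := by
  obtain ⟨a, a0, ha⟩ := h; obtain ⟨b, b0, hb⟩ := h'
  refine ⟨a * b, mul_ne_zero a0 b0, ?_⟩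
  have := ha.mul hb
  simpa [smul_smul, mul_comm] using this

theorem smul (c : ℚ) (h : BD f) : BD (c • f) := by
  obtain ⟨a, a0, ha⟩ := h
  refine ⟨a * c.den, mul_ne_zero a0 c.den_nz, ?_⟩
  have := ha.zsmul c.num
  rw [smul_smul] at this ⊢
  convert this using 2
  push_cast
  rw [mul_assoc, Rat.den_mul_eq_num, mul_comm]

theorem sum {ι : Type} (s : Finset ι) (u : ι → PS) (h : ∀ i ∈ s, BD (u i)) : BD (∑ i ∈ s, u i) :=
  Finset.sum_induction u BD (fun _ _ => add) IntS.zero.bd h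

theorem pow (h : BD f) (n : ℕ) : BD (f ^ n) := by
  induction n with
  | zero => simpa using IntS.one.bd
  | succ n ih => rw [pow_succ]; exact ih.mul h

end BD

/-! ### congruences -/

section Pad

variable {p N : ℕ} [hp : Fact p.Prime] {f g : PS}

theorem Zt.it (h : Zt p N f) : It p N f := fun n hn => (h n hn).le

omit hp in
theorem It.mono {N' : ℕ} (h : It p N f) (e : N' ≤ N) : It p N' f :=
  fun n hn => h n (hn.trans_le e)

omit hp in
theorem Zt.mono {N' : ℕ} (h : Zt p N f) (e : N' ≤ N) : Zt p N' f :=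
  fun n hn => h n (hn.trans_le e)

theorem It.add (h : It p N f) (h' : It p N g) : It p N (f + g) := fun n hn => by
  rw [map_add]; exact padicNorm.nonarchimedean.trans (max_le (h n hn) (h' n hn))

theorem Zt.add (h : Zt p N f) (h' : Zt p N g) : Zt p N (f + g) := fun n hn => by
  rw [map_add]; exact padicNorm.nonarchimedean.trans_lt (max_lt (h n hn) (h' n hn))

theorem It.neg (h : It p N f) : It p N (-f) := fun n hn => by
  rw [map_neg, padicNorm.neg]; exact h n hn

theorem Zt.neg (h : Zt p N f) : Zt p N (-f) := fun n hn => by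
  rw [map_neg, padicNorm.neg]; exact h n hn

theorem It.sub (h : It p N f) (h' : It p N g) : It p N (f - g) := by
  rw [sub_eq_add_neg]; exact h.add h'.neg

theorem Zt.sub (h : Zt p N f) (h' : Zt p N g) : Zt p N (f - g) := by
  rw [sub_eq_add_neg]; exact h.add h'.neg

theorem Zt.zero : Zt p N 0 := fun n _ => by simp

theorem It.sum {ι : Type} (s : Finset ι) (u : ι → PS) (h : ∀ i ∈ s, It p N (u i)) :
    It p N (∑ i ∈ s, u i) :=
  Finset.sum_induction u (It p N) (fun _ _ => It.add) Zt.zero.it h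

theorem Zt.sum {ι : Type} (s : Finset ι) (u : ι → PS) (h : ∀ i ∈ s, Zt p N (u i)) :
    Zt p N (∑ i ∈ s, u i) :=
  Finset.sum_induction u (Zt p N) (fun _ _ => Zt.add) Zt.zero h

theorem It.mul (h : It p N f) (h' : It p N g) : It p N (f * g) := fun n hn => by
  rw [coeff_mul]
  refine padicNorm.sum_le' (fun x hx => ?_) zero_le_one
  have := mem_antidiagonal.1 hx
  rw [padicNorm.mul]
  exact mul_le_one₀ (h _ (by omega)) (padicNorm.nonneg _) (h' _ (by omega))

theorem It.mul_zt (h : It p N f) (h' : Zt p N g) : Zt p N (f * g) := fun n hn => by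
  rw [coeff_mul]
  refine padicNorm.sum_lt' (fun x hx => ?_) zero_lt_one
  have := mem_antidiagonal.1 hx
  rw [padicNorm.mul]
  exact mul_lt_one_of_nonneg_of_lt_one_right (h _ (by omega)) (padicNorm.nonneg _)
    (h' _ (by omega))

theorem Zt.mul_it (h : Zt p N f) (h' : It p N g) : Zt p N (f * g) := by
  rw [mul_comm]; exact h'.mul_zt h

theorem It.smul {c : ℚ} (hc : padicNorm p c ≤ 1) (h : It p N f) : It p N (c • f) := fun n hn => by
  rw [coeff_smul, smul_eq_mul, padicNorm.mul]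
  exact mul_le_one₀ hc (padicNorm.nonneg _) (h n hn)

theorem Zt.smul {c : ℚ} (hc : padicNorm p c ≤ 1) (h : Zt p N f) : Zt p N (c • f) := fun n hn => by
  rw [coeff_smul, smul_eq_mul, padicNorm.mul]
  exact mul_lt_one_of_nonneg_of_lt_one_right hc (padicNorm.nonneg _) (h n hn)

theorem It.smul_zt {c : ℚ} (hc : padicNorm p c < 1) (h : It p N f) : Zt p N (c • f) :=
  fun n hn => by
  rw [coeff_smul, smul_eq_mul, padicNorm.mul]
  exact mul_lt_one_of_nonneg_of_lt_one_left (padicNorm.nonneg _) hc (h n hn)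

theorem It.one : It p N 1 := IntS.one.it p N

theorem It.pow (h : It p N f) (n : ℕ) : It p N (f ^ n) := by
  induction n with
  | zero => simpa using It.one
  | succ n ih => rw [pow_succ]; exact ih.mul h

theorem It.iter (h : It p N f) (r : ℕ) : It p N ((th : PS → PS)^[r] f) := fun n hn => by
  rw [coeff_iter_th, padicNorm.mul]
  exact mul_le_one₀ (by exact_mod_cast padicNorm.of_nat (p := p) (n ^ r)) (padicNorm.nonneg _)
    (h n hn)

theorem Zt.iter (h : Zt p N f) (r : ℕ) : Zt p N ((th : PS → PS)^[r] f) := fun n hn => by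
  rw [coeff_iter_th, padicNorm.mul]
  exact mul_lt_one_of_nonneg_of_lt_one_right
    (by exact_mod_cast padicNorm.of_nat (p := p) (n ^ r)) (padicNorm.nonneg _) (h n hn)

theorem It.can {U : PS} (hU : It p N U) (h : It p N f) (w : ℤ) (j : ℕ) :
    It p N (can th U w j f) :=
  It.sum _ _ fun r _ => ((hU.neg.pow _).mul (h.iter r)).smul (padicNorm.of_int _)

theorem Zt.can {U : PS} (hU : It p N U) (h : Zt p N f) (w : ℤ) (j : ℕ) :
    Zt p N (can th U w j f) :=
  Zt.sum _ _ fun r _ => ((hU.neg.pow _).mul_zt (h.iter r)).smul (padicNorm.of_int _)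

/-- congruent series and congruent weights give congruent canonical derivatives -/
theorem Zt.can_sub {U : PS} (hU : It p N U) (hg : It p N g) (h : Zt p N (f - g)) {w w' : ℤ}
    (hw : (p : ℤ) ∣ w - w') (j : ℕ) : Zt p N (BK.can th U w j f - BK.can th U w' j g) := by
  have e : BK.can th U w j f - BK.can th U w' j g =
      BK.can th U w j (f - g) + (BK.can th U w j g - BK.can th U w' j g) := by
    rw [BK.can_sub]; abel
  rw [e]
  refine (h.can hU w j).add ?_
  rw [BK.can, BK.can, ← sum_sub_distrib]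
  refine Zt.sum _ _ fun r _ => ?_
  rw [← sub_smul]
  refine ((hU.neg.pow _).mul (hg.iter r)).smul_zt ?_
  rw [← Int.cast_sub, padicNorm.int_lt_one_iff, cf, cf, ← mul_sub]
  refine Dvd.dvd.mul_left ?_ _
  exact Int.ModEq.dvd (Int.ModEq.prod fun t _ => (Int.modEq_iff_dvd.2 hw).add_right _)

theorem Zt.pow_sub_one (hf : It p N f) (h : Zt p N (f - 1)) (n : ℕ) : Zt p N (f ^ n - 1) := by
  rw [← geom_sum_mul]
  exact (It.sum _ _ fun i _ => hf.pow i).mul_zt h

theorem it_UU (hI : StInt) (h5 : 5 ≤ p) : It p N UU := by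
  have h12 : padicNorm p (12 : ℚ)⁻¹ ≤ 1 := by
    have : padicNorm p ((12 : ℕ) : ℚ) = 1 := (padicNorm.nat_eq_one_iff 12).2 fun h => by
      have := Nat.le_of_dvd (by norm_num) h
      have h' := hp.out
      interval_cases p <;> revert h h' <;> decide
    rw [← one_div, padicNorm.div, padicNorm.one]
    simp only [Nat.cast_ofNat] at this
    rw [this]; simp
  have := (hI.2.2.2.1.it p N).smul h12
  simpa [smul_smul] using this

end Pad

end Pool.Agent.MP_3924c3_nt.BK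

end
end

section

open Finset Filter Topology PowerSeries

noncomputable section

namespace Pool.Agent.MP_3924c3_nt.BK

open UpperHalfPlane
open scoped MatrixGroups

theorem s_R1 : StR1 := by
  intro f g F G hf hg τ
  have a := (hf τ).summable.norm
  have b := (hg τ).summable.norm
  have c := (summable_norm_sum_mul_antidiagonal_of_summable_norm a b).of_norm.hasSum
  rw [← tsum_mul_tsum_eq_tsum_sum_antidiagonal_of_summable_norm a b, (hf τ).tsum_eq,
    (hg τ).tsum_eq] at c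
  refine c.congr_fun fun n => ?_
  rw [coeff_mul, Rat.cast_sum, sum_smul]
  refine sum_congr rfl fun x hx => ?_
  rw [← mem_antidiagonal.1 hx, pow_add, Rat.cast_mul]
  simp only [smul_eq_mul]
  ring

theorem s_R3 : StR3 := by
  intro f hf
  ext n
  have h := ModularFormClass.qExpansion_coeff_unique (Γ := 𝒮ℒ) (k := 0)
    (f := (0 : ModularForm 𝒮ℒ 0)) (c := fun n => ((coeff n f : ℚ) : ℂ)) one_pos
    one_mem_strictPeriods_SL hf n
  rw [FunLike.coe_zero, qExpansion_zero, map_zero] at h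
  exact_mod_cast h

theorem s_R6 : StR6 := by
  intro τ
  have h := (EisensteinSeries.hasSum_qExpansion_E2 (z := τ)).mul_left (12 : ℂ)⁻¹
  refine h.congr_fun fun n => ?_
  simp only [Function.Periodic.qParam, Complex.ofReal_one, div_one, smul_eq_mul, ← mul_assoc]
  congr 1
  simp only [UU, Gs, coeff_smul, coeff_mk, smul_eq_mul]
  split_ifs
  · rw [bernoulli_two]
    norm_num
  · rw [ArithmeticFunction.sigma_apply]
    push_cast
    ring

end Pool.Agent.MP_3924c3_nt.BK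

end
end

section

/-! Termwise differentiation of a convergent expansion. -/

open Finset Filter Topology PowerSeries

noncomputable section

namespace Pool.Agent.MP_3924c3_nt.BK

namespace RB

open UpperHalfPlane Function.Periodic

theorem hasDerivAt_term (c : ℂ) (n : ℕ) (z : ℂ) :
    HasDerivAt (fun w : ℂ => c • qParam 1 w ^ n)
      ((2 * Real.pi * Complex.I) * ((n * c) • qParam 1 z ^ n)) z := by
  have h1 : (fun w : ℂ => c • qParam 1 w ^ n) =
      fun w : ℂ => c * Complex.exp ((n * (2 * Real.pi * Complex.I)) * w) := by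
    funext w
    rw [qParam, ← Complex.exp_nat_mul, smul_eq_mul]
    congr 2
    simp only [Complex.ofReal_one, div_one]
    ring
  have h2 := congrFun h1 z
  have h3 := (((hasDerivAt_id z).const_mul (n * (2 * Real.pi * Complex.I) : ℂ)).cexp).const_mul c
  rw [h1, mul_smul, h2]
  refine h3.congr_deriv ?_
  simp only [id, smul_eq_mul]
  ring

theorem core (c : ℕ → ℂ) (F : ℍ → ℂ)
    (h : ∀ τ : ℍ, HasSum (fun n : ℕ => c n • qParam 1 (τ : ℂ) ^ n) (F τ)) (τ : ℍ) :
    DifferentiableAt ℂ (F ∘ ofComplex) τ ∧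
      HasSum (fun n : ℕ => (2 * Real.pi * Complex.I) * ((n * c n) • qParam 1 (τ : ℂ) ^ n))
        (deriv (F ∘ ofComplex) τ) := by
  have hτ := τ.im_pos
  have h0 : 0 < ((τ : ℂ) / 2).im := by
    rw [Complex.div_ofNat_im, coe_im]
    positivity
  have hU : IsOpen {w : ℂ | ((τ : ℂ) / 2).im < w.im} :=
    isOpen_lt continuous_const Complex.continuous_im
  have hm : (τ : ℂ) ∈ {w : ℂ | ((τ : ℂ) / 2).im < w.im} := by
    rw [Set.mem_ofPred_eq, Complex.div_ofNat_im, coe_im]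
    linarith
  have hu := (h ⟨_, h0⟩).summable.norm
  have hf : ∀ n : ℕ, DifferentiableOn ℂ (fun w : ℂ => c n • qParam 1 w ^ n)
      {w : ℂ | ((τ : ℂ) / 2).im < w.im} := fun n w _ =>
    (hasDerivAt_term (c n) n w).differentiableAt.differentiableWithinAt
  have hle : ∀ (n : ℕ) (w : ℂ), w ∈ {w : ℂ | ((τ : ℂ) / 2).im < w.im} →
      ‖c n • qParam 1 w ^ n‖ ≤ ‖c n • qParam 1 ((τ : ℂ) / 2) ^ n‖ := fun n w hw => by
    rw [norm_smul, norm_smul, norm_pow, norm_pow]
    refine mul_le_mul_of_nonneg_left (pow_le_pow_left₀ (norm_nonneg _) ?_ n) (norm_nonneg _)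
    rw [norm_qParam 1 ((τ : ℂ) / 2)]
    exact ((norm_qParam_lt_iff one_pos _ w).2 hw).le
  have he : F ∘ ofComplex =ᶠ[𝓝 (τ : ℂ)] fun w : ℂ => ∑' n : ℕ, c n • qParam 1 w ^ n := by
    filter_upwards [hU.mem_nhds hm] with w hw
    have hw0 : 0 < w.im := h0.trans hw
    rw [Function.comp_apply, ofComplex_apply_of_im_pos hw0]
    exact (h ⟨w, hw0⟩).tsum_eq.symm
  refine ⟨((Complex.differentiableOn_tsum_of_summable_norm hu hf hU hle).differentiableAt
    (hU.mem_nhds hm)).congr_of_eventuallyEq he, ?_⟩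
  have h1 := Complex.hasSum_deriv_of_summable_norm hu hf hU hle hm
  rw [he.deriv_eq]
  simpa only [(hasDerivAt_term _ _ _).deriv] using h1

end RB

theorem s_R2 : StR2 := by
  intro f F h
  refine ⟨UpperHalfPlane.mdifferentiable_iff.2 fun z hz =>
    (RB.core _ F h ⟨z, hz⟩).1.differentiableWithinAt, fun τ => ?_⟩
  have h1 := (RB.core _ F h τ).2.mul_left (2 * Real.pi * Complex.I)⁻¹
  simp only [inv_mul_cancel_left₀ Complex.two_pi_I_ne_zero] at h1
  simpa only [coeff_th, Rat.cast_mul, Rat.cast_natCast, Derivative.normalizedDerivOfComplex]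
    using h1

end Pool.Agent.MP_3924c3_nt.BK

end
end

section

open Finset Filter Topology PowerSeries

noncomputable section

namespace Pool.Agent.MP_3924c3_nt.BK

open UpperHalfPlane MatrixGroups ModularForm

theorem s_R4 (h2 : StR2) : StR4 := by
  rintro w f ⟨F, hF, hI⟩ h0
  obtain ⟨G, hG⟩ : ∃ G : ModularForm 𝒮ℒ w, (G : ℍ → ℂ) = F :=
    ⟨{ toFun := F
       slash_action_eq' := fun _ ⟨γ, hγ⟩ => hγ ▸ hI γ
       holo' := (h2 f F hF).1
       bdd_at_cusps' := fun {c} hc => by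
        rw [Subgroup.IsArithmetic.isCusp_iff_isCusp_SL2Z] at hc
        rw [OnePoint.isBoundedAt_iff_forall_SL2Z hc]
        intro γ _
        rw [hI γ]
        exact isBoundedAtImInfty_of_hasSum_qExpansion one_pos hF }, rfl⟩
  subst hG
  have hc : ∀ n, ((coeff n f : ℚ) : ℂ) = (qExpansion 1 G).coeff n :=
    ModularFormClass.qExpansion_coeff_unique one_pos one_mem_strictPeriods_SL hF
  have hz : G = 0 := by
    rcases lt_or_ge w 0 with hw | hw
    · exact rank_zero_iff_forall_zero.mp (levelOne_neg_weight_rank_zero hw) G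
    · refine sturm_bound_levelOne (lt_of_lt_of_le (b := ((w.toNat / 12 + 1 : ℕ) : ℕ∞))
        (by exact_mod_cast Nat.lt_succ_self _) (nat_le_order _ _ fun n hn => ?_))
      rw [← hc, h0 n (by omega), Rat.cast_zero]
  ext n
  have h1 := hc n
  rw [hz, FunLike.coe_zero, qExpansion_zero, map_zero] at h1
  exact_mod_cast h1

end Pool.Agent.MP_3924c3_nt.BK

end
end

section

/-! `E₂` is transcendental over the ring of modular forms. -/

open Finset Filter Topology PowerSeries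

noncomputable section

namespace Pool.Agent.MP_3924c3_nt.BK

open UpperHalfPlane
open scoped MatrixGroups ModularForm Real

namespace RE

theorem rep_one : Rep 1 1 := fun τ => by
  have := hasSum_single (f := fun n : ℕ =>
    ((coeff n (1 : PS) : ℚ) : ℂ) • Function.Periodic.qParam 1 (τ : ℂ) ^ n) 0
    (fun n hn => by simp [coeff_one, hn])
  simpa using this

theorem rep_pow (h1 : StR1) {f : PS} {F : ℍ → ℂ} (h : Rep f F) (n : ℕ) : Rep (f ^ n) (F ^ n) := by
  induction n with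
  | zero => simpa using rep_one
  | succ n ih => simpa only [pow_succ] using h1 _ _ _ _ ih h

theorem rep_sum (s : Finset ℕ) (f : ℕ → PS) (F : ℕ → ℍ → ℂ) (h : ∀ j ∈ s, Rep (f j) (F j)) :
    Rep (∑ j ∈ s, f j) (∑ j ∈ s, F j) := by
  induction s using Finset.induction_on with
  | empty => simpa using Rep.zero
  | insert a s ha ih =>
    rw [sum_insert ha, sum_insert ha]
    exact (h a (mem_insert_self _ _)).add (ih fun j hj => h j (mem_insert_of_mem hj))

/-- a lower triangular matrix -/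
def ga (c : ℕ) : SL(2, ℤ) := ⟨!![1, 0; c, 1], by simp [Matrix.det_fin_two]⟩

theorem denom_ga (c : ℕ) (z : ℍ) : denom (ga c) z = c * z + 1 := by
  simp [ModularGroup.denom_apply, ga]

theorem inj (z : ℍ) : Function.Injective fun c : ℕ =>
    (12 : ℂ)⁻¹ * (EisensteinSeries.E2 ∣[(2 : ℤ)] ga c) z := by
  intro c c' h
  have h1 : (c : ℂ) * z + 1 ≠ 0 := denom_ga c z ▸ denom_ne_zero _ z
  have h2 : (c' : ℂ) * z + 1 ≠ 0 := denom_ga c' z ▸ denom_ne_zero _ z
  have h3 : riemannZeta 2 ≠ 0 := riemannZeta_ne_zero_of_one_lt_re (by simp)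
  have h4 : (π : ℂ) ≠ 0 := Complex.ofReal_ne_zero.2 Real.pi_ne_zero
  have h5 : ∀ c : ℕ, ((ga c 1 0 : ℤ) : ℂ) = c := fun c => by simp [ga]
  simp only [EisensteinSeries.E2_slash_action, EisensteinSeries.D2, Pi.sub_apply, Pi.smul_apply,
    smul_eq_mul, denom_ga, h5] at h
  have h6 := mul_left_cancel₀ (one_div_ne_zero (mul_ne_zero two_ne_zero h3))
    (sub_right_injective (mul_left_cancel₀ (by norm_num) h))
  rw [div_eq_div_iff h1 h2] at h6
  have h7 : (c : ℂ) = c' := mul_left_cancel₀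
    (mul_ne_zero (mul_ne_zero two_ne_zero h4) Complex.I_ne_zero) (by linear_combination h6)
  exact_mod_cast h7

end RE

theorem s_R7 (h1 : StR1) (h3 : StR3) (h6 : StR6) : StR7 := by
  intro k w g hg h0
  have hF : ∀ j : ℕ, ∃ F, j ≤ k → Rep (g j) F ∧ Inv (w - 2 * j) F := by
    intro j
    by_cases hj : j ≤ k
    · obtain ⟨F, hF⟩ := hg j hj
      exact ⟨F, fun _ => hF⟩
    · exact ⟨0, fun h => absurd h hj⟩
  choose F hF using hF
  have h2 := RE.rep_sum (range (k + 1)) _ _ fun j hj =>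
    h1 _ _ _ _ (hF j (Nat.lt_succ_iff.1 (mem_range.1 hj))).1 (RE.rep_pow h1 h6 j)
  rw [h0] at h2
  have h4 : ∀ z, ∑ j ∈ range (k + 1), F j z * ((12 : ℂ)⁻¹ * EisensteinSeries.E2 z) ^ j = 0 := by
    intro z
    simpa [Finset.sum_apply] using (h2 z).unique (Rep.zero z)
  have h5 : ∀ z, ∑ j ∈ range (k + 1), Polynomial.monomial j (F j z) = 0 := by
    intro z
    refine Polynomial.eq_zero_of_infinite_isRoot _
      (Set.infinite_of_injective_forall_mem (RE.inj z) fun c => ?_)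
    have hd := denom_ne_zero (RE.ga c) z
    rw [Set.mem_ofPred_eq, Polynomial.IsRoot, Polynomial.eval_finsetSum,
      ← zero_mul (denom (RE.ga c) z ^ (-w)), ← h4 (RE.ga c • z), sum_mul]
    refine sum_congr rfl fun j hj => ?_
    have h7 := congrFun ((hF j (Nat.lt_succ_iff.1 (mem_range.1 hj))).2 (RE.ga c)) z
    rw [Polynomial.eval_monomial, ← h7, ModularForm.SL_slash_apply, ModularForm.SL_slash_apply,
      show -w = -(w - 2 * j) + -2 * j by ring, zpow_add₀ hd, zpow_mul, zpow_natCast]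
    ring
  intro j hj
  refine h3 _ ?_
  have h8 : F j = 0 := funext fun z => by
    simpa [Polynomial.coeff_monomial, Nat.lt_succ_iff, hj] using
      congrArg (fun P => Polynomial.coeff P j) (h5 z)
  exact h8 ▸ (hF j hj).1

end Pool.Agent.MP_3924c3_nt.BK

end
end

section

/-! Bernoulli numbers through the theorem of von Staudt and Clausen. -/

open Finset Filter Topology PowerSeries

noncomputable section

namespace Pool.Agent.MP_3924c3_nt.BK

namespace BB

theorem one_lt_norm {p k : ℕ} (hp : p.Prime) (hk : 0 < k) (hd : (p - 1) ∣ 2 * k) :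
    1 < padicNorm p (bernoulli (2 * k)) := by
  haveI := Fact.mk hp
  obtain ⟨z, hz⟩ := Bernoulli.vonStaudt_clausen k
  have hmem : p ∈ (range (2 * k + 2)).filter (fun q => q.Prime ∧ (q - 1) ∣ 2 * k) := by
    have := Nat.le_of_dvd (by omega) hd
    simp only [mem_filter, mem_range]
    exact ⟨by omega, hp, hd⟩
  rw [← add_sum_erase _ _ hmem] at hz
  by_contra hle
  rw [not_lt] at hle
  set T := ∑ q ∈ ((range (2 * k + 2)).filter (fun q => q.Prime ∧ (q - 1) ∣ 2 * k)).erase p,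
    (1 : ℚ) / (q : ℚ) with hT
  have hTle : padicNorm p T ≤ 1 := by
    refine padicNorm.sum_le' (fun q hq => ?_) zero_le_one
    have hq1 := mem_erase.1 hq
    have hq2 := (mem_filter.1 hq1.2).2.1
    have : padicNorm p (q : ℚ) = 1 := (padicNorm.nat_eq_one_iff q).2 fun h =>
      hq1.1 ((Nat.prime_dvd_prime_iff_eq hp hq2).1 h).symm
    rw [padicNorm.div, padicNorm.one, this]; simp
  have e : (1 : ℚ) / p = (z : ℚ) - bernoulli (2 * k) - T := by rw [hz]; ring
  have h1 : padicNorm p ((1 : ℚ) / p) ≤ 1 := by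
    rw [e]
    refine padicNorm.sub.trans (max_le (padicNorm.sub.trans (max_le ?_ hle)) hTle)
    exact padicNorm.of_int z
  rw [padicNorm.div, padicNorm.one, padicNorm.padicNorm_p hp.one_lt] at h1
  have : (1 : ℚ) < p := by exact_mod_cast hp.one_lt
  simp only [one_div, inv_inv] at h1
  linarith

end BB

theorem s_B : StB := by
  refine ⟨fun w hw => ?_, fun p hp h3 => ?_⟩
  · obtain ⟨k, rfl⟩ := hw
    rw [← two_mul]
    rcases Nat.eq_zero_or_pos k with rfl | hk
    · simp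
    · intro h0
      have := BB.one_lt_norm Nat.prime_two hk (by simp)
      rw [h0, padicNorm.zero] at this
      linarith
  · haveI := Fact.mk hp
    obtain ⟨k, hk⟩ : Even (p - 1) := hp.even_sub_one (by omega)
    have h := BB.one_lt_norm hp (k := k) (by omega) (by rw [hk, two_mul])
    rw [hk, ← two_mul, ← one_div, padicNorm.div, padicNorm.one, one_div]
    exact inv_lt_one_of_one_lt₀ h

theorem s_CA (hB : StB) : StCA := by
  intro M hM p N hp h5
  haveI := Fact.mk hp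
  have hev : Even (p - 1) := hp.even_sub_one (by omega)
  have hne := hB.1 _ hev
  have hlt := hB.2 p hp (by omega)
  have hc : ((p - 1 : ℕ) : ℤ) = (p : ℤ) - 1 := by omega
  have hw : ((p - 1 : ℕ) : ℚ) ≠ 0 := by
    have : p - 1 ≠ 0 := by omega
    exact_mod_cast this
  have hZ : Zt p N ((-(2 * ((p - 1 : ℕ) : ℚ)) * (bernoulli (p - 1))⁻¹) • Gs (p - 1) - 1) := by
    intro n _
    rw [map_sub, coeff_smul, smul_eq_mul, Gs, coeff_mk, coeff_one]
    split_ifs with h0
    · have : -(2 * ((p - 1 : ℕ) : ℚ)) * (bernoulli (p - 1))⁻¹ *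
          (-bernoulli (p - 1) / (2 * ((p - 1 : ℕ) : ℚ))) - 1 = 0 := by
        field_simp; ring
      rw [this, padicNorm.zero]; exact zero_lt_one
    · have e : -(2 * ((p - 1 : ℕ) : ℚ)) * (bernoulli (p - 1))⁻¹ *
          (∑ d ∈ n.divisors, (d : ℚ) ^ (p - 1 - 1)) - 0 =
          (((-(2 * ((p - 1 : ℕ) : ℤ)) * ∑ d ∈ n.divisors, (d : ℤ) ^ (p - 1 - 1) : ℤ)) : ℚ) *
            (bernoulli (p - 1))⁻¹ := by
        push_cast; ring
      rw [e, padicNorm.mul]
      exact mul_lt_one_of_nonneg_of_lt_one_right (padicNorm.of_int _) (padicNorm.nonneg _) hlt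
  refine ⟨(-(2 * ((p - 1 : ℕ) : ℚ)) * (bernoulli (p - 1))⁻¹) • Gs (p - 1), ?_, ?_, hZ⟩
  · rw [← hc]
    exact (M _).smul_mem _ (hM.eis _ (by omega) hev)
  · have := hZ.it.add (It.one (p := p) (N := N))
    rwa [sub_add_cancel] at this

end Pool.Agent.MP_3924c3_nt.BK

end
end

section

open Finset Filter Topology PowerSeries

noncomputable section

namespace Pool.Agent.MP_3924c3_nt.BK

namespace Z1

theorem gauss (n : ℕ) : ∑ j : Fin n, 2 * ((j : ℕ) : ℤ) = n * (n - 1) := by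
  induction n with
  | zero => simp
  | succ n ih =>
    rw [Fin.sum_univ_castSucc]
    simp only [Fin.val_castSucc, Fin.val_last]
    rw [ih]
    push_cast
    ring

theorem sum_wt (k : ℕ) : ∑ j, wt k j = 0 := by
  rw [Fintype.sum_sum_type]
  simp only [wt, sum_add_distrib, gauss, sum_const, card_univ, Fintype.card_fin, nsmul_eq_mul]
  push_cast
  ring

end Z1

theorem s_Z1 (hZE : StZE) (hSys : StSys) (hOk : StOk) (hF1 : StF1) (hF2 : StF2) (hLI : StLI) :
    StZ1 := by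
  intro M hM k w a hk h3 ha hb hne
  obtain ⟨C, c1, c2⟩ := hSys M hM k hk h3
  have f1 := hF1 M hM k w (fun j => a (.inr j)) (fun j => ha (.inr j)) hne
  obtain ⟨u, v, h1, h2⟩ := hLI k a (by omega) f1 fun c => hF2 k a c (by omega) hb f1
  have h4 : IsSol (wt k) C fun j => io (ee k j) := by
    have := c2 _ _ (hOk k (by omega)).2.1
    have e : (fun j => io (ee k j)) = sol thL (io UU) k (io (YY k)) 1 := funext fun j => by
      rw [ee, io_sol, map_one]
    rwa [e]
  obtain ⟨n, n1, n2⟩ := hZE M hM (JJ k) (wt k) C w a (fun s => sol thL (io UU) k (u s) (v s))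
    (ee k) (.inl 0) c1 ha (fun s => c2 _ _ (h1 s)) h2 h4 (can_zero _ _ _ _)
  refine ⟨n, n1, n2.trans (le_of_eq ?_)⟩
  rw [Z1.sum_wt, card_JJ]
  push_cast
  ring

theorem s_Z (hZ1 : StZ1) (hZ2 : StZ2) (hMu : StMu) (hBs : StBs) : StZ := by
  intro M hM k D c hk h3 hc
  set a : JJ k → PS := fun j => ∑ i, c (j, i) • mu k D (j, i) with ha
  have a1 : ∀ j, a j ∈ M (w0 k D - wt k j) := fun j =>
    Submodule.sum_mem _ fun i _ => Submodule.smul_mem _ _ (hMu M hM k D hk (j, i)).1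
  have a2 : ∀ j, BD (a j) := fun j => BD.sum _ _ fun i _ => (hMu M hM k D hk (j, i)).2.bd.smul _
  have a3 : ∀ n < NN k D, coeff n (∑ j, a j * ee k j) = 0 := fun n hn => by
    rw [← hc n hn, Fintype.sum_prod_type, map_sum]
    refine sum_congr rfl fun j _ => ?_
    rw [ha, sum_mul, map_sum]
    exact sum_congr rfl fun i _ => by rw [smul_mul_assoc, coeff_smul, smul_eq_mul, row]
  have h3' : (3 : ℤ) ≤ k := by exact_mod_cast h3
  have hD : (0 : ℤ) ≤ D := by positivity
  have r0 : (fun j => a (.inr j)) = 0 := by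
    by_contra hne
    obtain ⟨n, n1, n2⟩ := hZ1 M hM k _ a hk h3 a1 a2 hne
    refine n1 (a3 n ?_)
    rw [w0] at n2
    zify [NN]
    nlinarith
  have l0 : (fun j => a (.inl j)) = 0 := by
    by_contra hne
    obtain ⟨n, n1, n2⟩ := hZ2 M hM _ (fun j => a (.inl j)) (fun j => a1 (.inl j)) hne
    have e : ∑ j, a j * ee k j = ∑ j : Fin 2, a (.inl j) * can th UU (-1) j 1 := by
      rw [Fintype.sum_sum_type, sum_eq_zero (s := (univ : Finset (Fin (k + 1)))) fun j _ => by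
        rw [show a (.inr j) = 0 from congrFun r0 j, zero_mul], add_zero]
      rfl
    refine n1 (e ▸ a3 n ?_)
    rw [w0] at n2
    zify [NN]
    nlinarith
  funext ⟨j, i⟩
  have h0 : a j = 0 := by
    rcases j with j | j
    exacts [congrFun l0 j, congrFun r0 j]
  exact congrFun (hBs D (gwt k j) (fun i => c (j, i)) h0) i

end Pool.Agent.MP_3924c3_nt.BK

end
end

section

/-! A non-zero maximal minor. -/

open Finset Filter Topology PowerSeries

noncomputable section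

namespace Pool.Agent.MP_3924c3_nt.BK

theorem s_Min : StMin := by
  intro ι _ _ f N h
  set v : Fin N → ι → ℚ := fun n r => f r n with hv
  have hspan : Submodule.span ℚ (Set.range v) = ⊤ := by
    by_contra hne
    obtain ⟨φ, hφ0, hφ⟩ := Submodule.exists_le_ker_of_lt_top _ (lt_top_iff_ne_top.2 hne)
    apply hφ0
    have hc := h (fun r => φ fun j => if r = j then 1 else 0) fun n hn => by
      have h1 : φ (v ⟨n, hn⟩) = 0 := hφ (Submodule.subset_span ⟨⟨n, hn⟩, rfl⟩)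
      rw [LinearMap.pi_apply_eq_sum_univ] at h1
      refine Eq.trans (Finset.sum_congr rfl fun r _ => ?_) h1
      simp [hv, mul_comm]
    ext x
    rw [LinearMap.comp_apply, LinearMap.pi_apply_eq_sum_univ]
    have h2 : ∀ r, (φ fun j => if r = j then 1 else 0) = 0 := fun r => congrFun hc r
    simp [h2]
  obtain ⟨κ, a, ha, hsp, hli⟩ := exists_linearIndependent' ℚ v
  have : Finite κ := Finite.of_injective a ha
  have : Fintype κ := Fintype.ofFinite κ
  let b : Module.Basis κ ℚ (ι → ℚ) := Module.Basis.mk hli (by rw [hsp, hspan])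
  have hcard : Fintype.card ι = Fintype.card κ := by
    rw [← Module.finrank_eq_card_basis b, Module.finrank_fintype_fun_eq_card]
  let e : ι ≃ κ := Fintype.equivOfCardEq hcard
  refine ⟨fun s => (a (e s) : ℕ), ?_, fun s => (a (e s)).2, ?_⟩
  · exact Fin.val_injective.comp (ha.comp e.injective)
  · have h3 : LinearIndependent ℚ (Matrix.of fun r s => f r (a (e s) : ℕ) : Matrix ι ι ℚ).col :=
      hli.comp e e.injective
    have h4 := Matrix.linearIndependent_cols_iff_isUnit.1 h3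
    exact ((Matrix.isUnit_iff_isUnit_det _).1 h4).ne_zero

end Pool.Agent.MP_3924c3_nt.BK

end
end

section

/-! Congruences for the series `YY`. -/

open Finset Filter Topology PowerSeries

noncomputable section

namespace Pool.Agent.MP_3924c3_nt.BK

namespace CY

variable {p : ℕ} [hp : Fact p.Prime]

theorem unit {d : ℕ} (h : ¬ p ∣ d) (k : ℕ) : padicNorm p ((d : ℚ) ^ k)⁻¹ = 1 := by
  rw [IsAbsoluteValue.abv_inv (padicNorm p), IsAbsoluteValue.abv_pow (padicNorm p),
    (padicNorm.nat_eq_one_iff d).2 h, one_pow, inv_one]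

theorem lt {d k : ℕ} (h : ¬ p ∣ d) (hk : 1 ≤ k) :
    padicNorm p ((p : ℚ) ^ k * ((d : ℚ) ^ k)⁻¹) < 1 := by
  rw [padicNorm.mul, unit h, mul_one, IsAbsoluteValue.abv_pow (padicNorm p)]
  exact pow_lt_one₀ (padicNorm.nonneg _) padicNorm.padicNorm_p_lt_one_of_prime (by omega)

theorem le {d k : ℕ} (h0 : 0 < d) (h : d < p ^ 2) (hk : 1 ≤ k) :
    padicNorm p ((p : ℚ) ^ k * ((d : ℚ) ^ k)⁻¹) ≤ 1 := by
  by_cases hd : p ∣ d
  · obtain ⟨e, rfl⟩ := hd
    have he : ¬ p ∣ e := fun h' => by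
      have := Nat.le_of_dvd h0 (Nat.mul_dvd_mul_left p h')
      rw [sq] at h
      omega
    have hp0 : (p : ℚ) ^ k ≠ 0 := pow_ne_zero _ (by exact_mod_cast hp.out.ne_zero)
    rw [Nat.cast_mul, mul_pow, mul_inv, mul_inv_cancel_left₀ hp0, unit he]
  · exact (lt hd hk).le

theorem small {d n : ℕ} (hn : n < p) (hd : d ∈ n.divisors) : ¬ p ∣ d := fun h => by
  have h1 := Nat.le_of_dvd (Nat.pos_of_mem_divisors hd) h
  have h2 := Nat.divisor_le hd
  omega

theorem const {k : ℕ} (hk : 1 ≤ k) (hkp : k + 4 ≤ p) (h : Hyp k p) :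
    padicNorm p (-bernoulli (p - k) / (2 * ((p - k : ℕ) : ℚ))) < 1 := by
  have h1 : ¬ p ∣ 2 * (p - k) := fun h' => by
    rcases (Nat.Prime.dvd_mul hp.out).1 h' with h' | h' <;>
      have := Nat.le_of_dvd (by omega) h' <;> omega
  have h2 : ¬ p ∣ (bernoulli (p - k)).den := fun h' => by
    have h3 := Nat.dvd_gcd (Int.natCast_dvd.1 h) h'
    rw [(bernoulli (p - k)).reduced.gcd_eq_one] at h3
    exact hp.out.one_lt.ne' (Nat.dvd_one.1 h3)
  have h3 := (padicNorm.nat_eq_one_iff (p := p) _).2 h1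
  push_cast at h3
  rw [padicNorm.div, padicNorm.neg, h3, div_one, ← Rat.num_div_den (bernoulli (p - k)),
    padicNorm.div, (padicNorm.nat_eq_one_iff _).2 h2, div_one, padicNorm.int_lt_one_iff]
  exact h

theorem fermat {d k : ℕ} (h0 : 0 < d) (h : ¬ p ∣ d) (hkp : k + 4 ≤ p) :
    padicNorm p (((d : ℚ) ^ k)⁻¹ - (d : ℚ) ^ (p - k - 1)) < 1 := by
  have hd : (d : ℚ) ^ k ≠ 0 := pow_ne_zero _ (by exact_mod_cast h0.ne')
  have e : ((d : ℚ) ^ k)⁻¹ - (d : ℚ) ^ (p - k - 1) =
      ((d : ℚ) ^ k)⁻¹ * ((1 - (d : ℤ) ^ (p - 1) : ℤ) : ℚ) := by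
    rw [show p - 1 = k + (p - k - 1) by omega]
    push_cast
    rw [pow_add, mul_sub, mul_one, inv_mul_cancel_left₀ hd]
  rw [e, padicNorm.mul, unit h, one_mul, padicNorm.int_lt_one_iff,
    ← ZMod.intCast_zmod_eq_zero_iff_dvd]
  push_cast
  rw [ZMod.pow_card_sub_one_eq_one (mt (ZMod.natCast_eq_zero_iff d p).1 h), sub_self]

end CY

theorem s_CY : StCY := by
  intro k p hp hk hkp
  have : Fact p.Prime := ⟨hp⟩
  have e : ∀ n, coeff n ((p : ℚ) ^ k • YY k) =
      ∑ d ∈ n.divisors, (p : ℚ) ^ k * ((d : ℚ) ^ k)⁻¹ := fun n => by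
    rw [PowerSeries.coeff_smul, YY, coeff_mk, smul_eq_mul, mul_sum]
  have h3 : It p (p ^ 2) ((p : ℚ) ^ k • YY k) := fun n hn => by
    rw [e]
    exact padicNorm.sum_le' (fun d hd => CY.le (Nat.pos_of_mem_divisors hd)
      ((Nat.divisor_le hd).trans_lt hn) hk) zero_le_one
  refine ⟨fun n hn => ?_, fun h => ⟨fun n _ => ?_, fun n hn => ?_⟩, h3, fun n hn => ?_⟩
  · rw [YY, coeff_mk]
    exact padicNorm.sum_le' (fun d hd => (CY.unit (CY.small hn hd) k).le) zero_le_one
  · rw [Gs, coeff_mk]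
    split_ifs
    · exact (CY.const hk hkp h).le
    · refine padicNorm.sum_le' (fun d _ => ?_) zero_le_one
      exact_mod_cast padicNorm.of_nat (p := p) (d ^ (p - k - 1))
  · rw [map_sub, YY, Gs, coeff_mk, coeff_mk]
    split_ifs with h0
    · rw [h0, Nat.divisors_zero, sum_empty, zero_sub, padicNorm.neg]
      exact CY.const hk hkp h
    · rw [← sum_sub_distrib]
      exact padicNorm.sum_lt' (fun d hd =>
        CY.fermat (Nat.pos_of_mem_divisors hd) (CY.small hn hd) hkp) zero_lt_one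
  · rw [coeff_th, padicNorm.mul]
    by_cases hd : p ∣ n
    · exact mul_lt_one_of_nonneg_of_lt_one_left (padicNorm.nonneg _)
        ((padicNorm.nat_lt_one_iff n).2 hd) (h3 n hn)
    · rw [(padicNorm.nat_eq_one_iff n).2 hd, one_mul, e]
      exact padicNorm.sum_lt' (fun d hd' =>
        CY.lt (fun h => hd (h.trans (Nat.dvd_of_mem_divisors hd'))) hk) zero_lt_one

end Pool.Agent.MP_3924c3_nt.BK

end
end

section

open Finset Filter Topology PowerSeries

noncomputable section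

namespace Pool.Agent.MP_3924c3_nt.BK

namespace Row

theorem nrm (p k : ℕ) [Fact p.Prime] : padicNorm p ((p : ℚ) ^ k) ≤ 1 := by
  exact_mod_cast padicNorm.of_nat (p := p) (p ^ k)

theorem nrm_lt (p k : ℕ) [Fact p.Prime] (hk : 1 ≤ k) : padicNorm p ((p : ℚ) ^ k) < 1 := by
  have := (padicNorm.nat_lt_one_iff (p := p) (p ^ k)).2 (dvd_pow_self p (by omega))
  exact_mod_cast this

theorem can_diff {p N : ℕ} [Fact p.Prime] {U H : PS} (hU : It p N U) (h : Zt p N (th H))
    (w : ℤ) (j : ℕ) : Zt p N (can th U w j H - can th U w j 1 * H) := by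
  rw [can_const, can, sum_range_succ', smul_mul_assoc]
  simp only [Nat.sub_zero, Function.iterate_zero, id_eq, add_sub_cancel_right]
  refine Zt.sum _ _ fun r _ => ?_
  rw [Function.iterate_succ_apply]
  exact ((hU.neg.pow _).mul_zt (h.iter r)).smul (padicNorm.of_int _)

end Row

theorem s_Row0 (hI : StInt) (hMu : StMu) (hCY : StCY) : StRow0 := by
  intro M hM k D p r hk hp hkp
  haveI : Fact p.Prime := ⟨hp⟩
  have hk1 : 1 ≤ k := hk.pos
  have h5 : 5 ≤ p := by omega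
  have hmu := (hMu M hM k D hk r).2
  obtain ⟨hY, -, hH, -⟩ := hCY k p hp hk1 hkp
  obtain ⟨j | j, i⟩ := r
  · have h : ∀ N, It p N (row k D (.inl j, i)) := fun N =>
      (hmu.it p N).mul (It.can (it_UU hI h5) It.one _ _)
    exact ⟨h _, (h _).smul (Row.nrm p k), fun _ => h⟩
  · refine ⟨(hmu.it p _).mul (It.can (it_UU hI h5) hY _ _), ?_, fun h => by simp at h⟩
    have e : (p : ℚ) ^ k • row k D (.inr j, i) =
        mu k D (.inr j, i) * can th UU (-(k : ℤ)) j ((p : ℚ) ^ k • YY k) := by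
      rw [can_smul, mul_smul_comm]; rfl
    rw [e]
    exact (hmu.it p _).mul (It.can (it_UU hI h5) hH _ _)

theorem s_Row1 (hC : StC) (hI : StInt) (hMu : StMu) (hCA : StCA) (hCY : StCY) : StRow1 := by
  intro M hM k D p r hk hp hkp hyp
  haveI : Fact p.Prime := ⟨hp⟩
  have hk1 : 1 ≤ k := hk.pos
  have h5 : 5 ≤ p := by omega
  obtain ⟨hmM, hmu⟩ := hMu M hM k D hk r
  obtain ⟨-, hG, -, -⟩ := hCY k p hp hk1 hkp
  obtain ⟨hG1, hG2⟩ := hG hyp
  obtain ⟨A, hAM, hA1, hA2⟩ := hCA M hM p p hp h5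
  have hU : It p p UU := it_UU hI h5
  obtain ⟨j | j, i⟩ := r
  · refine ⟨mu k D (.inl j, i) * can th UU ((p : ℤ) - 1) j A,
      hM.mul' hmM (hM.can hC hAM j) (by simp only [wt]; ring),
      (hmu.it p _).mul (It.can hU hA1 _ _), ?_⟩
    have e : row k D (.inl j, i) - mu k D (.inl j, i) * can th UU ((p : ℤ) - 1) j A =
        mu k D (.inl j, i) * (can th UU (-1) j 1 - can th UU ((p : ℤ) - 1) j A) := by
      rw [mul_sub]; rfl
    rw [e]
    refine (hmu.it p _).mul_zt (Zt.can_sub hU hA1 ?_ ⟨-1, by ring⟩ _)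
    simpa using hA2.neg
  · have hodd : Odd p := hp.odd_of_ne_two (by omega)
    have hev : Even (p - k) := Nat.Odd.sub_odd hodd hk
    have hGM := hM.eis (p - k) (by omega) hev
    have hc : ((p - k : ℕ) : ℤ) = (p : ℤ) - k := by omega
    refine ⟨mu k D (.inr j, i) * can th UU ((p - k : ℕ) : ℤ) j (Gs (p - k)),
      hM.mul' hmM (hM.can hC hGM j) (by simp only [wt, hc]; ring),
      (hmu.it p _).mul (It.can hU hG1 _ _), ?_⟩
    have e : row k D (.inr j, i) -
        mu k D (.inr j, i) * can th UU ((p - k : ℕ) : ℤ) j (Gs (p - k)) =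
        mu k D (.inr j, i) * (can th UU (-(k : ℤ)) j (YY k) -
          can th UU ((p - k : ℕ) : ℤ) j (Gs (p - k))) := by
      rw [mul_sub]; rfl
    rw [e]
    exact (hmu.it p _).mul_zt (Zt.can_sub hU hG1 hG2 ⟨-1, by rw [hc]; ring⟩ _)

theorem s_Row2 (hC : StC) (hI : StInt) (hMu : StMu) (hCA : StCA) (hCY : StCY) : StRow2 := by
  intro M hM k D p r hk hp hkp
  haveI : Fact p.Prime := ⟨hp⟩
  have hk1 : 1 ≤ k := hk.pos
  have h5 : 5 ≤ p := by omega
  obtain ⟨hmM, hmu⟩ := hMu M hM k D hk r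
  obtain ⟨-, -, hH, hH'⟩ := hCY k p hp hk1 hkp
  obtain ⟨A, hAM, hA1, hA2⟩ := hCA M hM p (p ^ 2) hp h5
  have hU : It p (p ^ 2) UU := it_UU hI h5
  obtain ⟨j | j, i⟩ := r
  · refine ⟨0, zero_mem _, Zt.zero.it, ?_⟩
    rw [zero_mul, sub_zero]
    exact It.smul_zt (Row.nrm_lt p k hk1) ((hmu.it p _).mul (It.can hU It.one _ _))
  · refine ⟨mu k D (.inr j, i) * can th UU ((k : ℤ) * ((p : ℤ) - 1)) j (A ^ k),
      hM.mul' hmM (hM.can hC (hM.pow hAM k) j) (by simp only [wt]; ring),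
      (hmu.it p _).mul (It.can hU (hA1.pow k) _ _), ?_⟩
    have e0 : (p : ℚ) ^ k • row k D (.inr j, i) =
        mu k D (.inr j, i) * can th UU (-(k : ℤ)) j ((p : ℚ) ^ k • YY k) := by
      rw [can_smul, mul_smul_comm]; rfl
    rw [e0]
    set H : PS := (p : ℚ) ^ k • YY k
    have e : mu k D (.inr j, i) * can th UU (-(k : ℤ)) j H -
        mu k D (.inr j, i) * can th UU ((k : ℤ) * ((p : ℤ) - 1)) j (A ^ k) * H =
        mu k D (.inr j, i) * ((can th UU (-(k : ℤ)) j H - can th UU (-(k : ℤ)) j 1 * H) +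
          (can th UU (-(k : ℤ)) j 1 - can th UU ((k : ℤ) * ((p : ℤ) - 1)) j (A ^ k)) * H) := by
      ring
    rw [e]
    refine (hmu.it p _).mul_zt ((Row.can_diff hU hH' _ _).add (Zt.mul_it ?_ hH))
    refine Zt.can_sub hU (hA1.pow k) ?_ ⟨-k, by ring⟩ _
    simpa using (Zt.pow_sub_one hA1 hA2 k).neg

end Pool.Agent.MP_3924c3_nt.BK

end
end

section

open Finset Filter Topology PowerSeries

noncomputable section

namespace Pool.Agent.MP_3924c3_nt.BK

namespace V0

variable {p N : ℕ} [hp : Fact p.Prime]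

theorem div_le {d e : ℕ} (hd : d ≠ 0) (h : padicValNat p d ≤ e) :
    padicNorm p ((p : ℚ) ^ e / d) ≤ 1 := by
  have h0 : (p : ℚ) ≠ 0 := Nat.cast_ne_zero.2 hp.out.ne_zero
  have h1 : (d : ℚ) ≠ 0 := Nat.cast_ne_zero.2 hd
  rw [padicNorm.eq_zpow_of_nonzero (div_ne_zero (pow_ne_zero _ h0) h1),
    padicValRat.div (pow_ne_zero _ h0) h1, padicValRat.pow, padicValRat.self hp.out.one_lt,
    padicValRat.of_nat]
  exact zpow_le_one_of_nonpos₀ (by exact_mod_cast hp.out.one_le) (by omega)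

theorem it_U (hI : StInt) : It p N ((p : ℚ) ^ 2 • UU) := by
  have h1 : padicValNat p 12 ≤ 2 := by
    by_contra hc
    have h2 : p ^ 3 ∣ 12 := (padicValNat_dvd_iff_le (by norm_num)).2 (by omega)
    have h3 := Nat.le_of_dvd (by norm_num) h2
    have h4 : p < 3 := lt_of_pow_lt_pow_left₀ 3 (by norm_num) (by omega)
    have h5 := hp.out.two_le
    obtain rfl : p = 2 := by omega
    norm_num at h2
  have h2 := (hI.2.2.2.1.it p N).smul (div_le (d := 12) (by norm_num) h1)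
  rwa [smul_smul, Nat.cast_ofNat, div_mul_cancel₀ _ (by norm_num)] at h2

theorem it_Y (k : ℕ) : It p N (((p : ℚ) ^ Nat.log p N) ^ k • YY k) := fun n hn => by
  rw [coeff_smul, YY, coeff_mk, smul_eq_mul, mul_sum]
  refine padicNorm.sum_le' (fun d hd => ?_) zero_le_one
  rw [← div_eq_mul_inv, ← div_pow, IsAbsoluteValue.abv_pow (padicNorm p)]
  refine pow_le_one₀ (padicNorm.nonneg _) (div_le (Nat.pos_of_mem_divisors hd).ne' ?_)
  exact (padicValNat_le_nat_log d).trans
    (Nat.log_mono_right ((Nat.divisor_le hd).trans hn.le))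

theorem it_can {U u : PS} {s t : ℚ} (hs : padicNorm p s ≤ 1) (hU : It p N (s • U))
    (hu : It p N (t • u)) (w : ℤ) {j k : ℕ} (hj : j ≤ k) :
    It p N ((s ^ k * t) • can th U w j u) := by
  rw [can, smul_sum]
  refine It.sum _ _ fun r _ => ?_
  have e : (s ^ k * t) • (cf w j r : ℚ) • ((-U) ^ (j - r) * (th : PS → PS)^[r] u) =
      (cf w j r : ℚ) • s ^ (k - (j - r)) •
        ((-(s • U)) ^ (j - r) * (th : PS → PS)^[r] (t • u)) := by
    rw [iter_smul, ← smul_neg, smul_pow, smul_mul_smul_comm, smul_smul (s ^ _), ← mul_assoc,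
      ← pow_add, Nat.sub_add_cancel (by omega), smul_comm]
  rw [e]
  refine (((hU.neg.pow _).mul (hu.iter r)).smul ?_).smul (padicNorm.of_int _)
  rw [IsAbsoluteValue.abv_pow (padicNorm p)]
  exact pow_le_one₀ (padicNorm.nonneg _) hs

theorem le_pow {f : PS} {e n : ℕ} (h : It p N ((p : ℚ) ^ e • f)) (hn : n < N) :
    padicNorm p (coeff n f) ≤ (p : ℚ) ^ e := by
  have h1 := h n hn
  have h0 : (0 : ℚ) < (p : ℚ) ^ e := pow_pos (Nat.cast_pos.2 hp.out.pos) e
  rwa [coeff_smul, smul_eq_mul, padicNorm.mul, IsAbsoluteValue.abv_pow (padicNorm p),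
    padicNorm.padicNorm_p hp.out.one_lt, inv_pow, inv_mul_le_iff₀ h0, mul_one] at h1

end V0

theorem s_V0 (hI : StInt) (hMu : StMu) (hR0 : StRow0) (hG1 : MP_384f6f_nt.NW.StG1) : StV0 := by
  intro M hM k D p c hk hc hp
  have := Fact.mk hp
  refine ⟨?_, fun h1 h2 => ?_⟩
  · have hpw : ∀ e : ℕ, padicNorm p ((p : ℚ) ^ e) ≤ 1 := fun e => by
      exact_mod_cast padicNorm.of_nat (p := p) (p ^ e)
    have he : ∀ j : JJ k, It p (NN k D)
        ((((p : ℚ) ^ 2) ^ k * ((p : ℚ) ^ Nat.log p (NN k D)) ^ k) • ee k j) := fun j => by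
      rcases j with j | j
      · refine V0.it_can (hpw 2) (V0.it_U hI) (It.one.smul ?_) _ ?_
        · rw [← pow_mul]
          exact hpw _
        · have := hk.pos
          omega
      · exact V0.it_can (hpw 2) (V0.it_U hI) (V0.it_Y k) _ (by omega)
    refine (hG1 (Ix k D) p _ (fun _ => (p : ℚ) ^ (2 * k + k * Nat.log p (NN k D))) (fun _ => 1) hp
      fun r s => ?_).trans_eq ?_
    · rw [mul_one, Matrix.of_apply]
      refine V0.le_pow ?_ (hc.2 s)
      rw [row, ← mul_smul_comm, pow_add, pow_mul, mul_comm k, pow_mul]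
      exact ((hMu M hM k D hk r).2.it p _).mul (he r.1)
    · rw [prod_const_one, mul_one, prod_const, card_univ, card_Ix, b0, neg_neg, zpow_natCast,
        ← pow_mul, mul_comm]
  · refine (hG1 (Ix k D) p _ (fun _ => 1) (fun _ => 1) hp fun r s => ?_).trans_eq (by simp)
    rw [mul_one, Matrix.of_apply]
    exact (hR0 M hM k D p r hk hp h1).1 _ ((hc.2 s).trans_le h2)

end Pool.Agent.MP_3924c3_nt.BK

end
end

section

/-! Weighted prime sums over a dilated interval. -/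

open Finset Filter Topology PowerSeries

noncomputable section

namespace Pool.Agent.MP_3924c3_nt.BK

namespace PN

theorem scale (g : ℕ → ℝ) (m : ℕ) (hm : m ≠ 0) (c : ℝ)
    (h : Tendsto (fun x : ℝ => (∑ p ∈ (Ioc 0 ⌊x⌋₊).filter Nat.Prime, g p) / x ^ m) atTop (𝓝 c))
    (a : ℕ) : Tendsto (fun D : ℕ => (∑ p ∈ (Ioc 0 (a * D)).filter Nat.Prime, g p) / (D : ℝ) ^ m)
      atTop (𝓝 (c * (a : ℝ) ^ m)) := by
  rcases Nat.eq_zero_or_pos a with rfl | ha
  · simp [hm]
  · have h1 : Tendsto (fun D : ℕ => ((a * D : ℕ) : ℝ)) atTop atTop :=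
      tendsto_natCast_atTop_atTop.comp
        (tendsto_atTop_mono (fun D => Nat.le_mul_of_pos_left D ha) tendsto_id)
    refine ((h.comp h1).mul_const ((a : ℝ) ^ m)).congr fun D => ?_
    have h2 : (a : ℝ) ^ m ≠ 0 := by positivity
    simp only [Function.comp_apply, Nat.floor_natCast]
    rw [Nat.cast_mul, mul_pow, div_mul_eq_mul_div, mul_comm ((a : ℝ) ^ m),
      mul_div_mul_right _ _ h2]

theorem diff (g : ℕ → ℝ) {u v : ℕ} (h : u ≤ v) :
    ∑ p ∈ (Ioc u v).filter Nat.Prime, g p =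
      ∑ p ∈ (Ioc 0 v).filter Nat.Prime, g p - ∑ p ∈ (Ioc 0 u).filter Nat.Prime, g p := by
  simp only [sum_filter]
  rw [← sum_Ioc_consecutive _ (Nat.zero_le u) h, add_sub_cancel_left]

end PN

theorem s_PN (hT : MP_384f6f_nt.NW.StT) (hT1 : MP_384f6f_nt.NW.StT1) : StPN := by
  intro a b α β hab
  have h0 := PN.scale (fun p => Real.log p) 1 one_ne_zero 1 (by simp only [pow_one]; exact hT)
  have h1 := PN.scale (fun p => (p : ℝ) * Real.log p) 2 two_ne_zero (1 / 2) hT1
  have h2 := (((h0 b).sub (h0 a)).const_mul α).add (((h1 b).sub (h1 a)).const_mul β)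
  have h3 : α * (1 * (b : ℝ) ^ 1 - 1 * (a : ℝ) ^ 1) + β * (1 / 2 * (b : ℝ) ^ 2 - 1 / 2 * (a : ℝ) ^ 2) =
      α * (b - a) + β * (b ^ 2 - a ^ 2) / 2 := by ring
  rw [h3] at h2
  refine h2.congr' ?_
  filter_upwards [eventually_gt_atTop 0] with D hD
  have hD' : (D : ℝ) ≠ 0 := by positivity
  have h4 := Nat.mul_le_mul_right D hab
  rw [← sub_div, ← sub_div, ← PN.diff _ h4, ← PN.diff _ h4]
  have h5 : ∑ p ∈ (Ioc (a * D) (b * D)).filter Nat.Prime, (α * D + β * p) * Real.log p =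
      α * D * ∑ p ∈ (Ioc (a * D) (b * D)).filter Nat.Prime, Real.log p +
        β * ∑ p ∈ (Ioc (a * D) (b * D)).filter Nat.Prime, (p : ℝ) * Real.log p := by
    rw [mul_sum, mul_sum, ← sum_add_distrib]
    exact sum_congr rfl fun p _ => by ring
  rw [h5]
  field_simp

end Pool.Agent.MP_3924c3_nt.BK

end
end

section

/-! Majorants. -/

open Finset Filter Topology PowerSeries

noncomputable section

namespace Pool.Agent.MP_3924c3_nt.BK

namespace Mj

theorem tri (a b : ℕ → ℝ) (ha : ∀ n, 0 ≤ a n) (hb : ∀ n, 0 ≤ b n) (N : ℕ) :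
    ∑ n ∈ range N, ∑ x ∈ antidiagonal n, a x.1 * b x.2 ≤
      (∑ n ∈ range N, a n) * ∑ n ∈ range N, b n := by
  rw [sum_mul_sum, ← sum_product', ← sum_biUnion]
  · refine sum_le_sum_of_subset_of_nonneg ?_ fun x _ _ => mul_nonneg (ha _) (hb _)
    intro x hx
    obtain ⟨n, hn, hx⟩ := mem_biUnion.1 hx
    rw [HasAntidiagonal.mem_antidiagonal] at hx
    rw [mem_range] at hn
    exact mem_product.2 ⟨mem_range.2 (by omega), mem_range.2 (by omega)⟩
  · intro m _ n _ hmn
    refine disjoint_left.2 fun x h1 h2 => hmn ?_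
    rw [HasAntidiagonal.mem_antidiagonal] at h1 h2
    omega

theorem nn {f : PS} {K : ℝ} (h : Maj f K) : 0 ≤ K := by simpa using h 0

theorem mul {f g : PS} {K L : ℝ} (hf : Maj f K) (hg : Maj g L) : Maj (f * g) (K * L) := by
  intro N
  have h := tri (fun n => |((coeff n f : ℚ) : ℝ)| / 10 ^ n)
    (fun n => |((coeff n g : ℚ) : ℝ)| / 10 ^ n) (fun n => by positivity) (fun n => by positivity) N
  refine le_trans (sum_le_sum fun n _ => ?_) (h.trans
    (mul_le_mul (hf N) (hg N) (sum_nonneg fun n _ => by positivity) (nn hf)))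
  rw [coeff_mul, Rat.cast_sum, div_le_iff₀ (by positivity), sum_mul]
  refine (abs_sum_le_sum_abs _ _).trans (sum_le_sum fun x hx => le_of_eq ?_)
  rw [← mem_antidiagonal.1 hx, Rat.cast_mul, abs_mul, pow_add]
  field_simp

theorem one : Maj 1 1 := by
  intro N
  have e : ∀ n : ℕ, |((coeff n (1 : PS) : ℚ) : ℝ)| / 10 ^ n = if n = 0 then 1 else 0 := by
    intro n
    rw [coeff_one]
    split_ifs with h
    · simp [h]
    · simp
  simp only [e, sum_ite_eq']
  split_ifs <;> norm_num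

theorem smb (a : ℕ) : Summable fun n : ℕ => ((n : ℝ) + 1) ^ a / 10 ^ n := by
  have h := summable_pow_mul_geometric_of_norm_lt_one (R := ℝ) a (r := 1 / 10)
    (by rw [Real.norm_of_nonneg] <;> norm_num)
  have h1 := ((summable_nat_add_iff 1).2 h).mul_left 10
  refine h1.congr fun n => ?_
  push_cast
  rw [pow_succ (1 / 10 : ℝ), one_div_pow]
  field_simp

end Mj

theorem s_Mj : StMj := by
  refine ⟨fun f g K L => Mj.mul, fun f g K L hf hg N => ?_, fun c f K hf N => ?_,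
    fun f K n hf => ?_, fun f K n hf => ?_, fun f C a h => ?_⟩
  · refine le_trans ?_ (add_le_add (hf N) (hg N))
    rw [← sum_add_distrib]
    refine sum_le_sum fun n _ => ?_
    rw [map_add, Rat.cast_add, ← add_div]
    exact div_le_div_of_nonneg_right (abs_add_le _ _) (by positivity)
  · refine le_trans (le_of_eq ?_) (mul_le_mul_of_nonneg_left (hf N) (abs_nonneg _))
    rw [mul_sum]
    refine sum_congr rfl fun n _ => ?_
    rw [map_smul, smul_eq_mul, Rat.cast_mul, abs_mul, mul_div_assoc]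
  · induction n with
    | zero => simpa using Mj.one
    | succ n ih =>
      rw [pow_succ, pow_succ]
      exact Mj.mul ih hf
  · rw [← div_le_iff₀ (by positivity)]
    exact (single_le_sum (f := fun n => |((coeff n f : ℚ) : ℝ)| / 10 ^ n)
      (fun n _ => by positivity) (self_mem_range_succ n)).trans (hf (n + 1))
  · have hC : 0 ≤ C := by simpa using (abs_nonneg _).trans (h 0)
    refine ⟨∑' n : ℕ, C * (((n : ℝ) + 1) ^ a / 10 ^ n), fun N => ?_⟩
    refine le_trans (sum_le_sum fun n _ => ?_)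
      (((Mj.smb a).mul_left C).sum_le_tsum (range N) fun n _ => by positivity)
    rw [← mul_div_assoc]
    exact div_le_div_of_nonneg_right (h n) (by positivity)

end Pool.Agent.MP_3924c3_nt.BK

end
end

section

/-!
A majorant for the finitely many fixed factors of the rows.
-/

open Finset Filter Topology PowerSeries

noncomputable section

namespace Pool.Agent.MP_3924c3_nt.BK

namespace MR

/-- coefficients of polynomial growth -/
def PG (f : PS) : Prop := ∃ (C : ℚ) (a : ℕ), ∀ n, |coeff n f| ≤ C * (n + 1) ^ a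

theorem div_le (n a : ℕ) (F : ℕ → ℚ) (h : ∀ d ∈ n.divisors, |F d| ≤ ((n : ℚ) + 1) ^ a) :
    |∑ d ∈ n.divisors, F d| ≤ ((n : ℚ) + 1) ^ (a + 1) := by
  refine (abs_sum_le_sum_abs _ _).trans ((sum_le_card_nsmul _ _ _ h).trans ?_)
  rw [nsmul_eq_mul, pow_succ']
  refine mul_le_mul_of_nonneg_right ?_ (by positivity)
  have : (n.divisors.card : ℚ) ≤ n := by exact_mod_cast Nat.card_divisors_le_self n
  linarith

theorem pg_Gs (w : ℕ) : PG (Gs w) := by
  refine ⟨|-bernoulli w / (2 * w)| + 1, w - 1 + 1, fun n => ?_⟩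
  have h0 := abs_nonneg (-bernoulli w / (2 * w))
  rw [Gs, coeff_mk]
  split_ifs with h
  · subst h
    simp
  · refine (div_le n (w - 1) _ fun d hd => ?_).trans
      (le_mul_of_one_le_left (by positivity) (by linarith))
    have : (d : ℚ) ≤ n := by exact_mod_cast Nat.divisor_le hd
    rw [abs_of_nonneg (by positivity)]
    exact pow_le_pow_left₀ (by positivity) (by linarith) _

theorem pg_YY (k : ℕ) : PG (YY k) := by
  refine ⟨1, 0 + 1, fun n => ?_⟩
  rw [YY, coeff_mk, one_mul]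
  refine div_le n 0 _ fun d hd => ?_
  have : (1 : ℚ) ≤ d := by exact_mod_cast Nat.pos_of_mem_divisors hd
  rw [abs_of_nonneg (by positivity), pow_zero]
  exact inv_le_one_of_one_le₀ (one_le_pow₀ this)

theorem pg_one : PG 1 := by
  refine ⟨1, 0, fun n => ?_⟩
  rw [coeff_one]
  split_ifs <;> simp

theorem PG.iter {f : PS} (h : PG f) (r : ℕ) : PG ((th : PS → PS)^[r] f) := by
  obtain ⟨C, a, h⟩ := h
  refine ⟨C, r + a, fun n => ?_⟩
  rw [coeff_iter_th, abs_mul, abs_of_nonneg (by positivity), pow_add, mul_left_comm C]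
  exact mul_le_mul (pow_le_pow_left₀ (by positivity) (by linarith) _) (h n) (abs_nonneg _)
    (by positivity)

/-- some majorant exists -/
def HM (f : PS) : Prop := ∃ K, Maj f K

variable (hMj : StMj) {f g : PS}
include hMj

theorem PG.hm (h : PG f) : HM f := by
  obtain ⟨C, a, h⟩ := h
  exact hMj.2.2.2.2.2 f C a fun n => by exact_mod_cast h n

theorem HM.mul (h : HM f) (h' : HM g) : HM (f * g) :=
  let ⟨_, h⟩ := h; let ⟨_, h'⟩ := h'; ⟨_, hMj.1 _ _ _ _ h h'⟩

theorem HM.add (h : HM f) (h' : HM g) : HM (f + g) :=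
  let ⟨_, h⟩ := h; let ⟨_, h'⟩ := h'; ⟨_, hMj.2.1 _ _ _ _ h h'⟩

theorem HM.smul (c : ℚ) (h : HM f) : HM (c • f) :=
  let ⟨_, h⟩ := h; ⟨_, hMj.2.2.1 c _ _ h⟩

theorem HM.pow (h : HM f) (n : ℕ) : HM (f ^ n) :=
  let ⟨_, h⟩ := h; ⟨_, hMj.2.2.2.1 _ _ n h⟩

theorem hm_can {u : PS} (hu : PG u) (w : ℤ) (j : ℕ) : HM (can th UU w j u) := by
  have hU : HM (-UU) := by
    rw [← neg_one_smul ℚ UU]
    exact HM.smul hMj _ (HM.smul hMj _ ((pg_Gs 2).hm hMj))
  refine Finset.sum_induction _ HM (fun _ _ => HM.add hMj) ⟨0, fun N => by simp⟩ fun r _ => ?_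
  exact HM.smul hMj _ (HM.mul hMj (HM.pow hMj hU _) ((hu.iter r).hm hMj))

end MR

open MR in
theorem s_MR (hMj : StMj) : StMR := by
  intro k
  have h : ∀ j : JJ k, HM (gw (gwt k j) * ee k j) := fun j => by
    refine HM.mul hMj (HM.mul hMj (HM.pow hMj (HM.smul hMj _ ((pg_Gs 4).hm hMj)) _)
      (HM.pow hMj (HM.smul hMj _ ((pg_Gs 6).hm hMj)) _)) ?_
    cases j with
    | inl j => exact hm_can hMj pg_one _ _
    | inr j => exact hm_can hMj (pg_YY k) _ _
  choose K hK using h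
  have h0 : ∀ j, 0 ≤ K j := fun j => by simpa using hK j 0
  have h1 : 0 ≤ ∑ j, K j := sum_nonneg fun j _ => h0 j
  refine ⟨1 + ∑ j, K j, by linarith, fun j N => (hK j N).trans ?_⟩
  have := single_le_sum (fun j _ => h0 j) (mem_univ j)
  linarith

end Pool.Agent.MP_3924c3_nt.BK

end
end

section

open Finset Filter Topology PowerSeries

noncomputable section

namespace Pool.Agent.MP_3924c3_nt.BK

namespace A0

theorem det_le {ι : Type} [Fintype ι] [DecidableEq ι] (A : Matrix ι ι ℚ) (L w : ι → ℝ)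
    (h : ∀ r s, |(A r s : ℝ)| ≤ L r * w s) :
    |((A.det : ℚ) : ℝ)| ≤ ((Fintype.card ι).factorial : ℝ) * ((∏ r, L r) * ∏ s, w s) := by
  rw [Matrix.det_apply']
  push_cast
  refine (Finset.abs_sum_le_sum_abs _ _).trans ?_
  have key : ∀ σ : Equiv.Perm ι,
      |(((Equiv.Perm.sign σ : ℤˣ) : ℤ) : ℝ) * ∏ i, (A (σ i) i : ℝ)| ≤ (∏ r, L r) * ∏ s, w s := by
    intro σ
    have h1 : |(((Equiv.Perm.sign σ : ℤˣ) : ℤ) : ℝ)| = 1 := by
      rcases Int.units_eq_one_or (Equiv.Perm.sign σ) with h | h <;> simp [h]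
    rw [abs_mul, h1, one_mul, Finset.abs_prod, ← Equiv.prod_comp σ L, ← Finset.prod_mul_distrib]
    exact Finset.prod_le_prod (fun i _ => abs_nonneg _) (fun i _ => h _ _)
  refine (Finset.sum_le_sum fun σ _ => key σ).trans (le_of_eq ?_)
  rw [Finset.sum_const, Finset.card_univ, Fintype.card_perm, nsmul_eq_mul]

theorem prod_le (D : ℕ) :
    ∏ i : Fin D, ((146 / 100 : ℝ) ^ (i : ℕ) * (5545 / 100 : ℝ) ^ (3 * (D - 1 - i))) ≤
      250000 ^ (D * (D - 1) / 2) := by
  rw [Fin.prod_univ_eq_prod_range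
    (fun i => (146 / 100 : ℝ) ^ i * (5545 / 100 : ℝ) ^ (3 * (D - 1 - i))) D,
    Finset.prod_mul_distrib, Finset.prod_pow_eq_pow_sum, Finset.prod_pow_eq_pow_sum,
    ← Finset.mul_sum, Finset.sum_range_reflect (fun i => i) D, Finset.sum_range_id, pow_mul,
    ← mul_pow]
  exact pow_le_pow_left₀ (by norm_num) (by norm_num) _

end A0

theorem s_A0 (hMj : StMj) (hME : StME) (hTD : StTD) (hMD : StMD) (hMR : StMR) : StA0 := by
  intro M hM k
  obtain ⟨K, hK1, hK⟩ := hMR k
  refine ⟨K, hK1, fun D c => ?_⟩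
  obtain ⟨hmul, -, -, hpow, hco, -⟩ := hMj
  have hrow : ∀ r : Ix k D, Maj (row k D r)
      ((146 / 100 : ℝ) ^ (r.2 : ℕ) * (5545 / 100 : ℝ) ^ (3 * (D - 1 - r.2)) * K) := fun r => by
    unfold row mu bs
    rw [mul_assoc (Dl ^ _ * _)]
    exact hmul _ _ _ _ (hmul _ _ _ _ (hpow _ _ _ (hMD (hTD M hM))) (hpow _ _ _ hME.1)) (hK r.1)
  have h1 := A0.det_le (Matrix.of fun r s : Ix k D => coeff (c s) (row k D r))
    (fun r => (146 / 100 : ℝ) ^ (r.2 : ℕ) * (5545 / 100 : ℝ) ^ (3 * (D - 1 - r.2)) * K)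
    (fun s => 10 ^ c s) (fun r s => hco _ _ _ (hrow r))
  refine h1.trans ?_
  rw [card_Ix, Finset.prod_pow_eq_pow_sum, Finset.prod_mul_distrib, Finset.prod_const,
    Finset.card_univ, card_Ix, Fintype.prod_prod_type]
  simp only [Finset.prod_const, Finset.card_univ, card_JJ]
  have h2 := pow_le_pow_left₀ (Finset.prod_nonneg fun i _ => by positivity) (A0.prod_le D) (k + 3)
  rw [← pow_mul, mul_comm (D * (D - 1) / 2)] at h2
  have hK0 : 0 ≤ K := by linarith
  calc _ ≤ (((k + 3) * D).factorial : ℝ) *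
        (250000 ^ ((k + 3) * (D * (D - 1) / 2)) * K ^ ((k + 3) * D) * 10 ^ (∑ s, c s)) := by
        gcongr
    _ = _ := by ring

end Pool.Agent.MP_3924c3_nt.BK

end
end

section

/-!
From the weighted count `Ex` to a lower bound for the number of primes.
-/

open Finset Filter Topology PowerSeries

noncomputable section

namespace Pool.Agent.MP_3924c3_nt.BK

namespace Den

theorem ex_le (k x : ℕ) : Ex k (x / (12 * (k + 2))) ≤
    (((Ioc 0 x).filter fun p => p.Prime ∧ ¬ Hyp k p).card : ℝ) * Real.log x := by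
  have hs : (PP k (x / (12 * (k + 2)))).filter (fun p => ¬ Hyp k p) ⊆
      (Ioc 0 x).filter fun p => p.Prime ∧ ¬ Hyp k p := by
    intro p hp
    simp only [PP, mem_filter, mem_Ioc] at hp ⊢
    exact ⟨⟨hp.1.1.1, hp.1.1.2.trans (Nat.mul_div_le x _)⟩, hp.1.2, hp.2⟩
  calc Ex k (x / (12 * (k + 2)))
      ≤ ∑ p ∈ (Ioc 0 x).filter fun p => p.Prime ∧ ¬ Hyp k p, Real.log p :=
        sum_le_sum_of_subset_of_nonneg hs fun p _ _ => Real.log_natCast_nonneg p
    _ ≤ ∑ _p ∈ (Ioc 0 x).filter fun p => p.Prime ∧ ¬ Hyp k p, Real.log x := by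
        refine sum_le_sum fun p hp => ?_
        simp only [mem_filter, mem_Ioc] at hp
        exact Real.log_le_log (by exact_mod_cast hp.1.1) (by exact_mod_cast hp.1.2)
    _ = _ := by rw [sum_const, nsmul_eq_mul]

theorem den (k : ℕ) (δ c : ℝ) (hδ : 0 < δ) (hc : c * (12 * (k + 2)) < δ) (h : StFin k δ) :
    StDen k c := by
  have hm : 0 < 12 * (k + 2) := by omega
  have ht : Tendsto (fun x : ℕ => x / (12 * (k + 2))) atTop atTop :=
    Nat.tendsto_div_const_atTop hm.ne'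
  have hmR : (0 : ℝ) < 12 * (k + 2) := by positivity
  have h1 : ∀ᶠ x : ℕ in atTop, δ * (12 * (k + 2)) / (δ - c * (12 * (k + 2))) ≤ (x : ℝ) :=
    tendsto_natCast_atTop_atTop.eventually_ge_atTop _
  filter_upwards [ht.eventually h, h1, eventually_ge_atTop 2] with x hx h1 h2
  have hl : 0 < Real.log x := Real.log_pos (by exact_mod_cast h2)
  rw [div_le_iff₀ hl]
  refine le_trans ?_ (hx.trans (ex_le k x))
  have h3 : (x : ℝ) < (12 * (k + 2)) * (((x / (12 * (k + 2)) : ℕ) : ℝ) + 1) := by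
    exact_mod_cast Nat.lt_mul_div_succ x hm
  rw [div_le_iff₀ (sub_pos.2 hc)] at h1
  have h4 : c * x * (12 * (k + 2)) ≤ δ * ((x / (12 * (k + 2)) : ℕ) : ℝ) * (12 * (k + 2)) := by
    nlinarith
  exact le_of_mul_le_mul_right h4 hmR

end Den

theorem s_Den3 (h : StFin 3 1) : StDen 3 (1 / 61) := Den.den 3 1 _ one_pos (by norm_num) h

theorem s_Den5 (h : StFin 5 (1 / 4)) : StDen 5 (1 / 337) :=
  Den.den 5 (1 / 4) _ (by norm_num) (by norm_num) h

end Pool.Agent.MP_3924c3_nt.BK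

end
end

section

/-! The final comparison. -/

open Finset Filter Topology PowerSeries

noncomputable section

namespace Pool.Agent.MP_3924c3_nt.BK

theorem fin_gen (hM : StMod) (hZ : StZ) (hMin : StMin) (hV0 : StV0) (hV1 : StV1) (hV2 : StV2)
    (hA : StA) (hPF : MP_384f6f_nt.NW.StPF) {k x : ℕ} {I δ : ℝ} (hk : Odd k) (h3 : 3 ≤ k)
    (hS : StSum k x I)
    (hI : (k + 3) / 2 * Real.log (10 ^ (k + 3) * 250000) + (k + 3) * δ < I) : StFin k δ := by
  filter_upwards [hS, hA _ hM k _ (sub_pos.2 hI), eventually_ge_atTop (k + 3)] with D h1 h2 hD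
  obtain ⟨c, c1, c2, c3⟩ := hMin (Ix k D) (fun r n => coeff n (row k D r)) (NN k D)
    (fun c hc => hZ _ hM k D c hk h3 hc)
  have ha : Adm k D c := ⟨c1, c2⟩
  have h4 := hPF (Det k D c) (PP k D) (bet k x D) c3 (fun p hp => (mem_filter.1 hp).2)
    (fun p hp => by
      have pp := (mem_filter.1 hp).2
      unfold bet
      split_ifs with g1 g2 g3
      · exact (hV0 _ hM k D p c hk ha pp).1
      · exact hV1 _ hM k D p c hk h3 ha pp (by omega) (by omega)
      · exact (hV2 _ hM k D p c hk h3 ha pp (by omega) (by omega)).1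
      · exact (hV2 _ hM k D p c hk h3 ha pp (by omega) (by omega)).2)
    (fun p pp hp => by
      have h5 : 12 * (k + 2) * D < p := by
        by_contra h
        exact hp (mem_filter.2 ⟨mem_Ioc.2 ⟨pp.pos, by omega⟩, pp⟩)
      refine (hV0 _ hM k D p c hk ha pp).2 (by nlinarith) ?_
      unfold NN
      nlinarith)
  have h6 := h2 c ha c3
  have D0 : (0 : ℝ) < D := by exact_mod_cast (by omega : 0 < D)
  have k0 : (0 : ℝ) < (k + 3) * D := by positivity
  refine le_of_mul_le_mul_left ?_ k0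
  nlinarith

theorem log_le_of {y : ℝ} {n : ℕ} (h0 : 0 < y) (h : y ≤ 2.7182818283 ^ n) : Real.log y ≤ n := by
  rw [Real.log_le_iff_le_exp h0, ← Real.exp_one_pow]
  exact h.trans (pow_le_pow_left₀ (by norm_num) Real.exp_one_gt_d9.le n)

theorem s_Fin3 (hM : StMod) (hZ : StZ) (hMin : StMin) (hV0 : StV0) (hV1 : StV1) (hV2 : StV2)
    (hA : StA) (hPF : MP_384f6f_nt.NW.StPF) (hS : StSum 3 4 91) : StFin 3 1 := by
  refine fin_gen hM hZ hMin hV0 hV1 hV2 hA hPF (by decide) le_rfl hS ?_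
  have := log_le_of (y := 10 ^ (3 + 3) * 250000) (n := 27) (by norm_num) (by norm_num)
  push_cast at this ⊢
  generalize Real.log _ = L at this ⊢
  norm_num
  linarith

theorem s_Fin5 (hM : StMod) (hZ : StZ) (hMin : StMin) (hV0 : StV0) (hV1 : StV1) (hV2 : StV2)
    (hA : StA) (hPF : MP_384f6f_nt.NW.StPF) (hS : StSum 5 5 127) : StFin 5 (1 / 4) := by
  refine fin_gen hM hZ hMin hV0 hV1 hV2 hA hPF (by decide) (by norm_num) hS ?_
  have := log_le_of (y := 10 ^ (5 + 3) * 250000) (n := 31) (by norm_num) (by norm_num)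
  push_cast at this ⊢
  generalize Real.log _ = L at this ⊢
  norm_num
  linarith

end Pool.Agent.MP_3924c3_nt.BK

end
end
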