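import Pool.Agent.Mg.F3792c7p.Gd4108d
import Pool.Agent.Mg.F3792c7p.G7b3e93
import Pool.Agent.Mg.F3792c7p.G4955d1
import Pool.Agent.Mg.F3792c7p.G947474

set_option linter.all false

section

open Finset Filter Topology PowerSeries

noncomputable section

namespace Pool.Agent.MP_3924c3_nt.BK.K7

theorem s_LA : StLA := by
  intro V Y _ _ _ _ _ Φ R E _ hR hΦ
  have h1 := LinearMap.finrank_range_add_finrank_ker
    ((R.comap E.subtype).mkQ ∘ₗ Φ.codRestrict E hΦ)
  have h2 : LinearMap.ker ((R.comap E.subtype).mkQ ∘ₗ Φ.codRestrict E hΦ) = R.comap Φ := by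
    ext v
    simp
  have h3 := Submodule.finrank_quotient_add_finrank (R.comap E.subtype)
  have h4 := Submodule.finrank_le
    (LinearMap.range ((R.comap E.subtype).mkQ ∘ₗ Φ.codRestrict E hΦ))
  rw [(Submodule.comapSubtypeEquivOfLe hR).finrank_eq] at h3
  rw [h2] at h1
  omega

namespace G4L

theorem inf_ker {k V Y : Type} [Field k] [AddCommGroup V] [Module k V] [Module.Finite k V]
    [AddCommGroup Y] [Module k Y] (L : V →ₗ[k] Y) (W : Submodule k V) :
    Module.finrank k W = Module.finrank k (W.map L) +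
      Module.finrank k ↥(W ⊓ LinearMap.ker L) := by
  rw [← LinearMap.finrank_range_add_finrank_ker (L.domRestrict W), LinearMap.range_domRestrict,
    LinearMap.ker_domRestrict, ← Submodule.finrank_map_subtype_eq W (Submodule.comap _ _),
    Submodule.map_comap_subtype]

theorem unit {ι : Type} [Fintype ι] (p : ℕ) [Fact p.Prime] {W : Submodule ℚ (ι → ℚ)}
    (hW : W ≠ ⊥) : ∃ y ∈ W, ∃ i, Iv p y ∧ y i = 1 := by
  obtain ⟨c, hc, hne⟩ := (Submodule.ne_bot_iff W).1 hW
  obtain ⟨j, hj⟩ := Function.ne_iff.1 hne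
  obtain ⟨i, -, hm⟩ := exists_max_image univ (fun i => padicNorm p (c i)) ⟨j, mem_univ j⟩
  have h0 : 0 < padicNorm p (c i) :=
    lt_of_lt_of_le (lt_of_le_of_ne (padicNorm.nonneg _) (padicNorm.nonzero hj).symm)
      (hm j (mem_univ j))
  have c0 : c i ≠ 0 := fun e => by simp [e] at h0
  refine ⟨(c i)⁻¹ • c, W.smul_mem _ hc, i, fun r => ?_, inv_mul_cancel₀ c0⟩
  rw [Pi.smul_apply, smul_eq_mul, ← div_eq_inv_mul, padicNorm.div, div_le_one h0]
  exact hm r (mem_univ r)

theorem mem_Rd {ι : Type} (p : ℕ) [Fact p.Prime] {W : Submodule ℚ (ι → ℚ)} {u : ι → ZMod p}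
    (hu : u ∈ Rd p (W : Set (ι → ℚ))) : ∃ x ∈ W, Iv p x ∧ rd p x = u := by
  induction hu using Submodule.span_induction with
  | mem u h =>
    obtain ⟨x, hx, e⟩ := h
    exact ⟨x, hx.1, hx.2, e⟩
  | zero => exact ⟨0, zero_mem _, fun r => by simp, funext fun r => by simp [rd]⟩
  | add u v _ _ h1 h2 =>
    obtain ⟨x, a1, a2, rfl⟩ := h1
    obtain ⟨y, b1, b2, rfl⟩ := h2
    exact ⟨x + y, add_mem a1 b1, fun r => padicNorm.nonarchimedean.trans (max_le (a2 r) (b2 r)),
      funext fun r => (MP_384f6f_nt.NW.stRed p _ _ (a2 r) (b2 r)).1⟩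
  | smul a u _ h1 =>
    obtain ⟨x, a1, a2, rfl⟩ := h1
    have ha : padicNorm p (a.val : ℚ) ≤ 1 := padicNorm.of_nat _
    refine ⟨(a.val : ℚ) • x, W.smul_mem _ a1, fun r => ?_, funext fun r => ?_⟩
    · rw [Pi.smul_apply, smul_eq_mul, padicNorm.mul]
      exact mul_le_one₀ ha (padicNorm.nonneg _) (a2 r)
    · have := (MP_384f6f_nt.NW.stRed p _ _ ha (a2 r)).2.1
      rw [Rat.cast_natCast, ZMod.natCast_zmod_val] at this
      exact this

end G4L

theorem s_G4 : StG4 := by
  intro ι _ _ p _ W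
  induction h : Module.finrank ℚ W using Nat.strong_induction_on generalizing W with
  | _ n ih =>
    rcases n with _ | n
    · exact Nat.zero_le _
    obtain ⟨y, hy, i, h1, h2⟩ := G4L.unit p (W := W) (by
      rintro rfl
      simp at h)
    have h3 := G4L.inf_ker (LinearMap.proj i : (ι → ℚ) →ₗ[ℚ] ℚ) W
    have h4 := Submodule.finrank_le (W.map (LinearMap.proj i : (ι → ℚ) →ₗ[ℚ] ℚ))
    rw [Module.finrank_self] at h4
    have h5 : W ⊓ LinearMap.ker (LinearMap.proj i : (ι → ℚ) →ₗ[ℚ] ℚ) < W :=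
      lt_of_le_of_ne inf_le_left fun e => by
        have h6 : y i = 0 := (e.ge hy).2
        rw [h2] at h6
        exact one_ne_zero h6
    have h6 := ih _ (h ▸ Submodule.finrank_lt_finrank_of_lt h5) _ rfl
    have h7 : Rd p (↑(W ⊓ LinearMap.ker (LinearMap.proj i : (ι → ℚ) →ₗ[ℚ] ℚ)) : Set (ι → ℚ)) <
        Rd p (W : Set (ι → ℚ)) :=
      lt_of_le_of_ne (Rd_mono p fun x hx _ => hx.1) fun e => by
        obtain ⟨x, a1, -, a3⟩ := G4L.mem_Rd p (e.ge (Submodule.subset_span ⟨y, ⟨hy, h1⟩, rfl⟩))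
        have a4 : x i = 0 := a1.2
        have a5 := congrFun a3 i
        rw [rd, rd, a4, h2, Rat.cast_zero, Rat.cast_one] at a5
        exact zero_ne_one a5
    have h8 := Submodule.finrank_lt_finrank_of_lt h7
    omega

theorem s_G5 (hG4 : StG4) : StG5 := by
  intro ι _ _ p _ W M T hM hT
  let L : (ι → ZMod p) →ₗ[ZMod p] ι → ZMod p := Matrix.vecMulLinear (Matrix.of fun r => rd p (M r))
  have hL : ∀ u, L u = ∑ r, u r • rd p (M r) := fun u => by
    funext s
    simp [L, Matrix.vecMul, dotProduct, Finset.sum_apply]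
  have h1 := G4L.inf_ker L (Rd p (W : Set (ι → ℚ)))
  have h2 : (Rd p (W : Set (ι → ℚ))).map L ≤ Submodule.span (ZMod p) (T : Set (ι → ZMod p)) := by
    rintro _ ⟨u, -, rfl⟩
    rw [hL]
    exact Submodule.sum_mem _ fun r _ => Submodule.smul_mem _ _ (hT r)
  have h3 := (Submodule.finrank_mono h2).trans (finrank_span_finset_le_card T)
  have h4 : Rd p (W : Set (ι → ℚ)) ⊓ LinearMap.ker L ≤
      Rd p {x : ι → ℚ | x ∈ W ∧ ∀ s, padicNorm p (∑ r, x r * M r s) ≤ (p : ℚ)⁻¹} := by
    rintro u ⟨hu, hk⟩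
    obtain ⟨x, a1, a2, rfl⟩ := G4L.mem_Rd p hu
    refine Submodule.subset_span ⟨x, ⟨⟨a1, fun s => ?_⟩, a2⟩, rfl⟩
    have b1 : ∀ r, padicNorm p (x r * M r s) ≤ 1 := fun r => by
      rw [padicNorm.mul]
      exact mul_le_one₀ (a2 r) (padicNorm.nonneg _) (hM r s)
    have b2 := congrFun ((hL _).symm.trans hk) s
    have b3 := (MP_384f6f_nt.NW.stRed p (∑ r, x r * M r s) 0
      (padicNorm.sum_le' (fun r _ => b1 r) zero_le_one) (by simp)).2.2 (by
        rw [Finset.sum_apply] at b2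
        rw [RK.red_sum p _ _ b1, Rat.cast_zero]
        exact (sum_congr rfl fun r _ =>
          (MP_384f6f_nt.NW.stRed p _ _ (a2 r) (hM r s)).2.1).trans b2)
    rwa [sub_zero] at b3
  have h5 := Submodule.finrank_mono h4
  have h6 := hG4 ι p W
  omega

end Pool.Agent.MP_3924c3_nt.BK.K7

end
end

section

open Finset Filter Topology PowerSeries

noncomputable section

namespace Pool.Agent.MP_3924c3_nt.BK.K7

namespace SumL

theorem dW_ge (D p s : ℕ) (hs : s ≤ 7) :
    12 * (10 - s) * D ≤ 12 * dW 7 D p s + s * (8 - s) * p + 840 := by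
  unfold dW
  interval_cases s <;> omega

theorem bt_ge (D p ρ : ℕ) (l : ℤ) (hl : 0 ≤ l) (hρ : 12 * (ρ : ℤ) ≤ 12 * D + p + 84 + 12 * l) :
    (-336 * (D : ℤ) - 84 * p ≤ 12 * (bt 7 D p ρ + l + 1000)) ∧
    (p ≤ 10 * D → (-348 * (D : ℤ) - 73 * p ≤ 12 * (bt 7 D p ρ + l + 1000)) ∧
      (-492 * (D : ℤ) - 3 * p ≤ 12 * (bt 7 D p ρ + l + 1000)) ∧
      (-648 * (D : ℤ) + 52 * p ≤ 12 * (bt 7 D p ρ + l + 1000)) ∧
      (-744 * (D : ℤ) + 76 * p ≤ 12 * (bt 7 D p ρ + l + 1000)) ∧
      (-852 * (D : ℤ) + 95 * p ≤ 12 * (bt 7 D p ρ + l + 1000))) ∧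
    (10 * D ≤ p → 108 * (D : ℤ) - p ≤ 12 * (bt 7 D p ρ + l + 1000)) := by
  have e : (Icc 1 7 : Finset ℕ) = {1, 2, 3, 4, 5, 6, 7} := by decide
  have h1 := dW_ge D p 1 (by norm_num)
  have h2 := dW_ge D p 2 (by norm_num)
  have h3 := dW_ge D p 3 (by norm_num)
  have h4 := dW_ge D p 4 (by norm_num)
  have h5 := dW_ge D p 5 (by norm_num)
  have h6 := dW_ge D p 6 (by norm_num)
  have h7 := dW_ge D p 7 (by norm_num)
  have l1 : p ≤ 10 * D → p ≤ lo 7 D p + 100 := by unfold lo NN; omega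
  have l2 : 10 * D ≤ p → 10 * D ≤ lo 7 D p + 100 := by unfold lo NN; omega
  have a : ∀ s, lo 7 D p ≤ max (lo 7 D p) (dW 7 D p s) ∧
      dW 7 D p s ≤ max (lo 7 D p) (dW 7 D p s) := fun s => ⟨le_max_left _ _, le_max_right _ _⟩
  have a1 := a 1
  have a2 := a 2
  have a3 := a 3
  have a4 := a 4
  have a5 := a 5
  have a6 := a 6
  have a7 := a 7
  have t : lo 7 D p ≤ (lo 7 D p - ρ) + ρ := by omega
  unfold bt
  rw [e, sum_insert (by decide), sum_insert (by decide), sum_insert (by decide),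
    sum_insert (by decide), sum_insert (by decide), sum_insert (by decide), sum_singleton]
  generalize max (lo 7 D p) (dW 7 D p 1) = m1 at *
  generalize max (lo 7 D p) (dW 7 D p 2) = m2 at *
  generalize max (lo 7 D p) (dW 7 D p 3) = m3 at *
  generalize max (lo 7 D p) (dW 7 D p 4) = m4 at *
  generalize max (lo 7 D p) (dW 7 D p 5) = m5 at *
  generalize max (lo 7 D p) (dW 7 D p 6) = m6 at *
  generalize max (lo 7 D p) (dW 7 D p 7) = m7 at *
  generalize lo 7 D p - ρ = u at *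
  clear a
  omega

/-- the loss at the bad primes -/
def ls (H : ℕ → Prop) [DecidablePred H] (D p : ℕ) : ℤ := if ¬ H p then 10 * D else 0

/-- piecewise linear lower bound -/
def LL (e : ℝ) (D p : ℕ) : ℝ :=
  if p ≤ 1 * D then (-28 - e) * D + (-7) * p
  else if p ≤ 2 * D then (-29 - e) * D + (-73 / 12) * p
  else if p ≤ 3 * D then (-41 - e) * D + (-1 / 4) * p
  else if p ≤ 4 * D then (-54 - e) * D + (13 / 3) * p
  else if p ≤ 6 * D then (-62 - e) * D + (19 / 3) * p
  else if p ≤ 10 * D then (-71 - e) * D + (95 / 12) * p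
  else (9 - e) * D + (-1 / 12) * p

theorem pt (H : ℕ → Prop) [DecidablePred H] (e : ℝ) (he : 0 < e) (D p : ℕ) (hK : 1000 ≤ e * D)
    (hD : 100 ≤ D) :
    (if p ^ 2 < NN 7 D ∨ p < 7 + 4 then (b0 7 D p : ℝ) else 0) + LL e D p - ls H D p
      ≤ (bet H D p : ℝ) := by
  have h0 : 0 ≤ ls H D p := by
    unfold ls
    split_ifs <;> positivity
  have hp : (0 : ℝ) ≤ p := Nat.cast_nonneg _
  have hD0 : (0 : ℝ) ≤ D := Nat.cast_nonneg _
  unfold bet
  by_cases h1 : p ^ 2 < NN 7 D ∨ p < 7 + 4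
  · have h2 : p ≤ 1 * D := by
      rcases h1 with h1 | h1
      · by_contra h3
        have h5 : D ^ 2 ≤ p ^ 2 := Nat.pow_le_pow_left (by omega) 2
        unfold NN at h1
        nlinarith
      · omega
    have h3 : (0 : ℝ) ≤ ls H D p := by exact_mod_cast h0
    rw [if_pos h1, if_pos h1, LL, if_pos h2]
    linarith
  rw [if_neg h1, if_neg h1, zero_add]
  obtain ⟨b1, b2, b3⟩ := bt_ge D p (if H p then rho 7 D p else (7 + 3) * D) (ls H D p) h0 (by
    unfold ls rho
    by_cases h : H p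
    · rw [if_pos h, if_neg (not_not.2 h)]
      omega
    · rw [if_neg h, if_pos h]
      omega)
  generalize bt 7 D p _ = B at *
  generalize ls H D p = l at *
  unfold LL
  split_ifs with c1 c2 c3 c4 c5 c6
  · have := (Int.cast_le (R := ℝ)).2 b1
    push_cast at this
    linarith
  · have := (Int.cast_le (R := ℝ)).2 (b2 (by omega)).1
    push_cast at this
    linarith
  · have := (Int.cast_le (R := ℝ)).2 (b2 (by omega)).2.1
    push_cast at this
    linarith
  · have := (Int.cast_le (R := ℝ)).2 (b2 (by omega)).2.2.1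
    push_cast at this
    linarith
  · have := (Int.cast_le (R := ℝ)).2 (b2 (by omega)).2.2.2.1
    push_cast at this
    linarith
  · have := (Int.cast_le (R := ℝ)).2 (b2 (by omega)).2.2.2.2
    push_cast at this
    linarith
  · have := (Int.cast_le (R := ℝ)).2 (b3 (by omega))
    push_cast at this
    linarith

theorem piece {e : ℝ} {D a b : ℕ} {α β : ℝ}
    (h : ∀ p, a * D < p → p ≤ b * D → LL e D p = α * D + β * p) :
    ∑ p ∈ (Ioc (a * D) (b * D)).filter Nat.Prime, LL e D p * Real.log p =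
      ∑ p ∈ (Ioc (a * D) (b * D)).filter Nat.Prime, (α * D + β * p) * Real.log p :=
  sum_congr rfl fun p hp => by
    have := mem_Ioc.1 (mem_filter.1 hp).1
    rw [h p this.1 this.2]

theorem sumLL (e : ℝ) (D : ℕ) :
    ∑ p ∈ PP 7 D, LL e D p * Real.log p =
      ∑ p ∈ (Ioc (0 * D) (1 * D)).filter Nat.Prime, ((-28 - e) * D + (-7) * p) * Real.log p +
      ∑ p ∈ (Ioc (1 * D) (2 * D)).filter Nat.Prime, ((-29 - e) * D + (-73 / 12) * p) * Real.log p +
      ∑ p ∈ (Ioc (2 * D) (3 * D)).filter Nat.Prime, ((-41 - e) * D + (-1 / 4) * p) * Real.log p +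
      ∑ p ∈ (Ioc (3 * D) (4 * D)).filter Nat.Prime, ((-54 - e) * D + (13 / 3) * p) * Real.log p +
      ∑ p ∈ (Ioc (4 * D) (6 * D)).filter Nat.Prime, ((-62 - e) * D + (19 / 3) * p) * Real.log p +
      ∑ p ∈ (Ioc (6 * D) (10 * D)).filter Nat.Prime, ((-71 - e) * D + (95 / 12) * p) * Real.log p +
      ∑ p ∈ (Ioc (10 * D) (108 * D)).filter Nat.Prime,
        ((9 - e) * D + (-1 / 12) * p) * Real.log p := by
  have e0 : PP 7 D = (Ioc (0 * D) (108 * D)).filter Nat.Prime := by
    rw [PP, zero_mul]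
  rw [e0, SumG.split _ (b := 10 * D) (by omega) (by omega),
    SumG.split _ (b := 6 * D) (c := 10 * D) (by omega) (by omega),
    SumG.split _ (b := 4 * D) (c := 6 * D) (by omega) (by omega),
    SumG.split _ (b := 3 * D) (c := 4 * D) (by omega) (by omega),
    SumG.split _ (b := 2 * D) (c := 3 * D) (by omega) (by omega),
    SumG.split _ (b := 1 * D) (c := 2 * D) (by omega) (by omega)]
  rw [piece (a := 0) (b := 1) fun p _ _ => by rw [LL, if_pos (by omega)],
    piece (a := 1) (b := 2) fun p _ _ => by rw [LL, if_neg (by omega), if_pos (by omega)],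
    piece (a := 2) (b := 3) fun p _ _ => by
      rw [LL, if_neg (by omega), if_neg (by omega), if_pos (by omega)],
    piece (a := 3) (b := 4) fun p _ _ => by
      rw [LL, if_neg (by omega), if_neg (by omega), if_neg (by omega), if_pos (by omega)],
    piece (a := 4) (b := 6) fun p _ _ => by
      rw [LL, if_neg (by omega), if_neg (by omega), if_neg (by omega), if_neg (by omega),
        if_pos (by omega)],
    piece (a := 6) (b := 10) fun p _ _ => by
      rw [LL, if_neg (by omega), if_neg (by omega), if_neg (by omega), if_neg (by omega),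
        if_neg (by omega), if_pos (by omega)],
    piece (a := 10) (b := 108) fun p _ _ => by
      rw [LL, if_neg (by omega), if_neg (by omega), if_neg (by omega), if_neg (by omega),
        if_neg (by omega), if_neg (by omega)]]

end SumL

open SumL in
theorem s_Sum (hPN : StPN) (hSm : StSm) : StSum := by
  intro H _
  obtain ⟨e, he⟩ : ∃ e : ℝ, e = 1 / 10000 := ⟨_, rfl⟩
  have he0 : 0 < e := by rw [he]; norm_num
  have t := ((((((hPN 0 1 (-28 - e) (-7) (by omega)).add
    (hPN 1 2 (-29 - e) (-73 / 12) (by omega))).add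
    (hPN 2 3 (-41 - e) (-1 / 4) (by omega))).add
    (hPN 3 4 (-54 - e) (13 / 3) (by omega))).add
    (hPN 4 6 (-62 - e) (19 / 3) (by omega))).add
    (hPN 6 10 (-71 - e) (95 / 12) (by omega))).add
    (hPN 10 108 (9 - e) (-1 / 12) (by omega))
  have t2 : Tendsto (fun D : ℕ => e * (D : ℝ)) atTop atTop :=
    tendsto_natCast_atTop_atTop.const_mul_atTop he0
  filter_upwards [t.eventually (lt_mem_nhds (a := 1587 / 10 + e) (by rw [he]; norm_num)),
    hSm 7 e he0, t2.eventually_ge_atTop 1000, eventually_ge_atTop 100] with D h1 h2 h3 h4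
  have hD : (0 : ℝ) < (D : ℝ) ^ 2 := by
    have : (0 : ℝ) < D := by exact_mod_cast (show 0 < D by omega)
    positivity
  simp only [← add_div] at h1
  rw [← sumLL e D, lt_div_iff₀ hD] at h1
  have h5 : ∑ p ∈ PP 7 D, ((if p ^ 2 < NN 7 D ∨ p < 7 + 4 then (b0 7 D p : ℝ) else 0) +
      LL e D p - ls H D p) * Real.log p ≤ ∑ p ∈ PP 7 D, (bet H D p : ℝ) * Real.log p :=
    sum_le_sum fun p _ => mul_le_mul_of_nonneg_right (pt H e he0 D p h3 h4)
      (Real.log_natCast_nonneg p)
  have h6 : ∑ p ∈ PP 7 D, (ls H D p : ℝ) * Real.log p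
      = 10 * D * ∑ p ∈ (PP 7 D).filter (fun p => ¬ H p), Real.log p := by
    rw [sum_filter, mul_sum]
    refine sum_congr rfl fun p _ => ?_
    unfold ls
    split_ifs <;> simp
  simp only [sub_mul, add_mul, sum_sub_distrib, sum_add_distrib, ite_mul, zero_mul] at h5
  rw [← sum_filter, h6] at h5
  linarith

end Pool.Agent.MP_3924c3_nt.BK.K7

end
end

section

/-! The archimedean bound for the determinant, finer form. -/

open Finset Filter Topology PowerSeries

noncomputable section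

namespace Pool.Agent.MP_3924c3_nt.BK.K7

namespace AL

theorem S_le (D : ℕ) : 6 * ∑ i ∈ range D, (D - 1 - i - 2 * i) ≤ D * (D + 1) := by
  induction D using Nat.strong_induction_on with
  | _ D ih =>
    match D, ih with
    | 0, _ => simp
    | 1, _ => simp
    | 2, _ => decide
    | D + 3, ih =>
      have h := ih D (by omega)
      have e : ∑ i ∈ range D, (D + 3 - 1 - (i + 1) - 2 * (i + 1)) =
          ∑ i ∈ range D, (D - 1 - i - 2 * i) := sum_congr rfl fun i _ => by omega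
      have e1 : D + 3 - 1 - (D + 1) - 2 * (D + 1) = 0 := by omega
      have e2 : D + 3 - 1 - (D + 1 + 1) - 2 * (D + 1 + 1) = 0 := by omega
      have e3 : D + 3 - 1 - 0 - 2 * 0 = D + 2 := by omega
      rw [sum_range_succ', sum_range_succ, sum_range_succ, e, e1, e2, e3]
      nlinarith

theorem S_ref (D : ℕ) :
    ∑ i ∈ range D, (i - 2 * (D - 1 - i)) = ∑ i ∈ range D, (D - 1 - i - 2 * i) := by
  rw [← Finset.sum_range_reflect (fun i => D - 1 - i - 2 * i) D]
  exact sum_congr rfl fun i hi => by have := mem_range.1 hi; omega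

def bd (D i : ℕ) : ℝ := (377 / 100) ^ i * 771400 ^ (D - 1 - i) * (195 / 2) ^ (D - 1 - i - 2 * i) *
  (11 / 2) ^ (i - 2 * (D - 1 - i))

theorem bd_nn (D i : ℕ) : 0 ≤ bd D i := by unfold bd; positivity

theorem prod_le (D : ℕ) :
    ∏ i : Fin D, bd D i ≤ 2910000 ^ (D * (D - 1) / 2) * 537 ^ (D * (D + 1) / 6) := by
  rw [Fin.prod_univ_eq_prod_range (fun i => bd D i) D]
  unfold bd
  rw [Finset.prod_mul_distrib, Finset.prod_mul_distrib, Finset.prod_mul_distrib,
    Finset.prod_pow_eq_pow_sum, Finset.prod_pow_eq_pow_sum, Finset.prod_pow_eq_pow_sum,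
    Finset.prod_pow_eq_pow_sum, S_ref, Finset.sum_range_reflect (fun i => i) D,
    Finset.sum_range_id, mul_assoc, ← mul_pow, ← mul_pow]
  have h : ∑ i ∈ range D, (D - 1 - i - 2 * i) ≤ D * (D + 1) / 6 :=
    (Nat.le_div_iff_mul_le (by norm_num)).2 (by have := S_le D; omega)
  refine mul_le_mul (pow_le_pow_left₀ (by norm_num) (by norm_num) _)
    ((pow_le_pow_left₀ (by norm_num) (by norm_num) _).trans
      (pow_le_pow_right₀ (by norm_num) h)) (by positivity) (by positivity)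

end AL

theorem s_A0 (hMb : StMb) (hBl : StBl) (hMR : StMR) : StA0 := by
  intro k u hu
  obtain ⟨K, hK1, hK⟩ := hMR k u hu
  obtain ⟨L, hL1, hL⟩ := hBl
  refine ⟨L * K, one_le_mul_of_one_le_of_one_le hL1 hK1, fun D c => ?_⟩
  obtain ⟨hmul, -, -, -, hco, -⟩ := hMb 4 (by norm_num)
  have hrow : ∀ r : Ix k D, Mb 4 (rw k D u r) (AL.bd D r.2 * (L * K)) := fun r => by
    have h := hmul _ _ _ _ (hL r.2 (D - 1 - r.2)) (hK r.1)
    have e : AL.bd D r.2 * (L * K) = L * AL.bd D r.2 * K := by ring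
    unfold rw mu bs
    rw [mul_assoc (Dl ^ _ * _), e]
    exact h
  have h1 := A0.det_le (Matrix.of fun r s : Ix k D => coeff (c s) (rw k D u r))
    (fun r => AL.bd D r.2 * (L * K)) (fun s => 4 ^ c s) (fun r s => hco _ _ _ (hrow r))
  refine h1.trans ?_
  rw [card_Ix, Finset.prod_pow_eq_pow_sum, Finset.prod_mul_distrib, Finset.prod_const,
    Finset.card_univ, card_Ix, Fintype.prod_prod_type]
  simp only [Finset.prod_const, Finset.card_univ, card_JJ]
  have h2 := pow_le_pow_left₀ (Finset.prod_nonneg fun _ _ => AL.bd_nn _ _) (AL.prod_le D) (k + 3)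
  rw [mul_pow, ← pow_mul, ← pow_mul, mul_comm (D * (D - 1) / 2), mul_comm (D * (D + 1) / 6)] at h2
  have hK0 : 0 ≤ L * K := mul_nonneg (by linarith) (by linarith)
  calc _ ≤ (((k + 3) * D).factorial : ℝ) *
        (2910000 ^ ((k + 3) * (D * (D - 1) / 2)) * 537 ^ ((k + 3) * (D * (D + 1) / 6)) *
          (L * K) ^ ((k + 3) * D) * 4 ^ (∑ s, c s)) := by
        gcongr
    _ = _ := by ring

theorem s_A (hA0 : StA0) : StA := by
  intro k u hu ε hε
  obtain ⟨K, hK, h⟩ := hA0 k u hu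
  have hm : (0 : ℝ) < k + 3 := by positivity
  filter_upwards [A1.small (k + 3)
    (Real.log (k + 3) + Real.log K + (k + 3) ^ 2 * Real.log 4 + Real.log 537 / 6) ε
    hm hε, eventually_ge_atTop 1] with D hD hD1 c hc h0
  have hD0 : (0 : ℝ) < D := by exact_mod_cast hD1
  have hK0 : 0 < K := by linarith
  have l1 : 0 ≤ Real.log 4 := Real.log_nonneg (by norm_num)
  have l2 : 0 ≤ Real.log 2910000 := Real.log_nonneg (by norm_num)
  have l3 : 0 ≤ Real.log 537 := Real.log_nonneg (by norm_num)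
  have h1 := Real.log_le_log (abs_pos.2 (by exact_mod_cast h0)) (h D c)
  rw [Real.log_mul (by positivity) (by positivity), Real.log_mul (by positivity) (by positivity),
    Real.log_mul (by positivity) (by positivity), Real.log_mul (by positivity) (by positivity),
    Real.log_pow, Real.log_pow, Real.log_pow, Real.log_pow] at h1
  have h2 : Real.log (((k + 3) * D).factorial : ℝ) ≤
      (k + 3) * D * (Real.log (k + 3) + Real.log D) := by
    have e : (((k + 3) * D).factorial : ℝ) ≤ ((k + 3) * D : ℝ) ^ ((k + 3) * D) := by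
      exact_mod_cast Nat.factorial_le_pow _
    refine (Real.log_le_log (by positivity) e).trans_eq ?_
    rw [Real.log_pow, Real.log_mul hm.ne' hD0.ne']
    push_cast
    rfl
  have h3 : (((k + 3) * (D * (D - 1) / 2) : ℕ) : ℝ) ≤ (k + 3) * (D : ℝ) ^ 2 / 2 := by
    have e : 2 * ((k + 3) * (D * (D - 1) / 2)) ≤ (k + 3) * D ^ 2 := by
      have e1 : 2 * (D * (D - 1) / 2) ≤ D ^ 2 :=
        (Nat.mul_div_le _ _).trans (by rw [sq]; exact Nat.mul_le_mul_left _ (Nat.sub_le _ _))
      rw [mul_left_comm]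
      exact Nat.mul_le_mul_left _ e1
    have e2 : 2 * (((k + 3) * (D * (D - 1) / 2) : ℕ) : ℝ) ≤ (k + 3) * (D : ℝ) ^ 2 := by
      exact_mod_cast e
    linarith
  have h3' : (((k + 3) * (D * (D + 1) / 6) : ℕ) : ℝ) ≤ (k + 3) * ((D : ℝ) * (D + 1)) / 6 := by
    have e : 6 * ((k + 3) * (D * (D + 1) / 6)) ≤ (k + 3) * (D * (D + 1)) := by
      rw [mul_left_comm]
      exact Nat.mul_le_mul_left _ (Nat.mul_div_le _ _)
    have e2 : 6 * (((k + 3) * (D * (D + 1) / 6) : ℕ) : ℝ) ≤ (k + 3) * ((D : ℝ) * (D + 1)) := by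
      exact_mod_cast e
    linarith
  have h4 : ((∑ s, c s : ℕ) : ℝ) ≤ ((k + 3) * D) ^ 2 / 2 + (k + 3) * D * (k + 3) ^ 2 := by
    have e : 2 * ((∑ s, c s : ℕ) : ℝ) ≤ ((k + 3) * D) ^ 2 + 2 * ((k + 3) * D) * (k + 3) ^ 2 := by
      exact_mod_cast A1.adm_sum hc
    linarith
  have h5 := mul_le_mul_of_nonneg_right h3 l2
  have h5' := mul_le_mul_of_nonneg_right h3' l3
  have h6 := mul_le_mul_of_nonneg_right h4 l1
  have h7 := mul_le_mul_of_nonneg_right hD hD0.le
  rw [Real.log_mul (by positivity) (by norm_num), Real.log_mul (by positivity) (by norm_num),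
    Real.log_pow, Real.log_pow]
  generalize (((k + 3) * (D * (D - 1) / 2) : ℕ) : ℝ) = a at h1 h5
  generalize (((k + 3) * (D * (D + 1) / 6) : ℕ) : ℝ) = a' at h1 h5'
  generalize ((∑ s, c s : ℕ) : ℝ) = v at h1 h6
  push_cast at h1 ⊢
  linarith

end Pool.Agent.MP_3924c3_nt.BK.K7

end
end
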