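import Pool.Agent.MP_3924c3_nt.FZ.Bern
import Pool.Agent.Mg.F3792c7p.G0979d7

set_option linter.all false

section

/-! Congruences for harmonic numbers at the first three levels of the tree. -/

open Finset

namespace Pool.Agent.MP_3792c7_nt.Uni

open Pool.Agent.MP_3924c3_nt

variable {p : ℕ} [hp : Fact p.Prime]

/-- inverse of `j` in the `p`-adic integers, and zero if `p` divides `j` -/
noncomputable def iv (p : ℕ) [Fact p.Prime] (j : ℕ) : ℤ_[p] := Ring.inverse (j : ℤ_[p])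

/-- the part of the harmonic number with denominators prime to `p` -/
noncomputable def S (p : ℕ) [Fact p.Prime] (n : ℕ) : ℤ_[p] := ∑ j ∈ range (n + 1), iv p j

/-- the harmonic sum modulo `p` -/
def hz (p : ℕ) [Fact p.Prime] (n : ℕ) : ZMod p := ∑ j ∈ range (n + 1), (j : ZMod p)⁻¹

lemma unit_iff (j : ℕ) : IsUnit (j : ℤ_[p]) ↔ ¬ p ∣ j := by
  rw [PadicInt.isUnit_iff, PadicInt.norm_natCast_eq_one_iff, hp.out.coprime_iff_not_dvd]

lemma iv_mul {j : ℕ} (h : ¬ p ∣ j) : iv p j * j = 1 :=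
  Ring.inverse_mul_cancel _ ((unit_iff j).2 h)

lemma iv_zero {j : ℕ} (h : p ∣ j) : iv p j = 0 :=
  Ring.inverse_non_unit _ fun h1 => (unit_iff j).1 h1 h

lemma coe_iv {j : ℕ} (h : ¬ p ∣ j) : ((iv p j : ℤ_[p]) : ℚ_[p]) = (j : ℚ_[p])⁻¹ := by
  have h1 := congrArg (fun z : ℤ_[p] => (z : ℚ_[p])) (iv_mul h)
  simp only [PadicInt.coe_mul, PadicInt.coe_natCast, PadicInt.coe_one] at h1
  exact eq_inv_of_mul_eq_one_left h1

lemma red_iv (j : ℕ) : PadicInt.toZMod (iv p j) = (j : ZMod p)⁻¹ := by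
  by_cases h : p ∣ j
  · rw [iv_zero h, map_zero, (ZMod.natCast_eq_zero_iff j p).2 h, inv_zero]
  · have h1 := congrArg PadicInt.toZMod (iv_mul h)
    rw [map_mul, map_natCast, map_one] at h1
    exact eq_inv_of_mul_eq_one_left h1

lemma red_zero {z : ℤ_[p]} (h : PadicInt.toZMod z = 0) : (p : ℤ_[p]) ∣ z := by
  have h1 : z ∈ RingHom.ker (PadicInt.toZMod : ℤ_[p] →+* ZMod p) := h
  rwa [PadicInt.ker_toZMod, PadicInt.maximalIdeal_eq_span_p, Ideal.mem_span_singleton] at h1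

lemma red_p (z : ℤ_[p]) : PadicInt.toZMod ((p : ℤ_[p]) * z) = 0 := by
  rw [map_mul, map_natCast, ZMod.natCast_self, zero_mul]

lemma red_S (n : ℕ) : PadicInt.toZMod (S p n) = hz p n := by
  unfold S hz
  rw [map_sum]
  exact sum_congr rfl fun j _ => red_iv j

lemma p_ne : (p : ℚ_[p]) ≠ 0 := by exact_mod_cast hp.out.ne_zero

lemma S_succ (n : ℕ) : S p (n + 1) = S p n + iv p (n + 1) := sum_range_succ _ _

lemma hz_succ (n : ℕ) : hz p (n + 1) = hz p n + ((n + 1 : ℕ) : ZMod p)⁻¹ := sum_range_succ _ _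

lemma split (n : ℕ) : ((harmonic n : ℚ) : ℚ_[p]) =
    ((harmonic (n / p) : ℚ) : ℚ_[p]) / p + (S p n : ℤ_[p]) := by
  induction n with
  | zero => simp [S, iv]
  | succ n ih =>
    rw [harmonic_succ, S_succ, Rat.cast_add, ih, PadicInt.coe_add]
    by_cases h : p ∣ n + 1
    · rw [iv_zero h, Nat.succ_div_of_dvd h, harmonic_succ]
      have e : n + 1 = p * (n / p + 1) := by
        rw [← Nat.succ_div_of_dvd h, Nat.mul_div_cancel' h]
      have e2 : ((n + 1 : ℕ) : ℚ_[p]) = p * ((n / p + 1 : ℕ) : ℚ_[p]) := by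
        rw [← Nat.cast_mul, ← e]
      rw [Rat.cast_add, Rat.cast_inv, Rat.cast_inv, Rat.cast_natCast, Rat.cast_natCast, e2,
        PadicInt.coe_zero, mul_inv]
      ring
    · rw [coe_iv h, Nat.succ_div_of_not_dvd h, Rat.cast_inv, Rat.cast_natCast]
      ring

lemma sum_pow {a : ℕ} (ha : 0 < a) (hap : a + 1 < p) :
    ∑ j ∈ range p, ((j : ZMod p)⁻¹) ^ a = 0 := by
  have h := FZ.H_one (p := p) ha hap
  unfold FZ.H FZ.H at h
  rw [← h]
  refine sum_congr rfl fun j _ => ?_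
  unfold FZ.y
  split_ifs with h0
  · simp [h0, ha.ne']
  · simp

lemma hz_full (h3 : 3 ≤ p) : hz p (p - 1) = 0 := by
  have h := sum_pow (p := p) (a := 1) one_pos (by omega)
  unfold hz
  rw [show p - 1 + 1 = p by omega]
  simpa using h

lemma hz_add (h3 : 3 ≤ p) (n : ℕ) : hz p (n + p) = hz p n := by
  induction n with
  | zero =>
    have h := hz_succ (p := p) (p - 1)
    rw [show p - 1 + 1 = p by omega, hz_full h3] at h
    rw [zero_add, h]
    simp [hz]
  | succ n ih =>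
    rw [show n + 1 + p = n + p + 1 by ring, hz_succ, hz_succ, ih]
    push_cast
    simp

lemma hz_per (h3 : 3 ≤ p) (m d : ℕ) : hz p (p * m + d) = hz p d := by
  induction m with
  | zero => simp
  | succ m ih => rw [show p * (m + 1) + d = p * m + d + p by ring, hz_add h3, ih]

lemma hz_refl (h3 : 3 ≤ p) (k : ℕ) (hk : k < p) : hz p (p - 1 - k) = hz p k := by
  induction k with
  | zero => rw [Nat.sub_zero, hz_full h3]; simp [hz]
  | succ k ih =>
    have h1 := hz_succ (p := p) (p - 1 - (k + 1))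
    rw [show p - 1 - (k + 1) + 1 = p - 1 - k by omega, ih (by omega)] at h1
    have h2 : ((p - 1 - k : ℕ) : ZMod p) = - ((k + 1 : ℕ) : ZMod p) := by
      rw [eq_neg_iff_add_eq_zero, ← Nat.cast_add, show p - 1 - k + (k + 1) = p by omega,
        ZMod.natCast_self]
    rw [h2, inv_neg] at h1
    rw [hz_succ]
    linear_combination -h1

lemma hz_cast (k : ℕ) (hk : k < p) : (((harmonic k).den : ℕ) : ZMod p) ≠ 0 ∧
    ((harmonic k : ℚ) : ZMod p) = hz p k := by
  induction k with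
  | zero => simp [hz]
  | succ k ih =>
    obtain ⟨h1, h2⟩ := ih (by omega)
    have h3 := FZ.den_inv (p := p) (k := k + 1) (by omega) hk
    rw [harmonic_succ]
    refine ⟨FZ.den_add h1 h3, ?_⟩
    rw [Rat.cast_add_of_ne_zero h1 h3, h2, hz_succ, Rat.cast_inv_of_ne_zero (by
      rw [Rat.num_natCast, Int.cast_natCast]; exact FZ.nat_ne (by omega) hk), Rat.cast_natCast]

/-- alternating binomial sums -/
noncomputable def A (K : Type) [Field K] (e n : ℕ) : K :=
  ∑ k ∈ range n, (-1) ^ k * (n.choose (k + 1) : K) * (((k + 1 : ℕ) : K)⁻¹) ^ e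

lemma A_zero (K : Type) [Field K] (n : ℕ) : A K 0 (n + 1) = 1 := by
  have h := congrArg (fun z : ℤ => (z : K)) (Int.alternating_sum_range_choose (n := n + 1))
  rw [if_neg (by omega), sum_range_succ'] at h
  push_cast at h
  unfold A
  simp only [pow_zero, mul_one, Nat.choose_zero_right, Nat.cast_one, pow_succ] at h ⊢
  have h2 : ∑ k ∈ range (n + 1), (-1 : K) ^ k * -1 * ((n + 1).choose (k + 1) : K) =
      - ∑ k ∈ range (n + 1), (-1 : K) ^ k * ((n + 1).choose (k + 1) : K) := by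
    rw [← sum_neg_distrib]
    exact sum_congr rfl fun k _ => by ring
  rw [h2] at h
  linear_combination -h

lemma A_succ (K : Type) [Field K] [CharZero K] (e n : ℕ) :
    A K (e + 1) (n + 1) = A K (e + 1) n + ((n + 1 : ℕ) : K)⁻¹ * A K e (n + 1) := by
  have h1 : A K (e + 1) n = ∑ k ∈ range (n + 1),
      (-1) ^ k * (n.choose (k + 1) : K) * (((k + 1 : ℕ) : K)⁻¹) ^ (e + 1) := by
    rw [sum_range_succ, Nat.choose_succ_self]
    simp [A]
  rw [h1]
  unfold A
  rw [mul_sum, ← sum_add_distrib]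
  refine sum_congr rfl fun k _ => ?_
  have h2 : ((n + 1 : ℕ) : K) * n.choose k = ((n + 1).choose (k + 1) : K) * (k + 1 : ℕ) := by
    exact_mod_cast Nat.add_one_mul_choose_eq n k
  have h3 : ((n + 1 : ℕ) : K) ≠ 0 := Nat.cast_ne_zero.2 (by omega)
  have h4 : ((k + 1 : ℕ) : K) ≠ 0 := Nat.cast_ne_zero.2 (by omega)
  have h5 : (n.choose k : K) * ((k + 1 : ℕ) : K)⁻¹ =
      ((n + 1 : ℕ) : K)⁻¹ * ((n + 1).choose (k + 1) : K) := by
    field_simp
    linear_combination h2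
  rw [Nat.choose_succ_succ', Nat.cast_add (n.choose k)] at *
  rw [pow_succ]
  linear_combination (-1) ^ k * (((k + 1 : ℕ) : K)⁻¹) ^ e * h5

lemma A_two (K : Type) [Field K] [CharZero K] (n : ℕ) :
    A K 1 n = ∑ k ∈ range n, ((k + 1 : ℕ) : K)⁻¹ ∧
    2 * A K 2 n = A K 1 n ^ 2 + ∑ k ∈ range n, (((k + 1 : ℕ) : K)⁻¹) ^ 2 := by
  induction n with
  | zero => simp [A]
  | succ n ih =>
    have h1 := A_succ K 0 n
    have h2 := A_succ K 1 n
    rw [A_zero] at h1
    rw [sum_range_succ, sum_range_succ]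
    refine ⟨by linear_combination h1 + ih.1, ?_⟩
    rw [h2, h1]
    linear_combination ih.2

lemma S_eq (n : ℕ) : S p n = ∑ k ∈ range n, iv p (k + 1) := by
  unfold S
  rw [sum_range_succ', iv_zero (dvd_zero p), add_zero]

omit hp in
lemma ndvd {k : ℕ} (h : k + 1 < p) : ¬ p ∣ k + 1 := fun h1 =>
  absurd (Nat.le_of_dvd (by omega) h1) (by omega)

lemma binom (k : ℕ) (hk : k < p) : ∃ r : ℤ_[p],
    (-1) ^ k * ((p - 1).choose k : ℤ_[p]) = 1 - p * S p k + p ^ 2 * r := by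
  induction k with
  | zero => exact ⟨0, by simp [S_eq]⟩
  | succ k ih =>
    obtain ⟨r, hr⟩ := ih (by omega)
    have h1 : ((p - 1).choose (k + 1) : ℤ_[p]) * (k + 1 : ℕ) =
        ((p - 1).choose k : ℤ_[p]) * (p - (k + 1 : ℕ)) := by
      have h2 := Nat.choose_succ_right_eq (p - 1) k
      have h3 : ((p - 1 - k : ℕ) : ℤ_[p]) = p - (k + 1 : ℕ) := by
        rw [eq_sub_iff_add_eq, ← Nat.cast_add, show p - 1 - k + (k + 1) = p by omega]
      rw [← h3]
      exact_mod_cast h2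
    have h4 := iv_mul (ndvd hk)
    refine ⟨r + S p k * iv p (k + 1) - p * r * iv p (k + 1), ?_⟩
    rw [S_succ, pow_succ]
    linear_combination (-(-1) ^ k * iv p (k + 1)) * h1 + (1 - p * iv p (k + 1)) * hr +
      ((-1) ^ k * ((p - 1).choose (k + 1) : ℤ_[p]) + (-1) ^ k * ((p - 1).choose k : ℤ_[p])) * h4

/-- power sums of the inverses -/
noncomputable def T (p : ℕ) [Fact p.Prime] (e : ℕ) : ℤ_[p] :=
  ∑ k ∈ range (p - 1), iv p (k + 1) ^ e

lemma T_dvd {e : ℕ} (he : 0 < e) (hep : e + 1 < p) : (p : ℤ_[p]) ∣ T p e := by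
  refine red_zero ?_
  have h := sum_pow (p := p) he hep
  rw [show range p = range (p - 1 + 1) by rw [Nat.sub_add_cancel hp.out.one_le],
    sum_range_succ'] at h
  unfold T
  rw [map_sum]
  simp only [map_pow, red_iv]
  simpa [he.ne'] using h

lemma two_S (h5 : 5 ≤ p) : ∃ r : ℤ_[p], 2 * S p (p - 1) = - p * T p 2 + p ^ 3 * r := by
  obtain ⟨t, ht⟩ := T_dvd (p := p) (e := 3) (by omega) (by omega)
  have h1 : S p (p - 1) = ∑ k ∈ range (p - 1), iv p (p - 1 - 1 - k + 1) := by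
    rw [S_eq, ← sum_range_reflect]
  refine ⟨- t - ∑ k ∈ range (p - 1), iv p (k + 1) ^ 3 * iv p (p - 1 - 1 - k + 1) * (-1), ?_⟩
  have h2 : 2 * S p (p - 1) = ∑ k ∈ range (p - 1), (- p * iv p (k + 1) ^ 2 -
      p ^ 2 * iv p (k + 1) ^ 3 + p ^ 3 * (iv p (k + 1) ^ 3 * iv p (p - 1 - 1 - k + 1))) := by
    rw [two_mul]
    nth_rewrite 1 [h1]
    rw [S_eq, ← sum_add_distrib]
    refine sum_congr rfl fun k hk => ?_
    have hk := mem_range.1 hk
    have a1 := iv_mul (ndvd (p := p) (k := k) (by omega))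
    have a2 := iv_mul (ndvd (p := p) (k := p - 1 - 1 - k) (by omega))
    have a3 : ((p - 1 - 1 - k + 1 : ℕ) : ℤ_[p]) = p - (k + 1 : ℕ) := by
      rw [eq_sub_iff_add_eq, ← Nat.cast_add, show p - 1 - 1 - k + 1 + (k + 1) = p by omega]
    rw [a3] at a2
    generalize iv p (p - 1 - 1 - k + 1) = b at *
    generalize iv p (k + 1) = a at *
    generalize ((k + 1 : ℕ) : ℤ_[p]) = j at *
    linear_combination (-(a + p * a ^ 2 + p ^ 2 * a ^ 3)) * a2 -
      (b * (1 + p * a + p ^ 2 * a ^ 2)) * a1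
  rw [h2, sum_add_distrib, sum_sub_distrib, ← mul_sum, ← mul_sum, ← mul_sum, ← sum_mul]
  unfold T at ht ⊢
  rw [ht]
  ring

lemma key (R : ℕ → ℤ_[p]) (hR : ∀ k, k < p →
    (-1) ^ k * ((p - 1).choose k : ℤ_[p]) = 1 - p * S p k + p ^ 2 * R k) :
    3 * T p 2 = 2 * p * ∑ k ∈ range (p - 1), S p (k + 1) * iv p (k + 1) ^ 2 -
      2 * p ^ 2 * ∑ k ∈ range (p - 1), R (k + 1) * iv p (k + 1) ^ 2 - S p (p - 1) ^ 2 := by
  obtain ⟨h1, h2⟩ := A_two ℚ_[p] (p - 1)
  have c1 : ∀ k ∈ range (p - 1), ((k + 1 : ℕ) : ℚ_[p])⁻¹ = (iv p (k + 1) : ℤ_[p]) := fun k hk =>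
    (coe_iv (ndvd (by have := mem_range.1 hk; omega))).symm
  have e1 : A ℚ_[p] 1 (p - 1) = (S p (p - 1) : ℤ_[p]) := by
    rw [h1, S_eq, PadicInt.coe_sum]
    exact sum_congr rfl c1
  have e2 : ∑ k ∈ range (p - 1), (((k + 1 : ℕ) : ℚ_[p])⁻¹) ^ 2 = (T p 2 : ℤ_[p]) := by
    unfold T
    rw [PadicInt.coe_sum]
    exact sum_congr rfl fun k hk => by rw [c1 k hk, PadicInt.coe_pow]
  have e3 : A ℚ_[p] 2 (p - 1) = ((∑ k ∈ range (p - 1),
      (-1) ^ k * ((p - 1).choose (k + 1) : ℤ_[p]) * iv p (k + 1) ^ 2 : ℤ_[p]) : ℚ_[p]) := by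
    unfold A
    rw [PadicInt.coe_sum]
    refine sum_congr rfl fun k hk => ?_
    rw [c1 k hk, PadicInt.coe_mul, PadicInt.coe_mul, PadicInt.coe_pow, PadicInt.coe_pow,
      PadicInt.coe_neg, PadicInt.coe_one, PadicInt.coe_natCast]
  rw [e1, e2, e3] at h2
  have h3 : 2 * ∑ k ∈ range (p - 1), (-1) ^ k * ((p - 1).choose (k + 1) : ℤ_[p]) *
      iv p (k + 1) ^ 2 = S p (p - 1) ^ 2 + T p 2 := by
    apply Subtype.coe_injective
    exact h2
  have h4 : ∑ k ∈ range (p - 1), (-1) ^ k * ((p - 1).choose (k + 1) : ℤ_[p]) *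
      iv p (k + 1) ^ 2 = - T p 2 + p * ∑ k ∈ range (p - 1), S p (k + 1) * iv p (k + 1) ^ 2 -
      p ^ 2 * ∑ k ∈ range (p - 1), R (k + 1) * iv p (k + 1) ^ 2 := by
    unfold T
    rw [mul_sum, mul_sum, ← sum_neg_distrib, ← sum_add_distrib, ← sum_sub_distrib]
    refine sum_congr rfl fun k hk => ?_
    have h5 := hR (k + 1) (by have := mem_range.1 hk; omega)
    rw [pow_succ] at h5
    linear_combination (- iv p (k + 1) ^ 2) * h5
  rw [h4] at h3
  linear_combination -h3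

lemma red_U (h5 : 5 ≤ p) :
    PadicInt.toZMod (∑ k ∈ range (p - 1), S p (k + 1) * iv p (k + 1) ^ 2) =
      (bernoulli (p - 3) : ZMod p) := by
  have h1 := FZ.H_bern (p := p) (a := 2) (by omega) (by omega)
  obtain ⟨r, hr⟩ := binom (p := p) (p - 3) (by omega)
  have h2 := congrArg PadicInt.toZMod hr
  have h3 : Even (p - 3) := by
    obtain ⟨t, ht⟩ := hp.out.odd_of_ne_two (by omega)
    exact ⟨t - 1, by omega⟩
  rw [h3.neg_one_pow, one_mul, map_natCast, map_add, map_sub, red_p, pow_two, mul_assoc, red_p,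
    map_one, sub_zero, add_zero] at h2
  rw [show p - 1 - 2 = p - 3 by omega, h2, mul_one] at h1
  have h4 := sum_pow (p := p) (a := 3) (by omega) (by omega)
  have h6 : FZ.H p [2, 1] p = ∑ m ∈ range p, FZ.y p 2 m * FZ.H p [1] m := rfl
  have h7 : ∀ m, FZ.H p [1] m + (m : ZMod p)⁻¹ = hz p m := by
    intro m
    unfold hz
    rw [sum_range_succ]
    congr 1
    unfold FZ.H FZ.H
    refine sum_congr rfl fun j _ => ?_
    unfold FZ.y
    split_ifs with h0
    · simp [h0]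
    · simp
  rw [← h1, h6, ← add_zero (∑ m ∈ range p, FZ.y p 2 m * FZ.H p [1] m), ← h4, ← sum_add_distrib,
    show range p = range (p - 1 + 1) by rw [Nat.sub_add_cancel hp.out.one_le], sum_range_succ',
    map_sum]
  simp only [FZ.y_zero, zero_mul, Nat.cast_zero, inv_zero, ne_eq, OfNat.ofNat_ne_zero,
    not_false_eq_true, zero_pow, add_zero]
  refine sum_congr rfl fun k _ => ?_
  rw [map_mul, map_pow, red_S, red_iv, ← h7]
  unfold FZ.y
  rw [if_neg (by omega)]
  ring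

/-- the congruence of Glaisher -/
lemma glaisher (h5 : 5 ≤ p) : ∃ W : ℤ_[p], S p (p - 1) = p ^ 2 * W ∧
    3 * PadicInt.toZMod W = - (bernoulli (p - 3) : ZMod p) := by
  choose! R hR using binom (p := p)
  have h1 := key R hR
  obtain ⟨r, hr⟩ := two_S h5
  obtain ⟨s, hs⟩ := red_zero ((red_S (p - 1)).trans (hz_full (p := p) (by omega)))
  have h6 : ¬ p ∣ 6 := by
    intro h
    have h7 := Nat.le_of_dvd (by norm_num) h
    have h8 : p = 5 ∨ p = 6 := by omega
    rcases h8 with rfl | rfl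
    · exact absurd h (by norm_num)
    · exact absurd hp.out (by norm_num)
  have h2 := iv_mul h6
  have h3 := red_U h5
  generalize ∑ k ∈ range (p - 1), S p (k + 1) * iv p (k + 1) ^ 2 = U at *
  generalize ∑ k ∈ range (p - 1), R (k + 1) * iv p (k + 1) ^ 2 = V at *
  refine ⟨iv p 6 * (- 2 * U + p * (2 * V + s ^ 2 + 3 * r)), ?_, ?_⟩
  · have h4 : S p (p - 1) ^ 2 = p ^ 2 * s ^ 2 := by rw [hs]; ring
    push_cast at h2
    linear_combination (- S p (p - 1)) * h2 + 3 * iv p 6 * hr - p * iv p 6 * h1 +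
      p * iv p 6 * h4
  · have h4 := congrArg PadicInt.toZMod h2
    rw [map_mul, map_natCast, map_one] at h4
    rw [map_mul, map_add, red_p, map_mul, map_neg, map_ofNat, h3]
    push_cast at h4
    linear_combination (- (bernoulli (p - 3) : ZMod p)) * h4

lemma S_block (h5 : 5 ≤ p) (m : ℕ) : (p : ℤ_[p]) ^ 2 ∣ S p (p * m) := by
  obtain ⟨W, hW, -⟩ := glaisher h5
  obtain ⟨t, ht⟩ := T_dvd (p := p) (e := 2) (by omega) (by omega)
  induction m with
  | zero => simp [S_eq]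
  | succ m ih =>
    have h1 : S p (p * (m + 1)) = S p (p * m) + ∑ k ∈ range (p - 1), iv p (p * m + k + 1) := by
      rw [show p * (m + 1) = p * m + (p - 1) + 1 by rw [mul_add, mul_one]; omega, S_succ, iv_zero
        (by rw [show p * m + (p - 1) + 1 = p * (m + 1) by rw [mul_add, mul_one]; omega]; simp),
        add_zero, S_eq, S_eq, sum_range_add]
    have h2 : ∑ k ∈ range (p - 1), iv p (p * m + k + 1) = S p (p - 1) - p * m * T p 2 +
        p ^ 2 * ∑ k ∈ range (p - 1), m ^ 2 * iv p (k + 1) ^ 2 * iv p (p * m + k + 1) := by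
      unfold T
      rw [S_eq, mul_sum, mul_sum, ← sum_sub_distrib, ← sum_add_distrib]
      refine sum_congr rfl fun k hk => ?_
      have hk := mem_range.1 hk
      have a0 := ndvd (p := p) (k := k) (by omega)
      have a1 := iv_mul a0
      have a2 := iv_mul (p := p) (j := p * m + k + 1) fun h =>
        a0 ((Nat.dvd_add_right (dvd_mul_right p m)).1 (by rwa [← add_assoc]))
      push_cast at a1 a2
      generalize iv p (p * m + k + 1) = b at *
      generalize iv p (k + 1) = a at *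
      linear_combination (a - p * m * a ^ 2) * a2 - (b * (1 - p * m * a)) * a1
    rw [h1, h2, hW, ht]
    exact dvd_add ih (dvd_add (dvd_sub (dvd_mul_right _ _) ⟨m * t, by ring⟩) (dvd_mul_right _ _))

end Pool.Agent.MP_3792c7_nt.Uni

end

section

/-! Polynomial families in the tree. -/

open Finset Polynomial

namespace Pool.Agent.MP_3792c7_nt.Uni

open Pool.Agent.MP_3924c3_nt

section

variable {p : ℕ} [hp : Fact p.Prime]

/-- `H n = p z` -/
def Cl (p : ℕ) [Fact p.Prime] (n : ℕ) (z : ℤ_[p]) : Prop :=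
  ((harmonic n : ℚ) : ℚ_[p]) = p * (z : ℚ_[p])

lemma Cl_of_dvd {n : ℕ} (h : (p : ℤ) ∣ (harmonic n).num) : ∃ z, Cl p n z := by
  obtain ⟨t, ht⟩ := h
  have h1 : ¬ p ∣ (harmonic n).den := by
    intro h2
    have h3 : p ∣ (harmonic n).num.natAbs := by
      rw [ht, Int.natAbs_mul, Int.natAbs_natCast]
      exact dvd_mul_right _ _
    have h4 := Nat.dvd_gcd h3 h2
    rw [(harmonic n).reduced] at h4
    exact hp.out.one_lt.ne' (Nat.dvd_one.1 h4)
  refine ⟨t * iv p (harmonic n).den, ?_⟩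
  unfold Cl
  rw [Rat.cast_def, ht, PadicInt.coe_mul, coe_iv h1, PadicInt.coe_intCast]
  push_cast
  ring

lemma Cl_unique {n : ℕ} {z w : ℤ_[p]} (h : Cl p n z) (h' : Cl p n w) : z = w :=
  Subtype.coe_injective (mul_left_cancel₀ p_ne (h.symm.trans h'))

lemma child (h3 : 3 ≤ p) {n : ℕ} {z : ℤ_[p]} (h : Cl p n z) :
    ∃ w, Cl p (n / p) w ∧ PadicInt.toZMod w + hz p (n % p) = 0 := by
  refine ⟨p * z - S p n, ?_, ?_⟩
  · have h1 := split (p := p) n
    unfold Cl at h ⊢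
    rw [h] at h1
    have h0 := p_ne (p := p)
    rw [PadicInt.coe_sub, PadicInt.coe_mul, PadicInt.coe_natCast, h1]
    field_simp
    ring
  · rw [map_sub, red_p, red_S, ← hz_per h3 (n / p) (n % p), Nat.div_add_mod]
    ring

lemma Cl_zero : Cl p 0 0 := by simp [Cl]

lemma Cl_one (h5 : 5 ≤ p) {W : ℤ_[p]} (hW : S p (p - 1) = p ^ 2 * W) : Cl p (p - 1) (p * W) := by
  have h1 := split (p := p) (p - 1)
  rw [Nat.div_eq_of_lt (by omega), hW] at h1
  unfold Cl
  rw [h1]
  push_cast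
  simp only [harmonic_zero, Rat.cast_zero, zero_div, zero_add]
  ring

lemma Cl_two (h5 : 5 ≤ p) {W : ℤ_[p]} (hW : S p (p - 1) = p ^ 2 * W) {n : ℕ}
    (hn : n = p * (p - 1) ∨ n + 1 = p * p) : ∃ t : ℤ_[p], Cl p n (W + p * t) := by
  have h0 : n / p = p - 1 ∧ (p : ℤ_[p]) ^ 2 ∣ S p n := by
    rcases hn with rfl | hn
    · exact ⟨Nat.mul_div_cancel_left _ (by omega), S_block h5 _⟩
    · have h1 := S_block h5 p
      rw [← hn, S_succ, iv_zero (hn ▸ dvd_mul_right p p), add_zero] at h1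
      refine ⟨?_, h1⟩
      have h2 : p * p = p * (p - 1) + p := by
        rw [← Nat.mul_succ, Nat.succ_eq_add_one, Nat.sub_add_cancel (by omega)]
      rw [show n = (p - 1) + p * (p - 1) by omega, Nat.add_mul_div_left _ _ (by omega),
        Nat.div_eq_of_lt (by omega), zero_add]
  obtain ⟨e, t, ht⟩ := h0
  have h1 := split (p := p) n
  have h2 := Cl_one h5 hW
  unfold Cl at h2 ⊢
  rw [e, h2, ht] at h1
  refine ⟨t, ?_⟩
  have h0 := p_ne (p := p)
  rw [h1]
  push_cast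
  field_simp

lemma dvd_num {q : ℚ} (h1 : (q.den : ZMod p) ≠ 0) (h2 : (q : ZMod p) = 0) : (p : ℤ) ∣ q.num := by
  rw [Rat.cast_def, div_eq_zero_iff] at h2
  exact (ZMod.intCast_zmod_eq_zero_iff_dvd _ p).1 (h2.resolve_right h1)

/-- the integer `v` is a natural number in the tree -/
def In (p : ℕ) [Fact p.Prime] (v : ℤ) : Prop := ∃ (n : ℕ) (z : ℤ_[p]), (n : ℤ) = v ∧ Cl p n z

lemma step (h3 : 3 ≤ p) {u e : ℤ} {k : ℕ} (hk : k < p) (he : e = k ∨ e = p - 1 - k)
    (h : In p (p * u + e)) :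
    ∃ (m : ℕ) (w : ℤ_[p]), (m : ℤ) = u ∧ Cl p m w ∧ PadicInt.toZMod w + hz p k = 0 := by
  obtain ⟨n, z, hn, hz'⟩ := h
  obtain ⟨w, h1, h2⟩ := child h3 hz'
  have hp0 : (0 : ℤ) < p := by exact_mod_cast hp.out.pos
  have he0 : 0 ≤ e ∧ e < p := by rcases he with rfl | rfl <;> omega
  have h4 : ((n / p : ℕ) : ℤ) = u ∧ ((n % p : ℕ) : ℤ) = e := by
    push_cast
    rw [hn]
    have := (Int.ediv_emod_unique (a := p * u + e) (q := u) (r := e) hp0).2
      ⟨by ring, he0.1, he0.2⟩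
    exact this
  refine ⟨n / p, w, h4.1, h1, ?_⟩
  rcases he with he | he
  · rwa [show n % p = k by omega] at h2
  · rwa [show n % p = p - 1 - k by omega, hz_refl h3 k hk] at h2

lemma low (h5 : 5 ≤ p) {m k : ℕ} {w : ℤ_[p]} (hm : m = 0 ∨ m = p - 1) (hk : k < p)
    (h1 : Cl p m w) (h2 : PadicInt.toZMod w + hz p k = 0) : (p : ℤ) ∣ (harmonic k).num := by
  have h3 : PadicInt.toZMod w = 0 := by
    rcases hm with rfl | rfl
    · rw [Cl_unique h1 Cl_zero, map_zero]
    · obtain ⟨W, hW, -⟩ := glaisher h5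
      rw [Cl_unique h1 (Cl_one h5 hW), red_p]
  obtain ⟨a1, a2⟩ := hz_cast k hk
  exact dvd_num a1 (by rw [a2, ← h2, h3, zero_add])

lemma high (h5 : 5 ≤ p) {m k : ℕ} {w : ℤ_[p]} (hm : m = p * (p - 1) ∨ m + 1 = p * p) (hk : k < p)
    (h1 : Cl p m w) (h2 : PadicInt.toZMod w + hz p k = 0) :
    (p : ℤ) ∣ (_root_.bernoulli (p - 3) - 3 * harmonic k).num := by
  obtain ⟨W, hW, hB⟩ := glaisher h5
  obtain ⟨t, ht⟩ := Cl_two h5 hW hm
  rw [Cl_unique h1 ht, map_add, red_p, add_zero] at h2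
  obtain ⟨a1, a2⟩ := hz_cast k hk
  have b1 := FZ.den_bern (p := p) (n := p - 3) (by omega)
  have b2 : (((-3 : ℚ).den : ℕ) : ZMod p) ≠ 0 := by simp
  have b3 := FZ.den_mul b2 a1
  rw [show _root_.bernoulli (p - 3) - 3 * harmonic k =
    _root_.bernoulli (p - 3) + -3 * harmonic k by ring]
  refine dvd_num (FZ.den_add b1 b3) ?_
  rw [Rat.cast_add_of_ne_zero b1 b3, Rat.cast_mul_of_ne_zero b2 a1, a2]
  have b4 : ((-3 : ℚ) : ZMod p) = -3 := by
    rw [show (-3 : ℚ) = ((-3 : ℤ) : ℚ) by norm_num, Rat.cast_intCast]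
    norm_num
  rw [b4]
  linear_combination hB - 3 * h2

end

lemma anc {p : ℕ} [Fact p.Prime] (h3 : 3 ≤ p) (j : ℕ) {n : ℕ} (h : (p : ℤ) ∣ (harmonic n).num) :
    ∃ z, Cl p (n / p ^ j) z := by
  induction j with
  | zero => simpa using Cl_of_dvd h
  | succ j ih =>
    obtain ⟨z, hz'⟩ := ih
    obtain ⟨w, hw, -⟩ := child h3 hz'
    exact ⟨w, by rwa [Nat.div_div_eq_div_mul, ← pow_succ] at hw⟩

/-- the four families of Eswarathasan and Levine -/
def Four (f : ℤ[X]) : Prop := f = 0 ∨ f = X - 1 ∨ f = X ^ 2 - X ∨ f = X ^ 2 - 1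

lemma main (f : ℤ[X]) (hf : ¬ Four f) : ∃ (c : ℚ) (N : ℕ), ∀ (p : ℕ) [Fact p.Prime], N ≤ p →
    In p (f.eval (p : ℤ)) → (p : ℤ) ∣ (_root_.bernoulli (p - 3) - c).num := by
  induction hd : f.natDegree using Nat.strong_induction_on generalizing f with
  | _ D ih =>
    have hx := X_mul_divX_add f
    obtain ⟨a, ha⟩ : ∃ a, a = f.coeff 0 := ⟨_, rfl⟩
    rw [← ha] at hx
    by_cases h0 : f.natDegree = 0 ∧ a < 0
    · refine ⟨0, 0, fun p _ _ h => ?_⟩
      obtain ⟨n, z, hn, -⟩ := h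
      rw [eq_C_of_natDegree_eq_zero h0.1, eval_C, ← ha] at hn
      omega
    obtain ⟨g, k, hg, hk⟩ : ∃ (g : ℤ[X]) (k : ℕ), (Four g ∨ g.natDegree < D) ∧
        (f = X * g + C (k : ℤ) ∨ f = X * g + (X - 1 - C (k : ℤ))) := by
      have h1 := natDegree_divX_eq_natDegree_tsub_one (p := f)
      rcases le_or_gt 0 a with h2 | h2
      · refine ⟨f.divX, a.toNat, ?_, Or.inl (by rw [Int.toNat_of_nonneg h2, hx])⟩
        rcases Nat.eq_zero_or_pos D with h3 | h3
        · exact Or.inl (Or.inl (divX_eq_zero_iff.2 (eq_C_of_natDegree_eq_zero (hd.trans h3))))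
        · exact Or.inr (by omega)
      · refine ⟨f.divX - C 1, (- a - 1).toNat, Or.inr ?_, Or.inr ?_⟩
        · rw [natDegree_sub_C]
          omega
        · rw [Int.toNat_of_nonneg (by omega), map_sub, map_neg, map_one]
          linear_combination -hx
    have hs : ∀ (p : ℕ) [Fact p.Prime], 3 ≤ p → k < p → In p (f.eval (p : ℤ)) →
        ∃ (m : ℕ) (w : ℤ_[p]), (m : ℤ) = g.eval (p : ℤ) ∧ Cl p m w ∧
          PadicInt.toZMod w + hz p k = 0 := by
      intro p _ h3 hkp h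
      rcases hk with hk | hk
      · exact step h3 hkp (Or.inl rfl) (by simpa [hk] using h)
      · exact step h3 hkp (Or.inr rfl) (by simpa [hk] using h)
    by_cases hF : Four g
    · by_cases hl : g = 0 ∨ g = X - 1
      · have hk0 : k ≠ 0 := by
          rintro rfl
          apply hf
          rcases hl with rfl | rfl <;> rcases hk with rfl | rfl
          · exact Or.inl (by simp)
          · exact Or.inr (Or.inl (by simp))
          · exact Or.inr (Or.inr (Or.inl (by simp; ring)))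
          · exact Or.inr (Or.inr (Or.inr (by simp; ring)))
        refine ⟨0, (harmonic k).num.natAbs + k + 5, fun p _ hN h => ?_⟩
        obtain ⟨m, w, h1, h2, h3⟩ := hs p (by omega) (by omega) h
        have h4 : m = 0 ∨ m = p - 1 := by
          rcases hl with rfl | rfl
          · exact Or.inl (by simpa using h1)
          · right
            simp only [eval_sub, eval_X, eval_one] at h1
            omega
        have h5 := low (by omega) h4 (by omega) h2 h3
        have h6 := Int.natAbs_le_of_dvd_ne_zero h5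
          (Rat.num_ne_zero.2 (harmonic_pos hk0).ne')
        rw [Int.natAbs_natCast] at h6
        omega
      · refine ⟨3 * harmonic k, k + 5, fun p _ hN h => ?_⟩
        obtain ⟨m, w, h1, h2, h3⟩ := hs p (by omega) (by omega) h
        refine high (by omega) ?_ (by omega) h2 h3
        rcases hF with rfl | rfl | rfl | rfl
        · exact absurd (Or.inl rfl) hl
        · exact absurd (Or.inr rfl) hl
        · left
          simp only [eval_sub, eval_X, eval_pow] at h1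
          have h4 : ((p * (p - 1) : ℕ) : ℤ) = (p : ℤ) ^ 2 - p := by
            rw [Nat.cast_mul, Nat.cast_sub (by omega)]
            push_cast
            ring
          exact_mod_cast h1.trans h4.symm
        · right
          simp only [eval_sub, eval_X, eval_pow, eval_one] at h1
          have h4 : ((m + 1 : ℕ) : ℤ) = ((p * p : ℕ) : ℤ) := by
            push_cast
            rw [h1]
            ring
          exact_mod_cast h4
    · obtain ⟨c, N, hN⟩ := ih _ (hg.resolve_left hF) g hF rfl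
      refine ⟨c, N + k + 3, fun p _ h1 h => hN p (by omega) ?_⟩
      obtain ⟨m, w, h2, h3, -⟩ := hs p (by omega) (by omega) h
      exact ⟨m, w, h2, h3⟩

open Filter in
theorem dens (f : ℤ[X]) (hf : ¬ Four f) : ∀ᶠ x : ℕ in atTop, (x : ℝ) / (62 * Real.log x) ≤
    ({p : ℕ | p ≤ x ∧ p.Prime ∧ ¬ ∃ n j : ℕ, ((n / p ^ j : ℕ) : ℤ) = f.eval (p : ℤ) ∧
      (p : ℤ) ∣ (harmonic n).num}.ncard : ℝ) := by
  obtain ⟨c, N, hN⟩ := main f hf
  letI : BK.I.Cst := ⟨c⟩
  have h1 : ∀ᶠ x : ℕ in atTop, ‖Real.log (x : ℝ)‖ ≤ 1 / (3782 * (N + 3 : ℝ)) * ‖id (x : ℝ)‖ :=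
    tendsto_natCast_atTop_atTop.eventually
      (Real.isLittleO_log_id_atTop.def (by positivity))
  filter_upwards [BK.I.den3, h1, eventually_ge_atTop 2] with x h hx h2
  have hx2 : (2 : ℝ) ≤ x := by exact_mod_cast h2
  have hl : 0 < Real.log x := Real.log_pos (by linarith)
  rw [Real.norm_of_nonneg hl.le, id, Real.norm_of_nonneg (by linarith)] at hx
  obtain ⟨E, hE⟩ : ∃ E, E = {p : ℕ | p ≤ x ∧ p.Prime ∧ ¬ ∃ n j : ℕ,
    ((n / p ^ j : ℕ) : ℤ) = f.eval (p : ℤ) ∧ (p : ℤ) ∣ (harmonic n).num} := ⟨_, rfl⟩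
  rw [← hE]
  have hfin : E.Finite := (Set.finite_le_nat x).subset fun p hp => by
    rw [hE] at hp
    exact hp.1
  have h3 : ((Ioc 0 x).filter fun p => p.Prime ∧ ¬ BK.I.Hyp 3 p) ⊆
      hfin.toFinset ∪ range (N + 3) := by
    intro p hp
    obtain ⟨a1, a2, a3⟩ := mem_filter.1 hp
    rcases lt_or_ge p (N + 3) with a4 | a4
    · exact mem_union_right _ (mem_range.2 a4)
    · refine mem_union_left _ (hfin.mem_toFinset.2 ?_)
      rw [hE]
      refine ⟨(mem_Ioc.1 a1).2, a2, ?_⟩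
      rintro ⟨n, j, b1, b2⟩
      have : Fact p.Prime := ⟨a2⟩
      obtain ⟨z, hz'⟩ := anc (by omega) j b2
      exact a3 (hN p (by omega) ⟨_, z, b1, hz'⟩)
  have h4 := (card_le_card h3).trans (card_union_le _ _)
  rw [card_range, ← Set.ncard_eq_toFinset_card E hfin] at h4
  have h5 : (((Ioc 0 x).filter fun p => p.Prime ∧ ¬ BK.I.Hyp 3 p).card : ℝ) ≤
      E.ncard + (N + 3) := by exact_mod_cast h4
  have h6 : (N + 3 : ℝ) ≤ x / (3782 * Real.log x) := by
    rw [le_div_iff₀ (by positivity)]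
    rw [div_mul_eq_mul_div, le_div_iff₀ (by positivity)] at hx
    linarith
  have h7 : (x : ℝ) / (62 * Real.log x) + x / (3782 * Real.log x) = 1 / 61 * x / Real.log x := by
    field_simp
    norm_num
  linarith

end Pool.Agent.MP_3792c7_nt.Uni

end
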