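import Pool.Agent.Mg.F3792c7p.Gdb7bcf
import Pool.Agent.Mg.F3792c7p.G0979d7
import Pool.Agent.MP_3924c3_nt.FZ.Pow

set_option linter.all false

/-! Non-zero values in all large weights. -/

set_option autoImplicit false

open Finset Filter PowerSeries

noncomputable section

namespace Pool.Agent.MP_3924c3_nt.BR

theorem mul_ALL (s : List ℕ) (hs : ∀ i ∈ s, 0 < i) (w : ℕ) (L : List (List ℕ))
    (h1 : ∀ u ∈ L, (∀ i ∈ u, 0 < i) ∧ u.sum = w) : ∃ L' : List (List ℕ),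
      (∀ u ∈ L', (∀ i ∈ u, 0 < i) ∧ u.sum = s.sum + w) ∧ ∀ p N,
        FZ.H p s N * (L.map fun u => FZ.H p u N).sum = (L'.map fun u => FZ.H p u N).sum := by
  induction L with
  | nil => exact ⟨[], by simp, by simp⟩
  | cons t L ihL =>
    obtain ⟨L1, k1, k2⟩ := ihL fun u hu => h1 u (by simp [hu])
    obtain ⟨t1, t2⟩ := h1 t (by simp)
    obtain ⟨L2, j1, j2⟩ := FZ.stuffle _ s t le_rfl hs t1
    refine ⟨L2 ++ L1, fun u hu => ?_, fun p N => ?_⟩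
    · rcases List.mem_append.1 hu with hu | hu
      · exact ⟨(j1 u hu).1, by rw [(j1 u hu).2, t2]⟩
      · exact k1 u hu
    · simp only [List.map_cons, List.sum_cons, List.map_append, List.sum_append]
      rw [mul_add, j2, k2]

theorem two_ALL (s t : List ℕ) (hs : ∀ i ∈ s, 0 < i) (ht : ∀ i ∈ t, 0 < i) (a b : ℕ) :
    ∃ L : List (List ℕ), (∀ u ∈ L, (∀ i ∈ u, 0 < i) ∧ u.sum = s.sum * a + t.sum * b) ∧
      ∀ p N, FZ.H p s N ^ a * FZ.H p t N ^ b = (L.map fun u => FZ.H p u N).sum := by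
  induction a with
  | zero => simpa using FZ.pow_sum t ht b
  | succ a ih =>
    obtain ⟨L, h1, h2⟩ := ih
    obtain ⟨L', k1, k2⟩ := mul_ALL s hs _ L h1
    exact ⟨L', fun u hu => ⟨(k1 u hu).1, by rw [(k1 u hu).2]; ring⟩,
      fun p N => by rw [pow_succ', mul_assoc, h2, k2]⟩

theorem ALL_pf (hMAIN : MAIN_st) : ALL_st := by
  obtain ⟨c, hc⟩ := hMAIN {p | ¬ BK.Hyp 3 p} ⟨1 / 61, by norm_num,
    (BK.den3.mono fun x hx => by
      have e : {p | p ≤ x ∧ p.Prime ∧ p ∈ {p | ¬ BK.Hyp 3 p}} =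
          ↑((Ioc 0 x).filter fun p => p.Prime ∧ ¬ BK.Hyp 3 p) := by
        ext p
        simp only [Set.mem_ofPred_eq, coe_filter, mem_Ioc]
        exact ⟨fun h => ⟨⟨h.2.1.pos, h.1⟩, h.2⟩, fun h => ⟨h.1.2, h.2⟩⟩
      rwa [e, Set.ncard_coe_finset]).frequently⟩
  obtain ⟨k, hk, hI⟩ := hc 1
  obtain ⟨-, h3, h5, -⟩ := hk 0
  have hinf := hI (fun _ => 1) (fun h => one_ne_zero (congrFun h 0))
  simp only [univ_unique, sum_singleton, one_mul, Fin.default_eq_zero] at hinf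
  obtain ⟨b, hb⟩ : ∃ b, k 0 = b + 1 := ⟨k 0 - 1, by omega⟩
  rw [hb] at hinf h3 h5
  refine ⟨2 * (b + 1), fun w hw => ?_⟩
  obtain ⟨α, β, rfl⟩ : ∃ α β, w = 3 * α + (b + 1) * β := by
    by_cases h0 : w % 3 = 0
    · exact ⟨w / 3, 0, by omega⟩
    · by_cases h1 : w % 3 = (b + 1) % 3
      · exact ⟨(w - (b + 1)) / 3, 1, by omega⟩
      · have h2 : w % 3 = 1 ∧ (b + 1) % 3 = 2 ∨ w % 3 = 2 ∧ (b + 1) % 3 = 1 := by omega
        exact ⟨(w - 2 * (b + 1)) / 3, 2, by rcases h2 with h2 | h2 <;> omega⟩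
  obtain ⟨L, h1, h2⟩ := two_ALL [2, 1] [b, 1] (by simp) (by simp; omega) α β
  change ∃ k : Composition _, Set.Infinite {p : ℕ | p.Prime ∧ FZ.zeta p k ≠ 0}
  by_contra hn
  simp only [not_exists, Set.not_infinite] at hn
  obtain ⟨M, hM⟩ := (Set.finite_iUnion hn).bddAbove
  obtain ⟨p, ⟨p1, p2, p3⟩, p4⟩ := hinf.exists_gt (M + b + 4)
  have : Fact p.Prime := ⟨p2⟩
  refine mul_ne_zero (pow_ne_zero α (FZ.H_ne (a := 2) (by omega) (by omega) p1))
    (pow_ne_zero β (FZ.H_ne (a := b) (by omega) (by omega) p3)) ?_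
  rw [h2]
  refine List.sum_eq_zero fun x hx => ?_
  obtain ⟨u, hu, rfl⟩ := List.mem_map.1 hx
  by_contra h0
  let k' : Composition (3 * α + (b + 1) * β) :=
    ⟨u, fun hi => (h1 u hu).1 _ hi, by simpa using (h1 u hu).2⟩
  have : p ≤ M := hM (Set.mem_iUnion.2 ⟨k', p2, by rw [FZ.zeta_eq]; exact h0⟩)
  omega

end Pool.Agent.MP_3924c3_nt.BR
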