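import Pool.Agent.Mg.F3792c7p.Gd4108d
import Pool.Agent.Mg.F3792c7p.G7b3e93
import Pool.Agent.MP_384f6f_nt.NW.DetRank
import Pool.Agent.Mg.F3792c7p.G4955d1
import Pool.Agent.Mg.F3792c7p.G0979d7
import Pool.Agent.Mg.F3792c7p.G638322

set_option linter.all false

section

/-! A flag of reductions bounds the valuation of an integral determinant. -/

open Finset Filter Topology PowerSeries

noncomputable section

namespace Pool.Agent.MP_3924c3_nt.BK.K7

namespace G3L

theorem flag {K V : Type} [Field K] [AddCommGroup V] [Module K V] (S : ℕ) :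
    ∀ G : ℕ → Set V, Antitone G → ∃ B : Set V, LinearIndepOn K id B ∧ B ⊆ G 0 ∧
      ∀ s ≤ S, G s ⊆ Submodule.span K (B ∩ G s) := by
  induction S with
  | zero =>
    intro G _
    obtain ⟨b, h1, -, h2, h3⟩ := exists_linearIndepOn_id_extension (K := K)
      (linearIndepOn_empty K id) (Set.empty_subset (G 0))
    refine ⟨b, h3, h1, fun s hs => ?_⟩
    obtain rfl : s = 0 := by omega
    rwa [Set.inter_eq_left.2 h1]
  | succ S ih =>
    intro G hG
    obtain ⟨B, h1, h2, h3⟩ := ih (fun t => G (t + 1)) fun a b h => hG (by omega)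
    obtain ⟨b, k1, k2, k3, k4⟩ :=
      exists_linearIndepOn_id_extension h1 (h2.trans (hG (Nat.zero_le _)))
    refine ⟨b, k4, k1, fun s hs => ?_⟩
    rcases s with _ | s
    · rwa [Set.inter_eq_left.2 k1]
    · exact (h3 s (by omega)).trans (Submodule.span_mono (Set.inter_subset_inter_left _ k2))

theorem adapt {K ι : Type} [Field K] [Fintype ι] [DecidableEq ι] (S : ℕ) (d : ℕ → ℕ)
    (G : ℕ → Set (ι → K)) (hG : Antitone G) (h0 : ∀ v, v ∈ G 0)
    (hd : ∀ t ∈ Icc 1 S, d t ≤ Module.finrank K (Submodule.span K (G t))) :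
    ∃ (v : ι → ι → K) (l : ι → ℕ), LinearIndependent K v ∧ (∀ r, v r ∈ G (l r)) ∧
      ∑ t ∈ Icc 1 S, d t ≤ ∑ r, l r := by
  classical
  obtain ⟨B, h1, -, h3⟩ := flag (K := K) S G hG
  let b : Module.Basis B K (ι → K) := Module.Basis.mk h1 (by
    intro v _
    have := h3 0 (Nat.zero_le _) (h0 v)
    refine Submodule.span_mono ?_ this
    rintro x ⟨hx, -⟩
    exact ⟨⟨x, hx⟩, rfl⟩)
  let e : B ≃ ι := b.indexEquiv (Pi.basisFun K ι)
  let v : ι → ι → K := fun r => (e.symm r : ι → K)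
  refine ⟨v, fun r => ((Icc 1 S).filter fun s => v r ∈ G s).card,
    LinearIndependent.comp h1 e.symm e.symm.injective, fun r => ?_, ?_⟩
  · by_contra hn
    have hs : ((Icc 1 S).filter fun s => v r ∈ G s) ⊆
        Ico 1 ((Icc 1 S).filter fun s => v r ∈ G s).card := by
      intro s hs
      rw [mem_filter, mem_Icc] at hs
      refine mem_Ico.2 ⟨hs.1.1, ?_⟩
      by_contra hl
      exact hn (hG (not_lt.1 hl) hs.2)
    have hc := card_le_card hs
    rw [Nat.card_Ico] at hc
    have hz : ((Icc 1 S).filter fun s => v r ∈ G s).card = 0 := by omega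
    exact hn (hG hz.le (h0 _))
  · simp only [card_filter]
    rw [sum_comm]
    refine sum_le_sum fun t ht => (hd t ht).trans ?_
    rw [← card_filter]
    have hT : Submodule.span K (G t) ≤
        Submodule.span K (((univ.filter fun r => v r ∈ G t).image v : Finset (ι → K)) :
          Set (ι → K)) := by
      refine Submodule.span_le.2 ((h3 t (mem_Icc.1 ht).2).trans (Submodule.span_mono ?_))
      rintro x ⟨hx, hx'⟩
      have ev : v (e ⟨x, hx⟩) = x := by simp [v]
      rw [mem_coe, mem_image]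
      exact ⟨e ⟨x, hx⟩, mem_filter.2 ⟨mem_univ _, by rwa [ev]⟩, ev⟩
    exact (Submodule.finrank_mono hT).trans
      ((finrank_span_finset_le_card _).trans card_image_le)

theorem cast_zero {p : ℕ} [Fact p.Prime] {z : ℚ} (h : padicNorm p z < 1) :
    (z : ZMod p) = 0 := by
  have h1 : padicNorm p (z.num : ℚ) < 1 := by
    rw [← Rat.mul_den_eq_num, padicNorm.mul]
    exact mul_lt_one_of_nonneg_of_lt_one_left (padicNorm.nonneg _) h (padicNorm.of_nat _)
  rw [padicNorm.int_lt_one_iff] at h1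
  rw [Rat.cast_def, (ZMod.intCast_zmod_eq_zero_iff_dvd _ _).2 h1, zero_div]

theorem prod_le (p : ℕ) [Fact p.Prime] {κ : Type} (s : Finset κ) (f : κ → ℚ)
    (h : ∀ i, padicNorm p (f i) ≤ 1) : padicNorm p (∏ i ∈ s, f i) ≤ 1 := by
  rw [MP_384f6f_nt.NW.DetRankL.norm_prod]
  exact prod_le_one (fun i _ => padicNorm.nonneg _) fun i _ => h i

theorem red_prod (p : ℕ) [Fact p.Prime] {κ : Type} (s : Finset κ) (f : κ → ℚ)
    (h : ∀ i, padicNorm p (f i) ≤ 1) :
    ((∏ i ∈ s, f i : ℚ) : ZMod p) = ∏ i ∈ s, (f i : ZMod p) := by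
  classical
  induction s using Finset.induction_on with
  | empty => simp
  | insert a s ha ih =>
    rw [prod_insert ha, prod_insert ha,
      (MP_384f6f_nt.NW.stRed p _ _ (h a) (prod_le p s f h)).2.1, ih]

theorem red_det (p : ℕ) [Fact p.Prime] {ι : Type} [Fintype ι] [DecidableEq ι]
    (X : Matrix ι ι ℚ) (h : ∀ r s, padicNorm p (X r s) ≤ 1) :
    ((X.det : ℚ) : ZMod p) = (Matrix.of fun r s => (X r s : ZMod p)).det := by
  rw [Matrix.det_apply', Matrix.det_apply', RK.red_sum p _ _ fun σ => by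
    rw [padicNorm.mul]
    exact mul_le_one₀ (padicNorm.of_int _) (padicNorm.nonneg _)
      (prod_le p _ _ fun i => h _ _)]
  refine sum_congr rfl fun σ _ => ?_
  rw [(MP_384f6f_nt.NW.stRed p _ _ (padicNorm.of_int _) (prod_le p _ _ fun i => h _ _)).2.1,
    red_prod p _ _ fun i => h _ _, Rat.cast_intCast]
  rfl

end G3L

open G3L in
theorem s_G3 : StG3 := by
  intro ι _ _ p hp M S d hM hd
  have hp0 : (0 : ℚ) < p := by exact_mod_cast hp.out.pos
  have hp1 : (1 : ℚ) ≤ p := by exact_mod_cast hp.out.one_le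
  have hm : ∀ {a b : ℕ}, a ≤ b → ((p : ℚ) ^ b)⁻¹ ≤ ((p : ℚ) ^ a)⁻¹ := fun h =>
    inv_anti₀ (pow_pos hp0 _) (pow_le_pow_right₀ hp1 h)
  obtain ⟨v, l, h1, h2, h3⟩ := adapt S d (fun t => rd p '' {x | x ∈ {x : ι → ℚ | ∀ s,
      padicNorm p (∑ r, x r * M r s) ≤ ((p : ℚ) ^ t)⁻¹} ∧ Iv p x})
    (fun a b h => Set.image_mono fun x hx => ⟨fun s => (hx.1 s).trans (hm h), hx.2⟩)
    (fun v => ⟨fun r => ((v r).val : ℚ), ⟨fun s => by
      rw [pow_zero, inv_one]
      refine padicNorm.sum_le' (fun r _ => ?_) zero_le_one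
      rw [padicNorm.mul]
      exact mul_le_one₀ (padicNorm.of_nat _) (padicNorm.nonneg _) (hM r s),
      fun r => padicNorm.of_nat _⟩, funext fun r => by
        simp only [rd, Rat.cast_natCast, ZMod.natCast_zmod_val]⟩) hd
  choose x hx hv using h2
  have hX : 1 ≤ padicNorm p (Matrix.of x).det := by
    by_contra hn
    have e := cast_zero (not_le.1 hn)
    rw [red_det p (Matrix.of x) fun r s => (hx r).2 s] at e
    have ev : (Matrix.of fun r s => ((Matrix.of x r s : ℚ) : ZMod p)) = Matrix.of v := by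
      ext r s
      exact congrFun (hv r) s
    rw [ev] at e
    have hu : IsUnit (Matrix.of v) := Matrix.linearIndependent_rows_iff_isUnit.1 h1
    exact ((Matrix.isUnit_iff_isUnit_det _).1 hu).ne_zero e
  have hD := MP_384f6f_nt.NW.DetRankL.norm_det p (Matrix.of x * M)
    (fun r => ((p : ℚ) ^ l r)⁻¹) (fun r => by positivity) fun r s => by
      rw [Matrix.mul_apply]
      exact (hx r).1 s
  rw [Matrix.det_mul, padicNorm.mul, prod_inv_distrib, prod_pow_eq_pow_sum] at hD
  exact (le_mul_of_one_le_left (padicNorm.nonneg _) hX).trans (hD.trans (hm h3))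

end Pool.Agent.MP_3924c3_nt.BK.K7

end
end

section

open Finset Filter Topology PowerSeries

noncomputable section

namespace Pool.Agent.MP_3924c3_nt.BK.K7

namespace FmL

theorem kp_ne {k r : ℕ} (h : r ≤ k) : kp k r ≠ 0 :=
  prod_ne_zero_iff.2 fun t ht => by
    have : t < k := lt_of_lt_of_le (mem_range.1 ht) h
    exact sub_ne_zero.2 (by exact_mod_cast this.ne')

theorem cf_eq {k j r : ℕ} (h : r ≤ k) :
    (cf (-(k : ℤ)) j r : ℚ) * (-1) ^ (j - r) = (kp k r)⁻¹ * (j.choose r * kp k j) := by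
  rcases le_or_gt r j with h1 | h1
  · have e1 : kp k j = kp k r * ∏ t ∈ Ico r j, ((k : ℚ) - t) := (prod_range_mul_prod_Ico _ h1).symm
    have e2 : ∏ t ∈ Ico r j, ((k : ℚ) - t) = (∏ t ∈ Ico r j, (-(k : ℚ) + t)) * (-1) ^ (j - r) := by
      rw [← Nat.card_Ico, ← prod_const, ← prod_mul_distrib]
      exact prod_congr rfl fun t _ => by ring
    have := kp_ne h
    rw [e1, e2, cf]
    push_cast
    field_simp
  · simp [cf, Nat.choose_eq_zero_of_lt h1]

theorem co (U c : PS) (j r : ℕ) :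
    (Polynomial.taylor U (Polynomial.monomial j c)).coeff r = (j.choose r : ℚ) • (c * U ^ (j - r)) := by
  rw [Polynomial.taylor_coeff, Polynomial.hasseDeriv_monomial, Polynomial.eval_monomial,
    Nat.cast_smul_eq_nsmul, nsmul_eq_mul, mul_assoc]

end FmL

theorem s_Fm : StFm := by
  intro k a u
  have h1 : ∀ j : Fin (k + 1), can th UU (-(k : ℤ)) j u = ∑ r ∈ range (k + 1),
      (cf (-(k : ℤ)) j r : ℚ) • ((-UU) ^ ((j : ℕ) - r) * (th : PS → PS)^[r] u) := fun j => by
    refine sum_subset (range_subset_range.2 j.2) fun r _ hr => ?_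
    have : (j : ℕ) < r := by simpa using hr
    simp [cf, Nat.choose_eq_zero_of_lt this]
  simp only [h1, mul_sum, Pa, map_sum, Polynomial.finsetSum_coeff, FmL.co, sum_mul, smul_sum]
  rw [sum_comm]
  refine sum_congr rfl fun r hr => sum_congr rfl fun j _ => ?_
  have e : (-UU) ^ ((j : ℕ) - r) = ((-1 : ℚ) ^ ((j : ℕ) - r)) • UU ^ ((j : ℕ) - r) := by
    rw [← smul_pow, neg_one_smul]
  rw [e]
  simp only [smul_mul_assoc, mul_smul_comm, smul_smul, mul_assoc]
  rw [FmL.cf_eq (Nat.lt_succ_iff.1 (mem_range.1 hr))]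

end Pool.Agent.MP_3924c3_nt.BK.K7

end
end

section

open Finset Filter Topology PowerSeries

noncomputable section

namespace Pool.Agent.MP_3924c3_nt.BK.K7

namespace DmL

variable {M : ℤ → Submodule ℚ PS}

/-- graded polynomials -/
def Gr (M : ℤ → Submodule ℚ PS) (w : ℤ) (P : Polynomial PS) : Prop :=
  ∀ j : ℕ, P.coeff j ∈ M (w - 2 * j)

theorem Gr.mul (h : Mod M) {a b : ℤ} {P Q : Polynomial PS} (hP : Gr M a P) (hQ : Gr M b Q) :
    Gr M (a + b) (P * Q) := fun j => by
  rw [Polynomial.coeff_mul]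
  refine Submodule.sum_mem _ fun x hx => h.mul' (hP x.1) (hQ x.2) ?_
  rw [← mem_antidiagonal.1 hx]
  push_cast
  ring

theorem Gr.pow (h : Mod M) {a : ℤ} {P : Polynomial PS} (hP : Gr M a P) (n : ℕ) :
    Gr M (n * a) (P ^ n) := by
  induction n with
  | zero =>
    intro j
    rw [pow_zero, Polynomial.coeff_one]
    split_ifs with hj
    · simpa [hj] using h.one
    · exact zero_mem _
  | succ n ih =>
    rw [pow_succ, Nat.cast_succ, add_mul, one_mul]
    exact ih.mul h hP

theorem gr_Ln {a : ℤ} {A B : PS} (hA : A ∈ M (a - 1)) (hB : B ∈ M (a + 1)) :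
    Gr M (a + 1) (Ln A B) := fun j => by
  rw [Ln, Polynomial.coeff_sub, Polynomial.coeff_C_mul_X, Polynomial.coeff_C]
  refine sub_mem ?_ ?_ <;> split_ifs with hj
  · rwa [hj, show a + 1 - 2 * ((1 : ℕ) : ℤ) = a - 1 by push_cast; ring]
  · exact zero_mem _
  · simpa [hj] using hB
  · exact zero_mem _

theorem Ln_ne {A : PS} (hA : A ≠ 0) (B : PS) : Ln A B ≠ 0 := fun h => hA (by
  simpa [Ln] using congrArg (fun P => P.coeff 1) h)

theorem Ln_deg (A B : PS) : (Ln A B).natDegree ≤ 1 := by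
  unfold Ln
  compute_degree

theorem rec_eq {k : ℕ} {P : Polynomial PS} (h : P.natDegree ≤ k) :
    ∑ j : Fin (k + 1), Polynomial.monomial (j : ℕ) (P.coeff j) = P := by
  rw [Fin.sum_univ_eq_sum_range (fun j => Polynomial.monomial j (P.coeff j))]
  exact (P.as_sum_range' _ (Nat.lt_succ_of_le h)).symm

/-- the first coefficients -/
def co (k : ℕ) : Polynomial PS →ₗ[ℚ] (Fin (k + 1) → PS) where
  toFun P j := P.coeff j
  map_add' P Q := funext fun j => Polynomial.coeff_add P Q j
  map_smul' c P := funext fun j => Polynomial.coeff_smul c P j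

/-- the cofactor -/
def Qm (n E : ℕ) (g : ℕ → ℕ) : (Fin n × Fin E → ℚ) →ₗ[ℚ] Polynomial PS :=
  Fintype.linearCombination ℚ fun x : Fin n × Fin E =>
    Polynomial.monomial (x.1 : ℕ) (bs E x.2 * gw (g x.1))

theorem Qm_deg (n E : ℕ) (g : ℕ → ℕ) (y : Fin n × Fin E → ℚ) :
    (Qm n E g y).natDegree ≤ n - 1 := by
  rw [Qm, Fintype.linearCombination_apply]
  refine Polynomial.natDegree_sum_le_of_forall_le _ _ fun x _ => ?_
  refine (Polynomial.natDegree_smul_le _ _).trans ((Polynomial.natDegree_monomial_le _).trans ?_)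
  have := x.1.2
  omega

theorem Qm_coeff (n E : ℕ) (g : ℕ → ℕ) (y : Fin n × Fin E → ℚ) (j : Fin n) :
    (Qm n E g y).coeff j = ∑ i : Fin E, y (j, i) • (bs E i * gw (g j)) := by
  rw [Qm, Fintype.linearCombination_apply, Polynomial.finsetSum_coeff, Fintype.sum_prod_type,
    sum_eq_single j]
  · simp
  · intro b _ hb
    simp [Polynomial.coeff_monomial, Fin.val_ne_of_ne hb]
  · simp

theorem Qm_gr (h : Mod M) {n E : ℕ} {g : ℕ → ℕ} {w : ℤ} (y : Fin n × Fin E → ℚ)
    (hg : ∀ j < n, 0 < E → 4 ≤ g j ∧ g j % 2 = 0 ∧ w - 2 * j = 12 * ((E : ℤ) - 1) + g j) :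
    Gr M w (Qm n E g y) := fun j => by
  by_cases hj : j < n
  · rw [Qm_coeff n E g y ⟨j, hj⟩]
    refine Submodule.sum_mem _ fun i _ => Submodule.smul_mem _ _ ?_
    obtain ⟨a, b, c⟩ := hg j hj i.pos
    exact h.mul' (Mu.bs_mem h i.2) (Mu.gw_mem h a b) c
  · rw [Qm, Fintype.linearCombination_apply, Polynomial.finsetSum_coeff]
    refine Submodule.sum_mem _ fun x _ => ?_
    have := x.1.2
    rw [Polynomial.coeff_smul, Polynomial.coeff_monomial, if_neg (by omega), smul_zero]
    exact zero_mem _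

/-- the multipliers -/
def Ph (k D : ℕ) : (Ix k D → ℚ) →ₗ[ℚ] (Fin (k + 1) → PS) where
  toFun x j := kp k j • ax k D x (.inr j)
  map_add' x y := funext fun j => by simp only [ax, Pi.add_apply, add_smul, sum_add_distrib,
    smul_add]
  map_smul' c x := funext fun j => by
    simp only [ax, Pi.smul_apply, smul_eq_mul, mul_smul, ← smul_sum, RingHom.id_apply]
    exact smul_comm _ _ _

theorem pi_dim {n : ℕ} (N : Fin n → Submodule ℚ PS) [∀ j, Module.Finite ℚ (N j)] :
    Module.Finite ℚ (Submodule.pi Set.univ N) ∧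
      Module.finrank ℚ (Submodule.pi Set.univ N) ≤ ∑ j, Module.finrank ℚ (N j) := by
  let f : Submodule.pi Set.univ N →ₗ[ℚ] ∀ j, N j := LinearMap.pi fun j =>
    LinearMap.codRestrict (N j) (LinearMap.proj j ∘ₗ (Submodule.pi Set.univ N).subtype)
      fun x => x.2 j trivial
  have hf : Function.Injective f := fun x y e =>
    Subtype.ext (funext fun j => congrArg Subtype.val (congrFun e j))
  exact ⟨Module.Finite.of_injective f hf,
    (LinearMap.finrank_le_finrank_of_injective hf).trans_eq (Module.finrank_pi_fintype ℚ)⟩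

end DmL

open DmL in
theorem s_Dm (hLA : StLA) (hBs : StBs) (hMu : StMu) (hDim : StDim) : StDm := by
  intro M h k D p s A B hk hp hs hA hB hA0
  obtain ⟨m, hm⟩ : ∃ m, m = s * (p + 1) := ⟨_, rfl⟩
  have hm2 : m % 2 = 0 := hm ▸ Nat.even_iff.1 (hp.add_one.mul_left s)
  have hk' := Nat.odd_iff.1 hk
  let g : ℕ → ℕ := fun j => 12 * (m / 12 + 1) + 2 * k + 4 - 2 * j - m
  let Q := Qm (k + 1 - s) (D - (m / 12 + 1)) g
  let Ψ := co k ∘ₗ LinearMap.mulLeft ℚ (Ln A B ^ s) ∘ₗ Q
  have hΨ : ∀ y j, Ψ y j = (Ln A B ^ s * Q y).coeff j := fun _ _ => rfl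
  have hdeg : ∀ y, (Ln A B ^ s * Q y).natDegree ≤ k := fun y => by
    have h1 := Polynomial.natDegree_pow_le_of_le s (Ln_deg A B)
    have h2 := Qm_deg (k + 1 - s) (D - (m / 12 + 1)) g y
    exact Polynomial.natDegree_mul_le.trans ((Nat.add_le_add h1 h2).trans (by omega))
  have hinj : Function.Injective Ψ := by
    rw [injective_iff_map_eq_zero]
    intro y hy
    have e := rec_eq (hdeg y)
    simp only [← hΨ, hy, Pi.zero_apply, map_zero, sum_const_zero] at e
    have e2 := (mul_eq_zero.1 e.symm).resolve_left (pow_ne_zero s (Ln_ne hA0 B))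
    funext x
    refine congrFun (hBs _ (g x.1) (fun i => y (x.1, i)) ?_) x.2
    rw [← Qm_coeff, show Qm _ _ g y = 0 from e2, Polynomial.coeff_zero]
  let N : Fin (k + 1) → Submodule ℚ PS := fun j => M (w0 k D - wt k (.inr j))
  have : ∀ j, Module.Finite ℚ (N j) := fun j => (hDim M h _).1
  obtain ⟨f1, f2⟩ := pi_dim N
  have f3 : ∑ j, Module.finrank ℚ (N j) ≤ (k + 1) * (D + k) := by
    refine (sum_le_card_nsmul _ _ (D + k) fun j _ => (hDim M h _).2.trans ?_).trans (by simp)
    simp only [w0, wt]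
    omega
  have key := hLA _ _ (Ph k D) (LinearMap.range Ψ) (Submodule.pi Set.univ N) (by
    rintro _ ⟨y, rfl⟩ j -
    have g1 := ((gr_Ln hA hB).pow h s).mul h (Qm_gr h (w := w0 k D + k - m) (g := g) y
      fun j hj hE => by simp only [g, w0]; omega) j
    have e : (s : ℤ) * (p + 1) + (w0 k D + k - m) - 2 * (j : ℕ) = w0 k D - wt k (.inr j) := by
      simp only [hm, wt]
      push_cast
      ring
    rwa [e] at g1) fun x j _ => Submodule.smul_mem _ _ (Submodule.sum_mem _ fun i _ =>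
      Submodule.smul_mem _ _ (hMu M h k D hk (.inr j, i)).1)
  refine ⟨(LinearMap.range Ψ).comap (Ph k D), ?_, ?_⟩
  · rw [LinearMap.finrank_range_of_inj hinj, Module.finrank_fintype_fun_eq_card,
      Module.finrank_fintype_fun_eq_card, card_Ix, Fintype.card_prod, Fintype.card_fin,
      Fintype.card_fin] at key
    rw [dW, ← hm, Nat.sub_le_iff_le_add]
    nlinarith
  · rintro x ⟨y, hy⟩
    refine ⟨Q y, ?_⟩
    rw [← rec_eq (hdeg y)]
    exact sum_congr rfl fun j _ => congrArg _ (congrFun hy j).symm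

end Pool.Agent.MP_3924c3_nt.BK.K7

end
end

section

open Finset Filter Topology PowerSeries

noncomputable section

namespace Pool.Agent.MP_3924c3_nt.BK.K7

namespace ValL

theorem norm_pow (p n : ℕ) [Fact p.Prime] : padicNorm p ((p : ℚ) ^ n) = ((p : ℚ) ^ n)⁻¹ := by
  rw [IsAbsoluteValue.abv_pow (padicNorm p), padicNorm.padicNorm_p_of_prime, inv_pow]

theorem ker_rank {ι : Type} [Fintype ι] [DecidableEq ι] (R : Matrix ι ι ℚ) (P : ι → Prop)
    [DecidablePred P] : ∃ W : Submodule ℚ (ι → ℚ),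
      Fintype.card ι ≤ Module.finrank ℚ W + (univ.filter P).card ∧
        ∀ x ∈ W, ∀ s, P s → ∑ r, x r * R r s = 0 := by
  let L : (ι → ℚ) →ₗ[ℚ] ({s // P s} → ℚ) := LinearMap.funLeft ℚ ℚ Subtype.val ∘ₗ R.vecMulLinear
  refine ⟨LinearMap.ker L, ?_, fun x hx s hs => congrFun (LinearMap.mem_ker.1 hx) ⟨s, hs⟩⟩
  have h1 := L.finrank_range_add_finrank_ker
  have h2 := (LinearMap.range L).finrank_le
  rw [Module.finrank_fintype_fun_eq_card] at h1 h2
  have h3 : Module.finrank ℚ (LinearMap.range L) ≤ (univ.filter P).card :=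
    h2.trans_eq (Fintype.card_subtype P)
  omega

end ValL

open ValL V2 in
theorem s_Val (hG3 : StG3) (hG4 : StG4) (hG5 : StG5) (hW : StW) (hDim : StDim) (hRK : StRK)
    (hRed : MP_384f6f_nt.NW.StRed) : StVal := by
  intro M hM k D p ρ u c hk h3 hc hp hkp hN hth hI1 hI2 hρ
  have : Fact p.Prime := ⟨hp⟩
  have p1 : (1 : ℚ) < p := by exact_mod_cast hp.one_lt
  have p0 : (0 : ℚ) < p := by linarith
  have hc2 : ∀ s, c s < p ^ 2 := fun s => (hc.2 s).trans_le hN
  obtain ⟨R, hR⟩ : ∃ R : Matrix (Ix k D) (Ix k D) ℚ,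
    R = Matrix.of fun r s => coeff (c s) (rw k D u r) := ⟨_, rfl⟩
  have hRa : ∀ r s, R r s = coeff (c s) (rw k D u r) := fun r s => by rw [hR]; rfl
  have hB : ∀ (x : Ix k D → ℚ) s,
      ∑ r, x r * ((p : ℚ) ^ k • R) r s = (p : ℚ) ^ k * ∑ r, x r * R r s := fun x s => by
    rw [mul_sum]
    exact sum_congr rfl fun r _ => mul_left_comm _ _ _
  obtain ⟨W, w1, w2⟩ := ker_rank R fun s => ¬ c s < p
  have hlo : lo k D p ≤ Module.finrank ℚ W := by
    have := card_le p hc
    rw [card_Ix] at w1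
    unfold lo
    omega
  obtain ⟨T, t1, t2⟩ : ∃ T : Finset (Ix k D → ZMod p), ((k + 3) * D ≤ ρ ∨ T.card ≤ ρ) ∧ ∀ r,
      rd p (L1 c p (rw k D u r)) ∈ Submodule.span (ZMod p) (T : Set (Ix k D → ZMod p)) := by
    rcases hρ with h | ⟨h1, h2⟩
    · obtain ⟨T, -, t2⟩ := span_single (K := ZMod p) (univ : Finset (Ix k D))
      exact ⟨T, Or.inl h, fun r => t2 _ fun s hs => absurd (mem_univ s) hs⟩
    · obtain ⟨d1, d2⟩ := hDim M hM (w0 k D + p)
      obtain ⟨T, t1, t2⟩ := span_of hRK p (M (w0 k D + p)) (L1 c p)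
      refine ⟨T, Or.inr (t1.trans (d2.trans ((dim_le h3).trans h1))), fun r => ?_⟩
      obtain ⟨f, f1, f2, f3⟩ := h2 r
      have := t2 f f1 fun s => by
        change padicNorm p (if c s < p then coeff (c s) f else 0) ≤ 1
        split_ifs with h
        · exact f2 _ h
        · simp
      convert this using 1
      funext s
      change (((if c s < p then coeff (c s) (rw k D u r) else 0 : ℚ)) : ZMod p)
        = (((if c s < p then coeff (c s) f else 0 : ℚ)) : ZMod p)
      split_ifs with h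
      · exact cast_eq hRed (f2 _ h) (by rw [← map_sub]; exact f3 _ h)
      · rfl
  have h := hG3 _ p ((p : ℚ) ^ k • R) (k + 1)
    (fun t => if t ≤ k then max (lo k D p) (dW k D p t) else lo k D p - ρ)
    (fun r s => by
      have := hI2 r _ (hc2 s)
      rwa [PowerSeries.coeff_smul, ← hRa] at this)
    fun t ht => by
      split_ifs with htk
      · refine max_le (hlo.trans ((hG4 _ p W).trans
          (Submodule.finrank_mono (Rd_mono p fun x hx hi s => ?_)))) ?_
        · rw [hB]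
          by_cases hs : c s < p
          · rw [padicNorm.mul, norm_pow]
            refine (mul_le_of_le_one_right (by positivity) (padicNorm.sum_le' (fun r _ => ?_)
              zero_le_one)).trans (inv_anti₀ (by positivity) (pow_le_pow_right₀ p1.le htk))
            rw [padicNorm.mul, hRa]
            exact mul_le_one₀ (hi r) (padicNorm.nonneg _) (hI1 r _ hs)
          · rw [w2 x hx s hs, mul_zero, padicNorm.zero]
            positivity
        · obtain ⟨W', v1, v2⟩ := hW M hM k D p t (p ^ 2) u hk hp hkp htk (pow_pos hp.pos 2) hth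
          refine v1.trans ((hG4 _ p W').trans
            (Submodule.finrank_mono (Rd_mono p fun x hx hi s => ?_)))
          have := v2 x hx hi _ (hc2 s)
          rw [PowerSeries.coeff_smul, map_sum] at this
          rw [hB]
          simpa only [hRa, PowerSeries.coeff_smul, smul_eq_mul] using this
      · have ht' : t = k + 1 := by have := (mem_Icc.1 ht).2; omega
        have g := hG5 _ p W (Matrix.of fun r => L1 c p (rw k D u r)) T (fun r s => by
          change padicNorm p (if c s < p then coeff (c s) (rw k D u r) else 0) ≤ 1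
          split_ifs with h
          · exact hI1 r _ h
          · simp) t2
        refine le_trans (b := _) ?_ (Submodule.finrank_mono (Rd_mono p
          (S := {x : Ix k D → ℚ | x ∈ W ∧ ∀ s, padicNorm p
            (∑ r, x r * (Matrix.of fun r => L1 c p (rw k D u r)) r s) ≤ (p : ℚ)⁻¹})
          fun x hx _ s => ?_))
        · have : lo k D p ≤ (k + 3) * D := Nat.sub_le _ _
          omega
        · rw [hB]
          by_cases hs : c s < p
          · have e := hx.2 s
            have e2 : ∀ r, (Matrix.of fun r => L1 c p (rw k D u r)) r s = R r s := fun r => by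
              rw [hRa]
              exact if_pos hs
            simp only [e2] at e
            rw [padicNorm.mul, norm_pow, ht', pow_succ, mul_inv]
            exact mul_le_mul_of_nonneg_left e (by positivity)
          · rw [w2 x hx.1 s hs, mul_zero, padicNorm.zero]
            positivity
  rw [Matrix.det_smul, padicNorm.mul, ← pow_mul, norm_pow, card_Ix,
    sum_Icc_succ_top (by omega), if_neg (by omega),
    sum_congr rfl fun t ht => if_pos (mem_Icc.1 ht).2, inv_mul_le_iff₀ (by positivity)] at h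
  rw [Dt, ← hR, bt, neg_sub, zpow_sub₀ p0.ne', zpow_natCast, div_eq_mul_inv]
  refine h.trans_eq ?_
  rw [← zpow_natCast]
  push_cast
  rfl

end Pool.Agent.MP_3924c3_nt.BK.K7

end
end

section

/-! Majorant norms of `E₄` and `E₆` at radius one half. -/

open Finset Filter Topology PowerSeries

noncomputable section

namespace Pool.Agent.MP_3924c3_nt.BK.K7

namespace N2L

open ME

theorem sg_le (a n : ℕ) : (sg a n : ℝ) ≤ (n : ℝ) ^ (a + 1) := by
  have h1 : sg a n ≤ n.divisors.card • n ^ a :=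
    sum_le_card_nsmul _ _ _ fun d hd => Nat.pow_le_pow_left (Nat.divisor_le hd) a
  rw [smul_eq_mul] at h1
  have h2 : sg a n ≤ n ^ (a + 1) := by
    rw [pow_succ' n a]
    exact h1.trans (Nat.mul_le_mul_right _ (Nat.card_divisors_le_self n))
  exact_mod_cast h2

theorem ber6 : bernoulli 6 = 1 / 42 := by
  have h5 : bernoulli' 5 = 0 := bernoulli'_eq_zero_of_odd (by decide) (by decide)
  rw [bernoulli_eq_bernoulli'_of_ne_one (by decide), bernoulli'_def]
  simp only [sum_range_succ, range_zero, sum_empty, bernoulli'_zero, bernoulli'_one,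
    bernoulli'_two, bernoulli'_three, bernoulli'_four, h5]
  norm_num [Nat.choose]

theorem sum4 (N : ℕ) : ∑ n ∈ range N, (n : ℝ) ^ 4 / 2 ^ n +
    (2 * (N : ℝ) ^ 4 + 8 * N ^ 3 + 36 * N ^ 2 + 104 * N + 150) / 2 ^ N = (150 : ℝ) := by
  induction N with
  | zero => norm_num
  | succ n ih =>
    rw [sum_range_succ, add_assoc, pow_succ (2 : ℝ) n]
    refine Eq.trans ?_ ih
    congr 1
    push_cast
    field_simp
    ring

theorem sum6 (N : ℕ) : ∑ n ∈ range N, (n : ℝ) ^ 6 / 2 ^ n +
    (2 * (N : ℝ) ^ 6 + 12 * N ^ 5 + 90 * N ^ 4 + 520 * N ^ 3 + 2250 * N ^ 2 + 6492 * N + 9366) /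
      2 ^ N = (9366 : ℝ) := by
  induction N with
  | zero => norm_num
  | succ n ih =>
    rw [sum_range_succ, add_assoc, pow_succ (2 : ℝ) n]
    refine Eq.trans ?_ ih
    congr 1
    push_cast
    field_simp
    ring

theorem coeff4 (n : ℕ) :
    |((coeff n E4 : ℚ) : ℝ)| = (if n = 0 then 1 else 0) + 240 * (sg 3 n : ℝ) := by
  rw [E4, coeff_smul, Gs, coeff_mk, smul_eq_mul]
  split_ifs with h
  · subst h
    rw [ber4]
    norm_num [sg]
  · have : (((240 * ∑ d ∈ n.divisors, (d : ℚ) ^ (4 - 1) : ℚ)) : ℝ) = 240 * (sg 3 n : ℝ) := by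
      simp [sg]
    rw [this, abs_of_nonneg (by positivity), zero_add]

theorem coeff6 (n : ℕ) :
    |((coeff n E6 : ℚ) : ℝ)| = (if n = 0 then 1 else 0) + 504 * (sg 5 n : ℝ) := by
  rw [E6, coeff_smul, Gs, coeff_mk, smul_eq_mul]
  split_ifs with h
  · subst h
    rw [ber6]
    norm_num [sg]
  · have : (((-504 * ∑ d ∈ n.divisors, (d : ℚ) ^ (6 - 1) : ℚ)) : ℝ) = -(504 * (sg 5 n : ℝ)) := by
      simp [sg]
    rw [this, abs_neg, abs_of_nonneg (by positivity), zero_add]

theorem key (a N : ℕ) (c S : ℝ) (hc : 0 ≤ c) (f : ℕ → ℝ)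
    (hf : ∀ n, f n = (if n = 0 then 1 else 0) + c * (sg a n : ℝ))
    (hS : ∑ n ∈ range N, (n : ℝ) ^ (a + 1) / 2 ^ n ≤ S) :
    ∑ n ∈ range N, f n / 2 ^ n ≤ 1 + c * S := by
  have h1 : ∀ n ∈ range N, f n / 2 ^ n ≤
      (if n = 0 then 1 else 0) + c * ((n : ℝ) ^ (a + 1) / 2 ^ n) := fun n _ => by
    rw [hf, add_div, mul_div_assoc]
    refine add_le_add ?_ ?_
    · split_ifs with h
      · simp [h]
      · simp
    · have := sg_le a n
      gcongr
  refine (sum_le_sum h1).trans ?_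
  rw [sum_add_distrib, ← mul_sum, sum_ite_eq']
  refine add_le_add ?_ (mul_le_mul_of_nonneg_left hS hc)
  split_ifs <;> norm_num

end N2L

open N2L in
theorem s_N2 : StN2 := by
  refine ⟨fun N => ?_, fun N => ?_⟩
  · refine (key 3 N 240 150 (by norm_num) _ coeff4 ?_).trans (by norm_num)
    exact (le_add_of_nonneg_right (by positivity)).trans (sum4 N).le
  · refine (key 5 N 504 9366 (by norm_num) _ coeff6 ?_).trans (by norm_num)
    exact (le_add_of_nonneg_right (by positivity)).trans (sum6 N).le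

end Pool.Agent.MP_3924c3_nt.BK.K7

end
end

section

/-! Assembly for `k = 7`. -/

open Finset Filter Topology PowerSeries

noncomputable section

namespace Pool.Agent.MP_3924c3_nt.BK.K7

open MP_384f6f_nt

theorem a_Val : StVal :=
  s_Val s_G3 s_G4 (s_G5 s_G4)
    (s_W s_Nt s_Fm (s_An s_Nt) (s_Dm s_LA (s_Bs s_Int) (s_Mu s_Int) s_Dim) s_Int (s_Mu s_Int)
      (s_CA s_B)) s_Dim s_RK NW.stRed

theorem a_A : StA := s_A (s_A0 s_Mb (s_Bl s_Mb (s_Num s_Mb s_Tl s_N2)) (s_MR s_Mb))

variable [I.Cst]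

theorem val7 (D p : ℕ) (c : Ix 7 D → ℕ) (ha : Adm 7 D c) (pp : p.Prime) (h1 : 7 + 4 + I.dn ≤ p)
    (h2 : NN 7 D ≤ p ^ 2) : padicNorm p (I.Det 7 D c) ≤
      (p : ℚ) ^ (-bt 7 D p (if I.Hyp 7 p then rho 7 D p else (7 + 3) * D)) := by
  have : Fact p.Prime := ⟨pp⟩
  have hka : padicNorm p (I.ka 7) ≤ 1 := by
    have := (I.s_CY 7 p pp (by norm_num) h1).1 0 pp.pos
    simpa [I.YY, YY] using this
  refine a_Val _ a_Mod 7 D p _ (I.YY 7) c (by decide) (by norm_num) ha pp (by omega) h2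
    (fun r hr => s_Th 7 p r _ pp (by norm_num) hr hka)
    (fun r => (I.a_R0 _ a_Mod 7 D p r (by decide) pp h1).1)
    (fun r => (I.a_R0 _ a_Mod 7 D p r (by decide) pp h1).2.1) ?_
  split_ifs with h
  · exact .inr ⟨le_rfl, fun r => I.a_R1 _ a_Mod 7 D p r (by decide) pp h1 h⟩
  · exact .inl le_rfl

theorem fin7 : I.StFin 7 (1 / 3) := by
  have hL := log_le_of (y := 4 ^ (3 * (7 + 3)) * 2910000 ^ 3 * 537) (n := 93) (by norm_num)
    (by norm_num)
  filter_upwards [s_Sum a_PN s_Sm (I.Hyp 7), a_A 7 _ (I.pg_YY 7) (1 / 10) (by norm_num),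
    eventually_ge_atTop (7 + 3), eventually_ge_atTop ((7 + 4 + I.dn) ^ 2),
    eventually_ge_atTop (2 * 7 * I.dn)] with D h1 h2 hD hD2 hD3
  have hN : D ≤ NN 7 D := by
    unfold NN
    omega
  have hbig : ∀ p : ℕ, NN 7 D ≤ p ^ 2 → 7 + 4 + I.dn ≤ p := fun p hp =>
    Nat.le_of_not_lt fun h => by nlinarith [Nat.pow_lt_pow_left h (n := 2) (by omega)]
  obtain ⟨c, c1, c2, c3⟩ := s_Min (Ix 7 D) (fun r n => coeff n (I.row 7 D r)) (NN 7 D)
    (fun c hc => I.a_Z _ a_Mod 7 D c (by decide) (by norm_num) hc)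
  have ha : Adm 7 D c := ⟨c1, c2⟩
  have h4 := NW.stPF (I.Det 7 D c) (PP 7 D) (bet (I.Hyp 7) D) c3 (fun p hp => (mem_filter.1 hp).2)
    (fun p hp => by
      have pp := (mem_filter.1 hp).2
      unfold bet
      by_cases g1 : p ^ 2 < NN 7 D ∨ p < 7 + 4
      · rw [if_pos g1]
        exact (I.a_V0 _ a_Mod 7 D p c (by decide) ha pp).1 (by omega)
      · rw [if_neg g1]
        exact val7 D p c ha pp (hbig p (by omega)) (by omega))
    (fun p pp hp => by
      have h5 : 12 * (7 + 2) * D < p := by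
        by_contra h
        exact hp (mem_filter.2 ⟨mem_Ioc.2 ⟨pp.pos, by omega⟩, pp⟩)
      refine (I.a_V0 _ a_Mod 7 D p c (by decide) ha pp).2
        (by nlinarith [sq_nonneg (7 + 4 + I.dn : ℤ)]) ?_
      unfold NN
      omega)
  have h6 := h2 c ha c3
  have D0 : (0 : ℝ) < D := by exact_mod_cast (by omega : 0 < D)
  have h7 : ∑ p ∈ PP 7 D, (bet (I.Hyp 7) D p : ℝ) * Real.log p ≤ _ := h4.trans h6
  have h8 := h1.trans h7
  push_cast at h8 hL
  generalize Real.log _ = L at h8 hL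
  change _ ≤ ∑ p ∈ (PP 7 D).filter (fun p => ¬ I.Hyp 7 p), Real.log p
  generalize ∑ p ∈ (PP 7 D).filter (fun p => ¬ I.Hyp 7 p), Real.log p = E at h8 ⊢
  refine le_of_mul_le_mul_left ?_ (show (0 : ℝ) < 10 * D by positivity)
  have h9 := mul_le_mul_of_nonneg_right hL (sq_nonneg (D : ℝ))
  nlinarith [sq_nonneg (D : ℝ)]

theorem den7 : I.StDen 7 (1 / 337) :=
  I.Dem.den 7 (1 / 3) _ (by norm_num) (by norm_num) fin7

omit [I.Cst] in
theorem inf7 (N : ℕ) : ∃ p > N, p.Prime ∧ ¬ Hyp 7 p := by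
  let _ : I.Cst := ⟨0⟩
  refine inf_of_den (c := 1 / 337) (by norm_num) ?_ N
  filter_upwards [den7] with x h
  refine h.trans (le_of_eq ?_)
  congr 2
  refine filter_congr fun p _ => ?_
  rw [I.Hyp, Hyp, show (I.Cst.c : ℚ) = 0 from rfl, sub_zero]

end Pool.Agent.MP_3924c3_nt.BK.K7

end
end
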