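import Pool.Agent.Mg.F3792c7p.G947474

set_option linter.all false

section

/-! The case `k = 7`: finer valuations and a finer archimedean bound. Definitions, statements. -/

open Finset Filter Topology PowerSeries

noncomputable section

namespace Pool.Agent.MP_3924c3_nt.BK.K7

/-- the rows for a general series `u` -/
def rw (k D : ℕ) (u : PS) (r : Ix k D) : PS := mu k D r * sol th UU k u 1 r.1

def Dt (k D : ℕ) (u : PS) (c : Ix k D → ℕ) : ℚ :=
  (Matrix.of fun r s : Ix k D => coeff (c s) (rw k D u r)).det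

/-! ### linear algebra -/

/-- integral vectors -/
def Iv {ι : Type} (p : ℕ) (x : ι → ℚ) : Prop := ∀ r, padicNorm p (x r) ≤ 1

/-- reduction -/
def rd {ι : Type} (p : ℕ) [Fact p.Prime] (x : ι → ℚ) : ι → ZMod p := fun r => (x r : ZMod p)

/-- the span of the reductions of the integral vectors of `S` -/
def Rd {ι : Type} (p : ℕ) [Fact p.Prime] (S : Set (ι → ℚ)) : Submodule (ZMod p) (ι → ZMod p) :=
  Submodule.span (ZMod p) (rd p '' {x | x ∈ S ∧ Iv p x})

theorem Rd_mono {ι : Type} (p : ℕ) [Fact p.Prime] {S T : Set (ι → ℚ)}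
    (h : ∀ x ∈ S, Iv p x → x ∈ T) : Rd p S ≤ Rd p T :=
  Submodule.span_mono (Set.image_mono fun x hx => ⟨h x hx.1 hx.2, hx.2⟩)

def StG3 : Prop := ∀ (ι : Type) [Fintype ι] [DecidableEq ι] (p : ℕ) [Fact p.Prime]
  (M : Matrix ι ι ℚ) (S : ℕ) (d : ℕ → ℕ), (∀ r s, padicNorm p (M r s) ≤ 1) →
  (∀ t ∈ Icc 1 S, d t ≤ Module.finrank (ZMod p)
    (Rd p {x : ι → ℚ | ∀ s, padicNorm p (∑ r, x r * M r s) ≤ ((p : ℚ) ^ t)⁻¹})) →
  padicNorm p M.det ≤ ((p : ℚ) ^ ∑ t ∈ Icc 1 S, d t)⁻¹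

def StG4 : Prop := ∀ (ι : Type) [Fintype ι] [DecidableEq ι] (p : ℕ) [Fact p.Prime]
  (W : Submodule ℚ (ι → ℚ)),
  Module.finrank ℚ W ≤ Module.finrank (ZMod p) (Rd p (W : Set (ι → ℚ)))

def StG5 : Prop := ∀ (ι : Type) [Fintype ι] [DecidableEq ι] (p : ℕ) [Fact p.Prime]
  (W : Submodule ℚ (ι → ℚ)) (M : Matrix ι ι ℚ) (T : Finset (ι → ZMod p)),
  (∀ r s, padicNorm p (M r s) ≤ 1) →
  (∀ r, rd p (M r) ∈ Submodule.span (ZMod p) (T : Set (ι → ZMod p))) →
  Module.finrank ℚ W ≤ Module.finrank (ZMod p)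
    (Rd p {x : ι → ℚ | x ∈ W ∧ ∀ s, padicNorm p (∑ r, x r * M r s) ≤ (p : ℚ)⁻¹}) + T.card

def StLA : Prop := ∀ (V Y : Type) [AddCommGroup V] [Module ℚ V] [Module.Finite ℚ V]
  [AddCommGroup Y] [Module ℚ Y] (Φ : V →ₗ[ℚ] Y) (R E : Submodule ℚ Y) [Module.Finite ℚ E],
  R ≤ E → (∀ v, Φ v ∈ E) →
  Module.finrank ℚ V + Module.finrank ℚ R ≤ Module.finrank ℚ (R.comap Φ) + Module.finrank ℚ E

/-! ### valuations -/

/-- divisible by `p ^ e` below `q ^ N` -/
def Nt (p N e : ℕ) (f : PS) : Prop := ∀ n < N, padicNorm p (coeff n f) ≤ ((p : ℚ) ^ e)⁻¹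

def StNt : Prop := ∀ (p N : ℕ) [Fact p.Prime],
  (∀ f, Nt p N 0 f ↔ It p N f) ∧ (∀ f, Nt p N 1 f ↔ Zt p N f) ∧ (∀ e, Nt p N e 0) ∧
  (∀ e e' f, e' ≤ e → Nt p N e f → Nt p N e' f) ∧
  (∀ e f g, Nt p N e f → Nt p N e g → Nt p N e (f + g)) ∧
  (∀ e e' f g, Nt p N e f → Nt p N e' g → Nt p N (e + e') (f * g)) ∧
  (∀ e (c : ℚ) f, padicNorm p c ≤ 1 → Nt p N e f → Nt p N e (c • f)) ∧
  (∀ e f, It p N f → Nt p N e ((p : ℚ) ^ e • f)) ∧
  (∀ e f, Zt p N f → Nt p N e (f ^ e)) ∧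
  ∀ (ι : Type) (s : Finset ι) (e : ℕ) (f : ι → PS), (∀ i ∈ s, Nt p N e (f i)) →
    Nt p N e (∑ i ∈ s, f i)

def kp (k j : ℕ) : ℚ := ∏ t ∈ range j, ((k : ℚ) - t)

def Pa (k : ℕ) (a : Fin (k + 1) → PS) : Polynomial PS :=
  ∑ j : Fin (k + 1), Polynomial.monomial (j : ℕ) (kp k j • a j)

/-- the linear polynomial `A X - B` -/
def Ln (A B : PS) : Polynomial PS := Polynomial.C A * Polynomial.X - Polynomial.C B

def StFm : Prop := ∀ (k : ℕ) (a : Fin (k + 1) → PS) (u : PS),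
  ∑ j : Fin (k + 1), a j * can th UU (-(k : ℤ)) j u = ∑ r ∈ range (k + 1),
    (kp k r)⁻¹ • ((Polynomial.taylor UU (Pa k a)).coeff r * (th : PS → PS)^[r] u)

def StAn : Prop := ∀ (p N : ℕ) [Fact p.Prime] (A B U : PS) (P Q : Polynomial PS) (s r : ℕ),
  It p N A → Zt p N (A - 1) → It p N B → Zt p N (A * U - B) → (∀ j, It p N (P.coeff j)) →
  P = Ln A B ^ s * Q → Nt p N (s - r) ((Polynomial.taylor U P).coeff r)

def ax (k D : ℕ) (x : Ix k D → ℚ) (j : JJ k) : PS := ∑ i, x (j, i) • mu k D (j, i)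

def dW (k D p s : ℕ) : ℕ := 2 * D + (k + 1 - s) * (D - (s * (p + 1) / 12 + 1)) - k * (k + 1)

def StDm : Prop := ∀ M, Mod M → ∀ (k D p s : ℕ) (A B : PS), Odd k → Odd p → s ≤ k →
  A ∈ M ((p : ℤ) - 1) → B ∈ M ((p : ℤ) + 1) → A ≠ 0 →
  ∃ W : Submodule ℚ (Ix k D → ℚ), dW k D p s ≤ Module.finrank ℚ W ∧
    ∀ x ∈ W, ∃ Q, Pa k (fun j => ax k D x (.inr j)) = Ln A B ^ s * Q

def StW : Prop := ∀ M, Mod M → ∀ (k D p s N : ℕ) (u : PS), Odd k → p.Prime → k + 4 ≤ p →
  s ≤ k → 0 < N → (∀ r ≤ k, Nt p N r ((th : PS → PS)^[r] ((p : ℚ) ^ k • u))) →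
  ∃ W : Submodule ℚ (Ix k D → ℚ), dW k D p s ≤ Module.finrank ℚ W ∧
    ∀ x ∈ W, Iv p x → Nt p N s ((p : ℚ) ^ k • ∑ r, x r • rw k D u r)

/-- a lower bound for the number of columns below `p` -/
def lo (k D p : ℕ) : ℕ := (k + 3) * D - (NN k D - p)

def bt (k D p ρ : ℕ) : ℤ :=
  ((∑ s ∈ Icc 1 k, max (lo k D p) (dW k D p s) + (lo k D p - ρ) : ℕ) : ℤ) - k * ((k + 3) * D)

def StVal : Prop := ∀ M, Mod M → ∀ (k D p ρ : ℕ) (u : PS) (c : Ix k D → ℕ), Odd k → 3 ≤ k →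
  Adm k D c → p.Prime → k + 4 ≤ p → NN k D ≤ p ^ 2 →
  (∀ r ≤ k, Nt p (p ^ 2) r ((th : PS → PS)^[r] ((p : ℚ) ^ k • u))) →
  (∀ r, It p p (rw k D u r)) → (∀ r, It p (p ^ 2) ((p : ℚ) ^ k • rw k D u r)) →
  ((k + 3) * D ≤ ρ ∨ (rho k D p ≤ ρ ∧
    ∀ r, ∃ f ∈ M (w0 k D + p), It p p f ∧ Zt p p (rw k D u r - f))) →
  padicNorm p (Dt k D u c) ≤ (p : ℚ) ^ (-bt k D p ρ)

def StTh : Prop := ∀ (k p r : ℕ) (a : ℚ), p.Prime → 1 ≤ k → r ≤ k → padicNorm p a ≤ 1 →
  Nt p (p ^ 2) r ((th : PS → PS)^[r] ((p : ℚ) ^ k • (YY k + C a)))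

/-- the exponent used at `p` -/
def bet (H : ℕ → Prop) [DecidablePred H] (D p : ℕ) : ℤ :=
  if p ^ 2 < NN 7 D ∨ p < 7 + 4 then b0 7 D p
  else bt 7 D p (if H p then rho 7 D p else (7 + 3) * D)

def StSum : Prop := ∀ (H : ℕ → Prop) [DecidablePred H], ∀ᶠ D : ℕ in atTop,
  (1587 / 10 : ℝ) * (D : ℝ) ^ 2 - 10 * D * ∑ p ∈ (PP 7 D).filter (fun p => ¬ H p), Real.log p ≤
    ∑ p ∈ PP 7 D, (bet H D p : ℝ) * Real.log p

/-! ### archimedean size -/

def Mb (b : ℝ) (f : PS) (K : ℝ) : Prop := ∀ N, ∑ n ∈ range N, |((coeff n f : ℚ) : ℝ)| / b ^ n ≤ K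

def StMb : Prop := ∀ b : ℝ, 1 < b →
  (∀ f g K L, Mb b f K → Mb b g L → Mb b (f * g) (K * L)) ∧
  (∀ f g K L, Mb b f K → Mb b g L → Mb b (f + g) (K + L)) ∧
  (∀ (c : ℚ) f K, Mb b f K → Mb b (c • f) (|(c : ℝ)| * K)) ∧
  (∀ f K n, Mb b f K → Mb b (f ^ n) (K ^ n)) ∧
  (∀ f K n, Mb b f K → |((coeff n f : ℚ) : ℝ)| ≤ K * b ^ n) ∧
  (∀ f, MR.PG f → ∃ K, Mb b f K) ∧ (∀ f K L, K ≤ L → Mb b f K → Mb b f L) ∧
  ∀ f K, Mb b f K → 0 ≤ K

def StTl : Prop := ∀ (f : PS) (K H : ℝ) (N : ℕ), Mb 2 f K →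
  ∑ n ∈ range N, |((coeff n f : ℚ) : ℝ)| / 4 ^ n ≤ H → Mb 4 f (H + K / 2 ^ N)

def StN2 : Prop := Mb 2 E4 36001 ∧ Mb 2 E6 4720465

def StNum : Prop := Mb 4 E4 422 ∧ Mb 4 Dl (207 / 10) ∧ Mb 4 (Dl * E4 ^ 6) (2241 * 10 ^ 9) ∧
  Mb 4 (Dl ^ 2 * E4 ^ 3) (1095 * 10 ^ 4)

def StBl : Prop := ∃ K : ℝ, 1 ≤ K ∧ ∀ i j : ℕ, Mb 4 (Dl ^ i * E4 ^ (3 * j))
  (K * ((377 / 100) ^ i * 771400 ^ j * (195 / 2) ^ (j - 2 * i) * (11 / 2) ^ (i - 2 * j)))

def StMR : Prop := ∀ (k : ℕ) (u : PS), MR.PG u → ∃ K : ℝ, 1 ≤ K ∧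
  ∀ j : JJ k, Mb 4 (gw (gwt k j) * sol th UU k u 1 j) K

def StA0 : Prop := ∀ (k : ℕ) (u : PS), MR.PG u → ∃ K : ℝ, 1 ≤ K ∧ ∀ (D : ℕ) (c : Ix k D → ℕ),
  |(Dt k D u c : ℝ)| ≤ (((k + 3) * D).factorial : ℝ) * K ^ ((k + 3) * D) *
    2910000 ^ ((k + 3) * (D * (D - 1) / 2)) * 537 ^ ((k + 3) * (D * (D + 1) / 6)) * 4 ^ (∑ s, c s)

def StA : Prop := ∀ (k : ℕ) (u : PS), MR.PG u → ∀ ε : ℝ, 0 < ε → ∀ᶠ D : ℕ in atTop,
  ∀ c : Ix k D → ℕ, Adm k D c → Dt k D u c ≠ 0 → Real.log |(Dt k D u c : ℝ)| ≤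
    ((k + 3) / 6 * Real.log (4 ^ (3 * (k + 3)) * 2910000 ^ 3 * 537) + ε) * (D : ℝ) ^ 2

end Pool.Agent.MP_3924c3_nt.BK.K7

end
end

section

/-! Divisibility of series by powers of `p`. -/

open Finset Filter Topology PowerSeries

noncomputable section

namespace Pool.Agent.MP_3924c3_nt.BK.K7

namespace NtL

variable {p N : ℕ} [hp : Fact p.Prime] {e e' : ℕ} {f g : PS}

theorem pos (e : ℕ) : 0 < ((p : ℚ) ^ e)⁻¹ :=
  inv_pos.2 (pow_pos (Nat.cast_pos.2 hp.out.pos) _)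

theorem anti (h : e' ≤ e) : ((p : ℚ) ^ e)⁻¹ ≤ ((p : ℚ) ^ e')⁻¹ :=
  inv_anti₀ (pow_pos (Nat.cast_pos.2 hp.out.pos) _)
    (pow_le_pow_right₀ (Nat.one_le_cast.2 hp.out.pos) h)

theorem np (e : ℕ) : padicNorm p ((p : ℚ) ^ e) = ((p : ℚ) ^ e)⁻¹ := by
  rw [IsAbsoluteValue.abv_pow (padicNorm p), padicNorm.padicNorm_p_of_prime, inv_pow]

theorem lt_iff (x : ℚ) : padicNorm p x ≤ ((p : ℚ) ^ 1)⁻¹ ↔ padicNorm p x < 1 := by
  have h1 : (1 : ℚ) < p := Nat.one_lt_cast.2 hp.out.one_lt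
  rw [pow_one]
  refine ⟨fun h => h.trans_lt (inv_lt_one_of_one_lt₀ h1), fun h => ?_⟩
  by_cases h0 : x = 0
  · rw [h0, padicNorm.zero]
    positivity
  · rw [padicNorm.eq_zpow_of_nonzero h0] at h ⊢
    rw [← zpow_neg_one]
    exact zpow_le_zpow_right₀ h1.le (by have := (zpow_lt_one_iff_right₀ h1).1 h; omega)

omit hp in
theorem zero_iff : Nt p N 0 f ↔ It p N f := by simp only [Nt, It, pow_zero, inv_one]

theorem one_iff : Nt p N 1 f ↔ Zt p N f := by simp only [Nt, Zt, lt_iff]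

theorem zero : Nt p N e 0 := fun n _ => by
  rw [map_zero, padicNorm.zero]
  exact (pos e).le

theorem add (h : Nt p N e f) (h' : Nt p N e g) : Nt p N e (f + g) := fun n hn => by
  rw [map_add]; exact padicNorm.nonarchimedean.trans (max_le (h n hn) (h' n hn))

theorem mul (h : Nt p N e f) (h' : Nt p N e' g) : Nt p N (e + e') (f * g) := fun n hn => by
  rw [coeff_mul]
  refine padicNorm.sum_le' (fun x hx => ?_) (pos _).le
  have := mem_antidiagonal.1 hx
  rw [padicNorm.mul, pow_add, mul_inv]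
  exact mul_le_mul (h _ (by omega)) (h' _ (by omega)) (padicNorm.nonneg _) (pos _).le

theorem pow (h : Zt p N f) (e : ℕ) : Nt p N e (f ^ e) := by
  induction e with
  | zero => rw [pow_zero]; exact zero_iff.2 It.one
  | succ e ih => rw [pow_succ]; exact mul ih (one_iff.2 h)

end NtL

theorem s_Nt : StNt := by
  intro p N hp
  refine ⟨fun _ => NtL.zero_iff, fun _ => NtL.one_iff, fun _ => NtL.zero,
    fun e e' f h hf n hn => (hf n hn).trans (NtL.anti h), fun _ _ _ => NtL.add,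
    fun _ _ _ _ => NtL.mul, fun e c f hc h n hn => ?_, fun e f h n hn => ?_,
    fun e f h => NtL.pow h e, fun ι s e f h =>
      Finset.sum_induction f (Nt p N e) (fun _ _ => NtL.add) NtL.zero h⟩
  · rw [coeff_smul, smul_eq_mul, padicNorm.mul]
    exact (mul_le_of_le_one_left (padicNorm.nonneg _) hc).trans (h n hn)
  · rw [coeff_smul, smul_eq_mul, padicNorm.mul, NtL.np]
    exact mul_le_of_le_one_right (NtL.pos e).le (h n hn)

theorem s_Th : StTh := by
  intro k p r a hp hk hr ha n hn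
  have : Fact p.Prime := ⟨hp⟩
  have h1 : padicNorm p (coeff n (C a : PS)) ≤ 1 := by
    rw [coeff_C]
    split_ifs
    · exact ha
    · simp
  rw [coeff_iter_th, padicNorm.mul, PowerSeries.coeff_smul, map_add, YY, coeff_mk, smul_eq_mul]
  by_cases hd : p ∣ n
  · refine (mul_le_of_le_one_right (padicNorm.nonneg _) ?_).trans ?_
    · rw [mul_add, mul_sum]
      refine padicNorm.nonarchimedean.trans (max_le (padicNorm.sum_le' (fun d hd =>
        CY.le (Nat.pos_of_mem_divisors hd) ((Nat.divisor_le hd).trans_lt hn) hk) zero_le_one) ?_)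
      rw [padicNorm.mul]
      exact mul_le_one₀ (by exact_mod_cast padicNorm.of_nat (p := p) (p ^ k))
        (padicNorm.nonneg _) h1
    · rw [IsAbsoluteValue.abv_pow (padicNorm p), ← inv_pow]
      refine pow_le_pow_left₀ (padicNorm.nonneg _) ?_ r
      simpa only [pow_one] using (NtL.lt_iff _).2 ((padicNorm.nat_lt_one_iff n).2 hd)
  · refine (mul_le_of_le_one_left (padicNorm.nonneg _)
      (by exact_mod_cast padicNorm.of_nat (p := p) (n ^ r))).trans ?_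
    rw [padicNorm.mul, NtL.np]
    refine (mul_le_of_le_one_right (NtL.pos k).le ?_).trans (NtL.anti hr)
    exact padicNorm.nonarchimedean.trans (max_le (padicNorm.sum_le' (fun d hd' =>
      (CY.unit (fun h => hd (h.trans (Nat.dvd_of_mem_divisors hd'))) k).le) zero_le_one) h1)

end Pool.Agent.MP_3924c3_nt.BK.K7

end
end

section

/-! Valuations of the Taylor coefficients at an approximate root. -/

open Finset Filter Topology PowerSeries

noncomputable section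

namespace Pool.Agent.MP_3924c3_nt.BK.K7

namespace AnL

theorem tay (u : PS) (t : Polynomial PS) (r : ℕ) : (Polynomial.taylor u t).coeff r =
    ∑ i ∈ t.support, ((i.choose r : ℕ) : ℚ) • t.coeff i * u ^ (i - r) := by
  rw [Polynomial.taylor_coeff, Polynomial.hasseDeriv_apply, Polynomial.sum_def,
    Polynomial.eval_finsetSum]
  refine sum_congr rfl fun i _ => ?_
  rw [Polynomial.eval_monomial, Nat.cast_smul_eq_nsmul, nsmul_eq_mul]

variable {p N : ℕ} [Fact p.Prime]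

theorem one {A : PS} (h : Zt p N (A - 1)) (hN : 0 < N) : padicNorm p (constantCoeff A) = 1 := by
  have h1 : padicNorm p (constantCoeff A - 1) < padicNorm p 1 := by
    simpa using h 0 hN
  have h2 := padicNorm.add_eq_max_of_ne h1.ne
  rw [sub_add_cancel, max_eq_right h1.le] at h2
  simpa using h2

theorem inv {A : PS} (hA : It p N A) (h : padicNorm p (constantCoeff A) = 1) : It p N A⁻¹ := by
  have h1 : padicNorm p (constantCoeff A)⁻¹ = 1 := by
    rw [← one_div, padicNorm.div, h, padicNorm.one, div_one]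
  intro n
  induction n using Nat.strong_induction_on with
  | _ n ih =>
    intro hn
    rw [PowerSeries.coeff_inv]
    split_ifs with h0
    · exact h1.le
    · rw [padicNorm.mul, padicNorm.neg, h1, one_mul]
      refine padicNorm.sum_le' (fun x hx => ?_) zero_le_one
      have := mem_antidiagonal.1 hx
      split_ifs with h2
      · rw [padicNorm.mul]
        exact mul_le_one₀ (hA _ (by omega)) (padicNorm.nonneg _) (ih _ h2 (by omega))
      · simp

end AnL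

theorem s_An (hNt : StNt) : StAn := by
  intro p N _ A B U P Q s r hA hA1 hB hU hP e
  rcases Nat.eq_zero_or_pos N with rfl | hN
  · exact fun n hn => absurd hn (Nat.not_lt_zero n)
  obtain ⟨n0, -, nz, nm, -, nmul, -, -, npow, nsum⟩ := hNt p N
  have h1 := AnL.one hA1 hN
  have h2 := AnL.inv hA h1
  have h3 : A * A⁻¹ = 1 := PowerSeries.mul_inv_cancel A fun h0 => by simp [h0] at h1
  have hb : It p N (B * A⁻¹) := hB.mul h2
  have hz : Zt p N (U - B * A⁻¹) := by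
    have : U - B * A⁻¹ = A⁻¹ * (A * U - B) := by linear_combination -U * h3
    rw [this]
    exact h2.mul_zt hU
  have ht : ∀ i, It p N ((Polynomial.taylor (B * A⁻¹) P).coeff i) := fun i => by
    rw [AnL.tay]
    exact It.sum _ _ fun j _ => ((hP j).smul (padicNorm.of_nat _)).mul (hb.pow _)
  have hl : Polynomial.taylor (B * A⁻¹) (Ln A B) = Polynomial.C A * Polynomial.X := by
    rw [Ln, map_sub, Polynomial.taylor_mul, Polynomial.taylor_C, Polynomial.taylor_C,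
      Polynomial.taylor_X, mul_add, ← map_mul, mul_left_comm, h3, mul_one, add_sub_cancel_right]
  have hd : Polynomial.X ^ s ∣ Polynomial.taylor (B * A⁻¹) P := by
    rw [e, Polynomial.taylor_mul, Polynomial.taylor_pow, hl, mul_pow]
    exact (dvd_mul_left _ _).mul_right _
  have e2 : Polynomial.taylor U P =
      Polynomial.taylor (U - B * A⁻¹) (Polynomial.taylor (B * A⁻¹) P) := by
    rw [Polynomial.taylor_taylor, sub_add_cancel]
  rw [e2, AnL.tay]
  refine nsum _ _ _ _ fun i hi => ?_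
  have hs : s ≤ i := not_lt.1 fun h =>
    Polynomial.mem_support_iff.1 hi (Polynomial.X_pow_dvd_iff.1 hd i h)
  exact nm _ _ _ (by omega)
    (nmul 0 (i - r) _ _ ((n0 _).2 ((ht i).smul (padicNorm.of_nat _))) (npow _ _ hz))

end Pool.Agent.MP_3924c3_nt.BK.K7

end
end

section

open Finset Filter Topology PowerSeries

noncomputable section

namespace Pool.Agent.MP_3924c3_nt.BK.K7

namespace WL

theorem kp_norm (p k r : ℕ) [Fact p.Prime] (hk : k < p) (hr : r ≤ k) :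
    padicNorm p (kp k r) = 1 := by
  induction r with
  | zero => simp [kp]
  | succ r ih =>
    have e : ((k : ℚ) - r) = ((k - r : ℕ) : ℚ) := by
      rw [Nat.cast_sub (by omega)]
    rw [kp, prod_range_succ, ← kp, padicNorm.mul, ih (by omega), one_mul, e,
      padicNorm.nat_eq_one_iff]
    exact Nat.not_dvd_of_pos_of_lt (by omega) (by omega)

theorem kp_inv (p k r : ℕ) [Fact p.Prime] (hk : k < p) (hr : r ≤ k) :
    padicNorm p (kp k r)⁻¹ ≤ 1 := by
  rw [← one_div, padicNorm.div, kp_norm p k r hk hr, padicNorm.one, div_one]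

theorem it_Pa (p N k : ℕ) [Fact p.Prime] (hk : k < p) (a : Fin (k + 1) → PS)
    (ha : ∀ j, It p N (a j)) (n : ℕ) : It p N ((Pa k a).coeff n) := by
  rw [Pa, Polynomial.finsetSum_coeff]
  refine It.sum _ _ fun j _ => ?_
  rw [Polynomial.coeff_monomial]
  split_ifs
  · exact It.smul (kp_norm p k j hk (Nat.lt_succ_iff.mp j.2)).le (ha j)
  · exact Zt.zero.it

theorem sum_rw (k D : ℕ) (u : PS) (x : Ix k D → ℚ) :
    ∑ r, x r • rw k D u r = ∑ j, ax k D x j * sol th UU k u 1 j := by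
  rw [Fintype.sum_prod_type]
  refine sum_congr rfl fun j _ => ?_
  rw [ax, sum_mul]
  exact sum_congr rfl fun i _ => by rw [smul_mul_assoc, rw]

end WL

open WL

theorem s_W (hNt : StNt) (hFm : StFm) (hAn : StAn) (hDm : StDm) (hI : StInt) (hMu : StMu)
    (hCA : StCA) : StW := by
  intro M hM k D p s N u hk hp hkp hs hN hu
  have : Fact p.Prime := ⟨hp⟩
  have hk1 : 1 ≤ k := hk.pos
  have h5 : 5 ≤ p := by omega
  have hpo : Odd p := hp.odd_of_ne_two (by omega)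
  obtain ⟨A, hA, iA, zA⟩ := hCA M hM p N hp h5
  obtain ⟨-, -, -, nmono, nadd, nmul, nsm, npw, -, nsum⟩ := hNt p N
  have iU : It p N UU := it_UU hI h5
  have hB : Sr th UU ((p : ℤ) - 1) A ∈ M ((p : ℤ) + 1) := by
    have := hM.ser _ _ hA
    rwa [show (p : ℤ) - 1 + 2 = p + 1 by ring] at this
  have zT : Zt p N (th A) := by
    have h := zA.iter 1
    rwa [Function.iterate_one, map_sub, Derivation.map_one_eq_zero, sub_zero] at h
  have iB : It p N (Sr th UU ((p : ℤ) - 1) A) :=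
    zT.it.sub (It.smul (padicNorm.of_int _) (iU.mul iA))
  have zB : Zt p N (A * UU - Sr th UU ((p : ℤ) - 1) A) := by
    have e : A * UU - Sr th UU ((p : ℤ) - 1) A = (p : ℚ) • (UU * A) - th A := by
      rw [Sr, mul_comm A]
      push_cast
      rw [sub_smul, one_smul]
      abel
    rw [e]
    exact (It.smul_zt padicNorm.padicNorm_p_lt_one_of_prime (iU.mul iA)).sub zT
  have A0 : A ≠ 0 := by
    rintro rfl
    have := zA 0 hN
    simp at this
  obtain ⟨W, hW, hQ⟩ := hDm M hM k D p s A _ hk hpo hs hA hB A0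
  refine ⟨W, hW, fun x hx hi => ?_⟩
  obtain ⟨Q, hQ⟩ := hQ x hx
  have ia : ∀ j, It p N (ax k D x j) := fun j =>
    It.sum _ _ fun i _ => It.smul (hi (j, i)) ((hMu M hM k D hk (j, i)).2.it p N)
  rw [sum_rw, Fintype.sum_sum_type, smul_add]
  refine nadd _ _ _ (nmono _ _ _ hs (npw _ _ (It.sum _ _ fun j _ => ?_))) ?_
  · exact (ia _).mul (It.can iU It.one _ _)
  · have e : (p : ℚ) ^ k • ∑ j : Fin (k + 1), ax k D x (.inr j) * sol th UU k u 1 (.inr j) =
        ∑ j : Fin (k + 1), ax k D x (.inr j) * can th UU (-(k : ℤ)) j ((p : ℚ) ^ k • u) := by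
      rw [smul_sum]
      refine sum_congr rfl fun j _ => ?_
      rw [can_smul, mul_smul_comm]
      rfl
    rw [e, hFm]
    refine nsum _ _ _ _ fun r hr => ?_
    have hr' : r ≤ k := Nat.lt_succ_iff.mp (mem_range.mp hr)
    refine nsm _ _ _ (kp_inv p k r (by omega) hr') (nmono (s - r + r) _ _ (by omega) ?_)
    exact nmul _ _ _ _ (hAn p N A _ UU _ Q s r iA zA iB zB
      (it_Pa p N k (by omega) _ fun j => ia _) hQ) (hu r hr')

end Pool.Agent.MP_3924c3_nt.BK.K7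

end
end

section

/-! Majorants with a general base. -/

open Finset Filter Topology PowerSeries

noncomputable section

namespace Pool.Agent.MP_3924c3_nt.BK.K7

namespace MbL

variable {b : ℝ}

theorem nn {f : PS} {K : ℝ} (h : Mb b f K) : 0 ≤ K := by simpa using h 0

theorem mul (hb : 0 < b) {f g : PS} {K L : ℝ} (hf : Mb b f K) (hg : Mb b g L) :
    Mb b (f * g) (K * L) := by
  intro N
  have h := Mj.tri (fun n => |((coeff n f : ℚ) : ℝ)| / b ^ n)
    (fun n => |((coeff n g : ℚ) : ℝ)| / b ^ n) (fun n => by positivity) (fun n => by positivity) N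
  refine le_trans (sum_le_sum fun n _ => ?_) (h.trans
    (mul_le_mul (hf N) (hg N) (sum_nonneg fun n _ => by positivity) (nn hf)))
  rw [coeff_mul, Rat.cast_sum, div_le_iff₀ (by positivity), sum_mul]
  refine (abs_sum_le_sum_abs _ _).trans (sum_le_sum fun x hx => le_of_eq ?_)
  rw [← mem_antidiagonal.1 hx, Rat.cast_mul, abs_mul, pow_add]
  field_simp

theorem one : Mb b 1 1 := by
  intro N
  have e : ∀ n : ℕ, |((coeff n (1 : PS) : ℚ) : ℝ)| / b ^ n = if n = 0 then 1 else 0 := by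
    intro n
    rw [coeff_one]
    split_ifs with h
    · simp [h]
    · simp
  simp only [e, sum_ite_eq']
  split_ifs <;> norm_num

theorem smb (hb : 1 < b) (a : ℕ) : Summable fun n : ℕ => ((n : ℝ) + 1) ^ a / b ^ n := by
  have h0 : 0 < b := by linarith
  have h := summable_pow_mul_geometric_of_norm_lt_one (R := ℝ) a (r := 1 / b)
    (by rw [Real.norm_of_nonneg (by positivity), div_lt_one h0]; exact hb)
  have h1 := ((summable_nat_add_iff 1).2 h).mul_left b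
  refine h1.congr fun n => ?_
  push_cast
  rw [pow_succ (1 / b : ℝ), one_div_pow]
  field_simp

/-- some majorant exists -/
def HM (f : PS) : Prop := ∃ K, Mb 4 f K

variable (hMb : StMb) {f g : PS}
include hMb

theorem pg (h : MR.PG f) : HM f := (hMb 4 (by norm_num)).2.2.2.2.2.1 f h

theorem HM.mul (h : HM f) (h' : HM g) : HM (f * g) :=
  let ⟨_, h⟩ := h; let ⟨_, h'⟩ := h'; ⟨_, (hMb 4 (by norm_num)).1 _ _ _ _ h h'⟩

theorem HM.add (h : HM f) (h' : HM g) : HM (f + g) :=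
  let ⟨_, h⟩ := h; let ⟨_, h'⟩ := h'; ⟨_, (hMb 4 (by norm_num)).2.1 _ _ _ _ h h'⟩

theorem HM.smul (c : ℚ) (h : HM f) : HM (c • f) :=
  let ⟨_, h⟩ := h; ⟨_, (hMb 4 (by norm_num)).2.2.1 c _ _ h⟩

theorem HM.pow (h : HM f) (n : ℕ) : HM (f ^ n) :=
  let ⟨_, h⟩ := h; ⟨_, (hMb 4 (by norm_num)).2.2.2.1 _ _ n h⟩

theorem hm_can {u : PS} (hu : MR.PG u) (w : ℤ) (j : ℕ) : HM (can th UU w j u) := by
  have hU : HM (-UU) := by
    rw [← neg_one_smul ℚ UU]
    exact HM.smul hMb _ (HM.smul hMb _ (pg hMb (MR.pg_Gs 2)))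
  refine Finset.sum_induction _ HM (fun _ _ => HM.add hMb) ⟨0, fun N => by simp⟩ fun r _ => ?_
  exact HM.smul hMb _ (HM.mul hMb (HM.pow hMb hU _) (pg hMb (hu.iter r)))

end MbL

theorem s_Mb : StMb := by
  intro b hb
  have h0 : 0 < b := by linarith
  refine ⟨fun f g K L => MbL.mul h0, fun f g K L hf hg N => ?_, fun c f K hf N => ?_,
    fun f K n hf => ?_, fun f K n hf => ?_, fun f h => ?_,
    fun f K L h hf N => (hf N).trans h, fun f K => MbL.nn⟩
  · refine le_trans ?_ (add_le_add (hf N) (hg N))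
    rw [← sum_add_distrib]
    refine sum_le_sum fun n _ => ?_
    rw [map_add, Rat.cast_add, ← add_div]
    exact div_le_div_of_nonneg_right (abs_add_le _ _) (by positivity)
  · refine le_trans (le_of_eq ?_) (mul_le_mul_of_nonneg_left (hf N) (abs_nonneg _))
    rw [mul_sum]
    refine sum_congr rfl fun n _ => ?_
    rw [map_smul, smul_eq_mul, Rat.cast_mul, abs_mul, mul_div_assoc]
  · induction n with
    | zero => simpa using MbL.one
    | succ n ih =>
      rw [pow_succ, pow_succ]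
      exact MbL.mul h0 ih hf
  · rw [← div_le_iff₀ (by positivity)]
    exact (single_le_sum (f := fun n => |((coeff n f : ℚ) : ℝ)| / b ^ n)
      (fun n _ => by positivity) (self_mem_range_succ n)).trans (hf (n + 1))
  · obtain ⟨C, a, h1⟩ := h
    have h : ∀ n, |((coeff n f : ℚ) : ℝ)| ≤ (C : ℝ) * ((n : ℝ) + 1) ^ a := fun n => by
      exact_mod_cast h1 n
    have hC : 0 ≤ (C : ℝ) := by simpa using (abs_nonneg _).trans (h 0)
    refine ⟨∑' n : ℕ, C * (((n : ℝ) + 1) ^ a / b ^ n), fun N => ?_⟩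
    refine le_trans (sum_le_sum fun n _ => ?_)
      (((MbL.smb hb a).mul_left (C : ℝ)).sum_le_tsum (range N) fun n _ => by positivity)
    rw [← mul_div_assoc]
    exact div_le_div_of_nonneg_right (h n) (by positivity)

theorem s_Tl : StTl := by
  intro f K H N hf hH M
  have h1 : ∑ n ∈ range M, |((coeff n f : ℚ) : ℝ)| / 4 ^ n ≤
      ∑ n ∈ range N, |((coeff n f : ℚ) : ℝ)| / 4 ^ n +
        ∑ n ∈ range M \ range N, |((coeff n f : ℚ) : ℝ)| / 4 ^ n := by
    rw [← sum_union disjoint_sdiff]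
    exact sum_le_sum_of_subset_of_nonneg (fun n hn => by
      rw [union_sdiff_self_eq_union]; exact mem_union_right _ hn) fun n _ _ => by positivity
  refine h1.trans (add_le_add hH ?_)
  calc ∑ n ∈ range M \ range N, |((coeff n f : ℚ) : ℝ)| / 4 ^ n
      ≤ ∑ n ∈ range M \ range N, |((coeff n f : ℚ) : ℝ)| / 2 ^ n / 2 ^ N := by
        refine sum_le_sum fun n hn => ?_
        have h2 : N ≤ n := not_lt.1 fun h => (mem_sdiff.1 hn).2 (mem_range.2 h)
        rw [div_div]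
        refine div_le_div_of_nonneg_left (abs_nonneg _) (by positivity) ?_
        rw [show (4 : ℝ) = 2 * 2 by norm_num, mul_pow]
        exact mul_le_mul_of_nonneg_left (pow_le_pow_right₀ one_le_two h2) (by positivity)
    _ ≤ ∑ n ∈ range M, |((coeff n f : ℚ) : ℝ)| / 2 ^ n / 2 ^ N :=
        sum_le_sum_of_subset_of_nonneg sdiff_subset fun n _ _ => by positivity
    _ ≤ K / 2 ^ N := by
        rw [← sum_div]
        exact div_le_div_of_nonneg_right (hf M) (by positivity)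

open MbL in
theorem s_MR (hMb : StMb) : StMR := by
  intro k u hu
  have h : ∀ j : JJ k, HM (gw (gwt k j) * sol th UU k u 1 j) := fun j => by
    refine HM.mul hMb (HM.mul hMb (HM.pow hMb (HM.smul hMb _ (pg hMb (MR.pg_Gs 4))) _)
      (HM.pow hMb (HM.smul hMb _ (pg hMb (MR.pg_Gs 6))) _)) ?_
    cases j with
    | inl j => exact hm_can hMb MR.pg_one _ _
    | inr j => exact hm_can hMb hu _ _
  choose K hK using h
  have h0 : ∀ j, 0 ≤ K j := fun j => nn (hK j)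
  have h1 : 0 ≤ ∑ j, K j := sum_nonneg fun j _ => h0 j
  refine ⟨1 + ∑ j, K j, by linarith, fun j N => (hK j N).trans ?_⟩
  have := single_le_sum (fun j _ => h0 j) (mem_univ j)
  linarith

end Pool.Agent.MP_3924c3_nt.BK.K7

end
end

section

/-! Four majorants at `q = 1/4`, from the first 110 coefficients. -/

open Finset Filter Topology PowerSeries

noncomputable section

namespace Pool.Agent.MP_3924c3_nt.BK.K7

namespace NumL

def ofL : List ℤ → PS
  | [] => 0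
  | a :: l => C (a : ℚ) + X * ofL l

def addL : List ℤ → List ℤ → List ℤ
  | [], m => m
  | a :: l, [] => a :: l
  | a :: l, b :: m => (a + b) :: addL l m

def mulL (m : List ℤ) : List ℤ → List ℤ
  | [] => []
  | a :: l => addL (m.map (a * ·)) (0 :: mulL m l)

/-- `Σ |lₙ| 4 ^ (length - n)` -/
def nr : List ℤ → ℕ
  | [] => 0
  | a :: l => a.natAbs * 4 ^ (l.length + 1) + nr l

theorem ofL_add : ∀ l m : List ℤ, ofL (addL l m) = ofL l + ofL m
  | [], m => by simp [addL, ofL]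
  | a :: l, [] => by simp [addL, ofL]
  | a :: l, b :: m => by
    simp only [addL, ofL, ofL_add l m, Int.cast_add, map_add]
    ring

theorem ofL_map (a : ℤ) : ∀ m : List ℤ, ofL (m.map (a * ·)) = C (a : ℚ) * ofL m
  | [] => by simp [ofL]
  | b :: m => by
    simp only [List.map_cons, ofL, ofL_map a m, Int.cast_mul, map_mul]
    ring

theorem ofL_mul (m : List ℤ) : ∀ l : List ℤ, ofL (mulL m l) = ofL l * ofL m
  | [] => by simp [mulL, ofL]
  | a :: l => by
    simp only [mulL, ofL_add, ofL_map, ofL, ofL_mul m l, Int.cast_zero, map_zero]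
    ring

theorem coeff_ofL : ∀ (l : List ℤ) (n : ℕ), coeff n (ofL l) = (l.getD n 0 : ℤ)
  | [], n => by simp [ofL]
  | a :: l, 0 => by simp [ofL]
  | a :: l, n + 1 => by
    rw [ofL, map_add, coeff_succ_X_mul, coeff_ofL l n, coeff_C, if_neg (by omega), zero_add,
      List.getD_cons_succ]

theorem sum_nr : ∀ (l : List ℤ) (N : ℕ),
    ∑ n ∈ range N, |((l.getD n 0 : ℤ) : ℝ)| / 4 ^ n ≤ (nr l : ℝ) / 4 ^ l.length / 4 * 4
  | [], N => by simp [nr]
  | a :: l, 0 => by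
    rw [sum_range_zero]
    positivity
  | a :: l, N + 1 => by
    have h := sum_nr l N
    rw [sum_range_succ']
    simp only [List.getD_cons_succ, List.getD_cons_zero, pow_succ, ← div_div, ← sum_div, nr,
      List.length_cons]
    push_cast
    rw [Nat.cast_natAbs, Int.cast_abs]
    have h4 : (0 : ℝ) < 4 ^ l.length := by positivity
    have e : (|(a : ℝ)| * (4 ^ l.length * 4) + nr l) / 4 ^ l.length / 4 / 4 * 4 =
        (nr l : ℝ) / 4 ^ l.length / 4 + |(a : ℝ)| := by field_simp; ring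
    rw [e, pow_zero, div_one]
    linarith

/-- `l` lists the first 110 coefficients of `f` -/
def Rp (f : PS) (l : List ℤ) : Prop := ∀ n < 110, coeff n f = (l.getD n 0 : ℤ)

def mt (l m : List ℤ) : List ℤ := (mulL m l).take 110

theorem Rp.mul {f g : PS} {l m : List ℤ} (h : Rp f l) (h' : Rp g m) : Rp (f * g) (mt l m) := by
  intro n hn
  have e : (mt l m).getD n 0 = (mulL m l).getD n 0 := by
    simp only [mt, List.getD_eq_getElem?_getD, List.getElem?_take, if_pos hn]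
  rw [e, ← coeff_ofL, ofL_mul, coeff_mul, coeff_mul]
  refine sum_congr rfl fun x hx => ?_
  have := mem_antidiagonal.1 hx
  rw [coeff_ofL, coeff_ofL, h _ (by omega), h' _ (by omega)]

def eL (a : ℕ) (c : ℤ) : List ℤ :=
  (List.range 110).map fun n => if n = 0 then 1 else c * ((∑ d ∈ n.divisors, d ^ a : ℕ) : ℤ)

theorem rp_eis (w : ℕ) (c : ℤ) (h : (c : ℚ) * (-bernoulli w / (2 * w)) = 1) :
    Rp ((c : ℚ) • Gs w) (eL (w - 1) c) := by
  intro n hn
  rw [coeff_smul, Gs, coeff_mk, eL, List.getD_eq_getElem _ _ (by simpa using hn), List.getElem_map,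
    List.getElem_range, smul_eq_mul]
  split_ifs
  · rw [h, Int.cast_one]
  · push_cast
    rfl

def l4 : List ℤ := eL 3 240

def l6 : List ℤ := eL 5 (-504)

theorem rp4 : Rp E4 l4 := by
  have := rp_eis 4 240 (by
    rw [bernoulli_eq_bernoulli'_of_ne_one (by decide), bernoulli'_four]; norm_num)
  exact_mod_cast this

theorem ber6 : bernoulli 6 = 1 / 42 := by decide +kernel

theorem rp6 : Rp E6 l6 := by
  have := rp_eis 6 (-504) (by rw [ber6]; norm_num)
  exact_mod_cast this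

def lA : List ℤ := mt (mt l4 l4) l4

def lD : List ℤ := addL lA ((mt l6 l6).map (-1 * ·))

theorem rpA : Rp (E4 ^ 3) lA := by
  rw [pow_three']
  exact (rp4.mul rp4).mul rp4

theorem rpD : Rp ((1728 : ℚ) • Dl) lD := by
  intro n hn
  rw [lD, ← coeff_ofL, ofL_add, ofL_map, map_add, coeff_C_mul, coeff_ofL, coeff_ofL, ← rpA n hn,
    ← rp6.mul rp6 n hn, Dl, smul_smul, ← sq]
  norm_num
  ring

theorem bound (hTl : StTl) {f : PS} {l : List ℤ} {K : ℝ} (h : Rp f l) (h2 : Mb 2 f K) {a : ℕ}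
    (ha : nr l ≤ a * 4 ^ l.length) : Mb 4 f (a + K / 2 ^ 110) := by
  refine hTl f K a 110 h2 ?_
  rw [sum_congr rfl fun n hn => by rw [h n (mem_range.1 hn), Rat.cast_intCast]]
  refine (sum_nr l 110).trans ?_
  rw [div_mul_cancel₀ _ four_ne_zero, div_le_iff₀ (by positivity)]
  exact_mod_cast ha

theorem c1 : nr (l4.map (100 * ·)) ≤ 42199 * 4 ^ (l4.map (100 * ·)).length := by decide +kernel

theorem c2 : nr lD ≤ 35700 * 4 ^ lD.length := by decide +kernel

theorem c3 : nr (mt lD (mt lA lA)) ≤ 3870 * 10 ^ 12 * 4 ^ (mt lD (mt lA lA)).length := by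
  decide +kernel

theorem c4 : nr (mt (mt lD lD) lA) ≤ 3263 * 10 ^ 10 * 4 ^ (mt (mt lD lD) lA).length := by
  decide +kernel

end NumL

open NumL in
theorem s_Num (hMb : StMb) (hTl : StTl) (hN2 : StN2) : StNum := by
  obtain ⟨m2, a2, s2, p2, -, -, o2, -⟩ := hMb 2 (by norm_num)
  obtain ⟨-, -, s4, -, -, -, o4, -⟩ := hMb 4 (by norm_num)
  obtain ⟨h4, h6⟩ := hN2
  have hA : Mb 2 (E4 ^ 3) (5 * 10 ^ 13) := o2 _ _ _ (by norm_num) (p2 _ _ 3 h4)
  have hD : Mb 2 ((1728 : ℚ) • Dl) (8 * 10 ^ 13) := by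
    have e : (1728 : ℚ) • Dl = E4 ^ 3 + (-1 : ℚ) • E6 ^ 2 := by
      rw [Dl, smul_smul, neg_one_smul, ← sub_eq_add_neg]
      norm_num
    rw [e]
    exact o2 _ _ _ (by norm_num) (a2 _ _ _ _ hA (s2 (-1) _ _ (p2 _ _ 2 h6)))
  have r1 : Rp ((100 : ℚ) • E4) (l4.map (100 * ·)) := fun n hn => by
    rw [← coeff_ofL, ofL_map, coeff_C_mul, coeff_ofL, ← rp4 n hn, coeff_smul, smul_eq_mul]
    norm_num
  refine ⟨?_, ?_, ?_, ?_⟩
  · have := s4 (1 / 100) _ _ (bound hTl r1 (s2 100 _ _ h4) c1)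
    rw [smul_smul, show (1 / 100 : ℚ) * 100 = 1 by norm_num, one_smul] at this
    exact o4 _ _ _ (by norm_num) this
  · have := s4 (1 / 1728) _ _ (bound hTl rpD hD c2)
    rw [smul_smul, show (1 / 1728 : ℚ) * 1728 = 1 by norm_num, one_smul] at this
    exact o4 _ _ _ (by norm_num) this
  · have := s4 (1 / 1728) _ _
      (bound hTl (rpD.mul (rpA.mul rpA)) (m2 _ _ _ _ hD (m2 _ _ _ _ hA hA)) c3)
    rw [smul_mul_assoc, smul_smul, show (1 / 1728 : ℚ) * 1728 = 1 by norm_num, one_smul,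
      ← pow_add] at this
    exact o4 _ _ _ (by norm_num) this
  · have := s4 (1 / 1728 ^ 2) _ _
      (bound hTl ((rpD.mul rpD).mul rpA) (m2 _ _ _ _ (m2 _ _ _ _ hD hD) hA) c4)
    rw [← sq, smul_pow, smul_mul_assoc, smul_smul,
      show (1 / 1728 ^ 2 : ℚ) * 1728 ^ 2 = 1 by norm_num, one_smul] at this
    exact o4 _ _ _ (by norm_num) this

end Pool.Agent.MP_3924c3_nt.BK.K7

end
end

section

open Finset Filter Topology PowerSeries

noncomputable section

namespace Pool.Agent.MP_3924c3_nt.BK.K7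

namespace BlL

/-- the bound without the constant -/
def Bd (i j : ℕ) : ℝ :=
  (377 / 100) ^ i * 771400 ^ j * (195 / 2) ^ (j - 2 * i) * (11 / 2) ^ (i - 2 * j)

theorem Bd_pos (i j : ℕ) : 0 < Bd i j := by unfold Bd; positivity

theorem s12 (i j : ℕ) (h : i ≤ 2 * j) : 2241 * 10 ^ 9 * Bd i j ≤ Bd (i + 1) (j + 2) := by
  have e : Bd (i + 1) (j + 2) = 377 / 100 * 771400 ^ 2 * Bd i j := by
    unfold Bd
    rw [show j + 2 - 2 * (i + 1) = j - 2 * i by omega, show i + 1 - 2 * (j + 2) = 0 by omega,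
      show i - 2 * j = 0 by omega]
    ring
  rw [e]
  exact mul_le_mul_of_nonneg_right (by norm_num) (Bd_pos i j).le

theorem s21 (i j : ℕ) (h : j ≤ 2 * i) : 1095 * 10 ^ 4 * Bd i j ≤ Bd (i + 2) (j + 1) := by
  have e : Bd (i + 2) (j + 1) = (377 / 100) ^ 2 * 771400 * Bd i j := by
    unfold Bd
    rw [show i + 2 - 2 * (j + 1) = i - 2 * j by omega, show j + 1 - 2 * (i + 2) = 0 by omega,
      show j - 2 * i = 0 by omega]
    ring
  rw [e]
  exact mul_le_mul_of_nonneg_right (by norm_num) (Bd_pos i j).le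

theorem s01 (i j : ℕ) (h : 2 * i ≤ j) : 422 ^ 3 * Bd i j ≤ Bd i (j + 1) := by
  have e : Bd i (j + 1) = 771400 * (195 / 2) * Bd i j := by
    unfold Bd
    rw [show j + 1 - 2 * i = j - 2 * i + 1 by omega, show i - 2 * (j + 1) = 0 by omega,
      show i - 2 * j = 0 by omega]
    ring
  rw [e]
  exact mul_le_mul_of_nonneg_right (by norm_num) (Bd_pos i j).le

theorem s10 (i j : ℕ) (h : 2 * j ≤ i) : 207 / 10 * Bd i j ≤ Bd (i + 1) j := by
  have e : Bd (i + 1) j = 377 / 100 * (11 / 2) * Bd i j := by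
    unfold Bd
    rw [show i + 1 - 2 * j = i - 2 * j + 1 by omega, show j - 2 * (i + 1) = 0 by omega,
      show j - 2 * i = 0 by omega]
    ring
  rw [e]
  exact mul_le_mul_of_nonneg_right (by norm_num) (Bd_pos i j).le

end BlL

open BlL

theorem s_Bl (hMb : StMb) (hNum : StNum) : StBl := by
  obtain ⟨hmul, -, -, hpow, -, -, hle, -⟩ := hMb 4 (by norm_num)
  obtain ⟨n1, n2, n3, n4⟩ := hNum
  refine ⟨(11 / 2) ^ 2 * (195 / 2) ^ 2, by norm_num, ?_⟩
  set K : ℝ := (11 / 2) ^ 2 * (195 / 2) ^ 2 with hK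
  have hK0 : 0 ≤ K := by positivity
  have step : ∀ (g f : PS) (c B B' : ℝ), Mb 4 g c → Mb 4 f (K * B) → c * B ≤ B' →
      Mb 4 (g * f) (K * B') := by
    intro g f c B B' hg hf h
    refine hle _ _ _ ?_ (hmul _ _ _ _ hg hf)
    rw [mul_left_comm]
    exact mul_le_mul_of_nonneg_left h hK0
  have key : ∀ n i j : ℕ, i + j = n → Mb 4 (Dl ^ i * E4 ^ (3 * j)) (K * Bd i j) := by
    intro n
    induction n using Nat.strong_induction_on with
    | _ n ih =>
      intro i j hn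
      by_cases c1 : 2 * i + 1 ≤ j
      · obtain ⟨j, rfl⟩ : ∃ j', j = j' + 1 := ⟨j - 1, by omega⟩
        rw [show Dl ^ i * E4 ^ (3 * (j + 1)) = E4 ^ 3 * (Dl ^ i * E4 ^ (3 * j)) by ring]
        exact step _ _ _ _ _ (hpow _ _ 3 n1) (ih _ (by omega) i j rfl) (s01 i j (by omega))
      by_cases c2 : 2 * j + 1 ≤ i
      · obtain ⟨i, rfl⟩ : ∃ i', i = i' + 1 := ⟨i - 1, by omega⟩
        rw [show Dl ^ (i + 1) * E4 ^ (3 * j) = Dl * (Dl ^ i * E4 ^ (3 * j)) by ring]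
        exact step _ _ _ _ _ n2 (ih _ (by omega) i j rfl) (s10 i j (by omega))
      by_cases c3 : 1 ≤ i ∧ 2 ≤ j ∧ i + 3 ≤ 2 * j
      · obtain ⟨i, rfl⟩ : ∃ i', i = i' + 1 := ⟨i - 1, by omega⟩
        obtain ⟨j, rfl⟩ : ∃ j', j = j' + 2 := ⟨j - 2, by omega⟩
        rw [show Dl ^ (i + 1) * E4 ^ (3 * (j + 2)) = Dl * E4 ^ 6 * (Dl ^ i * E4 ^ (3 * j)) by ring]
        exact step _ _ _ _ _ n3 (ih _ (by omega) i j rfl) (s12 i j (by omega))
      by_cases c4 : 2 ≤ i ∧ 1 ≤ j ∧ j + 3 ≤ 2 * i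
      · obtain ⟨i, rfl⟩ : ∃ i', i = i' + 2 := ⟨i - 2, by omega⟩
        obtain ⟨j, rfl⟩ : ∃ j', j = j' + 1 := ⟨j - 1, by omega⟩
        rw [show Dl ^ (i + 2) * E4 ^ (3 * (j + 1)) = Dl ^ 2 * E4 ^ 3 * (Dl ^ i * E4 ^ (3 * j)) by
          ring]
        exact step _ _ _ _ _ n4 (ih _ (by omega) i j rfl) (s21 i j (by omega))
      refine hle _ _ _ ?_ (hmul _ _ _ _ (hpow _ _ i n2) (hpow _ _ (3 * j) n1))
      have hij : (i = 0 ∧ j = 0) ∨ (i = 1 ∧ j = 1) ∨ (i = 2 ∧ j = 2) := by omega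
      rcases hij with ⟨rfl, rfl⟩ | ⟨rfl, rfl⟩ | ⟨rfl, rfl⟩ <;> rw [hK] <;> norm_num [Bd]
  exact fun i j => key _ i j rfl

end Pool.Agent.MP_3924c3_nt.BK.K7

end
end
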