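import Mathlib

set_option linter.all false

section

/-! Definitions and first facts for the finite analogue of the theorem of Ball and Rivoal. -/

set_option autoImplicit false

open Finset PowerSeries

noncomputable section

namespace Pool.Agent.MP_3924c3_nt.BR

/-- a primitive cube root of unity -/
def om : ℂ := ⟨-1 / 2, Real.sqrt 3 / 2⟩

theorem om_sq : om ^ 2 + om + 1 = 0 := by
  have h : Real.sqrt 3 * Real.sqrt 3 = 3 := Real.mul_self_sqrt (by norm_num)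
  apply Complex.ext
  · simp [om, pow_two]
    linarith
  · simp [om, pow_two]
    ring

theorem om_cube : om ^ 3 = 1 := by linear_combination (om - 1) * om_sq

theorem om_ne : om ≠ 0 := fun h => by simpa [h] using om_cube

theorem norm_om : ‖om‖ = 1 := by
  have h := congrArg norm om_cube
  rw [norm_pow, norm_one] at h
  exact (pow_eq_one_iff_of_nonneg (norm_nonneg _) (by norm_num)).mp h

theorem om_ind {a b : ℝ} (h : (a : ℂ) + b * om = 0) : a = 0 ∧ b = 0 := by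
  have h1 := congrArg Complex.im h
  have h2 := congrArg Complex.re h
  simp [om] at h1 h2
  subst h1
  simpa using h2

/-- the Eisenstein integers -/
def Gz : Subring ℂ where
  carrier := {z | ∃ a b : ℤ, z = a + b * om}
  mul_mem' := by
    rintro _ _ ⟨a, b, rfl⟩ ⟨c, d, rfl⟩
    exact ⟨a * c - b * d, a * d + b * c - b * d, by
      push_cast; linear_combination (b * d : ℂ) * om_sq⟩
  one_mem' := ⟨1, 0, by simp⟩
  add_mem' := by
    rintro _ _ ⟨a, b, rfl⟩ ⟨c, d, rfl⟩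
    exact ⟨a + c, b + d, by push_cast; ring⟩
  zero_mem' := ⟨0, 0, by simp⟩
  neg_mem' := by
    rintro _ ⟨a, b, rfl⟩
    exact ⟨-a, -b, by push_cast; ring⟩

/-- their localisation at `p` -/
def Kp (p : ℕ) : Subring ℂ where
  carrier := {z | ∃ n : ℕ, n.Coprime p ∧ (n : ℂ) * z ∈ Gz}
  mul_mem' := by
    rintro x y ⟨a, ha, hx⟩ ⟨b, hb, hy⟩
    refine ⟨a * b, Nat.Coprime.mul_left ha hb, ?_⟩
    have := Gz.mul_mem hx hy
    rwa [mul_mul_mul_comm, ← Nat.cast_mul] at this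
  one_mem' := ⟨1, by simp, by simp⟩
  add_mem' := by
    rintro x y ⟨a, ha, hx⟩ ⟨b, hb, hy⟩
    refine ⟨a * b, Nat.Coprime.mul_left ha hb, ?_⟩
    have := Gz.add_mem (Gz.mul_mem (natCast_mem Gz b) hx) (Gz.mul_mem (natCast_mem Gz a) hy)
    convert this using 1
    push_cast
    ring
  zero_mem' := ⟨1, by simp, by simp⟩
  neg_mem' := by
    rintro x ⟨a, ha, hx⟩
    exact ⟨a, ha, by simpa using Gz.neg_mem hx⟩

theorem om_Gz : om ∈ Gz := ⟨0, 1, by simp⟩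

theorem Kp_of_Gz (p : ℕ) {z : ℂ} (h : z ∈ Gz) : z ∈ Kp p := ⟨1, by simp, by simpa using h⟩

theorem om_Kp (p : ℕ) : om ∈ Kp p := Kp_of_Gz p om_Gz

theorem rat_Kp {p : ℕ} {q : ℚ} (h : q.den.Coprime p) : (q : ℂ) ∈ Kp p := by
  refine ⟨q.den, h, ?_⟩
  have : (q.den : ℂ) * q = (q.num : ℂ) := by exact_mod_cast Rat.den_mul_eq_num q
  rw [this]
  exact intCast_mem Gz _

theorem inv_Kp {p : ℕ} (hp : p.Prime) {c : ℤ} (h : ¬ (p : ℤ) ∣ c) : (c : ℂ)⁻¹ ∈ Kp p := by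
  have hc : c ≠ 0 := fun h0 => h (h0 ▸ dvd_zero _)
  refine ⟨c.natAbs, ((Nat.Prime.coprime_iff_not_dvd hp).mpr fun h1 =>
    h (Int.natCast_dvd.mpr h1)).symm, ?_⟩
  have h2 : (c : ℂ) ≠ 0 := by exact_mod_cast hc
  have h3 : ((c.natAbs : ℕ) : ℂ) = (c.sign : ℂ) * c := by
    rw [← Int.cast_natCast, ← Int.cast_mul, Int.sign_mul_self_eq_natAbs]
  rw [h3, mul_assoc, mul_inv_cancel₀ h2, mul_one]
  exact intCast_mem Gz _

/-- series whose first `a` coefficients are integral at `p` -/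
def Op (p a : ℕ) : Subring ℂ⟦X⟧ where
  carrier := {f | ∀ k < a, coeff k f ∈ Kp p}
  mul_mem' := by
    intro f g hf hg k hk
    rw [coeff_mul]
    refine sum_mem fun x hx => ?_
    have := mem_antidiagonal.mp hx
    exact mul_mem (hf _ (by omega)) (hg _ (by omega))
  one_mem' := by
    intro k _
    rw [coeff_one]
    split_ifs
    exacts [one_mem _, zero_mem _]
  add_mem' := fun hf hg k hk => by
    rw [map_add]
    exact add_mem (hf k hk) (hg k hk)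
  zero_mem' := fun k _ => by simp
  neg_mem' := fun hf k hk => by
    rw [map_neg]
    exact neg_mem (hf k hk)

theorem C_Op {p : ℕ} (a : ℕ) {z : ℂ} (h : z ∈ Kp p) : C z ∈ Op p a := fun k _ => by
  rw [coeff_C]
  split_ifs
  exacts [h, zero_mem _]

theorem X_Op (p a : ℕ) : (X : ℂ⟦X⟧) ∈ Op p a := fun k _ => by
  rw [coeff_X]
  split_ifs
  exacts [one_mem _, zero_mem _]

/-- congruence modulo `p` -/
def Cg (p a : ℕ) (f g : ℂ⟦X⟧) : Prop := ∃ h ∈ Op p a, f - g = C (p : ℂ) * h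

/-- the inverse of `c + θ t` -/
def Jv (c θ : ℂ) : ℂ⟦X⟧ := PowerSeries.mk fun k => (-θ) ^ k * c⁻¹ ^ (k + 1)

theorem Jv_zero (θ : ℂ) : Jv 0 θ = 0 := by
  ext k
  simp [Jv]

theorem Jv_mul {c : ℂ} (hc : c ≠ 0) (θ : ℂ) : (C c + C θ * X) * Jv c θ = 1 := by
  ext k
  rw [add_mul, map_add, mul_assoc, coeff_C_mul, coeff_C_mul]
  rcases k with _ | k
  · simp [Jv, hc]
  · rw [coeff_succ_X_mul, coeff_one, if_neg (Nat.succ_ne_zero k)]
    simp only [Jv, coeff_mk]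
    linear_combination (-θ) ^ (k + 1) * c⁻¹ ^ (k + 1) * mul_inv_cancel₀ hc

theorem Jv_Op {p : ℕ} (hp : p.Prime) (a : ℕ) {c : ℤ} {θ : ℂ} (hθ : θ ∈ Kp p)
    (hc : ¬ (p : ℤ) ∣ c) : Jv c θ ∈ Op p a := fun k _ => by
  rw [Jv, coeff_mk]
  exact mul_mem (pow_mem (neg_mem hθ) _) (pow_mem (inv_Kp hp hc) _)

/-- the coordinate on a line through a lattice point -/
def ln (j : ℕ) (θ : ℂ) : ℂ⟦X⟧ := C (j : ℂ) + C θ * X

theorem ln_Op {p : ℕ} (a j : ℕ) {θ : ℂ} (hθ : θ ∈ Kp p) : ln j θ ∈ Op p a :=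
  add_mem (C_Op a (natCast_mem _ j)) (mul_mem (C_Op a hθ) (X_Op p a))

/-- a harmonic sum -/
def hs (j : ℕ) (θ : ℂ) : ℂ⟦X⟧ := ∑ v ∈ Icc 1 j, Jv v θ

/-- the germ in one variable -/
def yN (N j : ℕ) (θ : ℂ) : ℂ⟦X⟧ := C (N : ℂ) * hs j θ - C (N : ℂ) * hs (N * j) (N * θ)

/-- the germ in two variables -/
def YY (N : ℕ) (j : Fin 2 → ℕ) : ℂ⟦X⟧ := yN N (j 0) 1 - C om * yN N (j 1) om

/-- the global function modulo `p` -/
def KK (N p j : ℕ) (θ : ℂ) : ℂ⟦X⟧ :=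
  ∑ u ∈ range p, C ((N * u / p : ℕ) : ℂ) * Jv ((u : ℂ) - j) (-θ)

/-- a series with integer coefficients -/
def iz (e : ℕ → ℤ) : ℂ⟦X⟧ := PowerSeries.mk fun k => (e k : ℂ)

theorem iz_Op (p a : ℕ) (e : ℕ → ℤ) : iz e ∈ Op p a := fun k _ => by
  rw [iz, coeff_mk]
  exact intCast_mem _ _

/-- the family of germs -/
def Ph (r : ℕ) {s : ℕ} (η : Fin s → ℂ⟦X⟧) (l : Fin r ⊕ Fin s) (j : Fin 2 → ℕ) : ℂ⟦X⟧ :=
  Sum.elim (fun l : Fin r => YY (l + 2) j) η l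

/-- the points -/
abbrev Pt (n : ℕ) : Type := Fin 2 → Fin (n + 1)

/-- the monomials -/
abbrev Mi (m : ℕ) : Type := {d : Fin m × Fin m // (d.1 : ℕ) + d.2 < m}

/-- monomials times germs -/
def Mo {L : Type} (m : ℕ) {n : ℕ} (Φ : L → Pt n → ℂ⟦X⟧) (ρ : L × Mi m) (j : Pt n) : ℂ⟦X⟧ :=
  ln (j 0) 1 ^ (ρ.2.1.1 : ℕ) * ln (j 1) om ^ (ρ.2.1.2 : ℕ) * Φ ρ.1 j

/-- the rows -/
def Rw (r : ℕ) {s : ℕ} (η : Fin s → ℂ⟦X⟧) (m n : ℕ) :
    (Fin r ⊕ Fin s) × Mi m → Pt n → ℂ⟦X⟧ :=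
  Mo m fun l j => Ph r η l fun i => j i

/-- the determinant on a choice of columns -/
def Dt {ρ π : Type} [Fintype ρ] [DecidableEq ρ] {a : ℕ} (F : ρ → π → ℂ⟦X⟧)
    (col : ρ → π × Fin a) : ℂ :=
  (Matrix.of fun t t' => coeff (col t').2 (F t (col t').1)).det

/-- polynomials in two variables -/
abbrev AA : Type := MvPolynomial (Fin 2) ℂ

/-- translations -/
def tr (w : Fin 2 → ℂ) : AA →ₐ[ℂ] AA :=
  MvPolynomial.aeval fun k => MvPolynomial.X k + MvPolynomial.C (w k)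

/-- the two unit translations -/
def sg (i : Fin 2) : AA →ₐ[ℂ] AA := tr (Pi.single i 1)

/-- the derivative along the lines -/
def dd : Derivation ℂ AA AA := MvPolynomial.pderiv 0 + om • MvPolynomial.pderiv 1

/-- restriction to the line through `j` -/
def ev (j : Fin 2 → ℕ) : AA →ₐ[ℂ] ℂ⟦X⟧ := MvPolynomial.aeval ![ln (j 0) 1, ln (j 1) om]

/-- a linear factor -/
def lf (q : ℕ × ℕ) : Polynomial ℂ := Polynomial.C (q.1 : ℂ) * Polynomial.X + Polynomial.C (q.2 : ℂ)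

/-- the common denominator of the increments -/
def bb (r : ℕ) : Polynomial ℂ := ∏ q ∈ Icc 1 (r + 1) ×ˢ Icc 1 (r + 1), lf q

/-- a cofactor -/
def co (r : ℕ) (q : ℕ × ℕ) : Polynomial ℂ :=
  ∏ q' ∈ (Icc 1 (r + 1) ×ˢ Icc 1 (r + 1)).erase q, lf q'

/-- the numerator of an increment -/
def ee (r N : ℕ) : Polynomial ℂ :=
  Polynomial.C (N : ℂ) * co r (1, 1) - ∑ v ∈ Icc 1 N, Polynomial.C (N : ℂ) * co r (N, v)

/-- a polynomial in the variable `i` -/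
def pv (i : Fin 2) (f : Polynomial ℂ) : AA := Polynomial.aeval (MvPolynomial.X i) f

/-- the shift of a relation -/
def Sh (r : ℕ) {s : ℕ} (γ : Fin s → ℂ) (i : Fin 2) (v : Fin r ⊕ Fin s → AA) :
    Fin r ⊕ Fin s → AA :=
  Sum.elim (fun l => pv i (bb r) * sg i (v (Sum.inl l))) fun h =>
    pv i (bb r) * sg i (v (Sum.inr h)) + MvPolynomial.C (![1, -om] i * γ h) *
      ∑ l : Fin r, sg i (v (Sum.inl l)) * pv i (ee r (l + 2))

/-- a relation at the point `j` -/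
def Rel (r : ℕ) {s : ℕ} (η : Fin s → ℂ⟦X⟧) (a : ℕ) (j : Fin 2 → ℕ) (v : Fin r ⊕ Fin s → AA) :
    Prop := (X : ℂ⟦X⟧) ^ a ∣ ∑ l, ev j (v l) * Ph r η l j

/-- the primes up to `y` -/
def PP (y : ℕ) : Finset ℕ := (range (y + 1)).filter Nat.Prime

/-- the first theorem of Mertens with constant `C` -/
def Mer (c : ℝ) : Prop :=
  0 ≤ c ∧ ∀ y : ℕ, 1 ≤ y → |∑ p ∈ PP y, Real.log p / p - Real.log y| ≤ c

/-- the raw series -/
def ph (r δ : ℕ) (cc : ℕ → Fin δ → ℚ) (o : Option (Fin r × Fin δ × Fin 2)) (k : ℕ) : ℚ :=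
  o.elim (if k = 0 then 1 else 0) fun t => if (k + 1) % 3 = t.2.2 + 1 then
    ((((t.1 : ℕ) : ℚ) + 2) ^ (k + 1) - (((t.1 : ℕ) : ℚ) + 2)) * cc (k + 1) t.2.1 / (k + 1) else 0

/-- independence along the primes of `Q` -/
def Ind (Q : Set ℕ) {δ : ℕ} (k : Fin δ → ℕ) : Prop := ∀ c : Fin δ → ℚ, c ≠ 0 →
  {p | p ∈ Q ∧ p.Prime ∧ ¬ (p : ℤ) ∣ (∑ i, c i * bernoulli (p - k i)).num}.Infinite

/-- the total cost -/
def cost (c : ℝ) (r U m n a P X : ℕ) (H : ℝ) : ℝ :=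
  U * m ^ 3 / 3 * (Real.log ((n + 1) / P) + c) + 3 * U * m ^ 2 * P +
    U * m ^ 2 * Real.log (U * m ^ 2 * H) + U * m ^ 2 * a * (4 * P + Real.sqrt X * Real.log X) +
    2 * a * (n + 1) ^ 2 * (r + 1) * X * (Real.log (X / P) + 2 * c)

/-- its leading coefficient -/
def lead (c : ℝ) (r U a b : ℕ) : ℝ :=
  U / 3 * (Real.log (11 * U * a / b) + c) + 3 * U / a + 4 * U +
    2420 * U ^ 3 * (r + 1) ^ 2 * (a / b ^ 3) * (Real.log (10 * (r + 1) * U * a / b) + 2 * c) + 1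

end Pool.Agent.MP_3924c3_nt.BR

end
end

section

/-! Statements of the steps. -/

set_option autoImplicit false

open Finset Filter PowerSeries

noncomputable section

namespace Pool.Agent.MP_3924c3_nt.BR

/-- a polynomial that divides two independent translates is constant -/
def GRID_st : Prop := ∀ (f : AA) (u v : ℕ), f ≠ 0 → 0 < u → 0 < v →
  f ∣ tr (Pi.single 0 (u : ℂ)) f → f ∣ tr (Pi.single 1 (v : ℂ)) f → ∃ c, f = MvPolynomial.C c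

/-- a quotient fixed by both translations is constant -/
def INV_st : Prop := ∀ f g : AA, f ≠ 0 → (∀ i, sg i f * g = f * sg i g) →
  ∃ c, g = MvPolynomial.C c * f

/-- a prime that divides many derivatives -/
def PW_st : Prop := ∀ (P Δ : AA) (g : ℕ), Prime P → ¬ P ∣ dd P → (∀ k ≤ g, P ∣ dd^[k] Δ) →
  P ^ (g + 1) ∣ Δ

/-- elimination -/
def BEZ_st : Prop := ∀ (f g : AA) (D : ℕ), f ≠ 0 → IsRelPrime f g → f.totalDegree ≤ D →
  g.totalDegree ≤ D → ∃ ρ : Polynomial ℂ, ρ ≠ 0 ∧ ρ.natDegree ≤ 2 * D ^ 2 ∧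
    Polynomial.aeval (MvPolynomial.X 1 + MvPolynomial.C om * MvPolynomial.X 0 : AA) ρ ∈
      Ideal.span {f, g}

/-- a common factor of all translates and derivatives -/
def FAC_st : Prop := ∀ (Δ P : AA) (D n g : ℕ), Δ ≠ 0 → Δ.totalDegree ≤ D → Irreducible P →
  (∀ w : Fin 2 → ℕ, (∀ i, w i ≤ n) → ∀ k ≤ g, P ∣ dd^[k] (tr (fun i => w i) Δ)) →
  (n + 1) ^ 2 ≤ D ∨ (n + 1) * (g + 1) ≤ D

/-- the scalar zero estimate -/
def SZ_st : Prop := ∀ (Δ : AA) (D n g : ℕ), Δ ≠ 0 → Δ.totalDegree ≤ D →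
  (∀ j : Fin 2 → ℕ, (∀ i, j i ≤ 2 * n) → (X : ℂ⟦X⟧) ^ (2 * g) ∣ ev j Δ) →
  (n + 1) ^ 2 * g ≤ 2 * D ^ 2 ∨ (n + 1) ^ 2 ≤ D ∨ (n + 1) * (g + 1) ≤ D

/-- the increments are independent modulo differences, one variable -/
def RES1_st : Prop := ∀ (r : ℕ) (c : Fin r → ℂ) (f g : Polynomial ℂ), f ≠ 0 →
  bb r * (f.comp (Polynomial.X + 1) * g - f * g.comp (Polynomial.X + 1)) =
    f * f.comp (Polynomial.X + 1) * ∑ l, Polynomial.C (c l) * ee r (l + 2) → c = 0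

/-- two variables -/
def RES_st : Prop := ∀ (r : ℕ) (c : Fin r → ℂ) (f g : AA), f ≠ 0 →
  pv 0 (bb r) * (sg 0 f * g - f * sg 0 g) =
    f * sg 0 f * ∑ l, MvPolynomial.C (c l) * pv 0 (ee r (l + 2)) → c = 0

/-- a stable module contains a constant vector -/
def Z1_st : Prop := ∀ (r s : ℕ) (γ : Fin s → ℂ) (V : Submodule AA (Fin r ⊕ Fin s → AA)), V ≠ ⊥ →
  (∀ i, ∀ v ∈ V, Sh r γ i v ∈ V) → γ ≠ 0 → ∃ (f : AA) (c : Fin s → ℂ), f ≠ 0 ∧ c ≠ 0 ∧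
    f • (Sum.elim 0 fun h => MvPolynomial.C (c h) : Fin r ⊕ Fin s → AA) ∈ V

/-- a chain of modules becomes stationary up to torsion -/
def CH_st : Prop := ∀ (ι : Type) [Fintype ι] (N : ℕ → Submodule AA (ι → AA)), Monotone N →
  ∃ k ≤ Fintype.card ι, ∀ v ∈ N (k + 1), ∃ f : AA, f ≠ 0 ∧ f • v ∈ N k

/-- the rule of Cramer -/
def CR_st : Prop := ∀ (ι : Type) [Fintype ι] (G : Set (ι → AA)) (d : ℕ) (v : ι → AA) (f : AA),
  (∀ w ∈ G, ∀ l, (w l).totalDegree ≤ d) → f ≠ 0 → f • v ∈ Submodule.span AA G →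
  ∃ Δ : AA, Δ ≠ 0 ∧ Δ.totalDegree ≤ Fintype.card ι * d ∧ Δ • v ∈ Submodule.span AA G

/-- the increment of the germ -/
def EPS_st : Prop := ∀ (r N j : ℕ) (θ : ℂ), 1 ≤ N → N ≤ r + 1 →
  Polynomial.aeval (ln j θ) (bb r) * (yN N (j + 1) θ - yN N j θ) =
    Polynomial.aeval (ln j θ) (ee r N)

/-- the shift of a relation is a relation -/
def SHA_st : Prop := ∀ (r s a : ℕ) (η : Fin s → ℂ⟦X⟧) (γ : Fin s → ℂ) (i : Fin 2) (j : Fin 2 → ℕ)
  (v : Fin r ⊕ Fin s → AA), (X : ℂ⟦X⟧) ^ a ∣ 1 - ∑ h, C (γ h) * η h →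
  Rel r η a (j + Pi.single i 1) v → Rel r η a j (Sh r γ i v)

/-- degrees and semilinearity -/
def SHB_st : Prop := ∀ (r s : ℕ) (γ : Fin s → ℂ) (i : Fin 2) (v : Fin r ⊕ Fin s → AA),
  (∀ d, (∀ l, (v l).totalDegree ≤ d) → ∀ l, (Sh r γ i v l).totalDegree ≤ d + (r + 1) ^ 2) ∧
  (∀ w, Sh r γ i (v + w) = Sh r γ i v + Sh r γ i w) ∧
  (∀ f : AA, Sh r γ i (f • v) = sg i f • Sh r γ i v) ∧ ∀ f : AA, f ≠ 0 → sg i f ≠ 0

/-- the data of the zero estimate -/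
def Zd (r : ℕ) {s : ℕ} (η : Fin s → ℂ⟦X⟧) (a g m n n₂ D U : ℕ) : Prop :=
  (∃ γ : Fin s → ℂ, (X : ℂ⟦X⟧) ^ a ∣ 1 - ∑ h, C (γ h) * η h) ∧
  (∀ c : Fin s → ℂ, (∀ k < a - 2 * g, coeff k (∑ h, C (c h) * η h) = 0) → c = 0) ∧
  0 < a ∧ 2 * g ≤ a ∧ r + s ≤ U ∧ 2 * n₂ + U ≤ n ∧ U * (m + U * (r + 1) ^ 2) ≤ D ∧
  2 * D ^ 2 < (n₂ + 1) ^ 2 * g ∧ D < (n₂ + 1) ^ 2 ∧ D < (n₂ + 1) * (g + 1)

/-- the zero estimate -/
def ZE_st : Prop := ∀ (r s : ℕ) (η : Fin s → ℂ⟦X⟧) (a g m n n₂ D U : ℕ)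
  (v : Fin r ⊕ Fin s → AA), Zd r η a g m n n₂ D U → (∀ l, (v l).totalDegree ≤ m) →
  (∀ j : Fin 2 → ℕ, (∀ i, j i ≤ n) → Rel r η a j v) → v = 0

/-- a maximal minor -/
def MIN_st : Prop := ∀ (ρ κ : Type) [Fintype ρ] [DecidableEq ρ] [Fintype κ] (M : ρ → κ → ℂ),
  (∀ v : ρ → ℂ, (∀ c, ∑ t, v t * M t c = 0) → v = 0) →
  ∃ col : ρ → κ, (Matrix.of fun t t' => M t (col t')).det ≠ 0

/-- a non-zero determinant -/
def IND_st : Prop := ∀ (r s : ℕ) (η : Fin s → ℂ⟦X⟧) (a g m n n₂ D U : ℕ),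
  Zd r η a g m n n₂ D U → ∃ col : (Fin r ⊕ Fin s) × Mi m → Pt n × Fin a, Dt (Rw r η m n) col ≠ 0

/-- divisibility of a determinant -/
def CB_st : Prop := ∀ (K : Subring ℂ) (ρ ι : Type) [Fintype ρ] [DecidableEq ρ] [Fintype ι]
  (A : ρ → ι → ℂ) (B : ι → ρ → ℂ) (e : ι → ℕ) (ϖ : ℂ) (H : ℕ) (cnt : ℕ → ℕ),
  (∀ t u, A t u ∈ K) → (∀ u t, B u t ∈ K) → ϖ ∈ K →
  (∀ σ, 1 ≤ σ → σ ≤ H → (univ.filter fun u => e u < σ).card ≤ cnt σ) →
  ∃ w ∈ K, (Matrix.of fun t t' => ∑ u, A t u * (ϖ ^ e u * B u t')).det =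
    ϖ ^ (∑ σ ∈ Icc 1 H, (Fintype.card ρ - cnt σ)) * w

/-- the product formula -/
def PF_st : Prop := ∀ (z : ℂ) (S : Finset ℕ) (α β : ℕ → ℕ), z ≠ 0 → (∀ p ∈ S, p.Prime) →
  (∀ p ∈ S, ∃ w ∈ Kp p, (p : ℂ) ^ β p * z = (p : ℂ) ^ α p * w) →
  (∀ p, p.Prime → p ∉ S → z ∈ Kp p) →
  ∑ p ∈ S, α p * Real.log p ≤ Real.log ‖z‖ + ∑ p ∈ S, β p * Real.log p

/-- small primes, abstract form -/
def LA_st : Prop := ∀ (L : Type) [Fintype L] [DecidableEq L] (p a e m n H : ℕ)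
  (Φ : L → Pt n → ℂ⟦X⟧) (col : L × Mi m → Pt n × Fin a), 0 < p →
  (∀ l j, C ((p : ℂ) ^ e) * Φ l j ∈ Op p a) →
  ∃ w ∈ Kp p, (p : ℂ) ^ (Fintype.card (L × Mi m) * (e + a)) * Dt (Mo m Φ) col =
    (p : ℂ) ^ (∑ σ ∈ Icc 1 H,
      (Fintype.card (L × Mi m) - Fintype.card L * p ^ 2 * (σ * (σ + 1) / 2))) * w

/-- the denominators of the germs -/
def RA_st : Prop := ∀ (p a r s n : ℕ) (η : Fin s → ℂ⟦X⟧) (l : Fin r ⊕ Fin s) (j : Fin 2 → ℕ),
  p.Prime → (∀ h, η h ∈ Op p a) → (∀ i, j i ≤ n) →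
  C ((p : ℂ) ^ (a * Nat.log p ((r + 1) * n))) * Ph r η l j ∈ Op p a

/-- middle primes, abstract form -/
def LB_st : Prop := ∀ (ρ π β : Type) [Fintype ρ] [DecidableEq ρ] [Fintype π] [Fintype β]
  (p a : ℕ) (F : ρ → π → ℂ⟦X⟧) (gc : ρ → π → β → ℂ) (Ψ : π → β → ℂ⟦X⟧) (col : ρ → π × Fin a),
  (∀ t j b, gc t j b ∈ Kp p) → (∀ j b, C ((p : ℂ) ^ a) * Ψ j b ∈ Op p a) →
  (∀ t j, F t j - ∑ b, C (gc t j b) * Ψ j b ∈ Op p a) → 0 < p →
  (p : ℂ) ^ (a * (Fintype.card π * Fintype.card β)) * Dt F col ∈ Kp p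

/-- middle primes -/
def RB_st : Prop := ∀ (p a r s m n : ℕ) (η : Fin s → ℂ⟦X⟧)
  (col : (Fin r ⊕ Fin s) × Mi m → Pt n × Fin a), p.Prime → r + 1 < p → (r + 1) * n < p ^ 2 →
  (∀ h, η h ∈ Op p a) →
  (p : ℂ) ^ (a * ((n + 1) ^ 2 * (2 * (r + 1) * ((r + 1) * n / p)))) * Dt (Rw r η m n) col ∈ Kp p

/-- large primes, abstract form -/
def LR_st : Prop := ∀ (ρ π ι : Type) [Fintype ρ] [DecidableEq ρ] [Fintype ι]
  (p a : ℕ) (F : ρ → π → ℂ⟦X⟧) (A : ρ → ι → ℂ) (Ψ : ι → π → ℂ⟦X⟧) (col : ρ → π × Fin a),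
  (∀ t u, A t u ∈ Kp p) → (∀ u j, Ψ u j ∈ Op p a) →
  (∀ t j, Cg p a (F t j) (∑ u, C (A t u) * Ψ u j)) →
  ∃ w ∈ Kp p, Dt F col = (p : ℂ) ^ (Fintype.card ρ - Fintype.card ι) * w

/-- the shift modulo `p` -/
def SH_st : Prop := ∀ (p a N j : ℕ) (θ : ℂ), p.Prime → 1 ≤ N → N < p → N * j < p → θ ∈ Kp p →
  Cg p a (KK N p j θ) (KK N p 0 θ + yN N j θ)

/-- the congruence of Voronoi -/
def VOR_st : Prop := ∀ p N k : ℕ, p.Prime → 1 ≤ N → N < p → 2 ≤ k → k + 2 ≤ p →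
  ∃ w ∈ Kp p, ∑ u ∈ range p, ((N * u / p : ℕ) : ℂ) * (u : ℂ)⁻¹ ^ k -
    ((N : ℂ) ^ k - N) * (bernoulli (p - k) : ℚ) / k = p * w

/-- the hypothesis at the prime `p` -/
def Hy (p a r : ℕ) {s : ℕ} (η : Fin s → ℂ⟦X⟧) : Prop := ∀ l : Fin r, ∃ ξ : Fin s → ℂ,
  (∀ h, ξ h ∈ Kp p) ∧ Cg p a (KK (l + 2) p 0 1 - C om * KK (l + 2) p 0 om) (∑ h, C (ξ h) * η h)

/-- relations between Bernoulli numbers modulo `p` -/
def Br (p K : ℕ) {δ : ℕ} (kk : Fin δ → ℕ) (cc : ℕ → Fin δ → ℚ) : Prop :=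
  ∀ k, 2 ≤ k → k ≤ K → ¬ 3 ∣ k → (∀ h, (cc k h).den.Coprime p) ∧
    (p : ℤ) ∣ (bernoulli (p - k) - ∑ h, cc k h * bernoulli (p - kk h)).num

/-- they give the hypothesis -/
def HY_st : Prop := ∀ (p r δ s a d : ℕ) (kk : Fin δ → ℕ) (cc : ℕ → Fin δ → ℚ)
  (e : Fin s → ℕ → ℤ) (μ : Option (Fin r × Fin δ × Fin 2) → Fin s → ℤ), p.Prime → a + 2 ≤ p →
  r + 1 < p → (∀ h, 2 ≤ kk h) → Br p a kk cc → d.Coprime p →
  (∀ o, ∀ k < a, (d : ℚ) * ph r δ cc o k = ∑ h, (μ o h : ℚ) * e h k) →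
  Hy p a r fun h => iz (e h)

/-- large primes -/
def RC_st : Prop := ∀ (p a r s m n : ℕ) (η : Fin s → ℂ⟦X⟧)
  (col : (Fin r ⊕ Fin s) × Mi m → Pt n × Fin a), p.Prime → r + 1 < p → (r + 1) * n < p →
  (∀ h, η h ∈ Op p a) → Hy p a r η →
  ∃ w ∈ Kp p, Dt (Rw r η m n) col = (p : ℂ) ^ ((r + s) * Fintype.card (Mi m) -
    ((s + 1) * Fintype.card (Mi m) + 2 * p * m)) * w

/-- counting the monomials -/
def CNT_st : Prop := ∀ m : ℕ, 2 * Fintype.card (Mi m) = m * (m + 1) ∧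
  3 * ∑ d : Mi m, ((d.1.1 : ℕ) + d.1.2) ≤ m ^ 3

/-- the size of the determinant -/
def RE_st : Prop := ∀ (a r s m n : ℕ) (η : Fin s → ℂ⟦X⟧) (Hη : ℝ)
  (col : (Fin r ⊕ Fin s) × Mi m → Pt n × Fin a), 0 ≤ Hη →
  (∀ h, ∀ k < a, ‖coeff k (η h)‖ ≤ Hη) → ∃ S : ℕ, 3 * S ≤ (r + s) * m ^ 3 ∧
    ‖Dt (Rw r η m n) col‖ ≤ (((r + s) * Fintype.card (Mi m) : ℕ) *
      (4 * (r + 1 : ℝ) ^ (a + 2) * (n + 1) + Hη)) ^ ((r + s) * Fintype.card (Mi m)) * (n + 1 : ℝ) ^ S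

/-- a basis on two scales -/
def PIG_st : Prop := ∀ (ι : Type) [Fintype ι] (φ : ι → ℕ → ℚ) (G : ℕ),
  ∃ (i s d : ℕ) (e : Fin s → ℕ → ℤ) (μ : ι → Fin s → ℤ), 1 ≤ i ∧ i ≤ Fintype.card ι + 1 ∧
    s ≤ Fintype.card ι ∧ 0 < d ∧
    (∀ c : Fin s → ℂ, (∀ k < i * G, ∑ h, c h * e h k = 0) → c = 0) ∧
    ∀ o, ∀ k < (i + 1) * G, (d : ℚ) * φ o k = ∑ h, (μ o h : ℚ) * e h k

/-- a maximal independent family -/
def MAXI_st : Prop := ∀ (Q : Set ℕ) (K δ : ℕ),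
  (¬ ∃ k : Fin δ → ℕ, (∀ i, Odd (k i) ∧ ¬ 3 ∣ k i ∧ 5 ≤ k i ∧ k i ≤ K) ∧ Ind Q k) →
  ∃ (kk : Fin δ → ℕ) (cc : ℕ → Fin δ → ℚ) (B : ℕ), (∀ h, 2 ≤ kk h) ∧
    ∀ p ∈ Q, p.Prime → B < p → Br p K kk cc

/-- sums over primes -/
def PS_st : Prop := (∃ c, Mer c) ∧ (∀ y, ∑ p ∈ PP y, Real.log p ≤ 2 * y) ∧
  ∀ y Y : ℕ, 1 ≤ Y →
    ∑ p ∈ PP y, (Nat.log p Y : ℝ) * Real.log p ≤ 2 * y + Real.sqrt Y * Real.log Y

/-- the gain at a small prime -/
def ALF_st : Prop := ∀ R M m p : ℕ, 2 * M = m * (m + 1) → 1 ≤ p → p ≤ m →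
  (R : ℝ) * m ^ 3 / (3 * p) - 3 / 2 * R * m ^ 2 ≤
    (∑ σ ∈ Icc 1 (m / p), (R * M - R * p ^ 2 * (σ * (σ + 1) / 2)) : ℕ)

/-- the main inequality -/
def INEQ_st : Prop := ∀ (z : ℂ) (c H : ℝ) (r R U M m n a P Y S : ℕ) (Q : Finset ℕ), Mer c → z ≠ 0 →
  2 * M = m * (m + 1) → R ≤ U → 1 ≤ P → P ≤ m → P ≤ n + 1 → P ≤ Y → 1 ≤ H →
  (∀ p ∈ PP P, ∃ w ∈ Kp p, (p : ℂ) ^ (R * M * (a * Nat.log p Y + a)) * z =
    (p : ℂ) ^ (∑ σ ∈ Icc 1 (m / p), (R * M - R * p ^ 2 * (σ * (σ + 1) / 2))) * w) →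
  (∀ p, p.Prime → P < p → (p : ℂ) ^ (a * ((n + 1) ^ 2 * (2 * (r + 1) * (Y / p)))) * z ∈ Kp p) →
  (∀ p ∈ Q, p.Prime ∧ Y < p ∧ ∃ k : ℕ, r * m ^ 2 ≤ 4 * k ∧ ∃ w ∈ Kp p, z = (p : ℂ) ^ k * w) →
  3 * S ≤ R * m ^ 3 → ‖z‖ ≤ ((R * M : ℕ) * H) ^ (R * M) * (n + 1 : ℝ) ^ S →
  (r : ℝ) * m ^ 2 / 4 * ∑ p ∈ Q, Real.log p ≤ cost c r U m n a P Y H

/-- the leading term of the cost -/
def NUM2_st : Prop := ∀ (c Hη : ℝ) (r U a b : ℕ), 0 ≤ c → 0 ≤ Hη → 1 ≤ U → 1 ≤ b → b ≤ a →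
  ∀ᶠ z : ℕ in atTop, cost c r U (a * b * z) (10 * U * a * z) a (b * z) ((r + 1) * (10 * U * a * z))
    (4 * (r + 1 : ℝ) ^ (a + 2) * ((10 * U * a * z : ℕ) + 1) + Hη) ≤
    lead c r U a b * ((a * b * z : ℕ) : ℝ) ^ 3

/-- the choice of the parameters -/
def NUM1_st : Prop := ∀ c κ : ℝ, 0 ≤ c → 0 < κ → ∃ A : ℕ, 4 ≤ A ∧ 10240 ≤ κ * A ∧
  ∀ δ r U b a : ℕ, r = A * (δ + 1) ^ 2 → U = r + 2 * r * δ + 1 → b = A * U ^ 5 → b ^ 2 ≤ a →
    a ≤ 2 * (U + 2) * b ^ 2 → lead c r U a b < κ * r ^ 2 / 512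

/-- many primes have a large product -/
def TH_st : Prop := ∀ κ : ℝ, 0 < κ → ∀ᶠ x : ℕ in atTop, ∀ (Q : Finset ℕ) (Y : ℕ),
  (∀ p ∈ Q, p.Prime ∧ p ≤ x) → κ * x / Real.log x ≤ Q.card → 16 * (Y : ℝ) ≤ κ * x →
  κ * x / 4 ≤ ∑ p ∈ Q.filter (Y < ·), Real.log p

/-- the theorem -/
def MAIN_st : Prop := ∀ Q : Set ℕ, (∃ κ : ℝ, 0 < κ ∧ ∃ᶠ x : ℕ in atTop,
    κ * x / Real.log x ≤ {p | p ≤ x ∧ p.Prime ∧ p ∈ Q}.ncard) →
  ∃ c : ℕ, ∀ δ : ℕ, ∃ k : Fin δ → ℕ,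
    (∀ i, Odd (k i) ∧ ¬ 3 ∣ k i ∧ 5 ≤ k i ∧ k i ≤ c * (δ + 1) ^ 33) ∧ Ind Q k

/-- non-zero values in all large weights -/
def ALL_st : Prop := ∃ w₀ : ℕ, ∀ w, w₀ ≤ w → ∃ k : Composition w, Set.Infinite {p : ℕ | p.Prime ∧
  (∑ m : Fin k.length → Fin p,
    if (∀ i j : Fin k.length, i < j → m j < m i) ∧ (∀ i, 0 < (m i : ℕ))
    then ∏ i : Fin k.length, (((m i : ℕ) : ZMod p)⁻¹) ^ k.blocksFun i else 0) ≠ 0}

end Pool.Agent.MP_3924c3_nt.BR

end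
end

section

/-! Valuations and size of the determinant. -/

set_option autoImplicit false

open Finset Filter PowerSeries

noncomputable section

namespace Pool.Agent.MP_3924c3_nt.BR

section

theorem det_mem_CB (K : Subring ℂ) {ρ : Type} [Fintype ρ] [DecidableEq ρ] (M : Matrix ρ ρ ℂ)
    (h : ∀ i j, M i j ∈ K) : M.det ∈ K := by
  rw [Matrix.det_apply']
  exact K.sum_mem fun σ _ => K.mul_mem (intCast_mem K _) (K.prod_mem fun i _ => h _ _)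

theorem count_CB {ρ ι : Type} [Fintype ρ] [Fintype ι] (e : ι → ℕ) (H : ℕ) (cnt : ℕ → ℕ)
    (h : ∀ σ, 1 ≤ σ → σ ≤ H → (univ.filter fun u => e u < σ).card ≤ cnt σ) {f : ρ → ι}
    (hf : Function.Injective f) :
    ∑ σ ∈ Icc 1 H, (Fintype.card ρ - cnt σ) ≤ ∑ t, e (f t) := by
  calc ∑ σ ∈ Icc 1 H, (Fintype.card ρ - cnt σ)
      ≤ ∑ σ ∈ Icc 1 H, ∑ t : ρ, if σ ≤ e (f t) then 1 else 0 := by
        refine sum_le_sum fun σ hσ => ?_
        have a1 := h σ (mem_Icc.1 hσ).1 (mem_Icc.1 hσ).2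
        have a2 : (univ.filter fun t => ¬ σ ≤ e (f t)).card ≤ (univ.filter fun u => e u < σ).card :=
          card_le_card_of_injOn f (fun t ht => by simpa using ht) hf.injOn
        have a3 := card_filter_add_card_filter_not (s := (univ : Finset ρ)) fun t => σ ≤ e (f t)
        rw [card_univ] at a3
        rw [← card_filter]
        omega
    _ = ∑ t : ρ, ∑ σ ∈ Icc 1 H, if σ ≤ e (f t) then 1 else 0 := sum_comm
    _ ≤ _ := by
        refine sum_le_sum fun t _ => ?_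
        rw [← card_filter]
        refine (card_le_card (t := Icc 1 (e (f t))) fun σ hσ => ?_).trans (by simp)
        simp only [mem_filter, mem_Icc] at hσ ⊢
        exact ⟨hσ.1.1, hσ.2⟩

theorem CB_pf : CB_st := by
  intro K ρ ι _ _ _ A B e ϖ H cnt hA hB hϖ h
  classical
  have a1 : (Matrix.of fun t t' => ∑ u, A t u * (ϖ ^ e u * B u t')).det =
      ∑ f : ρ → ι, (∏ t, A t (f t)) * (Matrix.of fun t t' => ϖ ^ e (f t) * B (f t) t').det := by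
    have b1 := (Matrix.detRowAlternating (n := ρ) (R := ℂ)).toMultilinearMap.map_sum
      (g := fun t u => A t u • fun t' => ϖ ^ e u * B u t')
    simp only [MultilinearMap.map_smul_univ, smul_eq_mul] at b1
    refine Eq.trans ?_ b1
    refine congrArg Matrix.det ?_
    ext t t'
    simp [Finset.sum_apply]
  rw [a1]
  refine sum_induction _ (fun z => ∃ w ∈ K, z = ϖ ^ (∑ σ ∈ Icc 1 H, (Fintype.card ρ - cnt σ)) * w)
    ?_ ⟨0, K.zero_mem, by simp⟩ fun f _ => ?_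
  · rintro _ _ ⟨a, ha, rfl⟩ ⟨b, hb, rfl⟩
    exact ⟨a + b, K.add_mem ha hb, by ring⟩
  · by_cases hf : Function.Injective f
    · obtain ⟨d, hd⟩ := Nat.exists_eq_add_of_le (count_CB e H cnt h hf)
      refine ⟨(∏ t, A t (f t)) * (ϖ ^ d * (Matrix.of fun t t' => B (f t) t').det),
        K.mul_mem (K.prod_mem fun t _ => hA _ _)
          (K.mul_mem (K.pow_mem hϖ d) (det_mem_CB K _ fun i j => hB _ _)), ?_⟩
      have b1 := Matrix.det_mul_column (fun t => ϖ ^ e (f t)) (Matrix.of fun t t' => B (f t) t')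
      simp only [Matrix.of_apply] at b1
      rw [b1, prod_pow_eq_pow_sum, hd]
      ring
    · obtain ⟨i, j, h1, h2⟩ := Function.not_injective_iff.1 hf
      refine ⟨0, K.zero_mem, ?_⟩
      rw [Matrix.det_zero_of_row_eq h2 (by ext t'; simp [h1]), mul_zero, mul_zero]

end

section

theorem glob_PF {x : ℂ} (h : ∀ p, p.Prime → x ∈ Kp p) : x ∈ Gz := by
  have key : ∀ n : ℕ, 0 < n → (n : ℂ) * x ∈ Gz → x ∈ Gz := by
    intro n
    induction n using Nat.strong_induction_on with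
    | _ n ih =>
      intro hn hx
      by_cases h1 : n = 1
      · simpa [h1] using hx
      obtain ⟨p, hp, hd⟩ := Nat.exists_prime_and_dvd h1
      obtain ⟨m, hm, hy⟩ := h p hp
      refine ih (n.gcd m) (lt_of_le_of_ne (Nat.gcd_le_left _ hn) fun e => ?_)
        (Nat.gcd_pos_of_pos_left _ hn) ?_
      · have h2 : p ∣ m := hd.trans (e ▸ Nat.gcd_dvd_right n m)
        exact (Nat.Prime.coprime_iff_not_dvd hp).1 hm.symm h2
      · have h2 : ((n.gcd m : ℕ) : ℂ) = n * (n.gcdA m : ℤ) + m * (n.gcdB m : ℤ) := by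
          exact_mod_cast Nat.gcd_eq_gcd_ab n m
        have h3 : ((n.gcd m : ℕ) : ℂ) * x =
            (n.gcdA m : ℤ) * (n * x) + (n.gcdB m : ℤ) * (m * x) := by
          rw [h2]
          ring
        rw [h3]
        exact add_mem (mul_mem (intCast_mem Gz _) hx) (mul_mem (intCast_mem Gz _) hy)
  obtain ⟨n, hn, hx⟩ := h 2 Nat.prime_two
  refine key n (Nat.pos_of_ne_zero ?_) hx
  rintro rfl
  simp at hn

theorem norm_PF {x : ℂ} (h : x ∈ Gz) (h0 : x ≠ 0) : 1 ≤ ‖x‖ := by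
  obtain ⟨a, b, rfl⟩ := h
  have h3 : Real.sqrt 3 * Real.sqrt 3 = 3 := Real.mul_self_sqrt (by norm_num)
  have e : Complex.normSq ((a : ℂ) + b * om) = ((a ^ 2 - a * b + b ^ 2 : ℤ) : ℝ) := by
    simp [Complex.normSq_apply, om]
    linear_combination ((b : ℝ) ^ 2 / 4) * h3
  have p : 0 < Complex.normSq ((a : ℂ) + b * om) := Complex.normSq_pos.2 h0
  rw [e] at p
  have p1 : (1 : ℤ) ≤ a ^ 2 - a * b + b ^ 2 := by exact_mod_cast p
  have p2 : 1 ≤ ‖(a : ℂ) + b * om‖ ^ 2 := by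
    rw [← Complex.normSq_eq_norm_sq, e]
    exact_mod_cast p1
  exact (one_le_sq_iff₀ (norm_nonneg _)).1 p2

theorem PF_pf : PF_st := by
  intro z S α β hz hS h1 h2
  have ne : ∀ p ∈ S, (p : ℂ) ≠ 0 := fun p hp => by exact_mod_cast (hS p hp).ne_zero
  have fac : ∀ q : ℕ, q.Prime → ∀ p ∈ S, p ≠ q → (p : ℂ) ^ β p * (p : ℂ)⁻¹ ^ α p ∈ Kp q := by
    intro q hq p hp hne
    refine mul_mem (pow_mem (natCast_mem _ _) _) (pow_mem ?_ _)
    have := inv_Kp hq (c := (p : ℤ)) fun hd =>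
      hne ((Nat.prime_dvd_prime_iff_eq hq (hS p hp)).1 (Int.natCast_dvd_natCast.1 hd)).symm
    simpa using this
  have hG : z * ∏ p ∈ S, (p : ℂ) ^ β p * (p : ℂ)⁻¹ ^ α p ∈ Gz := by
    refine glob_PF fun q hq => ?_
    by_cases hq' : q ∈ S
    · obtain ⟨w, hw, e⟩ := h1 q hq'
      have e' : z * ((q : ℂ) ^ β q * (q : ℂ)⁻¹ ^ α q) = w := by
        rw [← mul_assoc, mul_comm z, e, mul_right_comm, ← mul_pow, mul_inv_cancel₀ (ne q hq'),
          one_pow, one_mul]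
      rw [← mul_prod_erase S _ hq', ← mul_assoc, e']
      exact mul_mem hw (prod_mem fun p hp => fac q hq p (mem_of_mem_erase hp) (ne_of_mem_erase hp))
    · exact mul_mem (h2 q hq hq') (prod_mem fun p hp => fac q hq p hp fun e => hq' (e ▸ hp))
  have n1 : ∀ p ∈ S, (p : ℂ) ^ β p * (p : ℂ)⁻¹ ^ α p ≠ 0 := fun p hp =>
    mul_ne_zero (pow_ne_zero _ (ne p hp)) (pow_ne_zero _ (inv_ne_zero (ne p hp)))
  have h3 := Real.log_nonneg (norm_PF hG (mul_ne_zero hz (prod_ne_zero_iff.2 n1)))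
  rw [norm_mul, norm_prod, Real.log_mul (norm_ne_zero_iff.2 hz)
    (prod_ne_zero_iff.2 fun p hp => norm_ne_zero_iff.2 (n1 p hp)),
    Real.log_prod fun p hp => norm_ne_zero_iff.2 (n1 p hp)] at h3
  have h4 : ∑ p ∈ S, Real.log ‖(p : ℂ) ^ β p * (p : ℂ)⁻¹ ^ α p‖ =
      ∑ p ∈ S, β p * Real.log p - ∑ p ∈ S, α p * Real.log p := by
    rw [← sum_sub_distrib]
    refine sum_congr rfl fun p hp => ?_
    have : (p : ℝ) ≠ 0 := by exact_mod_cast (hS p hp).ne_zero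
    rw [norm_mul, norm_pow, norm_pow, norm_inv, Complex.norm_natCast,
      Real.log_mul (pow_ne_zero _ this) (pow_ne_zero _ (inv_ne_zero this)), Real.log_pow,
      Real.log_pow, Real.log_inv]
    ring
  linarith

end

section

theorem resc_Op_LA {p a : ℕ} {f : ℂ⟦X⟧} (hf : f ∈ Op p a) : rescale (p : ℂ) f ∈ Op p a :=
  fun k hk => by
    rw [coeff_rescale]
    exact mul_mem (pow_mem (natCast_mem _ p) _) (hf k hk)

theorem resc_C_LA (z c : ℂ) : rescale z (C c) = C c := by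
  ext k
  rw [coeff_rescale, coeff_C]
  split_ifs with h <;> simp [h]

theorem resc_pow_LA (p j : ℕ) (θ : ℂ) {m : ℕ} (i : Fin m) : rescale (p : ℂ) (ln j θ ^ (i : ℕ)) =
    ∑ d : Fin m, C ((((i : ℕ).choose d : ℕ) : ℂ) * ((j % p : ℕ) : ℂ) ^ ((i : ℕ) - d) *
      (p : ℂ) ^ (d : ℕ)) * ln (j / p) θ ^ (d : ℕ) := by
  have h : rescale (p : ℂ) (ln j θ) = C (p : ℂ) * ln (j / p) θ + C ((j % p : ℕ) : ℂ) := by
    have e : (j : ℂ) = p * (j / p : ℕ) + (j % p : ℕ) := by exact_mod_cast (Nat.div_add_mod j p).symm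
    rw [ln, ln, map_add, map_mul, resc_C_LA, resc_C_LA, rescale_X, e, map_add, map_mul]
    ring
  rw [map_pow, h, add_pow, Fin.sum_univ_eq_sum_range (fun d => C ((((i : ℕ).choose d : ℕ) : ℂ) *
    ((j % p : ℕ) : ℂ) ^ ((i : ℕ) - d) * (p : ℂ) ^ d) * ln (j / p) θ ^ d) m,
    ← sum_subset (range_subset_range.2 (Nat.succ_le_of_lt i.2)) fun d _ hd => by
      rw [Nat.choose_eq_zero_of_lt (by simpa using hd)]
      simp]
  refine sum_congr rfl fun d _ => ?_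
  simp only [map_mul, map_pow, map_natCast, mul_pow]
  ring

theorem cnt_LA (m σ : ℕ) :
    (univ.filter fun d : Fin m × Fin m => (d.1 : ℕ) + d.2 < σ).card ≤ σ * (σ + 1) / 2 := by
  have h : ∑ s ∈ range σ, (s + 1) = σ * (σ + 1) / 2 := by
    have := sum_range_id_mul_two (σ + 1)
    rw [sum_range_succ', add_zero, add_tsub_cancel_right, mul_comm (σ + 1)] at this
    omega
  refine (card_le_card_of_injOn (t := (range σ).biUnion antidiagonal)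
    (fun d => ((d.1 : ℕ), (d.2 : ℕ))) (fun d hd => ?_) fun x _ y _ hxy => ?_).trans
    (card_biUnion_le.trans (le_of_eq ?_))
  · simpa using hd
  · simp only [Prod.mk.injEq] at hxy
    exact Prod.ext (Fin.ext hxy.1) (Fin.ext hxy.2)
  · simpa using h

theorem LA_pf (hCB : CB_st) : LA_st := by
  intro L _ _ p a e m n H Φ col hp hΦ
  obtain ⟨w, hw, h⟩ := hCB (Kp p) (L × Mi m) (L × (Fin p × Fin p) × (Fin m × Fin m))
    (fun t u => if t.1 = u.1 then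
      (((t.2.1.1 : ℕ).choose u.2.2.1 : ℕ) : ℂ) * ((u.2.1.1 : ℕ) : ℂ) ^ ((t.2.1.1 : ℕ) - u.2.2.1) *
      ((((t.2.1.2 : ℕ).choose u.2.2.2 : ℕ) : ℂ) * ((u.2.1.2 : ℕ) : ℂ) ^ ((t.2.1.2 : ℕ) - u.2.2.2))
      else 0)
    (fun u t => if (⟨(col t).1 0 % p, Nat.mod_lt _ hp⟩, ⟨(col t).1 1 % p, Nat.mod_lt _ hp⟩) = u.2.1
      then (p : ℂ) ^ (a - (col t).2) * coeff (col t).2 (ln ((col t).1 0 / p) 1 ^ (u.2.2.1 : ℕ) *
        ln ((col t).1 1 / p) om ^ (u.2.2.2 : ℕ) *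
          rescale (p : ℂ) (C ((p : ℂ) ^ e) * Φ u.1 (col t).1)) else 0)
    (fun u => u.2.2.1 + u.2.2.2) p H (fun σ => Fintype.card L * p ^ 2 * (σ * (σ + 1) / 2))
    (fun t u => by
      split_ifs
      exacts [mul_mem (mul_mem (natCast_mem _ _) (pow_mem (natCast_mem _ _) _))
        (mul_mem (natCast_mem _ _) (pow_mem (natCast_mem _ _) _)), zero_mem _])
    (fun u t => by
      split_ifs
      exacts [mul_mem (pow_mem (natCast_mem _ _) _) (mul_mem (mul_mem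
        (pow_mem (ln_Op a _ (one_mem _)) _) (pow_mem (ln_Op a _ (om_Kp p)) _))
        (resc_Op_LA (hΦ _ _)) _ (col t).2.2), zero_mem _])
    (natCast_mem _ _) fun σ _ _ => by
      rw [← univ_product_univ, filter_product_right
        (q := fun u : (Fin p × Fin p) × (Fin m × Fin m) => (u.2.1 : ℕ) + u.2.2 < σ),
        ← univ_product_univ, filter_product_right
        (q := fun u : Fin m × Fin m => (u.1 : ℕ) + u.2 < σ), card_product, card_product, card_univ,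
        card_univ, Fintype.card_prod, Fintype.card_fin, mul_assoc (Fintype.card L), sq]
      exact Nat.mul_le_mul_left _ (Nat.mul_le_mul_left _ (cnt_LA m σ))
  refine ⟨w, hw, Eq.trans ?_ h⟩
  rw [Dt, mul_comm _ (e + a), pow_mul, ← Matrix.det_smul]
  congr 1
  ext t t'
  simp only [Matrix.smul_apply, Matrix.of_apply, smul_eq_mul, Fintype.sum_prod_type (α₁ := L),
    Fintype.sum_prod_type (α₁ := Fin p × Fin p), ite_mul, zero_mul, mul_ite, mul_zero,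
    sum_ite_irrel, sum_const_zero, sum_ite_eq, mem_univ, if_true]
  have e1 : (p : ℂ) ^ (e + a) * coeff (col t').2 (Mo m Φ t (col t').1) = (p : ℂ) ^ (a - (col t').2) *
      coeff (col t').2 (rescale (p : ℂ) (ln ((col t').1 0) 1 ^ (t.2.1.1 : ℕ) *
        ln ((col t').1 1) om ^ (t.2.1.2 : ℕ) * (C ((p : ℂ) ^ e) * Φ t.1 (col t').1))) := by
    rw [coeff_rescale, mul_left_comm _ (C _), coeff_C_mul, ← mul_assoc, ← mul_assoc, ← pow_add,
      ← pow_add, Nat.sub_add_cancel (col t').2.2.le, add_comm a, Mo]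
  rw [e1, map_mul (rescale _), map_mul (rescale _), resc_pow_LA, resc_pow_LA, sum_mul_sum, sum_mul, map_sum, mul_sum,
    Fintype.sum_prod_type]
  refine sum_congr rfl fun d _ => ?_
  rw [sum_mul, map_sum, mul_sum]
  refine sum_congr rfl fun d' _ => ?_
  rw [mul_mul_mul_comm (C _), ← map_mul, mul_assoc (C _), coeff_C_mul, pow_add]
  ring

end

section

theorem jv_RA {p a Y v : ℕ} {θ : ℂ} (hp : p.Prime) (hθ : θ ∈ Kp p) (h1 : 1 ≤ v) (h2 : v ≤ Y) :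
    C ((p : ℂ) ^ (a * Nat.log p Y)) * Jv v θ ∈ Op p a := fun k hk => by
  obtain ⟨t, w, hw, rfl⟩ := Nat.exists_eq_pow_mul_and_not_dvd (n := v) (by omega) p hp.ne_one
  have w0 : 0 < w := Nat.pos_of_ne_zero fun h => hw (h ▸ dvd_zero p)
  have ht : t ≤ Nat.log p Y :=
    Nat.le_log_of_pow_le hp.one_lt ((Nat.le_mul_of_pos_right _ w0).trans h2)
  obtain ⟨d, hd⟩ := Nat.exists_eq_add_of_le
    (show (k + 1) * t ≤ a * Nat.log p Y from Nat.mul_le_mul hk ht)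
  have p0 : (p : ℂ) ≠ 0 := Nat.cast_ne_zero.2 hp.ne_zero
  have hi : ((w : ℤ) : ℂ)⁻¹ ∈ Kp p := inv_Kp hp fun h => hw (Int.natCast_dvd_natCast.1 h)
  rw [Int.cast_natCast] at hi
  have e : (p : ℂ) ^ ((k + 1) * t + d) * ((-θ) ^ k * ((p ^ t * w : ℕ) : ℂ)⁻¹ ^ (k + 1)) =
      (p : ℂ) ^ d * ((-θ) ^ k * (w : ℂ)⁻¹ ^ (k + 1)) := by
    have e1 : (p : ℂ) ^ ((k + 1) * t) * ((p : ℂ) ^ t)⁻¹ ^ (k + 1) = 1 := by
      rw [mul_comm (k + 1), pow_mul, ← mul_pow, mul_inv_cancel₀ (pow_ne_zero _ p0), one_pow]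
    rw [Nat.cast_mul, Nat.cast_pow, mul_inv, mul_pow, pow_add]
    linear_combination (p : ℂ) ^ d * ((-θ) ^ k * (w : ℂ)⁻¹ ^ (k + 1)) * e1
  rw [coeff_C_mul, Jv, coeff_mk, hd, e]
  exact mul_mem (pow_mem (natCast_mem _ p) _) (mul_mem (pow_mem (neg_mem hθ) _) (pow_mem hi _))

theorem hs_RA {p a Y j : ℕ} {θ : ℂ} (hp : p.Prime) (hθ : θ ∈ Kp p) (h : j ≤ Y) :
    C ((p : ℂ) ^ (a * Nat.log p Y)) * hs j θ ∈ Op p a := by
  rw [hs, mul_sum]
  exact sum_mem fun v hv => jv_RA hp hθ (mem_Icc.1 hv).1 ((mem_Icc.1 hv).2.trans h)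

theorem yN_RA {p a Y N j : ℕ} {θ : ℂ} (hp : p.Prime) (hθ : θ ∈ Kp p) (h : j ≤ Y)
    (h' : N * j ≤ Y) : C ((p : ℂ) ^ (a * Nat.log p Y)) * yN N j θ ∈ Op p a := by
  rw [yN, mul_sub, mul_left_comm, mul_left_comm _ (C (N : ℂ))]
  exact sub_mem (mul_mem (C_Op a (natCast_mem _ N)) (hs_RA hp hθ h))
    (mul_mem (C_Op a (natCast_mem _ N)) (hs_RA hp (mul_mem (natCast_mem _ N) hθ) h'))

theorem RA_pf : RA_st := by
  intro p a r s n η l j hp hη hj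
  rcases l with l | l
  · have h1 : ∀ i, j i ≤ (r + 1) * n := fun i =>
      (hj i).trans (Nat.le_mul_of_pos_left _ (Nat.succ_pos r))
    have h2 : ∀ i, ((l : ℕ) + 2) * j i ≤ (r + 1) * n := fun i =>
      Nat.mul_le_mul (by have := l.2; omega) (hj i)
    rw [Ph, Sum.elim_inl, YY, mul_sub, mul_left_comm]
    exact sub_mem (yN_RA hp (one_mem _) (h1 0) (h2 0))
      (mul_mem (C_Op a (om_Kp p)) (yN_RA hp (om_Kp p) (h1 1) (h2 1)))
  · exact mul_mem (C_Op a (pow_mem (natCast_mem _ p) _)) (hη l)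

end

section

theorem LB_pf (hCB : CB_st) : LB_st := by
  intro ρ π β _ _ _ _ p a F gc Ψ col hg hΨ hF hp
  classical
  obtain ⟨w, hw, h⟩ := hCB (Kp p) ρ (ρ ⊕ π × β)
    (fun t => Sum.elim (fun t0 => if t = t0 then 1 else 0) fun u => gc t u.1 u.2)
    (fun u t => Sum.elim
      (fun t0 => coeff (col t).2 (F t0 (col t).1 - ∑ b, C (gc t0 (col t).1 b) * Ψ (col t).1 b))
      (fun u : π × β => if (col t).1 = u.1 then coeff (col t).2 (C ((p : ℂ) ^ a) * Ψ u.1 u.2)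
        else 0) u)
    (Sum.elim (fun _ => a) fun _ => 0) p a (fun _ => Fintype.card π * Fintype.card β)
    (by
      rintro t (u | u)
      · simp only [Sum.elim_inl]
        split_ifs
        exacts [one_mem _, zero_mem _]
      · exact hg _ _ _)
    (by
      rintro (u | u) t
      · exact hF _ _ _ (col t).2.2
      · simp only [Sum.elim_inr]
        split_ifs
        exacts [hΨ _ _ _ (col t).2.2, zero_mem _])
    (natCast_mem _ _) fun σ _ h2 => by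
      rw [← Fintype.card_prod, ← card_univ]
      refine (card_le_card (t := univ.map ⟨Sum.inr, Sum.inr_injective⟩) ?_).trans (card_map _).le
      rintro (u | u) hu
      · exact absurd (mem_filter.1 hu).2 (not_lt.2 h2)
      · simp
  have e : ((p : ℂ) ^ a) ^ Fintype.card ρ * Dt F col =
      (p : ℂ) ^ (a * (Fintype.card ρ - Fintype.card π * Fintype.card β)) * w := by
    rw [sum_const, Nat.card_Icc, add_tsub_cancel_right, smul_eq_mul] at h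
    refine Eq.trans ?_ h
    rw [Dt, ← Matrix.det_smul]
    congr 1
    ext t t'
    simp only [Matrix.smul_apply, Matrix.of_apply, smul_eq_mul, Fintype.sum_sum_type,
      Fintype.sum_prod_type, Sum.elim_inl, Sum.elim_inr, ite_mul, zero_mul, one_mul, mul_ite,
      mul_zero, sum_ite_irrel, sum_const_zero, sum_ite_eq, mem_univ, if_true, pow_zero, map_sub,
      map_sum, coeff_C_mul, mul_sub, mul_sum, mul_left_comm ((p : ℂ) ^ a), sub_add_cancel,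
      sum_sub_distrib]
  have p0 : (p : ℂ) ≠ 0 := by exact_mod_cast hp.ne'
  have e2 : (p : ℂ) ^ (a * (Fintype.card π * Fintype.card β)) * Dt F col =
      (p : ℂ) ^ (a * (Fintype.card π * Fintype.card β - Fintype.card ρ)) * w := by
    refine mul_left_cancel₀ (pow_ne_zero (a * Fintype.card ρ) p0) ?_
    rw [mul_left_comm, pow_mul _ a (Fintype.card ρ), e, ← pow_mul, ← mul_assoc _ _ w,
      ← mul_assoc _ _ w, ← pow_add, ← pow_add, ← mul_add, ← mul_add]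
    congr 3
    omega
  rw [e2]
  exact mul_mem (pow_mem (natCast_mem _ _) _) hw

end

section

/-- integral up to a constant and a multiple of `c + θ t` -/
def Good_RB (p a : ℕ) (c θ : ℂ) (F : ℂ⟦X⟧) : Prop :=
  ∃ g ∈ Kp p, ∃ q ∈ Op p a, F = C g + (C c + C θ * X) * q

/-- integral up to a combination of the series `Ψ b` -/
def Dec_RB (p a : ℕ) {β : Type} [Fintype β] (Ψ : β → ℂ⟦X⟧) (F : ℂ⟦X⟧) : Prop :=
  ∃ gc : β → ℂ, (∀ b, gc b ∈ Kp p) ∧ F - ∑ b, C (gc b) * Ψ b ∈ Op p a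

section

variable {p a : ℕ} {c θ : ℂ} {β : Type} [Fintype β] {Ψ : β → ℂ⟦X⟧} {F G : ℂ⟦X⟧}

theorem gmul_RB (hc : c ∈ Kp p) (hθ : θ ∈ Kp p) (hF : Good_RB p a c θ F)
    (hG : Good_RB p a c θ G) : Good_RB p a c θ (F * G) := by
  obtain ⟨g, hg, q, hq, rfl⟩ := hF
  obtain ⟨g', hg', q', hq', rfl⟩ := hG
  refine ⟨g * g', mul_mem hg hg', C g * q' + q * C g' + q * (C c + C θ * X) * q',
    add_mem (add_mem (mul_mem (C_Op a hg) hq') (mul_mem hq (C_Op a hg')))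
      (mul_mem (mul_mem hq (add_mem (C_Op a hc) (mul_mem (C_Op a hθ) (X_Op p a)))) hq'), ?_⟩
  rw [map_mul]
  ring

theorem gpow_RB (hc : c ∈ Kp p) (hθ : θ ∈ Kp p) (hF : Good_RB p a c θ F) (k : ℕ) :
    Good_RB p a c θ (F ^ k) := by
  induction k with
  | zero => exact ⟨1, one_mem _, 0, zero_mem _, by simp⟩
  | succ k ih => exact pow_succ F k ▸ gmul_RB hc hθ ih hF

theorem gln_RB {θ' θ₀ : ℂ} (hc : c ∈ Kp p) (h' : θ' ∈ Kp p) (h₀ : θ₀ ∈ Kp p) (h : θ * θ' = 1)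
    (j : ℕ) : Good_RB p a c θ (ln j θ₀) := by
  refine ⟨j - θ₀ * θ' * c, sub_mem (natCast_mem _ j) (mul_mem (mul_mem h₀ h') hc), C (θ₀ * θ'),
    C_Op a (mul_mem h₀ h'), ?_⟩
  have e : (C θ * C θ' : ℂ⟦X⟧) = 1 := by rw [← map_mul, h, map_one]
  simp only [ln, map_sub, map_mul]
  linear_combination (-C θ₀ * X) * e

theorem dop_RB (h : F ∈ Op p a) : Dec_RB p a Ψ F :=
  ⟨0, fun _ => zero_mem _, by simpa using h⟩

theorem dadd_RB (hF : Dec_RB p a Ψ F) (hG : Dec_RB p a Ψ G) : Dec_RB p a Ψ (F + G) := by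
  obtain ⟨g, hg, h⟩ := hF
  obtain ⟨g', hg', h'⟩ := hG
  refine ⟨fun b => g b + g' b, fun b => add_mem (hg b) (hg' b), ?_⟩
  simp only [map_add, add_mul, sum_add_distrib]
  rw [add_sub_add_comm]
  exact add_mem h h'

theorem dmul_RB {z : ℂ} (hz : z ∈ Kp p) (hF : Dec_RB p a Ψ F) : Dec_RB p a Ψ (C z * F) := by
  obtain ⟨g, hg, h⟩ := hF
  refine ⟨fun b => z * g b, fun b => mul_mem hz (hg b), ?_⟩
  simp only [map_mul, mul_assoc, ← mul_sum, ← mul_sub]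
  exact mul_mem (C_Op a hz) h

theorem dsub_RB (hF : Dec_RB p a Ψ F) (hG : Dec_RB p a Ψ G) : Dec_RB p a Ψ (F - G) := by
  have := dadd_RB hF (dmul_RB (neg_mem (one_mem _)) hG)
  rwa [map_neg, map_one, neg_one_mul, ← sub_eq_add_neg] at this

theorem dsum_RB {ι : Type} (s : Finset ι) (f : ι → ℂ⟦X⟧) (h : ∀ i ∈ s, Dec_RB p a Ψ (f i)) :
    Dec_RB p a Ψ (∑ i ∈ s, f i) :=
  sum_induction f _ (fun _ _ => dadd_RB) (dop_RB (zero_mem _)) h

theorem dgood_RB (hc : c ≠ 0) (hF : Good_RB p a c θ F) (b : β) (hb : Ψ b = Jv c θ) :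
    Dec_RB p a Ψ (F * Jv c θ) := by
  classical
  obtain ⟨g, hg, q, hq, rfl⟩ := hF
  refine ⟨fun b' => if b' = b then g else 0, fun b' => ?_, ?_⟩
  · beta_reduce
    split_ifs
    exacts [hg, zero_mem _]
  · beta_reduce
    rw [sum_eq_single b (fun b' _ h => by simp [h]) (by simp), if_pos rfl, hb,
      show (C g + (C c + C θ * X) * q) * Jv c θ - C g * Jv c θ =
        (C c + C θ * X) * Jv c θ * q by ring, Jv_mul hc, one_mul]
    exact hq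

theorem pJ_RB (hp : p.Prime) (hθ : θ ∈ Kp p) {u : ℕ} (h0 : 0 < u) (hu : u < p) :
    C ((p : ℂ) ^ a) * Jv ((p * u : ℕ) : ℂ) θ ∈ Op p a := fun k hk => by
  obtain ⟨e, rfl⟩ := Nat.exists_eq_add_of_lt hk
  have p0 : (p : ℂ) ≠ 0 := Nat.cast_ne_zero.2 hp.ne_zero
  have h1 : ((u : ℤ) : ℂ)⁻¹ ∈ Kp p :=
    inv_Kp hp fun h => Nat.not_dvd_of_pos_of_lt h0 hu (Int.natCast_dvd_natCast.1 h)
  have e1 : (p : ℂ) ^ (k + e + 1) * ((-θ) ^ k * ((p * u : ℕ) : ℂ)⁻¹ ^ (k + 1)) =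
      (p : ℂ) ^ e * ((-θ) ^ k * ((u : ℤ) : ℂ)⁻¹ ^ (k + 1)) := by
    push_cast
    rw [mul_inv, mul_pow, inv_pow (p : ℂ)]
    field_simp
    ring
  rw [coeff_C_mul, Jv, coeff_mk, e1]
  exact mul_mem (pow_mem (natCast_mem _ p) _) (mul_mem (pow_mem (neg_mem hθ) _) (pow_mem h1 _))

end

/-- the series that are not integral -/
def Psi_RB (p r Y : ℕ) (b : Fin 2 × Fin (r + 1) × Fin (Y / p)) : ℂ⟦X⟧ :=
  Jv ((p * (b.2.2 + 1) : ℕ) : ℂ) (((b.2.1 + 1 : ℕ) : ℂ) * ![1, om] b.1)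

theorem eps_RB (p : ℕ) (ε : Fin 2) : ![1, om] ε ∈ Kp p ∧ ∃ z ∈ Kp p, ![1, om] ε * z = 1 := by
  fin_cases ε
  · exact ⟨one_mem _, 1, one_mem _, by simp⟩
  · exact ⟨om_Kp p, om ^ 2, pow_mem (om_Kp p) 2, by simpa [← pow_succ'] using om_cube⟩

theorem hs_RB {p a r Y N j : ℕ} (hp : p.Prime) (hr : r + 1 < p) (j₀ j₁ d₀ d₁ : ℕ) (ε : Fin 2)
    (h1 : 1 ≤ N) (hN : N ≤ r + 1) (hj : j ≤ Y) :
    Dec_RB p a (Psi_RB p r Y) (ln j₀ 1 ^ d₀ * ln j₁ om ^ d₁ * hs j (N * ![1, om] ε)) := by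
  obtain ⟨hε, z, hz, e⟩ := eps_RB p ε
  have hθ : (N : ℂ) * ![1, om] ε ∈ Kp p := mul_mem (natCast_mem _ N) hε
  have hi : ((N : ℤ) : ℂ)⁻¹ ∈ Kp p :=
    inv_Kp hp fun h => Nat.not_dvd_of_pos_of_lt h1 (by omega) (Int.natCast_dvd_natCast.1 h)
  have e' : (N : ℂ) * ![1, om] ε * (((N : ℤ) : ℂ)⁻¹ * z) = 1 := by
    have : (N : ℂ) ≠ 0 := Nat.cast_ne_zero.2 (by omega)
    rw [mul_mul_mul_comm, e, Int.cast_natCast, mul_inv_cancel₀ this, one_mul]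
  rw [hs, mul_sum]
  refine dsum_RB _ _ fun v hv => ?_
  rw [mem_Icc] at hv
  by_cases h : p ∣ v
  · obtain ⟨u, rfl⟩ := h
    have u0 : 0 < u := Nat.pos_of_mul_pos_left hv.1
    have hu : u ≤ Y / p := (Nat.le_div_iff_mul_le hp.pos).2 (by rw [mul_comm]; omega)
    have hc := natCast_mem (Kp p) (p * u)
    refine dgood_RB (Nat.cast_ne_zero.2 (by omega)) (gmul_RB hc hθ
      (gpow_RB hc hθ (gln_RB hc (mul_mem hi hz) (one_mem _) e' j₀) d₀)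
      (gpow_RB hc hθ (gln_RB hc (mul_mem hi hz) (om_Kp p) e' j₁) d₁))
      (ε, ⟨N - 1, by omega⟩, ⟨u - 1, by omega⟩) ?_
    simp only [Psi_RB, Nat.sub_add_cancel h1, Nat.sub_add_cancel u0]
  · refine dop_RB (mul_mem (mul_mem (pow_mem (ln_Op a j₀ (one_mem _)) _)
      (pow_mem (ln_Op a j₁ (om_Kp p)) _)) ?_)
    simpa using Jv_Op hp a (c := v) hθ fun h' => h (Int.natCast_dvd_natCast.1 h')

theorem y_RB {p a r n N j : ℕ} (hp : p.Prime) (hr : r + 1 < p) (j₀ j₁ d₀ d₁ : ℕ) (ε : Fin 2)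
    (h1 : 1 ≤ N) (hN : N ≤ r + 1) (hj : j ≤ n) :
    Dec_RB p a (Psi_RB p r ((r + 1) * n)) (ln j₀ 1 ^ d₀ * ln j₁ om ^ d₁ * yN N j (![1, om] ε)) := by
  have a1 := hs_RB (a := a) (Y := (r + 1) * n) (N := 1) (j := j) hp hr j₀ j₁ d₀ d₁ ε le_rfl
    (by omega) (hj.trans (Nat.le_mul_of_pos_left n (by omega)))
  have a2 := hs_RB (a := a) hp hr j₀ j₁ d₀ d₁ ε h1 hN (Nat.mul_le_mul hN hj)
  rw [Nat.cast_one, one_mul] at a1
  rw [yN, mul_sub, mul_left_comm, mul_left_comm _ (C (N : ℂ))]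
  exact dsub_RB (dmul_RB (natCast_mem _ N) a1) (dmul_RB (natCast_mem _ N) a2)

theorem RB_pf (hLB : LB_st) : RB_st := by
  intro p a r s m n η col hp hr hY hη
  have h : ∀ (t : (Fin r ⊕ Fin s) × Mi m) (j : Pt n),
      Dec_RB p a (Psi_RB p r ((r + 1) * n)) (Rw r η m n t j) := by
    rintro ⟨l | l, d⟩ j
    · have a0 := y_RB (a := a) (N := l + 2) hp hr (j 0) (j 1) d.1.1 d.1.2 0 (by omega)
        (by omega) (Nat.lt_succ_iff.1 (j 0).2)
      have a1 := y_RB (a := a) (N := l + 2) hp hr (j 0) (j 1) d.1.1 d.1.2 1 (by omega)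
        (by omega) (Nat.lt_succ_iff.1 (j 1).2)
      have a2 := dsub_RB a0 (dmul_RB (om_Kp p) a1)
      rw [mul_left_comm, ← mul_sub] at a2
      exact a2
    · exact dop_RB (mul_mem (mul_mem (pow_mem (ln_Op a _ (one_mem _)) _)
        (pow_mem (ln_Op a _ (om_Kp p)) _)) (hη l))
  choose gc h1 h2 using h
  have h3 := hLB _ _ _ p a (Rw r η m n) gc (fun _ => Psi_RB p r ((r + 1) * n)) col h1
    (fun _ b => pJ_RB hp (mul_mem (natCast_mem _ _) (eps_RB p b.1).1) (Nat.succ_pos _) (by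
      have h4 := b.2.2.2
      have h5 : (r + 1) * n / p < p := Nat.div_lt_of_lt_mul (by rwa [← sq])
      omega)) h2 hp.pos
  simpa [mul_assoc] using h3

end

section

theorem LR_pf (hCB : CB_st) : LR_st := by
  intro ρ π ι _ _ _ p a F A Ψ col hA hΨ hF
  choose h hh hE using hF
  obtain ⟨w, hw, e⟩ := hCB (Kp p) ρ (ι ⊕ ρ)
    (fun t => Sum.elim (A t) fun s => if t = s then 1 else 0)
    (fun u t' => Sum.elim (fun u => coeff (col t').2 (Ψ u (col t').1))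
      (fun s => coeff (col t').2 (h s (col t').1)) u)
    (Sum.elim (fun _ => 0) fun _ => 1) p 1 (fun _ => Fintype.card ι)
    (by
      rintro t (u | s)
      · exact hA t u
      · simp only [Sum.elim_inr]
        split_ifs
        exacts [one_mem _, zero_mem _])
    (by
      rintro (u | s) t
      · exact hΨ u _ _ (col t).2.2
      · exact hh s _ _ (col t).2.2)
    (natCast_mem _ p)
    (by
      intro σ _ h2
      refine (card_le_card (t := univ.map (Function.Embedding.inl (α := ι) (β := ρ))) ?_).trans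
        (by rw [card_map, card_univ])
      rintro (u | s) hu
      · exact mem_map_of_mem _ (mem_univ u)
      · have := (mem_filter.mp hu).2
        simp only [Sum.elim_inr] at this
        omega)
  refine ⟨w, hw, ?_⟩
  rw [Icc_self, sum_singleton] at e
  rw [← e, Dt]
  congr 1
  ext t t'
  have := congrArg (coeff (col t').2) (hE t (col t').1)
  rw [map_sub, map_sum, coeff_C_mul] at this
  simp only [coeff_C_mul] at this
  simp only [Matrix.of_apply, Fintype.sum_sum_type, Sum.elim_inl, Sum.elim_inr, pow_zero, one_mul,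
    pow_one, ite_mul, zero_mul, sum_ite_eq, mem_univ, if_true]
  exact eq_add_of_sub_eq' this

end

section

/-- multiples of `p` -/
def Ip_SH (p a : ℕ) : AddSubgroup ℂ⟦X⟧ :=
  (Op p a).toAddSubgroup.map (AddMonoidHom.mulLeft (C (p : ℂ)))

theorem cg_SH {p a : ℕ} {f g : ℂ⟦X⟧} : Cg p a f g ↔ f - g ∈ Ip_SH p a :=
  ⟨fun ⟨h, h1, h2⟩ => ⟨h, h1, h2.symm⟩, fun ⟨h, h1, h2⟩ => ⟨h, h1, h2.symm⟩⟩

theorem mul_SH {p a : ℕ} {f g : ℂ⟦X⟧} (hf : f ∈ Op p a) (hg : g ∈ Ip_SH p a) :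
    f * g ∈ Ip_SH p a := by
  obtain ⟨h, h1, rfl⟩ := hg
  exact ⟨f * h, (Op p a).mul_mem hf h1, by simp only [AddMonoidHom.coe_mulLeft]; ring⟩

theorem jv_SH {p : ℕ} (hp : p.Prime) (a : ℕ) {s c c' : ℤ} {θ : ℂ} (hθ : θ ∈ Kp p)
    (h1 : (p : ℤ) ∣ s * c - c') (h2 : ¬ (p : ℤ) ∣ c') :
    Jv c θ - C (s : ℂ) * Jv c' (s * θ) ∈ Ip_SH p a := by
  have h3 : ¬ (p : ℤ) ∣ c := fun h => h2 (by simpa using dvd_sub (h.mul_left s) h1)
  have n1 : (c : ℂ) ≠ 0 := by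
    exact_mod_cast fun h : c = 0 => h3 (h ▸ dvd_zero _)
  have n2 : (c' : ℂ) ≠ 0 := by
    exact_mod_cast fun h : c' = 0 => h2 (h ▸ dvd_zero _)
  obtain ⟨w, hw⟩ := h1
  have hw' : (C (s : ℂ) : ℂ⟦X⟧) * C (c : ℂ) - C (c' : ℂ) = C (p : ℂ) * C (w : ℂ) := by
    rw [← map_mul, ← map_sub, ← map_mul]
    exact congrArg _ (by exact_mod_cast hw)
  refine ⟨-(C (w : ℂ) * Jv c θ * Jv c' (s * θ)), (Op p a).neg_mem ((Op p a).mul_mem ((Op p a).mul_mem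
    (C_Op a (intCast_mem _ w)) (Jv_Op hp a hθ h3))
    (Jv_Op hp a (mul_mem (intCast_mem _ s) hθ) h2)), ?_⟩
  have e1 := Jv_mul n1 θ
  have e2 := Jv_mul n2 (s * θ)
  rw [map_mul] at e2
  simp only [AddMonoidHom.coe_mulLeft]
  linear_combination (Jv c θ * Jv c' (s * θ)) * hw' - C (s : ℂ) * Jv c' (s * θ) * e1 +
    Jv c θ * e2

theorem div_SH (p x N : ℕ) :
    (((x + N) / p : ℕ) : ℂ) = (x / p : ℕ) + ∑ ρ ∈ Icc 1 N, if p ∣ x + ρ then (1 : ℂ) else 0 := by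
  induction N with
  | zero => simp
  | succ N ih =>
    rw [← add_assoc, Nat.succ_div, Finset.sum_Icc_succ_top (by omega), ← add_assoc, ← ih,
      add_assoc x]
    push_cast
    rfl

theorem one_SH {p N : ℕ} (hp : p.Prime) (h1 : 1 ≤ N) (h2 : N < p) (ρ : ℕ) :
    ∃ u₀ ∈ range p, p ∣ N * u₀ + ρ ∧ ∀ u ∈ range p, p ∣ N * u + ρ → u = u₀ := by
  have : Fact p.Prime := ⟨hp⟩
  have hN : (N : ZMod p) ≠ 0 := fun h =>
    absurd (Nat.le_of_dvd h1 ((ZMod.natCast_eq_zero_iff N p).1 h)) (by omega)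
  refine ⟨(-(ρ : ZMod p) / N).val, mem_range.2 (ZMod.val_lt _), ?_, fun u hu h => ?_⟩
  · rw [← ZMod.natCast_eq_zero_iff]
    push_cast
    rw [ZMod.natCast_zmod_val]
    field_simp
    ring
  · rw [← ZMod.natCast_eq_zero_iff] at h
    push_cast at h
    rw [← ZMod.val_cast_of_lt (mem_range.1 hu)]
    congr 1
    field_simp
    linear_combination h

theorem hs_SH (x N : ℕ) (θ : ℂ) :
    hs (x + N) θ = hs x θ + ∑ ρ ∈ Icc 1 N, Jv ((x + ρ : ℕ) : ℂ) θ := by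
  induction N with
  | zero => simp
  | succ N ih =>
    rw [Finset.sum_Icc_succ_top (by omega), ← add_assoc (hs x θ), ← ih, ← add_assoc, hs, hs,
      Finset.sum_Icc_succ_top (by omega)]

theorem kk_SH {p : ℕ} (hp : 0 < p) (N j : ℕ) (θ : ℂ) :
    KK N p (j + 1) θ = KK N p j θ +
      ∑ ρ ∈ Icc 1 N, (∑ u ∈ range p, if p ∣ N * u + ρ then Jv ((u : ℂ) - j) (-θ) else 0) -
      C (N : ℂ) * Jv ((p : ℂ) - (j + 1)) (-θ) := by
  have e1 := Finset.sum_range_succ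
    (fun u => C ((N * u / p : ℕ) : ℂ) * Jv ((u : ℂ) - (j + 1 : ℕ)) (-θ)) p
  rw [Finset.sum_range_succ', Nat.mul_div_cancel _ hp] at e1
  rw [eq_sub_iff_add_eq, KK, KK, Finset.sum_comm, ← Finset.sum_add_distrib]
  push_cast at e1 ⊢
  rw [← e1]
  simp only [mul_zero, Nat.zero_div, Nat.cast_zero, map_zero, zero_mul, add_zero]
  refine Finset.sum_congr rfl fun u _ => ?_
  rw [mul_add, mul_one, div_SH, map_add, add_mul, map_sum, Finset.sum_mul, add_sub_add_right_eq_sub]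
  congr 1
  refine Finset.sum_congr rfl fun ρ _ => ?_
  split_ifs <;> simp

theorem SH_pf : SH_st := by
  intro p a N j θ hp h1 h2 h3 hθ
  rw [cg_SH]
  induction j with
  | zero => simp [yN, hs]
  | succ j ih =>
    have h4 : N * (j + 1) = N * j + N := by ring
    have h5 : j + 1 ≤ N * (j + 1) := Nat.le_mul_of_pos_left _ h1
    have k1 : Jv ((p : ℂ) - (j + 1)) (-θ) + Jv ((j + 1 : ℕ) : ℂ) θ ∈ Ip_SH p a := by
      have := jv_SH hp a (s := -1) (c := p - (j + 1)) (c' := j + 1) (neg_mem hθ)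
        ⟨-1, by ring⟩ fun h => absurd (Int.le_of_dvd (by omega) h) (by omega)
      simpa using this
    have k2 : ∀ ρ ∈ Icc 1 N,
        (∑ u ∈ range p, if p ∣ N * u + ρ then Jv ((u : ℂ) - j) (-θ) else 0) +
          C (N : ℂ) * Jv ((N * j + ρ : ℕ) : ℂ) (N * θ) ∈ Ip_SH p a := by
      intro ρ hρ
      rw [mem_Icc] at hρ
      obtain ⟨u, u1, u2, u3⟩ := one_SH hp h1 h2 ρ
      rw [Finset.sum_eq_single_of_mem u u1 fun v hv hne => if_neg fun h => hne (u3 v hv h),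
        if_pos u2]
      have := jv_SH hp a (s := -N) (c := u - j) (c' := ((N * j + ρ : ℕ) : ℤ)) (neg_mem hθ)
        (by
          have : (p : ℤ) ∣ ((N * u + ρ : ℕ) : ℤ) := Int.natCast_dvd_natCast.2 u2
          refine dvd_neg.1 (this.trans (dvd_of_eq ?_))
          push_cast
          ring)
        fun h => absurd (Nat.le_of_dvd (by omega) (Int.natCast_dvd_natCast.1 h)) (by omega)
      simpa using this
    have := sub_mem (add_mem (ih (by omega)) (sum_mem k2))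
      (mul_SH (C_Op a (natCast_mem _ N)) k1)
    convert this using 1
    rw [kk_SH hp.pos, yN, yN, h4, hs_SH, hs_SH, Finset.sum_add_distrib, ← Finset.mul_sum]
    simp only [Icc_self, sum_singleton]
    ring

end

section

theorem inv_VOR {p n : ℕ} (hp : p.Prime) (h0 : 0 < n) (h : n < p) : (n : ℂ)⁻¹ ∈ Kp p := by
  have := inv_Kp hp (c := n) fun h1 =>
    absurd (Nat.le_of_dvd h0 (Int.natCast_dvd_natCast.1 h1)) (by omega)
  rwa [Int.cast_natCast] at this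

theorem bern_VOR {p : ℕ} (hp : p.Prime) {n : ℕ} (hn : n + 1 < p) :
    ((bernoulli n : ℚ) : ℂ) ∈ Kp p := by
  induction n using Nat.strong_induction_on with
  | _ n ih =>
    rcases Nat.eq_zero_or_pos n with rfl | h0
    · simp
    have h := sum_bernoulli (n + 1)
    rw [if_neg (by omega), sum_range_succ, Nat.choose_succ_self_right] at h
    have h2 := congrArg (fun q : ℚ => (q : ℂ)) h
    simp only [Rat.cast_add, Rat.cast_sum, Rat.cast_mul, Rat.cast_natCast, Rat.cast_zero] at h2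
    have h3 : ((n + 1 : ℕ) : ℂ) ≠ 0 := Nat.cast_ne_zero.2 n.succ_ne_zero
    have e : ((bernoulli n : ℚ) : ℂ) = ((n + 1 : ℕ) : ℂ)⁻¹ *
        -∑ k ∈ range n, ((n + 1).choose k : ℂ) * (bernoulli k : ℚ) := by
      rw [eq_inv_mul_iff_mul_eq₀ h3]
      linear_combination h2
    rw [e]
    refine mul_mem (inv_VOR hp n.succ_pos hn) (neg_mem (sum_mem fun k hk => ?_))
    have := mem_range.1 hk
    exact mul_mem (natCast_mem _ _) (ih k this (by omega))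

theorem faul_VOR {p m : ℕ} (hp : p.Prime) (hm : m + 1 < p) :
    ∃ w ∈ Kp p, ∑ u ∈ range p, (u : ℂ) ^ m = p * (bernoulli m : ℚ) + p ^ 2 * w := by
  have h := congrArg (fun q : ℚ => (q : ℂ)) (sum_range_pow p m)
  simp only [sum_range_succ _ m, Rat.cast_add, Rat.cast_sum, Rat.cast_mul, Rat.cast_natCast,
    Rat.cast_div, Rat.cast_pow, Rat.cast_one, Nat.choose_succ_self_right,
    Nat.add_sub_cancel_left, pow_one] at h
  have h3 : (m : ℂ) + 1 ≠ 0 := by exact_mod_cast m.succ_ne_zero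
  refine ⟨∑ i ∈ range m, (bernoulli i : ℚ) * ((m + 1).choose i : ℂ) * (p : ℂ) ^ (m - 1 - i) *
    ((m + 1 : ℕ) : ℂ)⁻¹, sum_mem fun i hi => ?_, ?_⟩
  · have := mem_range.1 hi
    exact mul_mem (mul_mem (mul_mem (bern_VOR hp (by omega)) (natCast_mem _ _))
      (pow_mem (natCast_mem _ _) _)) (inv_VOR hp m.succ_pos hm)
  · rw [h, add_comm, mul_sum]
    congr 1
    · rw [div_eq_iff h3]
      push_cast
      ring
    · refine sum_congr rfl fun i hi => ?_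
      have := mem_range.1 hi
      rw [show m + 1 - i = m - 1 - i + 2 by omega]
      push_cast
      ring

theorem perm_VOR {p N : ℕ} (hp : p.Prime) (h1 : 1 ≤ N) (h2 : N < p) (f : ℕ → ℂ) :
    ∑ u ∈ range p, f (N * u % p) = ∑ u ∈ range p, f u := by
  have hc : p.Coprime N := (Nat.Prime.coprime_iff_not_dvd hp).2 fun h =>
    absurd (Nat.le_of_dvd h1 h) (by omega)
  have hi : Set.InjOn (fun u => N * u % p) (range p) := fun u hu v hv e =>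
    Nat.ModEq.eq_of_lt_of_lt (Nat.ModEq.cancel_left_of_coprime hc e) (mem_range.1 hu)
      (mem_range.1 hv)
  have he : (range p).image (fun u => N * u % p) = range p :=
    eq_of_subset_of_card_le (fun x hx => by
      obtain ⟨u, -, rfl⟩ := mem_image.1 hx
      exact mem_range.2 (Nat.mod_lt _ hp.pos)) (card_image_of_injOn hi).ge
  conv_rhs => rw [← he]
  exact (sum_image hi).symm

theorem fer_VOR {p u : ℕ} (hp : p.Prime) (h1 : 1 ≤ u) (h2 : u < p) :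
    ∃ c : ℤ, (u : ℂ) ^ (p - 1) = 1 + p * c := by
  have hc : IsCoprime (u : ℤ) p := Nat.isCoprime_iff_coprime.2
    ((Nat.Prime.coprime_iff_not_dvd hp).2 fun h => absurd (Nat.le_of_dvd h1 h) (by omega)).symm
  obtain ⟨c, e⟩ := (Int.ModEq.pow_card_sub_one_eq_one hp hc).symm.dvd
  refine ⟨c, ?_⟩
  have := congrArg (fun z : ℤ => (z : ℂ)) e
  push_cast at this
  linear_combination this

theorem VOR_pf : VOR_st := by
  intro p N k hp h1 h2 hk hkp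
  obtain ⟨m, rfl⟩ : ∃ m, p = m + 1 + k := ⟨p - k - 1, by omega⟩
  rw [Nat.add_sub_cancel]
  generalize hP : m + 1 + k = p at *
  have hp0 : (p : ℂ) ≠ 0 := Nat.cast_ne_zero.2 hp.ne_zero
  have hk0 : (k : ℂ) ≠ 0 := Nat.cast_ne_zero.2 (by omega)
  have hA : ∀ u : ℕ, ∃ t : ℤ, ((N * u % p : ℕ) : ℂ) ^ (m + 1) = (N : ℂ) ^ (m + 1) * u ^ (m + 1) -
      (m + 1) * p * N ^ m * (((N * u / p : ℕ) : ℂ) * u ^ m) + p ^ 2 * t := by
    intro u
    obtain ⟨t, ht⟩ := Polynomial.powAddExpansion ((N * u : ℕ) : ℤ) (-(p * (N * u / p : ℕ))) (m + 1)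
    have e : ((N * u : ℕ) : ℤ) + -(p * (N * u / p : ℕ)) = (N * u % p : ℕ) := by
      rw [← Nat.div_add_mod (N * u) p, Nat.cast_add, Nat.cast_mul, Nat.div_add_mod]
      ring
    rw [e, Nat.add_sub_cancel] at ht
    refine ⟨t * (N * u / p : ℕ) ^ 2, ?_⟩
    have := congrArg (fun z : ℤ => (z : ℂ)) ht
    simp only [Int.cast_pow, Int.cast_natCast, Int.cast_add, Int.cast_mul, Int.cast_neg,
      Nat.cast_mul, Nat.cast_add, Nat.cast_one, Int.cast_one] at this ⊢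
    rw [this]
    ring
  choose t ht using hA
  have hD : ∀ u ∈ range p, ∃ c ∈ Kp p, ((N * u / p : ℕ) : ℂ) * (u : ℂ)⁻¹ ^ k ∈ Kp p ∧
      ((N * u / p : ℕ) : ℂ) * u ^ m = ((N * u / p : ℕ) : ℂ) * (u : ℂ)⁻¹ ^ k + p * c := by
    intro u hu
    rcases Nat.eq_zero_or_pos u with rfl | h0
    · exact ⟨0, zero_mem _, by simp, by simp⟩
    obtain ⟨c, hc⟩ := fer_VOR hp h0 (mem_range.1 hu)
    have hi := mul_mem (natCast_mem (Kp p) (N * u / p)) (pow_mem (inv_VOR hp h0 (mem_range.1 hu)) k)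
    refine ⟨_, mul_mem hi (intCast_mem _ c), hi, ?_⟩
    have hu0 : (u : ℂ) ≠ 0 := Nat.cast_ne_zero.2 h0.ne'
    have e : (u : ℂ) ^ m = (u : ℂ) ^ (p - 1) * (u : ℂ)⁻¹ ^ k := by
      rw [show p - 1 = m + k by omega, pow_add, mul_assoc, ← mul_pow, mul_inv_cancel₀ hu0, one_pow,
        mul_one]
    rw [e, hc]
    ring
  choose! c hc using hD
  obtain ⟨w, hw, hS⟩ := faul_VOR (m := m + 1) hp (by omega)
  obtain ⟨a, ha⟩ := fer_VOR hp h1 h2
  rw [show p - 1 = m + k by omega, pow_add] at ha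
  have hB := bern_VOR (n := m + 1) hp (by omega)
  have e1 := perm_VOR hp h1 h2 fun u => (u : ℂ) ^ (m + 1)
  simp only [ht] at e1
  rw [sum_add_distrib, sum_sub_distrib, ← mul_sum, ← mul_sum, ← mul_sum, hS,
    sum_congr rfl fun u hu => (hc u hu).2.2, sum_add_distrib, ← mul_sum] at e1
  have hs1 := sum_mem fun u hu => (hc u hu).2.1
  have hs2 := sum_mem fun u hu => (hc u hu).1
  have hs3 : ∑ u ∈ range p, (t u : ℂ) ∈ Kp p := sum_mem fun u _ => intCast_mem _ _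
  generalize ∑ u ∈ range p, ((N * u / p : ℕ) : ℂ) * (u : ℂ)⁻¹ ^ k = s at *
  generalize ∑ u ∈ range p, c u = v at *
  generalize ∑ u ∈ range p, (t u : ℂ) = T at *
  generalize ((bernoulli (m + 1) : ℚ) : ℂ) = B at *
  have hm : (m : ℂ) + 1 = p - k := by rw [← hP]; push_cast; ring
  have e2 : ((N : ℂ) ^ m * N - 1) * (B + p * w) - (p - k) * N ^ m * (s + p * v) + p * T = 0 := by
    apply mul_left_cancel₀ hp0
    rw [← hm]
    linear_combination e1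
  have hN : (N : ℂ) ∈ Kp p := natCast_mem _ _
  have hpK : (p : ℂ) ∈ Kp p := natCast_mem _ _
  have haK : (a : ℂ) ∈ Kp p := intCast_mem _ _
  refine ⟨(k : ℂ)⁻¹ * ((1 + p * a) * (s + p * v) - k * (a * s + v + p * a * v) - a * N * B -
    N ^ k * (T + (N ^ m * N - 1) * w)), mul_mem (inv_VOR hp (by omega) (by omega))
    (sub_mem (sub_mem (sub_mem (mul_mem (add_mem (one_mem _) (mul_mem hpK haK))
      (add_mem hs1 (mul_mem hpK hs2))) (mul_mem (natCast_mem _ _) (add_mem (add_mem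
        (mul_mem haK hs1) hs2) (mul_mem (mul_mem hpK haK) hs2)))) (mul_mem (mul_mem haK hN) hB))
      (mul_mem (pow_mem hN _) (add_mem hs3 (mul_mem (sub_mem (mul_mem (pow_mem hN _) hN)
        (one_mem _)) hw)))), ?_⟩
  field_simp
  linear_combination (N : ℂ) ^ k * e2 - (N * B - (p - k) * (s + p * v)) * ha

end

section

theorem invn_HY {p u : ℕ} (hp : p.Prime) (h : u < p) : (u : ℂ)⁻¹ ∈ Kp p := by
  rcases Nat.eq_zero_or_pos u with rfl | h0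
  · simp
  · have := inv_Kp hp (c := u) fun e => absurd (Nat.le_of_dvd h0 (Int.natCast_dvd_natCast.1 e))
      (not_le.2 h)
    rwa [Int.cast_natCast] at this

theorem bern_HY {p : ℕ} (hp : p.Prime) {n : ℕ} (hn : n + 1 < p) :
    ((bernoulli n : ℚ) : ℂ) ∈ Kp p := by
  induction n using Nat.strong_induction_on with
  | _ n ih =>
    rcases Nat.eq_zero_or_pos n with rfl | h0
    · simp
    have h := sum_bernoulli (n + 1)
    rw [if_neg (by omega), sum_range_succ, Nat.choose_succ_self_right] at h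
    have h1 := congrArg (fun q : ℚ => (q : ℂ)) h
    have h3 : ((n + 1 : ℕ) : ℂ) ≠ 0 := Nat.cast_ne_zero.2 (by omega)
    have e : ((bernoulli n : ℚ) : ℂ) = ((n + 1 : ℕ) : ℂ)⁻¹ *
        -∑ k ∈ range n, ((n + 1).choose k : ℂ) * (bernoulli k : ℚ) := by
      rw [eq_inv_mul_iff_mul_eq₀ h3]
      push_cast at h1 ⊢
      linear_combination h1
    rw [e]
    exact mul_mem (invn_HY hp hn) (neg_mem (sum_mem fun k hk => mul_mem (natCast_mem _ _)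
      (ih k (mem_range.1 hk) (by have := mem_range.1 hk; omega))))

theorem rat_HY {p : ℕ} (hp : p.Prime) {q : ℚ} (h : (p : ℤ) ∣ q.num) :
    ∃ w ∈ Kp p, (q : ℂ) = p * w := by
  have h1 : ¬ (p : ℤ) ∣ (q.den : ℤ) := fun e => hp.one_lt.ne' (Nat.eq_one_of_dvd_coprimes q.reduced
    (Int.natCast_dvd.1 h) (Int.natCast_dvd_natCast.1 e))
  obtain ⟨c, hc⟩ := h
  refine ⟨c * ((q.den : ℤ) : ℂ)⁻¹, mul_mem (intCast_mem _ _) (inv_Kp hp h1), ?_⟩
  rw [Rat.cast_def, hc]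
  push_cast
  ring

theorem cg_HY {p a : ℕ} (hp : p.Prime) {f g : ℂ⟦X⟧}
    (h : ∀ k < a, ∃ w ∈ Kp p, coeff k f - coeff k g = p * w) : Cg p a f g := by
  have p0 : (p : ℂ) ≠ 0 := Nat.cast_ne_zero.2 hp.ne_zero
  refine ⟨C (p : ℂ)⁻¹ * (f - g), fun k hk => ?_, by
    rw [← mul_assoc, ← map_mul, mul_inv_cancel₀ p0, map_one, one_mul]⟩
  obtain ⟨w, hw, e⟩ := h k hk
  rwa [coeff_C_mul, map_sub, e, inv_mul_cancel_left₀ p0]

theorem kk_HY (N p k : ℕ) (θ : ℂ) : coeff k (KK N p 0 θ) =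
    θ ^ k * ∑ u ∈ range p, ((N * u / p : ℕ) : ℂ) * (u : ℂ)⁻¹ ^ (k + 1) := by
  rw [KK, map_sum, mul_sum]
  refine sum_congr rfl fun u _ => ?_
  rw [coeff_C_mul, Jv, coeff_mk, neg_neg, Nat.cast_zero, sub_zero]
  ring

theorem pw_HY (K : ℕ) : om ^ K = om ^ (K % 3) := by
  conv_lhs => rw [← Nat.div_add_mod K 3, pow_add, pow_mul, om_cube, one_pow, one_mul]

theorem HY_pf (hVOR : VOR_st) : HY_st := by
  intro p r δ s a d kk cc e μ hp ha hr hk hB hd hμ l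
  have hl := l.2
  have p2 := hp.two_le
  obtain ⟨V, hV⟩ : ∃ V : ℕ → ℂ,
    ∀ k, V k = ∑ u ∈ range p, (((l + 2) * u / p : ℕ) : ℂ) * (u : ℂ)⁻¹ ^ k := ⟨_, fun _ => rfl⟩
  have d1 : ¬ (p : ℤ) ∣ (d : ℤ) := fun h =>
    (Nat.Prime.coprime_iff_not_dvd hp).1 hd.symm (Int.natCast_dvd_natCast.1 h)
  have d0 : (d : ℂ) ≠ 0 := Nat.cast_ne_zero.2 fun h => d1 (by simp [h])
  have o1 : 1 - om ∈ Kp p := sub_mem (one_mem _) (om_Kp p)
  have o2 : om ^ 2 ∈ Kp p := pow_mem (om_Kp p) 2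
  refine ⟨fun h => ((d : ℤ) : ℂ)⁻¹ * ((1 - om) * (V 1 * μ none h + ∑ j,
    ((bernoulli (p - kk j) : ℚ) : ℂ) * (μ (some (l, j, 0)) h - om ^ 2 * μ (some (l, j, 1)) h))),
    fun h => mul_mem (inv_Kp hp d1) (mul_mem o1 (add_mem (mul_mem ?_ (intCast_mem _ _))
      (sum_mem fun j _ => mul_mem (bern_HY hp (by have := hk j; omega))
        (sub_mem (intCast_mem _ _) (mul_mem o2 (intCast_mem _ _)))))), cg_HY hp fun k hka => ?_⟩
  · rw [hV]
    exact sum_mem fun u hu => mul_mem (natCast_mem _ _) (pow_mem (invn_HY hp (mem_range.1 hu)) _)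
  have m1 : ∀ o, ∑ h, (μ o h : ℂ) * e h k = d * (ph r δ cc o k : ℚ) := fun o => by
    exact_mod_cast congrArg (fun q : ℚ => (q : ℂ)) (hμ o k hka).symm
  have m2 : coeff k (∑ h, C (((d : ℤ) : ℂ)⁻¹ * ((1 - om) * (V 1 * μ none h + ∑ j,
      ((bernoulli (p - kk j) : ℚ) : ℂ) * (μ (some (l, j, 0)) h - om ^ 2 * μ (some (l, j, 1)) h)))) *
      iz (e h)) = (1 - om) * (V 1 * (ph r δ cc none k : ℚ) + ∑ j, ((bernoulli (p - kk j) : ℚ) : ℂ) *
        ((ph r δ cc (some (l, j, 0)) k : ℚ) - om ^ 2 * (ph r δ cc (some (l, j, 1)) k : ℚ))) := by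
    generalize 1 - om = z
    simp only [map_sum, coeff_C_mul, iz, coeff_mk, mul_assoc, ← mul_sum, add_mul, sum_mul,
      sum_add_distrib, sub_mul]
    rw [sum_comm, Int.cast_natCast, inv_mul_eq_iff_eq_mul₀ d0]
    simp only [← mul_sum, sum_sub_distrib, m1, mul_sub]
    simp only [mul_left_comm _ (d : ℂ), ← mul_sum]
    ring
  rw [m2, map_sub, coeff_C_mul, kk_HY, kk_HY, ← hV, one_pow, one_mul, ← mul_assoc, ← pow_succ',
    pw_HY]
  rcases Nat.eq_zero_or_pos k with rfl | k0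
  · exact ⟨0, zero_mem _, by simp [ph]; ring⟩
  have h3 : (k + 1) % 3 = 0 ∨ (k + 1) % 3 = 1 ∨ (k + 1) % 3 = 2 := by omega
  rcases h3 with h3 | h3
  · exact ⟨0, zero_mem _, by simp [ph, h3, k0.ne']⟩
  obtain ⟨w, hw, e1⟩ := hVOR p (l + 2) (k + 1) hp (by omega) (by omega) (by omega) (by omega)
  obtain ⟨w', hw', e2⟩ := rat_HY hp (hB (k + 1) (by omega) (by omega) (by omega)).2
  rw [← hV] at e1
  have t1 : w + ((((l + 2 : ℕ) : ℂ)) ^ (k + 1) - (l + 2 : ℕ)) * ((k + 1 : ℕ) : ℂ)⁻¹ * w' ∈ Kp p :=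
    add_mem hw (mul_mem (mul_mem (sub_mem (pow_mem (natCast_mem _ _) _) (natCast_mem _ _))
      (invn_HY hp (by omega))) hw')
  have t2 : ∑ j, ((bernoulli (p - kk j) : ℚ) : ℂ) * ((((l : ℕ) + 2 : ℂ) ^ (k + 1) - (l + 2)) *
      (cc (k + 1) j : ℚ) / (k + 1)) = (((l : ℕ) + 2 : ℂ) ^ (k + 1) - (l + 2)) * (k + 1 : ℂ)⁻¹ *
        ∑ j, (cc (k + 1) j : ℚ) * ((bernoulli (p - kk j) : ℚ) : ℂ) := by
    rw [mul_sum]
    exact sum_congr rfl fun j _ => by ring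
  push_cast at e1 e2
  rcases h3 with h3 | h3
  · refine ⟨_, mul_mem o1 t1, ?_⟩
    simp only [ph, Option.elim, h3, k0.ne', if_false, Fin.val_zero, Fin.val_one, if_true,
      Nat.reduceAdd, Nat.reduceEqDiff]
    push_cast
    simp only [mul_zero, sub_zero, t2]
    linear_combination (1 - om) * e1 +
      (1 - om) * (((l : ℕ) + 2 : ℂ) ^ (k + 1) - (l + 2)) * (k + 1 : ℂ)⁻¹ * e2
  · refine ⟨_, mul_mem (mul_mem o1 (neg_mem o2)) t1, ?_⟩
    simp only [ph, Option.elim, h3, k0.ne', if_false, Fin.val_zero, Fin.val_one, if_true,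
      Nat.reduceAdd, Nat.reduceEqDiff]
    push_cast
    simp only [zero_sub, mul_neg, mul_left_comm _ (om ^ 2), sum_neg_distrib, ← mul_sum, t2]
    linear_combination (1 - om) * -om ^ 2 * e1 - (1 - om) * om ^ 2 *
      (((l : ℕ) + 2 : ℂ) ^ (k + 1) - (l + 2)) * (k + 1 : ℂ)⁻¹ * e2 + (1 - om) * V (k + 1) * om_sq

end

section

theorem smul_RC {p : ℕ} (z : Kp p) (f : ℂ⟦X⟧) : z • f = C (z : ℂ) * f := smul_eq_C_mul f z

/-- families that vanish modulo `p` -/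
def nul_RC (p a : ℕ) (π : Type) : Submodule (Kp p) (π → ℂ⟦X⟧) where
  carrier := {F | ∀ j, ∃ h ∈ Op p a, F j = C (p : ℂ) * h}
  add_mem' hF hG j := by
    obtain ⟨f, hf, e⟩ := hF j
    obtain ⟨g, hg, e'⟩ := hG j
    exact ⟨f + g, add_mem hf hg, by rw [Pi.add_apply, e, e', mul_add]⟩
  zero_mem' _ := ⟨0, zero_mem _, by simp⟩
  smul_mem' z F hF j := by
    obtain ⟨f, hf, e⟩ := hF j
    exact ⟨C (z : ℂ) * f, mul_mem (C_Op a z.2) hf, by rw [Pi.smul_apply, smul_RC, e, mul_left_comm]⟩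

theorem out_RC {p a : ℕ} {π ι : Type} [Fintype ι] {Ψ : ι → π → ℂ⟦X⟧} {F : π → ℂ⟦X⟧}
    (h : F ∈ Submodule.span (Kp p) (Set.range Ψ) ⊔ nul_RC p a π) :
    ∃ A : ι → ℂ, (∀ u, A u ∈ Kp p) ∧ ∀ j, Cg p a (F j) (∑ u, C (A u) * Ψ u j) := by
  obtain ⟨G, hG, H, hH, rfl⟩ := Submodule.mem_sup.1 h
  obtain ⟨A, rfl⟩ := (Submodule.mem_span_range_iff_exists_fun _).1 hG
  refine ⟨fun u => A u, fun u => (A u).2, fun j => (hH j).imp fun g hg => ⟨hg.1, ?_⟩⟩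
  rw [← hg.2]
  simp [smul_RC]

theorem pow_RC {p m : ℕ} {π : Type} (S : Submodule (Kp p) (π → ℂ⟦X⟧)) (x y J : π → ℂ⟦X⟧) (u : ℕ)
    (h : ∀ j, (C (u : ℂ) - x j) * J j = 1)
    (h1 : ∀ i i', i + i' < m → (fun j => x j ^ i * y j ^ i') ∈ S)
    (h2 : ∀ i' < m, (fun j => y j ^ i' * J j) ∈ S) (i i' : ℕ) (hi : i + i' < m) :
    (fun j => x j ^ i * y j ^ i' * J j) ∈ S := by
  induction i with
  | zero => simpa using h2 i' (by omega)
  | succ i ih =>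
    have e : (fun j => x j ^ (i + 1) * y j ^ i' * J j) = (⟨u, natCast_mem _ u⟩ : Kp p) •
        (fun j => x j ^ i * y j ^ i' * J j) - fun j => x j ^ i * y j ^ i' := by
      funext j
      simp only [Pi.sub_apply, Pi.smul_apply, smul_RC]
      linear_combination (-(x j ^ i * y j ^ i')) * h j
    exact e ▸ sub_mem (S.smul_mem _ (ih (by omega))) (h1 i i' (by omega))

theorem KK_RC {p m n N : ℕ} {π : Type} (S : Submodule (Kp p) (π → ℂ⟦X⟧)) (c : π → ℕ) (θ : ℂ)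
    (y : π → ℂ⟦X⟧) (hc : ∀ j, c j ≤ n) (hN : N * n < p)
    (h1 : ∀ i i', i + i' < m → (fun j => ln (c j) θ ^ i * y j ^ i') ∈ S)
    (h2 : ∀ u < p, ∀ i' < m, (fun j => y j ^ i' * Jv ((u : ℂ) - c j) (-θ)) ∈ S) (i i' : ℕ)
    (hi : i + i' < m) : (fun j => ln (c j) θ ^ i * y j ^ i' * KK N p (c j) θ) ∈ S := by
  have e : (fun j => ln (c j) θ ^ i * y j ^ i' * KK N p (c j) θ) = ∑ u ∈ range p,
      (⟨(N * u / p : ℕ), natCast_mem _ _⟩ : Kp p) •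
        fun j => ln (c j) θ ^ i * y j ^ i' * Jv ((u : ℂ) - c j) (-θ) := by
    funext j
    simp only [KK, mul_sum, Finset.sum_apply, Pi.smul_apply, smul_RC, mul_left_comm]
  rw [e]
  refine sum_mem fun u hu => ?_
  by_cases h : u ≤ n
  · refine (congrArg (· ∈ S) (funext fun j => ?_ : _ = (0 : π → ℂ⟦X⟧))).mpr (zero_mem S)
    simp [smul_RC, Nat.div_eq_of_lt ((Nat.mul_le_mul_left N h).trans_lt hN)]
  · refine S.smul_mem _ (pow_RC S _ y _ u (fun j => ?_) h1 (h2 u (mem_range.1 hu)) i i' hi)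
    rw [← Jv_mul (c := (u : ℂ) - c j) (sub_ne_zero.2 (Nat.cast_injective.ne (by
      have := hc j
      omega))) (-θ), ln, map_sub, map_neg]
    ring

theorem Jv_RC {p u j : ℕ} (hp : p.Prime) (a : ℕ) {θ : ℂ} (hθ : θ ∈ Kp p) (hu : u < p) (hj : j < p) :
    Jv ((u : ℂ) - j) θ ∈ Op p a := by
  by_cases h : u = j
  · rw [h, sub_self, Jv_zero]
    exact zero_mem _
  · have := Jv_Op hp a (c := (u : ℤ) - j) hθ fun hd => by
      have := Int.eq_zero_of_abs_lt_dvd hd (abs_lt.2 ⟨by omega, by omega⟩)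
      omega
    exact_mod_cast this

/-- the basis modulo `p` -/
def psi_RC (p m n : ℕ) {s : ℕ} (η : Fin s → ℂ⟦X⟧) :
    Fin s × Mi m ⊕ Mi m ⊕ Fin p × Fin m ⊕ Fin p × Fin m → Pt n → ℂ⟦X⟧
  | .inl u => Mo m (fun h _ => η h) u
  | .inr (.inl d) => fun j => ln (j 0) 1 ^ (d.1.1 : ℕ) * ln (j 1) om ^ (d.1.2 : ℕ)
  | .inr (.inr (.inl u)) => fun j => ln (j 1) om ^ (u.2 : ℕ) * Jv (((u.1 : ℕ) : ℂ) - (j 0 : ℕ)) (-1)
  | .inr (.inr (.inr u)) => fun j => ln (j 0) 1 ^ (u.2 : ℕ) * Jv (((u.1 : ℕ) : ℂ) - (j 1 : ℕ)) (-om)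

theorem RC_pf (hLR : LR_st) (hSH : SH_st) : RC_st := by
  intro p a r s m n η col hp hr hn hη hy
  have hn' : ∀ (j : Pt n) i, (j i : ℕ) ≤ n := fun j i => Nat.le_of_lt_succ (j i).2
  have hn2 : ∀ (j : Pt n) i, (j i : ℕ) < p := fun j i => by
    have := hn' j i
    nlinarith
  have hx : ∀ (j : Pt n) k, ln (j 0) 1 ^ k ∈ Op p a := fun j k =>
    pow_mem (ln_Op a _ (one_mem _)) k
  have hy' : ∀ (j : Pt n) k, ln (j 1) om ^ k ∈ Op p a := fun j k =>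
    pow_mem (ln_Op a _ (om_Kp p)) k
  set S := Submodule.span (Kp p) (Set.range (psi_RC p m n η)) ⊔ nul_RC p a (Pt n) with hS
  have b : ∀ u, psi_RC p m n η u ∈ S := fun u =>
    Submodule.mem_sup_left (Submodule.subset_span ⟨u, rfl⟩)
  have b1 : ∀ i i', i + i' < m → (fun j : Pt n => ln (j 0) 1 ^ i * ln (j 1) om ^ i') ∈ S :=
    fun i i' h => b (.inr (.inl ⟨(⟨i, by omega⟩, ⟨i', by omega⟩), h⟩))
  have key : ∀ t, Rw r η m n t ∈ S := by
    rintro ⟨l | h, d⟩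
    · obtain ⟨ξ, h1, g, h2, h3⟩ := hy l
      have hN : ((l : ℕ) + 2) * n < p := (Nat.mul_le_mul_right n (by omega)).trans_lt hn
      have k1 := KK_RC S (fun j : Pt n => j 0) 1 (fun j => ln (j 1) om) (fun j => hn' j 0) hN b1
        (fun u hu i hi => b (.inr (.inr (.inl (⟨u, hu⟩, ⟨i, hi⟩))))) _ _ d.2
      have k2 := KK_RC S (fun j : Pt n => j 1) om (fun j => ln (j 0) 1) (fun j => hn' j 1) hN
        (fun i i' h => by simpa only [mul_comm] using b1 i' i (by omega))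
        (fun u hu i hi => b (.inr (.inr (.inr (⟨u, hu⟩, ⟨i, hi⟩))))) d.1.2 d.1.1
        (by have := d.2; omega)
      have k3 : ∑ h, (⟨ξ h, h1 h⟩ : Kp p) • psi_RC p m n η (.inl (h, d)) ∈ S :=
        sum_mem fun h _ => S.smul_mem _ (b _)
      refine (S.sub_mem_iff_left (sub_mem (sub_mem k1 (S.smul_mem ⟨om, om_Kp p⟩ k2)) k3)).1
        (Submodule.mem_sup_right fun j => ?_)
      obtain ⟨g0, m0, e0⟩ := hSH p a (l + 2) (j 0) 1 hp (by omega) (by omega)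
        ((Nat.mul_le_mul_left _ (hn' j 0)).trans_lt hN) (one_mem _)
      obtain ⟨g1, m1, e1⟩ := hSH p a (l + 2) (j 1) om hp (by omega) (by omega)
        ((Nat.mul_le_mul_left _ (hn' j 1)).trans_lt hN) (om_Kp p)
      refine ⟨ln (j 0) 1 ^ (d.1.1 : ℕ) * ln (j 1) om ^ (d.1.2 : ℕ) * (C om * g1 - g0 - g),
        mul_mem (mul_mem (hx j _) (hy' j _))
          (sub_mem (sub_mem (mul_mem (C_Op a (om_Kp p)) m1) m0) h2), ?_⟩
      simp only [Rw, Mo, Ph, YY, psi_RC, Sum.elim_inl, Pi.sub_apply, Pi.smul_apply, smul_RC,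
        Finset.sum_apply, mul_left_comm (C (ξ _)), ← mul_sum]
      linear_combination (ln (j 0) 1 ^ (d.1.1 : ℕ) * ln (j 1) om ^ (d.1.2 : ℕ)) *
        (C om * e1 - e0 - h3)
    · exact b (.inl (h, d))
  choose A h1 h2 using fun t => out_RC (key t)
  obtain ⟨w, hw, e⟩ := hLR _ _ _ p a (Rw r η m n) A (psi_RC p m n η) col h1 (by
    rintro (u | d | u | u) j
    · exact mul_mem (mul_mem (hx j _) (hy' j _)) (hη _)
    · exact mul_mem (hx j _) (hy' j _)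
    · exact mul_mem (hy' j _) (Jv_RC hp a (neg_mem (one_mem _)) u.1.2 (hn2 j 0))
    · exact mul_mem (hx j _) (Jv_RC hp a (neg_mem (om_Kp p)) u.1.2 (hn2 j 1))) h2
  refine ⟨w, hw, ?_⟩
  rw [e]
  simp only [Fintype.card_sum, Fintype.card_prod, Fintype.card_fin]
  rw [show s * Fintype.card (Mi m) + (Fintype.card (Mi m) + (p * m + p * m)) =
    (s + 1) * Fintype.card (Mi m) + 2 * p * m by ring]

end

section

theorem sum_CNT (m : ℕ) (f : ℕ → ℕ) :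
    ∑ d : Mi m, f ((d.1.1 : ℕ) + d.1.2) = ∑ t ∈ range m, (t + 1) * f t := by
  have h : ∑ t ∈ range m, (t + 1) * f t =
      ∑ x ∈ (range m).sigma fun t => antidiagonal t, f x.1 := by
    rw [sum_sigma]
    exact sum_congr rfl fun t _ => by simp
  rw [h]
  refine sum_bij (fun d _ => ⟨(d.1.1 : ℕ) + d.1.2, (d.1.1, d.1.2)⟩) (fun d _ => ?_)
    (fun d _ d' _ e => ?_) (fun x hx => ?_) fun _ _ => rfl
  · exact mem_sigma.2 ⟨mem_range.2 d.2, mem_antidiagonal.2 rfl⟩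
  · have e2 := congrArg (fun x : (_ : ℕ) × ℕ × ℕ => x.2) e
    exact Subtype.ext (Prod.ext (Fin.ext (congrArg Prod.fst e2)) (Fin.ext (congrArg Prod.snd e2)))
  · obtain ⟨t, a, b⟩ := x
    obtain ⟨h1, h2⟩ := mem_sigma.1 hx
    have h3 : a + b = t := mem_antidiagonal.1 h2
    have h4 : t < m := mem_range.1 h1
    subst h3
    exact ⟨⟨(⟨a, by omega⟩, ⟨b, by omega⟩), h4⟩, mem_univ _, rfl⟩

theorem CNT_pf : CNT_st := by
  intro m
  constructor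
  · have h := sum_CNT m fun _ => 1
    rw [sum_const, card_univ, smul_eq_mul, mul_one] at h
    rw [h]
    clear h
    induction m with
    | zero => simp
    | succ m ih =>
      rw [sum_range_succ, mul_add, ih]
      ring
  · have h : ∑ d : Mi m, ((d.1.1 : ℕ) + d.1.2) = _ := sum_CNT m fun t => t
    rw [h]
    clear h
    induction m with
    | zero => simp
    | succ m ih =>
      rw [sum_range_succ, mul_add]
      nlinarith

end

section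

theorem jv_RE (v k : ℕ) (hv : 1 ≤ v) (θ : ℂ) : ‖coeff k (Jv v θ)‖ ≤ ‖θ‖ ^ k := by
  rw [Jv, coeff_mk, norm_mul, norm_pow, norm_pow, norm_neg, norm_inv, Complex.norm_natCast]
  have h1 : (1 : ℝ) ≤ v := by exact_mod_cast hv
  have h2 : ((v : ℝ)⁻¹) ^ (k + 1) ≤ 1 :=
    pow_le_one₀ (by positivity) (inv_le_one_of_one_le₀ h1)
  exact mul_le_of_le_one_right (by positivity) h2

theorem hs_RE (j k : ℕ) (θ : ℂ) : ‖coeff k (hs j θ)‖ ≤ j * ‖θ‖ ^ k := by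
  rw [hs, map_sum]
  refine (norm_sum_le _ _).trans ?_
  refine (sum_le_sum fun v hv => jv_RE v k (mem_Icc.mp hv).1 θ).trans ?_
  simp

theorem yn_RE {N j k n r a : ℕ} {θ : ℂ} (hθ : ‖θ‖ = 1) (h1 : 1 ≤ N) (hN : N ≤ r + 1) (hj : j ≤ n)
    (hk : k < a) : ‖coeff k (yN N j θ)‖ ≤ 2 * (r + 1 : ℝ) ^ (a + 2) * (n + 1) := by
  rw [yN, map_sub, coeff_C_mul, coeff_C_mul]
  refine (norm_sub_le _ _).trans ?_
  rw [norm_mul, norm_mul, Complex.norm_natCast]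
  have e1 := hs_RE j k θ
  have e2 := hs_RE (N * j) k (N * θ)
  rw [hθ, one_pow, mul_one] at e1
  rw [norm_mul, hθ, mul_one, Complex.norm_natCast, Nat.cast_mul] at e2
  have hN' : (N : ℝ) ≤ r + 1 := by exact_mod_cast hN
  have h1' : (1 : ℝ) ≤ N := by exact_mod_cast h1
  have hj' : (j : ℝ) ≤ n + 1 := by exact_mod_cast hj.trans (Nat.le_succ n)
  have hr : (1 : ℝ) ≤ r + 1 := h1'.trans hN'
  have f1 : (N : ℝ) ≤ (r + 1 : ℝ) ^ (a + 2) :=
    hN'.trans (le_self_pow₀ hr (by omega))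
  have f2 : (N : ℝ) ^ (k + 2) ≤ (r + 1 : ℝ) ^ (a + 2) :=
    (pow_le_pow_left₀ (by positivity) hN' _).trans (pow_le_pow_right₀ hr (by omega))
  have g1 : (N : ℝ) * ‖coeff k (hs j θ)‖ ≤ (r + 1 : ℝ) ^ (a + 2) * (n + 1) :=
    mul_le_mul f1 (e1.trans hj') (norm_nonneg _) (by positivity)
  have g2 : (N : ℝ) * ‖coeff k (hs (N * j) (N * θ))‖ ≤ (r + 1 : ℝ) ^ (a + 2) * (n + 1) := by
    calc _ ≤ (N : ℝ) * (N * j * N ^ k) := mul_le_mul_of_nonneg_left e2 (by positivity)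
      _ = (N : ℝ) ^ (k + 2) * j := by ring
      _ ≤ _ := mul_le_mul f2 hj' (by positivity) (by positivity)
  linarith

theorem yy_RE {N k n r a : ℕ} {j : Fin 2 → ℕ} (h1 : 1 ≤ N) (hN : N ≤ r + 1) (hj : ∀ i, j i ≤ n)
    (hk : k < a) : ‖coeff k (YY N j)‖ ≤ 4 * (r + 1 : ℝ) ^ (a + 2) * (n + 1) := by
  rw [YY, map_sub, coeff_C_mul]
  refine (norm_sub_le _ _).trans ?_
  rw [norm_mul, norm_om, one_mul]
  have e1 := yn_RE (θ := 1) norm_one h1 hN (hj 0) hk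
  have e2 := yn_RE norm_om h1 hN (hj 1) hk
  linarith

theorem ln_RE {a j n : ℕ} {θ : ℂ} {F : ℂ⟦X⟧} {H : ℝ} (hθ : ‖θ‖ = 1) (hj : j ≤ n) (hH : 0 ≤ H)
    (hF : ∀ k < a, ‖coeff k F‖ ≤ H) : ∀ k < a, ‖coeff k (ln j θ * F)‖ ≤ (n + 1) * H := by
  intro k hk
  rw [ln, add_mul, map_add, mul_assoc, coeff_C_mul, coeff_C_mul]
  refine (norm_add_le _ _).trans ?_
  rw [norm_mul, norm_mul, hθ, one_mul, Complex.norm_natCast]
  have hj' : (j : ℝ) ≤ n := by exact_mod_cast hj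
  have e1 : (j : ℝ) * ‖coeff k F‖ ≤ n * H :=
    mul_le_mul hj' (hF k hk) (norm_nonneg _) (by positivity)
  have e2 : ‖coeff k (X * F)‖ ≤ H := by
    rcases k with _ | k
    · simpa using hH
    · rw [coeff_succ_X_mul]
      exact hF k (by omega)
  linarith

theorem pow_RE {a j n : ℕ} {θ : ℂ} {F : ℂ⟦X⟧} {H : ℝ} (hθ : ‖θ‖ = 1) (hj : j ≤ n) (hH : 0 ≤ H)
    (hF : ∀ k < a, ‖coeff k F‖ ≤ H) (e : ℕ) :
    ∀ k < a, ‖coeff k (ln j θ ^ e * F)‖ ≤ (n + 1 : ℝ) ^ e * H := by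
  induction e with
  | zero => simpa using hF
  | succ e ih =>
    intro k hk
    have := ln_RE hθ hj (by positivity) ih k hk
    rwa [← mul_assoc, ← pow_succ', ← mul_assoc, ← pow_succ'] at this

theorem det_RE {ρ : Type} [Fintype ρ] [DecidableEq ρ] (A : Matrix ρ ρ ℂ) (B : ρ → ℝ)
    (h : ∀ t t', ‖A t t'‖ ≤ B t) :
    ‖A.det‖ ≤ (Fintype.card ρ : ℝ) ^ Fintype.card ρ * ∏ t, B t := by
  have hB : ∀ t, 0 ≤ B t := fun t => (norm_nonneg _).trans (h t t)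
  rw [Matrix.det_apply']
  refine (norm_sum_le _ _).trans ?_
  have e : ∀ σ : Equiv.Perm ρ, ‖((Equiv.Perm.sign σ : ℤ) : ℂ) * ∏ i, A (σ i) i‖ ≤ ∏ t, B t := by
    intro σ
    have h1 : ‖((Equiv.Perm.sign σ : ℤ) : ℂ)‖ = 1 := by
      rcases Int.units_eq_one_or (Equiv.Perm.sign σ) with h0 | h0 <;> simp [h0]
    rw [norm_mul, h1, one_mul, norm_prod, ← Equiv.prod_comp σ B]
    exact prod_le_prod (fun _ _ => norm_nonneg _) fun i _ => h _ _
  refine (sum_le_sum fun σ _ => e σ).trans ?_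
  rw [sum_const, card_univ, Fintype.card_perm, nsmul_eq_mul]
  refine mul_le_mul_of_nonneg_right ?_ (prod_nonneg fun t _ => hB t)
  exact_mod_cast Nat.factorial_le_pow _

theorem RE_pf (hCNT : CNT_st) : RE_st := by
  intro a r s m n η Hη col hH hη
  have hc : Fintype.card ((Fin r ⊕ Fin s) × Mi m) = (r + s) * Fintype.card (Mi m) := by
    rw [Fintype.card_prod, Fintype.card_sum, Fintype.card_fin, Fintype.card_fin]
  refine ⟨(r + s) * ∑ d : Mi m, ((d.1.1 : ℕ) + d.1.2), ?_, ?_⟩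
  · have := Nat.mul_le_mul_left (r + s) (hCNT m).2
    linarith
  set H : ℝ := 4 * (r + 1 : ℝ) ^ (a + 2) * (n + 1) + Hη with hHd
  have h0 : (0 : ℝ) ≤ 4 * (r + 1 : ℝ) ^ (a + 2) * (n + 1) := by positivity
  have hH0 : 0 ≤ H := add_nonneg h0 hH
  have hP : ∀ (l : Fin r ⊕ Fin s) (j : Pt n), ∀ k < a,
      ‖coeff k (Ph r η l fun i => j i)‖ ≤ H := by
    intro l j k hk
    rcases l with l | l
    · have := yy_RE (N := l + 2) (j := fun i => j i) (r := r) (n := n) (by omega)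
        (by have := l.2; omega) (fun i => Nat.lt_succ_iff.mp (j i).2) hk
      exact this.trans (le_add_of_nonneg_right hH)
    · exact (hη l k hk).trans (le_add_of_nonneg_left h0)
  have hR : ∀ (t : (Fin r ⊕ Fin s) × Mi m) (j : Pt n), ∀ k < a,
      ‖coeff k (Rw r η m n t j)‖ ≤ (n + 1 : ℝ) ^ ((t.2.1.1 : ℕ) + t.2.1.2) * H := by
    intro t j k hk
    have e1 := pow_RE norm_om (Nat.lt_succ_iff.mp (j 1).2) hH0 (hP t.1 j) t.2.1.2
    have e2 := pow_RE (θ := 1) norm_one (Nat.lt_succ_iff.mp (j 0).2) (by positivity) e1 t.2.1.1 k hk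
    rwa [← mul_assoc, ← mul_assoc, ← pow_add] at e2
  refine (det_RE _ (fun t => (n + 1 : ℝ) ^ ((t.2.1.1 : ℕ) + t.2.1.2) * H)
    fun t t' => hR t _ _ (col t').2.2).trans (le_of_eq ?_)
  rw [prod_mul_distrib, prod_const, card_univ, prod_pow_eq_pow_sum, hc, Fintype.sum_prod_type,
    mul_pow]
  simp only [sum_const, card_univ, Fintype.card_sum, Fintype.card_fin, smul_eq_mul]
  ring

end

end Pool.Agent.MP_3924c3_nt.BR

end
end
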